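import Pool.Agent.H61.Local2

set_option autoImplicit false
set_option linter.all false

/-!
# Small configurations of triples which force a frequent element
-/

namespace Pool.Agent.H61.FC

open Finset

variable {α : Type*} [DecidableEq α]

theorem nn_ite {p : Prop} [Decidable p] {a b : ℝ} (ha : 0 ≤ a) (hb : 0 ≤ b) :
    0 ≤ if p then a else b := by
  split_ifs <;> assumption

theorem perm_012 (a b c : α) : ({a, b, c} : Finset α) = {a, b, c} := rfl

theorem perm_021 (a b c : α) : ({a, c, b} : Finset α) = {a, b, c} := by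
  rw [pair_comm]

theorem perm_102 (a b c : α) : ({b, a, c} : Finset α) = {a, b, c} := by
  ext t; simp only [mem_insert, mem_singleton]; tauto

theorem perm_120 (a b c : α) : ({b, c, a} : Finset α) = {a, b, c} := by
  ext t; simp only [mem_insert, mem_singleton]; tauto

theorem perm_201 (a b c : α) : ({c, a, b} : Finset α) = {a, b, c} := by
  ext t; simp only [mem_insert, mem_singleton]; tauto

theorem perm_210 (a b c : α) : ({c, b, a} : Finset α) = {a, b, c} := by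
  ext t; simp only [mem_insert, mem_singleton]; tauto

theorem cfg_sun3 {F : Finset (Finset α)} (hF : ∀ A ∈ F, ∀ B ∈ F, A ∪ B ∈ F)
    {v0 v1 v2 v3 v4 v5 v6 : α} (nd : [v0, v1, v2, v3, v4, v5, v6].Nodup)
    (t0 : ({v0, v1, v2} : Finset α) ∈ F)
    (t1 : ({v0, v3, v4} : Finset α) ∈ F)
    (t2 : ({v0, v5, v6} : Finset α) ∈ F)
    : ∃ x ∈ ({v0, v1, v2, v3, v4, v5, v6} : Finset α), F.card ≤ 2 * (F.filter (fun A => x ∈ A)).card := by
  simp only [List.nodup_cons, List.mem_cons, List.not_mem_nil, not_or, not_false_eq_true,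
    and_true, or_false, List.nodup_nil] at nd
  obtain ⟨⟨h0_1, h0_2, h0_3, h0_4, h0_5, h0_6⟩, ⟨h1_2, h1_3, h1_4, h1_5, h1_6⟩, ⟨h2_3, h2_4, h2_5, h2_6⟩, ⟨h3_4, h3_5, h3_6⟩, ⟨h4_5, h4_6⟩, h5_6⟩ := nd
  replace h0_1 : v0 ≠ v1 := h0_1
  have h1_0 : v1 ≠ v0 := h0_1.symm
  replace h0_2 : v0 ≠ v2 := h0_2
  have h2_0 : v2 ≠ v0 := h0_2.symm
  replace h0_3 : v0 ≠ v3 := h0_3
  have h3_0 : v3 ≠ v0 := h0_3.symm
  replace h0_4 : v0 ≠ v4 := h0_4
  have h4_0 : v4 ≠ v0 := h0_4.symm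
  replace h0_5 : v0 ≠ v5 := h0_5
  have h5_0 : v5 ≠ v0 := h0_5.symm
  replace h0_6 : v0 ≠ v6 := h0_6
  have h6_0 : v6 ≠ v0 := h0_6.symm
  replace h1_2 : v1 ≠ v2 := h1_2
  have h2_1 : v2 ≠ v1 := h1_2.symm
  replace h1_3 : v1 ≠ v3 := h1_3
  have h3_1 : v3 ≠ v1 := h1_3.symm
  replace h1_4 : v1 ≠ v4 := h1_4
  have h4_1 : v4 ≠ v1 := h1_4.symm
  replace h1_5 : v1 ≠ v5 := h1_5
  have h5_1 : v5 ≠ v1 := h1_5.symm
  replace h1_6 : v1 ≠ v6 := h1_6
  have h6_1 : v6 ≠ v1 := h1_6.symm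
  replace h2_3 : v2 ≠ v3 := h2_3
  have h3_2 : v3 ≠ v2 := h2_3.symm
  replace h2_4 : v2 ≠ v4 := h2_4
  have h4_2 : v4 ≠ v2 := h2_4.symm
  replace h2_5 : v2 ≠ v5 := h2_5
  have h5_2 : v5 ≠ v2 := h2_5.symm
  replace h2_6 : v2 ≠ v6 := h2_6
  have h6_2 : v6 ≠ v2 := h2_6.symm
  replace h3_4 : v3 ≠ v4 := h3_4
  have h4_3 : v4 ≠ v3 := h3_4.symm
  replace h3_5 : v3 ≠ v5 := h3_5
  have h5_3 : v5 ≠ v3 := h3_5.symm
  replace h3_6 : v3 ≠ v6 := h3_6
  have h6_3 : v6 ≠ v3 := h3_6.symm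
  replace h4_5 : v4 ≠ v5 := h4_5
  have h5_4 : v5 ≠ v4 := h4_5.symm
  replace h4_6 : v4 ≠ v6 := h4_6
  have h6_4 : v6 ≠ v4 := h4_6.symm
  replace h5_6 : v5 ≠ v6 := h5_6
  have h6_5 : v6 ≠ v5 := h5_6.symm
  obtain ⟨c, hc⟩ : ∃ c : α → ℝ, c = fun t => if t = v0 then 2 else if t = v1 then 1 else if t = v2 then 1 else if t = v3 then 1 else if t = v4 then 1 else if t = v5 then 1 else if t = v6 then 1 else 0 := ⟨_, rfl⟩
  have c0 : c v0 = 2 := by
    rw [hc]; exact if_pos rfl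
  have c1 : c v1 = 1 := by
    rw [hc]; exact (if_neg h1_0).trans (if_pos rfl)
  have c2 : c v2 = 1 := by
    rw [hc]; exact (if_neg h2_0).trans ((if_neg h2_1).trans (if_pos rfl))
  have c3 : c v3 = 1 := by
    rw [hc]; exact (if_neg h3_0).trans ((if_neg h3_1).trans ((if_neg h3_2).trans (if_pos rfl)))
  have c4 : c v4 = 1 := by
    rw [hc]; exact (if_neg h4_0).trans ((if_neg h4_1).trans ((if_neg h4_2).trans ((if_neg h4_3).trans (if_pos rfl))))
  have c5 : c v5 = 1 := by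
    rw [hc]; exact (if_neg h5_0).trans ((if_neg h5_1).trans ((if_neg h5_2).trans ((if_neg h5_3).trans ((if_neg h5_4).trans (if_pos rfl)))))
  have c6 : c v6 = 1 := by
    rw [hc]; exact (if_neg h6_0).trans ((if_neg h6_1).trans ((if_neg h6_2).trans ((if_neg h6_3).trans ((if_neg h6_4).trans ((if_neg h6_5).trans (if_pos rfl))))))
  have hsub : ∀ B ∈ ({{v0, v1, v2}, {v0, v3, v4}, {v0, v5, v6}} : Finset (Finset α)), B ⊆ ({v0, v1, v2, v3, v4, v5, v6} : Finset α) := by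
    intro B hB
    simp only [mem_insert, mem_singleton] at hB
    rcases hB with hB | hB | hB <;>
    · rw [hB]; simp only [insert_subset_iff, singleton_subset_iff, mem_insert, mem_singleton, true_or, or_true, and_self]
  have m0_1_2 : ({v0, v1, v2} : Finset α) ∈ ({{v0, v1, v2}, {v0, v3, v4}, {v0, v5, v6}} : Finset (Finset α)) := by
    rw [perm_012 v0 v1 v2]; simp only [mem_insert, mem_singleton, true_or, or_true]
  have m0_2_1 : ({v0, v2, v1} : Finset α) ∈ ({{v0, v1, v2}, {v0, v3, v4}, {v0, v5, v6}} : Finset (Finset α)) := by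
    rw [perm_021 v0 v1 v2]; simp only [mem_insert, mem_singleton, true_or, or_true]
  have m1_0_2 : ({v1, v0, v2} : Finset α) ∈ ({{v0, v1, v2}, {v0, v3, v4}, {v0, v5, v6}} : Finset (Finset α)) := by
    rw [perm_102 v0 v1 v2]; simp only [mem_insert, mem_singleton, true_or, or_true]
  have m1_2_0 : ({v1, v2, v0} : Finset α) ∈ ({{v0, v1, v2}, {v0, v3, v4}, {v0, v5, v6}} : Finset (Finset α)) := by
    rw [perm_120 v0 v1 v2]; simp only [mem_insert, mem_singleton, true_or, or_true]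
  have m2_0_1 : ({v2, v0, v1} : Finset α) ∈ ({{v0, v1, v2}, {v0, v3, v4}, {v0, v5, v6}} : Finset (Finset α)) := by
    rw [perm_201 v0 v1 v2]; simp only [mem_insert, mem_singleton, true_or, or_true]
  have m2_1_0 : ({v2, v1, v0} : Finset α) ∈ ({{v0, v1, v2}, {v0, v3, v4}, {v0, v5, v6}} : Finset (Finset α)) := by
    rw [perm_210 v0 v1 v2]; simp only [mem_insert, mem_singleton, true_or, or_true]
  have m0_3_4 : ({v0, v3, v4} : Finset α) ∈ ({{v0, v1, v2}, {v0, v3, v4}, {v0, v5, v6}} : Finset (Finset α)) := by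
    rw [perm_012 v0 v3 v4]; simp only [mem_insert, mem_singleton, true_or, or_true]
  have m0_4_3 : ({v0, v4, v3} : Finset α) ∈ ({{v0, v1, v2}, {v0, v3, v4}, {v0, v5, v6}} : Finset (Finset α)) := by
    rw [perm_021 v0 v3 v4]; simp only [mem_insert, mem_singleton, true_or, or_true]
  have m3_0_4 : ({v3, v0, v4} : Finset α) ∈ ({{v0, v1, v2}, {v0, v3, v4}, {v0, v5, v6}} : Finset (Finset α)) := by
    rw [perm_102 v0 v3 v4]; simp only [mem_insert, mem_singleton, true_or, or_true]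
  have m3_4_0 : ({v3, v4, v0} : Finset α) ∈ ({{v0, v1, v2}, {v0, v3, v4}, {v0, v5, v6}} : Finset (Finset α)) := by
    rw [perm_120 v0 v3 v4]; simp only [mem_insert, mem_singleton, true_or, or_true]
  have m4_0_3 : ({v4, v0, v3} : Finset α) ∈ ({{v0, v1, v2}, {v0, v3, v4}, {v0, v5, v6}} : Finset (Finset α)) := by
    rw [perm_201 v0 v3 v4]; simp only [mem_insert, mem_singleton, true_or, or_true]
  have m4_3_0 : ({v4, v3, v0} : Finset α) ∈ ({{v0, v1, v2}, {v0, v3, v4}, {v0, v5, v6}} : Finset (Finset α)) := by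
    rw [perm_210 v0 v3 v4]; simp only [mem_insert, mem_singleton, true_or, or_true]
  have m0_5_6 : ({v0, v5, v6} : Finset α) ∈ ({{v0, v1, v2}, {v0, v3, v4}, {v0, v5, v6}} : Finset (Finset α)) := by
    rw [perm_012 v0 v5 v6]; simp only [mem_insert, mem_singleton, true_or, or_true]
  have m0_6_5 : ({v0, v6, v5} : Finset α) ∈ ({{v0, v1, v2}, {v0, v3, v4}, {v0, v5, v6}} : Finset (Finset α)) := by
    rw [perm_021 v0 v5 v6]; simp only [mem_insert, mem_singleton, true_or, or_true]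
  have m5_0_6 : ({v5, v0, v6} : Finset α) ∈ ({{v0, v1, v2}, {v0, v3, v4}, {v0, v5, v6}} : Finset (Finset α)) := by
    rw [perm_102 v0 v5 v6]; simp only [mem_insert, mem_singleton, true_or, or_true]
  have m5_6_0 : ({v5, v6, v0} : Finset α) ∈ ({{v0, v1, v2}, {v0, v3, v4}, {v0, v5, v6}} : Finset (Finset α)) := by
    rw [perm_120 v0 v5 v6]; simp only [mem_insert, mem_singleton, true_or, or_true]
  have m6_0_5 : ({v6, v0, v5} : Finset α) ∈ ({{v0, v1, v2}, {v0, v3, v4}, {v0, v5, v6}} : Finset (Finset α)) := by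
    rw [perm_201 v0 v5 v6]; simp only [mem_insert, mem_singleton, true_or, or_true]
  have m6_5_0 : ({v6, v5, v0} : Finset α) ∈ ({{v0, v1, v2}, {v0, v3, v4}, {v0, v5, v6}} : Finset (Finset α)) := by
    rw [perm_210 v0 v5 v6]; simp only [mem_insert, mem_singleton, true_or, or_true]
  have hp : ∃ x ∈ ({v0, v1, v2, v3, v4, v5, v6} : Finset α), 0 < c x := ⟨v0, by simp, by rw [c0]; norm_num⟩
  have hGF : ({{v0, v1, v2}, {v0, v3, v4}, {v0, v5, v6}} : Finset (Finset α)) ⊆ F := by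
    intro B hB
    simp only [mem_insert, mem_singleton] at hB
    rcases hB with hB | hB | hB <;>
    · rw [hB]; assumption
  have hc0 : ∀ t, 0 ≤ c t := by
    intro t
    rw [hc]; exact nn_ite (by norm_num) (nn_ite (by norm_num) (nn_ite (by norm_num) (nn_ite (by norm_num) (nn_ite (by norm_num) (nn_ite (by norm_num) (nn_ite (by norm_num) (le_rfl)))))))
  apply fc_of_loc hF hsub hGF hc0 hp
  · intro x hx
    simp only [mem_insert, mem_singleton] at hx
    rcases hx with hx | hx | hx | hx | hx | hx | hx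
    · rw [hx]
      exact locOK3 hsub m0_1_2 m0_3_4 m0_5_6 h1_0 h2_0 h1_2 h3_0 h4_0 h3_4 h5_0 h6_0 h5_6
        h1_3 h1_4 h2_3 h2_4 h1_5 h1_6 h2_5 h2_6 h3_5 h3_6 h4_5 h4_6
        (r := (2 / 3)) (r' := (2 / 3)) (r'' := (2 / 3)) (by simp only [c0, c1, c2, c3, c4, c5, c6]; norm_num) (by simp only [c0, c1, c2, c3, c4, c5, c6]; norm_num) (by simp only [c0, c1, c2, c3, c4, c5, c6]; norm_num) (by norm_num) (by simp only [c0, c1, c2, c3, c4, c5, c6]; norm_num) (by simp only [c0, c1, c2, c3, c4, c5, c6]; norm_num) (by simp only [c0, c1, c2, c3, c4, c5, c6]; norm_num) (by norm_num) (by simp only [c0, c1, c2, c3, c4, c5, c6]; norm_num) (by simp only [c0, c1, c2, c3, c4, c5, c6]; norm_num) (by simp only [c0, c1, c2, c3, c4, c5, c6]; norm_num) (by norm_num) (by simp only [c0, c1, c2, c3, c4, c5, c6]; norm_num)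
    · rw [hx]
      exact locOK1 hsub m1_0_2 h0_1 h2_1 h0_2 (by simp only [c0, c1, c2, c3, c4, c5, c6]; norm_num) (by simp only [c0, c1, c2, c3, c4, c5, c6]; norm_num) (by simp only [c0, c1, c2, c3, c4, c5, c6]; norm_num) (by simp only [c0, c1, c2, c3, c4, c5, c6]; norm_num)
    · rw [hx]
      exact locOK1 hsub m2_0_1 h0_2 h1_2 h0_1 (by simp only [c0, c1, c2, c3, c4, c5, c6]; norm_num) (by simp only [c0, c1, c2, c3, c4, c5, c6]; norm_num) (by simp only [c0, c1, c2, c3, c4, c5, c6]; norm_num) (by simp only [c0, c1, c2, c3, c4, c5, c6]; norm_num)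
    · rw [hx]
      exact locOK1 hsub m3_0_4 h0_3 h4_3 h0_4 (by simp only [c0, c1, c2, c3, c4, c5, c6]; norm_num) (by simp only [c0, c1, c2, c3, c4, c5, c6]; norm_num) (by simp only [c0, c1, c2, c3, c4, c5, c6]; norm_num) (by simp only [c0, c1, c2, c3, c4, c5, c6]; norm_num)
    · rw [hx]
      exact locOK1 hsub m4_0_3 h0_4 h3_4 h0_3 (by simp only [c0, c1, c2, c3, c4, c5, c6]; norm_num) (by simp only [c0, c1, c2, c3, c4, c5, c6]; norm_num) (by simp only [c0, c1, c2, c3, c4, c5, c6]; norm_num) (by simp only [c0, c1, c2, c3, c4, c5, c6]; norm_num)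
    · rw [hx]
      exact locOK1 hsub m5_0_6 h0_5 h6_5 h0_6 (by simp only [c0, c1, c2, c3, c4, c5, c6]; norm_num) (by simp only [c0, c1, c2, c3, c4, c5, c6]; norm_num) (by simp only [c0, c1, c2, c3, c4, c5, c6]; norm_num) (by simp only [c0, c1, c2, c3, c4, c5, c6]; norm_num)
    · rw [hx]
      exact locOK1 hsub m6_0_5 h0_6 h5_6 h0_5 (by simp only [c0, c1, c2, c3, c4, c5, c6]; norm_num) (by simp only [c0, c1, c2, c3, c4, c5, c6]; norm_num) (by simp only [c0, c1, c2, c3, c4, c5, c6]; norm_num) (by simp only [c0, c1, c2, c3, c4, c5, c6]; norm_num)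

theorem cfg_p3k2 {F : Finset (Finset α)} (hF : ∀ A ∈ F, ∀ B ∈ F, A ∪ B ∈ F)
    {v0 v1 v2 v3 v4 v5 : α} (nd : [v0, v1, v2, v3, v4, v5].Nodup)
    (t0 : ({v0, v1, v2} : Finset α) ∈ F)
    (t1 : ({v0, v1, v3} : Finset α) ∈ F)
    (t2 : ({v0, v4, v5} : Finset α) ∈ F)
    : ∃ x ∈ ({v0, v1, v2, v3, v4, v5} : Finset α), F.card ≤ 2 * (F.filter (fun A => x ∈ A)).card := by
  simp only [List.nodup_cons, List.mem_cons, List.not_mem_nil, not_or, not_false_eq_true,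
    and_true, or_false, List.nodup_nil] at nd
  obtain ⟨⟨h0_1, h0_2, h0_3, h0_4, h0_5⟩, ⟨h1_2, h1_3, h1_4, h1_5⟩, ⟨h2_3, h2_4, h2_5⟩, ⟨h3_4, h3_5⟩, h4_5⟩ := nd
  replace h0_1 : v0 ≠ v1 := h0_1
  have h1_0 : v1 ≠ v0 := h0_1.symm
  replace h0_2 : v0 ≠ v2 := h0_2
  have h2_0 : v2 ≠ v0 := h0_2.symm
  replace h0_3 : v0 ≠ v3 := h0_3
  have h3_0 : v3 ≠ v0 := h0_3.symm
  replace h0_4 : v0 ≠ v4 := h0_4
  have h4_0 : v4 ≠ v0 := h0_4.symm
  replace h0_5 : v0 ≠ v5 := h0_5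
  have h5_0 : v5 ≠ v0 := h0_5.symm
  replace h1_2 : v1 ≠ v2 := h1_2
  have h2_1 : v2 ≠ v1 := h1_2.symm
  replace h1_3 : v1 ≠ v3 := h1_3
  have h3_1 : v3 ≠ v1 := h1_3.symm
  replace h1_4 : v1 ≠ v4 := h1_4
  have h4_1 : v4 ≠ v1 := h1_4.symm
  replace h1_5 : v1 ≠ v5 := h1_5
  have h5_1 : v5 ≠ v1 := h1_5.symm
  replace h2_3 : v2 ≠ v3 := h2_3
  have h3_2 : v3 ≠ v2 := h2_3.symm
  replace h2_4 : v2 ≠ v4 := h2_4
  have h4_2 : v4 ≠ v2 := h2_4.symm
  replace h2_5 : v2 ≠ v5 := h2_5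
  have h5_2 : v5 ≠ v2 := h2_5.symm
  replace h3_4 : v3 ≠ v4 := h3_4
  have h4_3 : v4 ≠ v3 := h3_4.symm
  replace h3_5 : v3 ≠ v5 := h3_5
  have h5_3 : v5 ≠ v3 := h3_5.symm
  replace h4_5 : v4 ≠ v5 := h4_5
  have h5_4 : v5 ≠ v4 := h4_5.symm
  obtain ⟨c, hc⟩ : ∃ c : α → ℝ, c = fun t => if t = v0 then 12 else if t = v1 then 9 else if t = v2 then 7 else if t = v3 then 7 else if t = v4 then 6 else if t = v5 then 6 else 0 := ⟨_, rfl⟩
  have c0 : c v0 = 12 := by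
    rw [hc]; exact if_pos rfl
  have c1 : c v1 = 9 := by
    rw [hc]; exact (if_neg h1_0).trans (if_pos rfl)
  have c2 : c v2 = 7 := by
    rw [hc]; exact (if_neg h2_0).trans ((if_neg h2_1).trans (if_pos rfl))
  have c3 : c v3 = 7 := by
    rw [hc]; exact (if_neg h3_0).trans ((if_neg h3_1).trans ((if_neg h3_2).trans (if_pos rfl)))
  have c4 : c v4 = 6 := by
    rw [hc]; exact (if_neg h4_0).trans ((if_neg h4_1).trans ((if_neg h4_2).trans ((if_neg h4_3).trans (if_pos rfl))))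
  have c5 : c v5 = 6 := by
    rw [hc]; exact (if_neg h5_0).trans ((if_neg h5_1).trans ((if_neg h5_2).trans ((if_neg h5_3).trans ((if_neg h5_4).trans (if_pos rfl)))))
  have hsub : ∀ B ∈ ({{v0, v1, v2}, {v0, v1, v3}, {v0, v4, v5}} : Finset (Finset α)), B ⊆ ({v0, v1, v2, v3, v4, v5} : Finset α) := by
    intro B hB
    simp only [mem_insert, mem_singleton] at hB
    rcases hB with hB | hB | hB <;>
    · rw [hB]; simp only [insert_subset_iff, singleton_subset_iff, mem_insert, mem_singleton, true_or, or_true, and_self]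
  have m0_1_2 : ({v0, v1, v2} : Finset α) ∈ ({{v0, v1, v2}, {v0, v1, v3}, {v0, v4, v5}} : Finset (Finset α)) := by
    rw [perm_012 v0 v1 v2]; simp only [mem_insert, mem_singleton, true_or, or_true]
  have m0_2_1 : ({v0, v2, v1} : Finset α) ∈ ({{v0, v1, v2}, {v0, v1, v3}, {v0, v4, v5}} : Finset (Finset α)) := by
    rw [perm_021 v0 v1 v2]; simp only [mem_insert, mem_singleton, true_or, or_true]
  have m1_0_2 : ({v1, v0, v2} : Finset α) ∈ ({{v0, v1, v2}, {v0, v1, v3}, {v0, v4, v5}} : Finset (Finset α)) := by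
    rw [perm_102 v0 v1 v2]; simp only [mem_insert, mem_singleton, true_or, or_true]
  have m1_2_0 : ({v1, v2, v0} : Finset α) ∈ ({{v0, v1, v2}, {v0, v1, v3}, {v0, v4, v5}} : Finset (Finset α)) := by
    rw [perm_120 v0 v1 v2]; simp only [mem_insert, mem_singleton, true_or, or_true]
  have m2_0_1 : ({v2, v0, v1} : Finset α) ∈ ({{v0, v1, v2}, {v0, v1, v3}, {v0, v4, v5}} : Finset (Finset α)) := by
    rw [perm_201 v0 v1 v2]; simp only [mem_insert, mem_singleton, true_or, or_true]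
  have m2_1_0 : ({v2, v1, v0} : Finset α) ∈ ({{v0, v1, v2}, {v0, v1, v3}, {v0, v4, v5}} : Finset (Finset α)) := by
    rw [perm_210 v0 v1 v2]; simp only [mem_insert, mem_singleton, true_or, or_true]
  have m0_1_3 : ({v0, v1, v3} : Finset α) ∈ ({{v0, v1, v2}, {v0, v1, v3}, {v0, v4, v5}} : Finset (Finset α)) := by
    rw [perm_012 v0 v1 v3]; simp only [mem_insert, mem_singleton, true_or, or_true]
  have m0_3_1 : ({v0, v3, v1} : Finset α) ∈ ({{v0, v1, v2}, {v0, v1, v3}, {v0, v4, v5}} : Finset (Finset α)) := by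
    rw [perm_021 v0 v1 v3]; simp only [mem_insert, mem_singleton, true_or, or_true]
  have m1_0_3 : ({v1, v0, v3} : Finset α) ∈ ({{v0, v1, v2}, {v0, v1, v3}, {v0, v4, v5}} : Finset (Finset α)) := by
    rw [perm_102 v0 v1 v3]; simp only [mem_insert, mem_singleton, true_or, or_true]
  have m1_3_0 : ({v1, v3, v0} : Finset α) ∈ ({{v0, v1, v2}, {v0, v1, v3}, {v0, v4, v5}} : Finset (Finset α)) := by
    rw [perm_120 v0 v1 v3]; simp only [mem_insert, mem_singleton, true_or, or_true]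
  have m3_0_1 : ({v3, v0, v1} : Finset α) ∈ ({{v0, v1, v2}, {v0, v1, v3}, {v0, v4, v5}} : Finset (Finset α)) := by
    rw [perm_201 v0 v1 v3]; simp only [mem_insert, mem_singleton, true_or, or_true]
  have m3_1_0 : ({v3, v1, v0} : Finset α) ∈ ({{v0, v1, v2}, {v0, v1, v3}, {v0, v4, v5}} : Finset (Finset α)) := by
    rw [perm_210 v0 v1 v3]; simp only [mem_insert, mem_singleton, true_or, or_true]
  have m0_4_5 : ({v0, v4, v5} : Finset α) ∈ ({{v0, v1, v2}, {v0, v1, v3}, {v0, v4, v5}} : Finset (Finset α)) := by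
    rw [perm_012 v0 v4 v5]; simp only [mem_insert, mem_singleton, true_or, or_true]
  have m0_5_4 : ({v0, v5, v4} : Finset α) ∈ ({{v0, v1, v2}, {v0, v1, v3}, {v0, v4, v5}} : Finset (Finset α)) := by
    rw [perm_021 v0 v4 v5]; simp only [mem_insert, mem_singleton, true_or, or_true]
  have m4_0_5 : ({v4, v0, v5} : Finset α) ∈ ({{v0, v1, v2}, {v0, v1, v3}, {v0, v4, v5}} : Finset (Finset α)) := by
    rw [perm_102 v0 v4 v5]; simp only [mem_insert, mem_singleton, true_or, or_true]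
  have m4_5_0 : ({v4, v5, v0} : Finset α) ∈ ({{v0, v1, v2}, {v0, v1, v3}, {v0, v4, v5}} : Finset (Finset α)) := by
    rw [perm_120 v0 v4 v5]; simp only [mem_insert, mem_singleton, true_or, or_true]
  have m5_0_4 : ({v5, v0, v4} : Finset α) ∈ ({{v0, v1, v2}, {v0, v1, v3}, {v0, v4, v5}} : Finset (Finset α)) := by
    rw [perm_201 v0 v4 v5]; simp only [mem_insert, mem_singleton, true_or, or_true]
  have m5_4_0 : ({v5, v4, v0} : Finset α) ∈ ({{v0, v1, v2}, {v0, v1, v3}, {v0, v4, v5}} : Finset (Finset α)) := by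
    rw [perm_210 v0 v4 v5]; simp only [mem_insert, mem_singleton, true_or, or_true]
  have hp : ∃ x ∈ ({v0, v1, v2, v3, v4, v5} : Finset α), 0 < c x := ⟨v0, by simp, by rw [c0]; norm_num⟩
  have hGF : ({{v0, v1, v2}, {v0, v1, v3}, {v0, v4, v5}} : Finset (Finset α)) ⊆ F := by
    intro B hB
    simp only [mem_insert, mem_singleton] at hB
    rcases hB with hB | hB | hB <;>
    · rw [hB]; assumption
  have hc0 : ∀ t, 0 ≤ c t := by
    intro t
    rw [hc]; exact nn_ite (by norm_num) (nn_ite (by norm_num) (nn_ite (by norm_num) (nn_ite (by norm_num) (nn_ite (by norm_num) (nn_ite (by norm_num) (le_rfl))))))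
  apply fc_of_loc hF hsub hGF hc0 hp
  · intro x hx
    simp only [mem_insert, mem_singleton] at hx
    rcases hx with hx | hx | hx | hx | hx | hx
    · rw [hx]
      exact locOKstarE hsub m0_1_2 m0_1_3 m0_4_5 h1_0 h2_0 h3_0 h4_0 h5_0
        h1_2 h1_3 h2_3 h1_4 h1_5 h2_4 h2_5 h3_4 h3_5 h4_5 (r := (41 / 5)) (r' := 4)
        (by simp only [c0, c1, c2, c3, c4, c5]; norm_num) (by simp only [c0, c1, c2, c3, c4, c5]; norm_num) (by norm_num) (by simp only [c0, c1, c2, c3, c4, c5]; norm_num) (by simp only [c0, c1, c2, c3, c4, c5]; norm_num) (by simp only [c0, c1, c2, c3, c4, c5]; norm_num) (by simp only [c0, c1, c2, c3, c4, c5]; norm_num) (by simp only [c0, c1, c2, c3, c4, c5]; norm_num) (by simp only [c0, c1, c2, c3, c4, c5]; norm_num) (by simp only [c0, c1, c2, c3, c4, c5]; norm_num) (by simp only [c0, c1, c2, c3, c4, c5]; norm_num) (by simp only [c0, c1, c2, c3, c4, c5]; norm_num) (by norm_num) (by simp only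 [c0, c1, c2, c3, c4, c5]; norm_num)
    · rw [hx]
      exact locOKstar hsub m1_0_2 m1_0_3 h0_1 h2_1 h3_1 h0_2 h0_3 h2_3
        (by simp only [c0, c1, c2, c3, c4, c5]; norm_num) (by simp only [c0, c1, c2, c3, c4, c5]; norm_num) (by simp only [c0, c1, c2, c3, c4, c5]; norm_num) (by simp only [c0, c1, c2, c3, c4, c5]; norm_num) (by simp only [c0, c1, c2, c3, c4, c5]; norm_num) (by simp only [c0, c1, c2, c3, c4, c5]; norm_num) (by simp only [c0, c1, c2, c3, c4, c5]; norm_num) (by simp only [c0, c1, c2, c3, c4, c5]; norm_num) (by simp only [c0, c1, c2, c3, c4, c5]; norm_num)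
    · rw [hx]
      exact locOK1 hsub m2_0_1 h0_2 h1_2 h0_1 (by simp only [c0, c1, c2, c3, c4, c5]; norm_num) (by simp only [c0, c1, c2, c3, c4, c5]; norm_num) (by simp only [c0, c1, c2, c3, c4, c5]; norm_num) (by simp only [c0, c1, c2, c3, c4, c5]; norm_num)
    · rw [hx]
      exact locOK1 hsub m3_0_1 h0_3 h1_3 h0_1 (by simp only [c0, c1, c2, c3, c4, c5]; norm_num) (by simp only [c0, c1, c2, c3, c4, c5]; norm_num) (by simp only [c0, c1, c2, c3, c4, c5]; norm_num) (by simp only [c0, c1, c2, c3, c4, c5]; norm_num)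
    · rw [hx]
      exact locOK1 hsub m4_0_5 h0_4 h5_4 h0_5 (by simp only [c0, c1, c2, c3, c4, c5]; norm_num) (by simp only [c0, c1, c2, c3, c4, c5]; norm_num) (by simp only [c0, c1, c2, c3, c4, c5]; norm_num) (by simp only [c0, c1, c2, c3, c4, c5]; norm_num)
    · rw [hx]
      exact locOK1 hsub m5_0_4 h0_5 h4_5 h0_4 (by simp only [c0, c1, c2, c3, c4, c5]; norm_num) (by simp only [c0, c1, c2, c3, c4, c5]; norm_num) (by simp only [c0, c1, c2, c3, c4, c5]; norm_num) (by simp only [c0, c1, c2, c3, c4, c5]; norm_num)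

theorem cfg_lp4 {F : Finset (Finset α)} (hF : ∀ A ∈ F, ∀ B ∈ F, A ∪ B ∈ F)
    {v0 v1 v2 v3 v4 : α} (nd : [v0, v1, v2, v3, v4].Nodup)
    (t0 : ({v0, v1, v2} : Finset α) ∈ F)
    (t1 : ({v0, v2, v3} : Finset α) ∈ F)
    (t2 : ({v0, v3, v4} : Finset α) ∈ F)
    : ∃ x ∈ ({v0, v1, v2, v3, v4} : Finset α), F.card ≤ 2 * (F.filter (fun A => x ∈ A)).card := by
  simp only [List.nodup_cons, List.mem_cons, List.not_mem_nil, not_or, not_false_eq_true,
    and_true, or_false, List.nodup_nil] at nd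
  obtain ⟨⟨h0_1, h0_2, h0_3, h0_4⟩, ⟨h1_2, h1_3, h1_4⟩, ⟨h2_3, h2_4⟩, h3_4⟩ := nd
  replace h0_1 : v0 ≠ v1 := h0_1
  have h1_0 : v1 ≠ v0 := h0_1.symm
  replace h0_2 : v0 ≠ v2 := h0_2
  have h2_0 : v2 ≠ v0 := h0_2.symm
  replace h0_3 : v0 ≠ v3 := h0_3
  have h3_0 : v3 ≠ v0 := h0_3.symm
  replace h0_4 : v0 ≠ v4 := h0_4
  have h4_0 : v4 ≠ v0 := h0_4.symm
  replace h1_2 : v1 ≠ v2 := h1_2
  have h2_1 : v2 ≠ v1 := h1_2.symm
  replace h1_3 : v1 ≠ v3 := h1_3
  have h3_1 : v3 ≠ v1 := h1_3.symm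
  replace h1_4 : v1 ≠ v4 := h1_4
  have h4_1 : v4 ≠ v1 := h1_4.symm
  replace h2_3 : v2 ≠ v3 := h2_3
  have h3_2 : v3 ≠ v2 := h2_3.symm
  replace h2_4 : v2 ≠ v4 := h2_4
  have h4_2 : v4 ≠ v2 := h2_4.symm
  replace h3_4 : v3 ≠ v4 := h3_4
  have h4_3 : v4 ≠ v3 := h3_4.symm
  obtain ⟨c, hc⟩ : ∃ c : α → ℝ, c = fun t => if t = v0 then 6 else if t = v1 then 3 else if t = v2 then 5 else if t = v3 then 5 else if t = v4 then 3 else 0 := ⟨_, rfl⟩
  have c0 : c v0 = 6 := by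
    rw [hc]; exact if_pos rfl
  have c1 : c v1 = 3 := by
    rw [hc]; exact (if_neg h1_0).trans (if_pos rfl)
  have c2 : c v2 = 5 := by
    rw [hc]; exact (if_neg h2_0).trans ((if_neg h2_1).trans (if_pos rfl))
  have c3 : c v3 = 5 := by
    rw [hc]; exact (if_neg h3_0).trans ((if_neg h3_1).trans ((if_neg h3_2).trans (if_pos rfl)))
  have c4 : c v4 = 3 := by
    rw [hc]; exact (if_neg h4_0).trans ((if_neg h4_1).trans ((if_neg h4_2).trans ((if_neg h4_3).trans (if_pos rfl))))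
  have hsub : ∀ B ∈ ({{v0, v1, v2}, {v0, v2, v3}, {v0, v3, v4}} : Finset (Finset α)), B ⊆ ({v0, v1, v2, v3, v4} : Finset α) := by
    intro B hB
    simp only [mem_insert, mem_singleton] at hB
    rcases hB with hB | hB | hB <;>
    · rw [hB]; simp only [insert_subset_iff, singleton_subset_iff, mem_insert, mem_singleton, true_or, or_true, and_self]
  have m0_1_2 : ({v0, v1, v2} : Finset α) ∈ ({{v0, v1, v2}, {v0, v2, v3}, {v0, v3, v4}} : Finset (Finset α)) := by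
    rw [perm_012 v0 v1 v2]; simp only [mem_insert, mem_singleton, true_or, or_true]
  have m0_2_1 : ({v0, v2, v1} : Finset α) ∈ ({{v0, v1, v2}, {v0, v2, v3}, {v0, v3, v4}} : Finset (Finset α)) := by
    rw [perm_021 v0 v1 v2]; simp only [mem_insert, mem_singleton, true_or, or_true]
  have m1_0_2 : ({v1, v0, v2} : Finset α) ∈ ({{v0, v1, v2}, {v0, v2, v3}, {v0, v3, v4}} : Finset (Finset α)) := by
    rw [perm_102 v0 v1 v2]; simp only [mem_insert, mem_singleton, true_or, or_true]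
  have m1_2_0 : ({v1, v2, v0} : Finset α) ∈ ({{v0, v1, v2}, {v0, v2, v3}, {v0, v3, v4}} : Finset (Finset α)) := by
    rw [perm_120 v0 v1 v2]; simp only [mem_insert, mem_singleton, true_or, or_true]
  have m2_0_1 : ({v2, v0, v1} : Finset α) ∈ ({{v0, v1, v2}, {v0, v2, v3}, {v0, v3, v4}} : Finset (Finset α)) := by
    rw [perm_201 v0 v1 v2]; simp only [mem_insert, mem_singleton, true_or, or_true]
  have m2_1_0 : ({v2, v1, v0} : Finset α) ∈ ({{v0, v1, v2}, {v0, v2, v3}, {v0, v3, v4}} : Finset (Finset α)) := by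
    rw [perm_210 v0 v1 v2]; simp only [mem_insert, mem_singleton, true_or, or_true]
  have m0_2_3 : ({v0, v2, v3} : Finset α) ∈ ({{v0, v1, v2}, {v0, v2, v3}, {v0, v3, v4}} : Finset (Finset α)) := by
    rw [perm_012 v0 v2 v3]; simp only [mem_insert, mem_singleton, true_or, or_true]
  have m0_3_2 : ({v0, v3, v2} : Finset α) ∈ ({{v0, v1, v2}, {v0, v2, v3}, {v0, v3, v4}} : Finset (Finset α)) := by
    rw [perm_021 v0 v2 v3]; simp only [mem_insert, mem_singleton, true_or, or_true]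
  have m2_0_3 : ({v2, v0, v3} : Finset α) ∈ ({{v0, v1, v2}, {v0, v2, v3}, {v0, v3, v4}} : Finset (Finset α)) := by
    rw [perm_102 v0 v2 v3]; simp only [mem_insert, mem_singleton, true_or, or_true]
  have m2_3_0 : ({v2, v3, v0} : Finset α) ∈ ({{v0, v1, v2}, {v0, v2, v3}, {v0, v3, v4}} : Finset (Finset α)) := by
    rw [perm_120 v0 v2 v3]; simp only [mem_insert, mem_singleton, true_or, or_true]
  have m3_0_2 : ({v3, v0, v2} : Finset α) ∈ ({{v0, v1, v2}, {v0, v2, v3}, {v0, v3, v4}} : Finset (Finset α)) := by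
    rw [perm_201 v0 v2 v3]; simp only [mem_insert, mem_singleton, true_or, or_true]
  have m3_2_0 : ({v3, v2, v0} : Finset α) ∈ ({{v0, v1, v2}, {v0, v2, v3}, {v0, v3, v4}} : Finset (Finset α)) := by
    rw [perm_210 v0 v2 v3]; simp only [mem_insert, mem_singleton, true_or, or_true]
  have m0_3_4 : ({v0, v3, v4} : Finset α) ∈ ({{v0, v1, v2}, {v0, v2, v3}, {v0, v3, v4}} : Finset (Finset α)) := by
    rw [perm_012 v0 v3 v4]; simp only [mem_insert, mem_singleton, true_or, or_true]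
  have m0_4_3 : ({v0, v4, v3} : Finset α) ∈ ({{v0, v1, v2}, {v0, v2, v3}, {v0, v3, v4}} : Finset (Finset α)) := by
    rw [perm_021 v0 v3 v4]; simp only [mem_insert, mem_singleton, true_or, or_true]
  have m3_0_4 : ({v3, v0, v4} : Finset α) ∈ ({{v0, v1, v2}, {v0, v2, v3}, {v0, v3, v4}} : Finset (Finset α)) := by
    rw [perm_102 v0 v3 v4]; simp only [mem_insert, mem_singleton, true_or, or_true]
  have m3_4_0 : ({v3, v4, v0} : Finset α) ∈ ({{v0, v1, v2}, {v0, v2, v3}, {v0, v3, v4}} : Finset (Finset α)) := by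
    rw [perm_120 v0 v3 v4]; simp only [mem_insert, mem_singleton, true_or, or_true]
  have m4_0_3 : ({v4, v0, v3} : Finset α) ∈ ({{v0, v1, v2}, {v0, v2, v3}, {v0, v3, v4}} : Finset (Finset α)) := by
    rw [perm_201 v0 v3 v4]; simp only [mem_insert, mem_singleton, true_or, or_true]
  have m4_3_0 : ({v4, v3, v0} : Finset α) ∈ ({{v0, v1, v2}, {v0, v2, v3}, {v0, v3, v4}} : Finset (Finset α)) := by
    rw [perm_210 v0 v3 v4]; simp only [mem_insert, mem_singleton, true_or, or_true]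
  have hp : ∃ x ∈ ({v0, v1, v2, v3, v4} : Finset α), 0 < c x := ⟨v0, by simp, by rw [c0]; norm_num⟩
  have hGF : ({{v0, v1, v2}, {v0, v2, v3}, {v0, v3, v4}} : Finset (Finset α)) ⊆ F := by
    intro B hB
    simp only [mem_insert, mem_singleton] at hB
    rcases hB with hB | hB | hB <;>
    · rw [hB]; assumption
  have hc0 : ∀ t, 0 ≤ c t := by
    intro t
    rw [hc]; exact nn_ite (by norm_num) (nn_ite (by norm_num) (nn_ite (by norm_num) (nn_ite (by norm_num) (nn_ite (by norm_num) (le_rfl)))))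
  apply fc_of_loc hF hsub hGF hc0 hp
  · intro x hx
    simp only [mem_insert, mem_singleton] at hx
    rcases hx with hx | hx | hx | hx | hx
    · rw [hx]
      exact locOKpath4G hsub m0_1_2 m0_2_3 m0_3_4 h1_0 h2_0 h3_0 h4_0 h1_2 h1_3 h1_4 h2_3 h2_4 h3_4 (by simp only [c0, c1, c2, c3, c4]; norm_num) (by simp only [c0, c1, c2, c3, c4]; norm_num) (by simp only [c0, c1, c2, c3, c4]; norm_num) (by simp only [c0, c1, c2, c3, c4]; norm_num) (by simp only [c0, c1, c2, c3, c4]; norm_num)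
    · rw [hx]
      exact locOK1 hsub m1_0_2 h0_1 h2_1 h0_2 (by simp only [c0, c1, c2, c3, c4]; norm_num) (by simp only [c0, c1, c2, c3, c4]; norm_num) (by simp only [c0, c1, c2, c3, c4]; norm_num) (by simp only [c0, c1, c2, c3, c4]; norm_num)
    · rw [hx]
      exact locOKstar hsub m2_0_1 m2_0_3 h0_2 h1_2 h3_2 h0_1 h0_3 h1_3
        (by simp only [c0, c1, c2, c3, c4]; norm_num) (by simp only [c0, c1, c2, c3, c4]; norm_num) (by simp only [c0, c1, c2, c3, c4]; norm_num) (by simp only [c0, c1, c2, c3, c4]; norm_num) (by simp only [c0, c1, c2, c3, c4]; norm_num) (by simp only [c0, c1, c2, c3, c4]; norm_num) (by simp only [c0, c1, c2, c3, c4]; norm_num) (by simp only [c0, c1, c2, c3, c4]; norm_num) (by simp only [c0, c1, c2, c3, c4]; norm_num)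
    · rw [hx]
      exact locOKstar hsub m3_0_2 m3_0_4 h0_3 h2_3 h4_3 h0_2 h0_4 h2_4
        (by simp only [c0, c1, c2, c3, c4]; norm_num) (by simp only [c0, c1, c2, c3, c4]; norm_num) (by simp only [c0, c1, c2, c3, c4]; norm_num) (by simp only [c0, c1, c2, c3, c4]; norm_num) (by simp only [c0, c1, c2, c3, c4]; norm_num) (by simp only [c0, c1, c2, c3, c4]; norm_num) (by simp only [c0, c1, c2, c3, c4]; norm_num) (by simp only [c0, c1, c2, c3, c4]; norm_num) (by simp only [c0, c1, c2, c3, c4]; norm_num)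
    · rw [hx]
      exact locOK1 hsub m4_0_3 h0_4 h3_4 h0_3 (by simp only [c0, c1, c2, c3, c4]; norm_num) (by simp only [c0, c1, c2, c3, c4]; norm_num) (by simp only [c0, c1, c2, c3, c4]; norm_num) (by simp only [c0, c1, c2, c3, c4]; norm_num)

theorem cfg_k3 {F : Finset (Finset α)} (hF : ∀ A ∈ F, ∀ B ∈ F, A ∪ B ∈ F)
    {v0 v1 v2 v3 : α} (nd : [v0, v1, v2, v3].Nodup)
    (t0 : ({v0, v1, v2} : Finset α) ∈ F)
    (t1 : ({v0, v1, v3} : Finset α) ∈ F)
    (t2 : ({v0, v2, v3} : Finset α) ∈ F)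
    : ∃ x ∈ ({v0, v1, v2, v3} : Finset α), F.card ≤ 2 * (F.filter (fun A => x ∈ A)).card := by
  simp only [List.nodup_cons, List.mem_cons, List.not_mem_nil, not_or, not_false_eq_true,
    and_true, or_false, List.nodup_nil] at nd
  obtain ⟨⟨h0_1, h0_2, h0_3⟩, ⟨h1_2, h1_3⟩, h2_3⟩ := nd
  replace h0_1 : v0 ≠ v1 := h0_1
  have h1_0 : v1 ≠ v0 := h0_1.symm
  replace h0_2 : v0 ≠ v2 := h0_2
  have h2_0 : v2 ≠ v0 := h0_2.symm
  replace h0_3 : v0 ≠ v3 := h0_3
  have h3_0 : v3 ≠ v0 := h0_3.symm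
  replace h1_2 : v1 ≠ v2 := h1_2
  have h2_1 : v2 ≠ v1 := h1_2.symm
  replace h1_3 : v1 ≠ v3 := h1_3
  have h3_1 : v3 ≠ v1 := h1_3.symm
  replace h2_3 : v2 ≠ v3 := h2_3
  have h3_2 : v3 ≠ v2 := h2_3.symm
  obtain ⟨c, hc⟩ : ∃ c : α → ℝ, c = fun t => if t = v0 then 1 else if t = v1 then 1 else if t = v2 then 1 else if t = v3 then 1 else 0 := ⟨_, rfl⟩
  have c0 : c v0 = 1 := by
    rw [hc]; exact if_pos rfl
  have c1 : c v1 = 1 := by
    rw [hc]; exact (if_neg h1_0).trans (if_pos rfl)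
  have c2 : c v2 = 1 := by
    rw [hc]; exact (if_neg h2_0).trans ((if_neg h2_1).trans (if_pos rfl))
  have c3 : c v3 = 1 := by
    rw [hc]; exact (if_neg h3_0).trans ((if_neg h3_1).trans ((if_neg h3_2).trans (if_pos rfl)))
  have hsub : ∀ B ∈ ({{v0, v1, v2}, {v0, v1, v3}, {v0, v2, v3}} : Finset (Finset α)), B ⊆ ({v0, v1, v2, v3} : Finset α) := by
    intro B hB
    simp only [mem_insert, mem_singleton] at hB
    rcases hB with hB | hB | hB <;>
    · rw [hB]; simp only [insert_subset_iff, singleton_subset_iff, mem_insert, mem_singleton, true_or, or_true, and_self]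
  have m0_1_2 : ({v0, v1, v2} : Finset α) ∈ ({{v0, v1, v2}, {v0, v1, v3}, {v0, v2, v3}} : Finset (Finset α)) := by
    rw [perm_012 v0 v1 v2]; simp only [mem_insert, mem_singleton, true_or, or_true]
  have m0_2_1 : ({v0, v2, v1} : Finset α) ∈ ({{v0, v1, v2}, {v0, v1, v3}, {v0, v2, v3}} : Finset (Finset α)) := by
    rw [perm_021 v0 v1 v2]; simp only [mem_insert, mem_singleton, true_or, or_true]
  have m1_0_2 : ({v1, v0, v2} : Finset α) ∈ ({{v0, v1, v2}, {v0, v1, v3}, {v0, v2, v3}} : Finset (Finset α)) := by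
    rw [perm_102 v0 v1 v2]; simp only [mem_insert, mem_singleton, true_or, or_true]
  have m1_2_0 : ({v1, v2, v0} : Finset α) ∈ ({{v0, v1, v2}, {v0, v1, v3}, {v0, v2, v3}} : Finset (Finset α)) := by
    rw [perm_120 v0 v1 v2]; simp only [mem_insert, mem_singleton, true_or, or_true]
  have m2_0_1 : ({v2, v0, v1} : Finset α) ∈ ({{v0, v1, v2}, {v0, v1, v3}, {v0, v2, v3}} : Finset (Finset α)) := by
    rw [perm_201 v0 v1 v2]; simp only [mem_insert, mem_singleton, true_or, or_true]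
  have m2_1_0 : ({v2, v1, v0} : Finset α) ∈ ({{v0, v1, v2}, {v0, v1, v3}, {v0, v2, v3}} : Finset (Finset α)) := by
    rw [perm_210 v0 v1 v2]; simp only [mem_insert, mem_singleton, true_or, or_true]
  have m0_1_3 : ({v0, v1, v3} : Finset α) ∈ ({{v0, v1, v2}, {v0, v1, v3}, {v0, v2, v3}} : Finset (Finset α)) := by
    rw [perm_012 v0 v1 v3]; simp only [mem_insert, mem_singleton, true_or, or_true]
  have m0_3_1 : ({v0, v3, v1} : Finset α) ∈ ({{v0, v1, v2}, {v0, v1, v3}, {v0, v2, v3}} : Finset (Finset α)) := by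
    rw [perm_021 v0 v1 v3]; simp only [mem_insert, mem_singleton, true_or, or_true]
  have m1_0_3 : ({v1, v0, v3} : Finset α) ∈ ({{v0, v1, v2}, {v0, v1, v3}, {v0, v2, v3}} : Finset (Finset α)) := by
    rw [perm_102 v0 v1 v3]; simp only [mem_insert, mem_singleton, true_or, or_true]
  have m1_3_0 : ({v1, v3, v0} : Finset α) ∈ ({{v0, v1, v2}, {v0, v1, v3}, {v0, v2, v3}} : Finset (Finset α)) := by
    rw [perm_120 v0 v1 v3]; simp only [mem_insert, mem_singleton, true_or, or_true]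
  have m3_0_1 : ({v3, v0, v1} : Finset α) ∈ ({{v0, v1, v2}, {v0, v1, v3}, {v0, v2, v3}} : Finset (Finset α)) := by
    rw [perm_201 v0 v1 v3]; simp only [mem_insert, mem_singleton, true_or, or_true]
  have m3_1_0 : ({v3, v1, v0} : Finset α) ∈ ({{v0, v1, v2}, {v0, v1, v3}, {v0, v2, v3}} : Finset (Finset α)) := by
    rw [perm_210 v0 v1 v3]; simp only [mem_insert, mem_singleton, true_or, or_true]
  have m0_2_3 : ({v0, v2, v3} : Finset α) ∈ ({{v0, v1, v2}, {v0, v1, v3}, {v0, v2, v3}} : Finset (Finset α)) := by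
    rw [perm_012 v0 v2 v3]; simp only [mem_insert, mem_singleton, true_or, or_true]
  have m0_3_2 : ({v0, v3, v2} : Finset α) ∈ ({{v0, v1, v2}, {v0, v1, v3}, {v0, v2, v3}} : Finset (Finset α)) := by
    rw [perm_021 v0 v2 v3]; simp only [mem_insert, mem_singleton, true_or, or_true]
  have m2_0_3 : ({v2, v0, v3} : Finset α) ∈ ({{v0, v1, v2}, {v0, v1, v3}, {v0, v2, v3}} : Finset (Finset α)) := by
    rw [perm_102 v0 v2 v3]; simp only [mem_insert, mem_singleton, true_or, or_true]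
  have m2_3_0 : ({v2, v3, v0} : Finset α) ∈ ({{v0, v1, v2}, {v0, v1, v3}, {v0, v2, v3}} : Finset (Finset α)) := by
    rw [perm_120 v0 v2 v3]; simp only [mem_insert, mem_singleton, true_or, or_true]
  have m3_0_2 : ({v3, v0, v2} : Finset α) ∈ ({{v0, v1, v2}, {v0, v1, v3}, {v0, v2, v3}} : Finset (Finset α)) := by
    rw [perm_201 v0 v2 v3]; simp only [mem_insert, mem_singleton, true_or, or_true]
  have m3_2_0 : ({v3, v2, v0} : Finset α) ∈ ({{v0, v1, v2}, {v0, v1, v3}, {v0, v2, v3}} : Finset (Finset α)) := by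
    rw [perm_210 v0 v2 v3]; simp only [mem_insert, mem_singleton, true_or, or_true]
  have hp : ∃ x ∈ ({v0, v1, v2, v3} : Finset α), 0 < c x := ⟨v0, by simp, by rw [c0]; norm_num⟩
  have hGF : ({{v0, v1, v2}, {v0, v1, v3}, {v0, v2, v3}} : Finset (Finset α)) ⊆ F := by
    intro B hB
    simp only [mem_insert, mem_singleton] at hB
    rcases hB with hB | hB | hB <;>
    · rw [hB]; assumption
  have hc0 : ∀ t, 0 ≤ c t := by
    intro t
    rw [hc]; exact nn_ite (by norm_num) (nn_ite (by norm_num) (nn_ite (by norm_num) (nn_ite (by norm_num) (le_rfl))))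
  apply fc_of_loc hF hsub hGF hc0 hp
  · intro x hx
    simp only [mem_insert, mem_singleton] at hx
    rcases hx with hx | hx | hx | hx
    · rw [hx]
      exact locOKtriG hsub m0_1_2 m0_1_3 m0_2_3 h1_0 h2_0 h3_0 h1_2 h1_3 h2_3 (by simp only [c0, c1, c2, c3]; norm_num) (by simp only [c0, c1, c2, c3]; norm_num) (by simp only [c0, c1, c2, c3]; norm_num) (by simp only [c0, c1, c2, c3]; norm_num) (by simp only [c0, c1, c2, c3]; norm_num)
    · rw [hx]
      exact locOKstar hsub m1_0_2 m1_0_3 h0_1 h2_1 h3_1 h0_2 h0_3 h2_3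
        (by simp only [c0, c1, c2, c3]; norm_num) (by simp only [c0, c1, c2, c3]; norm_num) (by simp only [c0, c1, c2, c3]; norm_num) (by simp only [c0, c1, c2, c3]; norm_num) (by simp only [c0, c1, c2, c3]; norm_num) (by simp only [c0, c1, c2, c3]; norm_num) (by simp only [c0, c1, c2, c3]; norm_num) (by simp only [c0, c1, c2, c3]; norm_num) (by simp only [c0, c1, c2, c3]; norm_num)
    · rw [hx]
      exact locOKstar hsub m2_0_1 m2_0_3 h0_2 h1_2 h3_2 h0_1 h0_3 h1_3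
        (by simp only [c0, c1, c2, c3]; norm_num) (by simp only [c0, c1, c2, c3]; norm_num) (by simp only [c0, c1, c2, c3]; norm_num) (by simp only [c0, c1, c2, c3]; norm_num) (by simp only [c0, c1, c2, c3]; norm_num) (by simp only [c0, c1, c2, c3]; norm_num) (by simp only [c0, c1, c2, c3]; norm_num) (by simp only [c0, c1, c2, c3]; norm_num) (by simp only [c0, c1, c2, c3]; norm_num)
    · rw [hx]
      exact locOKstar hsub m3_0_1 m3_0_2 h0_3 h1_3 h2_3 h0_1 h0_2 h1_2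
        (by simp only [c0, c1, c2, c3]; norm_num) (by simp only [c0, c1, c2, c3]; norm_num) (by simp only [c0, c1, c2, c3]; norm_num) (by simp only [c0, c1, c2, c3]; norm_num) (by simp only [c0, c1, c2, c3]; norm_num) (by simp only [c0, c1, c2, c3]; norm_num) (by simp only [c0, c1, c2, c3]; norm_num) (by simp only [c0, c1, c2, c3]; norm_num) (by simp only [c0, c1, c2, c3]; norm_num)

theorem cfg_k13 {F : Finset (Finset α)} (hF : ∀ A ∈ F, ∀ B ∈ F, A ∪ B ∈ F)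
    {v0 v1 v2 v3 v4 : α} (nd : [v0, v1, v2, v3, v4].Nodup)
    (t0 : ({v0, v1, v2} : Finset α) ∈ F)
    (t1 : ({v0, v1, v3} : Finset α) ∈ F)
    (t2 : ({v0, v1, v4} : Finset α) ∈ F)
    : ∃ x ∈ ({v0, v1, v2, v3, v4} : Finset α), F.card ≤ 2 * (F.filter (fun A => x ∈ A)).card := by
  simp only [List.nodup_cons, List.mem_cons, List.not_mem_nil, not_or, not_false_eq_true,
    and_true, or_false, List.nodup_nil] at nd
  obtain ⟨⟨h0_1, h0_2, h0_3, h0_4⟩, ⟨h1_2, h1_3, h1_4⟩, ⟨h2_3, h2_4⟩, h3_4⟩ := nd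
  replace h0_1 : v0 ≠ v1 := h0_1
  have h1_0 : v1 ≠ v0 := h0_1.symm
  replace h0_2 : v0 ≠ v2 := h0_2
  have h2_0 : v2 ≠ v0 := h0_2.symm
  replace h0_3 : v0 ≠ v3 := h0_3
  have h3_0 : v3 ≠ v0 := h0_3.symm
  replace h0_4 : v0 ≠ v4 := h0_4
  have h4_0 : v4 ≠ v0 := h0_4.symm
  replace h1_2 : v1 ≠ v2 := h1_2
  have h2_1 : v2 ≠ v1 := h1_2.symm
  replace h1_3 : v1 ≠ v3 := h1_3
  have h3_1 : v3 ≠ v1 := h1_3.symm
  replace h1_4 : v1 ≠ v4 := h1_4
  have h4_1 : v4 ≠ v1 := h1_4.symm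
  replace h2_3 : v2 ≠ v3 := h2_3
  have h3_2 : v3 ≠ v2 := h2_3.symm
  replace h2_4 : v2 ≠ v4 := h2_4
  have h4_2 : v4 ≠ v2 := h2_4.symm
  replace h3_4 : v3 ≠ v4 := h3_4
  have h4_3 : v4 ≠ v3 := h3_4.symm
  obtain ⟨c, hc⟩ : ∃ c : α → ℝ, c = fun t => if t = v0 then 3 else if t = v1 then 3 else if t = v2 then 2 else if t = v3 then 2 else if t = v4 then 2 else 0 := ⟨_, rfl⟩
  have c0 : c v0 = 3 := by
    rw [hc]; exact if_pos rfl
  have c1 : c v1 = 3 := by
    rw [hc]; exact (if_neg h1_0).trans (if_pos rfl)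
  have c2 : c v2 = 2 := by
    rw [hc]; exact (if_neg h2_0).trans ((if_neg h2_1).trans (if_pos rfl))
  have c3 : c v3 = 2 := by
    rw [hc]; exact (if_neg h3_0).trans ((if_neg h3_1).trans ((if_neg h3_2).trans (if_pos rfl)))
  have c4 : c v4 = 2 := by
    rw [hc]; exact (if_neg h4_0).trans ((if_neg h4_1).trans ((if_neg h4_2).trans ((if_neg h4_3).trans (if_pos rfl))))
  have hsub : ∀ B ∈ ({{v0, v1, v2}, {v0, v1, v3}, {v0, v1, v4}} : Finset (Finset α)), B ⊆ ({v0, v1, v2, v3, v4} : Finset α) := by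
    intro B hB
    simp only [mem_insert, mem_singleton] at hB
    rcases hB with hB | hB | hB <;>
    · rw [hB]; simp only [insert_subset_iff, singleton_subset_iff, mem_insert, mem_singleton, true_or, or_true, and_self]
  have m0_1_2 : ({v0, v1, v2} : Finset α) ∈ ({{v0, v1, v2}, {v0, v1, v3}, {v0, v1, v4}} : Finset (Finset α)) := by
    rw [perm_012 v0 v1 v2]; simp only [mem_insert, mem_singleton, true_or, or_true]
  have m0_2_1 : ({v0, v2, v1} : Finset α) ∈ ({{v0, v1, v2}, {v0, v1, v3}, {v0, v1, v4}} : Finset (Finset α)) := by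
    rw [perm_021 v0 v1 v2]; simp only [mem_insert, mem_singleton, true_or, or_true]
  have m1_0_2 : ({v1, v0, v2} : Finset α) ∈ ({{v0, v1, v2}, {v0, v1, v3}, {v0, v1, v4}} : Finset (Finset α)) := by
    rw [perm_102 v0 v1 v2]; simp only [mem_insert, mem_singleton, true_or, or_true]
  have m1_2_0 : ({v1, v2, v0} : Finset α) ∈ ({{v0, v1, v2}, {v0, v1, v3}, {v0, v1, v4}} : Finset (Finset α)) := by
    rw [perm_120 v0 v1 v2]; simp only [mem_insert, mem_singleton, true_or, or_true]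
  have m2_0_1 : ({v2, v0, v1} : Finset α) ∈ ({{v0, v1, v2}, {v0, v1, v3}, {v0, v1, v4}} : Finset (Finset α)) := by
    rw [perm_201 v0 v1 v2]; simp only [mem_insert, mem_singleton, true_or, or_true]
  have m2_1_0 : ({v2, v1, v0} : Finset α) ∈ ({{v0, v1, v2}, {v0, v1, v3}, {v0, v1, v4}} : Finset (Finset α)) := by
    rw [perm_210 v0 v1 v2]; simp only [mem_insert, mem_singleton, true_or, or_true]
  have m0_1_3 : ({v0, v1, v3} : Finset α) ∈ ({{v0, v1, v2}, {v0, v1, v3}, {v0, v1, v4}} : Finset (Finset α)) := by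
    rw [perm_012 v0 v1 v3]; simp only [mem_insert, mem_singleton, true_or, or_true]
  have m0_3_1 : ({v0, v3, v1} : Finset α) ∈ ({{v0, v1, v2}, {v0, v1, v3}, {v0, v1, v4}} : Finset (Finset α)) := by
    rw [perm_021 v0 v1 v3]; simp only [mem_insert, mem_singleton, true_or, or_true]
  have m1_0_3 : ({v1, v0, v3} : Finset α) ∈ ({{v0, v1, v2}, {v0, v1, v3}, {v0, v1, v4}} : Finset (Finset α)) := by
    rw [perm_102 v0 v1 v3]; simp only [mem_insert, mem_singleton, true_or, or_true]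
  have m1_3_0 : ({v1, v3, v0} : Finset α) ∈ ({{v0, v1, v2}, {v0, v1, v3}, {v0, v1, v4}} : Finset (Finset α)) := by
    rw [perm_120 v0 v1 v3]; simp only [mem_insert, mem_singleton, true_or, or_true]
  have m3_0_1 : ({v3, v0, v1} : Finset α) ∈ ({{v0, v1, v2}, {v0, v1, v3}, {v0, v1, v4}} : Finset (Finset α)) := by
    rw [perm_201 v0 v1 v3]; simp only [mem_insert, mem_singleton, true_or, or_true]
  have m3_1_0 : ({v3, v1, v0} : Finset α) ∈ ({{v0, v1, v2}, {v0, v1, v3}, {v0, v1, v4}} : Finset (Finset α)) := by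
    rw [perm_210 v0 v1 v3]; simp only [mem_insert, mem_singleton, true_or, or_true]
  have m0_1_4 : ({v0, v1, v4} : Finset α) ∈ ({{v0, v1, v2}, {v0, v1, v3}, {v0, v1, v4}} : Finset (Finset α)) := by
    rw [perm_012 v0 v1 v4]; simp only [mem_insert, mem_singleton, true_or, or_true]
  have m0_4_1 : ({v0, v4, v1} : Finset α) ∈ ({{v0, v1, v2}, {v0, v1, v3}, {v0, v1, v4}} : Finset (Finset α)) := by
    rw [perm_021 v0 v1 v4]; simp only [mem_insert, mem_singleton, true_or, or_true]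
  have m1_0_4 : ({v1, v0, v4} : Finset α) ∈ ({{v0, v1, v2}, {v0, v1, v3}, {v0, v1, v4}} : Finset (Finset α)) := by
    rw [perm_102 v0 v1 v4]; simp only [mem_insert, mem_singleton, true_or, or_true]
  have m1_4_0 : ({v1, v4, v0} : Finset α) ∈ ({{v0, v1, v2}, {v0, v1, v3}, {v0, v1, v4}} : Finset (Finset α)) := by
    rw [perm_120 v0 v1 v4]; simp only [mem_insert, mem_singleton, true_or, or_true]
  have m4_0_1 : ({v4, v0, v1} : Finset α) ∈ ({{v0, v1, v2}, {v0, v1, v3}, {v0, v1, v4}} : Finset (Finset α)) := by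
    rw [perm_201 v0 v1 v4]; simp only [mem_insert, mem_singleton, true_or, or_true]
  have m4_1_0 : ({v4, v1, v0} : Finset α) ∈ ({{v0, v1, v2}, {v0, v1, v3}, {v0, v1, v4}} : Finset (Finset α)) := by
    rw [perm_210 v0 v1 v4]; simp only [mem_insert, mem_singleton, true_or, or_true]
  have hp : ∃ x ∈ ({v0, v1, v2, v3, v4} : Finset α), 0 < c x := ⟨v0, by simp, by rw [c0]; norm_num⟩
  have hGF : ({{v0, v1, v2}, {v0, v1, v3}, {v0, v1, v4}} : Finset (Finset α)) ⊆ F := by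
    intro B hB
    simp only [mem_insert, mem_singleton] at hB
    rcases hB with hB | hB | hB <;>
    · rw [hB]; assumption
  have hc0 : ∀ t, 0 ≤ c t := by
    intro t
    rw [hc]; exact nn_ite (by norm_num) (nn_ite (by norm_num) (nn_ite (by norm_num) (nn_ite (by norm_num) (nn_ite (by norm_num) (le_rfl)))))
  apply fc_of_loc hF hsub hGF hc0 hp
  · intro x hx
    simp only [mem_insert, mem_singleton] at hx
    rcases hx with hx | hx | hx | hx | hx
    · rw [hx]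
      exact locOKstar3 hsub m0_1_2 m0_1_3 m0_1_4 h1_0 h2_0 h3_0 h4_0 h1_2 h1_3 h1_4 h2_3 h2_4 h3_4 (by simp only [c0, c1, c2, c3, c4]; norm_num) (by simp only [c0, c1, c2, c3, c4]; norm_num) (by simp only [c0, c1, c2, c3, c4]; norm_num) (by simp only [c0, c1, c2, c3, c4]; norm_num) (by simp only [c0, c1, c2, c3, c4]; norm_num)
    · rw [hx]
      exact locOKstar3 hsub m1_0_2 m1_0_3 m1_0_4 h0_1 h2_1 h3_1 h4_1 h0_2 h0_3 h0_4 h2_3 h2_4 h3_4 (by simp only [c0, c1, c2, c3, c4]; norm_num) (by simp only [c0, c1, c2, c3, c4]; norm_num) (by simp only [c0, c1, c2, c3, c4]; norm_num) (by simp only [c0, c1, c2, c3, c4]; norm_num) (by simp only [c0, c1, c2, c3, c4]; norm_num)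
    · rw [hx]
      exact locOK1 hsub m2_0_1 h0_2 h1_2 h0_1 (by simp only [c0, c1, c2, c3, c4]; norm_num) (by simp only [c0, c1, c2, c3, c4]; norm_num) (by simp only [c0, c1, c2, c3, c4]; norm_num) (by simp only [c0, c1, c2, c3, c4]; norm_num)
    · rw [hx]
      exact locOK1 hsub m3_0_1 h0_3 h1_3 h0_1 (by simp only [c0, c1, c2, c3, c4]; norm_num) (by simp only [c0, c1, c2, c3, c4]; norm_num) (by simp only [c0, c1, c2, c3, c4]; norm_num) (by simp only [c0, c1, c2, c3, c4]; norm_num)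
    · rw [hx]
      exact locOK1 hsub m4_0_1 h0_4 h1_4 h0_1 (by simp only [c0, c1, c2, c3, c4]; norm_num) (by simp only [c0, c1, c2, c3, c4]; norm_num) (by simp only [c0, c1, c2, c3, c4]; norm_num) (by simp only [c0, c1, c2, c3, c4]; norm_num)

theorem cfg_spider {F : Finset (Finset α)} (hF : ∀ A ∈ F, ∀ B ∈ F, A ∪ B ∈ F)
    {v0 v1 v2 v3 v4 v5 v6 v7 v8 : α} (nd : [v0, v1, v2, v3, v4, v5, v6, v7, v8].Nodup)
    (t0 : ({v0, v1, v2} : Finset α) ∈ F)
    (t1 : ({v2, v3, v4} : Finset α) ∈ F)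
    (t2 : ({v4, v5, v6} : Finset α) ∈ F)
    (t3 : ({v3, v7, v8} : Finset α) ∈ F)
    : ∃ x ∈ ({v0, v1, v2, v3, v4, v5, v6, v7, v8} : Finset α), F.card ≤ 2 * (F.filter (fun A => x ∈ A)).card := by
  simp only [List.nodup_cons, List.mem_cons, List.not_mem_nil, not_or, not_false_eq_true,
    and_true, or_false, List.nodup_nil] at nd
  obtain ⟨⟨h0_1, h0_2, h0_3, h0_4, h0_5, h0_6, h0_7, h0_8⟩, ⟨h1_2, h1_3, h1_4, h1_5, h1_6, h1_7, h1_8⟩, ⟨h2_3, h2_4, h2_5, h2_6, h2_7, h2_8⟩, ⟨h3_4, h3_5, h3_6, h3_7, h3_8⟩, ⟨h4_5, h4_6, h4_7, h4_8⟩, ⟨h5_6, h5_7, h5_8⟩, ⟨h6_7, h6_8⟩, h7_8⟩ := nd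
  replace h0_1 : v0 ≠ v1 := h0_1
  have h1_0 : v1 ≠ v0 := h0_1.symm
  replace h0_2 : v0 ≠ v2 := h0_2
  have h2_0 : v2 ≠ v0 := h0_2.symm
  replace h0_3 : v0 ≠ v3 := h0_3
  have h3_0 : v3 ≠ v0 := h0_3.symm
  replace h0_4 : v0 ≠ v4 := h0_4
  have h4_0 : v4 ≠ v0 := h0_4.symm
  replace h0_5 : v0 ≠ v5 := h0_5
  have h5_0 : v5 ≠ v0 := h0_5.symm
  replace h0_6 : v0 ≠ v6 := h0_6
  have h6_0 : v6 ≠ v0 := h0_6.symm
  replace h0_7 : v0 ≠ v7 := h0_7
  have h7_0 : v7 ≠ v0 := h0_7.symm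
  replace h0_8 : v0 ≠ v8 := h0_8
  have h8_0 : v8 ≠ v0 := h0_8.symm
  replace h1_2 : v1 ≠ v2 := h1_2
  have h2_1 : v2 ≠ v1 := h1_2.symm
  replace h1_3 : v1 ≠ v3 := h1_3
  have h3_1 : v3 ≠ v1 := h1_3.symm
  replace h1_4 : v1 ≠ v4 := h1_4
  have h4_1 : v4 ≠ v1 := h1_4.symm
  replace h1_5 : v1 ≠ v5 := h1_5
  have h5_1 : v5 ≠ v1 := h1_5.symm
  replace h1_6 : v1 ≠ v6 := h1_6
  have h6_1 : v6 ≠ v1 := h1_6.symm
  replace h1_7 : v1 ≠ v7 := h1_7
  have h7_1 : v7 ≠ v1 := h1_7.symm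
  replace h1_8 : v1 ≠ v8 := h1_8
  have h8_1 : v8 ≠ v1 := h1_8.symm
  replace h2_3 : v2 ≠ v3 := h2_3
  have h3_2 : v3 ≠ v2 := h2_3.symm
  replace h2_4 : v2 ≠ v4 := h2_4
  have h4_2 : v4 ≠ v2 := h2_4.symm
  replace h2_5 : v2 ≠ v5 := h2_5
  have h5_2 : v5 ≠ v2 := h2_5.symm
  replace h2_6 : v2 ≠ v6 := h2_6
  have h6_2 : v6 ≠ v2 := h2_6.symm
  replace h2_7 : v2 ≠ v7 := h2_7
  have h7_2 : v7 ≠ v2 := h2_7.symm
  replace h2_8 : v2 ≠ v8 := h2_8
  have h8_2 : v8 ≠ v2 := h2_8.symm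
  replace h3_4 : v3 ≠ v4 := h3_4
  have h4_3 : v4 ≠ v3 := h3_4.symm
  replace h3_5 : v3 ≠ v5 := h3_5
  have h5_3 : v5 ≠ v3 := h3_5.symm
  replace h3_6 : v3 ≠ v6 := h3_6
  have h6_3 : v6 ≠ v3 := h3_6.symm
  replace h3_7 : v3 ≠ v7 := h3_7
  have h7_3 : v7 ≠ v3 := h3_7.symm
  replace h3_8 : v3 ≠ v8 := h3_8
  have h8_3 : v8 ≠ v3 := h3_8.symm
  replace h4_5 : v4 ≠ v5 := h4_5
  have h5_4 : v5 ≠ v4 := h4_5.symm
  replace h4_6 : v4 ≠ v6 := h4_6
  have h6_4 : v6 ≠ v4 := h4_6.symm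
  replace h4_7 : v4 ≠ v7 := h4_7
  have h7_4 : v7 ≠ v4 := h4_7.symm
  replace h4_8 : v4 ≠ v8 := h4_8
  have h8_4 : v8 ≠ v4 := h4_8.symm
  replace h5_6 : v5 ≠ v6 := h5_6
  have h6_5 : v6 ≠ v5 := h5_6.symm
  replace h5_7 : v5 ≠ v7 := h5_7
  have h7_5 : v7 ≠ v5 := h5_7.symm
  replace h5_8 : v5 ≠ v8 := h5_8
  have h8_5 : v8 ≠ v5 := h5_8.symm
  replace h6_7 : v6 ≠ v7 := h6_7
  have h7_6 : v7 ≠ v6 := h6_7.symm
  replace h6_8 : v6 ≠ v8 := h6_8
  have h8_6 : v8 ≠ v6 := h6_8.symm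
  replace h7_8 : v7 ≠ v8 := h7_8
  have h8_7 : v8 ≠ v7 := h7_8.symm
  obtain ⟨c, hc⟩ : ∃ c : α → ℝ, c = fun t => if t = v0 then 1 else if t = v1 then 1 else if t = v2 then 2 else if t = v3 then 2 else if t = v4 then 2 else if t = v5 then 1 else if t = v6 then 1 else if t = v7 then 1 else if t = v8 then 1 else 0 := ⟨_, rfl⟩
  have c0 : c v0 = 1 := by
    rw [hc]; exact if_pos rfl
  have c1 : c v1 = 1 := by
    rw [hc]; exact (if_neg h1_0).trans (if_pos rfl)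
  have c2 : c v2 = 2 := by
    rw [hc]; exact (if_neg h2_0).trans ((if_neg h2_1).trans (if_pos rfl))
  have c3 : c v3 = 2 := by
    rw [hc]; exact (if_neg h3_0).trans ((if_neg h3_1).trans ((if_neg h3_2).trans (if_pos rfl)))
  have c4 : c v4 = 2 := by
    rw [hc]; exact (if_neg h4_0).trans ((if_neg h4_1).trans ((if_neg h4_2).trans ((if_neg h4_3).trans (if_pos rfl))))
  have c5 : c v5 = 1 := by
    rw [hc]; exact (if_neg h5_0).trans ((if_neg h5_1).trans ((if_neg h5_2).trans ((if_neg h5_3).trans ((if_neg h5_4).trans (if_pos rfl)))))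
  have c6 : c v6 = 1 := by
    rw [hc]; exact (if_neg h6_0).trans ((if_neg h6_1).trans ((if_neg h6_2).trans ((if_neg h6_3).trans ((if_neg h6_4).trans ((if_neg h6_5).trans (if_pos rfl))))))
  have c7 : c v7 = 1 := by
    rw [hc]; exact (if_neg h7_0).trans ((if_neg h7_1).trans ((if_neg h7_2).trans ((if_neg h7_3).trans ((if_neg h7_4).trans ((if_neg h7_5).trans ((if_neg h7_6).trans (if_pos rfl)))))))
  have c8 : c v8 = 1 := by
    rw [hc]; exact (if_neg h8_0).trans ((if_neg h8_1).trans ((if_neg h8_2).trans ((if_neg h8_3).trans ((if_neg h8_4).trans ((if_neg h8_5).trans ((if_neg h8_6).trans ((if_neg h8_7).trans (if_pos rfl))))))))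
  have hsub : ∀ B ∈ ({{v0, v1, v2}, {v2, v3, v4}, {v4, v5, v6}, {v3, v7, v8}} : Finset (Finset α)), B ⊆ ({v0, v1, v2, v3, v4, v5, v6, v7, v8} : Finset α) := by
    intro B hB
    simp only [mem_insert, mem_singleton] at hB
    rcases hB with hB | hB | hB | hB <;>
    · rw [hB]; simp only [insert_subset_iff, singleton_subset_iff, mem_insert, mem_singleton, true_or, or_true, and_self]
  have m0_1_2 : ({v0, v1, v2} : Finset α) ∈ ({{v0, v1, v2}, {v2, v3, v4}, {v4, v5, v6}, {v3, v7, v8}} : Finset (Finset α)) := by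
    rw [perm_012 v0 v1 v2]; simp only [mem_insert, mem_singleton, true_or, or_true]
  have m0_2_1 : ({v0, v2, v1} : Finset α) ∈ ({{v0, v1, v2}, {v2, v3, v4}, {v4, v5, v6}, {v3, v7, v8}} : Finset (Finset α)) := by
    rw [perm_021 v0 v1 v2]; simp only [mem_insert, mem_singleton, true_or, or_true]
  have m1_0_2 : ({v1, v0, v2} : Finset α) ∈ ({{v0, v1, v2}, {v2, v3, v4}, {v4, v5, v6}, {v3, v7, v8}} : Finset (Finset α)) := by
    rw [perm_102 v0 v1 v2]; simp only [mem_insert, mem_singleton, true_or, or_true]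
  have m1_2_0 : ({v1, v2, v0} : Finset α) ∈ ({{v0, v1, v2}, {v2, v3, v4}, {v4, v5, v6}, {v3, v7, v8}} : Finset (Finset α)) := by
    rw [perm_120 v0 v1 v2]; simp only [mem_insert, mem_singleton, true_or, or_true]
  have m2_0_1 : ({v2, v0, v1} : Finset α) ∈ ({{v0, v1, v2}, {v2, v3, v4}, {v4, v5, v6}, {v3, v7, v8}} : Finset (Finset α)) := by
    rw [perm_201 v0 v1 v2]; simp only [mem_insert, mem_singleton, true_or, or_true]
  have m2_1_0 : ({v2, v1, v0} : Finset α) ∈ ({{v0, v1, v2}, {v2, v3, v4}, {v4, v5, v6}, {v3, v7, v8}} : Finset (Finset α)) := by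
    rw [perm_210 v0 v1 v2]; simp only [mem_insert, mem_singleton, true_or, or_true]
  have m2_3_4 : ({v2, v3, v4} : Finset α) ∈ ({{v0, v1, v2}, {v2, v3, v4}, {v4, v5, v6}, {v3, v7, v8}} : Finset (Finset α)) := by
    rw [perm_012 v2 v3 v4]; simp only [mem_insert, mem_singleton, true_or, or_true]
  have m2_4_3 : ({v2, v4, v3} : Finset α) ∈ ({{v0, v1, v2}, {v2, v3, v4}, {v4, v5, v6}, {v3, v7, v8}} : Finset (Finset α)) := by
    rw [perm_021 v2 v3 v4]; simp only [mem_insert, mem_singleton, true_or, or_true]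
  have m3_2_4 : ({v3, v2, v4} : Finset α) ∈ ({{v0, v1, v2}, {v2, v3, v4}, {v4, v5, v6}, {v3, v7, v8}} : Finset (Finset α)) := by
    rw [perm_102 v2 v3 v4]; simp only [mem_insert, mem_singleton, true_or, or_true]
  have m3_4_2 : ({v3, v4, v2} : Finset α) ∈ ({{v0, v1, v2}, {v2, v3, v4}, {v4, v5, v6}, {v3, v7, v8}} : Finset (Finset α)) := by
    rw [perm_120 v2 v3 v4]; simp only [mem_insert, mem_singleton, true_or, or_true]
  have m4_2_3 : ({v4, v2, v3} : Finset α) ∈ ({{v0, v1, v2}, {v2, v3, v4}, {v4, v5, v6}, {v3, v7, v8}} : Finset (Finset α)) := by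
    rw [perm_201 v2 v3 v4]; simp only [mem_insert, mem_singleton, true_or, or_true]
  have m4_3_2 : ({v4, v3, v2} : Finset α) ∈ ({{v0, v1, v2}, {v2, v3, v4}, {v4, v5, v6}, {v3, v7, v8}} : Finset (Finset α)) := by
    rw [perm_210 v2 v3 v4]; simp only [mem_insert, mem_singleton, true_or, or_true]
  have m4_5_6 : ({v4, v5, v6} : Finset α) ∈ ({{v0, v1, v2}, {v2, v3, v4}, {v4, v5, v6}, {v3, v7, v8}} : Finset (Finset α)) := by
    rw [perm_012 v4 v5 v6]; simp only [mem_insert, mem_singleton, true_or, or_true]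
  have m4_6_5 : ({v4, v6, v5} : Finset α) ∈ ({{v0, v1, v2}, {v2, v3, v4}, {v4, v5, v6}, {v3, v7, v8}} : Finset (Finset α)) := by
    rw [perm_021 v4 v5 v6]; simp only [mem_insert, mem_singleton, true_or, or_true]
  have m5_4_6 : ({v5, v4, v6} : Finset α) ∈ ({{v0, v1, v2}, {v2, v3, v4}, {v4, v5, v6}, {v3, v7, v8}} : Finset (Finset α)) := by
    rw [perm_102 v4 v5 v6]; simp only [mem_insert, mem_singleton, true_or, or_true]
  have m5_6_4 : ({v5, v6, v4} : Finset α) ∈ ({{v0, v1, v2}, {v2, v3, v4}, {v4, v5, v6}, {v3, v7, v8}} : Finset (Finset α)) := by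
    rw [perm_120 v4 v5 v6]; simp only [mem_insert, mem_singleton, true_or, or_true]
  have m6_4_5 : ({v6, v4, v5} : Finset α) ∈ ({{v0, v1, v2}, {v2, v3, v4}, {v4, v5, v6}, {v3, v7, v8}} : Finset (Finset α)) := by
    rw [perm_201 v4 v5 v6]; simp only [mem_insert, mem_singleton, true_or, or_true]
  have m6_5_4 : ({v6, v5, v4} : Finset α) ∈ ({{v0, v1, v2}, {v2, v3, v4}, {v4, v5, v6}, {v3, v7, v8}} : Finset (Finset α)) := by
    rw [perm_210 v4 v5 v6]; simp only [mem_insert, mem_singleton, true_or, or_true]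
  have m3_7_8 : ({v3, v7, v8} : Finset α) ∈ ({{v0, v1, v2}, {v2, v3, v4}, {v4, v5, v6}, {v3, v7, v8}} : Finset (Finset α)) := by
    rw [perm_012 v3 v7 v8]; simp only [mem_insert, mem_singleton, true_or, or_true]
  have m3_8_7 : ({v3, v8, v7} : Finset α) ∈ ({{v0, v1, v2}, {v2, v3, v4}, {v4, v5, v6}, {v3, v7, v8}} : Finset (Finset α)) := by
    rw [perm_021 v3 v7 v8]; simp only [mem_insert, mem_singleton, true_or, or_true]
  have m7_3_8 : ({v7, v3, v8} : Finset α) ∈ ({{v0, v1, v2}, {v2, v3, v4}, {v4, v5, v6}, {v3, v7, v8}} : Finset (Finset α)) := by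
    rw [perm_102 v3 v7 v8]; simp only [mem_insert, mem_singleton, true_or, or_true]
  have m7_8_3 : ({v7, v8, v3} : Finset α) ∈ ({{v0, v1, v2}, {v2, v3, v4}, {v4, v5, v6}, {v3, v7, v8}} : Finset (Finset α)) := by
    rw [perm_120 v3 v7 v8]; simp only [mem_insert, mem_singleton, true_or, or_true]
  have m8_3_7 : ({v8, v3, v7} : Finset α) ∈ ({{v0, v1, v2}, {v2, v3, v4}, {v4, v5, v6}, {v3, v7, v8}} : Finset (Finset α)) := by
    rw [perm_201 v3 v7 v8]; simp only [mem_insert, mem_singleton, true_or, or_true]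
  have m8_7_3 : ({v8, v7, v3} : Finset α) ∈ ({{v0, v1, v2}, {v2, v3, v4}, {v4, v5, v6}, {v3, v7, v8}} : Finset (Finset α)) := by
    rw [perm_210 v3 v7 v8]; simp only [mem_insert, mem_singleton, true_or, or_true]
  have hp : ∃ x ∈ ({v0, v1, v2, v3, v4, v5, v6, v7, v8} : Finset α), 0 < c x := ⟨v0, by simp, by rw [c0]; norm_num⟩
  have hGF : ({{v0, v1, v2}, {v2, v3, v4}, {v4, v5, v6}, {v3, v7, v8}} : Finset (Finset α)) ⊆ F := by
    intro B hB
    simp only [mem_insert, mem_singleton] at hB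
    rcases hB with hB | hB | hB | hB <;>
    · rw [hB]; assumption
  have hc0 : ∀ t, 0 ≤ c t := by
    intro t
    rw [hc]; exact nn_ite (by norm_num) (nn_ite (by norm_num) (nn_ite (by norm_num) (nn_ite (by norm_num) (nn_ite (by norm_num) (nn_ite (by norm_num) (nn_ite (by norm_num) (nn_ite (by norm_num) (nn_ite (by norm_num) (le_rfl)))))))))
  apply fc_of_loc hF hsub hGF hc0 hp
  · intro x hx
    simp only [mem_insert, mem_singleton] at hx
    rcases hx with hx | hx | hx | hx | hx | hx | hx | hx | hx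
    · rw [hx]
      exact locOK1 hsub m0_1_2 h1_0 h2_0 h1_2 (by simp only [c0, c1, c2, c3, c4, c5, c6, c7, c8]; norm_num) (by simp only [c0, c1, c2, c3, c4, c5, c6, c7, c8]; norm_num) (by simp only [c0, c1, c2, c3, c4, c5, c6, c7, c8]; norm_num) (by simp only [c0, c1, c2, c3, c4, c5, c6, c7, c8]; norm_num)
    · rw [hx]
      exact locOK1 hsub m1_0_2 h0_1 h2_1 h0_2 (by simp only [c0, c1, c2, c3, c4, c5, c6, c7, c8]; norm_num) (by simp only [c0, c1, c2, c3, c4, c5, c6, c7, c8]; norm_num) (by simp only [c0, c1, c2, c3, c4, c5, c6, c7, c8]; norm_num) (by simp only [c0, c1, c2, c3, c4, c5, c6, c7, c8]; norm_num)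
    · rw [hx]
      exact locOK2 hsub m2_0_1 m2_3_4 h0_2 h1_2 h0_1 h3_2 h4_2 h3_4
        h0_3 h0_4 h1_3 h1_4 (r := (2 / 3)) (r' := (4 / 3)) (by simp only [c0, c1, c2, c3, c4, c5, c6, c7, c8]; norm_num) (by simp only [c0, c1, c2, c3, c4, c5, c6, c7, c8]; norm_num) (by simp only [c0, c1, c2, c3, c4, c5, c6, c7, c8]; norm_num) (by norm_num) (by simp only [c0, c1, c2, c3, c4, c5, c6, c7, c8]; norm_num) (by simp only [c0, c1, c2, c3, c4, c5, c6, c7, c8]; norm_num) (by simp only [c0, c1, c2, c3, c4, c5, c6, c7, c8]; norm_num) (by norm_num) (by simp only [c0, c1, c2, c3, c4, c5, c6, c7, c8]; norm_num)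
    · rw [hx]
      exact locOK2 hsub m3_2_4 m3_7_8 h2_3 h4_3 h2_4 h7_3 h8_3 h7_8
        h2_7 h2_8 h4_7 h4_8 (r := (4 / 3)) (r' := (2 / 3)) (by simp only [c0, c1, c2, c3, c4, c5, c6, c7, c8]; norm_num) (by simp only [c0, c1, c2, c3, c4, c5, c6, c7, c8]; norm_num) (by simp only [c0, c1, c2, c3, c4, c5, c6, c7, c8]; norm_num) (by norm_num) (by simp only [c0, c1, c2, c3, c4, c5, c6, c7, c8]; norm_num) (by simp only [c0, c1, c2, c3, c4, c5, c6, c7, c8]; norm_num) (by simp only [c0, c1, c2, c3, c4, c5, c6, c7, c8]; norm_num) (by norm_num) (by simp only [c0, c1, c2, c3, c4, c5, c6, c7, c8]; norm_num)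
    · rw [hx]
      exact locOK2 hsub m4_2_3 m4_5_6 h2_4 h3_4 h2_3 h5_4 h6_4 h5_6
        h2_5 h2_6 h3_5 h3_6 (r := (4 / 3)) (r' := (2 / 3)) (by simp only [c0, c1, c2, c3, c4, c5, c6, c7, c8]; norm_num) (by simp only [c0, c1, c2, c3, c4, c5, c6, c7, c8]; norm_num) (by simp only [c0, c1, c2, c3, c4, c5, c6, c7, c8]; norm_num) (by norm_num) (by simp only [c0, c1, c2, c3, c4, c5, c6, c7, c8]; norm_num) (by simp only [c0, c1, c2, c3, c4, c5, c6, c7, c8]; norm_num) (by simp only [c0, c1, c2, c3, c4, c5, c6, c7, c8]; norm_num) (by norm_num) (by simp only [c0, c1, c2, c3, c4, c5, c6, c7, c8]; norm_num)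
    · rw [hx]
      exact locOK1 hsub m5_4_6 h4_5 h6_5 h4_6 (by simp only [c0, c1, c2, c3, c4, c5, c6, c7, c8]; norm_num) (by simp only [c0, c1, c2, c3, c4, c5, c6, c7, c8]; norm_num) (by simp only [c0, c1, c2, c3, c4, c5, c6, c7, c8]; norm_num) (by simp only [c0, c1, c2, c3, c4, c5, c6, c7, c8]; norm_num)
    · rw [hx]
      exact locOK1 hsub m6_4_5 h4_6 h5_6 h4_5 (by simp only [c0, c1, c2, c3, c4, c5, c6, c7, c8]; norm_num) (by simp only [c0, c1, c2, c3, c4, c5, c6, c7, c8]; norm_num) (by simp only [c0, c1, c2, c3, c4, c5, c6, c7, c8]; norm_num) (by simp only [c0, c1, c2, c3, c4, c5, c6, c7, c8]; norm_num)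
    · rw [hx]
      exact locOK1 hsub m7_3_8 h3_7 h8_7 h3_8 (by simp only [c0, c1, c2, c3, c4, c5, c6, c7, c8]; norm_num) (by simp only [c0, c1, c2, c3, c4, c5, c6, c7, c8]; norm_num) (by simp only [c0, c1, c2, c3, c4, c5, c6, c7, c8]; norm_num) (by simp only [c0, c1, c2, c3, c4, c5, c6, c7, c8]; norm_num)
    · rw [hx]
      exact locOK1 hsub m8_3_7 h3_8 h7_8 h3_7 (by simp only [c0, c1, c2, c3, c4, c5, c6, c7, c8]; norm_num) (by simp only [c0, c1, c2, c3, c4, c5, c6, c7, c8]; norm_num) (by simp only [c0, c1, c2, c3, c4, c5, c6, c7, c8]; norm_num) (by simp only [c0, c1, c2, c3, c4, c5, c6, c7, c8]; norm_num)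

theorem cfg_mid {F : Finset (Finset α)} (hF : ∀ A ∈ F, ∀ B ∈ F, A ∪ B ∈ F)
    {v0 v1 v2 v3 v4 v5 v6 v7 : α} (nd : [v0, v1, v2, v3, v4, v5, v6, v7].Nodup)
    (t0 : ({v0, v1, v2} : Finset α) ∈ F)
    (t1 : ({v2, v3, v4} : Finset α) ∈ F)
    (t2 : ({v3, v4, v5} : Finset α) ∈ F)
    (t3 : ({v5, v6, v7} : Finset α) ∈ F)
    : ∃ x ∈ ({v0, v1, v2, v3, v4, v5, v6, v7} : Finset α), F.card ≤ 2 * (F.filter (fun A => x ∈ A)).card := by
  simp only [List.nodup_cons, List.mem_cons, List.not_mem_nil, not_or, not_false_eq_true,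
    and_true, or_false, List.nodup_nil] at nd
  obtain ⟨⟨h0_1, h0_2, h0_3, h0_4, h0_5, h0_6, h0_7⟩, ⟨h1_2, h1_3, h1_4, h1_5, h1_6, h1_7⟩, ⟨h2_3, h2_4, h2_5, h2_6, h2_7⟩, ⟨h3_4, h3_5, h3_6, h3_7⟩, ⟨h4_5, h4_6, h4_7⟩, ⟨h5_6, h5_7⟩, h6_7⟩ := nd
  replace h0_1 : v0 ≠ v1 := h0_1
  have h1_0 : v1 ≠ v0 := h0_1.symm
  replace h0_2 : v0 ≠ v2 := h0_2
  have h2_0 : v2 ≠ v0 := h0_2.symm
  replace h0_3 : v0 ≠ v3 := h0_3
  have h3_0 : v3 ≠ v0 := h0_3.symm
  replace h0_4 : v0 ≠ v4 := h0_4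
  have h4_0 : v4 ≠ v0 := h0_4.symm
  replace h0_5 : v0 ≠ v5 := h0_5
  have h5_0 : v5 ≠ v0 := h0_5.symm
  replace h0_6 : v0 ≠ v6 := h0_6
  have h6_0 : v6 ≠ v0 := h0_6.symm
  replace h0_7 : v0 ≠ v7 := h0_7
  have h7_0 : v7 ≠ v0 := h0_7.symm
  replace h1_2 : v1 ≠ v2 := h1_2
  have h2_1 : v2 ≠ v1 := h1_2.symm
  replace h1_3 : v1 ≠ v3 := h1_3
  have h3_1 : v3 ≠ v1 := h1_3.symm
  replace h1_4 : v1 ≠ v4 := h1_4
  have h4_1 : v4 ≠ v1 := h1_4.symm
  replace h1_5 : v1 ≠ v5 := h1_5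
  have h5_1 : v5 ≠ v1 := h1_5.symm
  replace h1_6 : v1 ≠ v6 := h1_6
  have h6_1 : v6 ≠ v1 := h1_6.symm
  replace h1_7 : v1 ≠ v7 := h1_7
  have h7_1 : v7 ≠ v1 := h1_7.symm
  replace h2_3 : v2 ≠ v3 := h2_3
  have h3_2 : v3 ≠ v2 := h2_3.symm
  replace h2_4 : v2 ≠ v4 := h2_4
  have h4_2 : v4 ≠ v2 := h2_4.symm
  replace h2_5 : v2 ≠ v5 := h2_5
  have h5_2 : v5 ≠ v2 := h2_5.symm
  replace h2_6 : v2 ≠ v6 := h2_6
  have h6_2 : v6 ≠ v2 := h2_6.symm
  replace h2_7 : v2 ≠ v7 := h2_7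
  have h7_2 : v7 ≠ v2 := h2_7.symm
  replace h3_4 : v3 ≠ v4 := h3_4
  have h4_3 : v4 ≠ v3 := h3_4.symm
  replace h3_5 : v3 ≠ v5 := h3_5
  have h5_3 : v5 ≠ v3 := h3_5.symm
  replace h3_6 : v3 ≠ v6 := h3_6
  have h6_3 : v6 ≠ v3 := h3_6.symm
  replace h3_7 : v3 ≠ v7 := h3_7
  have h7_3 : v7 ≠ v3 := h3_7.symm
  replace h4_5 : v4 ≠ v5 := h4_5
  have h5_4 : v5 ≠ v4 := h4_5.symm
  replace h4_6 : v4 ≠ v6 := h4_6
  have h6_4 : v6 ≠ v4 := h4_6.symm
  replace h4_7 : v4 ≠ v7 := h4_7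
  have h7_4 : v7 ≠ v4 := h4_7.symm
  replace h5_6 : v5 ≠ v6 := h5_6
  have h6_5 : v6 ≠ v5 := h5_6.symm
  replace h5_7 : v5 ≠ v7 := h5_7
  have h7_5 : v7 ≠ v5 := h5_7.symm
  replace h6_7 : v6 ≠ v7 := h6_7
  have h7_6 : v7 ≠ v6 := h6_7.symm
  obtain ⟨c, hc⟩ : ∃ c : α → ℝ, c = fun t => if t = v0 then 1 else if t = v1 then 1 else if t = v2 then 2 else if t = v3 then 2 else if t = v4 then 2 else if t = v5 then 2 else if t = v6 then 1 else if t = v7 then 1 else 0 := ⟨_, rfl⟩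
  have c0 : c v0 = 1 := by
    rw [hc]; exact if_pos rfl
  have c1 : c v1 = 1 := by
    rw [hc]; exact (if_neg h1_0).trans (if_pos rfl)
  have c2 : c v2 = 2 := by
    rw [hc]; exact (if_neg h2_0).trans ((if_neg h2_1).trans (if_pos rfl))
  have c3 : c v3 = 2 := by
    rw [hc]; exact (if_neg h3_0).trans ((if_neg h3_1).trans ((if_neg h3_2).trans (if_pos rfl)))
  have c4 : c v4 = 2 := by
    rw [hc]; exact (if_neg h4_0).trans ((if_neg h4_1).trans ((if_neg h4_2).trans ((if_neg h4_3).trans (if_pos rfl))))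
  have c5 : c v5 = 2 := by
    rw [hc]; exact (if_neg h5_0).trans ((if_neg h5_1).trans ((if_neg h5_2).trans ((if_neg h5_3).trans ((if_neg h5_4).trans (if_pos rfl)))))
  have c6 : c v6 = 1 := by
    rw [hc]; exact (if_neg h6_0).trans ((if_neg h6_1).trans ((if_neg h6_2).trans ((if_neg h6_3).trans ((if_neg h6_4).trans ((if_neg h6_5).trans (if_pos rfl))))))
  have c7 : c v7 = 1 := by
    rw [hc]; exact (if_neg h7_0).trans ((if_neg h7_1).trans ((if_neg h7_2).trans ((if_neg h7_3).trans ((if_neg h7_4).trans ((if_neg h7_5).trans ((if_neg h7_6).trans (if_pos rfl)))))))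
  have hsub : ∀ B ∈ ({{v0, v1, v2}, {v2, v3, v4}, {v3, v4, v5}, {v5, v6, v7}} : Finset (Finset α)), B ⊆ ({v0, v1, v2, v3, v4, v5, v6, v7} : Finset α) := by
    intro B hB
    simp only [mem_insert, mem_singleton] at hB
    rcases hB with hB | hB | hB | hB <;>
    · rw [hB]; simp only [insert_subset_iff, singleton_subset_iff, mem_insert, mem_singleton, true_or, or_true, and_self]
  have m0_1_2 : ({v0, v1, v2} : Finset α) ∈ ({{v0, v1, v2}, {v2, v3, v4}, {v3, v4, v5}, {v5, v6, v7}} : Finset (Finset α)) := by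
    rw [perm_012 v0 v1 v2]; simp only [mem_insert, mem_singleton, true_or, or_true]
  have m0_2_1 : ({v0, v2, v1} : Finset α) ∈ ({{v0, v1, v2}, {v2, v3, v4}, {v3, v4, v5}, {v5, v6, v7}} : Finset (Finset α)) := by
    rw [perm_021 v0 v1 v2]; simp only [mem_insert, mem_singleton, true_or, or_true]
  have m1_0_2 : ({v1, v0, v2} : Finset α) ∈ ({{v0, v1, v2}, {v2, v3, v4}, {v3, v4, v5}, {v5, v6, v7}} : Finset (Finset α)) := by
    rw [perm_102 v0 v1 v2]; simp only [mem_insert, mem_singleton, true_or, or_true]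
  have m1_2_0 : ({v1, v2, v0} : Finset α) ∈ ({{v0, v1, v2}, {v2, v3, v4}, {v3, v4, v5}, {v5, v6, v7}} : Finset (Finset α)) := by
    rw [perm_120 v0 v1 v2]; simp only [mem_insert, mem_singleton, true_or, or_true]
  have m2_0_1 : ({v2, v0, v1} : Finset α) ∈ ({{v0, v1, v2}, {v2, v3, v4}, {v3, v4, v5}, {v5, v6, v7}} : Finset (Finset α)) := by
    rw [perm_201 v0 v1 v2]; simp only [mem_insert, mem_singleton, true_or, or_true]
  have m2_1_0 : ({v2, v1, v0} : Finset α) ∈ ({{v0, v1, v2}, {v2, v3, v4}, {v3, v4, v5}, {v5, v6, v7}} : Finset (Finset α)) := by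
    rw [perm_210 v0 v1 v2]; simp only [mem_insert, mem_singleton, true_or, or_true]
  have m2_3_4 : ({v2, v3, v4} : Finset α) ∈ ({{v0, v1, v2}, {v2, v3, v4}, {v3, v4, v5}, {v5, v6, v7}} : Finset (Finset α)) := by
    rw [perm_012 v2 v3 v4]; simp only [mem_insert, mem_singleton, true_or, or_true]
  have m2_4_3 : ({v2, v4, v3} : Finset α) ∈ ({{v0, v1, v2}, {v2, v3, v4}, {v3, v4, v5}, {v5, v6, v7}} : Finset (Finset α)) := by
    rw [perm_021 v2 v3 v4]; simp only [mem_insert, mem_singleton, true_or, or_true]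
  have m3_2_4 : ({v3, v2, v4} : Finset α) ∈ ({{v0, v1, v2}, {v2, v3, v4}, {v3, v4, v5}, {v5, v6, v7}} : Finset (Finset α)) := by
    rw [perm_102 v2 v3 v4]; simp only [mem_insert, mem_singleton, true_or, or_true]
  have m3_4_2 : ({v3, v4, v2} : Finset α) ∈ ({{v0, v1, v2}, {v2, v3, v4}, {v3, v4, v5}, {v5, v6, v7}} : Finset (Finset α)) := by
    rw [perm_120 v2 v3 v4]; simp only [mem_insert, mem_singleton, true_or, or_true]
  have m4_2_3 : ({v4, v2, v3} : Finset α) ∈ ({{v0, v1, v2}, {v2, v3, v4}, {v3, v4, v5}, {v5, v6, v7}} : Finset (Finset α)) := by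
    rw [perm_201 v2 v3 v4]; simp only [mem_insert, mem_singleton, true_or, or_true]
  have m4_3_2 : ({v4, v3, v2} : Finset α) ∈ ({{v0, v1, v2}, {v2, v3, v4}, {v3, v4, v5}, {v5, v6, v7}} : Finset (Finset α)) := by
    rw [perm_210 v2 v3 v4]; simp only [mem_insert, mem_singleton, true_or, or_true]
  have m3_4_5 : ({v3, v4, v5} : Finset α) ∈ ({{v0, v1, v2}, {v2, v3, v4}, {v3, v4, v5}, {v5, v6, v7}} : Finset (Finset α)) := by
    rw [perm_012 v3 v4 v5]; simp only [mem_insert, mem_singleton, true_or, or_true]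
  have m3_5_4 : ({v3, v5, v4} : Finset α) ∈ ({{v0, v1, v2}, {v2, v3, v4}, {v3, v4, v5}, {v5, v6, v7}} : Finset (Finset α)) := by
    rw [perm_021 v3 v4 v5]; simp only [mem_insert, mem_singleton, true_or, or_true]
  have m4_3_5 : ({v4, v3, v5} : Finset α) ∈ ({{v0, v1, v2}, {v2, v3, v4}, {v3, v4, v5}, {v5, v6, v7}} : Finset (Finset α)) := by
    rw [perm_102 v3 v4 v5]; simp only [mem_insert, mem_singleton, true_or, or_true]
  have m4_5_3 : ({v4, v5, v3} : Finset α) ∈ ({{v0, v1, v2}, {v2, v3, v4}, {v3, v4, v5}, {v5, v6, v7}} : Finset (Finset α)) := by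
    rw [perm_120 v3 v4 v5]; simp only [mem_insert, mem_singleton, true_or, or_true]
  have m5_3_4 : ({v5, v3, v4} : Finset α) ∈ ({{v0, v1, v2}, {v2, v3, v4}, {v3, v4, v5}, {v5, v6, v7}} : Finset (Finset α)) := by
    rw [perm_201 v3 v4 v5]; simp only [mem_insert, mem_singleton, true_or, or_true]
  have m5_4_3 : ({v5, v4, v3} : Finset α) ∈ ({{v0, v1, v2}, {v2, v3, v4}, {v3, v4, v5}, {v5, v6, v7}} : Finset (Finset α)) := by
    rw [perm_210 v3 v4 v5]; simp only [mem_insert, mem_singleton, true_or, or_true]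
  have m5_6_7 : ({v5, v6, v7} : Finset α) ∈ ({{v0, v1, v2}, {v2, v3, v4}, {v3, v4, v5}, {v5, v6, v7}} : Finset (Finset α)) := by
    rw [perm_012 v5 v6 v7]; simp only [mem_insert, mem_singleton, true_or, or_true]
  have m5_7_6 : ({v5, v7, v6} : Finset α) ∈ ({{v0, v1, v2}, {v2, v3, v4}, {v3, v4, v5}, {v5, v6, v7}} : Finset (Finset α)) := by
    rw [perm_021 v5 v6 v7]; simp only [mem_insert, mem_singleton, true_or, or_true]
  have m6_5_7 : ({v6, v5, v7} : Finset α) ∈ ({{v0, v1, v2}, {v2, v3, v4}, {v3, v4, v5}, {v5, v6, v7}} : Finset (Finset α)) := by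
    rw [perm_102 v5 v6 v7]; simp only [mem_insert, mem_singleton, true_or, or_true]
  have m6_7_5 : ({v6, v7, v5} : Finset α) ∈ ({{v0, v1, v2}, {v2, v3, v4}, {v3, v4, v5}, {v5, v6, v7}} : Finset (Finset α)) := by
    rw [perm_120 v5 v6 v7]; simp only [mem_insert, mem_singleton, true_or, or_true]
  have m7_5_6 : ({v7, v5, v6} : Finset α) ∈ ({{v0, v1, v2}, {v2, v3, v4}, {v3, v4, v5}, {v5, v6, v7}} : Finset (Finset α)) := by
    rw [perm_201 v5 v6 v7]; simp only [mem_insert, mem_singleton, true_or, or_true]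
  have m7_6_5 : ({v7, v6, v5} : Finset α) ∈ ({{v0, v1, v2}, {v2, v3, v4}, {v3, v4, v5}, {v5, v6, v7}} : Finset (Finset α)) := by
    rw [perm_210 v5 v6 v7]; simp only [mem_insert, mem_singleton, true_or, or_true]
  have hp : ∃ x ∈ ({v0, v1, v2, v3, v4, v5, v6, v7} : Finset α), 0 < c x := ⟨v0, by simp, by rw [c0]; norm_num⟩
  have hGF : ({{v0, v1, v2}, {v2, v3, v4}, {v3, v4, v5}, {v5, v6, v7}} : Finset (Finset α)) ⊆ F := by
    intro B hB
    simp only [mem_insert, mem_singleton] at hB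
    rcases hB with hB | hB | hB | hB <;>
    · rw [hB]; assumption
  have hc0 : ∀ t, 0 ≤ c t := by
    intro t
    rw [hc]; exact nn_ite (by norm_num) (nn_ite (by norm_num) (nn_ite (by norm_num) (nn_ite (by norm_num) (nn_ite (by norm_num) (nn_ite (by norm_num) (nn_ite (by norm_num) (nn_ite (by norm_num) (le_rfl))))))))
  apply fc_of_loc hF hsub hGF hc0 hp
  · intro x hx
    simp only [mem_insert, mem_singleton] at hx
    rcases hx with hx | hx | hx | hx | hx | hx | hx | hx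
    · rw [hx]
      exact locOK1 hsub m0_1_2 h1_0 h2_0 h1_2 (by simp only [c0, c1, c2, c3, c4, c5, c6, c7]; norm_num) (by simp only [c0, c1, c2, c3, c4, c5, c6, c7]; norm_num) (by simp only [c0, c1, c2, c3, c4, c5, c6, c7]; norm_num) (by simp only [c0, c1, c2, c3, c4, c5, c6, c7]; norm_num)
    · rw [hx]
      exact locOK1 hsub m1_0_2 h0_1 h2_1 h0_2 (by simp only [c0, c1, c2, c3, c4, c5, c6, c7]; norm_num) (by simp only [c0, c1, c2, c3, c4, c5, c6, c7]; norm_num) (by simp only [c0, c1, c2, c3, c4, c5, c6, c7]; norm_num) (by simp only [c0, c1, c2, c3, c4, c5, c6, c7]; norm_num)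
    · rw [hx]
      exact locOK2 hsub m2_0_1 m2_3_4 h0_2 h1_2 h0_1 h3_2 h4_2 h3_4
        h0_3 h0_4 h1_3 h1_4 (r := (2 / 3)) (r' := (4 / 3)) (by simp only [c0, c1, c2, c3, c4, c5, c6, c7]; norm_num) (by simp only [c0, c1, c2, c3, c4, c5, c6, c7]; norm_num) (by simp only [c0, c1, c2, c3, c4, c5, c6, c7]; norm_num) (by norm_num) (by simp only [c0, c1, c2, c3, c4, c5, c6, c7]; norm_num) (by simp only [c0, c1, c2, c3, c4, c5, c6, c7]; norm_num) (by simp only [c0, c1, c2, c3, c4, c5, c6, c7]; norm_num) (by norm_num) (by simp only [c0, c1, c2, c3, c4, c5, c6, c7]; norm_num)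
    · rw [hx]
      exact locOKstar hsub m3_4_2 m3_4_5 h4_3 h2_3 h5_3 h4_2 h4_5 h2_5
        (by simp only [c0, c1, c2, c3, c4, c5, c6, c7]; norm_num) (by simp only [c0, c1, c2, c3, c4, c5, c6, c7]; norm_num) (by simp only [c0, c1, c2, c3, c4, c5, c6, c7]; norm_num) (by simp only [c0, c1, c2, c3, c4, c5, c6, c7]; norm_num) (by simp only [c0, c1, c2, c3, c4, c5, c6, c7]; norm_num) (by simp only [c0, c1, c2, c3, c4, c5, c6, c7]; norm_num) (by simp only [c0, c1, c2, c3, c4, c5, c6, c7]; norm_num) (by simp only [c0, c1, c2, c3, c4, c5, c6, c7]; norm_num) (by simp only [c0, c1, c2, c3, c4, c5, c6, c7]; norm_num)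
    · rw [hx]
      exact locOKstar hsub m4_3_2 m4_3_5 h3_4 h2_4 h5_4 h3_2 h3_5 h2_5
        (by simp only [c0, c1, c2, c3, c4, c5, c6, c7]; norm_num) (by simp only [c0, c1, c2, c3, c4, c5, c6, c7]; norm_num) (by simp only [c0, c1, c2, c3, c4, c5, c6, c7]; norm_num) (by simp only [c0, c1, c2, c3, c4, c5, c6, c7]; norm_num) (by simp only [c0, c1, c2, c3, c4, c5, c6, c7]; norm_num) (by simp only [c0, c1, c2, c3, c4, c5, c6, c7]; norm_num) (by simp only [c0, c1, c2, c3, c4, c5, c6, c7]; norm_num) (by simp only [c0, c1, c2, c3, c4, c5, c6, c7]; norm_num) (by simp only [c0, c1, c2, c3, c4, c5, c6, c7]; norm_num)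
    · rw [hx]
      exact locOK2 hsub m5_3_4 m5_6_7 h3_5 h4_5 h3_4 h6_5 h7_5 h6_7
        h3_6 h3_7 h4_6 h4_7 (r := (4 / 3)) (r' := (2 / 3)) (by simp only [c0, c1, c2, c3, c4, c5, c6, c7]; norm_num) (by simp only [c0, c1, c2, c3, c4, c5, c6, c7]; norm_num) (by simp only [c0, c1, c2, c3, c4, c5, c6, c7]; norm_num) (by norm_num) (by simp only [c0, c1, c2, c3, c4, c5, c6, c7]; norm_num) (by simp only [c0, c1, c2, c3, c4, c5, c6, c7]; norm_num) (by simp only [c0, c1, c2, c3, c4, c5, c6, c7]; norm_num) (by norm_num) (by simp only [c0, c1, c2, c3, c4, c5, c6, c7]; norm_num)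
    · rw [hx]
      exact locOK1 hsub m6_5_7 h5_6 h7_6 h5_7 (by simp only [c0, c1, c2, c3, c4, c5, c6, c7]; norm_num) (by simp only [c0, c1, c2, c3, c4, c5, c6, c7]; norm_num) (by simp only [c0, c1, c2, c3, c4, c5, c6, c7]; norm_num) (by simp only [c0, c1, c2, c3, c4, c5, c6, c7]; norm_num)
    · rw [hx]
      exact locOK1 hsub m7_5_6 h5_7 h6_7 h5_6 (by simp only [c0, c1, c2, c3, c4, c5, c6, c7]; norm_num) (by simp only [c0, c1, c2, c3, c4, c5, c6, c7]; norm_num) (by simp only [c0, c1, c2, c3, c4, c5, c6, c7]; norm_num) (by simp only [c0, c1, c2, c3, c4, c5, c6, c7]; norm_num)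

theorem cfg_P5 {F : Finset (Finset α)} (hF : ∀ A ∈ F, ∀ B ∈ F, A ∪ B ∈ F)
    {v0 v1 v2 v3 v4 v5 v6 v7 v8 v9 v10 : α} (nd : [v0, v1, v2, v3, v4, v5, v6, v7, v8, v9, v10].Nodup)
    (t0 : ({v0, v1, v2} : Finset α) ∈ F)
    (t1 : ({v2, v3, v4} : Finset α) ∈ F)
    (t2 : ({v4, v5, v6} : Finset α) ∈ F)
    (t3 : ({v6, v7, v8} : Finset α) ∈ F)
    (t4 : ({v8, v9, v10} : Finset α) ∈ F)
    : ∃ x ∈ ({v0, v1, v2, v3, v4, v5, v6, v7, v8, v9, v10} : Finset α), F.card ≤ 2 * (F.filter (fun A => x ∈ A)).card := by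
  simp only [List.nodup_cons, List.mem_cons, List.not_mem_nil, not_or, not_false_eq_true,
    and_true, or_false, List.nodup_nil] at nd
  obtain ⟨⟨h0_1, h0_2, h0_3, h0_4, h0_5, h0_6, h0_7, h0_8, h0_9, h0_10⟩, ⟨h1_2, h1_3, h1_4, h1_5, h1_6, h1_7, h1_8, h1_9, h1_10⟩, ⟨h2_3, h2_4, h2_5, h2_6, h2_7, h2_8, h2_9, h2_10⟩, ⟨h3_4, h3_5, h3_6, h3_7, h3_8, h3_9, h3_10⟩, ⟨h4_5, h4_6, h4_7, h4_8, h4_9, h4_10⟩, ⟨h5_6, h5_7, h5_8, h5_9, h5_10⟩, ⟨h6_7, h6_8, h6_9, h6_10⟩, ⟨h7_8, h7_9, h7_10⟩, ⟨h8_9, h8_10⟩, h9_10⟩ := nd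
  replace h0_1 : v0 ≠ v1 := h0_1
  have h1_0 : v1 ≠ v0 := h0_1.symm
  replace h0_2 : v0 ≠ v2 := h0_2
  have h2_0 : v2 ≠ v0 := h0_2.symm
  replace h0_3 : v0 ≠ v3 := h0_3
  have h3_0 : v3 ≠ v0 := h0_3.symm
  replace h0_4 : v0 ≠ v4 := h0_4
  have h4_0 : v4 ≠ v0 := h0_4.symm
  replace h0_5 : v0 ≠ v5 := h0_5
  have h5_0 : v5 ≠ v0 := h0_5.symm
  replace h0_6 : v0 ≠ v6 := h0_6
  have h6_0 : v6 ≠ v0 := h0_6.symm
  replace h0_7 : v0 ≠ v7 := h0_7
  have h7_0 : v7 ≠ v0 := h0_7.symm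
  replace h0_8 : v0 ≠ v8 := h0_8
  have h8_0 : v8 ≠ v0 := h0_8.symm
  replace h0_9 : v0 ≠ v9 := h0_9
  have h9_0 : v9 ≠ v0 := h0_9.symm
  replace h0_10 : v0 ≠ v10 := h0_10
  have h10_0 : v10 ≠ v0 := h0_10.symm
  replace h1_2 : v1 ≠ v2 := h1_2
  have h2_1 : v2 ≠ v1 := h1_2.symm
  replace h1_3 : v1 ≠ v3 := h1_3
  have h3_1 : v3 ≠ v1 := h1_3.symm
  replace h1_4 : v1 ≠ v4 := h1_4
  have h4_1 : v4 ≠ v1 := h1_4.symm
  replace h1_5 : v1 ≠ v5 := h1_5
  have h5_1 : v5 ≠ v1 := h1_5.symm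
  replace h1_6 : v1 ≠ v6 := h1_6
  have h6_1 : v6 ≠ v1 := h1_6.symm
  replace h1_7 : v1 ≠ v7 := h1_7
  have h7_1 : v7 ≠ v1 := h1_7.symm
  replace h1_8 : v1 ≠ v8 := h1_8
  have h8_1 : v8 ≠ v1 := h1_8.symm
  replace h1_9 : v1 ≠ v9 := h1_9
  have h9_1 : v9 ≠ v1 := h1_9.symm
  replace h1_10 : v1 ≠ v10 := h1_10
  have h10_1 : v10 ≠ v1 := h1_10.symm
  replace h2_3 : v2 ≠ v3 := h2_3
  have h3_2 : v3 ≠ v2 := h2_3.symm
  replace h2_4 : v2 ≠ v4 := h2_4
  have h4_2 : v4 ≠ v2 := h2_4.symm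
  replace h2_5 : v2 ≠ v5 := h2_5
  have h5_2 : v5 ≠ v2 := h2_5.symm
  replace h2_6 : v2 ≠ v6 := h2_6
  have h6_2 : v6 ≠ v2 := h2_6.symm
  replace h2_7 : v2 ≠ v7 := h2_7
  have h7_2 : v7 ≠ v2 := h2_7.symm
  replace h2_8 : v2 ≠ v8 := h2_8
  have h8_2 : v8 ≠ v2 := h2_8.symm
  replace h2_9 : v2 ≠ v9 := h2_9
  have h9_2 : v9 ≠ v2 := h2_9.symm
  replace h2_10 : v2 ≠ v10 := h2_10
  have h10_2 : v10 ≠ v2 := h2_10.symm
  replace h3_4 : v3 ≠ v4 := h3_4
  have h4_3 : v4 ≠ v3 := h3_4.symm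
  replace h3_5 : v3 ≠ v5 := h3_5
  have h5_3 : v5 ≠ v3 := h3_5.symm
  replace h3_6 : v3 ≠ v6 := h3_6
  have h6_3 : v6 ≠ v3 := h3_6.symm
  replace h3_7 : v3 ≠ v7 := h3_7
  have h7_3 : v7 ≠ v3 := h3_7.symm
  replace h3_8 : v3 ≠ v8 := h3_8
  have h8_3 : v8 ≠ v3 := h3_8.symm
  replace h3_9 : v3 ≠ v9 := h3_9
  have h9_3 : v9 ≠ v3 := h3_9.symm
  replace h3_10 : v3 ≠ v10 := h3_10
  have h10_3 : v10 ≠ v3 := h3_10.symm
  replace h4_5 : v4 ≠ v5 := h4_5
  have h5_4 : v5 ≠ v4 := h4_5.symm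
  replace h4_6 : v4 ≠ v6 := h4_6
  have h6_4 : v6 ≠ v4 := h4_6.symm
  replace h4_7 : v4 ≠ v7 := h4_7
  have h7_4 : v7 ≠ v4 := h4_7.symm
  replace h4_8 : v4 ≠ v8 := h4_8
  have h8_4 : v8 ≠ v4 := h4_8.symm
  replace h4_9 : v4 ≠ v9 := h4_9
  have h9_4 : v9 ≠ v4 := h4_9.symm
  replace h4_10 : v4 ≠ v10 := h4_10
  have h10_4 : v10 ≠ v4 := h4_10.symm
  replace h5_6 : v5 ≠ v6 := h5_6
  have h6_5 : v6 ≠ v5 := h5_6.symm
  replace h5_7 : v5 ≠ v7 := h5_7
  have h7_5 : v7 ≠ v5 := h5_7.symm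
  replace h5_8 : v5 ≠ v8 := h5_8
  have h8_5 : v8 ≠ v5 := h5_8.symm
  replace h5_9 : v5 ≠ v9 := h5_9
  have h9_5 : v9 ≠ v5 := h5_9.symm
  replace h5_10 : v5 ≠ v10 := h5_10
  have h10_5 : v10 ≠ v5 := h5_10.symm
  replace h6_7 : v6 ≠ v7 := h6_7
  have h7_6 : v7 ≠ v6 := h6_7.symm
  replace h6_8 : v6 ≠ v8 := h6_8
  have h8_6 : v8 ≠ v6 := h6_8.symm
  replace h6_9 : v6 ≠ v9 := h6_9
  have h9_6 : v9 ≠ v6 := h6_9.symm
  replace h6_10 : v6 ≠ v10 := h6_10
  have h10_6 : v10 ≠ v6 := h6_10.symm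
  replace h7_8 : v7 ≠ v8 := h7_8
  have h8_7 : v8 ≠ v7 := h7_8.symm
  replace h7_9 : v7 ≠ v9 := h7_9
  have h9_7 : v9 ≠ v7 := h7_9.symm
  replace h7_10 : v7 ≠ v10 := h7_10
  have h10_7 : v10 ≠ v7 := h7_10.symm
  replace h8_9 : v8 ≠ v9 := h8_9
  have h9_8 : v9 ≠ v8 := h8_9.symm
  replace h8_10 : v8 ≠ v10 := h8_10
  have h10_8 : v10 ≠ v8 := h8_10.symm
  replace h9_10 : v9 ≠ v10 := h9_10
  have h10_9 : v10 ≠ v9 := h9_10.symm
  obtain ⟨c, hc⟩ : ∃ c : α → ℝ, c = fun t => if t = v0 then 9 else if t = v1 then 9 else if t = v2 then 18 else if t = v3 then 14 else if t = v4 then 24 else if t = v5 then 16 else if t = v6 then 24 else if t = v7 then 14 else if t = v8 then 18 else if t = v9 then 9 else if t = v10 then 9 else 0 := ⟨_, rfl⟩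
  have c0 : c v0 = 9 := by
    rw [hc]; exact if_pos rfl
  have c1 : c v1 = 9 := by
    rw [hc]; exact (if_neg h1_0).trans (if_pos rfl)
  have c2 : c v2 = 18 := by
    rw [hc]; exact (if_neg h2_0).trans ((if_neg h2_1).trans (if_pos rfl))
  have c3 : c v3 = 14 := by
    rw [hc]; exact (if_neg h3_0).trans ((if_neg h3_1).trans ((if_neg h3_2).trans (if_pos rfl)))
  have c4 : c v4 = 24 := by
    rw [hc]; exact (if_neg h4_0).trans ((if_neg h4_1).trans ((if_neg h4_2).trans ((if_neg h4_3).trans (if_pos rfl))))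
  have c5 : c v5 = 16 := by
    rw [hc]; exact (if_neg h5_0).trans ((if_neg h5_1).trans ((if_neg h5_2).trans ((if_neg h5_3).trans ((if_neg h5_4).trans (if_pos rfl)))))
  have c6 : c v6 = 24 := by
    rw [hc]; exact (if_neg h6_0).trans ((if_neg h6_1).trans ((if_neg h6_2).trans ((if_neg h6_3).trans ((if_neg h6_4).trans ((if_neg h6_5).trans (if_pos rfl))))))
  have c7 : c v7 = 14 := by
    rw [hc]; exact (if_neg h7_0).trans ((if_neg h7_1).trans ((if_neg h7_2).trans ((if_neg h7_3).trans ((if_neg h7_4).trans ((if_neg h7_5).trans ((if_neg h7_6).trans (if_pos rfl)))))))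
  have c8 : c v8 = 18 := by
    rw [hc]; exact (if_neg h8_0).trans ((if_neg h8_1).trans ((if_neg h8_2).trans ((if_neg h8_3).trans ((if_neg h8_4).trans ((if_neg h8_5).trans ((if_neg h8_6).trans ((if_neg h8_7).trans (if_pos rfl))))))))
  have c9 : c v9 = 9 := by
    rw [hc]; exact (if_neg h9_0).trans ((if_neg h9_1).trans ((if_neg h9_2).trans ((if_neg h9_3).trans ((if_neg h9_4).trans ((if_neg h9_5).trans ((if_neg h9_6).trans ((if_neg h9_7).trans ((if_neg h9_8).trans (if_pos rfl)))))))))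
  have c10 : c v10 = 9 := by
    rw [hc]; exact (if_neg h10_0).trans ((if_neg h10_1).trans ((if_neg h10_2).trans ((if_neg h10_3).trans ((if_neg h10_4).trans ((if_neg h10_5).trans ((if_neg h10_6).trans ((if_neg h10_7).trans ((if_neg h10_8).trans ((if_neg h10_9).trans (if_pos rfl))))))))))
  have hsub : ∀ B ∈ ({{v0, v1, v2}, {v2, v3, v4}, {v4, v5, v6}, {v6, v7, v8}, {v8, v9, v10}} : Finset (Finset α)), B ⊆ ({v0, v1, v2, v3, v4, v5, v6, v7, v8, v9, v10} : Finset α) := by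
    intro B hB
    simp only [mem_insert, mem_singleton] at hB
    rcases hB with hB | hB | hB | hB | hB <;>
    · rw [hB]; simp only [insert_subset_iff, singleton_subset_iff, mem_insert, mem_singleton, true_or, or_true, and_self]
  have m0_1_2 : ({v0, v1, v2} : Finset α) ∈ ({{v0, v1, v2}, {v2, v3, v4}, {v4, v5, v6}, {v6, v7, v8}, {v8, v9, v10}} : Finset (Finset α)) := by
    rw [perm_012 v0 v1 v2]; simp only [mem_insert, mem_singleton, true_or, or_true]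
  have m0_2_1 : ({v0, v2, v1} : Finset α) ∈ ({{v0, v1, v2}, {v2, v3, v4}, {v4, v5, v6}, {v6, v7, v8}, {v8, v9, v10}} : Finset (Finset α)) := by
    rw [perm_021 v0 v1 v2]; simp only [mem_insert, mem_singleton, true_or, or_true]
  have m1_0_2 : ({v1, v0, v2} : Finset α) ∈ ({{v0, v1, v2}, {v2, v3, v4}, {v4, v5, v6}, {v6, v7, v8}, {v8, v9, v10}} : Finset (Finset α)) := by
    rw [perm_102 v0 v1 v2]; simp only [mem_insert, mem_singleton, true_or, or_true]
  have m1_2_0 : ({v1, v2, v0} : Finset α) ∈ ({{v0, v1, v2}, {v2, v3, v4}, {v4, v5, v6}, {v6, v7, v8}, {v8, v9, v10}} : Finset (Finset α)) := by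
    rw [perm_120 v0 v1 v2]; simp only [mem_insert, mem_singleton, true_or, or_true]
  have m2_0_1 : ({v2, v0, v1} : Finset α) ∈ ({{v0, v1, v2}, {v2, v3, v4}, {v4, v5, v6}, {v6, v7, v8}, {v8, v9, v10}} : Finset (Finset α)) := by
    rw [perm_201 v0 v1 v2]; simp only [mem_insert, mem_singleton, true_or, or_true]
  have m2_1_0 : ({v2, v1, v0} : Finset α) ∈ ({{v0, v1, v2}, {v2, v3, v4}, {v4, v5, v6}, {v6, v7, v8}, {v8, v9, v10}} : Finset (Finset α)) := by
    rw [perm_210 v0 v1 v2]; simp only [mem_insert, mem_singleton, true_or, or_true]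
  have m2_3_4 : ({v2, v3, v4} : Finset α) ∈ ({{v0, v1, v2}, {v2, v3, v4}, {v4, v5, v6}, {v6, v7, v8}, {v8, v9, v10}} : Finset (Finset α)) := by
    rw [perm_012 v2 v3 v4]; simp only [mem_insert, mem_singleton, true_or, or_true]
  have m2_4_3 : ({v2, v4, v3} : Finset α) ∈ ({{v0, v1, v2}, {v2, v3, v4}, {v4, v5, v6}, {v6, v7, v8}, {v8, v9, v10}} : Finset (Finset α)) := by
    rw [perm_021 v2 v3 v4]; simp only [mem_insert, mem_singleton, true_or, or_true]
  have m3_2_4 : ({v3, v2, v4} : Finset α) ∈ ({{v0, v1, v2}, {v2, v3, v4}, {v4, v5, v6}, {v6, v7, v8}, {v8, v9, v10}} : Finset (Finset α)) := by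
    rw [perm_102 v2 v3 v4]; simp only [mem_insert, mem_singleton, true_or, or_true]
  have m3_4_2 : ({v3, v4, v2} : Finset α) ∈ ({{v0, v1, v2}, {v2, v3, v4}, {v4, v5, v6}, {v6, v7, v8}, {v8, v9, v10}} : Finset (Finset α)) := by
    rw [perm_120 v2 v3 v4]; simp only [mem_insert, mem_singleton, true_or, or_true]
  have m4_2_3 : ({v4, v2, v3} : Finset α) ∈ ({{v0, v1, v2}, {v2, v3, v4}, {v4, v5, v6}, {v6, v7, v8}, {v8, v9, v10}} : Finset (Finset α)) := by
    rw [perm_201 v2 v3 v4]; simp only [mem_insert, mem_singleton, true_or, or_true]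
  have m4_3_2 : ({v4, v3, v2} : Finset α) ∈ ({{v0, v1, v2}, {v2, v3, v4}, {v4, v5, v6}, {v6, v7, v8}, {v8, v9, v10}} : Finset (Finset α)) := by
    rw [perm_210 v2 v3 v4]; simp only [mem_insert, mem_singleton, true_or, or_true]
  have m4_5_6 : ({v4, v5, v6} : Finset α) ∈ ({{v0, v1, v2}, {v2, v3, v4}, {v4, v5, v6}, {v6, v7, v8}, {v8, v9, v10}} : Finset (Finset α)) := by
    rw [perm_012 v4 v5 v6]; simp only [mem_insert, mem_singleton, true_or, or_true]
  have m4_6_5 : ({v4, v6, v5} : Finset α) ∈ ({{v0, v1, v2}, {v2, v3, v4}, {v4, v5, v6}, {v6, v7, v8}, {v8, v9, v10}} : Finset (Finset α)) := by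
    rw [perm_021 v4 v5 v6]; simp only [mem_insert, mem_singleton, true_or, or_true]
  have m5_4_6 : ({v5, v4, v6} : Finset α) ∈ ({{v0, v1, v2}, {v2, v3, v4}, {v4, v5, v6}, {v6, v7, v8}, {v8, v9, v10}} : Finset (Finset α)) := by
    rw [perm_102 v4 v5 v6]; simp only [mem_insert, mem_singleton, true_or, or_true]
  have m5_6_4 : ({v5, v6, v4} : Finset α) ∈ ({{v0, v1, v2}, {v2, v3, v4}, {v4, v5, v6}, {v6, v7, v8}, {v8, v9, v10}} : Finset (Finset α)) := by
    rw [perm_120 v4 v5 v6]; simp only [mem_insert, mem_singleton, true_or, or_true]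
  have m6_4_5 : ({v6, v4, v5} : Finset α) ∈ ({{v0, v1, v2}, {v2, v3, v4}, {v4, v5, v6}, {v6, v7, v8}, {v8, v9, v10}} : Finset (Finset α)) := by
    rw [perm_201 v4 v5 v6]; simp only [mem_insert, mem_singleton, true_or, or_true]
  have m6_5_4 : ({v6, v5, v4} : Finset α) ∈ ({{v0, v1, v2}, {v2, v3, v4}, {v4, v5, v6}, {v6, v7, v8}, {v8, v9, v10}} : Finset (Finset α)) := by
    rw [perm_210 v4 v5 v6]; simp only [mem_insert, mem_singleton, true_or, or_true]
  have m6_7_8 : ({v6, v7, v8} : Finset α) ∈ ({{v0, v1, v2}, {v2, v3, v4}, {v4, v5, v6}, {v6, v7, v8}, {v8, v9, v10}} : Finset (Finset α)) := by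
    rw [perm_012 v6 v7 v8]; simp only [mem_insert, mem_singleton, true_or, or_true]
  have m6_8_7 : ({v6, v8, v7} : Finset α) ∈ ({{v0, v1, v2}, {v2, v3, v4}, {v4, v5, v6}, {v6, v7, v8}, {v8, v9, v10}} : Finset (Finset α)) := by
    rw [perm_021 v6 v7 v8]; simp only [mem_insert, mem_singleton, true_or, or_true]
  have m7_6_8 : ({v7, v6, v8} : Finset α) ∈ ({{v0, v1, v2}, {v2, v3, v4}, {v4, v5, v6}, {v6, v7, v8}, {v8, v9, v10}} : Finset (Finset α)) := by
    rw [perm_102 v6 v7 v8]; simp only [mem_insert, mem_singleton, true_or, or_true]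
  have m7_8_6 : ({v7, v8, v6} : Finset α) ∈ ({{v0, v1, v2}, {v2, v3, v4}, {v4, v5, v6}, {v6, v7, v8}, {v8, v9, v10}} : Finset (Finset α)) := by
    rw [perm_120 v6 v7 v8]; simp only [mem_insert, mem_singleton, true_or, or_true]
  have m8_6_7 : ({v8, v6, v7} : Finset α) ∈ ({{v0, v1, v2}, {v2, v3, v4}, {v4, v5, v6}, {v6, v7, v8}, {v8, v9, v10}} : Finset (Finset α)) := by
    rw [perm_201 v6 v7 v8]; simp only [mem_insert, mem_singleton, true_or, or_true]
  have m8_7_6 : ({v8, v7, v6} : Finset α) ∈ ({{v0, v1, v2}, {v2, v3, v4}, {v4, v5, v6}, {v6, v7, v8}, {v8, v9, v10}} : Finset (Finset α)) := by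
    rw [perm_210 v6 v7 v8]; simp only [mem_insert, mem_singleton, true_or, or_true]
  have m8_9_10 : ({v8, v9, v10} : Finset α) ∈ ({{v0, v1, v2}, {v2, v3, v4}, {v4, v5, v6}, {v6, v7, v8}, {v8, v9, v10}} : Finset (Finset α)) := by
    rw [perm_012 v8 v9 v10]; simp only [mem_insert, mem_singleton, true_or, or_true]
  have m8_10_9 : ({v8, v10, v9} : Finset α) ∈ ({{v0, v1, v2}, {v2, v3, v4}, {v4, v5, v6}, {v6, v7, v8}, {v8, v9, v10}} : Finset (Finset α)) := by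
    rw [perm_021 v8 v9 v10]; simp only [mem_insert, mem_singleton, true_or, or_true]
  have m9_8_10 : ({v9, v8, v10} : Finset α) ∈ ({{v0, v1, v2}, {v2, v3, v4}, {v4, v5, v6}, {v6, v7, v8}, {v8, v9, v10}} : Finset (Finset α)) := by
    rw [perm_102 v8 v9 v10]; simp only [mem_insert, mem_singleton, true_or, or_true]
  have m9_10_8 : ({v9, v10, v8} : Finset α) ∈ ({{v0, v1, v2}, {v2, v3, v4}, {v4, v5, v6}, {v6, v7, v8}, {v8, v9, v10}} : Finset (Finset α)) := by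
    rw [perm_120 v8 v9 v10]; simp only [mem_insert, mem_singleton, true_or, or_true]
  have m10_8_9 : ({v10, v8, v9} : Finset α) ∈ ({{v0, v1, v2}, {v2, v3, v4}, {v4, v5, v6}, {v6, v7, v8}, {v8, v9, v10}} : Finset (Finset α)) := by
    rw [perm_201 v8 v9 v10]; simp only [mem_insert, mem_singleton, true_or, or_true]
  have m10_9_8 : ({v10, v9, v8} : Finset α) ∈ ({{v0, v1, v2}, {v2, v3, v4}, {v4, v5, v6}, {v6, v7, v8}, {v8, v9, v10}} : Finset (Finset α)) := by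
    rw [perm_210 v8 v9 v10]; simp only [mem_insert, mem_singleton, true_or, or_true]
  have hp : ∃ x ∈ ({v0, v1, v2, v3, v4, v5, v6, v7, v8, v9, v10} : Finset α), 0 < c x := ⟨v0, by simp, by rw [c0]; norm_num⟩
  have hGF : ({{v0, v1, v2}, {v2, v3, v4}, {v4, v5, v6}, {v6, v7, v8}, {v8, v9, v10}} : Finset (Finset α)) ⊆ F := by
    intro B hB
    simp only [mem_insert, mem_singleton] at hB
    rcases hB with hB | hB | hB | hB | hB <;>
    · rw [hB]; assumption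
  have hc0 : ∀ t, 0 ≤ c t := by
    intro t
    rw [hc]; exact nn_ite (by norm_num) (nn_ite (by norm_num) (nn_ite (by norm_num) (nn_ite (by norm_num) (nn_ite (by norm_num) (nn_ite (by norm_num) (nn_ite (by norm_num) (nn_ite (by norm_num) (nn_ite (by norm_num) (nn_ite (by norm_num) (nn_ite (by norm_num) (le_rfl)))))))))))
  apply fc_of_loc hF hsub hGF hc0 hp
  · intro x hx
    simp only [mem_insert, mem_singleton] at hx
    rcases hx with hx | hx | hx | hx | hx | hx | hx | hx | hx | hx | hx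
    · rw [hx]
      exact locOK1 hsub m0_1_2 h1_0 h2_0 h1_2 (by simp only [c0, c1, c2, c3, c4, c5, c6, c7, c8, c9, c10]; norm_num) (by simp only [c0, c1, c2, c3, c4, c5, c6, c7, c8, c9, c10]; norm_num) (by simp only [c0, c1, c2, c3, c4, c5, c6, c7, c8, c9, c10]; norm_num) (by simp only [c0, c1, c2, c3, c4, c5, c6, c7, c8, c9, c10]; norm_num)
    · rw [hx]
      exact locOK1 hsub m1_0_2 h0_1 h2_1 h0_2 (by simp only [c0, c1, c2, c3, c4, c5, c6, c7, c8, c9, c10]; norm_num) (by simp only [c0, c1, c2, c3, c4, c5, c6, c7, c8, c9, c10]; norm_num) (by simp only [c0, c1, c2, c3, c4, c5, c6, c7, c8, c9, c10]; norm_num) (by simp only [c0, c1, c2, c3, c4, c5, c6, c7, c8, c9, c10]; norm_num)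
    · rw [hx]
      exact locOK2 hsub m2_0_1 m2_3_4 h0_2 h1_2 h0_1 h3_2 h4_2 h3_4
        h0_3 h0_4 h1_3 h1_4 (r := 6) (r' := (38 / 3)) (by simp only [c0, c1, c2, c3, c4, c5, c6, c7, c8, c9, c10]; norm_num) (by simp only [c0, c1, c2, c3, c4, c5, c6, c7, c8, c9, c10]; norm_num) (by simp only [c0, c1, c2, c3, c4, c5, c6, c7, c8, c9, c10]; norm_num) (by norm_num) (by simp only [c0, c1, c2, c3, c4, c5, c6, c7, c8, c9, c10]; norm_num) (by simp only [c0, c1, c2, c3, c4, c5, c6, c7, c8, c9, c10]; norm_num) (by simp only [c0, c1, c2, c3, c4, c5, c6, c7, c8, c9, c10]; norm_num) (by norm_num) (by simp only [c0, c1, c2, c3, c4, c5, c6, c7, c8, c9, c10]; norm_num)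
    · rw [hx]
      exact locOK1 hsub m3_2_4 h2_3 h4_3 h2_4 (by simp only [c0, c1, c2, c3, c4, c5, c6, c7, c8, c9, c10]; norm_num) (by simp only [c0, c1, c2, c3, c4, c5, c6, c7, c8, c9, c10]; norm_num) (by simp only [c0, c1, c2, c3, c4, c5, c6, c7, c8, c9, c10]; norm_num) (by simp only [c0, c1, c2, c3, c4, c5, c6, c7, c8, c9, c10]; norm_num)
    · rw [hx]
      exact locOK2 hsub m4_2_3 m4_5_6 h2_4 h3_4 h2_3 h5_4 h6_4 h5_6
        h2_5 h2_6 h3_5 h3_6 (r := (32 / 3)) (r' := (40 / 3)) (by simp only [c0, c1, c2, c3, c4, c5, c6, c7, c8, c9, c10]; norm_num) (by simp only [c0, c1, c2, c3, c4, c5, c6, c7, c8, c9, c10]; norm_num) (by simp only [c0, c1, c2, c3, c4, c5, c6, c7, c8, c9, c10]; norm_num) (by norm_num) (by simp only [c0, c1, c2, c3, c4, c5, c6, c7, c8, c9, c10]; norm_num) (by simp only [c0, c1, c2, c3, c4, c5, c6, c7, c8, c9, c10]; norm_num) (by simp only [c0, c1, c2, c3, c4, c5, c6, c7, c8, c9, c10];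 norm_num) (by norm_num) (by simp only [c0, c1, c2, c3, c4, c5, c6, c7, c8, c9, c10]; norm_num)
    · rw [hx]
      exact locOK1 hsub m5_4_6 h4_5 h6_5 h4_6 (by simp only [c0, c1, c2, c3, c4, c5, c6, c7, c8, c9, c10]; norm_num) (by simp only [c0, c1, c2, c3, c4, c5, c6, c7, c8, c9, c10]; norm_num) (by simp only [c0, c1, c2, c3, c4, c5, c6, c7, c8, c9, c10]; norm_num) (by simp only [c0, c1, c2, c3, c4, c5, c6, c7, c8, c9, c10]; norm_num)
    · rw [hx]
      exact locOK2 hsub m6_4_5 m6_7_8 h4_6 h5_6 h4_5 h7_6 h8_6 h7_8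
        h4_7 h4_8 h5_7 h5_8 (r := (40 / 3)) (r' := (32 / 3)) (by simp only [c0, c1, c2, c3, c4, c5, c6, c7, c8, c9, c10]; norm_num) (by simp only [c0, c1, c2, c3, c4, c5, c6, c7, c8, c9, c10]; norm_num) (by simp only [c0, c1, c2, c3, c4, c5, c6, c7, c8, c9, c10]; norm_num) (by norm_num) (by simp only [c0, c1, c2, c3, c4, c5, c6, c7, c8, c9, c10]; norm_num) (by simp only [c0, c1, c2, c3, c4, c5, c6, c7, c8, c9, c10]; norm_num) (by simp only [c0, c1, c2, c3, c4, c5, c6, c7, c8, c9, c10]; norm_num) (by norm_num) (by simp only [c0, c1, c2, c3, c4, c5, c6, c7, c8, c9, c10]; norm_num)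
    · rw [hx]
      exact locOK1 hsub m7_6_8 h6_7 h8_7 h6_8 (by simp only [c0, c1, c2, c3, c4, c5, c6, c7, c8, c9, c10]; norm_num) (by simp only [c0, c1, c2, c3, c4, c5, c6, c7, c8, c9, c10]; norm_num) (by simp only [c0, c1, c2, c3, c4, c5, c6, c7, c8, c9, c10]; norm_num) (by simp only [c0, c1, c2, c3, c4, c5, c6, c7, c8, c9, c10]; norm_num)
    · rw [hx]
      exact locOK2 hsub m8_6_7 m8_9_10 h6_8 h7_8 h6_7 h9_8 h10_8 h9_10
        h6_9 h6_10 h7_9 h7_10 (r := (38 / 3)) (r' := 6) (by simp only [c0, c1, c2, c3, c4, c5, c6, c7, c8, c9, c10]; norm_num) (by simp only [c0, c1, c2, c3, c4, c5, c6, c7, c8, c9, c10]; norm_num) (by simp only [c0, c1, c2, c3, c4, c5, c6, c7, c8, c9, c10]; norm_num) (by norm_num) (by simp only [c0, c1, c2, c3, c4, c5, c6, c7, c8, c9, c10]; norm_num) (by simp only [c0, c1, c2, c3, c4, c5, c6, c7, c8, c9, c10]; norm_num) (by simp only [c0, c1, c2, c3, c4, c5, c6, c7, c8, c9, c10]; norm_num)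 (by norm_num) (by simp only [c0, c1, c2, c3, c4, c5, c6, c7, c8, c9, c10]; norm_num)
    · rw [hx]
      exact locOK1 hsub m9_8_10 h8_9 h10_9 h8_10 (by simp only [c0, c1, c2, c3, c4, c5, c6, c7, c8, c9, c10]; norm_num) (by simp only [c0, c1, c2, c3, c4, c5, c6, c7, c8, c9, c10]; norm_num) (by simp only [c0, c1, c2, c3, c4, c5, c6, c7, c8, c9, c10]; norm_num) (by simp only [c0, c1, c2, c3, c4, c5, c6, c7, c8, c9, c10]; norm_num)
    · rw [hx]
      exact locOK1 hsub m10_8_9 h8_10 h9_10 h8_9 (by simp only [c0, c1, c2, c3, c4, c5, c6, c7, c8, c9, c10]; norm_num) (by simp only [c0, c1, c2, c3, c4, c5, c6, c7, c8, c9, c10]; norm_num) (by simp only [c0, c1, c2, c3, c4, c5, c6, c7, c8, c9, c10]; norm_num) (by simp only [c0, c1, c2, c3, c4, c5, c6, c7, c8, c9, c10]; norm_num)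

theorem cfg_P5d {F : Finset (Finset α)} (hF : ∀ A ∈ F, ∀ B ∈ F, A ∪ B ∈ F)
    {v0 v1 v2 v3 v4 v5 v6 v7 v8 v9 : α} (nd : [v0, v1, v2, v3, v4, v5, v6, v7, v8, v9].Nodup)
    (t0 : ({v0, v1, v2} : Finset α) ∈ F)
    (t1 : ({v2, v3, v4} : Finset α) ∈ F)
    (t2 : ({v4, v5, v6} : Finset α) ∈ F)
    (t3 : ({v6, v7, v8} : Finset α) ∈ F)
    (t4 : ({v7, v8, v9} : Finset α) ∈ F)
    : ∃ x ∈ ({v0, v1, v2, v3, v4, v5, v6, v7, v8, v9} : Finset α), F.card ≤ 2 * (F.filter (fun A => x ∈ A)).card := by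
  simp only [List.nodup_cons, List.mem_cons, List.not_mem_nil, not_or, not_false_eq_true,
    and_true, or_false, List.nodup_nil] at nd
  obtain ⟨⟨h0_1, h0_2, h0_3, h0_4, h0_5, h0_6, h0_7, h0_8, h0_9⟩, ⟨h1_2, h1_3, h1_4, h1_5, h1_6, h1_7, h1_8, h1_9⟩, ⟨h2_3, h2_4, h2_5, h2_6, h2_7, h2_8, h2_9⟩, ⟨h3_4, h3_5, h3_6, h3_7, h3_8, h3_9⟩, ⟨h4_5, h4_6, h4_7, h4_8, h4_9⟩, ⟨h5_6, h5_7, h5_8, h5_9⟩, ⟨h6_7, h6_8, h6_9⟩, ⟨h7_8, h7_9⟩, h8_9⟩ := nd
  replace h0_1 : v0 ≠ v1 := h0_1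
  have h1_0 : v1 ≠ v0 := h0_1.symm
  replace h0_2 : v0 ≠ v2 := h0_2
  have h2_0 : v2 ≠ v0 := h0_2.symm
  replace h0_3 : v0 ≠ v3 := h0_3
  have h3_0 : v3 ≠ v0 := h0_3.symm
  replace h0_4 : v0 ≠ v4 := h0_4
  have h4_0 : v4 ≠ v0 := h0_4.symm
  replace h0_5 : v0 ≠ v5 := h0_5
  have h5_0 : v5 ≠ v0 := h0_5.symm
  replace h0_6 : v0 ≠ v6 := h0_6
  have h6_0 : v6 ≠ v0 := h0_6.symm
  replace h0_7 : v0 ≠ v7 := h0_7
  have h7_0 : v7 ≠ v0 := h0_7.symm
  replace h0_8 : v0 ≠ v8 := h0_8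
  have h8_0 : v8 ≠ v0 := h0_8.symm
  replace h0_9 : v0 ≠ v9 := h0_9
  have h9_0 : v9 ≠ v0 := h0_9.symm
  replace h1_2 : v1 ≠ v2 := h1_2
  have h2_1 : v2 ≠ v1 := h1_2.symm
  replace h1_3 : v1 ≠ v3 := h1_3
  have h3_1 : v3 ≠ v1 := h1_3.symm
  replace h1_4 : v1 ≠ v4 := h1_4
  have h4_1 : v4 ≠ v1 := h1_4.symm
  replace h1_5 : v1 ≠ v5 := h1_5
  have h5_1 : v5 ≠ v1 := h1_5.symm
  replace h1_6 : v1 ≠ v6 := h1_6
  have h6_1 : v6 ≠ v1 := h1_6.symm
  replace h1_7 : v1 ≠ v7 := h1_7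
  have h7_1 : v7 ≠ v1 := h1_7.symm
  replace h1_8 : v1 ≠ v8 := h1_8
  have h8_1 : v8 ≠ v1 := h1_8.symm
  replace h1_9 : v1 ≠ v9 := h1_9
  have h9_1 : v9 ≠ v1 := h1_9.symm
  replace h2_3 : v2 ≠ v3 := h2_3
  have h3_2 : v3 ≠ v2 := h2_3.symm
  replace h2_4 : v2 ≠ v4 := h2_4
  have h4_2 : v4 ≠ v2 := h2_4.symm
  replace h2_5 : v2 ≠ v5 := h2_5
  have h5_2 : v5 ≠ v2 := h2_5.symm
  replace h2_6 : v2 ≠ v6 := h2_6
  have h6_2 : v6 ≠ v2 := h2_6.symm
  replace h2_7 : v2 ≠ v7 := h2_7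
  have h7_2 : v7 ≠ v2 := h2_7.symm
  replace h2_8 : v2 ≠ v8 := h2_8
  have h8_2 : v8 ≠ v2 := h2_8.symm
  replace h2_9 : v2 ≠ v9 := h2_9
  have h9_2 : v9 ≠ v2 := h2_9.symm
  replace h3_4 : v3 ≠ v4 := h3_4
  have h4_3 : v4 ≠ v3 := h3_4.symm
  replace h3_5 : v3 ≠ v5 := h3_5
  have h5_3 : v5 ≠ v3 := h3_5.symm
  replace h3_6 : v3 ≠ v6 := h3_6
  have h6_3 : v6 ≠ v3 := h3_6.symm
  replace h3_7 : v3 ≠ v7 := h3_7
  have h7_3 : v7 ≠ v3 := h3_7.symm
  replace h3_8 : v3 ≠ v8 := h3_8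
  have h8_3 : v8 ≠ v3 := h3_8.symm
  replace h3_9 : v3 ≠ v9 := h3_9
  have h9_3 : v9 ≠ v3 := h3_9.symm
  replace h4_5 : v4 ≠ v5 := h4_5
  have h5_4 : v5 ≠ v4 := h4_5.symm
  replace h4_6 : v4 ≠ v6 := h4_6
  have h6_4 : v6 ≠ v4 := h4_6.symm
  replace h4_7 : v4 ≠ v7 := h4_7
  have h7_4 : v7 ≠ v4 := h4_7.symm
  replace h4_8 : v4 ≠ v8 := h4_8
  have h8_4 : v8 ≠ v4 := h4_8.symm
  replace h4_9 : v4 ≠ v9 := h4_9
  have h9_4 : v9 ≠ v4 := h4_9.symm
  replace h5_6 : v5 ≠ v6 := h5_6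
  have h6_5 : v6 ≠ v5 := h5_6.symm
  replace h5_7 : v5 ≠ v7 := h5_7
  have h7_5 : v7 ≠ v5 := h5_7.symm
  replace h5_8 : v5 ≠ v8 := h5_8
  have h8_5 : v8 ≠ v5 := h5_8.symm
  replace h5_9 : v5 ≠ v9 := h5_9
  have h9_5 : v9 ≠ v5 := h5_9.symm
  replace h6_7 : v6 ≠ v7 := h6_7
  have h7_6 : v7 ≠ v6 := h6_7.symm
  replace h6_8 : v6 ≠ v8 := h6_8
  have h8_6 : v8 ≠ v6 := h6_8.symm
  replace h6_9 : v6 ≠ v9 := h6_9
  have h9_6 : v9 ≠ v6 := h6_9.symm
  replace h7_8 : v7 ≠ v8 := h7_8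
  have h8_7 : v8 ≠ v7 := h7_8.symm
  replace h7_9 : v7 ≠ v9 := h7_9
  have h9_7 : v9 ≠ v7 := h7_9.symm
  replace h8_9 : v8 ≠ v9 := h8_9
  have h9_8 : v9 ≠ v8 := h8_9.symm
  obtain ⟨c, hc⟩ : ∃ c : α → ℝ, c = fun t => if t = v0 then 6 else if t = v1 then 6 else if t = v2 then 12 else if t = v3 then 9 else if t = v4 then 15 else if t = v5 then 10 else if t = v6 then 15 else if t = v7 then 10 else if t = v8 then 10 else if t = v9 then 6 else 0 := ⟨_, rfl⟩
  have c0 : c v0 = 6 := by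
    rw [hc]; exact if_pos rfl
  have c1 : c v1 = 6 := by
    rw [hc]; exact (if_neg h1_0).trans (if_pos rfl)
  have c2 : c v2 = 12 := by
    rw [hc]; exact (if_neg h2_0).trans ((if_neg h2_1).trans (if_pos rfl))
  have c3 : c v3 = 9 := by
    rw [hc]; exact (if_neg h3_0).trans ((if_neg h3_1).trans ((if_neg h3_2).trans (if_pos rfl)))
  have c4 : c v4 = 15 := by
    rw [hc]; exact (if_neg h4_0).trans ((if_neg h4_1).trans ((if_neg h4_2).trans ((if_neg h4_3).trans (if_pos rfl))))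
  have c5 : c v5 = 10 := by
    rw [hc]; exact (if_neg h5_0).trans ((if_neg h5_1).trans ((if_neg h5_2).trans ((if_neg h5_3).trans ((if_neg h5_4).trans (if_pos rfl)))))
  have c6 : c v6 = 15 := by
    rw [hc]; exact (if_neg h6_0).trans ((if_neg h6_1).trans ((if_neg h6_2).trans ((if_neg h6_3).trans ((if_neg h6_4).trans ((if_neg h6_5).trans (if_pos rfl))))))
  have c7 : c v7 = 10 := by
    rw [hc]; exact (if_neg h7_0).trans ((if_neg h7_1).trans ((if_neg h7_2).trans ((if_neg h7_3).trans ((if_neg h7_4).trans ((if_neg h7_5).trans ((if_neg h7_6).trans (if_pos rfl)))))))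
  have c8 : c v8 = 10 := by
    rw [hc]; exact (if_neg h8_0).trans ((if_neg h8_1).trans ((if_neg h8_2).trans ((if_neg h8_3).trans ((if_neg h8_4).trans ((if_neg h8_5).trans ((if_neg h8_6).trans ((if_neg h8_7).trans (if_pos rfl))))))))
  have c9 : c v9 = 6 := by
    rw [hc]; exact (if_neg h9_0).trans ((if_neg h9_1).trans ((if_neg h9_2).trans ((if_neg h9_3).trans ((if_neg h9_4).trans ((if_neg h9_5).trans ((if_neg h9_6).trans ((if_neg h9_7).trans ((if_neg h9_8).trans (if_pos rfl)))))))))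
  have hsub : ∀ B ∈ ({{v0, v1, v2}, {v2, v3, v4}, {v4, v5, v6}, {v6, v7, v8}, {v7, v8, v9}} : Finset (Finset α)), B ⊆ ({v0, v1, v2, v3, v4, v5, v6, v7, v8, v9} : Finset α) := by
    intro B hB
    simp only [mem_insert, mem_singleton] at hB
    rcases hB with hB | hB | hB | hB | hB <;>
    · rw [hB]; simp only [insert_subset_iff, singleton_subset_iff, mem_insert, mem_singleton, true_or, or_true, and_self]
  have m0_1_2 : ({v0, v1, v2} : Finset α) ∈ ({{v0, v1, v2}, {v2, v3, v4}, {v4, v5, v6}, {v6, v7, v8}, {v7, v8, v9}} : Finset (Finset α)) := by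
    rw [perm_012 v0 v1 v2]; simp only [mem_insert, mem_singleton, true_or, or_true]
  have m0_2_1 : ({v0, v2, v1} : Finset α) ∈ ({{v0, v1, v2}, {v2, v3, v4}, {v4, v5, v6}, {v6, v7, v8}, {v7, v8, v9}} : Finset (Finset α)) := by
    rw [perm_021 v0 v1 v2]; simp only [mem_insert, mem_singleton, true_or, or_true]
  have m1_0_2 : ({v1, v0, v2} : Finset α) ∈ ({{v0, v1, v2}, {v2, v3, v4}, {v4, v5, v6}, {v6, v7, v8}, {v7, v8, v9}} : Finset (Finset α)) := by
    rw [perm_102 v0 v1 v2]; simp only [mem_insert, mem_singleton, true_or, or_true]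
  have m1_2_0 : ({v1, v2, v0} : Finset α) ∈ ({{v0, v1, v2}, {v2, v3, v4}, {v4, v5, v6}, {v6, v7, v8}, {v7, v8, v9}} : Finset (Finset α)) := by
    rw [perm_120 v0 v1 v2]; simp only [mem_insert, mem_singleton, true_or, or_true]
  have m2_0_1 : ({v2, v0, v1} : Finset α) ∈ ({{v0, v1, v2}, {v2, v3, v4}, {v4, v5, v6}, {v6, v7, v8}, {v7, v8, v9}} : Finset (Finset α)) := by
    rw [perm_201 v0 v1 v2]; simp only [mem_insert, mem_singleton, true_or, or_true]
  have m2_1_0 : ({v2, v1, v0} : Finset α) ∈ ({{v0, v1, v2}, {v2, v3, v4}, {v4, v5, v6}, {v6, v7, v8}, {v7, v8, v9}} : Finset (Finset α)) := by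
    rw [perm_210 v0 v1 v2]; simp only [mem_insert, mem_singleton, true_or, or_true]
  have m2_3_4 : ({v2, v3, v4} : Finset α) ∈ ({{v0, v1, v2}, {v2, v3, v4}, {v4, v5, v6}, {v6, v7, v8}, {v7, v8, v9}} : Finset (Finset α)) := by
    rw [perm_012 v2 v3 v4]; simp only [mem_insert, mem_singleton, true_or, or_true]
  have m2_4_3 : ({v2, v4, v3} : Finset α) ∈ ({{v0, v1, v2}, {v2, v3, v4}, {v4, v5, v6}, {v6, v7, v8}, {v7, v8, v9}} : Finset (Finset α)) := by
    rw [perm_021 v2 v3 v4]; simp only [mem_insert, mem_singleton, true_or, or_true]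
  have m3_2_4 : ({v3, v2, v4} : Finset α) ∈ ({{v0, v1, v2}, {v2, v3, v4}, {v4, v5, v6}, {v6, v7, v8}, {v7, v8, v9}} : Finset (Finset α)) := by
    rw [perm_102 v2 v3 v4]; simp only [mem_insert, mem_singleton, true_or, or_true]
  have m3_4_2 : ({v3, v4, v2} : Finset α) ∈ ({{v0, v1, v2}, {v2, v3, v4}, {v4, v5, v6}, {v6, v7, v8}, {v7, v8, v9}} : Finset (Finset α)) := by
    rw [perm_120 v2 v3 v4]; simp only [mem_insert, mem_singleton, true_or, or_true]
  have m4_2_3 : ({v4, v2, v3} : Finset α) ∈ ({{v0, v1, v2}, {v2, v3, v4}, {v4, v5, v6}, {v6, v7, v8}, {v7, v8, v9}} : Finset (Finset α)) := by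
    rw [perm_201 v2 v3 v4]; simp only [mem_insert, mem_singleton, true_or, or_true]
  have m4_3_2 : ({v4, v3, v2} : Finset α) ∈ ({{v0, v1, v2}, {v2, v3, v4}, {v4, v5, v6}, {v6, v7, v8}, {v7, v8, v9}} : Finset (Finset α)) := by
    rw [perm_210 v2 v3 v4]; simp only [mem_insert, mem_singleton, true_or, or_true]
  have m4_5_6 : ({v4, v5, v6} : Finset α) ∈ ({{v0, v1, v2}, {v2, v3, v4}, {v4, v5, v6}, {v6, v7, v8}, {v7, v8, v9}} : Finset (Finset α)) := by
    rw [perm_012 v4 v5 v6]; simp only [mem_insert, mem_singleton, true_or, or_true]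
  have m4_6_5 : ({v4, v6, v5} : Finset α) ∈ ({{v0, v1, v2}, {v2, v3, v4}, {v4, v5, v6}, {v6, v7, v8}, {v7, v8, v9}} : Finset (Finset α)) := by
    rw [perm_021 v4 v5 v6]; simp only [mem_insert, mem_singleton, true_or, or_true]
  have m5_4_6 : ({v5, v4, v6} : Finset α) ∈ ({{v0, v1, v2}, {v2, v3, v4}, {v4, v5, v6}, {v6, v7, v8}, {v7, v8, v9}} : Finset (Finset α)) := by
    rw [perm_102 v4 v5 v6]; simp only [mem_insert, mem_singleton, true_or, or_true]
  have m5_6_4 : ({v5, v6, v4} : Finset α) ∈ ({{v0, v1, v2}, {v2, v3, v4}, {v4, v5, v6}, {v6, v7, v8}, {v7, v8, v9}} : Finset (Finset α)) := by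
    rw [perm_120 v4 v5 v6]; simp only [mem_insert, mem_singleton, true_or, or_true]
  have m6_4_5 : ({v6, v4, v5} : Finset α) ∈ ({{v0, v1, v2}, {v2, v3, v4}, {v4, v5, v6}, {v6, v7, v8}, {v7, v8, v9}} : Finset (Finset α)) := by
    rw [perm_201 v4 v5 v6]; simp only [mem_insert, mem_singleton, true_or, or_true]
  have m6_5_4 : ({v6, v5, v4} : Finset α) ∈ ({{v0, v1, v2}, {v2, v3, v4}, {v4, v5, v6}, {v6, v7, v8}, {v7, v8, v9}} : Finset (Finset α)) := by
    rw [perm_210 v4 v5 v6]; simp only [mem_insert, mem_singleton, true_or, or_true]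
  have m6_7_8 : ({v6, v7, v8} : Finset α) ∈ ({{v0, v1, v2}, {v2, v3, v4}, {v4, v5, v6}, {v6, v7, v8}, {v7, v8, v9}} : Finset (Finset α)) := by
    rw [perm_012 v6 v7 v8]; simp only [mem_insert, mem_singleton, true_or, or_true]
  have m6_8_7 : ({v6, v8, v7} : Finset α) ∈ ({{v0, v1, v2}, {v2, v3, v4}, {v4, v5, v6}, {v6, v7, v8}, {v7, v8, v9}} : Finset (Finset α)) := by
    rw [perm_021 v6 v7 v8]; simp only [mem_insert, mem_singleton, true_or, or_true]
  have m7_6_8 : ({v7, v6, v8} : Finset α) ∈ ({{v0, v1, v2}, {v2, v3, v4}, {v4, v5, v6}, {v6, v7, v8}, {v7, v8, v9}} : Finset (Finset α)) := by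
    rw [perm_102 v6 v7 v8]; simp only [mem_insert, mem_singleton, true_or, or_true]
  have m7_8_6 : ({v7, v8, v6} : Finset α) ∈ ({{v0, v1, v2}, {v2, v3, v4}, {v4, v5, v6}, {v6, v7, v8}, {v7, v8, v9}} : Finset (Finset α)) := by
    rw [perm_120 v6 v7 v8]; simp only [mem_insert, mem_singleton, true_or, or_true]
  have m8_6_7 : ({v8, v6, v7} : Finset α) ∈ ({{v0, v1, v2}, {v2, v3, v4}, {v4, v5, v6}, {v6, v7, v8}, {v7, v8, v9}} : Finset (Finset α)) := by
    rw [perm_201 v6 v7 v8]; simp only [mem_insert, mem_singleton, true_or, or_true]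
  have m8_7_6 : ({v8, v7, v6} : Finset α) ∈ ({{v0, v1, v2}, {v2, v3, v4}, {v4, v5, v6}, {v6, v7, v8}, {v7, v8, v9}} : Finset (Finset α)) := by
    rw [perm_210 v6 v7 v8]; simp only [mem_insert, mem_singleton, true_or, or_true]
  have m7_8_9 : ({v7, v8, v9} : Finset α) ∈ ({{v0, v1, v2}, {v2, v3, v4}, {v4, v5, v6}, {v6, v7, v8}, {v7, v8, v9}} : Finset (Finset α)) := by
    rw [perm_012 v7 v8 v9]; simp only [mem_insert, mem_singleton, true_or, or_true]
  have m7_9_8 : ({v7, v9, v8} : Finset α) ∈ ({{v0, v1, v2}, {v2, v3, v4}, {v4, v5, v6}, {v6, v7, v8}, {v7, v8, v9}} : Finset (Finset α)) := by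
    rw [perm_021 v7 v8 v9]; simp only [mem_insert, mem_singleton, true_or, or_true]
  have m8_7_9 : ({v8, v7, v9} : Finset α) ∈ ({{v0, v1, v2}, {v2, v3, v4}, {v4, v5, v6}, {v6, v7, v8}, {v7, v8, v9}} : Finset (Finset α)) := by
    rw [perm_102 v7 v8 v9]; simp only [mem_insert, mem_singleton, true_or, or_true]
  have m8_9_7 : ({v8, v9, v7} : Finset α) ∈ ({{v0, v1, v2}, {v2, v3, v4}, {v4, v5, v6}, {v6, v7, v8}, {v7, v8, v9}} : Finset (Finset α)) := by
    rw [perm_120 v7 v8 v9]; simp only [mem_insert, mem_singleton, true_or, or_true]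
  have m9_7_8 : ({v9, v7, v8} : Finset α) ∈ ({{v0, v1, v2}, {v2, v3, v4}, {v4, v5, v6}, {v6, v7, v8}, {v7, v8, v9}} : Finset (Finset α)) := by
    rw [perm_201 v7 v8 v9]; simp only [mem_insert, mem_singleton, true_or, or_true]
  have m9_8_7 : ({v9, v8, v7} : Finset α) ∈ ({{v0, v1, v2}, {v2, v3, v4}, {v4, v5, v6}, {v6, v7, v8}, {v7, v8, v9}} : Finset (Finset α)) := by
    rw [perm_210 v7 v8 v9]; simp only [mem_insert, mem_singleton, true_or, or_true]
  have hp : ∃ x ∈ ({v0, v1, v2, v3, v4, v5, v6, v7, v8, v9} : Finset α), 0 < c x := ⟨v0, by simp, by rw [c0]; norm_num⟩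
  have hGF : ({{v0, v1, v2}, {v2, v3, v4}, {v4, v5, v6}, {v6, v7, v8}, {v7, v8, v9}} : Finset (Finset α)) ⊆ F := by
    intro B hB
    simp only [mem_insert, mem_singleton] at hB
    rcases hB with hB | hB | hB | hB | hB <;>
    · rw [hB]; assumption
  have hc0 : ∀ t, 0 ≤ c t := by
    intro t
    rw [hc]; exact nn_ite (by norm_num) (nn_ite (by norm_num) (nn_ite (by norm_num) (nn_ite (by norm_num) (nn_ite (by norm_num) (nn_ite (by norm_num) (nn_ite (by norm_num) (nn_ite (by norm_num) (nn_ite (by norm_num) (nn_ite (by norm_num) (le_rfl))))))))))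
  apply fc_of_loc hF hsub hGF hc0 hp
  · intro x hx
    simp only [mem_insert, mem_singleton] at hx
    rcases hx with hx | hx | hx | hx | hx | hx | hx | hx | hx | hx
    · rw [hx]
      exact locOK1 hsub m0_1_2 h1_0 h2_0 h1_2 (by simp only [c0, c1, c2, c3, c4, c5, c6, c7, c8, c9]; norm_num) (by simp only [c0, c1, c2, c3, c4, c5, c6, c7, c8, c9]; norm_num) (by simp only [c0, c1, c2, c3, c4, c5, c6, c7, c8, c9]; norm_num) (by simp only [c0, c1, c2, c3, c4, c5, c6, c7, c8, c9]; norm_num)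
    · rw [hx]
      exact locOK1 hsub m1_0_2 h0_1 h2_1 h0_2 (by simp only [c0, c1, c2, c3, c4, c5, c6, c7, c8, c9]; norm_num) (by simp only [c0, c1, c2, c3, c4, c5, c6, c7, c8, c9]; norm_num) (by simp only [c0, c1, c2, c3, c4, c5, c6, c7, c8, c9]; norm_num) (by simp only [c0, c1, c2, c3, c4, c5, c6, c7, c8, c9]; norm_num)
    · rw [hx]
      exact locOK2 hsub m2_0_1 m2_3_4 h0_2 h1_2 h0_1 h3_2 h4_2 h3_4
        h0_3 h0_4 h1_3 h1_4 (r := 4) (r' := 8) (by simp only [c0, c1, c2, c3, c4, c5, c6, c7, c8, c9]; norm_num) (by simp only [c0, c1, c2, c3, c4, c5, c6, c7, c8, c9]; norm_num) (by simp only [c0, c1, c2, c3, c4, c5, c6, c7, c8, c9]; norm_num) (by norm_num) (by simp only [c0, c1, c2, c3, c4, c5, c6, c7, c8, c9]; norm_num) (by simp only [c0, c1, c2, c3, c4, c5, c6, c7, c8, c9]; norm_num) (by simp only [c0, c1, c2, c3, c4, c5, c6, c7, c8, c9]; norm_num) (by norm_num) (by simp only [c0, c1, c2, c3, c4, c5, c6,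 c7, c8, c9]; norm_num)
    · rw [hx]
      exact locOK1 hsub m3_2_4 h2_3 h4_3 h2_4 (by simp only [c0, c1, c2, c3, c4, c5, c6, c7, c8, c9]; norm_num) (by simp only [c0, c1, c2, c3, c4, c5, c6, c7, c8, c9]; norm_num) (by simp only [c0, c1, c2, c3, c4, c5, c6, c7, c8, c9]; norm_num) (by simp only [c0, c1, c2, c3, c4, c5, c6, c7, c8, c9]; norm_num)
    · rw [hx]
      exact locOK2 hsub m4_2_3 m4_5_6 h2_4 h3_4 h2_3 h5_4 h6_4 h5_6
        h2_5 h2_6 h3_5 h3_6 (r := 7) (r' := (25 / 3)) (by simp only [c0, c1, c2, c3, c4, c5, c6, c7, c8, c9]; norm_num) (by simp only [c0, c1, c2, c3, c4, c5, c6, c7, c8, c9]; norm_num) (by simp only [c0, c1, c2, c3, c4, c5, c6, c7, c8, c9]; norm_num) (by norm_num) (by simp only [c0, c1, c2, c3, c4, c5, c6, c7, c8, c9]; norm_num) (by simp only [c0, c1, c2, c3, c4, c5, c6, c7, c8, c9]; norm_num) (by simp only [c0, c1, c2, c3, c4, c5, c6, c7, c8, c9]; norm_num) (by norm_num) (by simp only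 [c0, c1, c2, c3, c4, c5, c6, c7, c8, c9]; norm_num)
    · rw [hx]
      exact locOK1 hsub m5_4_6 h4_5 h6_5 h4_6 (by simp only [c0, c1, c2, c3, c4, c5, c6, c7, c8, c9]; norm_num) (by simp only [c0, c1, c2, c3, c4, c5, c6, c7, c8, c9]; norm_num) (by simp only [c0, c1, c2, c3, c4, c5, c6, c7, c8, c9]; norm_num) (by simp only [c0, c1, c2, c3, c4, c5, c6, c7, c8, c9]; norm_num)
    · rw [hx]
      exact locOK2 hsub m6_4_5 m6_7_8 h4_6 h5_6 h4_5 h7_6 h8_6 h7_8
        h4_7 h4_8 h5_7 h5_8 (r := (25 / 3)) (r' := (20 / 3)) (by simp only [c0, c1, c2, c3, c4, c5, c6, c7, c8, c9]; norm_num) (by simp only [c0, c1, c2, c3, c4, c5, c6, c7, c8, c9]; norm_num) (by simp only [c0, c1, c2, c3, c4, c5, c6, c7, c8, c9]; norm_num) (by norm_num) (by simp only [c0, c1, c2, c3, c4, c5, c6, c7, c8, c9]; norm_num) (by simp only [c0, c1, c2, c3, c4, c5, c6, c7, c8, c9]; norm_num) (by simp only [c0, c1, c2, c3, c4, c5, c6, c7, c8, c9];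 norm_num) (by norm_num) (by simp only [c0, c1, c2, c3, c4, c5, c6, c7, c8, c9]; norm_num)
    · rw [hx]
      exact locOKstar hsub m7_8_6 m7_8_9 h8_7 h6_7 h9_7 h8_6 h8_9 h6_9
        (by simp only [c0, c1, c2, c3, c4, c5, c6, c7, c8, c9]; norm_num) (by simp only [c0, c1, c2, c3, c4, c5, c6, c7, c8, c9]; norm_num) (by simp only [c0, c1, c2, c3, c4, c5, c6, c7, c8, c9]; norm_num) (by simp only [c0, c1, c2, c3, c4, c5, c6, c7, c8, c9]; norm_num) (by simp only [c0, c1, c2, c3, c4, c5, c6, c7, c8, c9]; norm_num) (by simp only [c0, c1, c2, c3, c4, c5, c6, c7, c8, c9]; norm_num) (by simp only [c0, c1, c2, c3, c4, c5, c6, c7, c8, c9]; norm_num) (by simp only [c0, c1, c2, c3, c4, c5, c6, c7, c8, c9]; norm_num) (by simp only [c0, c1, c2, c3, c4, c5, c6, c7, c8, c9]; norm_num)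
    · rw [hx]
      exact locOKstar hsub m8_7_6 m8_7_9 h7_8 h6_8 h9_8 h7_6 h7_9 h6_9
        (by simp only [c0, c1, c2, c3, c4, c5, c6, c7, c8, c9]; norm_num) (by simp only [c0, c1, c2, c3, c4, c5, c6, c7, c8, c9]; norm_num) (by simp only [c0, c1, c2, c3, c4, c5, c6, c7, c8, c9]; norm_num) (by simp only [c0, c1, c2, c3, c4, c5, c6, c7, c8, c9]; norm_num) (by simp only [c0, c1, c2, c3, c4, c5, c6, c7, c8, c9]; norm_num) (by simp only [c0, c1, c2, c3, c4, c5, c6, c7, c8, c9]; norm_num) (by simp only [c0, c1, c2, c3, c4, c5, c6, c7, c8, c9]; norm_num) (by simp only [c0, c1, c2, c3, c4, c5, c6, c7, c8, c9]; norm_num) (by simp only [c0, c1, c2, c3, c4, c5, c6, c7, c8, c9]; norm_num)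
    · rw [hx]
      exact locOK1 hsub m9_7_8 h7_9 h8_9 h7_8 (by simp only [c0, c1, c2, c3, c4, c5, c6, c7, c8, c9]; norm_num) (by simp only [c0, c1, c2, c3, c4, c5, c6, c7, c8, c9]; norm_num) (by simp only [c0, c1, c2, c3, c4, c5, c6, c7, c8, c9]; norm_num) (by simp only [c0, c1, c2, c3, c4, c5, c6, c7, c8, c9]; norm_num)

end Pool.Agent.H61.FC
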