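import Pool.Agent.H61.Rich

set_option autoImplicit false
set_option linter.all false

/-!
# Removing parts, and the number of members
-/

namespace Pool.Agent.H61.FC

open Finset

variable {α : Type*} [DecidableEq α] {G : Finset (Finset α)} {W : Finset α} {k M : ℕ}

theorem cover_of_not_rich (hG : ∀ B ∈ G, B.card = k) {A : Finset α} (hA : A.card < k)
    (h : ¬ Rich G W M A) :
    ∃ U : Finset α, U.card ≤ M * k ∧ Disjoint U A ∧ ∀ B ∈ G, A ⊆ B → B ⊆ W → ∃ u ∈ U, u ∈ B := by
  classical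
  set 𝓟 : Finset (Finset (Finset α)) := W.powerset.powerset.filter (fun 𝓜 =>
    (∀ E ∈ 𝓜, Disjoint A E ∧ A ∪ E ∈ G ∧ A ∪ E ⊆ W) ∧
    ∀ E ∈ 𝓜, ∀ E' ∈ 𝓜, E ≠ E' → Disjoint E E') with h𝓟
  have hne : 𝓟.Nonempty := ⟨∅, by rw [h𝓟, mem_filter]; simp⟩
  obtain ⟨𝓜, h𝓜, hmax⟩ := exists_max_image 𝓟 (fun 𝓜 => 𝓜.card) hne
  rw [h𝓟, mem_filter] at h𝓜
  obtain ⟨hp, hE, hdis⟩ := h𝓜
  have hcard : 𝓜.card ≤ M := by
    by_contra hcon
    exact h ⟨𝓜, by omega, hE, hdis⟩
  refine ⟨𝓜.biUnion id, ?_, ?_, ?_⟩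
  · refine card_biUnion_le.trans ?_
    have h1 : ∀ E ∈ 𝓜, (id E).card ≤ k := by
      intro E hE'
      rw [← hG _ (hE E hE').2.1]
      exact card_le_card subset_union_right
    refine (sum_le_card_nsmul _ _ _ h1).trans ?_
    rw [smul_eq_mul]
    exact Nat.mul_le_mul_right _ hcard
  · rw [disjoint_biUnion_left]
    intro E hE'
    exact (hE E hE').1.symm
  · intro B hB hAB hBW
    by_contra hcon
    push Not at hcon
    have hdisj : ∀ E ∈ 𝓜, Disjoint (B \ A) E := by
      intro E hE'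
      rw [disjoint_left]
      intro t ht htE
      exact hcon t (mem_biUnion.2 ⟨E, hE', htE⟩) (mem_sdiff.1 ht).1
    have hnonempty : (B \ A).Nonempty := by
      rw [← card_pos, card_sdiff_of_subset hAB, hG B hB]; omega
    have hnot : B \ A ∉ 𝓜 := by
      intro hmem
      have := hdisj _ hmem
      rw [disjoint_self] at this
      exact hnonempty.ne_empty this
    have hmem : insert (B \ A) 𝓜 ∈ 𝓟 := by
      rw [h𝓟, mem_filter]
      refine ⟨?_, ?_, ?_⟩
      · rw [mem_powerset] at hp ⊢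
        refine insert_subset (mem_powerset.2 (sdiff_subset.trans hBW)) hp
      · intro E hE'
        rcases mem_insert.1 hE' with rfl | hE'
        · rw [union_sdiff_of_subset hAB]
          exact ⟨disjoint_sdiff, hB, hBW⟩
        · exact hE E hE'
      · intro E hE1 E' hE2 hne'
        rcases mem_insert.1 hE1 with rfl | hE1
        · rcases mem_insert.1 hE2 with rfl | hE2
          · exact absurd rfl hne'
          · exact hdisj E' hE2
        · rcases mem_insert.1 hE2 with rfl | hE2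
          · exact (hdisj E hE1).symm
          · exact hdis E hE1 E' hE2 hne'
    have := hmax _ hmem
    rw [card_insert_of_notMem hnot] at this
    omega

theorem deg_step (hG : ∀ B ∈ G, B.card = k) {A : Finset α} (hA : A.card < k)
    (h : ¬ Rich G W M A) {𝒢 : Finset (Finset α)} (h𝒢 : ∀ B ∈ 𝒢, B ∈ G ∧ B ⊆ W) {t : ℕ}
    (ht : ∀ u ∈ W, u ∉ A → (𝒢.filter (fun B => insert u A ⊆ B)).card ≤ t) :
    (𝒢.filter (fun B => A ⊆ B)).card ≤ M * k * t := by
  obtain ⟨U, hU, hUA, hcov⟩ := cover_of_not_rich hG hA h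
  have h1 : 𝒢.filter (fun B => A ⊆ B) ⊆ U.biUnion (fun u => 𝒢.filter (fun B => insert u A ⊆ B)) := by
    intro B hB
    rw [mem_filter] at hB
    obtain ⟨u, hu, huB⟩ := hcov B (h𝒢 B hB.1).1 hB.2 (h𝒢 B hB.1).2
    exact mem_biUnion.2 ⟨u, hu, mem_filter.2 ⟨hB.1, insert_subset huB hB.2⟩⟩
  refine (card_le_card h1).trans ((card_biUnion_le_card_mul _ _ t ?_).trans
    (Nat.mul_le_mul_right _ hU))
  intro u hu
  have huA : u ∉ A := disjoint_left.1 hUA hu
  by_cases huW : u ∈ W
  · exact ht u huW huA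
  · rw [filter_false_of_mem]
    · simp
    · intro B hB hs
      exact huW ((h𝒢 B hB).2 (hs (mem_insert_self _ _)))

theorem deg_top (hG : ∀ B ∈ G, B.card = k) {A : Finset α} (hAW : A ⊆ W)
    {𝒢 : Finset (Finset α)} (h𝒢 : ∀ B ∈ 𝒢, B ∈ G ∧ B ⊆ W) :
    (𝒢.filter (fun B => A ⊆ B)).card ≤ (W.card - A.card).choose (k - A.card) := by
  rw [← card_sdiff_of_subset hAW, ← card_powersetCard]
  refine card_le_card_of_injOn (fun B => B \ A) ?_ ?_
  · intro B hB
    have hB' := mem_filter.1 (Finset.mem_coe.1 hB)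
    refine Finset.mem_coe.2 (mem_powersetCard.2 ⟨sdiff_subset_sdiff (h𝒢 B hB'.1).2 Subset.rfl, ?_⟩)
    rw [card_sdiff_of_subset hB'.2, hG B (h𝒢 B hB'.1).1]
  · intro B hB B' hB' hBB
    have h1 := (mem_filter.1 (Finset.mem_coe.1 hB)).2
    have h2 := (mem_filter.1 (Finset.mem_coe.1 hB')).2
    have h3 : B \ A = B' \ A := hBB
    rw [← sdiff_union_of_subset h1, ← sdiff_union_of_subset h2, h3]

theorem choose_le_pow' (n m : ℕ) : n.choose m ≤ n ^ m := by
  rcases m.eq_zero_or_pos with rfl | h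
  · simp
  · exact Nat.choose_le_pow n m

/-- members through a nonroot which contain no rich triple through it -/
theorem deg_nonroot (hk : 4 ≤ k) (hG : ∀ B ∈ G, B.card = k) {x : α} (hx : x ∈ W)
    (hR : ¬ RR G W k x) :
    (G.filter (fun B => B ⊆ W ∧ x ∈ B ∧ ∀ T ∈ HH G W k, x ∈ T → ¬ T ⊆ B)).card ≤
      (MM k * k) ^ 3 * W.card ^ (k - 4) := by
  set 𝒢 := G.filter (fun B => B ⊆ W ∧ x ∈ B ∧ ∀ T ∈ HH G W k, x ∈ T → ¬ T ⊆ B) with h𝒢
  have hsub : ∀ B ∈ 𝒢, B ∈ G ∧ B ⊆ W := fun B hB => ⟨(mem_filter.1 hB).1, (mem_filter.1 hB).2.1⟩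
  have h3 : ∀ A : Finset α, A ⊆ W → A.card = 3 → x ∈ A →
      (𝒢.filter (fun B => A ⊆ B)).card ≤ MM k * k * W.card ^ (k - 4) := by
    intro A hAW hA3 hxA
    by_cases hr : Rich G W (MM k) A
    · have : 𝒢.filter (fun B => A ⊆ B) = ∅ := by
        rw [filter_eq_empty_iff]
        intro B hB hs
        exact (mem_filter.1 hB).2.2.2 A (mem_HH.2 ⟨⟨hAW, hA3⟩, hr⟩) hxA hs
      rw [this]; simp
    · refine deg_step hG (by omega) hr hsub ?_
      intro u hu huA
      refine (deg_top hG (insert_subset hu hAW) hsub).trans ?_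
      rw [card_insert_of_notMem huA, hA3]
      refine (choose_le_pow' _ _).trans ?_
      exact Nat.pow_le_pow_left (by omega) _
  have h2 : ∀ A : Finset α, A ⊆ W → A.card = 2 → x ∈ A →
      (𝒢.filter (fun B => A ⊆ B)).card ≤ MM k * k * (MM k * k * W.card ^ (k - 4)) := by
    intro A hAW hA2 hxA
    have hr : ¬ Rich G W (MM k) A := by
      intro hr
      apply hR
      right
      obtain ⟨y, z, hyz, he⟩ := card_eq_two.1 hA2
      rw [he] at hxA hr
      simp only [mem_insert, mem_singleton] at hxA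
      rcases hxA with rfl | rfl
      · exact ⟨z, hyz.symm, hr⟩
      · exact ⟨y, hyz, by rwa [pair_comm] at hr⟩
    refine deg_step hG (by omega) hr hsub ?_
    intro u hu huA
    exact h3 _ (insert_subset hu hAW) (by rw [card_insert_of_notMem huA, hA2])
      (mem_insert_of_mem hxA)
  have h1 : (𝒢.filter (fun B => ({x} : Finset α) ⊆ B)).card ≤
      MM k * k * (MM k * k * (MM k * k * W.card ^ (k - 4))) := by
    have hr : ¬ Rich G W (MM k) {x} := fun hr => hR (Or.inl hr)
    refine deg_step hG (by simp; omega) hr hsub ?_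
    intro u hu huA
    refine h2 _ (insert_subset hu (singleton_subset_iff.2 hx)) ?_ (by simp)
    rw [card_insert_of_notMem huA, card_singleton]
  have h0 : 𝒢.filter (fun B => ({x} : Finset α) ⊆ B) = 𝒢 := by
    rw [filter_true_of_mem]
    intro B hB
    exact singleton_subset_iff.2 (mem_filter.1 hB).2.2.1
  rw [h0] at h1
  refine h1.trans (le_of_eq ?_)
  ring

/-- the number of the members inside `W` -/
def ins (G : Finset (Finset α)) (W : Finset α) : ℕ := (G.filter (fun B => B ⊆ W)).card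

theorem elim_step (hk : 4 ≤ k) (hG : ∀ B ∈ G, B.card = k) {S : Finset α} (hSW : S ⊆ W)
    {𝓣 : Finset (Finset α)} (h𝓣 : 𝓣 ⊆ HH G W k) (hR : ∀ s ∈ S, ¬ RR G W k s)
    (hS : ∀ s ∈ S, ∀ T ∈ HH G W k, s ∈ T → T ∈ 𝓣) :
    ins G W ≤ ins G (W \ S) + 𝓣.card * (W.card - 3).choose (k - 3) +
      S.card * ((MM k * k) ^ 3 * W.card ^ (k - 4)) := by
  have h1 : G.filter (fun B => B ⊆ W) ⊆ (G.filter (fun B => B ⊆ W \ S)) ∪
      (𝓣.biUnion (fun T => (G.filter (fun B => B ⊆ W)).filter (fun B => T ⊆ B))) ∪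
      (S.biUnion (fun x => G.filter (fun B => B ⊆ W ∧ x ∈ B ∧
        ∀ T ∈ HH G W k, x ∈ T → ¬ T ⊆ B))) := by
    intro B hB
    have hB' := mem_filter.1 hB
    by_cases h : ∃ s ∈ S, s ∈ B
    · obtain ⟨s, hs, hsB⟩ := h
      by_cases h2 : ∃ T ∈ 𝓣, T ⊆ B
      · obtain ⟨T, hT, hTB⟩ := h2
        exact mem_union_left _ (mem_union_right _ (mem_biUnion.2 ⟨T, hT, mem_filter.2 ⟨hB, hTB⟩⟩))
      · push Not at h2
        refine mem_union_right _ (mem_biUnion.2 ⟨s, hs, mem_filter.2 ⟨hB'.1, hB'.2, hsB, ?_⟩⟩)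
        intro T hT hsT
        exact h2 T (hS s hs T hT hsT)
    · push Not at h
      refine mem_union_left _ (mem_union_left _ (mem_filter.2 ⟨hB'.1, ?_⟩))
      intro t ht
      exact mem_sdiff.2 ⟨hB'.2 ht, fun hs => h t hs ht⟩
  refine (card_le_card h1).trans ((card_union_le _ _).trans ?_)
  refine Nat.add_le_add ((card_union_le _ _).trans (Nat.add_le_add_left ?_ _)) ?_
  · refine card_biUnion_le_card_mul _ _ _ ?_
    intro T hT
    obtain ⟨⟨hTW, hT3⟩, _⟩ := mem_HH.1 (h𝓣 hT)
    have := deg_top hG hTW (𝒢 := G.filter (fun B => B ⊆ W))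
      (fun B hB => ⟨(mem_filter.1 hB).1, (mem_filter.1 hB).2⟩)
    rwa [hT3] at this
  · refine card_biUnion_le_card_mul _ _ _ ?_
    intro s hs
    exact deg_nonroot hk hG (hSW hs) (hR s hs)

theorem not_stuck {H : Finset (Finset α)} {R : α → Prop} (hsub : ∀ T ∈ H, T ⊆ W)
    (hcard : ∀ T ∈ H, T.card = 3) (h : ¬ Stuck W H R) :
    ∃ S ⊆ W, ∃ 𝓣 ⊆ H, (∀ s ∈ S, ¬ R s) ∧ (∀ s ∈ S, ∀ T ∈ H, s ∈ T → T ∈ 𝓣) ∧
      ((S.card = 1 ∧ 𝓣.card = 0) ∨ (S.card = 2 ∧ 𝓣.card = 1) ∨ (S.card = 4 ∧ 𝓣.card = 2)) := by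
  by_cases h1 : ∀ v ∈ W, ¬ R v → ∃ T ∈ H, v ∈ T
  swap
  · push Not at h1
    obtain ⟨v, hv, hR, hno⟩ := h1
    refine ⟨{v}, by simpa using hv, ∅, by simp, by simpa using hR, ?_, by simp⟩
    intro s hs T hT hsT
    rw [mem_singleton] at hs
    rw [hs] at hsT
    exact absurd hsT (hno T hT)
  have honly : ∀ {u : α} {T : Finset α}, Priv H R u → T ∈ H → u ∈ T → ∀ T' ∈ H, u ∈ T' → T' = T := by
    intro u T hp hT huT T' hT' hu'
    by_contra hne
    exact hp.2 ⟨T', hT', T, hT, hne, hu', huT⟩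
  by_cases h2 : ∀ T ∈ H, ∀ u ∈ T, ∀ v ∈ T, u ≠ v → ¬ (Priv H R u ∧ Priv H R v)
  swap
  · push Not at h2
    obtain ⟨T, hT, u, hu, v, hv, huv, hpu, hpv⟩ := h2
    refine ⟨{u, v}, ?_, {T}, by simpa using hT, ?_, ?_, Or.inr (Or.inl ⟨card_pair huv, by simp⟩)⟩
    · intro t ht
      simp only [mem_insert, mem_singleton] at ht
      rcases ht with rfl | rfl
      · exact hsub T hT hu
      · exact hsub T hT hv
    · intro s hs
      simp only [mem_insert, mem_singleton] at hs
      rcases hs with rfl | rfl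
      · exact hpu.1
      · exact hpv.1
    · intro s hs T' hT' hsT'
      simp only [mem_insert, mem_singleton] at hs
      rw [mem_singleton]
      rcases hs with rfl | rfl
      · exact honly hpu hT hu T' hT' hsT'
      · exact honly hpv hT hv T' hT' hsT'
  have h3 : ¬ ∀ v w u u', v ≠ w → u ≠ u' → ({v, w, u} : Finset α) ∈ H →
      ({v, w, u'} : Finset α) ∈ H → ¬ St H R v → ¬ St H R w → Priv H R u → Priv H R u' → False := by
    intro h3
    exact h ⟨hsub, hcard, h1, h2, h3⟩
  push Not at h3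
  obtain ⟨v, w, u, u', hvw, huu, hT, hT', hv, hw, hu, hu', _⟩ := h3
  have c1 := hcard _ hT
  have c2 := hcard _ hT'
  have huv : u ≠ v := by
    rintro rfl
    have : ({u, w, u} : Finset α) = {u, w} := by
      ext t; simp only [mem_insert, mem_singleton]; tauto
    rw [this] at c1
    have := card_le_two (a := u) (b := w)
    omega
  have huw : u ≠ w := by
    rintro rfl
    have : ({v, u, u} : Finset α) = {v, u} := by
      ext t; simp only [mem_insert, mem_singleton]; tauto
    rw [this] at c1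
    have := card_le_two (a := v) (b := u)
    omega
  have huv' : u' ≠ v := by
    rintro rfl
    have : ({u', w, u'} : Finset α) = {u', w} := by
      ext t; simp only [mem_insert, mem_singleton]; tauto
    rw [this] at c2
    have := card_le_two (a := u') (b := w)
    omega
  have huw' : u' ≠ w := by
    rintro rfl
    have : ({v, u', u'} : Finset α) = {v, u'} := by
      ext t; simp only [mem_insert, mem_singleton]; tauto
    rw [this] at c2
    have := card_le_two (a := v) (b := u')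
    omega
  have hne : ({v, w, u} : Finset α) ≠ {v, w, u'} := by
    intro he
    have : u ∈ ({v, w, u'} : Finset α) := by rw [← he]; simp
    simp only [mem_insert, mem_singleton] at this
    tauto
  refine ⟨{v, w, u, u'}, ?_, {{v, w, u}, {v, w, u'}}, ?_, ?_, ?_, Or.inr (Or.inr ⟨?_, ?_⟩)⟩
  · intro t ht
    have g1 := hsub _ hT
    have g2 := hsub _ hT'
    simp only [insert_subset_iff, singleton_subset_iff, mem_insert, mem_singleton] at g1 g2 ht
    rcases ht with rfl | rfl | rfl | rfl <;> tauto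
  · intro t ht
    simp only [mem_insert, mem_singleton] at ht
    rcases ht with rfl | rfl <;> assumption
  · intro s hs
    simp only [mem_insert, mem_singleton] at hs
    rcases hs with rfl | rfl | rfl | rfl
    · exact fun h => hv (Or.inl h)
    · exact fun h => hw (Or.inl h)
    · exact hu.1
    · exact hu'.1
  · intro s hs T'' hT'' hsT
    simp only [mem_insert, mem_singleton] at hs ⊢
    rcases hs with rfl | rfl | rfl | rfl
    · exact two_of_notSt hv hT hT' hne (by simp) (by simp) hT'' hsT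
    · exact two_of_notSt hw hT hT' hne (by simp) (by simp) hT'' hsT
    · left; exact honly hu hT (by simp) T'' hT'' hsT
    · right; exact honly hu' hT' (by simp) T'' hT'' hsT
  · rw [card_insert_of_notMem (by simp [hvw, huv.symm, huv'.symm]),
      card_insert_of_notMem (by simp [huw.symm, huw'.symm]), card_pair huu]
  · exact card_pair hne

/-- the upper bound, `k ≥ 4` -/
theorem upper4 (hk : 4 ≤ k) (hG : ∀ B ∈ G, B.card = k) {F : Finset (Finset α)}
    (hF : ∀ A ∈ F, ∀ B ∈ F, A ∪ B ∈ F) (hGF : G ⊆ F) (n : ℕ) (m : ℕ) :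
    ∀ W : Finset α, W.card = m → W.card ≤ n →
      (∀ x ∈ W, ¬ F.card ≤ 2 * (F.filter (fun A => x ∈ A)).card) →
      2 * ins G W ≤ W.card.choose (k - 2) + (2 * (MM k * k) ^ 3 + 1) * n ^ (k - 4) * W.card := by
  induction m using Nat.strong_induction_on with
  | _ m ih =>
  intro W hWm hWn hno
  rcases W.eq_empty_or_nonempty with rfl | hne
  · have : ins G ∅ = 0 := by
      unfold ins
      rw [card_eq_zero, filter_eq_empty_iff]
      intro B hB hs
      rw [subset_empty] at hs
      have := hG B hB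
      rw [hs, card_empty] at this
      omega
    rw [this]; simp
  have hstuck : ¬ Stuck W (HH G W k) (RR G W k) := by
    intro hS
    obtain ⟨x, hx, h⟩ := stuck_fc hG hF hGF hne hS
    exact hno x hx h
  obtain ⟨S, hSW, 𝓣, h𝓣, hR, hST, hcard⟩ := not_stuck (fun T hT => (mem_HH.1 hT).1.1)
    (fun T hT => (mem_HH.1 hT).1.2) hstuck
  have h1 := elim_step hk hG hSW h𝓣 hR hST
  have hSc : S.card ≤ W.card := card_le_card hSW
  have hc : (W \ S).card = W.card - S.card := card_sdiff_of_subset hSW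
  have hpos : 0 < W.card := hne.card_pos
  have hlt : (W \ S).card < m := by
    rw [hc]
    rcases hcard with h | h | h <;> omega
  have h2 := ih _ hlt (W \ S) rfl (by rw [hc]; omega) (fun x hx => hno x (sdiff_subset hx))
  rw [hc] at h2
  have hpow : W.card ^ (k - 4) ≤ n ^ (k - 4) := Nat.pow_le_pow_left hWn _
  set K0 := (MM k * k) ^ 3 with hK0
  set P := n ^ (k - 4) with hP
  have hK0P : K0 * W.card ^ (k - 4) ≤ K0 * P := Nat.mul_le_mul_left _ hpow
  obtain ⟨j, rfl⟩ : ∃ j, k = j + 4 := ⟨k - 4, by omega⟩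
  have e1 : j + 4 - 2 = j + 2 := by omega
  have e2 : j + 4 - 3 = j + 1 := by omega
  have e3 : j + 4 - 4 = j := by omega
  rw [e1] at h2 ⊢
  rw [e2] at h1
  rcases hcard with ⟨hS1, hT1⟩ | ⟨hS1, hT1⟩ | ⟨hS1, hT1⟩
  · rw [hS1, hT1] at h1
    rw [hS1] at h2
    obtain ⟨w, hw⟩ : ∃ w, W.card = w + 1 := ⟨W.card - 1, by omega⟩
    rw [hw] at h1 h2 hK0P ⊢
    have e4 : w + 1 - 1 = w := by omega
    rw [e4] at h2
    have h3 : w.choose (j + 2) ≤ (w + 1).choose (j + 2) := Nat.choose_le_choose _ (by omega)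
    nlinarith
  · rw [hS1, hT1] at h1
    rw [hS1] at h2
    obtain ⟨w, hw⟩ : ∃ w, W.card = w + 2 := ⟨W.card - 2, by omega⟩
    rw [hw] at h1 h2 hK0P ⊢
    have e4 : w + 2 - 2 = w := by omega
    rw [e4] at h2
    have h3 : (w + 2).choose (j + 2) = (w + 1).choose (j + 1) + (w.choose (j + 1) + w.choose (j + 2)) := by
      rw [Nat.choose_succ_succ' (w + 1) (j + 1), Nat.choose_succ_succ' w (j + 1)]
    have h4 : (w + 2 - 3).choose (j + 1) ≤ w.choose (j + 1) := Nat.choose_le_choose _ (by omega)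
    have h5 : w.choose (j + 1) ≤ (w + 1).choose (j + 1) := Nat.choose_le_choose _ (by omega)
    nlinarith
  · rw [hS1, hT1] at h1
    rw [hS1] at h2
    obtain ⟨w, hw⟩ : ∃ w, W.card = w + 4 := ⟨W.card - 4, by omega⟩
    rw [hw] at h1 h2 hK0P hWn ⊢
    have e4 : w + 4 - 4 = w := by omega
    have e5 : w + 4 - 3 = w + 1 := by omega
    rw [e4] at h2
    rw [e5] at h1
    have h3 : (w + 4).choose (j + 2) = (w + 3).choose (j + 1) + ((w + 2).choose (j + 1) +
        ((w + 1).choose (j + 1) + (w.choose (j + 1) + w.choose (j + 2)))) := by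
      rw [Nat.choose_succ_succ' (w + 3) (j + 1), Nat.choose_succ_succ' (w + 2) (j + 1),
        Nat.choose_succ_succ' (w + 1) (j + 1), Nat.choose_succ_succ' w (j + 1)]
    have h4 : (w + 1).choose (j + 1) = w.choose j + w.choose (j + 1) := Nat.choose_succ_succ' _ _
    have h5 : (w + 1).choose (j + 1) ≤ (w + 2).choose (j + 1) := Nat.choose_le_choose _ (by omega)
    have h6 : (w + 2).choose (j + 1) ≤ (w + 3).choose (j + 1) := Nat.choose_le_choose _ (by omega)
    have h7 : w.choose j ≤ P := by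
      refine (choose_le_pow' _ _).trans ?_
      rw [hP, e3]
      exact Nat.pow_le_pow_left (by omega) _
    nlinarith

/-- the upper bound for triples -/
theorem upper3 (hG : ∀ B ∈ G, B.card = 3) {F : Finset (Finset α)}
    (hF : ∀ A ∈ F, ∀ B ∈ F, A ∪ B ∈ F) (hGF : G ⊆ F) (m : ℕ) :
    ∀ W : Finset α, W.card = m →
      (∀ x ∈ W, ¬ F.card ≤ 2 * (F.filter (fun A => x ∈ A)).card) →
      2 * ins G W ≤ W.card := by
  induction m using Nat.strong_induction_on with
  | _ m ih =>
  intro W hWm hno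
  rcases W.eq_empty_or_nonempty with rfl | hne
  · have : ins G ∅ = 0 := by
      unfold ins
      rw [card_eq_zero, filter_eq_empty_iff]
      intro B hB hs
      rw [subset_empty] at hs
      have := hG B hB
      rw [hs, card_empty] at this
      omega
    rw [this]; simp
  set H := G.filter (fun B => B ⊆ W) with hH
  have hstuck : ¬ Stuck W H (fun _ => False) := by
    intro hS
    obtain ⟨x, hx, h⟩ := stuck_fc3 hF ((filter_subset _ _).trans hGF) hne hS
    exact hno x hx h
  obtain ⟨S, hSW, 𝓣, h𝓣, hR, hST, hcard⟩ := not_stuck (fun T hT => (mem_filter.1 hT).2)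
    (fun T hT => hG T (mem_filter.1 hT).1) hstuck
  have h1 : ins G W ≤ ins G (W \ S) + 𝓣.card := by
    have h2 : H ⊆ G.filter (fun B => B ⊆ W \ S) ∪ 𝓣 := by
      intro B hB
      have hB' := mem_filter.1 hB
      by_cases h : ∃ s ∈ S, s ∈ B
      · obtain ⟨s, hs, hsB⟩ := h
        exact mem_union_right _ (hST s hs B hB hsB)
      · push Not at h
        refine mem_union_left _ (mem_filter.2 ⟨hB'.1, ?_⟩)
        intro t ht
        exact mem_sdiff.2 ⟨hB'.2 ht, fun hs => h t hs ht⟩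
    exact (card_le_card h2).trans (card_union_le _ _)
  have hSc : S.card ≤ W.card := card_le_card hSW
  have hc : (W \ S).card = W.card - S.card := card_sdiff_of_subset hSW
  have hpos : 0 < W.card := hne.card_pos
  have hlt : (W \ S).card < m := by
    rw [hc]
    rcases hcard with h | h | h <;> omega
  have h2 := ih _ hlt (W \ S) rfl (fun x hx => hno x (sdiff_subset hx))
  rw [hc] at h2
  rcases hcard with h | h | h <;> omega

end Pool.Agent.H61.FC
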