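import Pool.Agent.H61.Glue
import Pool.Agent.H61.Elim

set_option autoImplicit false
set_option linter.all false

/-!
# The classification of the families of triples which force a frequent element
-/

namespace Pool.Agent.H61.FC

open Finset

variable {α : Type*} [DecidableEq α]

/-- adding a triple which meets a component in one element -/
theorem ext_all {F : Finset (Finset α)} (hF : ∀ A ∈ F, ∀ B ∈ F, A ∪ B ∈ F) {V : Finset α}
    (bad : ∀ x ∈ V, ¬ F.card ≤ 2 * (F.filter (fun A => x ∈ A)).card)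
    {P : Finset (Finset α)} (hP : Ty P) (hPF : ∀ T ∈ P, T ∈ F) (hPV : ∀ T ∈ P, T ⊆ V)
    {p u w : α} (hT : ({p, u, w} : Finset α) ∈ F) (hTV : ({p, u, w} : Finset α) ⊆ V)
    (hp : ∃ T ∈ P, p ∈ T) (hu : ∀ T ∈ P, u ∉ T) (hw : ∀ T ∈ P, w ∉ T) (huw : u ≠ w) :
    Ty (insert {p, u, w} P) := by
  obtain ⟨T₀, hT₀, hpT⟩ := hp
  simp only [insert_subset_iff, singleton_subset_iff] at hTV
  obtain ⟨hpV, huV, hwV⟩ := hTV
  cases hP with
  | p1 v0 v1 v2 nd =>
    have m0 : ({v0, v1, v2} : Finset α) ∈ ({{v0, v1, v2}} : Finset (Finset α)) := by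
      simp only [mem_insert, mem_singleton, true_or, or_true]
    have s0 := hPV _ m0
    have f0 := hPF _ m0
    have u0 := hu _ m0
    have w0 := hw _ m0
    simp only [insert_subset_iff, singleton_subset_iff] at s0
    simp only [mem_insert, mem_singleton, not_or] at u0 w0
    have nd2 : [v0, v1, v2, u, w].Nodup := by
      simp only [List.nodup_cons, List.mem_cons, List.not_mem_nil, not_or, not_false_eq_true,
        and_true, or_false, List.nodup_nil] at nd ⊢
      obtain ⟨⟨h0_1, h0_2⟩, h1_2⟩ := nd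
      exact ⟨⟨h0_1, h0_2, (fun h => u0.1 h.symm), (fun h => w0.1 h.symm)⟩, ⟨h1_2, (fun h => u0.2.1 h.symm), (fun h => w0.2.1 h.symm)⟩, ⟨(fun h => u0.2.2 h.symm), (fun h => w0.2.2 h.symm)⟩, huw⟩
    have hV : ∀ x ∈ ({v0, v1, v2, u, w} : Finset α), x ∈ V := by
      intro x hx
      simp only [mem_insert, mem_singleton] at hx
      rcases hx with hx | hx | hx | hx | hx
      · rw [hx]; exact s0.1
      · rw [hx]; exact s0.2.1
      · rw [hx]; exact s0.2.2
      · rw [hx]; exact huV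
      · rw [hx]; exact hwV
    have hpc : p = v0 ∨ p = v1 ∨ p = v2 := by
      simp only [mem_insert, mem_singleton] at hT₀
      have h := hT₀
      · rw [h] at hpT
        simp only [mem_insert, mem_singleton] at hpT
        rcases hpT with h | h | h <;> simp only [h, true_or, or_true]
    rcases hpc with h | h | h
    · rw [h] at hT ⊢; exact ext_p1_0 hF bad nd2 f0 hT hV
    · rw [h] at hT ⊢; exact ext_p1_1 hF bad nd2 f0 hT hV
    · rw [h] at hT ⊢; exact ext_p1_2 hF bad nd2 f0 hT hV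
  | p2 v0 v1 v2 v3 v4 nd =>
    have m0 : ({v0, v1, v2} : Finset α) ∈ ({{v0, v1, v2}, {v2, v3, v4}} : Finset (Finset α)) := by
      simp only [mem_insert, mem_singleton, true_or, or_true]
    have s0 := hPV _ m0
    have f0 := hPF _ m0
    have u0 := hu _ m0
    have w0 := hw _ m0
    have m1 : ({v2, v3, v4} : Finset α) ∈ ({{v0, v1, v2}, {v2, v3, v4}} : Finset (Finset α)) := by
      simp only [mem_insert, mem_singleton, true_or, or_true]
    have s1 := hPV _ m1
    have f1 := hPF _ m1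
    have u1 := hu _ m1
    have w1 := hw _ m1
    simp only [insert_subset_iff, singleton_subset_iff] at s0 s1
    simp only [mem_insert, mem_singleton, not_or] at u0 w0 u1 w1
    have nd2 : [v0, v1, v2, v3, v4, u, w].Nodup := by
      simp only [List.nodup_cons, List.mem_cons, List.not_mem_nil, not_or, not_false_eq_true,
        and_true, or_false, List.nodup_nil] at nd ⊢
      obtain ⟨⟨h0_1, h0_2, h0_3, h0_4⟩, ⟨h1_2, h1_3, h1_4⟩, ⟨h2_3, h2_4⟩, h3_4⟩ := nd
      exact ⟨⟨h0_1, h0_2, h0_3, h0_4, (fun h => u0.1 h.symm), (fun h => w0.1 h.symm)⟩, ⟨h1_2, h1_3, h1_4, (fun h => u0.2.1 h.symm), (fun h => w0.2.1 h.symm)⟩, ⟨h2_3, h2_4, (fun h => u0.2.2 h.symm), (fun h => w0.2.2 h.symm)⟩, ⟨h3_4, (fun h => u1.2.1 h.symm), (fun h => w1.2.1 h.symm)⟩, ⟨(fun h => u1.2.2 h.symm), (fun h => w1.2.2 h.symm)⟩, huw⟩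
    have hV : ∀ x ∈ ({v0, v1, v2, v3, v4, u, w} : Finset α), x ∈ V := by
      intro x hx
      simp only [mem_insert, mem_singleton] at hx
      rcases hx with hx | hx | hx | hx | hx | hx | hx
      · rw [hx]; exact s0.1
      · rw [hx]; exact s0.2.1
      · rw [hx]; exact s0.2.2
      · rw [hx]; exact s1.2.1
      · rw [hx]; exact s1.2.2
      · rw [hx]; exact huV
      · rw [hx]; exact hwV
    have hpc : p = v0 ∨ p = v1 ∨ p = v2 ∨ p = v3 ∨ p = v4 := by
      simp only [mem_insert, mem_singleton] at hT₀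
      rcases hT₀ with h | h <;>
      · rw [h] at hpT
        simp only [mem_insert, mem_singleton] at hpT
        rcases hpT with h | h | h <;> simp only [h, true_or, or_true]
    rcases hpc with h | h | h | h | h
    · rw [h] at hT ⊢; exact ext_p2_0 hF bad nd2 f0 f1 hT hV
    · rw [h] at hT ⊢; exact ext_p2_1 hF bad nd2 f0 f1 hT hV
    · rw [h] at hT ⊢; exact ext_p2_2 hF bad nd2 f0 f1 hT hV
    · rw [h] at hT ⊢; exact ext_p2_3 hF bad nd2 f0 f1 hT hV
    · rw [h] at hT ⊢; exact ext_p2_4 hF bad nd2 f0 f1 hT hV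
  | p3 v0 v1 v2 v3 v4 v5 v6 nd =>
    have m0 : ({v0, v1, v2} : Finset α) ∈ ({{v0, v1, v2}, {v2, v3, v4}, {v4, v5, v6}} : Finset (Finset α)) := by
      simp only [mem_insert, mem_singleton, true_or, or_true]
    have s0 := hPV _ m0
    have f0 := hPF _ m0
    have u0 := hu _ m0
    have w0 := hw _ m0
    have m1 : ({v2, v3, v4} : Finset α) ∈ ({{v0, v1, v2}, {v2, v3, v4}, {v4, v5, v6}} : Finset (Finset α)) := by
      simp only [mem_insert, mem_singleton, true_or, or_true]
    have s1 := hPV _ m1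
    have f1 := hPF _ m1
    have u1 := hu _ m1
    have w1 := hw _ m1
    have m2 : ({v4, v5, v6} : Finset α) ∈ ({{v0, v1, v2}, {v2, v3, v4}, {v4, v5, v6}} : Finset (Finset α)) := by
      simp only [mem_insert, mem_singleton, true_or, or_true]
    have s2 := hPV _ m2
    have f2 := hPF _ m2
    have u2 := hu _ m2
    have w2 := hw _ m2
    simp only [insert_subset_iff, singleton_subset_iff] at s0 s1 s2
    simp only [mem_insert, mem_singleton, not_or] at u0 w0 u1 w1 u2 w2
    have nd2 : [v0, v1, v2, v3, v4, v5, v6, u, w].Nodup := by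
      simp only [List.nodup_cons, List.mem_cons, List.not_mem_nil, not_or, not_false_eq_true,
        and_true, or_false, List.nodup_nil] at nd ⊢
      obtain ⟨⟨h0_1, h0_2, h0_3, h0_4, h0_5, h0_6⟩, ⟨h1_2, h1_3, h1_4, h1_5, h1_6⟩, ⟨h2_3, h2_4, h2_5, h2_6⟩, ⟨h3_4, h3_5, h3_6⟩, ⟨h4_5, h4_6⟩, h5_6⟩ := nd
      exact ⟨⟨h0_1, h0_2, h0_3, h0_4, h0_5, h0_6, (fun h => u0.1 h.symm), (fun h => w0.1 h.symm)⟩, ⟨h1_2, h1_3, h1_4, h1_5, h1_6, (fun h => u0.2.1 h.symm), (fun h => w0.2.1 h.symm)⟩, ⟨h2_3, h2_4, h2_5, h2_6, (fun h => u0.2.2 h.symm), (fun h => w0.2.2 h.symm)⟩, ⟨h3_4, h3_5, h3_6, (fun h => u1.2.1 h.symm), (fun h => w1.2.1 h.symm)⟩, ⟨h4_5, h4_6, (fun h => u1.2.2 h.symm), (fun h => w1.2.2 h.symm)⟩, ⟨h5_6, (fun h => u2.2.1 h.symm), (fun h => w2.2.1 h.symm)⟩, ⟨(fun h => u2.2.2 h.symm), (fun h => w2.2.2 h.symm)⟩, huw⟩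
    have hV : ∀ x ∈ ({v0, v1, v2, v3, v4, v5, v6, u, w} : Finset α), x ∈ V := by
      intro x hx
      simp only [mem_insert, mem_singleton] at hx
      rcases hx with hx | hx | hx | hx | hx | hx | hx | hx | hx
      · rw [hx]; exact s0.1
      · rw [hx]; exact s0.2.1
      · rw [hx]; exact s0.2.2
      · rw [hx]; exact s1.2.1
      · rw [hx]; exact s1.2.2
      · rw [hx]; exact s2.2.1
      · rw [hx]; exact s2.2.2
      · rw [hx]; exact huV
      · rw [hx]; exact hwV
    have hpc : p = v0 ∨ p = v1 ∨ p = v2 ∨ p = v3 ∨ p = v4 ∨ p = v5 ∨ p = v6 := by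
      simp only [mem_insert, mem_singleton] at hT₀
      rcases hT₀ with h | h | h <;>
      · rw [h] at hpT
        simp only [mem_insert, mem_singleton] at hpT
        rcases hpT with h | h | h <;> simp only [h, true_or, or_true]
    rcases hpc with h | h | h | h | h | h | h
    · rw [h] at hT ⊢; exact ext_p3_0 hF bad nd2 f0 f1 f2 hT hV
    · rw [h] at hT ⊢; exact ext_p3_1 hF bad nd2 f0 f1 f2 hT hV
    · rw [h] at hT ⊢; exact ext_p3_2 hF bad nd2 f0 f1 f2 hT hV
    · rw [h] at hT ⊢; exact ext_p3_3 hF bad nd2 f0 f1 f2 hT hV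
    · rw [h] at hT ⊢; exact ext_p3_4 hF bad nd2 f0 f1 f2 hT hV
    · rw [h] at hT ⊢; exact ext_p3_5 hF bad nd2 f0 f1 f2 hT hV
    · rw [h] at hT ⊢; exact ext_p3_6 hF bad nd2 f0 f1 f2 hT hV
  | p4 v0 v1 v2 v3 v4 v5 v6 v7 v8 nd =>
    have m0 : ({v0, v1, v2} : Finset α) ∈ ({{v0, v1, v2}, {v2, v3, v4}, {v4, v5, v6}, {v6, v7, v8}} : Finset (Finset α)) := by
      simp only [mem_insert, mem_singleton, true_or, or_true]
    have s0 := hPV _ m0
    have f0 := hPF _ m0
    have u0 := hu _ m0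
    have w0 := hw _ m0
    have m1 : ({v2, v3, v4} : Finset α) ∈ ({{v0, v1, v2}, {v2, v3, v4}, {v4, v5, v6}, {v6, v7, v8}} : Finset (Finset α)) := by
      simp only [mem_insert, mem_singleton, true_or, or_true]
    have s1 := hPV _ m1
    have f1 := hPF _ m1
    have u1 := hu _ m1
    have w1 := hw _ m1
    have m2 : ({v4, v5, v6} : Finset α) ∈ ({{v0, v1, v2}, {v2, v3, v4}, {v4, v5, v6}, {v6, v7, v8}} : Finset (Finset α)) := by
      simp only [mem_insert, mem_singleton, true_or, or_true]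
    have s2 := hPV _ m2
    have f2 := hPF _ m2
    have u2 := hu _ m2
    have w2 := hw _ m2
    have m3 : ({v6, v7, v8} : Finset α) ∈ ({{v0, v1, v2}, {v2, v3, v4}, {v4, v5, v6}, {v6, v7, v8}} : Finset (Finset α)) := by
      simp only [mem_insert, mem_singleton, true_or, or_true]
    have s3 := hPV _ m3
    have f3 := hPF _ m3
    have u3 := hu _ m3
    have w3 := hw _ m3
    simp only [insert_subset_iff, singleton_subset_iff] at s0 s1 s2 s3
    simp only [mem_insert, mem_singleton, not_or] at u0 w0 u1 w1 u2 w2 u3 w3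
    have nd2 : [v0, v1, v2, v3, v4, v5, v6, v7, v8, u, w].Nodup := by
      simp only [List.nodup_cons, List.mem_cons, List.not_mem_nil, not_or, not_false_eq_true,
        and_true, or_false, List.nodup_nil] at nd ⊢
      obtain ⟨⟨h0_1, h0_2, h0_3, h0_4, h0_5, h0_6, h0_7, h0_8⟩, ⟨h1_2, h1_3, h1_4, h1_5, h1_6, h1_7, h1_8⟩, ⟨h2_3, h2_4, h2_5, h2_6, h2_7, h2_8⟩, ⟨h3_4, h3_5, h3_6, h3_7, h3_8⟩, ⟨h4_5, h4_6, h4_7, h4_8⟩, ⟨h5_6, h5_7, h5_8⟩, ⟨h6_7, h6_8⟩, h7_8⟩ := nd
      exact ⟨⟨h0_1, h0_2, h0_3, h0_4, h0_5, h0_6, h0_7, h0_8, (fun h => u0.1 h.symm), (fun h => w0.1 h.symm)⟩, ⟨h1_2, h1_3, h1_4, h1_5, h1_6, h1_7, h1_8, (fun h => u0.2.1 h.symm), (fun h => w0.2.1 h.symm)⟩, ⟨h2_3, h2_4, h2_5, h2_6, h2_7, h2_8, (fun h => u0.2.2 h.symm), (fun h => w0.2.2 h.symm)⟩, ⟨h3_4, h3_5, h3_6, h3_7, h3_8, (fun h => u1.2.1 h.symm), (fun h => w1.2.1 h.symm)⟩, ⟨h4_5, h4_6, h4_7, h4_8, (fun h => u1.2.2 h.symm), (fun h => w1.2.2 h.symm)⟩, ⟨h5_6, h5_7, h5_8, (fun h => u2.2.1 h.symm),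 (fun h => w2.2.1 h.symm)⟩, ⟨h6_7, h6_8, (fun h => u2.2.2 h.symm), (fun h => w2.2.2 h.symm)⟩, ⟨h7_8, (fun h => u3.2.1 h.symm), (fun h => w3.2.1 h.symm)⟩, ⟨(fun h => u3.2.2 h.symm), (fun h => w3.2.2 h.symm)⟩, huw⟩
    have hV : ∀ x ∈ ({v0, v1, v2, v3, v4, v5, v6, v7, v8, u, w} : Finset α), x ∈ V := by
      intro x hx
      simp only [mem_insert, mem_singleton] at hx
      rcases hx with hx | hx | hx | hx | hx | hx | hx | hx | hx | hx | hx
      · rw [hx]; exact s0.1
      · rw [hx]; exact s0.2.1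
      · rw [hx]; exact s0.2.2
      · rw [hx]; exact s1.2.1
      · rw [hx]; exact s1.2.2
      · rw [hx]; exact s2.2.1
      · rw [hx]; exact s2.2.2
      · rw [hx]; exact s3.2.1
      · rw [hx]; exact s3.2.2
      · rw [hx]; exact huV
      · rw [hx]; exact hwV
    have hpc : p = v0 ∨ p = v1 ∨ p = v2 ∨ p = v3 ∨ p = v4 ∨ p = v5 ∨ p = v6 ∨ p = v7 ∨ p = v8 := by
      simp only [mem_insert, mem_singleton] at hT₀
      rcases hT₀ with h | h | h | h <;>
      · rw [h] at hpT
        simp only [mem_insert, mem_singleton] at hpT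
        rcases hpT with h | h | h <;> simp only [h, true_or, or_true]
    rcases hpc with h | h | h | h | h | h | h | h | h
    · rw [h] at hT ⊢; exact ext_p4_0 hF bad nd2 f0 f1 f2 f3 hT hV
    · rw [h] at hT ⊢; exact ext_p4_1 hF bad nd2 f0 f1 f2 f3 hT hV
    · rw [h] at hT ⊢; exact ext_p4_2 hF bad nd2 f0 f1 f2 f3 hT hV
    · rw [h] at hT ⊢; exact ext_p4_3 hF bad nd2 f0 f1 f2 f3 hT hV
    · rw [h] at hT ⊢; exact ext_p4_4 hF bad nd2 f0 f1 f2 f3 hT hV
    · rw [h] at hT ⊢; exact ext_p4_5 hF bad nd2 f0 f1 f2 f3 hT hV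
    · rw [h] at hT ⊢; exact ext_p4_6 hF bad nd2 f0 f1 f2 f3 hT hV
    · rw [h] at hT ⊢; exact ext_p4_7 hF bad nd2 f0 f1 f2 f3 hT hV
    · rw [h] at hT ⊢; exact ext_p4_8 hF bad nd2 f0 f1 f2 f3 hT hV
  | q2 v0 v1 v2 v3 nd =>
    have m0 : ({v0, v1, v2} : Finset α) ∈ ({{v0, v1, v2}, {v1, v2, v3}} : Finset (Finset α)) := by
      simp only [mem_insert, mem_singleton, true_or, or_true]
    have s0 := hPV _ m0
    have f0 := hPF _ m0
    have u0 := hu _ m0
    have w0 := hw _ m0
    have m1 : ({v1, v2, v3} : Finset α) ∈ ({{v0, v1, v2}, {v1, v2, v3}} : Finset (Finset α)) := by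
      simp only [mem_insert, mem_singleton, true_or, or_true]
    have s1 := hPV _ m1
    have f1 := hPF _ m1
    have u1 := hu _ m1
    have w1 := hw _ m1
    simp only [insert_subset_iff, singleton_subset_iff] at s0 s1
    simp only [mem_insert, mem_singleton, not_or] at u0 w0 u1 w1
    have nd2 : [v0, v1, v2, v3, u, w].Nodup := by
      simp only [List.nodup_cons, List.mem_cons, List.not_mem_nil, not_or, not_false_eq_true,
        and_true, or_false, List.nodup_nil] at nd ⊢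
      obtain ⟨⟨h0_1, h0_2, h0_3⟩, ⟨h1_2, h1_3⟩, h2_3⟩ := nd
      exact ⟨⟨h0_1, h0_2, h0_3, (fun h => u0.1 h.symm), (fun h => w0.1 h.symm)⟩, ⟨h1_2, h1_3, (fun h => u0.2.1 h.symm), (fun h => w0.2.1 h.symm)⟩, ⟨h2_3, (fun h => u0.2.2 h.symm), (fun h => w0.2.2 h.symm)⟩, ⟨(fun h => u1.2.2 h.symm), (fun h => w1.2.2 h.symm)⟩, huw⟩
    have hV : ∀ x ∈ ({v0, v1, v2, v3, u, w} : Finset α), x ∈ V := by
      intro x hx
      simp only [mem_insert, mem_singleton] at hx
      rcases hx with hx | hx | hx | hx | hx | hx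
      · rw [hx]; exact s0.1
      · rw [hx]; exact s0.2.1
      · rw [hx]; exact s0.2.2
      · rw [hx]; exact s1.2.2
      · rw [hx]; exact huV
      · rw [hx]; exact hwV
    have hpc : p = v0 ∨ p = v1 ∨ p = v2 ∨ p = v3 := by
      simp only [mem_insert, mem_singleton] at hT₀
      rcases hT₀ with h | h <;>
      · rw [h] at hpT
        simp only [mem_insert, mem_singleton] at hpT
        rcases hpT with h | h | h <;> simp only [h, true_or, or_true]
    rcases hpc with h | h | h | h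
    · rw [h] at hT ⊢; exact ext_q2_0 hF bad nd2 f0 f1 hT hV
    · rw [h] at hT ⊢; exact ext_q2_1 hF bad nd2 f0 f1 hT hV
    · rw [h] at hT ⊢; exact ext_q2_2 hF bad nd2 f0 f1 hT hV
    · rw [h] at hT ⊢; exact ext_q2_3 hF bad nd2 f0 f1 hT hV
  | q3 v0 v1 v2 v3 v4 v5 nd =>
    have m0 : ({v0, v1, v2} : Finset α) ∈ ({{v0, v1, v2}, {v2, v3, v4}, {v3, v4, v5}} : Finset (Finset α)) := by
      simp only [mem_insert, mem_singleton, true_or, or_true]
    have s0 := hPV _ m0
    have f0 := hPF _ m0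
    have u0 := hu _ m0
    have w0 := hw _ m0
    have m1 : ({v2, v3, v4} : Finset α) ∈ ({{v0, v1, v2}, {v2, v3, v4}, {v3, v4, v5}} : Finset (Finset α)) := by
      simp only [mem_insert, mem_singleton, true_or, or_true]
    have s1 := hPV _ m1
    have f1 := hPF _ m1
    have u1 := hu _ m1
    have w1 := hw _ m1
    have m2 : ({v3, v4, v5} : Finset α) ∈ ({{v0, v1, v2}, {v2, v3, v4}, {v3, v4, v5}} : Finset (Finset α)) := by
      simp only [mem_insert, mem_singleton, true_or, or_true]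
    have s2 := hPV _ m2
    have f2 := hPF _ m2
    have u2 := hu _ m2
    have w2 := hw _ m2
    simp only [insert_subset_iff, singleton_subset_iff] at s0 s1 s2
    simp only [mem_insert, mem_singleton, not_or] at u0 w0 u1 w1 u2 w2
    have nd2 : [v0, v1, v2, v3, v4, v5, u, w].Nodup := by
      simp only [List.nodup_cons, List.mem_cons, List.not_mem_nil, not_or, not_false_eq_true,
        and_true, or_false, List.nodup_nil] at nd ⊢
      obtain ⟨⟨h0_1, h0_2, h0_3, h0_4, h0_5⟩, ⟨h1_2, h1_3, h1_4, h1_5⟩, ⟨h2_3, h2_4, h2_5⟩, ⟨h3_4, h3_5⟩, h4_5⟩ := nd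
      exact ⟨⟨h0_1, h0_2, h0_3, h0_4, h0_5, (fun h => u0.1 h.symm), (fun h => w0.1 h.symm)⟩, ⟨h1_2, h1_3, h1_4, h1_5, (fun h => u0.2.1 h.symm), (fun h => w0.2.1 h.symm)⟩, ⟨h2_3, h2_4, h2_5, (fun h => u0.2.2 h.symm), (fun h => w0.2.2 h.symm)⟩, ⟨h3_4, h3_5, (fun h => u1.2.1 h.symm), (fun h => w1.2.1 h.symm)⟩, ⟨h4_5, (fun h => u1.2.2 h.symm), (fun h => w1.2.2 h.symm)⟩, ⟨(fun h => u2.2.2 h.symm), (fun h => w2.2.2 h.symm)⟩, huw⟩
    have hV : ∀ x ∈ ({v0, v1, v2, v3, v4, v5, u, w} : Finset α), x ∈ V := by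
      intro x hx
      simp only [mem_insert, mem_singleton] at hx
      rcases hx with hx | hx | hx | hx | hx | hx | hx | hx
      · rw [hx]; exact s0.1
      · rw [hx]; exact s0.2.1
      · rw [hx]; exact s0.2.2
      · rw [hx]; exact s1.2.1
      · rw [hx]; exact s1.2.2
      · rw [hx]; exact s2.2.2
      · rw [hx]; exact huV
      · rw [hx]; exact hwV
    have hpc : p = v0 ∨ p = v1 ∨ p = v2 ∨ p = v3 ∨ p = v4 ∨ p = v5 := by
      simp only [mem_insert, mem_singleton] at hT₀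
      rcases hT₀ with h | h | h <;>
      · rw [h] at hpT
        simp only [mem_insert, mem_singleton] at hpT
        rcases hpT with h | h | h <;> simp only [h, true_or, or_true]
    rcases hpc with h | h | h | h | h | h
    · rw [h] at hT ⊢; exact ext_q3_0 hF bad nd2 f0 f1 f2 hT hV
    · rw [h] at hT ⊢; exact ext_q3_1 hF bad nd2 f0 f1 f2 hT hV
    · rw [h] at hT ⊢; exact ext_q3_2 hF bad nd2 f0 f1 f2 hT hV
    · rw [h] at hT ⊢; exact ext_q3_3 hF bad nd2 f0 f1 f2 hT hV
    · rw [h] at hT ⊢; exact ext_q3_4 hF bad nd2 f0 f1 f2 hT hV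
    · rw [h] at hT ⊢; exact ext_q3_5 hF bad nd2 f0 f1 f2 hT hV
  | q4 v0 v1 v2 v3 v4 v5 v6 v7 nd =>
    have m0 : ({v0, v1, v2} : Finset α) ∈ ({{v0, v1, v2}, {v2, v3, v4}, {v4, v5, v6}, {v5, v6, v7}} : Finset (Finset α)) := by
      simp only [mem_insert, mem_singleton, true_or, or_true]
    have s0 := hPV _ m0
    have f0 := hPF _ m0
    have u0 := hu _ m0
    have w0 := hw _ m0
    have m1 : ({v2, v3, v4} : Finset α) ∈ ({{v0, v1, v2}, {v2, v3, v4}, {v4, v5, v6}, {v5, v6, v7}} : Finset (Finset α)) := by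
      simp only [mem_insert, mem_singleton, true_or, or_true]
    have s1 := hPV _ m1
    have f1 := hPF _ m1
    have u1 := hu _ m1
    have w1 := hw _ m1
    have m2 : ({v4, v5, v6} : Finset α) ∈ ({{v0, v1, v2}, {v2, v3, v4}, {v4, v5, v6}, {v5, v6, v7}} : Finset (Finset α)) := by
      simp only [mem_insert, mem_singleton, true_or, or_true]
    have s2 := hPV _ m2
    have f2 := hPF _ m2
    have u2 := hu _ m2
    have w2 := hw _ m2
    have m3 : ({v5, v6, v7} : Finset α) ∈ ({{v0, v1, v2}, {v2, v3, v4}, {v4, v5, v6}, {v5, v6, v7}} : Finset (Finset α)) := by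
      simp only [mem_insert, mem_singleton, true_or, or_true]
    have s3 := hPV _ m3
    have f3 := hPF _ m3
    have u3 := hu _ m3
    have w3 := hw _ m3
    simp only [insert_subset_iff, singleton_subset_iff] at s0 s1 s2 s3
    simp only [mem_insert, mem_singleton, not_or] at u0 w0 u1 w1 u2 w2 u3 w3
    have nd2 : [v0, v1, v2, v3, v4, v5, v6, v7, u, w].Nodup := by
      simp only [List.nodup_cons, List.mem_cons, List.not_mem_nil, not_or, not_false_eq_true,
        and_true, or_false, List.nodup_nil] at nd ⊢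
      obtain ⟨⟨h0_1, h0_2, h0_3, h0_4, h0_5, h0_6, h0_7⟩, ⟨h1_2, h1_3, h1_4, h1_5, h1_6, h1_7⟩, ⟨h2_3, h2_4, h2_5, h2_6, h2_7⟩, ⟨h3_4, h3_5, h3_6, h3_7⟩, ⟨h4_5, h4_6, h4_7⟩, ⟨h5_6, h5_7⟩, h6_7⟩ := nd
      exact ⟨⟨h0_1, h0_2, h0_3, h0_4, h0_5, h0_6, h0_7, (fun h => u0.1 h.symm), (fun h => w0.1 h.symm)⟩, ⟨h1_2, h1_3, h1_4, h1_5, h1_6, h1_7, (fun h => u0.2.1 h.symm), (fun h => w0.2.1 h.symm)⟩, ⟨h2_3, h2_4, h2_5, h2_6, h2_7, (fun h => u0.2.2 h.symm), (fun h => w0.2.2 h.symm)⟩, ⟨h3_4, h3_5, h3_6, h3_7, (fun h => u1.2.1 h.symm), (fun h => w1.2.1 h.symm)⟩, ⟨h4_5, h4_6, h4_7, (fun h => u1.2.2 h.symm), (fun h => w1.2.2 h.symm)⟩, ⟨h5_6, h5_7, (fun h => u2.2.1 h.symm), (fun h => w2.2.1 h.symm)⟩, ⟨h6_7, (fun h => u2.2.2 h.symm), (fun h => w2.2.2 h.symm)⟩, ⟨(fun h => u3.2.2 h.symm), (fun h => w3.2.2 h.symm)⟩, huw⟩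
    have hV : ∀ x ∈ ({v0, v1, v2, v3, v4, v5, v6, v7, u, w} : Finset α), x ∈ V := by
      intro x hx
      simp only [mem_insert, mem_singleton] at hx
      rcases hx with hx | hx | hx | hx | hx | hx | hx | hx | hx | hx
      · rw [hx]; exact s0.1
      · rw [hx]; exact s0.2.1
      · rw [hx]; exact s0.2.2
      · rw [hx]; exact s1.2.1
      · rw [hx]; exact s1.2.2
      · rw [hx]; exact s2.2.1
      · rw [hx]; exact s2.2.2
      · rw [hx]; exact s3.2.2
      · rw [hx]; exact huV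
      · rw [hx]; exact hwV
    have hpc : p = v0 ∨ p = v1 ∨ p = v2 ∨ p = v3 ∨ p = v4 ∨ p = v5 ∨ p = v6 ∨ p = v7 := by
      simp only [mem_insert, mem_singleton] at hT₀
      rcases hT₀ with h | h | h | h <;>
      · rw [h] at hpT
        simp only [mem_insert, mem_singleton] at hpT
        rcases hpT with h | h | h <;> simp only [h, true_or, or_true]
    rcases hpc with h | h | h | h | h | h | h | h
    · rw [h] at hT ⊢; exact ext_q4_0 hF bad nd2 f0 f1 f2 f3 hT hV
    · rw [h] at hT ⊢; exact ext_q4_1 hF bad nd2 f0 f1 f2 f3 hT hV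
    · rw [h] at hT ⊢; exact ext_q4_2 hF bad nd2 f0 f1 f2 f3 hT hV
    · rw [h] at hT ⊢; exact ext_q4_3 hF bad nd2 f0 f1 f2 f3 hT hV
    · rw [h] at hT ⊢; exact ext_q4_4 hF bad nd2 f0 f1 f2 f3 hT hV
    · rw [h] at hT ⊢; exact ext_q4_5 hF bad nd2 f0 f1 f2 f3 hT hV
    · rw [h] at hT ⊢; exact ext_q4_6 hF bad nd2 f0 f1 f2 f3 hT hV
    · rw [h] at hT ⊢; exact ext_q4_7 hF bad nd2 f0 f1 f2 f3 hT hV

/-- the decomposition of a family of triples which forces nothing -/
theorem parts_of_bad {F : Finset (Finset α)} (hF : ∀ A ∈ F, ∀ B ∈ F, A ∪ B ∈ F) {V : Finset α}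
    (bad : ∀ x ∈ V, ¬ F.card ≤ 2 * (F.filter (fun A => x ∈ A)).card) (m : ℕ) :
    ∀ G : Finset (Finset α), G.card = m → (∀ T ∈ G, T ∈ F) → (∀ T ∈ G, T.card = 3) →
      (∀ T ∈ G, T ⊆ V) → Parts G := by
  induction m using Nat.strong_induction_on with
  | _ m ih =>
  intro G hGm hGF hG3 hGV
  rcases G.eq_empty_or_nonempty with rfl | ⟨T₀, hT₀⟩
  · exact ⟨∅, by simp, by simp, by simp⟩
  set W := G.biUnion id with hW
  have hsub : ∀ T ∈ G, T ⊆ W := fun T hT => subset_biUnion_of_mem id hT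
  have hWV : W ⊆ V := by
    intro t ht
    obtain ⟨T, hT, htT⟩ := mem_biUnion.1 ht
    exact hGV T hT htT
  have hWne : W.Nonempty := by
    have : T₀.Nonempty := by rw [← card_pos, hG3 T₀ hT₀]; norm_num
    obtain ⟨t, ht⟩ := this
    exact ⟨t, hsub T₀ hT₀ ht⟩
  have hstuck : ¬ Stuck W G (fun _ => False) := by
    intro hS
    obtain ⟨x, hx, h⟩ := stuck_fc3 hF (fun T hT => hGF T hT) hWne hS
    exact bad x (hWV hx) h
  have h1 : ∀ v ∈ W, ¬ (fun _ : α => False) v → ∃ T ∈ G, v ∈ T := by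
    intro v hv _
    obtain ⟨T, hT, hvT⟩ := mem_biUnion.1 hv
    exact ⟨T, hT, hvT⟩
  have honly : ∀ {u : α} {T : Finset α}, Priv G (fun _ => False) u → T ∈ G → u ∈ T →
      ∀ T' ∈ G, u ∈ T' → T' = T := by
    intro u T hp hT huT T' hT' hu'
    by_contra hne
    exact hp.2 ⟨T', hT', T, hT, hne, hu', huT⟩
  by_cases h2 : ∀ T ∈ G, ∀ u ∈ T, ∀ v ∈ T, u ≠ v →
      ¬ (Priv G (fun _ => False) u ∧ Priv G (fun _ => False) v)
  swap
  · -- a triple with two private elements
    push Not at h2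
    obtain ⟨T, hT, u, hu, v, hv, huv, hpu, hpv⟩ := h2
    obtain ⟨p, hpu', hpv', hTe⟩ := exists_tri2 (hG3 T hT) hu hv huv.symm
    have hTe' : T = {p, u, v} := by rw [hTe]; exact perm_120 p u v
    obtain ⟨𝒬, hQ1, hQ2, hQ3⟩ := ih (G.erase T).card (by
      rw [card_erase_of_mem hT, hGm]; have := card_pos.2 ⟨T, hT⟩; omega) (G.erase T) rfl
      (fun S hS => hGF S (mem_of_mem_erase hS)) (fun S hS => hG3 S (mem_of_mem_erase hS))
      (fun S hS => hGV S (mem_of_mem_erase hS))
    have huG : ∀ S ∈ G.erase T, u ∉ S := fun S hS h =>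
      (mem_erase.1 hS).1 (honly hpu hT hu S (mem_of_mem_erase hS) h)
    have hvG : ∀ S ∈ G.erase T, v ∉ S := fun S hS h =>
      (mem_erase.1 hS).1 (honly hpv hT hv S (mem_of_mem_erase hS) h)
    have hin : ∀ P ∈ 𝒬, ∀ S ∈ P, S ∈ G.erase T := by
      intro P hP S hS
      rw [← hQ1]
      exact mem_biUnion.2 ⟨P, hP, hS⟩
    by_cases hp : ∃ S ∈ G.erase T, p ∈ S
    · obtain ⟨S, hS, hpS⟩ := hp
      rw [← hQ1] at hS
      obtain ⟨P, hP, hSP⟩ := mem_biUnion.1 hS
      have hSP' : S ∈ P := hSP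
      have hTy := ext_all hF bad (hQ2 P hP) (fun R hR => hGF R (mem_of_mem_erase (hin P hP R hR)))
        (fun R hR => hGV R (mem_of_mem_erase (hin P hP R hR))) (hTe' ▸ hGF T hT) (hTe' ▸ hGV T hT)
        ⟨S, hSP', hpS⟩ (fun R hR => huG R (hin P hP R hR)) (fun R hR => hvG R (hin P hP R hR)) huv
      rw [← hTe'] at hTy
      refine ⟨insert (insert T P) (𝒬.erase P), ?_, ?_, ?_⟩
      · rw [biUnion_insert, id]
        ext R
        rw [mem_union, mem_insert, mem_biUnion]
        constructor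
        · rintro ((h | h) | ⟨Q, hQ, hR⟩)
          · rw [h]; exact hT
          · exact mem_of_mem_erase (hin P hP R h)
          · exact mem_of_mem_erase (hin Q (mem_of_mem_erase hQ) R hR)
        · intro hR
          by_cases hRT : R = T
          · exact Or.inl (Or.inl hRT)
          · have : R ∈ 𝒬.biUnion id := by rw [hQ1]; exact mem_erase.2 ⟨hRT, hR⟩
            obtain ⟨Q, hQ, hRQ⟩ := mem_biUnion.1 this
            by_cases hQP : Q = P
            · exact Or.inl (Or.inr (hQP ▸ hRQ))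
            · exact Or.inr ⟨Q, mem_erase.2 ⟨hQP, hQ⟩, hRQ⟩
      · intro Q hQ
        rcases mem_insert.1 hQ with rfl | hQ
        · exact hTy
        · exact hQ2 Q (mem_of_mem_erase hQ)
      · have key : ∀ Q ∈ 𝒬.erase P, ∀ R ∈ insert T P, ∀ R' ∈ Q, Disjoint R R' := by
          intro Q hQ R hR R' hR'
          have hQ' := mem_erase.1 hQ
          rcases mem_insert.1 hR with rfl | hR
          · rw [hTe', disjoint_left]
            intro t ht ht'
            simp only [mem_insert, mem_singleton] at ht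
            rcases ht with rfl | rfl | rfl
            · exact disjoint_left.1 (hQ3 P hP Q hQ'.2 hQ'.1.symm S hSP' R' hR') hpS ht'
            · exact huG R' (hin Q hQ'.2 R' hR') ht'
            · exact hvG R' (hin Q hQ'.2 R' hR') ht'
          · exact hQ3 P hP Q hQ'.2 hQ'.1.symm R hR R' hR'
        intro Q hQ Q' hQ' hne R hR R' hR'
        rcases mem_insert.1 hQ with rfl | hQ
        · rcases mem_insert.1 hQ' with rfl | hQ'
          · exact absurd rfl hne
          · exact key Q' hQ' R hR R' hR'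
        · rcases mem_insert.1 hQ' with rfl | hQ'
          · exact (key Q hQ R' hR' R hR).symm
          · exact hQ3 Q (mem_of_mem_erase hQ) Q' (mem_of_mem_erase hQ') hne R hR R' hR'
    · push Not at hp
      have hTdis : ∀ S ∈ G.erase T, Disjoint T S := by
        intro S hS
        rw [hTe', disjoint_left]
        intro t ht
        simp only [mem_insert, mem_singleton] at ht
        rcases ht with rfl | rfl | rfl
        · exact hp S hS
        · exact huG S hS
        · exact hvG S hS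
      have hTy : Ty ({T} : Finset (Finset α)) := by
        rw [hTe']
        refine Ty.p1 p u v ?_
        simp only [List.nodup_cons, List.mem_cons, List.not_mem_nil, not_or, not_false_eq_true,
          and_true, or_false, List.nodup_nil]
        exact ⟨⟨hpu', hpv'⟩, huv⟩
      refine ⟨insert {T} 𝒬, ?_, ?_, ?_⟩
      · rw [biUnion_insert, id, hQ1]
        ext R
        rw [mem_union, mem_singleton, mem_erase]
        constructor
        · rintro (h | h)
          · rw [h]; exact hT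
          · exact h.2
        · intro hR
          by_cases hRT : R = T
          · exact Or.inl hRT
          · exact Or.inr ⟨hRT, hR⟩
      · intro Q hQ
        rcases mem_insert.1 hQ with rfl | hQ
        · exact hTy
        · exact hQ2 Q hQ
      · intro Q hQ Q' hQ' hne R hR R' hR'
        rcases mem_insert.1 hQ with rfl | hQ
        · rcases mem_insert.1 hQ' with rfl | hQ'
          · exact absurd rfl hne
          · rw [mem_singleton] at hR
            rw [hR]
            exact hTdis R' (hin Q' hQ' R' hR')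
        · rcases mem_insert.1 hQ' with rfl | hQ'
          · rw [mem_singleton] at hR'
            rw [hR']
            exact (hTdis R (hin Q hQ R hR)).symm
          · exact hQ3 Q hQ Q' hQ' hne R hR R' hR'
  -- two triples which meet no other triple
  have h3 : ¬ ∀ v w u u', v ≠ w → u ≠ u' → ({v, w, u} : Finset α) ∈ G →
      ({v, w, u'} : Finset α) ∈ G → ¬ St G (fun _ => False) v → ¬ St G (fun _ => False) w →
      Priv G (fun _ => False) u → Priv G (fun _ => False) u' → False := by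
    intro h3
    exact hstuck ⟨hsub, hG3, h1, h2, h3⟩
  push Not at h3
  obtain ⟨v, w, u, u', hvw, huu, hT, hT', hv, hw, hu, hu', _⟩ := h3
  have c1 := hG3 _ hT
  have c2 := hG3 _ hT'
  have huv : u ≠ v := by
    rintro rfl
    have : ({u, w, u} : Finset α) = {u, w} := by
      ext t; simp only [mem_insert, mem_singleton]; tauto
    rw [this] at c1
    have := card_le_two (a := u) (b := w)
    omega
  have huw : u ≠ w := by
    rintro rfl
    have : ({v, u, u} : Finset α) = {v, u} := by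
      ext t; simp only [mem_insert, mem_singleton]; tauto
    rw [this] at c1
    have := card_le_two (a := v) (b := u)
    omega
  have huv' : u' ≠ v := by
    rintro rfl
    have : ({u', w, u'} : Finset α) = {u', w} := by
      ext t; simp only [mem_insert, mem_singleton]; tauto
    rw [this] at c2
    have := card_le_two (a := u') (b := w)
    omega
  have huw' : u' ≠ w := by
    rintro rfl
    have : ({v, u', u'} : Finset α) = {v, u'} := by
      ext t; simp only [mem_insert, mem_singleton]; tauto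
    rw [this] at c2
    have := card_le_two (a := v) (b := u')
    omega
  have hne : ({v, w, u} : Finset α) ≠ {v, w, u'} := by
    intro he
    have : u ∈ ({v, w, u'} : Finset α) := by rw [← he]; simp
    simp only [mem_insert, mem_singleton] at this
    tauto
  set T : Finset α := {v, w, u} with hTdef
  set T' : Finset α := {v, w, u'} with hTdef'
  have hT'' : T' ∈ G.erase T := mem_erase.2 ⟨hne.symm, hT'⟩
  obtain ⟨𝒬, hQ1, hQ2, hQ3⟩ := ih ((G.erase T).erase T').card (by
    rw [card_erase_of_mem hT'', card_erase_of_mem hT, hGm]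
    have := card_pos.2 ⟨T, hT⟩; omega) ((G.erase T).erase T') rfl
    (fun S hS => hGF S (mem_of_mem_erase (mem_of_mem_erase hS)))
    (fun S hS => hG3 S (mem_of_mem_erase (mem_of_mem_erase hS)))
    (fun S hS => hGV S (mem_of_mem_erase (mem_of_mem_erase hS)))
  have hin : ∀ P ∈ 𝒬, ∀ S ∈ P, S ∈ (G.erase T).erase T' := by
    intro P hP S hS
    rw [← hQ1]
    exact mem_biUnion.2 ⟨P, hP, hS⟩
  have hdis : ∀ S ∈ (G.erase T).erase T', Disjoint T S ∧ Disjoint T' S := by
    intro S hS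
    obtain ⟨s1, s2⟩ := mem_erase.1 hS
    obtain ⟨s3, s4⟩ := mem_erase.1 s2
    have k1 : v ∉ S := fun h => by
      rcases two_of_notSt hv hT hT' hne (by simp [hTdef]) (by simp [hTdef']) s4 h with e | e
      · exact s3 e
      · exact s1 e
    have k2 : w ∉ S := fun h => by
      rcases two_of_notSt hw hT hT' hne (by simp [hTdef]) (by simp [hTdef']) s4 h with e | e
      · exact s3 e
      · exact s1 e
    have k3 : u ∉ S := fun h => s3 (honly hu hT (by simp [hTdef]) S s4 h)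
    have k4 : u' ∉ S := fun h => s1 (honly hu' hT' (by simp [hTdef']) S s4 h)
    constructor
    · rw [hTdef, disjoint_left]
      intro t ht
      simp only [mem_insert, mem_singleton] at ht
      rcases ht with rfl | rfl | rfl <;> assumption
    · rw [hTdef', disjoint_left]
      intro t ht
      simp only [mem_insert, mem_singleton] at ht
      rcases ht with rfl | rfl | rfl <;> assumption
  have hTy : Ty ({T, T'} : Finset (Finset α)) := by
    have h := Ty.q2 u v w u' (by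
      simp only [List.nodup_cons, List.mem_cons, List.not_mem_nil, not_or, not_false_eq_true,
        and_true, or_false, List.nodup_nil]
      exact ⟨⟨huv, huw, huu⟩, ⟨hvw, huv'.symm⟩, huw'.symm⟩)
    rw [perm_201 v w u] at h
    exact h
  refine ⟨insert {T, T'} 𝒬, ?_, ?_, ?_⟩
  · rw [biUnion_insert, id, hQ1]
    ext R
    rw [mem_union, mem_insert, mem_singleton, mem_erase, mem_erase]
    constructor
    · rintro ((h | h) | h)
      · rw [h]; exact hT
      · rw [h]; exact hT'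
      · exact h.2.2
    · intro hR
      by_cases e1 : R = T
      · exact Or.inl (Or.inl e1)
      · by_cases e2 : R = T'
        · exact Or.inl (Or.inr e2)
        · exact Or.inr ⟨e2, e1, hR⟩
  · intro Q hQ
    rcases mem_insert.1 hQ with rfl | hQ
    · exact hTy
    · exact hQ2 Q hQ
  · have key : ∀ Q ∈ 𝒬, ∀ R ∈ ({T, T'} : Finset (Finset α)), ∀ R' ∈ Q, Disjoint R R' := by
      intro Q hQ R hR R' hR'
      have := hdis R' (hin Q hQ R' hR')
      rcases mem_insert.1 hR with h | h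
      · rw [h]; exact this.1
      · rw [mem_singleton.1 h]; exact this.2
    intro Q hQ Q' hQ' hne' R hR R' hR'
    rcases mem_insert.1 hQ with rfl | hQ
    · rcases mem_insert.1 hQ' with rfl | hQ'
      · exact absurd rfl hne'
      · exact key Q' hQ' R hR R' hR'
    · rcases mem_insert.1 hQ' with rfl | hQ'
      · exact (key Q hQ R' hR' R hR).symm
      · exact hQ3 Q hQ Q' hQ' hne' R hR R' hR'

/-- the classification -/
theorem classification [Infinite α] (G : Finset (Finset α)) (hG : ∀ T ∈ G, T.card = 3) :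
    (∃ F : Finset (Finset α), (∀ A ∈ F, ∀ B ∈ F, A ∪ B ∈ F) ∧ G ⊆ F ∧
      ∀ T ∈ G, ∀ x ∈ T, 2 * (F.filter (fun A => x ∈ A)).card < F.card) ↔ Parts G := by
  constructor
  · rintro ⟨F, hF, hGF, hno⟩
    refine parts_of_bad hF (V := G.biUnion id) ?_ G.card G rfl (fun T hT => hGF hT) hG
      (fun T hT => subset_biUnion_of_mem id hT)
    intro x hx h
    obtain ⟨T, hT, hxT⟩ := mem_biUnion.1 hx
    have := hno T hT x hxT
    omega
  · rintro ⟨𝒬, h1, h2, h3⟩
    have h4 := NW_parts 𝒬 h2 h3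
    rw [h1] at h4
    obtain ⟨F, f1, f2, f3⟩ := exists_of_NW (fun B hB => subset_biUnion_of_mem id hB) h4
    refine ⟨F, f1, f2, fun T hT x hx => f3 x (mem_biUnion.2 ⟨T, hT, hx⟩)⟩

end Pool.Agent.H61.FC
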