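import Pool.Agent.H61.Cx
import Pool.Graph.R_pool_sql_team_seeded_63374d34.N188.FC.Char

set_option autoImplicit false
set_option linter.all false

/-!
# The criterion in terms of `dg`
-/

namespace Pool.Agent.H61.FC

open Finset

variable {α : Type*} [DecidableEq α]

theorem card_leave {𝒟 : Finset (Finset α)} (h : Dn 𝒟) (k : α) :
    ((𝒟.filter (fun D => k ∉ D ∧ insert k D ∉ 𝒟)).card : ℝ) = dg 𝒟 k := by
  have h1 : (𝒟.filter (fun D => k ∈ D)).card + (𝒟.filter (fun D => ¬ k ∈ D)).card = 𝒟.card :=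
    card_filter_add_card_filter_not (fun D => k ∈ D)
  have h2 : (𝒟.filter (fun D => k ∉ D ∧ insert k D ∉ 𝒟)).card +
      (𝒟.filter (fun D => k ∉ D ∧ insert k D ∈ 𝒟)).card = (𝒟.filter (fun D => ¬ k ∈ D)).card := by
    rw [← filter_filter, ← filter_filter, add_comm]
    exact card_filter_add_card_filter_not (s := 𝒟.filter (fun D => ¬ k ∈ D))
      (fun D => insert k D ∈ 𝒟)
  have h3 : (𝒟.filter (fun D => k ∉ D ∧ insert k D ∈ 𝒟)).card =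
      (𝒟.filter (fun D => k ∈ D)).card := by
    refine card_bij' (fun D _ => insert k D) (fun D _ => D.erase k) ?_ ?_ ?_ ?_
    · intro D hD
      rw [mem_filter] at hD ⊢
      exact ⟨hD.2.2, mem_insert_self _ _⟩
    · intro D hD
      rw [mem_filter] at hD ⊢
      exact ⟨h D hD.1 _ (erase_subset _ _), notMem_erase _ _, by rw [insert_erase hD.2]; exact hD.1⟩
    · intro D hD
      exact erase_insert (mem_filter.1 hD).2.1
    · intro D hD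
      exact insert_erase (mem_filter.1 hD).2
  unfold dg
  have h4 : (((𝒟.filter (fun D => k ∉ D ∧ insert k D ∉ 𝒟)).card : ℝ) +
      (𝒟.filter (fun D => k ∉ D ∧ insert k D ∈ 𝒟)).card) =
      (𝒟.filter (fun D => ¬ k ∈ D)).card := by exact_mod_cast h2
  have h5 : ((𝒟.filter (fun D => k ∈ D)).card : ℝ) + (𝒟.filter (fun D => ¬ k ∈ D)).card =
      𝒟.card := by exact_mod_cast h1
  rw [h3] at h4
  linarith

theorem sum_leave {𝒟 : Finset (Finset α)} (h : Dn 𝒟) (N : Finset α) (c : α → ℝ) :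
    ∑ D ∈ 𝒟, ∑ k ∈ N.filter (fun k => k ∉ D ∧ insert k D ∉ 𝒟), c k =
      ∑ k ∈ N, c k * dg 𝒟 k := by
  have h4 : ∀ D ∈ 𝒟, ∑ k ∈ N.filter (fun k => k ∉ D ∧ insert k D ∉ 𝒟), c k =
      ∑ k ∈ N, if (k ∉ D ∧ insert k D ∉ 𝒟) then c k else 0 := by
    intro D _
    rw [sum_filter]
  rw [sum_congr rfl h4, sum_comm]
  refine sum_congr rfl fun k _ => ?_
  rw [← sum_filter, sum_const, nsmul_eq_mul, mul_comm, card_leave h]

/-- sufficient condition, from the library -/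
theorem fc_of_dg {F G : Finset (Finset α)} {S : Finset α} (hF : ∀ A ∈ F, ∀ B ∈ F, A ∪ B ∈ F)
    (hGS : ∀ B ∈ G, B ⊆ S) (hGF : G ⊆ F) {c : α → ℝ} (hc0 : ∀ x, 0 ≤ c x)
    (hpos : ∃ x ∈ S, 0 < c x)
    (hc : ∀ x ∈ S, ∀ 𝒟 : Finset (Finset α), Dn 𝒟 → (∀ D ∈ 𝒟, D ⊆ S.erase x) →
      (∀ D ∈ 𝒟, ∀ B ∈ G, x ∈ B → ¬ B.erase x ⊆ D) →
      c x * (𝒟.card : ℝ) ≤ ∑ k ∈ S.erase x, c k * dg 𝒟 k) :
    ∃ x ∈ S, F.card ≤ 2 * (F.filter (fun A => x ∈ A)).card := by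
  refine Pool.Agent.N188.FC.fc_of_weights (G := G) hF hGS (fun A hA B hB => hF A hA B (hGF hB))
    hc0 hpos ?_
  intro x hx 𝒟 hv
  have h1 := hc x hx 𝒟 hv.2.1 hv.1 (fun D hD B hB hxB hBD => hv.2.2 D hD B hB hxB (by
    rw [← insert_erase hxB]
    exact insert_subset_insert _ hBD))
  rw [← sum_leave hv.2.1] at h1
  convert h1

/-- necessary condition, from the library -/
theorem dg_of_fc [Infinite α] {G : Finset (Finset α)} {S : Finset α} (hG : ∀ B ∈ G, B ⊆ S)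
    (hFC : ∀ F : Finset (Finset α), (∀ A ∈ F, ∀ B ∈ F, A ∪ B ∈ F) → G ⊆ F →
      ∃ x ∈ S, F.card ≤ 2 * (F.filter (fun A => x ∈ A)).card) :
    ∃ c : α → ℝ, (∀ x, 0 ≤ c x) ∧ (∃ x ∈ S, 0 < c x) ∧
      ∀ x ∈ S, ∀ 𝒟 : Finset (Finset α), Dn 𝒟 → (∀ D ∈ 𝒟, D ⊆ S.erase x) →
      (∀ D ∈ 𝒟, ∀ B ∈ G, x ∈ B → ¬ B.erase x ⊆ D) →
      c x * (𝒟.card : ℝ) ≤ ∑ k ∈ S.erase x, c k * dg 𝒟 k := by
  obtain ⟨c, h0, h1, h2⟩ := Pool.Agent.N188.FC.weights_of_fc hG hFC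
  refine ⟨c, h0, h1, fun x hx 𝒟 hd hs hv => ?_⟩
  have h3 := h2 x hx 𝒟 ⟨hs, hd, fun D hD B hB hxB hBD => hv D hD B hB hxB (by
    have hxD : x ∉ D := fun h => notMem_erase x S (hs D hD h)
    rw [← erase_insert hxD]
    exact erase_subset_erase _ hBD)⟩
  rw [← sum_leave hd]
  convert h3

end Pool.Agent.H61.FC
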