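import Mathlib

set_option autoImplicit false

/-!
# Local inequalities for families closed under taking subsets

`dg 𝒟 k = |𝒟| - 2 |{D ∈ 𝒟 : k ∈ D}|` is the number of the edges of direction `k` which leave `𝒟`.
-/

namespace Pool.Agent.H61.FC

open Finset

variable {α : Type*} [DecidableEq α]

/-- closed under taking subsets -/
def Dn (𝒟 : Finset (Finset α)) : Prop := ∀ D ∈ 𝒟, ∀ D' ⊆ D, D' ∈ 𝒟

/-- the number of the edges of direction `k` leaving `𝒟` -/
def dg (𝒟 : Finset (Finset α)) (k : α) : ℝ :=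
  (𝒟.card : ℝ) - 2 * ((𝒟.filter (fun D => k ∈ D)).card : ℝ)

theorem filter_erase_card_le {𝒟 : Finset (Finset α)} (h : Dn 𝒟) (k : α) (P : Finset α → Prop)
    [DecidablePred P] (hP : ∀ D, P D → P (D.erase k)) :
    (𝒟.filter (fun D => k ∈ D ∧ P D)).card ≤ (𝒟.filter (fun D => k ∉ D ∧ P D)).card := by
  refine card_le_card_of_injOn (fun D => D.erase k) ?_ ?_
  · intro D hD
    have hD' := Finset.mem_coe.1 hD
    rw [mem_filter] at hD'
    refine Finset.mem_coe.2 (mem_filter.2 ⟨h D hD'.1 _ (erase_subset _ _), ?_, hP D hD'.2.2⟩)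
    exact notMem_erase k D
  · intro D hD D' hD' hDD
    have h1 := (mem_filter.1 (Finset.mem_coe.1 hD)).2.1
    have h2 := (mem_filter.1 (Finset.mem_coe.1 hD')).2.1
    have h3 : D.erase k = D'.erase k := hDD
    rw [← insert_erase h1, ← insert_erase h2, h3]

theorem dg_nonneg {𝒟 : Finset (Finset α)} (h : Dn 𝒟) (k : α) : 0 ≤ dg 𝒟 k := by
  have h1 := filter_erase_card_le h k (fun _ => True) (fun _ _ => trivial)
  have h2 : (𝒟.filter (fun D => k ∈ D)).card + (𝒟.filter (fun D => ¬ k ∈ D)).card = 𝒟.card :=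
    card_filter_add_card_filter_not (fun D => k ∈ D)
  simp only [and_true] at h1
  unfold dg
  have h3 : ((𝒟.filter (fun D => k ∈ D)).card : ℝ) ≤ ((𝒟.filter (fun D => ¬ k ∈ D)).card : ℝ) := by
    exact_mod_cast h1
  have h4 : ((𝒟.filter (fun D => k ∈ D)).card : ℝ) + ((𝒟.filter (fun D => ¬ k ∈ D)).card : ℝ) =
      (𝒟.card : ℝ) := by exact_mod_cast h2
  linarith

/-- counts of traces on 2 elements -/
def q2 (𝒟 : Finset (Finset α)) (a b : α) (x : Bool × Bool) : ℕ :=
  (𝒟.filter (fun D => (decide (a ∈ D), decide (b ∈ D)) = x)).card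

theorem q2_sumP (𝒟 : Finset (Finset α)) (a b : α) (P : Bool × Bool → Prop)
    [DecidablePred P] :
    (𝒟.filter (fun D => P (decide (a ∈ D), decide (b ∈ D)))).card =
      ∑ x, if P x then q2 𝒟 a b x else 0 := by
  rw [card_eq_sum_card_fiberwise (f := fun D =>
    (decide (a ∈ D), decide (b ∈ D))) (t := univ)
    (fun _ _ => by simp)]
  refine sum_congr rfl fun x _ => ?_
  unfold q2
  split_ifs with h
  · congr 1
    ext D
    simp only [mem_filter]
    constructor
    · rintro ⟨⟨h1, _⟩, h3⟩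
      exact ⟨h1, h3⟩
    · rintro ⟨h1, h3⟩
      exact ⟨⟨h1, by rw [h3]; exact h⟩, h3⟩
  · rw [card_eq_zero, filter_eq_empty_iff]
    intro D hD h3
    exact h (by rw [← h3]; exact (mem_filter.1 hD).2)

theorem q2_zero {𝒟 : Finset (Finset α)} {a b : α} {x : Bool × Bool}
    (h : ∀ D ∈ 𝒟, (decide (a ∈ D), decide (b ∈ D)) ≠ x) :
    q2 𝒟 a b x = 0 := by
  unfold q2
  rw [card_eq_zero, filter_eq_empty_iff]
  exact h

theorem q2_mono1 {𝒟 : Finset (Finset α)} (h : Dn 𝒟) {a b : α} (hab : a ≠ b)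
    (y : Bool) : q2 𝒟 a b (true, y) ≤ q2 𝒟 a b (false, y) := by
  have h1 := filter_erase_card_le h a (fun D => decide (b ∈ D) = y) (fun D hD => by
      simp only [mem_erase, ne_eq, hab.symm, not_false_eq_true, true_and]
      exact hD)
  refine le_trans (le_of_eq ?_) (h1.trans (le_of_eq ?_)) <;>
  · unfold q2
    congr 1
    ext D
    simp only [mem_filter, Prod.mk.injEq, decide_eq_true_eq, decide_eq_false_iff_not]
    try tauto

theorem q2_mono2 {𝒟 : Finset (Finset α)} (h : Dn 𝒟) {a b : α} (hab : a ≠ b)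
    (x : Bool) : q2 𝒟 a b (x, true) ≤ q2 𝒟 a b (x, false) := by
  have h1 := filter_erase_card_le h b (fun D => decide (a ∈ D) = x) (fun D hD => by
      simp only [mem_erase, ne_eq, hab, not_false_eq_true, true_and]
      exact hD)
  refine le_trans (le_of_eq ?_) (h1.trans (le_of_eq ?_)) <;>
  · unfold q2
    congr 1
    ext D
    simp only [mem_filter, Prod.mk.injEq, decide_eq_true_eq, decide_eq_false_iff_not]
    try tauto

/-- counts of traces on 3 elements -/
def q3 (𝒟 : Finset (Finset α)) (a b c : α) (x : Bool × Bool × Bool) : ℕ :=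
  (𝒟.filter (fun D => (decide (a ∈ D), decide (b ∈ D), decide (c ∈ D)) = x)).card

theorem q3_sumP (𝒟 : Finset (Finset α)) (a b c : α) (P : Bool × Bool × Bool → Prop)
    [DecidablePred P] :
    (𝒟.filter (fun D => P (decide (a ∈ D), decide (b ∈ D), decide (c ∈ D)))).card =
      ∑ x, if P x then q3 𝒟 a b c x else 0 := by
  rw [card_eq_sum_card_fiberwise (f := fun D =>
    (decide (a ∈ D), decide (b ∈ D), decide (c ∈ D))) (t := univ)
    (fun _ _ => by simp)]
  refine sum_congr rfl fun x _ => ?_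
  unfold q3
  split_ifs with h
  · congr 1
    ext D
    simp only [mem_filter]
    constructor
    · rintro ⟨⟨h1, _⟩, h3⟩
      exact ⟨h1, h3⟩
    · rintro ⟨h1, h3⟩
      exact ⟨⟨h1, by rw [h3]; exact h⟩, h3⟩
  · rw [card_eq_zero, filter_eq_empty_iff]
    intro D hD h3
    exact h (by rw [← h3]; exact (mem_filter.1 hD).2)

theorem q3_zero {𝒟 : Finset (Finset α)} {a b c : α} {x : Bool × Bool × Bool}
    (h : ∀ D ∈ 𝒟, (decide (a ∈ D), decide (b ∈ D), decide (c ∈ D)) ≠ x) :
    q3 𝒟 a b c x = 0 := by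
  unfold q3
  rw [card_eq_zero, filter_eq_empty_iff]
  exact h

theorem q3_mono1 {𝒟 : Finset (Finset α)} (h : Dn 𝒟) {a b c : α} (hab : a ≠ b) (hac : a ≠ c)
    (y z : Bool) : q3 𝒟 a b c (true, y, z) ≤ q3 𝒟 a b c (false, y, z) := by
  have h1 := filter_erase_card_le h a (fun D => decide (b ∈ D) = y ∧ decide (c ∈ D) = z) (fun D hD => by
      simp only [mem_erase, ne_eq, hab.symm, hac.symm, not_false_eq_true, true_and]
      exact hD)
  refine le_trans (le_of_eq ?_) (h1.trans (le_of_eq ?_)) <;>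
  · unfold q3
    congr 1
    ext D
    simp only [mem_filter, Prod.mk.injEq, decide_eq_true_eq, decide_eq_false_iff_not]
    try tauto

theorem q3_mono2 {𝒟 : Finset (Finset α)} (h : Dn 𝒟) {a b c : α} (hab : a ≠ b) (hbc : b ≠ c)
    (x z : Bool) : q3 𝒟 a b c (x, true, z) ≤ q3 𝒟 a b c (x, false, z) := by
  have h1 := filter_erase_card_le h b (fun D => decide (a ∈ D) = x ∧ decide (c ∈ D) = z) (fun D hD => by
      simp only [mem_erase, ne_eq, hab, hbc.symm, not_false_eq_true, true_and]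
      exact hD)
  refine le_trans (le_of_eq ?_) (h1.trans (le_of_eq ?_)) <;>
  · unfold q3
    congr 1
    ext D
    simp only [mem_filter, Prod.mk.injEq, decide_eq_true_eq, decide_eq_false_iff_not]
    try tauto

theorem q3_mono3 {𝒟 : Finset (Finset α)} (h : Dn 𝒟) {a b c : α} (hac : a ≠ c) (hbc : b ≠ c)
    (x y : Bool) : q3 𝒟 a b c (x, y, true) ≤ q3 𝒟 a b c (x, y, false) := by
  have h1 := filter_erase_card_le h c (fun D => decide (a ∈ D) = x ∧ decide (b ∈ D) = y) (fun D hD => by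
      simp only [mem_erase, ne_eq, hac, hbc, not_false_eq_true, true_and]
      exact hD)
  refine le_trans (le_of_eq ?_) (h1.trans (le_of_eq ?_)) <;>
  · unfold q3
    congr 1
    ext D
    simp only [mem_filter, Prod.mk.injEq, decide_eq_true_eq, decide_eq_false_iff_not]
    try tauto

/-- counts of traces on 4 elements -/
def q4 (𝒟 : Finset (Finset α)) (a b c d : α) (x : Bool × Bool × Bool × Bool) : ℕ :=
  (𝒟.filter (fun D => (decide (a ∈ D), decide (b ∈ D), decide (c ∈ D), decide (d ∈ D)) = x)).card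

theorem q4_sumP (𝒟 : Finset (Finset α)) (a b c d : α) (P : Bool × Bool × Bool × Bool → Prop)
    [DecidablePred P] :
    (𝒟.filter (fun D => P (decide (a ∈ D), decide (b ∈ D), decide (c ∈ D), decide (d ∈ D)))).card =
      ∑ x, if P x then q4 𝒟 a b c d x else 0 := by
  rw [card_eq_sum_card_fiberwise (f := fun D =>
    (decide (a ∈ D), decide (b ∈ D), decide (c ∈ D), decide (d ∈ D))) (t := univ)
    (fun _ _ => by simp)]
  refine sum_congr rfl fun x _ => ?_
  unfold q4
  split_ifs with h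
  · congr 1
    ext D
    simp only [mem_filter]
    constructor
    · rintro ⟨⟨h1, _⟩, h3⟩
      exact ⟨h1, h3⟩
    · rintro ⟨h1, h3⟩
      exact ⟨⟨h1, by rw [h3]; exact h⟩, h3⟩
  · rw [card_eq_zero, filter_eq_empty_iff]
    intro D hD h3
    exact h (by rw [← h3]; exact (mem_filter.1 hD).2)

theorem q4_zero {𝒟 : Finset (Finset α)} {a b c d : α} {x : Bool × Bool × Bool × Bool}
    (h : ∀ D ∈ 𝒟, (decide (a ∈ D), decide (b ∈ D), decide (c ∈ D), decide (d ∈ D)) ≠ x) :
    q4 𝒟 a b c d x = 0 := by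
  unfold q4
  rw [card_eq_zero, filter_eq_empty_iff]
  exact h

theorem q4_mono1 {𝒟 : Finset (Finset α)} (h : Dn 𝒟) {a b c d : α} (hab : a ≠ b) (hac : a ≠ c) (had : a ≠ d)
    (y z w : Bool) : q4 𝒟 a b c d (true, y, z, w) ≤ q4 𝒟 a b c d (false, y, z, w) := by
  have h1 := filter_erase_card_le h a (fun D => decide (b ∈ D) = y ∧ decide (c ∈ D) = z ∧ decide (d ∈ D) = w) (fun D hD => by
      simp only [mem_erase, ne_eq, hab.symm, hac.symm, had.symm, not_false_eq_true, true_and]
      exact hD)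
  refine le_trans (le_of_eq ?_) (h1.trans (le_of_eq ?_)) <;>
  · unfold q4
    congr 1
    ext D
    simp only [mem_filter, Prod.mk.injEq, decide_eq_true_eq, decide_eq_false_iff_not]
    try tauto

theorem q4_mono2 {𝒟 : Finset (Finset α)} (h : Dn 𝒟) {a b c d : α} (hab : a ≠ b) (hbc : b ≠ c) (hbd : b ≠ d)
    (x z w : Bool) : q4 𝒟 a b c d (x, true, z, w) ≤ q4 𝒟 a b c d (x, false, z, w) := by
  have h1 := filter_erase_card_le h b (fun D => decide (a ∈ D) = x ∧ decide (c ∈ D) = z ∧ decide (d ∈ D) = w) (fun D hD => by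
      simp only [mem_erase, ne_eq, hab, hbc.symm, hbd.symm, not_false_eq_true, true_and]
      exact hD)
  refine le_trans (le_of_eq ?_) (h1.trans (le_of_eq ?_)) <;>
  · unfold q4
    congr 1
    ext D
    simp only [mem_filter, Prod.mk.injEq, decide_eq_true_eq, decide_eq_false_iff_not]
    try tauto

theorem q4_mono3 {𝒟 : Finset (Finset α)} (h : Dn 𝒟) {a b c d : α} (hac : a ≠ c) (hbc : b ≠ c) (hcd : c ≠ d)
    (x y w : Bool) : q4 𝒟 a b c d (x, y, true, w) ≤ q4 𝒟 a b c d (x, y, false, w) := by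
  have h1 := filter_erase_card_le h c (fun D => decide (a ∈ D) = x ∧ decide (b ∈ D) = y ∧ decide (d ∈ D) = w) (fun D hD => by
      simp only [mem_erase, ne_eq, hac, hbc, hcd.symm, not_false_eq_true, true_and]
      exact hD)
  refine le_trans (le_of_eq ?_) (h1.trans (le_of_eq ?_)) <;>
  · unfold q4
    congr 1
    ext D
    simp only [mem_filter, Prod.mk.injEq, decide_eq_true_eq, decide_eq_false_iff_not]
    try tauto

theorem q4_mono4 {𝒟 : Finset (Finset α)} (h : Dn 𝒟) {a b c d : α} (had : a ≠ d) (hbd : b ≠ d) (hcd : c ≠ d)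
    (x y z : Bool) : q4 𝒟 a b c d (x, y, z, true) ≤ q4 𝒟 a b c d (x, y, z, false) := by
  have h1 := filter_erase_card_le h d (fun D => decide (a ∈ D) = x ∧ decide (b ∈ D) = y ∧ decide (c ∈ D) = z) (fun D hD => by
      simp only [mem_erase, ne_eq, had, hbd, hcd, not_false_eq_true, true_and]
      exact hD)
  refine le_trans (le_of_eq ?_) (h1.trans (le_of_eq ?_)) <;>
  · unfold q4
    congr 1
    ext D
    simp only [mem_filter, Prod.mk.injEq, decide_eq_true_eq, decide_eq_false_iff_not]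
    try tauto

end Pool.Agent.H61.FC
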