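import Pool.Agent.H61.Cfg

set_option autoImplicit false
set_option linter.all false

/-!
# Three triples through an element force a frequent element
-/

namespace Pool.Agent.H61.FC

open Finset

variable {α : Type*} [DecidableEq α]

theorem deg3_fc {F : Finset (Finset α)} (hF : ∀ A ∈ F, ∀ B ∈ F, A ∪ B ∈ F) {V : Finset α}
    (bad : ∀ x ∈ V, ¬ F.card ≤ 2 * (F.filter (fun A => x ∈ A)).card) {x : α}
    {T₁ T₂ T₃ : Finset α} (h1 : T₁ ∈ F) (h2 : T₂ ∈ F) (h3 : T₃ ∈ F) (c1 : T₁.card = 3)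
    (c2 : T₂.card = 3) (c3 : T₃.card = 3) (v1 : T₁ ⊆ V) (v2 : T₂ ⊆ V) (v3 : T₃ ⊆ V)
    (x1 : x ∈ T₁) (x2 : x ∈ T₂) (x3 : x ∈ T₃) (n12 : T₁ ≠ T₂) (n13 : T₁ ≠ T₃) (n23 : T₂ ≠ T₃) :
    False := by
  set H : Finset (Finset α) := {T₁, T₂, T₃} with hH
  have hHF : ∀ T ∈ H, T ∈ F := by
    intro T hT
    simp only [hH, mem_insert, mem_singleton] at hT
    rcases hT with rfl | rfl | rfl <;> assumption
  have hHV : ∀ T ∈ H, T ⊆ V := by
    intro T hT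
    simp only [hH, mem_insert, mem_singleton] at hT
    rcases hT with rfl | rfl | rfl <;> assumption
  have m1 : T₁ ∈ H := by simp [hH]
  have m2 : T₂ ∈ H := by simp [hH]
  have m3 : T₃ ∈ H := by simp [hH]
  clear_value H
  obtain ⟨y, z, hy, hz, hyz, e1⟩ := exists_tri c1 x1
  obtain ⟨y', z', hy', hz', hyz', e2⟩ := exists_tri c2 x2
  obtain ⟨y'', z'', hy'', hz'', hyz'', e3⟩ := exists_tri c3 x3
  have L1 : LE H x y z := ⟨e1 ▸ m1, hy, hz, hyz⟩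
  have L2 : LE H x y' z' := ⟨e2 ▸ m2, hy', hz', hyz'⟩
  have L3 : LE H x y'' z'' := ⟨e3 ▸ m3, hy'', hz'', hyz''⟩
  have hV : ∀ {a b : α}, LE H x a b → x ∈ V ∧ a ∈ V ∧ b ∈ V := by
    intro a b l
    have := hHV _ l.1
    simp only [insert_subset_iff, singleton_subset_iff] at this
    exact this
  have fin : ∀ {S : Finset α}, S ⊆ V →
      (∃ x ∈ S, F.card ≤ 2 * (F.filter (fun A => x ∈ A)).card) → False := by
    rintro S hS ⟨x, hx, h⟩
    exact bad x (hS hx) h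
  rcases pattern3 L1 L2 L3 (by rw [← e1, ← e2]; exact n12) (by rw [← e1, ← e3]; exact n13)
    (by rw [← e2, ← e3]; exact n23) with hc | hc | hc | hc | hc
  · obtain ⟨⟨a1, a2, a3, a4⟩, ⟨b1, b2, b3, b4⟩, ⟨d1, d2, d3, d4⟩⟩ := hc
    refine fin ?_ (cfg_sun3 hF (v0 := x) (v1 := y) (v2 := z) (v3 := y') (v4 := z') (v5 := y'')
      (v6 := z'') ?_ (hHF _ L1.1) (hHF _ L2.1) (hHF _ L3.1))
    · simp only [insert_subset_iff, singleton_subset_iff]
      exact ⟨(hV L1).1, (hV L1).2.1, (hV L1).2.2, (hV L2).2.1, (hV L2).2.2, (hV L3).2.1,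
        (hV L3).2.2⟩
    · simp only [List.nodup_cons, List.mem_cons, List.not_mem_nil, not_or, not_false_eq_true,
        and_true, or_false, List.nodup_nil]
      exact ⟨⟨hy.symm, hz.symm, hy'.symm, hz'.symm, hy''.symm, hz''.symm⟩,
        ⟨hyz, a1, a2, b1, b2⟩, ⟨a3, a4, b3, b4⟩, ⟨hyz', d1, d2⟩, ⟨d3, d4⟩, hyz''⟩
  · obtain ⟨a, b, d, e, f, l1, l2, l3, bd, ae, af, be, bf, de, df⟩ := hc
    refine fin ?_ (cfg_p3k2 hF (v0 := x) (v1 := a) (v2 := b) (v3 := d) (v4 := e) (v5 := f)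
      ?_ (hHF _ l1.1) (hHF _ l2.1) (hHF _ l3.1))
    · simp only [insert_subset_iff, singleton_subset_iff]
      exact ⟨(hV l1).1, (hV l1).2.1, (hV l1).2.2, (hV l2).2.2, (hV l3).2.1, (hV l3).2.2⟩
    · simp only [List.nodup_cons, List.mem_cons, List.not_mem_nil, not_or, not_false_eq_true,
        and_true, or_false, List.nodup_nil]
      exact ⟨⟨l1.2.1.symm, l1.2.2.1.symm, l2.2.2.1.symm, l3.2.1.symm, l3.2.2.1.symm⟩,
        ⟨l1.2.2.2, l2.2.2.2, ae, af⟩, ⟨bd, be, bf⟩, ⟨de, df⟩, l3.2.2.2⟩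
  · obtain ⟨a, b, d, e, l1, l2, l3, bd, be, de⟩ := hc
    refine fin ?_ (cfg_k13 hF (v0 := x) (v1 := a) (v2 := b) (v3 := d) (v4 := e)
      ?_ (hHF _ l1.1) (hHF _ l2.1) (hHF _ l3.1))
    · simp only [insert_subset_iff, singleton_subset_iff]
      exact ⟨(hV l1).1, (hV l1).2.1, (hV l1).2.2, (hV l2).2.2, (hV l3).2.2⟩
    · simp only [List.nodup_cons, List.mem_cons, List.not_mem_nil, not_or, not_false_eq_true,
        and_true, or_false, List.nodup_nil]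
      exact ⟨⟨l1.2.1.symm, l1.2.2.1.symm, l2.2.2.1.symm, l3.2.2.1.symm⟩,
        ⟨l1.2.2.2, l2.2.2.2, l3.2.2.2⟩, ⟨bd, be⟩, de⟩
  · obtain ⟨b, a, d, f, l1, l2, l3, bd, bf, af⟩ := hc
    refine fin ?_ (cfg_lp4 hF (v0 := x) (v1 := b) (v2 := a) (v3 := d) (v4 := f)
      ?_ (hHF _ l1.1) (hHF _ l2.1) (hHF _ l3.1))
    · simp only [insert_subset_iff, singleton_subset_iff]
      exact ⟨(hV l1).1, (hV l1).2.1, (hV l1).2.2, (hV l2).2.2, (hV l3).2.2⟩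
    · simp only [List.nodup_cons, List.mem_cons, List.not_mem_nil, not_or, not_false_eq_true,
        and_true, or_false, List.nodup_nil]
      exact ⟨⟨l1.2.1.symm, l1.2.2.1.symm, l2.2.2.1.symm, l3.2.2.1.symm⟩,
        ⟨l1.2.2.2, bd, bf⟩, ⟨l2.2.2.2, af⟩, l3.2.2.2⟩
  · obtain ⟨a, b, d, l1, l2, l3⟩ := hc
    refine fin ?_ (cfg_k3 hF (v0 := x) (v1 := a) (v2 := b) (v3 := d)
      ?_ (hHF _ l1.1) (hHF _ l2.1) (hHF _ l3.1))
    · simp only [insert_subset_iff, singleton_subset_iff]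
      exact ⟨(hV l1).1, (hV l1).2.1, (hV l1).2.2, (hV l2).2.2⟩
    · simp only [List.nodup_cons, List.mem_cons, List.not_mem_nil, not_or, not_false_eq_true,
        and_true, or_false, List.nodup_nil]
      exact ⟨⟨l1.2.1.symm, l1.2.2.1.symm, l2.2.2.1.symm⟩, ⟨l1.2.2.2, l2.2.2.2⟩, l3.2.2.2⟩

end Pool.Agent.H61.FC
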