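import Pool.Graph.R_seed8.W212.EFF.Ineq

/-!
A `t`-cover-free family whose members satisfy a nontrivial linear relation lives on at least
`(t+1)^2` points.
-/

set_option autoImplicit false
set_option linter.unusedSectionVars false

namespace Pool.Agent.H61.EFF2

open Finset Pool.Agent.W212.EFF

variable {V : Type*} [DecidableEq V]

/-- a cover of `C ⊆ A` by faces of the complex generated by `Q` and the points is converted into a
cover by members of `Q`, provided that `Q` covers `A`. -/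
lemma cov_conv {Q : Finset (Finset V)} {A : Finset V}
    (hpriv : ∀ x ∈ A, ∃ B ∈ Q, x ∈ B) : ∀ {k : ℕ} {C : Finset V}, C ⊆ A →
    Cov (face Q id) k C → ∃ G ⊆ Q, G.card ≤ k ∧ C ⊆ G.sup id
  | 0, C, _, h => by
      simp only [Cov] at h
      subst h
      exact ⟨∅, by simp, by simp, by simp⟩
  | k + 1, C, hC, h => by
      classical
      obtain ⟨T, hT, h1⟩ := h
      obtain ⟨G, hG, hGc, hGs⟩ := cov_conv hpriv (Finset.sdiff_subset.trans hC) h1
      have hred : ∀ B ∈ Q, C ∩ T ⊆ B → ∃ G ⊆ Q, G.card ≤ k + 1 ∧ C ⊆ G.sup id := by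
        intro B hB hCB
        refine ⟨insert B G, Finset.insert_subset hB hG, (Finset.card_insert_le _ _).trans
          (by omega), ?_⟩
        intro x hx
        rw [Finset.sup_insert]
        by_cases hxT : x ∈ T
        · exact Finset.mem_union_left _ (hCB (Finset.mem_inter.2 ⟨hx, hxT⟩))
        · exact Finset.mem_union_right _ (hGs (Finset.mem_sdiff.2 ⟨hx, hxT⟩))
      rcases hT with hT | ⟨i, hiQ, hi⟩
      · by_cases hCT : (C ∩ T).Nonempty
        · obtain ⟨x, hx⟩ := hCT
          have hx' := Finset.mem_inter.1 hx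
          obtain ⟨B, hB, hxB⟩ := hpriv x (hC hx'.1)
          refine hred B hB ?_
          intro y hy
          have hy' := Finset.mem_inter.1 hy
          have := Finset.card_le_one.1 hT y hy'.2 x hx'.2
          rw [this]
          exact hxB
        · rw [Finset.not_nonempty_iff_eq_empty] at hCT
          refine ⟨G, hG, by omega, ?_⟩
          intro x hx
          apply hGs
          refine Finset.mem_sdiff.2 ⟨hx, fun hxT => ?_⟩
          have : x ∈ C ∩ T := Finset.mem_inter.2 ⟨hx, hxT⟩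
          rw [hCT] at this
          exact absurd this (Finset.notMem_empty x)
      · exact hred i hiQ (Finset.inter_subset_right.trans hi)

/-- one half of the argument. -/
lemma half {t : ℕ} {X : Finset V} {F P Q : Finset (Finset V)}
    (hX : ∀ A ∈ P, A ⊆ X)
    (hcf : ∀ A ∈ F, ∀ G ⊆ F.erase A, G.card ≤ t → ¬ A ⊆ G.sup id)
    (hP : P ⊆ F) (hQ : Q ⊆ F) (hPQ : Disjoint P Q) (a b : Finset V → ℝ)
    (ha : ∀ A ∈ P, 0 < a A) (hb : ∀ B ∈ Q, 0 ≤ b B)
    (heq : ∀ v, pw P id a v = pw Q id b v) :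
    ((t : ℝ) + 1) ^ 2 * ∑ A ∈ P, a A ≤ (∑ B ∈ Q, b B) * X.card := by
  classical
  have hpos : ∀ A ∈ P, ∀ v ∈ A, 0 < pw Q id b v := by
    intro A hA v hv
    rw [← heq v]
    unfold pw
    have h1 : a A ≤ ∑ i ∈ P.filter (fun i => v ∈ id i), a i :=
      Finset.single_le_sum (f := a) (fun i hi => (ha i (Finset.mem_filter.1 hi).1).le)
        (Finset.mem_filter.2 ⟨hA, hv⟩)
    exact lt_of_lt_of_le (ha A hA) h1
  have hWQ : 0 ≤ ∑ B ∈ Q, b B := Finset.sum_nonneg hb
  have key : ∀ A ∈ P, ((t : ℝ) + 1) ^ 2 ≤ (∑ B ∈ Q, b B) * ∑ v ∈ A, 1 / pw Q id b v := by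
    intro A hA
    have hY : t + 1 ≤ Y (face Q id) A := by
      by_contra hlt
      push Not at hlt
      have hpriv : ∀ x ∈ A, ∃ B ∈ Q, x ∈ B := by
        intro x hx
        have h0 := hpos A hA x hx
        unfold pw at h0
        obtain ⟨B, hB, _⟩ := Finset.exists_ne_zero_of_sum_ne_zero h0.ne'
        rw [Finset.mem_filter] at hB
        exact ⟨B, hB.1, hB.2⟩
      obtain ⟨G, hG, hGc, hGs⟩ := cov_conv hpriv (Finset.Subset.refl A)
        (Y_spec (face_cpx _ _) A)
      refine hcf A (hP hA) G ?_ (by omega) hGs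
      intro B hB
      refine Finset.mem_erase.2 ⟨?_, hQ (hG hB)⟩
      rintro rfl
      exact Finset.disjoint_left.1 hPQ hA (hG hB)
    have h1 := main_ineq (I := Q) (S := id) (w := b) hb A.card A (le_refl _) (hpos A hA)
    have h2 : ((t : ℝ) + 1) ^ 2 ≤ (Y (face Q id) A : ℝ) ^ 2 := by
      apply pow_le_pow_left₀ (by positivity)
      exact_mod_cast hY
    have h3 : tw Q id b A ≤ ∑ B ∈ Q, b B := by
      unfold tw
      exact Finset.sum_le_sum_of_subset_of_nonneg (Finset.filter_subset _ _)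
        (fun i hi _ => hb i hi)
    have h4 : 0 ≤ ∑ v ∈ A, 1 / pw Q id b v :=
      Finset.sum_nonneg fun v hv => (one_div_pos.2 (hpos A hA v hv)).le
    exact (h2.trans h1).trans (mul_le_mul_of_nonneg_right h3 h4)
  have hsum : ∑ A ∈ P, a A * ∑ v ∈ A, 1 / pw Q id b v ≤ X.card := by
    have e1 : ∑ A ∈ P, a A * ∑ v ∈ A, 1 / pw Q id b v
        = ∑ v ∈ X, ∑ A ∈ P.filter (fun i => v ∈ id i), a A * (1 / pw Q id b v) := by
      have : ∀ A ∈ P, a A * ∑ v ∈ A, 1 / pw Q id b v
          = ∑ v ∈ X, if v ∈ A then a A * (1 / pw Q id b v) else 0 := by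
        intro A hA
        rw [Finset.mul_sum, ← Finset.sum_filter, Finset.filter_mem_eq_inter,
          Finset.inter_eq_right.2 (hX A hA)]
      rw [Finset.sum_congr rfl this, Finset.sum_comm]
      refine Finset.sum_congr rfl fun v _ => ?_
      rw [Finset.sum_filter]
      rfl
    rw [e1]
    calc ∑ v ∈ X, ∑ A ∈ P.filter (fun i => v ∈ id i), a A * (1 / pw Q id b v)
        ≤ ∑ v ∈ X, (1 : ℝ) := by
          refine Finset.sum_le_sum fun v _ => ?_
          rw [← Finset.sum_mul]
          have h5 : ∑ A ∈ P.filter (fun i => v ∈ id i), a A = pw Q id b v := heq v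
          rw [h5]
          by_cases h6 : pw Q id b v = 0
          · rw [h6]; norm_num
          · rw [mul_one_div_cancel h6]
      _ = X.card := by simp
  calc ((t : ℝ) + 1) ^ 2 * ∑ A ∈ P, a A
      = ∑ A ∈ P, a A * ((t : ℝ) + 1) ^ 2 := by
        rw [mul_comm, Finset.sum_mul]
    _ ≤ ∑ A ∈ P, a A * ((∑ B ∈ Q, b B) * ∑ v ∈ A, 1 / pw Q id b v) :=
        Finset.sum_le_sum fun A hA => mul_le_mul_of_nonneg_left (key A hA) (ha A hA).le
    _ = (∑ B ∈ Q, b B) * ∑ A ∈ P, a A * ∑ v ∈ A, 1 / pw Q id b v := by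
        rw [Finset.mul_sum]
        exact Finset.sum_congr rfl fun A _ => by ring
    _ ≤ (∑ B ∈ Q, b B) * X.card := mul_le_mul_of_nonneg_left hsum hWQ

/-- **Main theorem.** If the members of a `t`-cover-free family of subsets of `X` satisfy a
nontrivial linear relation, then `X` has at least `(t+1)^2` points. -/
theorem dep_card {t : ℕ} {X : Finset V} {F : Finset (Finset V)}
    (hX : ∀ A ∈ F, A ⊆ X)
    (hcf : ∀ A ∈ F, ∀ G ⊆ F.erase A, G.card ≤ t → ¬ A ⊆ G.sup id)
    (c : Finset V → ℝ) (hc : ∃ A ∈ F, c A ≠ 0)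
    (hrel : ∀ v, ∑ A ∈ F.filter (fun A => v ∈ A), c A = 0) :
    (t + 1) ^ 2 ≤ X.card := by
  classical
  set P := F.filter (fun A => 0 < c A) with hPdef
  set Q := F.filter (fun A => c A < 0) with hQdef
  have hPF : P ⊆ F := Finset.filter_subset _ _
  have hQF : Q ⊆ F := Finset.filter_subset _ _
  have hPQ : Disjoint P Q := by
    rw [Finset.disjoint_left]
    intro A hA hB
    have h1 := (Finset.mem_filter.1 hA).2
    have h2 := (Finset.mem_filter.1 hB).2
    linarith
  have heq : ∀ v, pw P id c v = pw Q id (fun B => - c B) v := by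
    intro v
    have h1 := hrel v
    have h2 : ∑ A ∈ F.filter (fun A => v ∈ A), c A
        = pw P id c v - pw Q id (fun B => - c B) v := by
      unfold pw
      rw [Finset.sum_neg_distrib, sub_neg_eq_add, hPdef, hQdef, Finset.filter_filter,
        Finset.filter_filter, Finset.sum_filter, Finset.sum_filter, Finset.sum_filter,
        ← Finset.sum_add_distrib]
      refine Finset.sum_congr rfl fun A _ => ?_
      rcases lt_trichotomy (c A) 0 with h | h | h
      · have h' : ¬ 0 < c A := not_lt.2 h.le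
        by_cases hv : v ∈ A <;> simp [h, h', hv]
      · by_cases hv : v ∈ A <;> simp [h]
      · have h' : ¬ c A < 0 := not_lt.2 h.le
        by_cases hv : v ∈ A <;> simp [h, h', hv]
    linarith
  have hne : ∀ A ∈ F, A.Nonempty := by
    intro A hA
    rw [Finset.nonempty_iff_ne_empty]
    intro hA0
    apply hcf A hA ∅ (Finset.empty_subset _) (by simp)
    rw [hA0]
    exact Finset.empty_subset _
  have hPpos : ∀ A ∈ P, 0 < c A := fun A hA => (Finset.mem_filter.1 hA).2
  have hQpos : ∀ B ∈ Q, 0 < - c B := fun B hB => by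
    have := (Finset.mem_filter.1 hB).2
    linarith
  have h1 := half (t := t) (X := X) (F := F) (P := P) (Q := Q) (fun A hA => hX A (hPF hA)) hcf
    hPF hQF hPQ c (fun B => - c B) hPpos (fun B hB => (hQpos B hB).le) heq
  have h2 := half (t := t) (X := X) (F := F) (P := Q) (Q := P) (fun A hA => hX A (hQF hA)) hcf
    hQF hPF hPQ.symm (fun B => - c B) c hQpos (fun B hB => (hPpos B hB).le)
    (fun v => (heq v).symm)
  -- at least one of the two weights is positive, hence both are
  have hW : 0 < (∑ A ∈ P, c A) + ∑ B ∈ Q, - c B := by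
    obtain ⟨A, hA, hcA⟩ := hc
    have hP0 : 0 ≤ ∑ A ∈ P, c A := Finset.sum_nonneg fun A hA => (hPpos A hA).le
    have hQ0 : 0 ≤ ∑ B ∈ Q, - c B := Finset.sum_nonneg fun A hA => (hQpos A hA).le
    rcases lt_or_gt_of_ne hcA with h | h
    · have hAQ : A ∈ Q := Finset.mem_filter.2 ⟨hA, h⟩
      have : 0 < ∑ B ∈ Q, - c B := Finset.sum_pos hQpos ⟨A, hAQ⟩
      linarith
    · have hAP : A ∈ P := Finset.mem_filter.2 ⟨hA, h⟩
      have : 0 < ∑ A ∈ P, c A := Finset.sum_pos hPpos ⟨A, hAP⟩
      linarith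
  have h3 : ((t : ℝ) + 1) ^ 2 * ((∑ A ∈ P, c A) + ∑ B ∈ Q, - c B)
      ≤ ((∑ A ∈ P, c A) + ∑ B ∈ Q, - c B) * X.card := by
    nlinarith [h1, h2]
  have h4 : ((t : ℝ) + 1) ^ 2 ≤ X.card := by
    by_contra hlt
    push Not at hlt
    nlinarith [mul_pos hW (sub_pos.2 hlt)]
  exact_mod_cast h4

end Pool.Agent.H61.EFF2
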