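import Pool.Agent.H61.Deg3

set_option autoImplicit false
set_option linter.all false

/-!
# The components of the families of triples which force nothing
-/

namespace Pool.Agent.H61.FC

open Finset

variable {α : Type*} [DecidableEq α]

/-- the seven types of components: loose paths with one to four triples, and such paths with two to
four triples whose last two triples share two elements -/
inductive Ty : Finset (Finset α) → Prop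
  | p1 (v0 v1 v2 : α) (h : [v0, v1, v2].Nodup) : Ty {{v0, v1, v2}}
  | p2 (v0 v1 v2 v3 v4 : α) (h : [v0, v1, v2, v3, v4].Nodup) : Ty {{v0, v1, v2}, {v2, v3, v4}}
  | p3 (v0 v1 v2 v3 v4 v5 v6 : α) (h : [v0, v1, v2, v3, v4, v5, v6].Nodup) : Ty {{v0, v1, v2}, {v2, v3, v4}, {v4, v5, v6}}
  | p4 (v0 v1 v2 v3 v4 v5 v6 v7 v8 : α) (h : [v0, v1, v2, v3, v4, v5, v6, v7, v8].Nodup) : Ty {{v0, v1, v2}, {v2, v3, v4}, {v4, v5, v6}, {v6, v7, v8}}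
  | q2 (v0 v1 v2 v3 : α) (h : [v0, v1, v2, v3].Nodup) : Ty {{v0, v1, v2}, {v1, v2, v3}}
  | q3 (v0 v1 v2 v3 v4 v5 : α) (h : [v0, v1, v2, v3, v4, v5].Nodup) : Ty {{v0, v1, v2}, {v2, v3, v4}, {v3, v4, v5}}
  | q4 (v0 v1 v2 v3 v4 v5 v6 v7 : α) (h : [v0, v1, v2, v3, v4, v5, v6, v7].Nodup) : Ty {{v0, v1, v2}, {v2, v3, v4}, {v4, v5, v6}, {v5, v6, v7}}

theorem swap2 {β : Type*} [DecidableEq β] (a b : β) : ({a, b} : Finset β) = {b, a} := pair_comm a b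

theorem fperm_10 {β : Type*} [DecidableEq β] (a b : β) :
    ({b, a} : Finset β) = {a, b} := by
  ext t; simp only [mem_insert, mem_singleton]; tauto

theorem fperm_210 {β : Type*} [DecidableEq β] (a b c : β) :
    ({c, b, a} : Finset β) = {a, b, c} := by
  ext t; simp only [mem_insert, mem_singleton]; tauto

theorem fperm_120 {β : Type*} [DecidableEq β] (a b c : β) :
    ({b, c, a} : Finset β) = {a, b, c} := by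
  ext t; simp only [mem_insert, mem_singleton]; tauto

theorem fperm_3210 {β : Type*} [DecidableEq β] (a b c d : β) :
    ({d, c, b, a} : Finset β) = {a, b, c, d} := by
  ext t; simp only [mem_insert, mem_singleton]; tauto

theorem fperm_1230 {β : Type*} [DecidableEq β] (a b c d : β) :
    ({b, c, d, a} : Finset β) = {a, b, c, d} := by
  ext t; simp only [mem_insert, mem_singleton]; tauto

theorem fperm_021 {β : Type*} [DecidableEq β] (a b c : β) :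
    ({a, c, b} : Finset β) = {a, b, c} := by
  ext t; simp only [mem_insert, mem_singleton]; tauto

theorem ext_p1_0 {F : Finset (Finset α)} (hF : ∀ A ∈ F, ∀ B ∈ F, A ∪ B ∈ F) {V : Finset α}
    (bad : ∀ x ∈ V, ¬ F.card ≤ 2 * (F.filter (fun A => x ∈ A)).card)
    {v0 v1 v2 u w : α} (nd : [v0, v1, v2, u, w].Nodup)
    (t0 : ({v0, v1, v2} : Finset α) ∈ F)
    (tt : ({v0, u, w} : Finset α) ∈ F)
    (hV : ∀ x ∈ ({v0, v1, v2, u, w} : Finset α), x ∈ V)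
    : Ty (insert {v0, u, w} ({{v0, v1, v2}} : Finset (Finset α))) := by
  simp only [List.nodup_cons, List.mem_cons, List.not_mem_nil, not_or, not_false_eq_true,
    and_true, or_false, List.nodup_nil] at nd
  obtain ⟨⟨n_v0_v1, n_v0_v2, n_v0_u, n_v0_w⟩, ⟨n_v1_v2, n_v1_u, n_v1_w⟩, ⟨n_v2_u, n_v2_w⟩, n_u_w⟩ := nd
  replace n_v0_v1 : v0 ≠ v1 := n_v0_v1
  have n_v1_v0 : v1 ≠ v0 := n_v0_v1.symm
  replace n_v0_v2 : v0 ≠ v2 := n_v0_v2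
  have n_v2_v0 : v2 ≠ v0 := n_v0_v2.symm
  replace n_v0_u : v0 ≠ u := n_v0_u
  have n_u_v0 : u ≠ v0 := n_v0_u.symm
  replace n_v0_w : v0 ≠ w := n_v0_w
  have n_w_v0 : w ≠ v0 := n_v0_w.symm
  replace n_v1_v2 : v1 ≠ v2 := n_v1_v2
  have n_v2_v1 : v2 ≠ v1 := n_v1_v2.symm
  replace n_v1_u : v1 ≠ u := n_v1_u
  have n_u_v1 : u ≠ v1 := n_v1_u.symm
  replace n_v1_w : v1 ≠ w := n_v1_w
  have n_w_v1 : w ≠ v1 := n_v1_w.symm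
  replace n_v2_u : v2 ≠ u := n_v2_u
  have n_u_v2 : u ≠ v2 := n_v2_u.symm
  replace n_v2_w : v2 ≠ w := n_v2_w
  have n_w_v2 : w ≠ v2 := n_v2_w.symm
  replace n_u_w : u ≠ w := n_u_w
  have n_w_u : w ≠ u := n_u_w.symm
  have w_v0 : v0 ∈ V := hV _ (by simp only [mem_insert, mem_singleton, true_or, or_true])
  have w_v1 : v1 ∈ V := hV _ (by simp only [mem_insert, mem_singleton, true_or, or_true])
  have w_v2 : v2 ∈ V := hV _ (by simp only [mem_insert, mem_singleton, true_or, or_true])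
  have w_u : u ∈ V := hV _ (by simp only [mem_insert, mem_singleton, true_or, or_true])
  have w_w : w ∈ V := hV _ (by simp only [mem_insert, mem_singleton, true_or, or_true])
  have h := Ty.p2 v1 v2 v0 u w (by
    simp only [List.nodup_cons, List.mem_cons, List.not_mem_nil, not_or, not_false_eq_true,
    and_true, or_false, List.nodup_nil]
    exact ⟨⟨n_v1_v2, n_v1_v0, n_v1_u, n_v1_w⟩, ⟨n_v2_v0, n_v2_u, n_v2_w⟩, ⟨n_v0_u, n_v0_w⟩, n_u_w⟩)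
  rw [perm_120 v0 v1 v2] at h
  rw [fperm_10 (β := Finset α) {v0, u, w} {v0, v1, v2}] at h
  exact h

theorem ext_p1_1 {F : Finset (Finset α)} (hF : ∀ A ∈ F, ∀ B ∈ F, A ∪ B ∈ F) {V : Finset α}
    (bad : ∀ x ∈ V, ¬ F.card ≤ 2 * (F.filter (fun A => x ∈ A)).card)
    {v0 v1 v2 u w : α} (nd : [v0, v1, v2, u, w].Nodup)
    (t0 : ({v0, v1, v2} : Finset α) ∈ F)
    (tt : ({v1, u, w} : Finset α) ∈ F)
    (hV : ∀ x ∈ ({v0, v1, v2, u, w} : Finset α), x ∈ V)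
    : Ty (insert {v1, u, w} ({{v0, v1, v2}} : Finset (Finset α))) := by
  simp only [List.nodup_cons, List.mem_cons, List.not_mem_nil, not_or, not_false_eq_true,
    and_true, or_false, List.nodup_nil] at nd
  obtain ⟨⟨n_v0_v1, n_v0_v2, n_v0_u, n_v0_w⟩, ⟨n_v1_v2, n_v1_u, n_v1_w⟩, ⟨n_v2_u, n_v2_w⟩, n_u_w⟩ := nd
  replace n_v0_v1 : v0 ≠ v1 := n_v0_v1
  have n_v1_v0 : v1 ≠ v0 := n_v0_v1.symm
  replace n_v0_v2 : v0 ≠ v2 := n_v0_v2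
  have n_v2_v0 : v2 ≠ v0 := n_v0_v2.symm
  replace n_v0_u : v0 ≠ u := n_v0_u
  have n_u_v0 : u ≠ v0 := n_v0_u.symm
  replace n_v0_w : v0 ≠ w := n_v0_w
  have n_w_v0 : w ≠ v0 := n_v0_w.symm
  replace n_v1_v2 : v1 ≠ v2 := n_v1_v2
  have n_v2_v1 : v2 ≠ v1 := n_v1_v2.symm
  replace n_v1_u : v1 ≠ u := n_v1_u
  have n_u_v1 : u ≠ v1 := n_v1_u.symm
  replace n_v1_w : v1 ≠ w := n_v1_w
  have n_w_v1 : w ≠ v1 := n_v1_w.symm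
  replace n_v2_u : v2 ≠ u := n_v2_u
  have n_u_v2 : u ≠ v2 := n_v2_u.symm
  replace n_v2_w : v2 ≠ w := n_v2_w
  have n_w_v2 : w ≠ v2 := n_v2_w.symm
  replace n_u_w : u ≠ w := n_u_w
  have n_w_u : w ≠ u := n_u_w.symm
  have w_v0 : v0 ∈ V := hV _ (by simp only [mem_insert, mem_singleton, true_or, or_true])
  have w_v1 : v1 ∈ V := hV _ (by simp only [mem_insert, mem_singleton, true_or, or_true])
  have w_v2 : v2 ∈ V := hV _ (by simp only [mem_insert, mem_singleton, true_or, or_true])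
  have w_u : u ∈ V := hV _ (by simp only [mem_insert, mem_singleton, true_or, or_true])
  have w_w : w ∈ V := hV _ (by simp only [mem_insert, mem_singleton, true_or, or_true])
  have h := Ty.p2 v0 v2 v1 u w (by
    simp only [List.nodup_cons, List.mem_cons, List.not_mem_nil, not_or, not_false_eq_true,
    and_true, or_false, List.nodup_nil]
    exact ⟨⟨n_v0_v2, n_v0_v1, n_v0_u, n_v0_w⟩, ⟨n_v2_v1, n_v2_u, n_v2_w⟩, ⟨n_v1_u, n_v1_w⟩, n_u_w⟩)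
  rw [perm_021 v0 v1 v2] at h
  rw [fperm_10 (β := Finset α) {v1, u, w} {v0, v1, v2}] at h
  exact h

theorem ext_p1_2 {F : Finset (Finset α)} (hF : ∀ A ∈ F, ∀ B ∈ F, A ∪ B ∈ F) {V : Finset α}
    (bad : ∀ x ∈ V, ¬ F.card ≤ 2 * (F.filter (fun A => x ∈ A)).card)
    {v0 v1 v2 u w : α} (nd : [v0, v1, v2, u, w].Nodup)
    (t0 : ({v0, v1, v2} : Finset α) ∈ F)
    (tt : ({v2, u, w} : Finset α) ∈ F)
    (hV : ∀ x ∈ ({v0, v1, v2, u, w} : Finset α), x ∈ V)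
    : Ty (insert {v2, u, w} ({{v0, v1, v2}} : Finset (Finset α))) := by
  simp only [List.nodup_cons, List.mem_cons, List.not_mem_nil, not_or, not_false_eq_true,
    and_true, or_false, List.nodup_nil] at nd
  obtain ⟨⟨n_v0_v1, n_v0_v2, n_v0_u, n_v0_w⟩, ⟨n_v1_v2, n_v1_u, n_v1_w⟩, ⟨n_v2_u, n_v2_w⟩, n_u_w⟩ := nd
  replace n_v0_v1 : v0 ≠ v1 := n_v0_v1
  have n_v1_v0 : v1 ≠ v0 := n_v0_v1.symm
  replace n_v0_v2 : v0 ≠ v2 := n_v0_v2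
  have n_v2_v0 : v2 ≠ v0 := n_v0_v2.symm
  replace n_v0_u : v0 ≠ u := n_v0_u
  have n_u_v0 : u ≠ v0 := n_v0_u.symm
  replace n_v0_w : v0 ≠ w := n_v0_w
  have n_w_v0 : w ≠ v0 := n_v0_w.symm
  replace n_v1_v2 : v1 ≠ v2 := n_v1_v2
  have n_v2_v1 : v2 ≠ v1 := n_v1_v2.symm
  replace n_v1_u : v1 ≠ u := n_v1_u
  have n_u_v1 : u ≠ v1 := n_v1_u.symm
  replace n_v1_w : v1 ≠ w := n_v1_w
  have n_w_v1 : w ≠ v1 := n_v1_w.symm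
  replace n_v2_u : v2 ≠ u := n_v2_u
  have n_u_v2 : u ≠ v2 := n_v2_u.symm
  replace n_v2_w : v2 ≠ w := n_v2_w
  have n_w_v2 : w ≠ v2 := n_v2_w.symm
  replace n_u_w : u ≠ w := n_u_w
  have n_w_u : w ≠ u := n_u_w.symm
  have w_v0 : v0 ∈ V := hV _ (by simp only [mem_insert, mem_singleton, true_or, or_true])
  have w_v1 : v1 ∈ V := hV _ (by simp only [mem_insert, mem_singleton, true_or, or_true])
  have w_v2 : v2 ∈ V := hV _ (by simp only [mem_insert, mem_singleton, true_or, or_true])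
  have w_u : u ∈ V := hV _ (by simp only [mem_insert, mem_singleton, true_or, or_true])
  have w_w : w ∈ V := hV _ (by simp only [mem_insert, mem_singleton, true_or, or_true])
  have h := Ty.p2 v0 v1 v2 u w (by
    simp only [List.nodup_cons, List.mem_cons, List.not_mem_nil, not_or, not_false_eq_true,
    and_true, or_false, List.nodup_nil]
    exact ⟨⟨n_v0_v1, n_v0_v2, n_v0_u, n_v0_w⟩, ⟨n_v1_v2, n_v1_u, n_v1_w⟩, ⟨n_v2_u, n_v2_w⟩, n_u_w⟩)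
  rw [fperm_10 (β := Finset α) {v2, u, w} {v0, v1, v2}] at h
  exact h

theorem ext_p2_0 {F : Finset (Finset α)} (hF : ∀ A ∈ F, ∀ B ∈ F, A ∪ B ∈ F) {V : Finset α}
    (bad : ∀ x ∈ V, ¬ F.card ≤ 2 * (F.filter (fun A => x ∈ A)).card)
    {v0 v1 v2 v3 v4 u w : α} (nd : [v0, v1, v2, v3, v4, u, w].Nodup)
    (t0 : ({v0, v1, v2} : Finset α) ∈ F)
    (t1 : ({v2, v3, v4} : Finset α) ∈ F)
    (tt : ({v0, u, w} : Finset α) ∈ F)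
    (hV : ∀ x ∈ ({v0, v1, v2, v3, v4, u, w} : Finset α), x ∈ V)
    : Ty (insert {v0, u, w} ({{v0, v1, v2}, {v2, v3, v4}} : Finset (Finset α))) := by
  simp only [List.nodup_cons, List.mem_cons, List.not_mem_nil, not_or, not_false_eq_true,
    and_true, or_false, List.nodup_nil] at nd
  obtain ⟨⟨n_v0_v1, n_v0_v2, n_v0_v3, n_v0_v4, n_v0_u, n_v0_w⟩, ⟨n_v1_v2, n_v1_v3, n_v1_v4, n_v1_u, n_v1_w⟩, ⟨n_v2_v3, n_v2_v4, n_v2_u, n_v2_w⟩, ⟨n_v3_v4, n_v3_u, n_v3_w⟩, ⟨n_v4_u, n_v4_w⟩, n_u_w⟩ := nd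
  replace n_v0_v1 : v0 ≠ v1 := n_v0_v1
  have n_v1_v0 : v1 ≠ v0 := n_v0_v1.symm
  replace n_v0_v2 : v0 ≠ v2 := n_v0_v2
  have n_v2_v0 : v2 ≠ v0 := n_v0_v2.symm
  replace n_v0_v3 : v0 ≠ v3 := n_v0_v3
  have n_v3_v0 : v3 ≠ v0 := n_v0_v3.symm
  replace n_v0_v4 : v0 ≠ v4 := n_v0_v4
  have n_v4_v0 : v4 ≠ v0 := n_v0_v4.symm
  replace n_v0_u : v0 ≠ u := n_v0_u
  have n_u_v0 : u ≠ v0 := n_v0_u.symm
  replace n_v0_w : v0 ≠ w := n_v0_w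
  have n_w_v0 : w ≠ v0 := n_v0_w.symm
  replace n_v1_v2 : v1 ≠ v2 := n_v1_v2
  have n_v2_v1 : v2 ≠ v1 := n_v1_v2.symm
  replace n_v1_v3 : v1 ≠ v3 := n_v1_v3
  have n_v3_v1 : v3 ≠ v1 := n_v1_v3.symm
  replace n_v1_v4 : v1 ≠ v4 := n_v1_v4
  have n_v4_v1 : v4 ≠ v1 := n_v1_v4.symm
  replace n_v1_u : v1 ≠ u := n_v1_u
  have n_u_v1 : u ≠ v1 := n_v1_u.symm
  replace n_v1_w : v1 ≠ w := n_v1_w
  have n_w_v1 : w ≠ v1 := n_v1_w.symm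
  replace n_v2_v3 : v2 ≠ v3 := n_v2_v3
  have n_v3_v2 : v3 ≠ v2 := n_v2_v3.symm
  replace n_v2_v4 : v2 ≠ v4 := n_v2_v4
  have n_v4_v2 : v4 ≠ v2 := n_v2_v4.symm
  replace n_v2_u : v2 ≠ u := n_v2_u
  have n_u_v2 : u ≠ v2 := n_v2_u.symm
  replace n_v2_w : v2 ≠ w := n_v2_w
  have n_w_v2 : w ≠ v2 := n_v2_w.symm
  replace n_v3_v4 : v3 ≠ v4 := n_v3_v4
  have n_v4_v3 : v4 ≠ v3 := n_v3_v4.symm
  replace n_v3_u : v3 ≠ u := n_v3_u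
  have n_u_v3 : u ≠ v3 := n_v3_u.symm
  replace n_v3_w : v3 ≠ w := n_v3_w
  have n_w_v3 : w ≠ v3 := n_v3_w.symm
  replace n_v4_u : v4 ≠ u := n_v4_u
  have n_u_v4 : u ≠ v4 := n_v4_u.symm
  replace n_v4_w : v4 ≠ w := n_v4_w
  have n_w_v4 : w ≠ v4 := n_v4_w.symm
  replace n_u_w : u ≠ w := n_u_w
  have n_w_u : w ≠ u := n_u_w.symm
  have w_v0 : v0 ∈ V := hV _ (by simp only [mem_insert, mem_singleton, true_or, or_true])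
  have w_v1 : v1 ∈ V := hV _ (by simp only [mem_insert, mem_singleton, true_or, or_true])
  have w_v2 : v2 ∈ V := hV _ (by simp only [mem_insert, mem_singleton, true_or, or_true])
  have w_v3 : v3 ∈ V := hV _ (by simp only [mem_insert, mem_singleton, true_or, or_true])
  have w_v4 : v4 ∈ V := hV _ (by simp only [mem_insert, mem_singleton, true_or, or_true])
  have w_u : u ∈ V := hV _ (by simp only [mem_insert, mem_singleton, true_or, or_true])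
  have w_w : w ∈ V := hV _ (by simp only [mem_insert, mem_singleton, true_or, or_true])
  have h := Ty.p3 v3 v4 v2 v1 v0 u w (by
    simp only [List.nodup_cons, List.mem_cons, List.not_mem_nil, not_or, not_false_eq_true,
    and_true, or_false, List.nodup_nil]
    exact ⟨⟨n_v3_v4, n_v3_v2, n_v3_v1, n_v3_v0, n_v3_u, n_v3_w⟩, ⟨n_v4_v2, n_v4_v1, n_v4_v0, n_v4_u, n_v4_w⟩, ⟨n_v2_v1, n_v2_v0, n_v2_u, n_v2_w⟩, ⟨n_v1_v0, n_v1_u, n_v1_w⟩, ⟨n_v0_u, n_v0_w⟩, n_u_w⟩)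
  rw [perm_120 v2 v3 v4] at h
  rw [perm_210 v0 v1 v2] at h
  rw [fperm_210 (β := Finset α) {v0, u, w} {v0, v1, v2} {v2, v3, v4}] at h
  exact h

theorem ext_p2_1 {F : Finset (Finset α)} (hF : ∀ A ∈ F, ∀ B ∈ F, A ∪ B ∈ F) {V : Finset α}
    (bad : ∀ x ∈ V, ¬ F.card ≤ 2 * (F.filter (fun A => x ∈ A)).card)
    {v0 v1 v2 v3 v4 u w : α} (nd : [v0, v1, v2, v3, v4, u, w].Nodup)
    (t0 : ({v0, v1, v2} : Finset α) ∈ F)
    (t1 : ({v2, v3, v4} : Finset α) ∈ F)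
    (tt : ({v1, u, w} : Finset α) ∈ F)
    (hV : ∀ x ∈ ({v0, v1, v2, v3, v4, u, w} : Finset α), x ∈ V)
    : Ty (insert {v1, u, w} ({{v0, v1, v2}, {v2, v3, v4}} : Finset (Finset α))) := by
  simp only [List.nodup_cons, List.mem_cons, List.not_mem_nil, not_or, not_false_eq_true,
    and_true, or_false, List.nodup_nil] at nd
  obtain ⟨⟨n_v0_v1, n_v0_v2, n_v0_v3, n_v0_v4, n_v0_u, n_v0_w⟩, ⟨n_v1_v2, n_v1_v3, n_v1_v4, n_v1_u, n_v1_w⟩, ⟨n_v2_v3, n_v2_v4, n_v2_u, n_v2_w⟩, ⟨n_v3_v4, n_v3_u, n_v3_w⟩, ⟨n_v4_u, n_v4_w⟩, n_u_w⟩ := nd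
  replace n_v0_v1 : v0 ≠ v1 := n_v0_v1
  have n_v1_v0 : v1 ≠ v0 := n_v0_v1.symm
  replace n_v0_v2 : v0 ≠ v2 := n_v0_v2
  have n_v2_v0 : v2 ≠ v0 := n_v0_v2.symm
  replace n_v0_v3 : v0 ≠ v3 := n_v0_v3
  have n_v3_v0 : v3 ≠ v0 := n_v0_v3.symm
  replace n_v0_v4 : v0 ≠ v4 := n_v0_v4
  have n_v4_v0 : v4 ≠ v0 := n_v0_v4.symm
  replace n_v0_u : v0 ≠ u := n_v0_u
  have n_u_v0 : u ≠ v0 := n_v0_u.symm
  replace n_v0_w : v0 ≠ w := n_v0_w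
  have n_w_v0 : w ≠ v0 := n_v0_w.symm
  replace n_v1_v2 : v1 ≠ v2 := n_v1_v2
  have n_v2_v1 : v2 ≠ v1 := n_v1_v2.symm
  replace n_v1_v3 : v1 ≠ v3 := n_v1_v3
  have n_v3_v1 : v3 ≠ v1 := n_v1_v3.symm
  replace n_v1_v4 : v1 ≠ v4 := n_v1_v4
  have n_v4_v1 : v4 ≠ v1 := n_v1_v4.symm
  replace n_v1_u : v1 ≠ u := n_v1_u
  have n_u_v1 : u ≠ v1 := n_v1_u.symm
  replace n_v1_w : v1 ≠ w := n_v1_w
  have n_w_v1 : w ≠ v1 := n_v1_w.symm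
  replace n_v2_v3 : v2 ≠ v3 := n_v2_v3
  have n_v3_v2 : v3 ≠ v2 := n_v2_v3.symm
  replace n_v2_v4 : v2 ≠ v4 := n_v2_v4
  have n_v4_v2 : v4 ≠ v2 := n_v2_v4.symm
  replace n_v2_u : v2 ≠ u := n_v2_u
  have n_u_v2 : u ≠ v2 := n_v2_u.symm
  replace n_v2_w : v2 ≠ w := n_v2_w
  have n_w_v2 : w ≠ v2 := n_v2_w.symm
  replace n_v3_v4 : v3 ≠ v4 := n_v3_v4
  have n_v4_v3 : v4 ≠ v3 := n_v3_v4.symm
  replace n_v3_u : v3 ≠ u := n_v3_u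
  have n_u_v3 : u ≠ v3 := n_v3_u.symm
  replace n_v3_w : v3 ≠ w := n_v3_w
  have n_w_v3 : w ≠ v3 := n_v3_w.symm
  replace n_v4_u : v4 ≠ u := n_v4_u
  have n_u_v4 : u ≠ v4 := n_v4_u.symm
  replace n_v4_w : v4 ≠ w := n_v4_w
  have n_w_v4 : w ≠ v4 := n_v4_w.symm
  replace n_u_w : u ≠ w := n_u_w
  have n_w_u : w ≠ u := n_u_w.symm
  have w_v0 : v0 ∈ V := hV _ (by simp only [mem_insert, mem_singleton, true_or, or_true])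
  have w_v1 : v1 ∈ V := hV _ (by simp only [mem_insert, mem_singleton, true_or, or_true])
  have w_v2 : v2 ∈ V := hV _ (by simp only [mem_insert, mem_singleton, true_or, or_true])
  have w_v3 : v3 ∈ V := hV _ (by simp only [mem_insert, mem_singleton, true_or, or_true])
  have w_v4 : v4 ∈ V := hV _ (by simp only [mem_insert, mem_singleton, true_or, or_true])
  have w_u : u ∈ V := hV _ (by simp only [mem_insert, mem_singleton, true_or, or_true])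
  have w_w : w ∈ V := hV _ (by simp only [mem_insert, mem_singleton, true_or, or_true])
  have h := Ty.p3 v3 v4 v2 v0 v1 u w (by
    simp only [List.nodup_cons, List.mem_cons, List.not_mem_nil, not_or, not_false_eq_true,
    and_true, or_false, List.nodup_nil]
    exact ⟨⟨n_v3_v4, n_v3_v2, n_v3_v0, n_v3_v1, n_v3_u, n_v3_w⟩, ⟨n_v4_v2, n_v4_v0, n_v4_v1, n_v4_u, n_v4_w⟩, ⟨n_v2_v0, n_v2_v1, n_v2_u, n_v2_w⟩, ⟨n_v0_v1, n_v0_u, n_v0_w⟩, ⟨n_v1_u, n_v1_w⟩, n_u_w⟩)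
  rw [perm_120 v2 v3 v4] at h
  rw [perm_201 v0 v1 v2] at h
  rw [fperm_210 (β := Finset α) {v1, u, w} {v0, v1, v2} {v2, v3, v4}] at h
  exact h

theorem ext_p2_2 {F : Finset (Finset α)} (hF : ∀ A ∈ F, ∀ B ∈ F, A ∪ B ∈ F) {V : Finset α}
    (bad : ∀ x ∈ V, ¬ F.card ≤ 2 * (F.filter (fun A => x ∈ A)).card)
    {v0 v1 v2 v3 v4 u w : α} (nd : [v0, v1, v2, v3, v4, u, w].Nodup)
    (t0 : ({v0, v1, v2} : Finset α) ∈ F)
    (t1 : ({v2, v3, v4} : Finset α) ∈ F)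
    (tt : ({v2, u, w} : Finset α) ∈ F)
    (hV : ∀ x ∈ ({v0, v1, v2, v3, v4, u, w} : Finset α), x ∈ V)
    : Ty (insert {v2, u, w} ({{v0, v1, v2}, {v2, v3, v4}} : Finset (Finset α))) := by
  simp only [List.nodup_cons, List.mem_cons, List.not_mem_nil, not_or, not_false_eq_true,
    and_true, or_false, List.nodup_nil] at nd
  obtain ⟨⟨n_v0_v1, n_v0_v2, n_v0_v3, n_v0_v4, n_v0_u, n_v0_w⟩, ⟨n_v1_v2, n_v1_v3, n_v1_v4, n_v1_u, n_v1_w⟩, ⟨n_v2_v3, n_v2_v4, n_v2_u, n_v2_w⟩, ⟨n_v3_v4, n_v3_u, n_v3_w⟩, ⟨n_v4_u, n_v4_w⟩, n_u_w⟩ := nd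
  replace n_v0_v1 : v0 ≠ v1 := n_v0_v1
  have n_v1_v0 : v1 ≠ v0 := n_v0_v1.symm
  replace n_v0_v2 : v0 ≠ v2 := n_v0_v2
  have n_v2_v0 : v2 ≠ v0 := n_v0_v2.symm
  replace n_v0_v3 : v0 ≠ v3 := n_v0_v3
  have n_v3_v0 : v3 ≠ v0 := n_v0_v3.symm
  replace n_v0_v4 : v0 ≠ v4 := n_v0_v4
  have n_v4_v0 : v4 ≠ v0 := n_v0_v4.symm
  replace n_v0_u : v0 ≠ u := n_v0_u
  have n_u_v0 : u ≠ v0 := n_v0_u.symm
  replace n_v0_w : v0 ≠ w := n_v0_w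
  have n_w_v0 : w ≠ v0 := n_v0_w.symm
  replace n_v1_v2 : v1 ≠ v2 := n_v1_v2
  have n_v2_v1 : v2 ≠ v1 := n_v1_v2.symm
  replace n_v1_v3 : v1 ≠ v3 := n_v1_v3
  have n_v3_v1 : v3 ≠ v1 := n_v1_v3.symm
  replace n_v1_v4 : v1 ≠ v4 := n_v1_v4
  have n_v4_v1 : v4 ≠ v1 := n_v1_v4.symm
  replace n_v1_u : v1 ≠ u := n_v1_u
  have n_u_v1 : u ≠ v1 := n_v1_u.symm
  replace n_v1_w : v1 ≠ w := n_v1_w
  have n_w_v1 : w ≠ v1 := n_v1_w.symm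
  replace n_v2_v3 : v2 ≠ v3 := n_v2_v3
  have n_v3_v2 : v3 ≠ v2 := n_v2_v3.symm
  replace n_v2_v4 : v2 ≠ v4 := n_v2_v4
  have n_v4_v2 : v4 ≠ v2 := n_v2_v4.symm
  replace n_v2_u : v2 ≠ u := n_v2_u
  have n_u_v2 : u ≠ v2 := n_v2_u.symm
  replace n_v2_w : v2 ≠ w := n_v2_w
  have n_w_v2 : w ≠ v2 := n_v2_w.symm
  replace n_v3_v4 : v3 ≠ v4 := n_v3_v4
  have n_v4_v3 : v4 ≠ v3 := n_v3_v4.symm
  replace n_v3_u : v3 ≠ u := n_v3_u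
  have n_u_v3 : u ≠ v3 := n_v3_u.symm
  replace n_v3_w : v3 ≠ w := n_v3_w
  have n_w_v3 : w ≠ v3 := n_v3_w.symm
  replace n_v4_u : v4 ≠ u := n_v4_u
  have n_u_v4 : u ≠ v4 := n_v4_u.symm
  replace n_v4_w : v4 ≠ w := n_v4_w
  have n_w_v4 : w ≠ v4 := n_v4_w.symm
  replace n_u_w : u ≠ w := n_u_w
  have n_w_u : w ≠ u := n_u_w.symm
  have w_v0 : v0 ∈ V := hV _ (by simp only [mem_insert, mem_singleton, true_or, or_true])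
  have w_v1 : v1 ∈ V := hV _ (by simp only [mem_insert, mem_singleton, true_or, or_true])
  have w_v2 : v2 ∈ V := hV _ (by simp only [mem_insert, mem_singleton, true_or, or_true])
  have w_v3 : v3 ∈ V := hV _ (by simp only [mem_insert, mem_singleton, true_or, or_true])
  have w_v4 : v4 ∈ V := hV _ (by simp only [mem_insert, mem_singleton, true_or, or_true])
  have w_u : u ∈ V := hV _ (by simp only [mem_insert, mem_singleton, true_or, or_true])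
  have w_w : w ∈ V := hV _ (by simp only [mem_insert, mem_singleton, true_or, or_true])
  exfalso
  exact deg3_fc hF bad (x := v2) t0 t1 tt (card_eq_three.2 ⟨v0, v1, v2, n_v0_v1, n_v0_v2, n_v1_v2, rfl⟩) (card_eq_three.2 ⟨v2, v3, v4, n_v2_v3, n_v2_v4, n_v3_v4, rfl⟩) (card_eq_three.2 ⟨v2, u, w, n_v2_u, n_v2_w, n_u_w, rfl⟩)
    (by simp only [insert_subset_iff, singleton_subset_iff]; exact ⟨w_v0, w_v1, w_v2⟩) (by simp only [insert_subset_iff, singleton_subset_iff]; exact ⟨w_v2, w_v3, w_v4⟩) (by simp only [insert_subset_iff, singleton_subset_iff]; exact ⟨w_v2, w_u, w_w⟩)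
    (by simp only [mem_insert, mem_singleton, true_or, or_true]) (by simp only [mem_insert, mem_singleton, true_or, or_true]) (by simp only [mem_insert, mem_singleton, true_or, or_true])
    (by
    intro he
    have h : v0 ∈ ({v2, v3, v4} : Finset α) := by
      rw [← he]; simp only [mem_insert, mem_singleton, true_or, or_true]
    simp only [mem_insert, mem_singleton] at h
    rcases h with h | h | h
    · exact n_v0_v2 h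
    · exact n_v0_v3 h
    · exact n_v0_v4 h)
    (by
    intro he
    have h : v0 ∈ ({v2, u, w} : Finset α) := by
      rw [← he]; simp only [mem_insert, mem_singleton, true_or, or_true]
    simp only [mem_insert, mem_singleton] at h
    rcases h with h | h | h
    · exact n_v0_v2 h
    · exact n_v0_u h
    · exact n_v0_w h)
    (by
    intro he
    have h : v3 ∈ ({v2, u, w} : Finset α) := by
      rw [← he]; simp only [mem_insert, mem_singleton, true_or, or_true]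
    simp only [mem_insert, mem_singleton] at h
    rcases h with h | h | h
    · exact n_v3_v2 h
    · exact n_v3_u h
    · exact n_v3_w h)

theorem ext_p2_3 {F : Finset (Finset α)} (hF : ∀ A ∈ F, ∀ B ∈ F, A ∪ B ∈ F) {V : Finset α}
    (bad : ∀ x ∈ V, ¬ F.card ≤ 2 * (F.filter (fun A => x ∈ A)).card)
    {v0 v1 v2 v3 v4 u w : α} (nd : [v0, v1, v2, v3, v4, u, w].Nodup)
    (t0 : ({v0, v1, v2} : Finset α) ∈ F)
    (t1 : ({v2, v3, v4} : Finset α) ∈ F)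
    (tt : ({v3, u, w} : Finset α) ∈ F)
    (hV : ∀ x ∈ ({v0, v1, v2, v3, v4, u, w} : Finset α), x ∈ V)
    : Ty (insert {v3, u, w} ({{v0, v1, v2}, {v2, v3, v4}} : Finset (Finset α))) := by
  simp only [List.nodup_cons, List.mem_cons, List.not_mem_nil, not_or, not_false_eq_true,
    and_true, or_false, List.nodup_nil] at nd
  obtain ⟨⟨n_v0_v1, n_v0_v2, n_v0_v3, n_v0_v4, n_v0_u, n_v0_w⟩, ⟨n_v1_v2, n_v1_v3, n_v1_v4, n_v1_u, n_v1_w⟩, ⟨n_v2_v3, n_v2_v4, n_v2_u, n_v2_w⟩, ⟨n_v3_v4, n_v3_u, n_v3_w⟩, ⟨n_v4_u, n_v4_w⟩, n_u_w⟩ := nd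
  replace n_v0_v1 : v0 ≠ v1 := n_v0_v1
  have n_v1_v0 : v1 ≠ v0 := n_v0_v1.symm
  replace n_v0_v2 : v0 ≠ v2 := n_v0_v2
  have n_v2_v0 : v2 ≠ v0 := n_v0_v2.symm
  replace n_v0_v3 : v0 ≠ v3 := n_v0_v3
  have n_v3_v0 : v3 ≠ v0 := n_v0_v3.symm
  replace n_v0_v4 : v0 ≠ v4 := n_v0_v4
  have n_v4_v0 : v4 ≠ v0 := n_v0_v4.symm
  replace n_v0_u : v0 ≠ u := n_v0_u
  have n_u_v0 : u ≠ v0 := n_v0_u.symm
  replace n_v0_w : v0 ≠ w := n_v0_w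
  have n_w_v0 : w ≠ v0 := n_v0_w.symm
  replace n_v1_v2 : v1 ≠ v2 := n_v1_v2
  have n_v2_v1 : v2 ≠ v1 := n_v1_v2.symm
  replace n_v1_v3 : v1 ≠ v3 := n_v1_v3
  have n_v3_v1 : v3 ≠ v1 := n_v1_v3.symm
  replace n_v1_v4 : v1 ≠ v4 := n_v1_v4
  have n_v4_v1 : v4 ≠ v1 := n_v1_v4.symm
  replace n_v1_u : v1 ≠ u := n_v1_u
  have n_u_v1 : u ≠ v1 := n_v1_u.symm
  replace n_v1_w : v1 ≠ w := n_v1_w
  have n_w_v1 : w ≠ v1 := n_v1_w.symm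
  replace n_v2_v3 : v2 ≠ v3 := n_v2_v3
  have n_v3_v2 : v3 ≠ v2 := n_v2_v3.symm
  replace n_v2_v4 : v2 ≠ v4 := n_v2_v4
  have n_v4_v2 : v4 ≠ v2 := n_v2_v4.symm
  replace n_v2_u : v2 ≠ u := n_v2_u
  have n_u_v2 : u ≠ v2 := n_v2_u.symm
  replace n_v2_w : v2 ≠ w := n_v2_w
  have n_w_v2 : w ≠ v2 := n_v2_w.symm
  replace n_v3_v4 : v3 ≠ v4 := n_v3_v4
  have n_v4_v3 : v4 ≠ v3 := n_v3_v4.symm
  replace n_v3_u : v3 ≠ u := n_v3_u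
  have n_u_v3 : u ≠ v3 := n_v3_u.symm
  replace n_v3_w : v3 ≠ w := n_v3_w
  have n_w_v3 : w ≠ v3 := n_v3_w.symm
  replace n_v4_u : v4 ≠ u := n_v4_u
  have n_u_v4 : u ≠ v4 := n_v4_u.symm
  replace n_v4_w : v4 ≠ w := n_v4_w
  have n_w_v4 : w ≠ v4 := n_v4_w.symm
  replace n_u_w : u ≠ w := n_u_w
  have n_w_u : w ≠ u := n_u_w.symm
  have w_v0 : v0 ∈ V := hV _ (by simp only [mem_insert, mem_singleton, true_or, or_true])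
  have w_v1 : v1 ∈ V := hV _ (by simp only [mem_insert, mem_singleton, true_or, or_true])
  have w_v2 : v2 ∈ V := hV _ (by simp only [mem_insert, mem_singleton, true_or, or_true])
  have w_v3 : v3 ∈ V := hV _ (by simp only [mem_insert, mem_singleton, true_or, or_true])
  have w_v4 : v4 ∈ V := hV _ (by simp only [mem_insert, mem_singleton, true_or, or_true])
  have w_u : u ∈ V := hV _ (by simp only [mem_insert, mem_singleton, true_or, or_true])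
  have w_w : w ∈ V := hV _ (by simp only [mem_insert, mem_singleton, true_or, or_true])
  have h := Ty.p3 v0 v1 v2 v4 v3 u w (by
    simp only [List.nodup_cons, List.mem_cons, List.not_mem_nil, not_or, not_false_eq_true,
    and_true, or_false, List.nodup_nil]
    exact ⟨⟨n_v0_v1, n_v0_v2, n_v0_v4, n_v0_v3, n_v0_u, n_v0_w⟩, ⟨n_v1_v2, n_v1_v4, n_v1_v3, n_v1_u, n_v1_w⟩, ⟨n_v2_v4, n_v2_v3, n_v2_u, n_v2_w⟩, ⟨n_v4_v3, n_v4_u, n_v4_w⟩, ⟨n_v3_u, n_v3_w⟩, n_u_w⟩)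
  rw [perm_021 v2 v3 v4] at h
  rw [fperm_120 (β := Finset α) {v3, u, w} {v0, v1, v2} {v2, v3, v4}] at h
  exact h

theorem ext_p2_4 {F : Finset (Finset α)} (hF : ∀ A ∈ F, ∀ B ∈ F, A ∪ B ∈ F) {V : Finset α}
    (bad : ∀ x ∈ V, ¬ F.card ≤ 2 * (F.filter (fun A => x ∈ A)).card)
    {v0 v1 v2 v3 v4 u w : α} (nd : [v0, v1, v2, v3, v4, u, w].Nodup)
    (t0 : ({v0, v1, v2} : Finset α) ∈ F)
    (t1 : ({v2, v3, v4} : Finset α) ∈ F)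
    (tt : ({v4, u, w} : Finset α) ∈ F)
    (hV : ∀ x ∈ ({v0, v1, v2, v3, v4, u, w} : Finset α), x ∈ V)
    : Ty (insert {v4, u, w} ({{v0, v1, v2}, {v2, v3, v4}} : Finset (Finset α))) := by
  simp only [List.nodup_cons, List.mem_cons, List.not_mem_nil, not_or, not_false_eq_true,
    and_true, or_false, List.nodup_nil] at nd
  obtain ⟨⟨n_v0_v1, n_v0_v2, n_v0_v3, n_v0_v4, n_v0_u, n_v0_w⟩, ⟨n_v1_v2, n_v1_v3, n_v1_v4, n_v1_u, n_v1_w⟩, ⟨n_v2_v3, n_v2_v4, n_v2_u, n_v2_w⟩, ⟨n_v3_v4, n_v3_u, n_v3_w⟩, ⟨n_v4_u, n_v4_w⟩, n_u_w⟩ := nd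
  replace n_v0_v1 : v0 ≠ v1 := n_v0_v1
  have n_v1_v0 : v1 ≠ v0 := n_v0_v1.symm
  replace n_v0_v2 : v0 ≠ v2 := n_v0_v2
  have n_v2_v0 : v2 ≠ v0 := n_v0_v2.symm
  replace n_v0_v3 : v0 ≠ v3 := n_v0_v3
  have n_v3_v0 : v3 ≠ v0 := n_v0_v3.symm
  replace n_v0_v4 : v0 ≠ v4 := n_v0_v4
  have n_v4_v0 : v4 ≠ v0 := n_v0_v4.symm
  replace n_v0_u : v0 ≠ u := n_v0_u
  have n_u_v0 : u ≠ v0 := n_v0_u.symm
  replace n_v0_w : v0 ≠ w := n_v0_w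
  have n_w_v0 : w ≠ v0 := n_v0_w.symm
  replace n_v1_v2 : v1 ≠ v2 := n_v1_v2
  have n_v2_v1 : v2 ≠ v1 := n_v1_v2.symm
  replace n_v1_v3 : v1 ≠ v3 := n_v1_v3
  have n_v3_v1 : v3 ≠ v1 := n_v1_v3.symm
  replace n_v1_v4 : v1 ≠ v4 := n_v1_v4
  have n_v4_v1 : v4 ≠ v1 := n_v1_v4.symm
  replace n_v1_u : v1 ≠ u := n_v1_u
  have n_u_v1 : u ≠ v1 := n_v1_u.symm
  replace n_v1_w : v1 ≠ w := n_v1_w
  have n_w_v1 : w ≠ v1 := n_v1_w.symm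
  replace n_v2_v3 : v2 ≠ v3 := n_v2_v3
  have n_v3_v2 : v3 ≠ v2 := n_v2_v3.symm
  replace n_v2_v4 : v2 ≠ v4 := n_v2_v4
  have n_v4_v2 : v4 ≠ v2 := n_v2_v4.symm
  replace n_v2_u : v2 ≠ u := n_v2_u
  have n_u_v2 : u ≠ v2 := n_v2_u.symm
  replace n_v2_w : v2 ≠ w := n_v2_w
  have n_w_v2 : w ≠ v2 := n_v2_w.symm
  replace n_v3_v4 : v3 ≠ v4 := n_v3_v4
  have n_v4_v3 : v4 ≠ v3 := n_v3_v4.symm
  replace n_v3_u : v3 ≠ u := n_v3_u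
  have n_u_v3 : u ≠ v3 := n_v3_u.symm
  replace n_v3_w : v3 ≠ w := n_v3_w
  have n_w_v3 : w ≠ v3 := n_v3_w.symm
  replace n_v4_u : v4 ≠ u := n_v4_u
  have n_u_v4 : u ≠ v4 := n_v4_u.symm
  replace n_v4_w : v4 ≠ w := n_v4_w
  have n_w_v4 : w ≠ v4 := n_v4_w.symm
  replace n_u_w : u ≠ w := n_u_w
  have n_w_u : w ≠ u := n_u_w.symm
  have w_v0 : v0 ∈ V := hV _ (by simp only [mem_insert, mem_singleton, true_or, or_true])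
  have w_v1 : v1 ∈ V := hV _ (by simp only [mem_insert, mem_singleton, true_or, or_true])
  have w_v2 : v2 ∈ V := hV _ (by simp only [mem_insert, mem_singleton, true_or, or_true])
  have w_v3 : v3 ∈ V := hV _ (by simp only [mem_insert, mem_singleton, true_or, or_true])
  have w_v4 : v4 ∈ V := hV _ (by simp only [mem_insert, mem_singleton, true_or, or_true])
  have w_u : u ∈ V := hV _ (by simp only [mem_insert, mem_singleton, true_or, or_true])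
  have w_w : w ∈ V := hV _ (by simp only [mem_insert, mem_singleton, true_or, or_true])
  have h := Ty.p3 v0 v1 v2 v3 v4 u w (by
    simp only [List.nodup_cons, List.mem_cons, List.not_mem_nil, not_or, not_false_eq_true,
    and_true, or_false, List.nodup_nil]
    exact ⟨⟨n_v0_v1, n_v0_v2, n_v0_v3, n_v0_v4, n_v0_u, n_v0_w⟩, ⟨n_v1_v2, n_v1_v3, n_v1_v4, n_v1_u, n_v1_w⟩, ⟨n_v2_v3, n_v2_v4, n_v2_u, n_v2_w⟩, ⟨n_v3_v4, n_v3_u, n_v3_w⟩, ⟨n_v4_u, n_v4_w⟩, n_u_w⟩)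
  rw [fperm_120 (β := Finset α) {v4, u, w} {v0, v1, v2} {v2, v3, v4}] at h
  exact h

theorem ext_p3_0 {F : Finset (Finset α)} (hF : ∀ A ∈ F, ∀ B ∈ F, A ∪ B ∈ F) {V : Finset α}
    (bad : ∀ x ∈ V, ¬ F.card ≤ 2 * (F.filter (fun A => x ∈ A)).card)
    {v0 v1 v2 v3 v4 v5 v6 u w : α} (nd : [v0, v1, v2, v3, v4, v5, v6, u, w].Nodup)
    (t0 : ({v0, v1, v2} : Finset α) ∈ F)
    (t1 : ({v2, v3, v4} : Finset α) ∈ F)
    (t2 : ({v4, v5, v6} : Finset α) ∈ F)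
    (tt : ({v0, u, w} : Finset α) ∈ F)
    (hV : ∀ x ∈ ({v0, v1, v2, v3, v4, v5, v6, u, w} : Finset α), x ∈ V)
    : Ty (insert {v0, u, w} ({{v0, v1, v2}, {v2, v3, v4}, {v4, v5, v6}} : Finset (Finset α))) := by
  simp only [List.nodup_cons, List.mem_cons, List.not_mem_nil, not_or, not_false_eq_true,
    and_true, or_false, List.nodup_nil] at nd
  obtain ⟨⟨n_v0_v1, n_v0_v2, n_v0_v3, n_v0_v4, n_v0_v5, n_v0_v6, n_v0_u, n_v0_w⟩, ⟨n_v1_v2, n_v1_v3, n_v1_v4, n_v1_v5, n_v1_v6, n_v1_u, n_v1_w⟩, ⟨n_v2_v3, n_v2_v4, n_v2_v5, n_v2_v6, n_v2_u, n_v2_w⟩, ⟨n_v3_v4, n_v3_v5, n_v3_v6, n_v3_u, n_v3_w⟩, ⟨n_v4_v5, n_v4_v6, n_v4_u, n_v4_w⟩, ⟨n_v5_v6, n_v5_u, n_v5_w⟩, ⟨n_v6_u, n_v6_w⟩, n_u_w⟩ := nd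
  replace n_v0_v1 : v0 ≠ v1 := n_v0_v1
  have n_v1_v0 : v1 ≠ v0 := n_v0_v1.symm
  replace n_v0_v2 : v0 ≠ v2 := n_v0_v2
  have n_v2_v0 : v2 ≠ v0 := n_v0_v2.symm
  replace n_v0_v3 : v0 ≠ v3 := n_v0_v3
  have n_v3_v0 : v3 ≠ v0 := n_v0_v3.symm
  replace n_v0_v4 : v0 ≠ v4 := n_v0_v4
  have n_v4_v0 : v4 ≠ v0 := n_v0_v4.symm
  replace n_v0_v5 : v0 ≠ v5 := n_v0_v5
  have n_v5_v0 : v5 ≠ v0 := n_v0_v5.symm
  replace n_v0_v6 : v0 ≠ v6 := n_v0_v6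
  have n_v6_v0 : v6 ≠ v0 := n_v0_v6.symm
  replace n_v0_u : v0 ≠ u := n_v0_u
  have n_u_v0 : u ≠ v0 := n_v0_u.symm
  replace n_v0_w : v0 ≠ w := n_v0_w
  have n_w_v0 : w ≠ v0 := n_v0_w.symm
  replace n_v1_v2 : v1 ≠ v2 := n_v1_v2
  have n_v2_v1 : v2 ≠ v1 := n_v1_v2.symm
  replace n_v1_v3 : v1 ≠ v3 := n_v1_v3
  have n_v3_v1 : v3 ≠ v1 := n_v1_v3.symm
  replace n_v1_v4 : v1 ≠ v4 := n_v1_v4
  have n_v4_v1 : v4 ≠ v1 := n_v1_v4.symm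
  replace n_v1_v5 : v1 ≠ v5 := n_v1_v5
  have n_v5_v1 : v5 ≠ v1 := n_v1_v5.symm
  replace n_v1_v6 : v1 ≠ v6 := n_v1_v6
  have n_v6_v1 : v6 ≠ v1 := n_v1_v6.symm
  replace n_v1_u : v1 ≠ u := n_v1_u
  have n_u_v1 : u ≠ v1 := n_v1_u.symm
  replace n_v1_w : v1 ≠ w := n_v1_w
  have n_w_v1 : w ≠ v1 := n_v1_w.symm
  replace n_v2_v3 : v2 ≠ v3 := n_v2_v3
  have n_v3_v2 : v3 ≠ v2 := n_v2_v3.symm
  replace n_v2_v4 : v2 ≠ v4 := n_v2_v4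
  have n_v4_v2 : v4 ≠ v2 := n_v2_v4.symm
  replace n_v2_v5 : v2 ≠ v5 := n_v2_v5
  have n_v5_v2 : v5 ≠ v2 := n_v2_v5.symm
  replace n_v2_v6 : v2 ≠ v6 := n_v2_v6
  have n_v6_v2 : v6 ≠ v2 := n_v2_v6.symm
  replace n_v2_u : v2 ≠ u := n_v2_u
  have n_u_v2 : u ≠ v2 := n_v2_u.symm
  replace n_v2_w : v2 ≠ w := n_v2_w
  have n_w_v2 : w ≠ v2 := n_v2_w.symm
  replace n_v3_v4 : v3 ≠ v4 := n_v3_v4
  have n_v4_v3 : v4 ≠ v3 := n_v3_v4.symm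
  replace n_v3_v5 : v3 ≠ v5 := n_v3_v5
  have n_v5_v3 : v5 ≠ v3 := n_v3_v5.symm
  replace n_v3_v6 : v3 ≠ v6 := n_v3_v6
  have n_v6_v3 : v6 ≠ v3 := n_v3_v6.symm
  replace n_v3_u : v3 ≠ u := n_v3_u
  have n_u_v3 : u ≠ v3 := n_v3_u.symm
  replace n_v3_w : v3 ≠ w := n_v3_w
  have n_w_v3 : w ≠ v3 := n_v3_w.symm
  replace n_v4_v5 : v4 ≠ v5 := n_v4_v5
  have n_v5_v4 : v5 ≠ v4 := n_v4_v5.symm
  replace n_v4_v6 : v4 ≠ v6 := n_v4_v6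
  have n_v6_v4 : v6 ≠ v4 := n_v4_v6.symm
  replace n_v4_u : v4 ≠ u := n_v4_u
  have n_u_v4 : u ≠ v4 := n_v4_u.symm
  replace n_v4_w : v4 ≠ w := n_v4_w
  have n_w_v4 : w ≠ v4 := n_v4_w.symm
  replace n_v5_v6 : v5 ≠ v6 := n_v5_v6
  have n_v6_v5 : v6 ≠ v5 := n_v5_v6.symm
  replace n_v5_u : v5 ≠ u := n_v5_u
  have n_u_v5 : u ≠ v5 := n_v5_u.symm
  replace n_v5_w : v5 ≠ w := n_v5_w
  have n_w_v5 : w ≠ v5 := n_v5_w.symm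
  replace n_v6_u : v6 ≠ u := n_v6_u
  have n_u_v6 : u ≠ v6 := n_v6_u.symm
  replace n_v6_w : v6 ≠ w := n_v6_w
  have n_w_v6 : w ≠ v6 := n_v6_w.symm
  replace n_u_w : u ≠ w := n_u_w
  have n_w_u : w ≠ u := n_u_w.symm
  have w_v0 : v0 ∈ V := hV _ (by simp only [mem_insert, mem_singleton, true_or, or_true])
  have w_v1 : v1 ∈ V := hV _ (by simp only [mem_insert, mem_singleton, true_or, or_true])
  have w_v2 : v2 ∈ V := hV _ (by simp only [mem_insert, mem_singleton, true_or, or_true])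
  have w_v3 : v3 ∈ V := hV _ (by simp only [mem_insert, mem_singleton, true_or, or_true])
  have w_v4 : v4 ∈ V := hV _ (by simp only [mem_insert, mem_singleton, true_or, or_true])
  have w_v5 : v5 ∈ V := hV _ (by simp only [mem_insert, mem_singleton, true_or, or_true])
  have w_v6 : v6 ∈ V := hV _ (by simp only [mem_insert, mem_singleton, true_or, or_true])
  have w_u : u ∈ V := hV _ (by simp only [mem_insert, mem_singleton, true_or, or_true])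
  have w_w : w ∈ V := hV _ (by simp only [mem_insert, mem_singleton, true_or, or_true])
  have h := Ty.p4 v5 v6 v4 v3 v2 v1 v0 u w (by
    simp only [List.nodup_cons, List.mem_cons, List.not_mem_nil, not_or, not_false_eq_true,
    and_true, or_false, List.nodup_nil]
    exact ⟨⟨n_v5_v6, n_v5_v4, n_v5_v3, n_v5_v2, n_v5_v1, n_v5_v0, n_v5_u, n_v5_w⟩, ⟨n_v6_v4, n_v6_v3, n_v6_v2, n_v6_v1, n_v6_v0, n_v6_u, n_v6_w⟩, ⟨n_v4_v3, n_v4_v2, n_v4_v1, n_v4_v0, n_v4_u, n_v4_w⟩, ⟨n_v3_v2, n_v3_v1, n_v3_v0, n_v3_u, n_v3_w⟩, ⟨n_v2_v1, n_v2_v0, n_v2_u, n_v2_w⟩, ⟨n_v1_v0, n_v1_u, n_v1_w⟩, ⟨n_v0_u, n_v0_w⟩, n_u_w⟩)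
  rw [perm_120 v4 v5 v6] at h
  rw [perm_210 v2 v3 v4] at h
  rw [perm_210 v0 v1 v2] at h
  rw [fperm_3210 (β := Finset α) {v0, u, w} {v0, v1, v2} {v2, v3, v4} {v4, v5, v6}] at h
  exact h

theorem ext_p3_1 {F : Finset (Finset α)} (hF : ∀ A ∈ F, ∀ B ∈ F, A ∪ B ∈ F) {V : Finset α}
    (bad : ∀ x ∈ V, ¬ F.card ≤ 2 * (F.filter (fun A => x ∈ A)).card)
    {v0 v1 v2 v3 v4 v5 v6 u w : α} (nd : [v0, v1, v2, v3, v4, v5, v6, u, w].Nodup)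
    (t0 : ({v0, v1, v2} : Finset α) ∈ F)
    (t1 : ({v2, v3, v4} : Finset α) ∈ F)
    (t2 : ({v4, v5, v6} : Finset α) ∈ F)
    (tt : ({v1, u, w} : Finset α) ∈ F)
    (hV : ∀ x ∈ ({v0, v1, v2, v3, v4, v5, v6, u, w} : Finset α), x ∈ V)
    : Ty (insert {v1, u, w} ({{v0, v1, v2}, {v2, v3, v4}, {v4, v5, v6}} : Finset (Finset α))) := by
  simp only [List.nodup_cons, List.mem_cons, List.not_mem_nil, not_or, not_false_eq_true,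
    and_true, or_false, List.nodup_nil] at nd
  obtain ⟨⟨n_v0_v1, n_v0_v2, n_v0_v3, n_v0_v4, n_v0_v5, n_v0_v6, n_v0_u, n_v0_w⟩, ⟨n_v1_v2, n_v1_v3, n_v1_v4, n_v1_v5, n_v1_v6, n_v1_u, n_v1_w⟩, ⟨n_v2_v3, n_v2_v4, n_v2_v5, n_v2_v6, n_v2_u, n_v2_w⟩, ⟨n_v3_v4, n_v3_v5, n_v3_v6, n_v3_u, n_v3_w⟩, ⟨n_v4_v5, n_v4_v6, n_v4_u, n_v4_w⟩, ⟨n_v5_v6, n_v5_u, n_v5_w⟩, ⟨n_v6_u, n_v6_w⟩, n_u_w⟩ := nd
  replace n_v0_v1 : v0 ≠ v1 := n_v0_v1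
  have n_v1_v0 : v1 ≠ v0 := n_v0_v1.symm
  replace n_v0_v2 : v0 ≠ v2 := n_v0_v2
  have n_v2_v0 : v2 ≠ v0 := n_v0_v2.symm
  replace n_v0_v3 : v0 ≠ v3 := n_v0_v3
  have n_v3_v0 : v3 ≠ v0 := n_v0_v3.symm
  replace n_v0_v4 : v0 ≠ v4 := n_v0_v4
  have n_v4_v0 : v4 ≠ v0 := n_v0_v4.symm
  replace n_v0_v5 : v0 ≠ v5 := n_v0_v5
  have n_v5_v0 : v5 ≠ v0 := n_v0_v5.symm
  replace n_v0_v6 : v0 ≠ v6 := n_v0_v6
  have n_v6_v0 : v6 ≠ v0 := n_v0_v6.symm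
  replace n_v0_u : v0 ≠ u := n_v0_u
  have n_u_v0 : u ≠ v0 := n_v0_u.symm
  replace n_v0_w : v0 ≠ w := n_v0_w
  have n_w_v0 : w ≠ v0 := n_v0_w.symm
  replace n_v1_v2 : v1 ≠ v2 := n_v1_v2
  have n_v2_v1 : v2 ≠ v1 := n_v1_v2.symm
  replace n_v1_v3 : v1 ≠ v3 := n_v1_v3
  have n_v3_v1 : v3 ≠ v1 := n_v1_v3.symm
  replace n_v1_v4 : v1 ≠ v4 := n_v1_v4
  have n_v4_v1 : v4 ≠ v1 := n_v1_v4.symm
  replace n_v1_v5 : v1 ≠ v5 := n_v1_v5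
  have n_v5_v1 : v5 ≠ v1 := n_v1_v5.symm
  replace n_v1_v6 : v1 ≠ v6 := n_v1_v6
  have n_v6_v1 : v6 ≠ v1 := n_v1_v6.symm
  replace n_v1_u : v1 ≠ u := n_v1_u
  have n_u_v1 : u ≠ v1 := n_v1_u.symm
  replace n_v1_w : v1 ≠ w := n_v1_w
  have n_w_v1 : w ≠ v1 := n_v1_w.symm
  replace n_v2_v3 : v2 ≠ v3 := n_v2_v3
  have n_v3_v2 : v3 ≠ v2 := n_v2_v3.symm
  replace n_v2_v4 : v2 ≠ v4 := n_v2_v4
  have n_v4_v2 : v4 ≠ v2 := n_v2_v4.symm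
  replace n_v2_v5 : v2 ≠ v5 := n_v2_v5
  have n_v5_v2 : v5 ≠ v2 := n_v2_v5.symm
  replace n_v2_v6 : v2 ≠ v6 := n_v2_v6
  have n_v6_v2 : v6 ≠ v2 := n_v2_v6.symm
  replace n_v2_u : v2 ≠ u := n_v2_u
  have n_u_v2 : u ≠ v2 := n_v2_u.symm
  replace n_v2_w : v2 ≠ w := n_v2_w
  have n_w_v2 : w ≠ v2 := n_v2_w.symm
  replace n_v3_v4 : v3 ≠ v4 := n_v3_v4
  have n_v4_v3 : v4 ≠ v3 := n_v3_v4.symm
  replace n_v3_v5 : v3 ≠ v5 := n_v3_v5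
  have n_v5_v3 : v5 ≠ v3 := n_v3_v5.symm
  replace n_v3_v6 : v3 ≠ v6 := n_v3_v6
  have n_v6_v3 : v6 ≠ v3 := n_v3_v6.symm
  replace n_v3_u : v3 ≠ u := n_v3_u
  have n_u_v3 : u ≠ v3 := n_v3_u.symm
  replace n_v3_w : v3 ≠ w := n_v3_w
  have n_w_v3 : w ≠ v3 := n_v3_w.symm
  replace n_v4_v5 : v4 ≠ v5 := n_v4_v5
  have n_v5_v4 : v5 ≠ v4 := n_v4_v5.symm
  replace n_v4_v6 : v4 ≠ v6 := n_v4_v6
  have n_v6_v4 : v6 ≠ v4 := n_v4_v6.symm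
  replace n_v4_u : v4 ≠ u := n_v4_u
  have n_u_v4 : u ≠ v4 := n_v4_u.symm
  replace n_v4_w : v4 ≠ w := n_v4_w
  have n_w_v4 : w ≠ v4 := n_v4_w.symm
  replace n_v5_v6 : v5 ≠ v6 := n_v5_v6
  have n_v6_v5 : v6 ≠ v5 := n_v5_v6.symm
  replace n_v5_u : v5 ≠ u := n_v5_u
  have n_u_v5 : u ≠ v5 := n_v5_u.symm
  replace n_v5_w : v5 ≠ w := n_v5_w
  have n_w_v5 : w ≠ v5 := n_v5_w.symm
  replace n_v6_u : v6 ≠ u := n_v6_u
  have n_u_v6 : u ≠ v6 := n_v6_u.symm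
  replace n_v6_w : v6 ≠ w := n_v6_w
  have n_w_v6 : w ≠ v6 := n_v6_w.symm
  replace n_u_w : u ≠ w := n_u_w
  have n_w_u : w ≠ u := n_u_w.symm
  have w_v0 : v0 ∈ V := hV _ (by simp only [mem_insert, mem_singleton, true_or, or_true])
  have w_v1 : v1 ∈ V := hV _ (by simp only [mem_insert, mem_singleton, true_or, or_true])
  have w_v2 : v2 ∈ V := hV _ (by simp only [mem_insert, mem_singleton, true_or, or_true])
  have w_v3 : v3 ∈ V := hV _ (by simp only [mem_insert, mem_singleton, true_or, or_true])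
  have w_v4 : v4 ∈ V := hV _ (by simp only [mem_insert, mem_singleton, true_or, or_true])
  have w_v5 : v5 ∈ V := hV _ (by simp only [mem_insert, mem_singleton, true_or, or_true])
  have w_v6 : v6 ∈ V := hV _ (by simp only [mem_insert, mem_singleton, true_or, or_true])
  have w_u : u ∈ V := hV _ (by simp only [mem_insert, mem_singleton, true_or, or_true])
  have w_w : w ∈ V := hV _ (by simp only [mem_insert, mem_singleton, true_or, or_true])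
  have h := Ty.p4 v5 v6 v4 v3 v2 v0 v1 u w (by
    simp only [List.nodup_cons, List.mem_cons, List.not_mem_nil, not_or, not_false_eq_true,
    and_true, or_false, List.nodup_nil]
    exact ⟨⟨n_v5_v6, n_v5_v4, n_v5_v3, n_v5_v2, n_v5_v0, n_v5_v1, n_v5_u, n_v5_w⟩, ⟨n_v6_v4, n_v6_v3, n_v6_v2, n_v6_v0, n_v6_v1, n_v6_u, n_v6_w⟩, ⟨n_v4_v3, n_v4_v2, n_v4_v0, n_v4_v1, n_v4_u, n_v4_w⟩, ⟨n_v3_v2, n_v3_v0, n_v3_v1, n_v3_u, n_v3_w⟩, ⟨n_v2_v0, n_v2_v1, n_v2_u, n_v2_w⟩, ⟨n_v0_v1, n_v0_u, n_v0_w⟩, ⟨n_v1_u, n_v1_w⟩, n_u_w⟩)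
  rw [perm_120 v4 v5 v6] at h
  rw [perm_210 v2 v3 v4] at h
  rw [perm_201 v0 v1 v2] at h
  rw [fperm_3210 (β := Finset α) {v1, u, w} {v0, v1, v2} {v2, v3, v4} {v4, v5, v6}] at h
  exact h

theorem ext_p3_2 {F : Finset (Finset α)} (hF : ∀ A ∈ F, ∀ B ∈ F, A ∪ B ∈ F) {V : Finset α}
    (bad : ∀ x ∈ V, ¬ F.card ≤ 2 * (F.filter (fun A => x ∈ A)).card)
    {v0 v1 v2 v3 v4 v5 v6 u w : α} (nd : [v0, v1, v2, v3, v4, v5, v6, u, w].Nodup)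
    (t0 : ({v0, v1, v2} : Finset α) ∈ F)
    (t1 : ({v2, v3, v4} : Finset α) ∈ F)
    (t2 : ({v4, v5, v6} : Finset α) ∈ F)
    (tt : ({v2, u, w} : Finset α) ∈ F)
    (hV : ∀ x ∈ ({v0, v1, v2, v3, v4, v5, v6, u, w} : Finset α), x ∈ V)
    : Ty (insert {v2, u, w} ({{v0, v1, v2}, {v2, v3, v4}, {v4, v5, v6}} : Finset (Finset α))) := by
  simp only [List.nodup_cons, List.mem_cons, List.not_mem_nil, not_or, not_false_eq_true,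
    and_true, or_false, List.nodup_nil] at nd
  obtain ⟨⟨n_v0_v1, n_v0_v2, n_v0_v3, n_v0_v4, n_v0_v5, n_v0_v6, n_v0_u, n_v0_w⟩, ⟨n_v1_v2, n_v1_v3, n_v1_v4, n_v1_v5, n_v1_v6, n_v1_u, n_v1_w⟩, ⟨n_v2_v3, n_v2_v4, n_v2_v5, n_v2_v6, n_v2_u, n_v2_w⟩, ⟨n_v3_v4, n_v3_v5, n_v3_v6, n_v3_u, n_v3_w⟩, ⟨n_v4_v5, n_v4_v6, n_v4_u, n_v4_w⟩, ⟨n_v5_v6, n_v5_u, n_v5_w⟩, ⟨n_v6_u, n_v6_w⟩, n_u_w⟩ := nd
  replace n_v0_v1 : v0 ≠ v1 := n_v0_v1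
  have n_v1_v0 : v1 ≠ v0 := n_v0_v1.symm
  replace n_v0_v2 : v0 ≠ v2 := n_v0_v2
  have n_v2_v0 : v2 ≠ v0 := n_v0_v2.symm
  replace n_v0_v3 : v0 ≠ v3 := n_v0_v3
  have n_v3_v0 : v3 ≠ v0 := n_v0_v3.symm
  replace n_v0_v4 : v0 ≠ v4 := n_v0_v4
  have n_v4_v0 : v4 ≠ v0 := n_v0_v4.symm
  replace n_v0_v5 : v0 ≠ v5 := n_v0_v5
  have n_v5_v0 : v5 ≠ v0 := n_v0_v5.symm
  replace n_v0_v6 : v0 ≠ v6 := n_v0_v6
  have n_v6_v0 : v6 ≠ v0 := n_v0_v6.symm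
  replace n_v0_u : v0 ≠ u := n_v0_u
  have n_u_v0 : u ≠ v0 := n_v0_u.symm
  replace n_v0_w : v0 ≠ w := n_v0_w
  have n_w_v0 : w ≠ v0 := n_v0_w.symm
  replace n_v1_v2 : v1 ≠ v2 := n_v1_v2
  have n_v2_v1 : v2 ≠ v1 := n_v1_v2.symm
  replace n_v1_v3 : v1 ≠ v3 := n_v1_v3
  have n_v3_v1 : v3 ≠ v1 := n_v1_v3.symm
  replace n_v1_v4 : v1 ≠ v4 := n_v1_v4
  have n_v4_v1 : v4 ≠ v1 := n_v1_v4.symm
  replace n_v1_v5 : v1 ≠ v5 := n_v1_v5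
  have n_v5_v1 : v5 ≠ v1 := n_v1_v5.symm
  replace n_v1_v6 : v1 ≠ v6 := n_v1_v6
  have n_v6_v1 : v6 ≠ v1 := n_v1_v6.symm
  replace n_v1_u : v1 ≠ u := n_v1_u
  have n_u_v1 : u ≠ v1 := n_v1_u.symm
  replace n_v1_w : v1 ≠ w := n_v1_w
  have n_w_v1 : w ≠ v1 := n_v1_w.symm
  replace n_v2_v3 : v2 ≠ v3 := n_v2_v3
  have n_v3_v2 : v3 ≠ v2 := n_v2_v3.symm
  replace n_v2_v4 : v2 ≠ v4 := n_v2_v4
  have n_v4_v2 : v4 ≠ v2 := n_v2_v4.symm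
  replace n_v2_v5 : v2 ≠ v5 := n_v2_v5
  have n_v5_v2 : v5 ≠ v2 := n_v2_v5.symm
  replace n_v2_v6 : v2 ≠ v6 := n_v2_v6
  have n_v6_v2 : v6 ≠ v2 := n_v2_v6.symm
  replace n_v2_u : v2 ≠ u := n_v2_u
  have n_u_v2 : u ≠ v2 := n_v2_u.symm
  replace n_v2_w : v2 ≠ w := n_v2_w
  have n_w_v2 : w ≠ v2 := n_v2_w.symm
  replace n_v3_v4 : v3 ≠ v4 := n_v3_v4
  have n_v4_v3 : v4 ≠ v3 := n_v3_v4.symm
  replace n_v3_v5 : v3 ≠ v5 := n_v3_v5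
  have n_v5_v3 : v5 ≠ v3 := n_v3_v5.symm
  replace n_v3_v6 : v3 ≠ v6 := n_v3_v6
  have n_v6_v3 : v6 ≠ v3 := n_v3_v6.symm
  replace n_v3_u : v3 ≠ u := n_v3_u
  have n_u_v3 : u ≠ v3 := n_v3_u.symm
  replace n_v3_w : v3 ≠ w := n_v3_w
  have n_w_v3 : w ≠ v3 := n_v3_w.symm
  replace n_v4_v5 : v4 ≠ v5 := n_v4_v5
  have n_v5_v4 : v5 ≠ v4 := n_v4_v5.symm
  replace n_v4_v6 : v4 ≠ v6 := n_v4_v6
  have n_v6_v4 : v6 ≠ v4 := n_v4_v6.symm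
  replace n_v4_u : v4 ≠ u := n_v4_u
  have n_u_v4 : u ≠ v4 := n_v4_u.symm
  replace n_v4_w : v4 ≠ w := n_v4_w
  have n_w_v4 : w ≠ v4 := n_v4_w.symm
  replace n_v5_v6 : v5 ≠ v6 := n_v5_v6
  have n_v6_v5 : v6 ≠ v5 := n_v5_v6.symm
  replace n_v5_u : v5 ≠ u := n_v5_u
  have n_u_v5 : u ≠ v5 := n_v5_u.symm
  replace n_v5_w : v5 ≠ w := n_v5_w
  have n_w_v5 : w ≠ v5 := n_v5_w.symm
  replace n_v6_u : v6 ≠ u := n_v6_u
  have n_u_v6 : u ≠ v6 := n_v6_u.symm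
  replace n_v6_w : v6 ≠ w := n_v6_w
  have n_w_v6 : w ≠ v6 := n_v6_w.symm
  replace n_u_w : u ≠ w := n_u_w
  have n_w_u : w ≠ u := n_u_w.symm
  have w_v0 : v0 ∈ V := hV _ (by simp only [mem_insert, mem_singleton, true_or, or_true])
  have w_v1 : v1 ∈ V := hV _ (by simp only [mem_insert, mem_singleton, true_or, or_true])
  have w_v2 : v2 ∈ V := hV _ (by simp only [mem_insert, mem_singleton, true_or, or_true])
  have w_v3 : v3 ∈ V := hV _ (by simp only [mem_insert, mem_singleton, true_or, or_true])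
  have w_v4 : v4 ∈ V := hV _ (by simp only [mem_insert, mem_singleton, true_or, or_true])
  have w_v5 : v5 ∈ V := hV _ (by simp only [mem_insert, mem_singleton, true_or, or_true])
  have w_v6 : v6 ∈ V := hV _ (by simp only [mem_insert, mem_singleton, true_or, or_true])
  have w_u : u ∈ V := hV _ (by simp only [mem_insert, mem_singleton, true_or, or_true])
  have w_w : w ∈ V := hV _ (by simp only [mem_insert, mem_singleton, true_or, or_true])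
  exfalso
  exact deg3_fc hF bad (x := v2) t0 t1 tt (card_eq_three.2 ⟨v0, v1, v2, n_v0_v1, n_v0_v2, n_v1_v2, rfl⟩) (card_eq_three.2 ⟨v2, v3, v4, n_v2_v3, n_v2_v4, n_v3_v4, rfl⟩) (card_eq_three.2 ⟨v2, u, w, n_v2_u, n_v2_w, n_u_w, rfl⟩)
    (by simp only [insert_subset_iff, singleton_subset_iff]; exact ⟨w_v0, w_v1, w_v2⟩) (by simp only [insert_subset_iff, singleton_subset_iff]; exact ⟨w_v2, w_v3, w_v4⟩) (by simp only [insert_subset_iff, singleton_subset_iff]; exact ⟨w_v2, w_u, w_w⟩)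
    (by simp only [mem_insert, mem_singleton, true_or, or_true]) (by simp only [mem_insert, mem_singleton, true_or, or_true]) (by simp only [mem_insert, mem_singleton, true_or, or_true])
    (by
    intro he
    have h : v0 ∈ ({v2, v3, v4} : Finset α) := by
      rw [← he]; simp only [mem_insert, mem_singleton, true_or, or_true]
    simp only [mem_insert, mem_singleton] at h
    rcases h with h | h | h
    · exact n_v0_v2 h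
    · exact n_v0_v3 h
    · exact n_v0_v4 h)
    (by
    intro he
    have h : v0 ∈ ({v2, u, w} : Finset α) := by
      rw [← he]; simp only [mem_insert, mem_singleton, true_or, or_true]
    simp only [mem_insert, mem_singleton] at h
    rcases h with h | h | h
    · exact n_v0_v2 h
    · exact n_v0_u h
    · exact n_v0_w h)
    (by
    intro he
    have h : v3 ∈ ({v2, u, w} : Finset α) := by
      rw [← he]; simp only [mem_insert, mem_singleton, true_or, or_true]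
    simp only [mem_insert, mem_singleton] at h
    rcases h with h | h | h
    · exact n_v3_v2 h
    · exact n_v3_u h
    · exact n_v3_w h)

theorem ext_p3_3 {F : Finset (Finset α)} (hF : ∀ A ∈ F, ∀ B ∈ F, A ∪ B ∈ F) {V : Finset α}
    (bad : ∀ x ∈ V, ¬ F.card ≤ 2 * (F.filter (fun A => x ∈ A)).card)
    {v0 v1 v2 v3 v4 v5 v6 u w : α} (nd : [v0, v1, v2, v3, v4, v5, v6, u, w].Nodup)
    (t0 : ({v0, v1, v2} : Finset α) ∈ F)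
    (t1 : ({v2, v3, v4} : Finset α) ∈ F)
    (t2 : ({v4, v5, v6} : Finset α) ∈ F)
    (tt : ({v3, u, w} : Finset α) ∈ F)
    (hV : ∀ x ∈ ({v0, v1, v2, v3, v4, v5, v6, u, w} : Finset α), x ∈ V)
    : Ty (insert {v3, u, w} ({{v0, v1, v2}, {v2, v3, v4}, {v4, v5, v6}} : Finset (Finset α))) := by
  simp only [List.nodup_cons, List.mem_cons, List.not_mem_nil, not_or, not_false_eq_true,
    and_true, or_false, List.nodup_nil] at nd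
  obtain ⟨⟨n_v0_v1, n_v0_v2, n_v0_v3, n_v0_v4, n_v0_v5, n_v0_v6, n_v0_u, n_v0_w⟩, ⟨n_v1_v2, n_v1_v3, n_v1_v4, n_v1_v5, n_v1_v6, n_v1_u, n_v1_w⟩, ⟨n_v2_v3, n_v2_v4, n_v2_v5, n_v2_v6, n_v2_u, n_v2_w⟩, ⟨n_v3_v4, n_v3_v5, n_v3_v6, n_v3_u, n_v3_w⟩, ⟨n_v4_v5, n_v4_v6, n_v4_u, n_v4_w⟩, ⟨n_v5_v6, n_v5_u, n_v5_w⟩, ⟨n_v6_u, n_v6_w⟩, n_u_w⟩ := nd
  replace n_v0_v1 : v0 ≠ v1 := n_v0_v1
  have n_v1_v0 : v1 ≠ v0 := n_v0_v1.symm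
  replace n_v0_v2 : v0 ≠ v2 := n_v0_v2
  have n_v2_v0 : v2 ≠ v0 := n_v0_v2.symm
  replace n_v0_v3 : v0 ≠ v3 := n_v0_v3
  have n_v3_v0 : v3 ≠ v0 := n_v0_v3.symm
  replace n_v0_v4 : v0 ≠ v4 := n_v0_v4
  have n_v4_v0 : v4 ≠ v0 := n_v0_v4.symm
  replace n_v0_v5 : v0 ≠ v5 := n_v0_v5
  have n_v5_v0 : v5 ≠ v0 := n_v0_v5.symm
  replace n_v0_v6 : v0 ≠ v6 := n_v0_v6
  have n_v6_v0 : v6 ≠ v0 := n_v0_v6.symm
  replace n_v0_u : v0 ≠ u := n_v0_u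
  have n_u_v0 : u ≠ v0 := n_v0_u.symm
  replace n_v0_w : v0 ≠ w := n_v0_w
  have n_w_v0 : w ≠ v0 := n_v0_w.symm
  replace n_v1_v2 : v1 ≠ v2 := n_v1_v2
  have n_v2_v1 : v2 ≠ v1 := n_v1_v2.symm
  replace n_v1_v3 : v1 ≠ v3 := n_v1_v3
  have n_v3_v1 : v3 ≠ v1 := n_v1_v3.symm
  replace n_v1_v4 : v1 ≠ v4 := n_v1_v4
  have n_v4_v1 : v4 ≠ v1 := n_v1_v4.symm
  replace n_v1_v5 : v1 ≠ v5 := n_v1_v5
  have n_v5_v1 : v5 ≠ v1 := n_v1_v5.symm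
  replace n_v1_v6 : v1 ≠ v6 := n_v1_v6
  have n_v6_v1 : v6 ≠ v1 := n_v1_v6.symm
  replace n_v1_u : v1 ≠ u := n_v1_u
  have n_u_v1 : u ≠ v1 := n_v1_u.symm
  replace n_v1_w : v1 ≠ w := n_v1_w
  have n_w_v1 : w ≠ v1 := n_v1_w.symm
  replace n_v2_v3 : v2 ≠ v3 := n_v2_v3
  have n_v3_v2 : v3 ≠ v2 := n_v2_v3.symm
  replace n_v2_v4 : v2 ≠ v4 := n_v2_v4
  have n_v4_v2 : v4 ≠ v2 := n_v2_v4.symm
  replace n_v2_v5 : v2 ≠ v5 := n_v2_v5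
  have n_v5_v2 : v5 ≠ v2 := n_v2_v5.symm
  replace n_v2_v6 : v2 ≠ v6 := n_v2_v6
  have n_v6_v2 : v6 ≠ v2 := n_v2_v6.symm
  replace n_v2_u : v2 ≠ u := n_v2_u
  have n_u_v2 : u ≠ v2 := n_v2_u.symm
  replace n_v2_w : v2 ≠ w := n_v2_w
  have n_w_v2 : w ≠ v2 := n_v2_w.symm
  replace n_v3_v4 : v3 ≠ v4 := n_v3_v4
  have n_v4_v3 : v4 ≠ v3 := n_v3_v4.symm
  replace n_v3_v5 : v3 ≠ v5 := n_v3_v5
  have n_v5_v3 : v5 ≠ v3 := n_v3_v5.symm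
  replace n_v3_v6 : v3 ≠ v6 := n_v3_v6
  have n_v6_v3 : v6 ≠ v3 := n_v3_v6.symm
  replace n_v3_u : v3 ≠ u := n_v3_u
  have n_u_v3 : u ≠ v3 := n_v3_u.symm
  replace n_v3_w : v3 ≠ w := n_v3_w
  have n_w_v3 : w ≠ v3 := n_v3_w.symm
  replace n_v4_v5 : v4 ≠ v5 := n_v4_v5
  have n_v5_v4 : v5 ≠ v4 := n_v4_v5.symm
  replace n_v4_v6 : v4 ≠ v6 := n_v4_v6
  have n_v6_v4 : v6 ≠ v4 := n_v4_v6.symm
  replace n_v4_u : v4 ≠ u := n_v4_u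
  have n_u_v4 : u ≠ v4 := n_v4_u.symm
  replace n_v4_w : v4 ≠ w := n_v4_w
  have n_w_v4 : w ≠ v4 := n_v4_w.symm
  replace n_v5_v6 : v5 ≠ v6 := n_v5_v6
  have n_v6_v5 : v6 ≠ v5 := n_v5_v6.symm
  replace n_v5_u : v5 ≠ u := n_v5_u
  have n_u_v5 : u ≠ v5 := n_v5_u.symm
  replace n_v5_w : v5 ≠ w := n_v5_w
  have n_w_v5 : w ≠ v5 := n_v5_w.symm
  replace n_v6_u : v6 ≠ u := n_v6_u
  have n_u_v6 : u ≠ v6 := n_v6_u.symm
  replace n_v6_w : v6 ≠ w := n_v6_w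
  have n_w_v6 : w ≠ v6 := n_v6_w.symm
  replace n_u_w : u ≠ w := n_u_w
  have n_w_u : w ≠ u := n_u_w.symm
  have w_v0 : v0 ∈ V := hV _ (by simp only [mem_insert, mem_singleton, true_or, or_true])
  have w_v1 : v1 ∈ V := hV _ (by simp only [mem_insert, mem_singleton, true_or, or_true])
  have w_v2 : v2 ∈ V := hV _ (by simp only [mem_insert, mem_singleton, true_or, or_true])
  have w_v3 : v3 ∈ V := hV _ (by simp only [mem_insert, mem_singleton, true_or, or_true])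
  have w_v4 : v4 ∈ V := hV _ (by simp only [mem_insert, mem_singleton, true_or, or_true])
  have w_v5 : v5 ∈ V := hV _ (by simp only [mem_insert, mem_singleton, true_or, or_true])
  have w_v6 : v6 ∈ V := hV _ (by simp only [mem_insert, mem_singleton, true_or, or_true])
  have w_u : u ∈ V := hV _ (by simp only [mem_insert, mem_singleton, true_or, or_true])
  have w_w : w ∈ V := hV _ (by simp only [mem_insert, mem_singleton, true_or, or_true])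
  exfalso
  obtain ⟨x, hx, h⟩ := cfg_spider hF (by
    simp only [List.nodup_cons, List.mem_cons, List.not_mem_nil, not_or, not_false_eq_true,
    and_true, or_false, List.nodup_nil]
    exact ⟨⟨n_v0_v1, n_v0_v2, n_v0_v3, n_v0_v4, n_v0_v5, n_v0_v6, n_v0_u, n_v0_w⟩, ⟨n_v1_v2, n_v1_v3, n_v1_v4, n_v1_v5, n_v1_v6, n_v1_u, n_v1_w⟩, ⟨n_v2_v3, n_v2_v4, n_v2_v5, n_v2_v6, n_v2_u, n_v2_w⟩, ⟨n_v3_v4, n_v3_v5, n_v3_v6, n_v3_u, n_v3_w⟩, ⟨n_v4_v5, n_v4_v6, n_v4_u, n_v4_w⟩, ⟨n_v5_v6, n_v5_u, n_v5_w⟩, ⟨n_v6_u, n_v6_w⟩, n_u_w⟩)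
    (by rw [perm_012 v0 v1 v2]; exact t0) (by rw [perm_012 v2 v3 v4]; exact t1) (by rw [perm_012 v4 v5 v6]; exact t2) (by rw [perm_012 v3 u w]; exact tt)
  refine bad x ?_ h
  simp only [mem_insert, mem_singleton] at hx
  rcases hx with hx | hx | hx | hx | hx | hx | hx | hx | hx <;>
  · rw [hx]; assumption

theorem ext_p3_4 {F : Finset (Finset α)} (hF : ∀ A ∈ F, ∀ B ∈ F, A ∪ B ∈ F) {V : Finset α}
    (bad : ∀ x ∈ V, ¬ F.card ≤ 2 * (F.filter (fun A => x ∈ A)).card)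
    {v0 v1 v2 v3 v4 v5 v6 u w : α} (nd : [v0, v1, v2, v3, v4, v5, v6, u, w].Nodup)
    (t0 : ({v0, v1, v2} : Finset α) ∈ F)
    (t1 : ({v2, v3, v4} : Finset α) ∈ F)
    (t2 : ({v4, v5, v6} : Finset α) ∈ F)
    (tt : ({v4, u, w} : Finset α) ∈ F)
    (hV : ∀ x ∈ ({v0, v1, v2, v3, v4, v5, v6, u, w} : Finset α), x ∈ V)
    : Ty (insert {v4, u, w} ({{v0, v1, v2}, {v2, v3, v4}, {v4, v5, v6}} : Finset (Finset α))) := by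
  simp only [List.nodup_cons, List.mem_cons, List.not_mem_nil, not_or, not_false_eq_true,
    and_true, or_false, List.nodup_nil] at nd
  obtain ⟨⟨n_v0_v1, n_v0_v2, n_v0_v3, n_v0_v4, n_v0_v5, n_v0_v6, n_v0_u, n_v0_w⟩, ⟨n_v1_v2, n_v1_v3, n_v1_v4, n_v1_v5, n_v1_v6, n_v1_u, n_v1_w⟩, ⟨n_v2_v3, n_v2_v4, n_v2_v5, n_v2_v6, n_v2_u, n_v2_w⟩, ⟨n_v3_v4, n_v3_v5, n_v3_v6, n_v3_u, n_v3_w⟩, ⟨n_v4_v5, n_v4_v6, n_v4_u, n_v4_w⟩, ⟨n_v5_v6, n_v5_u, n_v5_w⟩, ⟨n_v6_u, n_v6_w⟩, n_u_w⟩ := nd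
  replace n_v0_v1 : v0 ≠ v1 := n_v0_v1
  have n_v1_v0 : v1 ≠ v0 := n_v0_v1.symm
  replace n_v0_v2 : v0 ≠ v2 := n_v0_v2
  have n_v2_v0 : v2 ≠ v0 := n_v0_v2.symm
  replace n_v0_v3 : v0 ≠ v3 := n_v0_v3
  have n_v3_v0 : v3 ≠ v0 := n_v0_v3.symm
  replace n_v0_v4 : v0 ≠ v4 := n_v0_v4
  have n_v4_v0 : v4 ≠ v0 := n_v0_v4.symm
  replace n_v0_v5 : v0 ≠ v5 := n_v0_v5
  have n_v5_v0 : v5 ≠ v0 := n_v0_v5.symm
  replace n_v0_v6 : v0 ≠ v6 := n_v0_v6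
  have n_v6_v0 : v6 ≠ v0 := n_v0_v6.symm
  replace n_v0_u : v0 ≠ u := n_v0_u
  have n_u_v0 : u ≠ v0 := n_v0_u.symm
  replace n_v0_w : v0 ≠ w := n_v0_w
  have n_w_v0 : w ≠ v0 := n_v0_w.symm
  replace n_v1_v2 : v1 ≠ v2 := n_v1_v2
  have n_v2_v1 : v2 ≠ v1 := n_v1_v2.symm
  replace n_v1_v3 : v1 ≠ v3 := n_v1_v3
  have n_v3_v1 : v3 ≠ v1 := n_v1_v3.symm
  replace n_v1_v4 : v1 ≠ v4 := n_v1_v4
  have n_v4_v1 : v4 ≠ v1 := n_v1_v4.symm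
  replace n_v1_v5 : v1 ≠ v5 := n_v1_v5
  have n_v5_v1 : v5 ≠ v1 := n_v1_v5.symm
  replace n_v1_v6 : v1 ≠ v6 := n_v1_v6
  have n_v6_v1 : v6 ≠ v1 := n_v1_v6.symm
  replace n_v1_u : v1 ≠ u := n_v1_u
  have n_u_v1 : u ≠ v1 := n_v1_u.symm
  replace n_v1_w : v1 ≠ w := n_v1_w
  have n_w_v1 : w ≠ v1 := n_v1_w.symm
  replace n_v2_v3 : v2 ≠ v3 := n_v2_v3
  have n_v3_v2 : v3 ≠ v2 := n_v2_v3.symm
  replace n_v2_v4 : v2 ≠ v4 := n_v2_v4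
  have n_v4_v2 : v4 ≠ v2 := n_v2_v4.symm
  replace n_v2_v5 : v2 ≠ v5 := n_v2_v5
  have n_v5_v2 : v5 ≠ v2 := n_v2_v5.symm
  replace n_v2_v6 : v2 ≠ v6 := n_v2_v6
  have n_v6_v2 : v6 ≠ v2 := n_v2_v6.symm
  replace n_v2_u : v2 ≠ u := n_v2_u
  have n_u_v2 : u ≠ v2 := n_v2_u.symm
  replace n_v2_w : v2 ≠ w := n_v2_w
  have n_w_v2 : w ≠ v2 := n_v2_w.symm
  replace n_v3_v4 : v3 ≠ v4 := n_v3_v4
  have n_v4_v3 : v4 ≠ v3 := n_v3_v4.symm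
  replace n_v3_v5 : v3 ≠ v5 := n_v3_v5
  have n_v5_v3 : v5 ≠ v3 := n_v3_v5.symm
  replace n_v3_v6 : v3 ≠ v6 := n_v3_v6
  have n_v6_v3 : v6 ≠ v3 := n_v3_v6.symm
  replace n_v3_u : v3 ≠ u := n_v3_u
  have n_u_v3 : u ≠ v3 := n_v3_u.symm
  replace n_v3_w : v3 ≠ w := n_v3_w
  have n_w_v3 : w ≠ v3 := n_v3_w.symm
  replace n_v4_v5 : v4 ≠ v5 := n_v4_v5
  have n_v5_v4 : v5 ≠ v4 := n_v4_v5.symm
  replace n_v4_v6 : v4 ≠ v6 := n_v4_v6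
  have n_v6_v4 : v6 ≠ v4 := n_v4_v6.symm
  replace n_v4_u : v4 ≠ u := n_v4_u
  have n_u_v4 : u ≠ v4 := n_v4_u.symm
  replace n_v4_w : v4 ≠ w := n_v4_w
  have n_w_v4 : w ≠ v4 := n_v4_w.symm
  replace n_v5_v6 : v5 ≠ v6 := n_v5_v6
  have n_v6_v5 : v6 ≠ v5 := n_v5_v6.symm
  replace n_v5_u : v5 ≠ u := n_v5_u
  have n_u_v5 : u ≠ v5 := n_v5_u.symm
  replace n_v5_w : v5 ≠ w := n_v5_w
  have n_w_v5 : w ≠ v5 := n_v5_w.symm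
  replace n_v6_u : v6 ≠ u := n_v6_u
  have n_u_v6 : u ≠ v6 := n_v6_u.symm
  replace n_v6_w : v6 ≠ w := n_v6_w
  have n_w_v6 : w ≠ v6 := n_v6_w.symm
  replace n_u_w : u ≠ w := n_u_w
  have n_w_u : w ≠ u := n_u_w.symm
  have w_v0 : v0 ∈ V := hV _ (by simp only [mem_insert, mem_singleton, true_or, or_true])
  have w_v1 : v1 ∈ V := hV _ (by simp only [mem_insert, mem_singleton, true_or, or_true])
  have w_v2 : v2 ∈ V := hV _ (by simp only [mem_insert, mem_singleton, true_or, or_true])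
  have w_v3 : v3 ∈ V := hV _ (by simp only [mem_insert, mem_singleton, true_or, or_true])
  have w_v4 : v4 ∈ V := hV _ (by simp only [mem_insert, mem_singleton, true_or, or_true])
  have w_v5 : v5 ∈ V := hV _ (by simp only [mem_insert, mem_singleton, true_or, or_true])
  have w_v6 : v6 ∈ V := hV _ (by simp only [mem_insert, mem_singleton, true_or, or_true])
  have w_u : u ∈ V := hV _ (by simp only [mem_insert, mem_singleton, true_or, or_true])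
  have w_w : w ∈ V := hV _ (by simp only [mem_insert, mem_singleton, true_or, or_true])
  exfalso
  exact deg3_fc hF bad (x := v4) t1 t2 tt (card_eq_three.2 ⟨v2, v3, v4, n_v2_v3, n_v2_v4, n_v3_v4, rfl⟩) (card_eq_three.2 ⟨v4, v5, v6, n_v4_v5, n_v4_v6, n_v5_v6, rfl⟩) (card_eq_three.2 ⟨v4, u, w, n_v4_u, n_v4_w, n_u_w, rfl⟩)
    (by simp only [insert_subset_iff, singleton_subset_iff]; exact ⟨w_v2, w_v3, w_v4⟩) (by simp only [insert_subset_iff, singleton_subset_iff]; exact ⟨w_v4, w_v5, w_v6⟩) (by simp only [insert_subset_iff, singleton_subset_iff]; exact ⟨w_v4, w_u, w_w⟩)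
    (by simp only [mem_insert, mem_singleton, true_or, or_true]) (by simp only [mem_insert, mem_singleton, true_or, or_true]) (by simp only [mem_insert, mem_singleton, true_or, or_true])
    (by
    intro he
    have h : v2 ∈ ({v4, v5, v6} : Finset α) := by
      rw [← he]; simp only [mem_insert, mem_singleton, true_or, or_true]
    simp only [mem_insert, mem_singleton] at h
    rcases h with h | h | h
    · exact n_v2_v4 h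
    · exact n_v2_v5 h
    · exact n_v2_v6 h)
    (by
    intro he
    have h : v2 ∈ ({v4, u, w} : Finset α) := by
      rw [← he]; simp only [mem_insert, mem_singleton, true_or, or_true]
    simp only [mem_insert, mem_singleton] at h
    rcases h with h | h | h
    · exact n_v2_v4 h
    · exact n_v2_u h
    · exact n_v2_w h)
    (by
    intro he
    have h : v5 ∈ ({v4, u, w} : Finset α) := by
      rw [← he]; simp only [mem_insert, mem_singleton, true_or, or_true]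
    simp only [mem_insert, mem_singleton] at h
    rcases h with h | h | h
    · exact n_v5_v4 h
    · exact n_v5_u h
    · exact n_v5_w h)

theorem ext_p3_5 {F : Finset (Finset α)} (hF : ∀ A ∈ F, ∀ B ∈ F, A ∪ B ∈ F) {V : Finset α}
    (bad : ∀ x ∈ V, ¬ F.card ≤ 2 * (F.filter (fun A => x ∈ A)).card)
    {v0 v1 v2 v3 v4 v5 v6 u w : α} (nd : [v0, v1, v2, v3, v4, v5, v6, u, w].Nodup)
    (t0 : ({v0, v1, v2} : Finset α) ∈ F)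
    (t1 : ({v2, v3, v4} : Finset α) ∈ F)
    (t2 : ({v4, v5, v6} : Finset α) ∈ F)
    (tt : ({v5, u, w} : Finset α) ∈ F)
    (hV : ∀ x ∈ ({v0, v1, v2, v3, v4, v5, v6, u, w} : Finset α), x ∈ V)
    : Ty (insert {v5, u, w} ({{v0, v1, v2}, {v2, v3, v4}, {v4, v5, v6}} : Finset (Finset α))) := by
  simp only [List.nodup_cons, List.mem_cons, List.not_mem_nil, not_or, not_false_eq_true,
    and_true, or_false, List.nodup_nil] at nd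
  obtain ⟨⟨n_v0_v1, n_v0_v2, n_v0_v3, n_v0_v4, n_v0_v5, n_v0_v6, n_v0_u, n_v0_w⟩, ⟨n_v1_v2, n_v1_v3, n_v1_v4, n_v1_v5, n_v1_v6, n_v1_u, n_v1_w⟩, ⟨n_v2_v3, n_v2_v4, n_v2_v5, n_v2_v6, n_v2_u, n_v2_w⟩, ⟨n_v3_v4, n_v3_v5, n_v3_v6, n_v3_u, n_v3_w⟩, ⟨n_v4_v5, n_v4_v6, n_v4_u, n_v4_w⟩, ⟨n_v5_v6, n_v5_u, n_v5_w⟩, ⟨n_v6_u, n_v6_w⟩, n_u_w⟩ := nd
  replace n_v0_v1 : v0 ≠ v1 := n_v0_v1
  have n_v1_v0 : v1 ≠ v0 := n_v0_v1.symm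
  replace n_v0_v2 : v0 ≠ v2 := n_v0_v2
  have n_v2_v0 : v2 ≠ v0 := n_v0_v2.symm
  replace n_v0_v3 : v0 ≠ v3 := n_v0_v3
  have n_v3_v0 : v3 ≠ v0 := n_v0_v3.symm
  replace n_v0_v4 : v0 ≠ v4 := n_v0_v4
  have n_v4_v0 : v4 ≠ v0 := n_v0_v4.symm
  replace n_v0_v5 : v0 ≠ v5 := n_v0_v5
  have n_v5_v0 : v5 ≠ v0 := n_v0_v5.symm
  replace n_v0_v6 : v0 ≠ v6 := n_v0_v6
  have n_v6_v0 : v6 ≠ v0 := n_v0_v6.symm
  replace n_v0_u : v0 ≠ u := n_v0_u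
  have n_u_v0 : u ≠ v0 := n_v0_u.symm
  replace n_v0_w : v0 ≠ w := n_v0_w
  have n_w_v0 : w ≠ v0 := n_v0_w.symm
  replace n_v1_v2 : v1 ≠ v2 := n_v1_v2
  have n_v2_v1 : v2 ≠ v1 := n_v1_v2.symm
  replace n_v1_v3 : v1 ≠ v3 := n_v1_v3
  have n_v3_v1 : v3 ≠ v1 := n_v1_v3.symm
  replace n_v1_v4 : v1 ≠ v4 := n_v1_v4
  have n_v4_v1 : v4 ≠ v1 := n_v1_v4.symm
  replace n_v1_v5 : v1 ≠ v5 := n_v1_v5
  have n_v5_v1 : v5 ≠ v1 := n_v1_v5.symm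
  replace n_v1_v6 : v1 ≠ v6 := n_v1_v6
  have n_v6_v1 : v6 ≠ v1 := n_v1_v6.symm
  replace n_v1_u : v1 ≠ u := n_v1_u
  have n_u_v1 : u ≠ v1 := n_v1_u.symm
  replace n_v1_w : v1 ≠ w := n_v1_w
  have n_w_v1 : w ≠ v1 := n_v1_w.symm
  replace n_v2_v3 : v2 ≠ v3 := n_v2_v3
  have n_v3_v2 : v3 ≠ v2 := n_v2_v3.symm
  replace n_v2_v4 : v2 ≠ v4 := n_v2_v4
  have n_v4_v2 : v4 ≠ v2 := n_v2_v4.symm
  replace n_v2_v5 : v2 ≠ v5 := n_v2_v5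
  have n_v5_v2 : v5 ≠ v2 := n_v2_v5.symm
  replace n_v2_v6 : v2 ≠ v6 := n_v2_v6
  have n_v6_v2 : v6 ≠ v2 := n_v2_v6.symm
  replace n_v2_u : v2 ≠ u := n_v2_u
  have n_u_v2 : u ≠ v2 := n_v2_u.symm
  replace n_v2_w : v2 ≠ w := n_v2_w
  have n_w_v2 : w ≠ v2 := n_v2_w.symm
  replace n_v3_v4 : v3 ≠ v4 := n_v3_v4
  have n_v4_v3 : v4 ≠ v3 := n_v3_v4.symm
  replace n_v3_v5 : v3 ≠ v5 := n_v3_v5
  have n_v5_v3 : v5 ≠ v3 := n_v3_v5.symm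
  replace n_v3_v6 : v3 ≠ v6 := n_v3_v6
  have n_v6_v3 : v6 ≠ v3 := n_v3_v6.symm
  replace n_v3_u : v3 ≠ u := n_v3_u
  have n_u_v3 : u ≠ v3 := n_v3_u.symm
  replace n_v3_w : v3 ≠ w := n_v3_w
  have n_w_v3 : w ≠ v3 := n_v3_w.symm
  replace n_v4_v5 : v4 ≠ v5 := n_v4_v5
  have n_v5_v4 : v5 ≠ v4 := n_v4_v5.symm
  replace n_v4_v6 : v4 ≠ v6 := n_v4_v6
  have n_v6_v4 : v6 ≠ v4 := n_v4_v6.symm
  replace n_v4_u : v4 ≠ u := n_v4_u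
  have n_u_v4 : u ≠ v4 := n_v4_u.symm
  replace n_v4_w : v4 ≠ w := n_v4_w
  have n_w_v4 : w ≠ v4 := n_v4_w.symm
  replace n_v5_v6 : v5 ≠ v6 := n_v5_v6
  have n_v6_v5 : v6 ≠ v5 := n_v5_v6.symm
  replace n_v5_u : v5 ≠ u := n_v5_u
  have n_u_v5 : u ≠ v5 := n_v5_u.symm
  replace n_v5_w : v5 ≠ w := n_v5_w
  have n_w_v5 : w ≠ v5 := n_v5_w.symm
  replace n_v6_u : v6 ≠ u := n_v6_u
  have n_u_v6 : u ≠ v6 := n_v6_u.symm
  replace n_v6_w : v6 ≠ w := n_v6_w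
  have n_w_v6 : w ≠ v6 := n_v6_w.symm
  replace n_u_w : u ≠ w := n_u_w
  have n_w_u : w ≠ u := n_u_w.symm
  have w_v0 : v0 ∈ V := hV _ (by simp only [mem_insert, mem_singleton, true_or, or_true])
  have w_v1 : v1 ∈ V := hV _ (by simp only [mem_insert, mem_singleton, true_or, or_true])
  have w_v2 : v2 ∈ V := hV _ (by simp only [mem_insert, mem_singleton, true_or, or_true])
  have w_v3 : v3 ∈ V := hV _ (by simp only [mem_insert, mem_singleton, true_or, or_true])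
  have w_v4 : v4 ∈ V := hV _ (by simp only [mem_insert, mem_singleton, true_or, or_true])
  have w_v5 : v5 ∈ V := hV _ (by simp only [mem_insert, mem_singleton, true_or, or_true])
  have w_v6 : v6 ∈ V := hV _ (by simp only [mem_insert, mem_singleton, true_or, or_true])
  have w_u : u ∈ V := hV _ (by simp only [mem_insert, mem_singleton, true_or, or_true])
  have w_w : w ∈ V := hV _ (by simp only [mem_insert, mem_singleton, true_or, or_true])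
  have h := Ty.p4 v0 v1 v2 v3 v4 v6 v5 u w (by
    simp only [List.nodup_cons, List.mem_cons, List.not_mem_nil, not_or, not_false_eq_true,
    and_true, or_false, List.nodup_nil]
    exact ⟨⟨n_v0_v1, n_v0_v2, n_v0_v3, n_v0_v4, n_v0_v6, n_v0_v5, n_v0_u, n_v0_w⟩, ⟨n_v1_v2, n_v1_v3, n_v1_v4, n_v1_v6, n_v1_v5, n_v1_u, n_v1_w⟩, ⟨n_v2_v3, n_v2_v4, n_v2_v6, n_v2_v5, n_v2_u, n_v2_w⟩, ⟨n_v3_v4, n_v3_v6, n_v3_v5, n_v3_u, n_v3_w⟩, ⟨n_v4_v6, n_v4_v5, n_v4_u, n_v4_w⟩, ⟨n_v6_v5, n_v6_u, n_v6_w⟩, ⟨n_v5_u, n_v5_w⟩, n_u_w⟩)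
  rw [perm_021 v4 v5 v6] at h
  rw [fperm_1230 (β := Finset α) {v5, u, w} {v0, v1, v2} {v2, v3, v4} {v4, v5, v6}] at h
  exact h

theorem ext_p3_6 {F : Finset (Finset α)} (hF : ∀ A ∈ F, ∀ B ∈ F, A ∪ B ∈ F) {V : Finset α}
    (bad : ∀ x ∈ V, ¬ F.card ≤ 2 * (F.filter (fun A => x ∈ A)).card)
    {v0 v1 v2 v3 v4 v5 v6 u w : α} (nd : [v0, v1, v2, v3, v4, v5, v6, u, w].Nodup)
    (t0 : ({v0, v1, v2} : Finset α) ∈ F)
    (t1 : ({v2, v3, v4} : Finset α) ∈ F)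
    (t2 : ({v4, v5, v6} : Finset α) ∈ F)
    (tt : ({v6, u, w} : Finset α) ∈ F)
    (hV : ∀ x ∈ ({v0, v1, v2, v3, v4, v5, v6, u, w} : Finset α), x ∈ V)
    : Ty (insert {v6, u, w} ({{v0, v1, v2}, {v2, v3, v4}, {v4, v5, v6}} : Finset (Finset α))) := by
  simp only [List.nodup_cons, List.mem_cons, List.not_mem_nil, not_or, not_false_eq_true,
    and_true, or_false, List.nodup_nil] at nd
  obtain ⟨⟨n_v0_v1, n_v0_v2, n_v0_v3, n_v0_v4, n_v0_v5, n_v0_v6, n_v0_u, n_v0_w⟩, ⟨n_v1_v2, n_v1_v3, n_v1_v4, n_v1_v5, n_v1_v6, n_v1_u, n_v1_w⟩, ⟨n_v2_v3, n_v2_v4, n_v2_v5, n_v2_v6, n_v2_u, n_v2_w⟩, ⟨n_v3_v4, n_v3_v5, n_v3_v6, n_v3_u, n_v3_w⟩, ⟨n_v4_v5, n_v4_v6, n_v4_u, n_v4_w⟩, ⟨n_v5_v6, n_v5_u, n_v5_w⟩, ⟨n_v6_u, n_v6_w⟩, n_u_w⟩ := nd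
  replace n_v0_v1 : v0 ≠ v1 := n_v0_v1
  have n_v1_v0 : v1 ≠ v0 := n_v0_v1.symm
  replace n_v0_v2 : v0 ≠ v2 := n_v0_v2
  have n_v2_v0 : v2 ≠ v0 := n_v0_v2.symm
  replace n_v0_v3 : v0 ≠ v3 := n_v0_v3
  have n_v3_v0 : v3 ≠ v0 := n_v0_v3.symm
  replace n_v0_v4 : v0 ≠ v4 := n_v0_v4
  have n_v4_v0 : v4 ≠ v0 := n_v0_v4.symm
  replace n_v0_v5 : v0 ≠ v5 := n_v0_v5
  have n_v5_v0 : v5 ≠ v0 := n_v0_v5.symm
  replace n_v0_v6 : v0 ≠ v6 := n_v0_v6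
  have n_v6_v0 : v6 ≠ v0 := n_v0_v6.symm
  replace n_v0_u : v0 ≠ u := n_v0_u
  have n_u_v0 : u ≠ v0 := n_v0_u.symm
  replace n_v0_w : v0 ≠ w := n_v0_w
  have n_w_v0 : w ≠ v0 := n_v0_w.symm
  replace n_v1_v2 : v1 ≠ v2 := n_v1_v2
  have n_v2_v1 : v2 ≠ v1 := n_v1_v2.symm
  replace n_v1_v3 : v1 ≠ v3 := n_v1_v3
  have n_v3_v1 : v3 ≠ v1 := n_v1_v3.symm
  replace n_v1_v4 : v1 ≠ v4 := n_v1_v4
  have n_v4_v1 : v4 ≠ v1 := n_v1_v4.symm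
  replace n_v1_v5 : v1 ≠ v5 := n_v1_v5
  have n_v5_v1 : v5 ≠ v1 := n_v1_v5.symm
  replace n_v1_v6 : v1 ≠ v6 := n_v1_v6
  have n_v6_v1 : v6 ≠ v1 := n_v1_v6.symm
  replace n_v1_u : v1 ≠ u := n_v1_u
  have n_u_v1 : u ≠ v1 := n_v1_u.symm
  replace n_v1_w : v1 ≠ w := n_v1_w
  have n_w_v1 : w ≠ v1 := n_v1_w.symm
  replace n_v2_v3 : v2 ≠ v3 := n_v2_v3
  have n_v3_v2 : v3 ≠ v2 := n_v2_v3.symm
  replace n_v2_v4 : v2 ≠ v4 := n_v2_v4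
  have n_v4_v2 : v4 ≠ v2 := n_v2_v4.symm
  replace n_v2_v5 : v2 ≠ v5 := n_v2_v5
  have n_v5_v2 : v5 ≠ v2 := n_v2_v5.symm
  replace n_v2_v6 : v2 ≠ v6 := n_v2_v6
  have n_v6_v2 : v6 ≠ v2 := n_v2_v6.symm
  replace n_v2_u : v2 ≠ u := n_v2_u
  have n_u_v2 : u ≠ v2 := n_v2_u.symm
  replace n_v2_w : v2 ≠ w := n_v2_w
  have n_w_v2 : w ≠ v2 := n_v2_w.symm
  replace n_v3_v4 : v3 ≠ v4 := n_v3_v4
  have n_v4_v3 : v4 ≠ v3 := n_v3_v4.symm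
  replace n_v3_v5 : v3 ≠ v5 := n_v3_v5
  have n_v5_v3 : v5 ≠ v3 := n_v3_v5.symm
  replace n_v3_v6 : v3 ≠ v6 := n_v3_v6
  have n_v6_v3 : v6 ≠ v3 := n_v3_v6.symm
  replace n_v3_u : v3 ≠ u := n_v3_u
  have n_u_v3 : u ≠ v3 := n_v3_u.symm
  replace n_v3_w : v3 ≠ w := n_v3_w
  have n_w_v3 : w ≠ v3 := n_v3_w.symm
  replace n_v4_v5 : v4 ≠ v5 := n_v4_v5
  have n_v5_v4 : v5 ≠ v4 := n_v4_v5.symm
  replace n_v4_v6 : v4 ≠ v6 := n_v4_v6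
  have n_v6_v4 : v6 ≠ v4 := n_v4_v6.symm
  replace n_v4_u : v4 ≠ u := n_v4_u
  have n_u_v4 : u ≠ v4 := n_v4_u.symm
  replace n_v4_w : v4 ≠ w := n_v4_w
  have n_w_v4 : w ≠ v4 := n_v4_w.symm
  replace n_v5_v6 : v5 ≠ v6 := n_v5_v6
  have n_v6_v5 : v6 ≠ v5 := n_v5_v6.symm
  replace n_v5_u : v5 ≠ u := n_v5_u
  have n_u_v5 : u ≠ v5 := n_v5_u.symm
  replace n_v5_w : v5 ≠ w := n_v5_w
  have n_w_v5 : w ≠ v5 := n_v5_w.symm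
  replace n_v6_u : v6 ≠ u := n_v6_u
  have n_u_v6 : u ≠ v6 := n_v6_u.symm
  replace n_v6_w : v6 ≠ w := n_v6_w
  have n_w_v6 : w ≠ v6 := n_v6_w.symm
  replace n_u_w : u ≠ w := n_u_w
  have n_w_u : w ≠ u := n_u_w.symm
  have w_v0 : v0 ∈ V := hV _ (by simp only [mem_insert, mem_singleton, true_or, or_true])
  have w_v1 : v1 ∈ V := hV _ (by simp only [mem_insert, mem_singleton, true_or, or_true])
  have w_v2 : v2 ∈ V := hV _ (by simp only [mem_insert, mem_singleton, true_or, or_true])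
  have w_v3 : v3 ∈ V := hV _ (by simp only [mem_insert, mem_singleton, true_or, or_true])
  have w_v4 : v4 ∈ V := hV _ (by simp only [mem_insert, mem_singleton, true_or, or_true])
  have w_v5 : v5 ∈ V := hV _ (by simp only [mem_insert, mem_singleton, true_or, or_true])
  have w_v6 : v6 ∈ V := hV _ (by simp only [mem_insert, mem_singleton, true_or, or_true])
  have w_u : u ∈ V := hV _ (by simp only [mem_insert, mem_singleton, true_or, or_true])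
  have w_w : w ∈ V := hV _ (by simp only [mem_insert, mem_singleton, true_or, or_true])
  have h := Ty.p4 v0 v1 v2 v3 v4 v5 v6 u w (by
    simp only [List.nodup_cons, List.mem_cons, List.not_mem_nil, not_or, not_false_eq_true,
    and_true, or_false, List.nodup_nil]
    exact ⟨⟨n_v0_v1, n_v0_v2, n_v0_v3, n_v0_v4, n_v0_v5, n_v0_v6, n_v0_u, n_v0_w⟩, ⟨n_v1_v2, n_v1_v3, n_v1_v4, n_v1_v5, n_v1_v6, n_v1_u, n_v1_w⟩, ⟨n_v2_v3, n_v2_v4, n_v2_v5, n_v2_v6, n_v2_u, n_v2_w⟩, ⟨n_v3_v4, n_v3_v5, n_v3_v6, n_v3_u, n_v3_w⟩, ⟨n_v4_v5, n_v4_v6, n_v4_u, n_v4_w⟩, ⟨n_v5_v6, n_v5_u, n_v5_w⟩, ⟨n_v6_u, n_v6_w⟩, n_u_w⟩)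
  rw [fperm_1230 (β := Finset α) {v6, u, w} {v0, v1, v2} {v2, v3, v4} {v4, v5, v6}] at h
  exact h

theorem ext_p4_0 {F : Finset (Finset α)} (hF : ∀ A ∈ F, ∀ B ∈ F, A ∪ B ∈ F) {V : Finset α}
    (bad : ∀ x ∈ V, ¬ F.card ≤ 2 * (F.filter (fun A => x ∈ A)).card)
    {v0 v1 v2 v3 v4 v5 v6 v7 v8 u w : α} (nd : [v0, v1, v2, v3, v4, v5, v6, v7, v8, u, w].Nodup)
    (t0 : ({v0, v1, v2} : Finset α) ∈ F)
    (t1 : ({v2, v3, v4} : Finset α) ∈ F)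
    (t2 : ({v4, v5, v6} : Finset α) ∈ F)
    (t3 : ({v6, v7, v8} : Finset α) ∈ F)
    (tt : ({v0, u, w} : Finset α) ∈ F)
    (hV : ∀ x ∈ ({v0, v1, v2, v3, v4, v5, v6, v7, v8, u, w} : Finset α), x ∈ V)
    : Ty (insert {v0, u, w} ({{v0, v1, v2}, {v2, v3, v4}, {v4, v5, v6}, {v6, v7, v8}} : Finset (Finset α))) := by
  simp only [List.nodup_cons, List.mem_cons, List.not_mem_nil, not_or, not_false_eq_true,
    and_true, or_false, List.nodup_nil] at nd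
  obtain ⟨⟨n_v0_v1, n_v0_v2, n_v0_v3, n_v0_v4, n_v0_v5, n_v0_v6, n_v0_v7, n_v0_v8, n_v0_u, n_v0_w⟩, ⟨n_v1_v2, n_v1_v3, n_v1_v4, n_v1_v5, n_v1_v6, n_v1_v7, n_v1_v8, n_v1_u, n_v1_w⟩, ⟨n_v2_v3, n_v2_v4, n_v2_v5, n_v2_v6, n_v2_v7, n_v2_v8, n_v2_u, n_v2_w⟩, ⟨n_v3_v4, n_v3_v5, n_v3_v6, n_v3_v7, n_v3_v8, n_v3_u, n_v3_w⟩, ⟨n_v4_v5, n_v4_v6, n_v4_v7, n_v4_v8, n_v4_u, n_v4_w⟩, ⟨n_v5_v6, n_v5_v7, n_v5_v8, n_v5_u, n_v5_w⟩, ⟨n_v6_v7, n_v6_v8, n_v6_u, n_v6_w⟩, ⟨n_v7_v8, n_v7_u, n_v7_w⟩, ⟨n_v8_u, n_v8_w⟩, n_u_w⟩ := nd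
  replace n_v0_v1 : v0 ≠ v1 := n_v0_v1
  have n_v1_v0 : v1 ≠ v0 := n_v0_v1.symm
  replace n_v0_v2 : v0 ≠ v2 := n_v0_v2
  have n_v2_v0 : v2 ≠ v0 := n_v0_v2.symm
  replace n_v0_v3 : v0 ≠ v3 := n_v0_v3
  have n_v3_v0 : v3 ≠ v0 := n_v0_v3.symm
  replace n_v0_v4 : v0 ≠ v4 := n_v0_v4
  have n_v4_v0 : v4 ≠ v0 := n_v0_v4.symm
  replace n_v0_v5 : v0 ≠ v5 := n_v0_v5
  have n_v5_v0 : v5 ≠ v0 := n_v0_v5.symm
  replace n_v0_v6 : v0 ≠ v6 := n_v0_v6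
  have n_v6_v0 : v6 ≠ v0 := n_v0_v6.symm
  replace n_v0_v7 : v0 ≠ v7 := n_v0_v7
  have n_v7_v0 : v7 ≠ v0 := n_v0_v7.symm
  replace n_v0_v8 : v0 ≠ v8 := n_v0_v8
  have n_v8_v0 : v8 ≠ v0 := n_v0_v8.symm
  replace n_v0_u : v0 ≠ u := n_v0_u
  have n_u_v0 : u ≠ v0 := n_v0_u.symm
  replace n_v0_w : v0 ≠ w := n_v0_w
  have n_w_v0 : w ≠ v0 := n_v0_w.symm
  replace n_v1_v2 : v1 ≠ v2 := n_v1_v2
  have n_v2_v1 : v2 ≠ v1 := n_v1_v2.symm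
  replace n_v1_v3 : v1 ≠ v3 := n_v1_v3
  have n_v3_v1 : v3 ≠ v1 := n_v1_v3.symm
  replace n_v1_v4 : v1 ≠ v4 := n_v1_v4
  have n_v4_v1 : v4 ≠ v1 := n_v1_v4.symm
  replace n_v1_v5 : v1 ≠ v5 := n_v1_v5
  have n_v5_v1 : v5 ≠ v1 := n_v1_v5.symm
  replace n_v1_v6 : v1 ≠ v6 := n_v1_v6
  have n_v6_v1 : v6 ≠ v1 := n_v1_v6.symm
  replace n_v1_v7 : v1 ≠ v7 := n_v1_v7
  have n_v7_v1 : v7 ≠ v1 := n_v1_v7.symm
  replace n_v1_v8 : v1 ≠ v8 := n_v1_v8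
  have n_v8_v1 : v8 ≠ v1 := n_v1_v8.symm
  replace n_v1_u : v1 ≠ u := n_v1_u
  have n_u_v1 : u ≠ v1 := n_v1_u.symm
  replace n_v1_w : v1 ≠ w := n_v1_w
  have n_w_v1 : w ≠ v1 := n_v1_w.symm
  replace n_v2_v3 : v2 ≠ v3 := n_v2_v3
  have n_v3_v2 : v3 ≠ v2 := n_v2_v3.symm
  replace n_v2_v4 : v2 ≠ v4 := n_v2_v4
  have n_v4_v2 : v4 ≠ v2 := n_v2_v4.symm
  replace n_v2_v5 : v2 ≠ v5 := n_v2_v5
  have n_v5_v2 : v5 ≠ v2 := n_v2_v5.symm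
  replace n_v2_v6 : v2 ≠ v6 := n_v2_v6
  have n_v6_v2 : v6 ≠ v2 := n_v2_v6.symm
  replace n_v2_v7 : v2 ≠ v7 := n_v2_v7
  have n_v7_v2 : v7 ≠ v2 := n_v2_v7.symm
  replace n_v2_v8 : v2 ≠ v8 := n_v2_v8
  have n_v8_v2 : v8 ≠ v2 := n_v2_v8.symm
  replace n_v2_u : v2 ≠ u := n_v2_u
  have n_u_v2 : u ≠ v2 := n_v2_u.symm
  replace n_v2_w : v2 ≠ w := n_v2_w
  have n_w_v2 : w ≠ v2 := n_v2_w.symm
  replace n_v3_v4 : v3 ≠ v4 := n_v3_v4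
  have n_v4_v3 : v4 ≠ v3 := n_v3_v4.symm
  replace n_v3_v5 : v3 ≠ v5 := n_v3_v5
  have n_v5_v3 : v5 ≠ v3 := n_v3_v5.symm
  replace n_v3_v6 : v3 ≠ v6 := n_v3_v6
  have n_v6_v3 : v6 ≠ v3 := n_v3_v6.symm
  replace n_v3_v7 : v3 ≠ v7 := n_v3_v7
  have n_v7_v3 : v7 ≠ v3 := n_v3_v7.symm
  replace n_v3_v8 : v3 ≠ v8 := n_v3_v8
  have n_v8_v3 : v8 ≠ v3 := n_v3_v8.symm
  replace n_v3_u : v3 ≠ u := n_v3_u
  have n_u_v3 : u ≠ v3 := n_v3_u.symm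
  replace n_v3_w : v3 ≠ w := n_v3_w
  have n_w_v3 : w ≠ v3 := n_v3_w.symm
  replace n_v4_v5 : v4 ≠ v5 := n_v4_v5
  have n_v5_v4 : v5 ≠ v4 := n_v4_v5.symm
  replace n_v4_v6 : v4 ≠ v6 := n_v4_v6
  have n_v6_v4 : v6 ≠ v4 := n_v4_v6.symm
  replace n_v4_v7 : v4 ≠ v7 := n_v4_v7
  have n_v7_v4 : v7 ≠ v4 := n_v4_v7.symm
  replace n_v4_v8 : v4 ≠ v8 := n_v4_v8
  have n_v8_v4 : v8 ≠ v4 := n_v4_v8.symm
  replace n_v4_u : v4 ≠ u := n_v4_u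
  have n_u_v4 : u ≠ v4 := n_v4_u.symm
  replace n_v4_w : v4 ≠ w := n_v4_w
  have n_w_v4 : w ≠ v4 := n_v4_w.symm
  replace n_v5_v6 : v5 ≠ v6 := n_v5_v6
  have n_v6_v5 : v6 ≠ v5 := n_v5_v6.symm
  replace n_v5_v7 : v5 ≠ v7 := n_v5_v7
  have n_v7_v5 : v7 ≠ v5 := n_v5_v7.symm
  replace n_v5_v8 : v5 ≠ v8 := n_v5_v8
  have n_v8_v5 : v8 ≠ v5 := n_v5_v8.symm
  replace n_v5_u : v5 ≠ u := n_v5_u
  have n_u_v5 : u ≠ v5 := n_v5_u.symm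
  replace n_v5_w : v5 ≠ w := n_v5_w
  have n_w_v5 : w ≠ v5 := n_v5_w.symm
  replace n_v6_v7 : v6 ≠ v7 := n_v6_v7
  have n_v7_v6 : v7 ≠ v6 := n_v6_v7.symm
  replace n_v6_v8 : v6 ≠ v8 := n_v6_v8
  have n_v8_v6 : v8 ≠ v6 := n_v6_v8.symm
  replace n_v6_u : v6 ≠ u := n_v6_u
  have n_u_v6 : u ≠ v6 := n_v6_u.symm
  replace n_v6_w : v6 ≠ w := n_v6_w
  have n_w_v6 : w ≠ v6 := n_v6_w.symm
  replace n_v7_v8 : v7 ≠ v8 := n_v7_v8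
  have n_v8_v7 : v8 ≠ v7 := n_v7_v8.symm
  replace n_v7_u : v7 ≠ u := n_v7_u
  have n_u_v7 : u ≠ v7 := n_v7_u.symm
  replace n_v7_w : v7 ≠ w := n_v7_w
  have n_w_v7 : w ≠ v7 := n_v7_w.symm
  replace n_v8_u : v8 ≠ u := n_v8_u
  have n_u_v8 : u ≠ v8 := n_v8_u.symm
  replace n_v8_w : v8 ≠ w := n_v8_w
  have n_w_v8 : w ≠ v8 := n_v8_w.symm
  replace n_u_w : u ≠ w := n_u_w
  have n_w_u : w ≠ u := n_u_w.symm
  have w_v0 : v0 ∈ V := hV _ (by simp only [mem_insert, mem_singleton, true_or, or_true])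
  have w_v1 : v1 ∈ V := hV _ (by simp only [mem_insert, mem_singleton, true_or, or_true])
  have w_v2 : v2 ∈ V := hV _ (by simp only [mem_insert, mem_singleton, true_or, or_true])
  have w_v3 : v3 ∈ V := hV _ (by simp only [mem_insert, mem_singleton, true_or, or_true])
  have w_v4 : v4 ∈ V := hV _ (by simp only [mem_insert, mem_singleton, true_or, or_true])
  have w_v5 : v5 ∈ V := hV _ (by simp only [mem_insert, mem_singleton, true_or, or_true])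
  have w_v6 : v6 ∈ V := hV _ (by simp only [mem_insert, mem_singleton, true_or, or_true])
  have w_v7 : v7 ∈ V := hV _ (by simp only [mem_insert, mem_singleton, true_or, or_true])
  have w_v8 : v8 ∈ V := hV _ (by simp only [mem_insert, mem_singleton, true_or, or_true])
  have w_u : u ∈ V := hV _ (by simp only [mem_insert, mem_singleton, true_or, or_true])
  have w_w : w ∈ V := hV _ (by simp only [mem_insert, mem_singleton, true_or, or_true])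
  exfalso
  obtain ⟨x, hx, h⟩ := cfg_P5 hF (by
    simp only [List.nodup_cons, List.mem_cons, List.not_mem_nil, not_or, not_false_eq_true,
    and_true, or_false, List.nodup_nil]
    exact ⟨⟨n_v7_v8, n_v7_v6, n_v7_v5, n_v7_v4, n_v7_v3, n_v7_v2, n_v7_v1, n_v7_v0, n_v7_u, n_v7_w⟩, ⟨n_v8_v6, n_v8_v5, n_v8_v4, n_v8_v3, n_v8_v2, n_v8_v1, n_v8_v0, n_v8_u, n_v8_w⟩, ⟨n_v6_v5, n_v6_v4, n_v6_v3, n_v6_v2, n_v6_v1, n_v6_v0, n_v6_u, n_v6_w⟩, ⟨n_v5_v4, n_v5_v3, n_v5_v2, n_v5_v1, n_v5_v0, n_v5_u, n_v5_w⟩, ⟨n_v4_v3, n_v4_v2, n_v4_v1, n_v4_v0, n_v4_u, n_v4_w⟩, ⟨n_v3_v2, n_v3_v1, n_v3_v0, n_v3_u, n_v3_w⟩, ⟨n_v2_v1, n_v2_v0, n_v2_u, n_v2_w⟩, ⟨n_v1_v0, n_v1_u, n_v1_w⟩, ⟨n_v0_u, n_v0_w⟩, n_u_w⟩)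
    (by rw [perm_120 v6 v7 v8]; exact t3) (by rw [perm_210 v4 v5 v6]; exact t2) (by rw [perm_210 v2 v3 v4]; exact t1) (by rw [perm_210 v0 v1 v2]; exact t0) (by rw [perm_012 v0 u w]; exact tt)
  refine bad x ?_ h
  simp only [mem_insert, mem_singleton] at hx
  rcases hx with hx | hx | hx | hx | hx | hx | hx | hx | hx | hx | hx <;>
  · rw [hx]; assumption

theorem ext_p4_1 {F : Finset (Finset α)} (hF : ∀ A ∈ F, ∀ B ∈ F, A ∪ B ∈ F) {V : Finset α}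
    (bad : ∀ x ∈ V, ¬ F.card ≤ 2 * (F.filter (fun A => x ∈ A)).card)
    {v0 v1 v2 v3 v4 v5 v6 v7 v8 u w : α} (nd : [v0, v1, v2, v3, v4, v5, v6, v7, v8, u, w].Nodup)
    (t0 : ({v0, v1, v2} : Finset α) ∈ F)
    (t1 : ({v2, v3, v4} : Finset α) ∈ F)
    (t2 : ({v4, v5, v6} : Finset α) ∈ F)
    (t3 : ({v6, v7, v8} : Finset α) ∈ F)
    (tt : ({v1, u, w} : Finset α) ∈ F)
    (hV : ∀ x ∈ ({v0, v1, v2, v3, v4, v5, v6, v7, v8, u, w} : Finset α), x ∈ V)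
    : Ty (insert {v1, u, w} ({{v0, v1, v2}, {v2, v3, v4}, {v4, v5, v6}, {v6, v7, v8}} : Finset (Finset α))) := by
  simp only [List.nodup_cons, List.mem_cons, List.not_mem_nil, not_or, not_false_eq_true,
    and_true, or_false, List.nodup_nil] at nd
  obtain ⟨⟨n_v0_v1, n_v0_v2, n_v0_v3, n_v0_v4, n_v0_v5, n_v0_v6, n_v0_v7, n_v0_v8, n_v0_u, n_v0_w⟩, ⟨n_v1_v2, n_v1_v3, n_v1_v4, n_v1_v5, n_v1_v6, n_v1_v7, n_v1_v8, n_v1_u, n_v1_w⟩, ⟨n_v2_v3, n_v2_v4, n_v2_v5, n_v2_v6, n_v2_v7, n_v2_v8, n_v2_u, n_v2_w⟩, ⟨n_v3_v4, n_v3_v5, n_v3_v6, n_v3_v7, n_v3_v8, n_v3_u, n_v3_w⟩, ⟨n_v4_v5, n_v4_v6, n_v4_v7, n_v4_v8, n_v4_u, n_v4_w⟩, ⟨n_v5_v6, n_v5_v7, n_v5_v8, n_v5_u, n_v5_w⟩, ⟨n_v6_v7, n_v6_v8, n_v6_u, n_v6_w⟩, ⟨n_v7_v8, n_v7_u, n_v7_w⟩, ⟨n_v8_u, n_v8_w⟩, n_u_w⟩ := nd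
  replace n_v0_v1 : v0 ≠ v1 := n_v0_v1
  have n_v1_v0 : v1 ≠ v0 := n_v0_v1.symm
  replace n_v0_v2 : v0 ≠ v2 := n_v0_v2
  have n_v2_v0 : v2 ≠ v0 := n_v0_v2.symm
  replace n_v0_v3 : v0 ≠ v3 := n_v0_v3
  have n_v3_v0 : v3 ≠ v0 := n_v0_v3.symm
  replace n_v0_v4 : v0 ≠ v4 := n_v0_v4
  have n_v4_v0 : v4 ≠ v0 := n_v0_v4.symm
  replace n_v0_v5 : v0 ≠ v5 := n_v0_v5
  have n_v5_v0 : v5 ≠ v0 := n_v0_v5.symm
  replace n_v0_v6 : v0 ≠ v6 := n_v0_v6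
  have n_v6_v0 : v6 ≠ v0 := n_v0_v6.symm
  replace n_v0_v7 : v0 ≠ v7 := n_v0_v7
  have n_v7_v0 : v7 ≠ v0 := n_v0_v7.symm
  replace n_v0_v8 : v0 ≠ v8 := n_v0_v8
  have n_v8_v0 : v8 ≠ v0 := n_v0_v8.symm
  replace n_v0_u : v0 ≠ u := n_v0_u
  have n_u_v0 : u ≠ v0 := n_v0_u.symm
  replace n_v0_w : v0 ≠ w := n_v0_w
  have n_w_v0 : w ≠ v0 := n_v0_w.symm
  replace n_v1_v2 : v1 ≠ v2 := n_v1_v2
  have n_v2_v1 : v2 ≠ v1 := n_v1_v2.symm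
  replace n_v1_v3 : v1 ≠ v3 := n_v1_v3
  have n_v3_v1 : v3 ≠ v1 := n_v1_v3.symm
  replace n_v1_v4 : v1 ≠ v4 := n_v1_v4
  have n_v4_v1 : v4 ≠ v1 := n_v1_v4.symm
  replace n_v1_v5 : v1 ≠ v5 := n_v1_v5
  have n_v5_v1 : v5 ≠ v1 := n_v1_v5.symm
  replace n_v1_v6 : v1 ≠ v6 := n_v1_v6
  have n_v6_v1 : v6 ≠ v1 := n_v1_v6.symm
  replace n_v1_v7 : v1 ≠ v7 := n_v1_v7
  have n_v7_v1 : v7 ≠ v1 := n_v1_v7.symm
  replace n_v1_v8 : v1 ≠ v8 := n_v1_v8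
  have n_v8_v1 : v8 ≠ v1 := n_v1_v8.symm
  replace n_v1_u : v1 ≠ u := n_v1_u
  have n_u_v1 : u ≠ v1 := n_v1_u.symm
  replace n_v1_w : v1 ≠ w := n_v1_w
  have n_w_v1 : w ≠ v1 := n_v1_w.symm
  replace n_v2_v3 : v2 ≠ v3 := n_v2_v3
  have n_v3_v2 : v3 ≠ v2 := n_v2_v3.symm
  replace n_v2_v4 : v2 ≠ v4 := n_v2_v4
  have n_v4_v2 : v4 ≠ v2 := n_v2_v4.symm
  replace n_v2_v5 : v2 ≠ v5 := n_v2_v5
  have n_v5_v2 : v5 ≠ v2 := n_v2_v5.symm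
  replace n_v2_v6 : v2 ≠ v6 := n_v2_v6
  have n_v6_v2 : v6 ≠ v2 := n_v2_v6.symm
  replace n_v2_v7 : v2 ≠ v7 := n_v2_v7
  have n_v7_v2 : v7 ≠ v2 := n_v2_v7.symm
  replace n_v2_v8 : v2 ≠ v8 := n_v2_v8
  have n_v8_v2 : v8 ≠ v2 := n_v2_v8.symm
  replace n_v2_u : v2 ≠ u := n_v2_u
  have n_u_v2 : u ≠ v2 := n_v2_u.symm
  replace n_v2_w : v2 ≠ w := n_v2_w
  have n_w_v2 : w ≠ v2 := n_v2_w.symm
  replace n_v3_v4 : v3 ≠ v4 := n_v3_v4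
  have n_v4_v3 : v4 ≠ v3 := n_v3_v4.symm
  replace n_v3_v5 : v3 ≠ v5 := n_v3_v5
  have n_v5_v3 : v5 ≠ v3 := n_v3_v5.symm
  replace n_v3_v6 : v3 ≠ v6 := n_v3_v6
  have n_v6_v3 : v6 ≠ v3 := n_v3_v6.symm
  replace n_v3_v7 : v3 ≠ v7 := n_v3_v7
  have n_v7_v3 : v7 ≠ v3 := n_v3_v7.symm
  replace n_v3_v8 : v3 ≠ v8 := n_v3_v8
  have n_v8_v3 : v8 ≠ v3 := n_v3_v8.symm
  replace n_v3_u : v3 ≠ u := n_v3_u
  have n_u_v3 : u ≠ v3 := n_v3_u.symm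
  replace n_v3_w : v3 ≠ w := n_v3_w
  have n_w_v3 : w ≠ v3 := n_v3_w.symm
  replace n_v4_v5 : v4 ≠ v5 := n_v4_v5
  have n_v5_v4 : v5 ≠ v4 := n_v4_v5.symm
  replace n_v4_v6 : v4 ≠ v6 := n_v4_v6
  have n_v6_v4 : v6 ≠ v4 := n_v4_v6.symm
  replace n_v4_v7 : v4 ≠ v7 := n_v4_v7
  have n_v7_v4 : v7 ≠ v4 := n_v4_v7.symm
  replace n_v4_v8 : v4 ≠ v8 := n_v4_v8
  have n_v8_v4 : v8 ≠ v4 := n_v4_v8.symm
  replace n_v4_u : v4 ≠ u := n_v4_u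
  have n_u_v4 : u ≠ v4 := n_v4_u.symm
  replace n_v4_w : v4 ≠ w := n_v4_w
  have n_w_v4 : w ≠ v4 := n_v4_w.symm
  replace n_v5_v6 : v5 ≠ v6 := n_v5_v6
  have n_v6_v5 : v6 ≠ v5 := n_v5_v6.symm
  replace n_v5_v7 : v5 ≠ v7 := n_v5_v7
  have n_v7_v5 : v7 ≠ v5 := n_v5_v7.symm
  replace n_v5_v8 : v5 ≠ v8 := n_v5_v8
  have n_v8_v5 : v8 ≠ v5 := n_v5_v8.symm
  replace n_v5_u : v5 ≠ u := n_v5_u
  have n_u_v5 : u ≠ v5 := n_v5_u.symm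
  replace n_v5_w : v5 ≠ w := n_v5_w
  have n_w_v5 : w ≠ v5 := n_v5_w.symm
  replace n_v6_v7 : v6 ≠ v7 := n_v6_v7
  have n_v7_v6 : v7 ≠ v6 := n_v6_v7.symm
  replace n_v6_v8 : v6 ≠ v8 := n_v6_v8
  have n_v8_v6 : v8 ≠ v6 := n_v6_v8.symm
  replace n_v6_u : v6 ≠ u := n_v6_u
  have n_u_v6 : u ≠ v6 := n_v6_u.symm
  replace n_v6_w : v6 ≠ w := n_v6_w
  have n_w_v6 : w ≠ v6 := n_v6_w.symm
  replace n_v7_v8 : v7 ≠ v8 := n_v7_v8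
  have n_v8_v7 : v8 ≠ v7 := n_v7_v8.symm
  replace n_v7_u : v7 ≠ u := n_v7_u
  have n_u_v7 : u ≠ v7 := n_v7_u.symm
  replace n_v7_w : v7 ≠ w := n_v7_w
  have n_w_v7 : w ≠ v7 := n_v7_w.symm
  replace n_v8_u : v8 ≠ u := n_v8_u
  have n_u_v8 : u ≠ v8 := n_v8_u.symm
  replace n_v8_w : v8 ≠ w := n_v8_w
  have n_w_v8 : w ≠ v8 := n_v8_w.symm
  replace n_u_w : u ≠ w := n_u_w
  have n_w_u : w ≠ u := n_u_w.symm
  have w_v0 : v0 ∈ V := hV _ (by simp only [mem_insert, mem_singleton, true_or, or_true])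
  have w_v1 : v1 ∈ V := hV _ (by simp only [mem_insert, mem_singleton, true_or, or_true])
  have w_v2 : v2 ∈ V := hV _ (by simp only [mem_insert, mem_singleton, true_or, or_true])
  have w_v3 : v3 ∈ V := hV _ (by simp only [mem_insert, mem_singleton, true_or, or_true])
  have w_v4 : v4 ∈ V := hV _ (by simp only [mem_insert, mem_singleton, true_or, or_true])
  have w_v5 : v5 ∈ V := hV _ (by simp only [mem_insert, mem_singleton, true_or, or_true])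
  have w_v6 : v6 ∈ V := hV _ (by simp only [mem_insert, mem_singleton, true_or, or_true])
  have w_v7 : v7 ∈ V := hV _ (by simp only [mem_insert, mem_singleton, true_or, or_true])
  have w_v8 : v8 ∈ V := hV _ (by simp only [mem_insert, mem_singleton, true_or, or_true])
  have w_u : u ∈ V := hV _ (by simp only [mem_insert, mem_singleton, true_or, or_true])
  have w_w : w ∈ V := hV _ (by simp only [mem_insert, mem_singleton, true_or, or_true])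
  exfalso
  obtain ⟨x, hx, h⟩ := cfg_P5 hF (by
    simp only [List.nodup_cons, List.mem_cons, List.not_mem_nil, not_or, not_false_eq_true,
    and_true, or_false, List.nodup_nil]
    exact ⟨⟨n_v7_v8, n_v7_v6, n_v7_v5, n_v7_v4, n_v7_v3, n_v7_v2, n_v7_v0, n_v7_v1, n_v7_u, n_v7_w⟩, ⟨n_v8_v6, n_v8_v5, n_v8_v4, n_v8_v3, n_v8_v2, n_v8_v0, n_v8_v1, n_v8_u, n_v8_w⟩, ⟨n_v6_v5, n_v6_v4, n_v6_v3, n_v6_v2, n_v6_v0, n_v6_v1, n_v6_u, n_v6_w⟩, ⟨n_v5_v4, n_v5_v3, n_v5_v2, n_v5_v0, n_v5_v1, n_v5_u, n_v5_w⟩, ⟨n_v4_v3, n_v4_v2, n_v4_v0, n_v4_v1, n_v4_u, n_v4_w⟩, ⟨n_v3_v2, n_v3_v0, n_v3_v1, n_v3_u, n_v3_w⟩, ⟨n_v2_v0, n_v2_v1, n_v2_u, n_v2_w⟩, ⟨n_v0_v1, n_v0_u, n_v0_w⟩, ⟨n_v1_u, n_v1_w⟩, n_u_w⟩)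
    (by rw [perm_120 v6 v7 v8]; exact t3) (by rw [perm_210 v4 v5 v6]; exact t2) (by rw [perm_210 v2 v3 v4]; exact t1) (by rw [perm_201 v0 v1 v2]; exact t0) (by rw [perm_012 v1 u w]; exact tt)
  refine bad x ?_ h
  simp only [mem_insert, mem_singleton] at hx
  rcases hx with hx | hx | hx | hx | hx | hx | hx | hx | hx | hx | hx <;>
  · rw [hx]; assumption

theorem ext_p4_2 {F : Finset (Finset α)} (hF : ∀ A ∈ F, ∀ B ∈ F, A ∪ B ∈ F) {V : Finset α}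
    (bad : ∀ x ∈ V, ¬ F.card ≤ 2 * (F.filter (fun A => x ∈ A)).card)
    {v0 v1 v2 v3 v4 v5 v6 v7 v8 u w : α} (nd : [v0, v1, v2, v3, v4, v5, v6, v7, v8, u, w].Nodup)
    (t0 : ({v0, v1, v2} : Finset α) ∈ F)
    (t1 : ({v2, v3, v4} : Finset α) ∈ F)
    (t2 : ({v4, v5, v6} : Finset α) ∈ F)
    (t3 : ({v6, v7, v8} : Finset α) ∈ F)
    (tt : ({v2, u, w} : Finset α) ∈ F)
    (hV : ∀ x ∈ ({v0, v1, v2, v3, v4, v5, v6, v7, v8, u, w} : Finset α), x ∈ V)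
    : Ty (insert {v2, u, w} ({{v0, v1, v2}, {v2, v3, v4}, {v4, v5, v6}, {v6, v7, v8}} : Finset (Finset α))) := by
  simp only [List.nodup_cons, List.mem_cons, List.not_mem_nil, not_or, not_false_eq_true,
    and_true, or_false, List.nodup_nil] at nd
  obtain ⟨⟨n_v0_v1, n_v0_v2, n_v0_v3, n_v0_v4, n_v0_v5, n_v0_v6, n_v0_v7, n_v0_v8, n_v0_u, n_v0_w⟩, ⟨n_v1_v2, n_v1_v3, n_v1_v4, n_v1_v5, n_v1_v6, n_v1_v7, n_v1_v8, n_v1_u, n_v1_w⟩, ⟨n_v2_v3, n_v2_v4, n_v2_v5, n_v2_v6, n_v2_v7, n_v2_v8, n_v2_u, n_v2_w⟩, ⟨n_v3_v4, n_v3_v5, n_v3_v6, n_v3_v7, n_v3_v8, n_v3_u, n_v3_w⟩, ⟨n_v4_v5, n_v4_v6, n_v4_v7, n_v4_v8, n_v4_u, n_v4_w⟩, ⟨n_v5_v6, n_v5_v7, n_v5_v8, n_v5_u, n_v5_w⟩, ⟨n_v6_v7, n_v6_v8, n_v6_u, n_v6_w⟩, ⟨n_v7_v8, n_v7_u, n_v7_w⟩, ⟨n_v8_u, n_v8_w⟩, n_u_w⟩ := nd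
  replace n_v0_v1 : v0 ≠ v1 := n_v0_v1
  have n_v1_v0 : v1 ≠ v0 := n_v0_v1.symm
  replace n_v0_v2 : v0 ≠ v2 := n_v0_v2
  have n_v2_v0 : v2 ≠ v0 := n_v0_v2.symm
  replace n_v0_v3 : v0 ≠ v3 := n_v0_v3
  have n_v3_v0 : v3 ≠ v0 := n_v0_v3.symm
  replace n_v0_v4 : v0 ≠ v4 := n_v0_v4
  have n_v4_v0 : v4 ≠ v0 := n_v0_v4.symm
  replace n_v0_v5 : v0 ≠ v5 := n_v0_v5
  have n_v5_v0 : v5 ≠ v0 := n_v0_v5.symm
  replace n_v0_v6 : v0 ≠ v6 := n_v0_v6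
  have n_v6_v0 : v6 ≠ v0 := n_v0_v6.symm
  replace n_v0_v7 : v0 ≠ v7 := n_v0_v7
  have n_v7_v0 : v7 ≠ v0 := n_v0_v7.symm
  replace n_v0_v8 : v0 ≠ v8 := n_v0_v8
  have n_v8_v0 : v8 ≠ v0 := n_v0_v8.symm
  replace n_v0_u : v0 ≠ u := n_v0_u
  have n_u_v0 : u ≠ v0 := n_v0_u.symm
  replace n_v0_w : v0 ≠ w := n_v0_w
  have n_w_v0 : w ≠ v0 := n_v0_w.symm
  replace n_v1_v2 : v1 ≠ v2 := n_v1_v2
  have n_v2_v1 : v2 ≠ v1 := n_v1_v2.symm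
  replace n_v1_v3 : v1 ≠ v3 := n_v1_v3
  have n_v3_v1 : v3 ≠ v1 := n_v1_v3.symm
  replace n_v1_v4 : v1 ≠ v4 := n_v1_v4
  have n_v4_v1 : v4 ≠ v1 := n_v1_v4.symm
  replace n_v1_v5 : v1 ≠ v5 := n_v1_v5
  have n_v5_v1 : v5 ≠ v1 := n_v1_v5.symm
  replace n_v1_v6 : v1 ≠ v6 := n_v1_v6
  have n_v6_v1 : v6 ≠ v1 := n_v1_v6.symm
  replace n_v1_v7 : v1 ≠ v7 := n_v1_v7
  have n_v7_v1 : v7 ≠ v1 := n_v1_v7.symm
  replace n_v1_v8 : v1 ≠ v8 := n_v1_v8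
  have n_v8_v1 : v8 ≠ v1 := n_v1_v8.symm
  replace n_v1_u : v1 ≠ u := n_v1_u
  have n_u_v1 : u ≠ v1 := n_v1_u.symm
  replace n_v1_w : v1 ≠ w := n_v1_w
  have n_w_v1 : w ≠ v1 := n_v1_w.symm
  replace n_v2_v3 : v2 ≠ v3 := n_v2_v3
  have n_v3_v2 : v3 ≠ v2 := n_v2_v3.symm
  replace n_v2_v4 : v2 ≠ v4 := n_v2_v4
  have n_v4_v2 : v4 ≠ v2 := n_v2_v4.symm
  replace n_v2_v5 : v2 ≠ v5 := n_v2_v5
  have n_v5_v2 : v5 ≠ v2 := n_v2_v5.symm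
  replace n_v2_v6 : v2 ≠ v6 := n_v2_v6
  have n_v6_v2 : v6 ≠ v2 := n_v2_v6.symm
  replace n_v2_v7 : v2 ≠ v7 := n_v2_v7
  have n_v7_v2 : v7 ≠ v2 := n_v2_v7.symm
  replace n_v2_v8 : v2 ≠ v8 := n_v2_v8
  have n_v8_v2 : v8 ≠ v2 := n_v2_v8.symm
  replace n_v2_u : v2 ≠ u := n_v2_u
  have n_u_v2 : u ≠ v2 := n_v2_u.symm
  replace n_v2_w : v2 ≠ w := n_v2_w
  have n_w_v2 : w ≠ v2 := n_v2_w.symm
  replace n_v3_v4 : v3 ≠ v4 := n_v3_v4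
  have n_v4_v3 : v4 ≠ v3 := n_v3_v4.symm
  replace n_v3_v5 : v3 ≠ v5 := n_v3_v5
  have n_v5_v3 : v5 ≠ v3 := n_v3_v5.symm
  replace n_v3_v6 : v3 ≠ v6 := n_v3_v6
  have n_v6_v3 : v6 ≠ v3 := n_v3_v6.symm
  replace n_v3_v7 : v3 ≠ v7 := n_v3_v7
  have n_v7_v3 : v7 ≠ v3 := n_v3_v7.symm
  replace n_v3_v8 : v3 ≠ v8 := n_v3_v8
  have n_v8_v3 : v8 ≠ v3 := n_v3_v8.symm
  replace n_v3_u : v3 ≠ u := n_v3_u
  have n_u_v3 : u ≠ v3 := n_v3_u.symm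
  replace n_v3_w : v3 ≠ w := n_v3_w
  have n_w_v3 : w ≠ v3 := n_v3_w.symm
  replace n_v4_v5 : v4 ≠ v5 := n_v4_v5
  have n_v5_v4 : v5 ≠ v4 := n_v4_v5.symm
  replace n_v4_v6 : v4 ≠ v6 := n_v4_v6
  have n_v6_v4 : v6 ≠ v4 := n_v4_v6.symm
  replace n_v4_v7 : v4 ≠ v7 := n_v4_v7
  have n_v7_v4 : v7 ≠ v4 := n_v4_v7.symm
  replace n_v4_v8 : v4 ≠ v8 := n_v4_v8
  have n_v8_v4 : v8 ≠ v4 := n_v4_v8.symm
  replace n_v4_u : v4 ≠ u := n_v4_u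
  have n_u_v4 : u ≠ v4 := n_v4_u.symm
  replace n_v4_w : v4 ≠ w := n_v4_w
  have n_w_v4 : w ≠ v4 := n_v4_w.symm
  replace n_v5_v6 : v5 ≠ v6 := n_v5_v6
  have n_v6_v5 : v6 ≠ v5 := n_v5_v6.symm
  replace n_v5_v7 : v5 ≠ v7 := n_v5_v7
  have n_v7_v5 : v7 ≠ v5 := n_v5_v7.symm
  replace n_v5_v8 : v5 ≠ v8 := n_v5_v8
  have n_v8_v5 : v8 ≠ v5 := n_v5_v8.symm
  replace n_v5_u : v5 ≠ u := n_v5_u
  have n_u_v5 : u ≠ v5 := n_v5_u.symm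
  replace n_v5_w : v5 ≠ w := n_v5_w
  have n_w_v5 : w ≠ v5 := n_v5_w.symm
  replace n_v6_v7 : v6 ≠ v7 := n_v6_v7
  have n_v7_v6 : v7 ≠ v6 := n_v6_v7.symm
  replace n_v6_v8 : v6 ≠ v8 := n_v6_v8
  have n_v8_v6 : v8 ≠ v6 := n_v6_v8.symm
  replace n_v6_u : v6 ≠ u := n_v6_u
  have n_u_v6 : u ≠ v6 := n_v6_u.symm
  replace n_v6_w : v6 ≠ w := n_v6_w
  have n_w_v6 : w ≠ v6 := n_v6_w.symm
  replace n_v7_v8 : v7 ≠ v8 := n_v7_v8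
  have n_v8_v7 : v8 ≠ v7 := n_v7_v8.symm
  replace n_v7_u : v7 ≠ u := n_v7_u
  have n_u_v7 : u ≠ v7 := n_v7_u.symm
  replace n_v7_w : v7 ≠ w := n_v7_w
  have n_w_v7 : w ≠ v7 := n_v7_w.symm
  replace n_v8_u : v8 ≠ u := n_v8_u
  have n_u_v8 : u ≠ v8 := n_v8_u.symm
  replace n_v8_w : v8 ≠ w := n_v8_w
  have n_w_v8 : w ≠ v8 := n_v8_w.symm
  replace n_u_w : u ≠ w := n_u_w
  have n_w_u : w ≠ u := n_u_w.symm
  have w_v0 : v0 ∈ V := hV _ (by simp only [mem_insert, mem_singleton, true_or, or_true])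
  have w_v1 : v1 ∈ V := hV _ (by simp only [mem_insert, mem_singleton, true_or, or_true])
  have w_v2 : v2 ∈ V := hV _ (by simp only [mem_insert, mem_singleton, true_or, or_true])
  have w_v3 : v3 ∈ V := hV _ (by simp only [mem_insert, mem_singleton, true_or, or_true])
  have w_v4 : v4 ∈ V := hV _ (by simp only [mem_insert, mem_singleton, true_or, or_true])
  have w_v5 : v5 ∈ V := hV _ (by simp only [mem_insert, mem_singleton, true_or, or_true])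
  have w_v6 : v6 ∈ V := hV _ (by simp only [mem_insert, mem_singleton, true_or, or_true])
  have w_v7 : v7 ∈ V := hV _ (by simp only [mem_insert, mem_singleton, true_or, or_true])
  have w_v8 : v8 ∈ V := hV _ (by simp only [mem_insert, mem_singleton, true_or, or_true])
  have w_u : u ∈ V := hV _ (by simp only [mem_insert, mem_singleton, true_or, or_true])
  have w_w : w ∈ V := hV _ (by simp only [mem_insert, mem_singleton, true_or, or_true])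
  exfalso
  exact deg3_fc hF bad (x := v2) t0 t1 tt (card_eq_three.2 ⟨v0, v1, v2, n_v0_v1, n_v0_v2, n_v1_v2, rfl⟩) (card_eq_three.2 ⟨v2, v3, v4, n_v2_v3, n_v2_v4, n_v3_v4, rfl⟩) (card_eq_three.2 ⟨v2, u, w, n_v2_u, n_v2_w, n_u_w, rfl⟩)
    (by simp only [insert_subset_iff, singleton_subset_iff]; exact ⟨w_v0, w_v1, w_v2⟩) (by simp only [insert_subset_iff, singleton_subset_iff]; exact ⟨w_v2, w_v3, w_v4⟩) (by simp only [insert_subset_iff, singleton_subset_iff]; exact ⟨w_v2, w_u, w_w⟩)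
    (by simp only [mem_insert, mem_singleton, true_or, or_true]) (by simp only [mem_insert, mem_singleton, true_or, or_true]) (by simp only [mem_insert, mem_singleton, true_or, or_true])
    (by
    intro he
    have h : v0 ∈ ({v2, v3, v4} : Finset α) := by
      rw [← he]; simp only [mem_insert, mem_singleton, true_or, or_true]
    simp only [mem_insert, mem_singleton] at h
    rcases h with h | h | h
    · exact n_v0_v2 h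
    · exact n_v0_v3 h
    · exact n_v0_v4 h)
    (by
    intro he
    have h : v0 ∈ ({v2, u, w} : Finset α) := by
      rw [← he]; simp only [mem_insert, mem_singleton, true_or, or_true]
    simp only [mem_insert, mem_singleton] at h
    rcases h with h | h | h
    · exact n_v0_v2 h
    · exact n_v0_u h
    · exact n_v0_w h)
    (by
    intro he
    have h : v3 ∈ ({v2, u, w} : Finset α) := by
      rw [← he]; simp only [mem_insert, mem_singleton, true_or, or_true]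
    simp only [mem_insert, mem_singleton] at h
    rcases h with h | h | h
    · exact n_v3_v2 h
    · exact n_v3_u h
    · exact n_v3_w h)

theorem ext_p4_3 {F : Finset (Finset α)} (hF : ∀ A ∈ F, ∀ B ∈ F, A ∪ B ∈ F) {V : Finset α}
    (bad : ∀ x ∈ V, ¬ F.card ≤ 2 * (F.filter (fun A => x ∈ A)).card)
    {v0 v1 v2 v3 v4 v5 v6 v7 v8 u w : α} (nd : [v0, v1, v2, v3, v4, v5, v6, v7, v8, u, w].Nodup)
    (t0 : ({v0, v1, v2} : Finset α) ∈ F)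
    (t1 : ({v2, v3, v4} : Finset α) ∈ F)
    (t2 : ({v4, v5, v6} : Finset α) ∈ F)
    (t3 : ({v6, v7, v8} : Finset α) ∈ F)
    (tt : ({v3, u, w} : Finset α) ∈ F)
    (hV : ∀ x ∈ ({v0, v1, v2, v3, v4, v5, v6, v7, v8, u, w} : Finset α), x ∈ V)
    : Ty (insert {v3, u, w} ({{v0, v1, v2}, {v2, v3, v4}, {v4, v5, v6}, {v6, v7, v8}} : Finset (Finset α))) := by
  simp only [List.nodup_cons, List.mem_cons, List.not_mem_nil, not_or, not_false_eq_true,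
    and_true, or_false, List.nodup_nil] at nd
  obtain ⟨⟨n_v0_v1, n_v0_v2, n_v0_v3, n_v0_v4, n_v0_v5, n_v0_v6, n_v0_v7, n_v0_v8, n_v0_u, n_v0_w⟩, ⟨n_v1_v2, n_v1_v3, n_v1_v4, n_v1_v5, n_v1_v6, n_v1_v7, n_v1_v8, n_v1_u, n_v1_w⟩, ⟨n_v2_v3, n_v2_v4, n_v2_v5, n_v2_v6, n_v2_v7, n_v2_v8, n_v2_u, n_v2_w⟩, ⟨n_v3_v4, n_v3_v5, n_v3_v6, n_v3_v7, n_v3_v8, n_v3_u, n_v3_w⟩, ⟨n_v4_v5, n_v4_v6, n_v4_v7, n_v4_v8, n_v4_u, n_v4_w⟩, ⟨n_v5_v6, n_v5_v7, n_v5_v8, n_v5_u, n_v5_w⟩, ⟨n_v6_v7, n_v6_v8, n_v6_u, n_v6_w⟩, ⟨n_v7_v8, n_v7_u, n_v7_w⟩, ⟨n_v8_u, n_v8_w⟩, n_u_w⟩ := nd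
  replace n_v0_v1 : v0 ≠ v1 := n_v0_v1
  have n_v1_v0 : v1 ≠ v0 := n_v0_v1.symm
  replace n_v0_v2 : v0 ≠ v2 := n_v0_v2
  have n_v2_v0 : v2 ≠ v0 := n_v0_v2.symm
  replace n_v0_v3 : v0 ≠ v3 := n_v0_v3
  have n_v3_v0 : v3 ≠ v0 := n_v0_v3.symm
  replace n_v0_v4 : v0 ≠ v4 := n_v0_v4
  have n_v4_v0 : v4 ≠ v0 := n_v0_v4.symm
  replace n_v0_v5 : v0 ≠ v5 := n_v0_v5
  have n_v5_v0 : v5 ≠ v0 := n_v0_v5.symm
  replace n_v0_v6 : v0 ≠ v6 := n_v0_v6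
  have n_v6_v0 : v6 ≠ v0 := n_v0_v6.symm
  replace n_v0_v7 : v0 ≠ v7 := n_v0_v7
  have n_v7_v0 : v7 ≠ v0 := n_v0_v7.symm
  replace n_v0_v8 : v0 ≠ v8 := n_v0_v8
  have n_v8_v0 : v8 ≠ v0 := n_v0_v8.symm
  replace n_v0_u : v0 ≠ u := n_v0_u
  have n_u_v0 : u ≠ v0 := n_v0_u.symm
  replace n_v0_w : v0 ≠ w := n_v0_w
  have n_w_v0 : w ≠ v0 := n_v0_w.symm
  replace n_v1_v2 : v1 ≠ v2 := n_v1_v2
  have n_v2_v1 : v2 ≠ v1 := n_v1_v2.symm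
  replace n_v1_v3 : v1 ≠ v3 := n_v1_v3
  have n_v3_v1 : v3 ≠ v1 := n_v1_v3.symm
  replace n_v1_v4 : v1 ≠ v4 := n_v1_v4
  have n_v4_v1 : v4 ≠ v1 := n_v1_v4.symm
  replace n_v1_v5 : v1 ≠ v5 := n_v1_v5
  have n_v5_v1 : v5 ≠ v1 := n_v1_v5.symm
  replace n_v1_v6 : v1 ≠ v6 := n_v1_v6
  have n_v6_v1 : v6 ≠ v1 := n_v1_v6.symm
  replace n_v1_v7 : v1 ≠ v7 := n_v1_v7
  have n_v7_v1 : v7 ≠ v1 := n_v1_v7.symm
  replace n_v1_v8 : v1 ≠ v8 := n_v1_v8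
  have n_v8_v1 : v8 ≠ v1 := n_v1_v8.symm
  replace n_v1_u : v1 ≠ u := n_v1_u
  have n_u_v1 : u ≠ v1 := n_v1_u.symm
  replace n_v1_w : v1 ≠ w := n_v1_w
  have n_w_v1 : w ≠ v1 := n_v1_w.symm
  replace n_v2_v3 : v2 ≠ v3 := n_v2_v3
  have n_v3_v2 : v3 ≠ v2 := n_v2_v3.symm
  replace n_v2_v4 : v2 ≠ v4 := n_v2_v4
  have n_v4_v2 : v4 ≠ v2 := n_v2_v4.symm
  replace n_v2_v5 : v2 ≠ v5 := n_v2_v5
  have n_v5_v2 : v5 ≠ v2 := n_v2_v5.symm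
  replace n_v2_v6 : v2 ≠ v6 := n_v2_v6
  have n_v6_v2 : v6 ≠ v2 := n_v2_v6.symm
  replace n_v2_v7 : v2 ≠ v7 := n_v2_v7
  have n_v7_v2 : v7 ≠ v2 := n_v2_v7.symm
  replace n_v2_v8 : v2 ≠ v8 := n_v2_v8
  have n_v8_v2 : v8 ≠ v2 := n_v2_v8.symm
  replace n_v2_u : v2 ≠ u := n_v2_u
  have n_u_v2 : u ≠ v2 := n_v2_u.symm
  replace n_v2_w : v2 ≠ w := n_v2_w
  have n_w_v2 : w ≠ v2 := n_v2_w.symm
  replace n_v3_v4 : v3 ≠ v4 := n_v3_v4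
  have n_v4_v3 : v4 ≠ v3 := n_v3_v4.symm
  replace n_v3_v5 : v3 ≠ v5 := n_v3_v5
  have n_v5_v3 : v5 ≠ v3 := n_v3_v5.symm
  replace n_v3_v6 : v3 ≠ v6 := n_v3_v6
  have n_v6_v3 : v6 ≠ v3 := n_v3_v6.symm
  replace n_v3_v7 : v3 ≠ v7 := n_v3_v7
  have n_v7_v3 : v7 ≠ v3 := n_v3_v7.symm
  replace n_v3_v8 : v3 ≠ v8 := n_v3_v8
  have n_v8_v3 : v8 ≠ v3 := n_v3_v8.symm
  replace n_v3_u : v3 ≠ u := n_v3_u
  have n_u_v3 : u ≠ v3 := n_v3_u.symm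
  replace n_v3_w : v3 ≠ w := n_v3_w
  have n_w_v3 : w ≠ v3 := n_v3_w.symm
  replace n_v4_v5 : v4 ≠ v5 := n_v4_v5
  have n_v5_v4 : v5 ≠ v4 := n_v4_v5.symm
  replace n_v4_v6 : v4 ≠ v6 := n_v4_v6
  have n_v6_v4 : v6 ≠ v4 := n_v4_v6.symm
  replace n_v4_v7 : v4 ≠ v7 := n_v4_v7
  have n_v7_v4 : v7 ≠ v4 := n_v4_v7.symm
  replace n_v4_v8 : v4 ≠ v8 := n_v4_v8
  have n_v8_v4 : v8 ≠ v4 := n_v4_v8.symm
  replace n_v4_u : v4 ≠ u := n_v4_u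
  have n_u_v4 : u ≠ v4 := n_v4_u.symm
  replace n_v4_w : v4 ≠ w := n_v4_w
  have n_w_v4 : w ≠ v4 := n_v4_w.symm
  replace n_v5_v6 : v5 ≠ v6 := n_v5_v6
  have n_v6_v5 : v6 ≠ v5 := n_v5_v6.symm
  replace n_v5_v7 : v5 ≠ v7 := n_v5_v7
  have n_v7_v5 : v7 ≠ v5 := n_v5_v7.symm
  replace n_v5_v8 : v5 ≠ v8 := n_v5_v8
  have n_v8_v5 : v8 ≠ v5 := n_v5_v8.symm
  replace n_v5_u : v5 ≠ u := n_v5_u
  have n_u_v5 : u ≠ v5 := n_v5_u.symm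
  replace n_v5_w : v5 ≠ w := n_v5_w
  have n_w_v5 : w ≠ v5 := n_v5_w.symm
  replace n_v6_v7 : v6 ≠ v7 := n_v6_v7
  have n_v7_v6 : v7 ≠ v6 := n_v6_v7.symm
  replace n_v6_v8 : v6 ≠ v8 := n_v6_v8
  have n_v8_v6 : v8 ≠ v6 := n_v6_v8.symm
  replace n_v6_u : v6 ≠ u := n_v6_u
  have n_u_v6 : u ≠ v6 := n_v6_u.symm
  replace n_v6_w : v6 ≠ w := n_v6_w
  have n_w_v6 : w ≠ v6 := n_v6_w.symm
  replace n_v7_v8 : v7 ≠ v8 := n_v7_v8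
  have n_v8_v7 : v8 ≠ v7 := n_v7_v8.symm
  replace n_v7_u : v7 ≠ u := n_v7_u
  have n_u_v7 : u ≠ v7 := n_v7_u.symm
  replace n_v7_w : v7 ≠ w := n_v7_w
  have n_w_v7 : w ≠ v7 := n_v7_w.symm
  replace n_v8_u : v8 ≠ u := n_v8_u
  have n_u_v8 : u ≠ v8 := n_v8_u.symm
  replace n_v8_w : v8 ≠ w := n_v8_w
  have n_w_v8 : w ≠ v8 := n_v8_w.symm
  replace n_u_w : u ≠ w := n_u_w
  have n_w_u : w ≠ u := n_u_w.symm
  have w_v0 : v0 ∈ V := hV _ (by simp only [mem_insert, mem_singleton, true_or, or_true])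
  have w_v1 : v1 ∈ V := hV _ (by simp only [mem_insert, mem_singleton, true_or, or_true])
  have w_v2 : v2 ∈ V := hV _ (by simp only [mem_insert, mem_singleton, true_or, or_true])
  have w_v3 : v3 ∈ V := hV _ (by simp only [mem_insert, mem_singleton, true_or, or_true])
  have w_v4 : v4 ∈ V := hV _ (by simp only [mem_insert, mem_singleton, true_or, or_true])
  have w_v5 : v5 ∈ V := hV _ (by simp only [mem_insert, mem_singleton, true_or, or_true])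
  have w_v6 : v6 ∈ V := hV _ (by simp only [mem_insert, mem_singleton, true_or, or_true])
  have w_v7 : v7 ∈ V := hV _ (by simp only [mem_insert, mem_singleton, true_or, or_true])
  have w_v8 : v8 ∈ V := hV _ (by simp only [mem_insert, mem_singleton, true_or, or_true])
  have w_u : u ∈ V := hV _ (by simp only [mem_insert, mem_singleton, true_or, or_true])
  have w_w : w ∈ V := hV _ (by simp only [mem_insert, mem_singleton, true_or, or_true])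
  exfalso
  obtain ⟨x, hx, h⟩ := cfg_spider hF (by
    simp only [List.nodup_cons, List.mem_cons, List.not_mem_nil, not_or, not_false_eq_true,
    and_true, or_false, List.nodup_nil]
    exact ⟨⟨n_v0_v1, n_v0_v2, n_v0_v3, n_v0_v4, n_v0_v5, n_v0_v6, n_v0_u, n_v0_w⟩, ⟨n_v1_v2, n_v1_v3, n_v1_v4, n_v1_v5, n_v1_v6, n_v1_u, n_v1_w⟩, ⟨n_v2_v3, n_v2_v4, n_v2_v5, n_v2_v6, n_v2_u, n_v2_w⟩, ⟨n_v3_v4, n_v3_v5, n_v3_v6, n_v3_u, n_v3_w⟩, ⟨n_v4_v5, n_v4_v6, n_v4_u, n_v4_w⟩, ⟨n_v5_v6, n_v5_u, n_v5_w⟩, ⟨n_v6_u, n_v6_w⟩, n_u_w⟩)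
    (by rw [perm_012 v0 v1 v2]; exact t0) (by rw [perm_012 v2 v3 v4]; exact t1) (by rw [perm_012 v4 v5 v6]; exact t2) (by rw [perm_012 v3 u w]; exact tt)
  refine bad x ?_ h
  simp only [mem_insert, mem_singleton] at hx
  rcases hx with hx | hx | hx | hx | hx | hx | hx | hx | hx <;>
  · rw [hx]; assumption

theorem ext_p4_4 {F : Finset (Finset α)} (hF : ∀ A ∈ F, ∀ B ∈ F, A ∪ B ∈ F) {V : Finset α}
    (bad : ∀ x ∈ V, ¬ F.card ≤ 2 * (F.filter (fun A => x ∈ A)).card)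
    {v0 v1 v2 v3 v4 v5 v6 v7 v8 u w : α} (nd : [v0, v1, v2, v3, v4, v5, v6, v7, v8, u, w].Nodup)
    (t0 : ({v0, v1, v2} : Finset α) ∈ F)
    (t1 : ({v2, v3, v4} : Finset α) ∈ F)
    (t2 : ({v4, v5, v6} : Finset α) ∈ F)
    (t3 : ({v6, v7, v8} : Finset α) ∈ F)
    (tt : ({v4, u, w} : Finset α) ∈ F)
    (hV : ∀ x ∈ ({v0, v1, v2, v3, v4, v5, v6, v7, v8, u, w} : Finset α), x ∈ V)
    : Ty (insert {v4, u, w} ({{v0, v1, v2}, {v2, v3, v4}, {v4, v5, v6}, {v6, v7, v8}} : Finset (Finset α))) := by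
  simp only [List.nodup_cons, List.mem_cons, List.not_mem_nil, not_or, not_false_eq_true,
    and_true, or_false, List.nodup_nil] at nd
  obtain ⟨⟨n_v0_v1, n_v0_v2, n_v0_v3, n_v0_v4, n_v0_v5, n_v0_v6, n_v0_v7, n_v0_v8, n_v0_u, n_v0_w⟩, ⟨n_v1_v2, n_v1_v3, n_v1_v4, n_v1_v5, n_v1_v6, n_v1_v7, n_v1_v8, n_v1_u, n_v1_w⟩, ⟨n_v2_v3, n_v2_v4, n_v2_v5, n_v2_v6, n_v2_v7, n_v2_v8, n_v2_u, n_v2_w⟩, ⟨n_v3_v4, n_v3_v5, n_v3_v6, n_v3_v7, n_v3_v8, n_v3_u, n_v3_w⟩, ⟨n_v4_v5, n_v4_v6, n_v4_v7, n_v4_v8, n_v4_u, n_v4_w⟩, ⟨n_v5_v6, n_v5_v7, n_v5_v8, n_v5_u, n_v5_w⟩, ⟨n_v6_v7, n_v6_v8, n_v6_u, n_v6_w⟩, ⟨n_v7_v8, n_v7_u, n_v7_w⟩, ⟨n_v8_u, n_v8_w⟩, n_u_w⟩ := nd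
  replace n_v0_v1 : v0 ≠ v1 := n_v0_v1
  have n_v1_v0 : v1 ≠ v0 := n_v0_v1.symm
  replace n_v0_v2 : v0 ≠ v2 := n_v0_v2
  have n_v2_v0 : v2 ≠ v0 := n_v0_v2.symm
  replace n_v0_v3 : v0 ≠ v3 := n_v0_v3
  have n_v3_v0 : v3 ≠ v0 := n_v0_v3.symm
  replace n_v0_v4 : v0 ≠ v4 := n_v0_v4
  have n_v4_v0 : v4 ≠ v0 := n_v0_v4.symm
  replace n_v0_v5 : v0 ≠ v5 := n_v0_v5
  have n_v5_v0 : v5 ≠ v0 := n_v0_v5.symm
  replace n_v0_v6 : v0 ≠ v6 := n_v0_v6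
  have n_v6_v0 : v6 ≠ v0 := n_v0_v6.symm
  replace n_v0_v7 : v0 ≠ v7 := n_v0_v7
  have n_v7_v0 : v7 ≠ v0 := n_v0_v7.symm
  replace n_v0_v8 : v0 ≠ v8 := n_v0_v8
  have n_v8_v0 : v8 ≠ v0 := n_v0_v8.symm
  replace n_v0_u : v0 ≠ u := n_v0_u
  have n_u_v0 : u ≠ v0 := n_v0_u.symm
  replace n_v0_w : v0 ≠ w := n_v0_w
  have n_w_v0 : w ≠ v0 := n_v0_w.symm
  replace n_v1_v2 : v1 ≠ v2 := n_v1_v2
  have n_v2_v1 : v2 ≠ v1 := n_v1_v2.symm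
  replace n_v1_v3 : v1 ≠ v3 := n_v1_v3
  have n_v3_v1 : v3 ≠ v1 := n_v1_v3.symm
  replace n_v1_v4 : v1 ≠ v4 := n_v1_v4
  have n_v4_v1 : v4 ≠ v1 := n_v1_v4.symm
  replace n_v1_v5 : v1 ≠ v5 := n_v1_v5
  have n_v5_v1 : v5 ≠ v1 := n_v1_v5.symm
  replace n_v1_v6 : v1 ≠ v6 := n_v1_v6
  have n_v6_v1 : v6 ≠ v1 := n_v1_v6.symm
  replace n_v1_v7 : v1 ≠ v7 := n_v1_v7
  have n_v7_v1 : v7 ≠ v1 := n_v1_v7.symm
  replace n_v1_v8 : v1 ≠ v8 := n_v1_v8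
  have n_v8_v1 : v8 ≠ v1 := n_v1_v8.symm
  replace n_v1_u : v1 ≠ u := n_v1_u
  have n_u_v1 : u ≠ v1 := n_v1_u.symm
  replace n_v1_w : v1 ≠ w := n_v1_w
  have n_w_v1 : w ≠ v1 := n_v1_w.symm
  replace n_v2_v3 : v2 ≠ v3 := n_v2_v3
  have n_v3_v2 : v3 ≠ v2 := n_v2_v3.symm
  replace n_v2_v4 : v2 ≠ v4 := n_v2_v4
  have n_v4_v2 : v4 ≠ v2 := n_v2_v4.symm
  replace n_v2_v5 : v2 ≠ v5 := n_v2_v5
  have n_v5_v2 : v5 ≠ v2 := n_v2_v5.symm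
  replace n_v2_v6 : v2 ≠ v6 := n_v2_v6
  have n_v6_v2 : v6 ≠ v2 := n_v2_v6.symm
  replace n_v2_v7 : v2 ≠ v7 := n_v2_v7
  have n_v7_v2 : v7 ≠ v2 := n_v2_v7.symm
  replace n_v2_v8 : v2 ≠ v8 := n_v2_v8
  have n_v8_v2 : v8 ≠ v2 := n_v2_v8.symm
  replace n_v2_u : v2 ≠ u := n_v2_u
  have n_u_v2 : u ≠ v2 := n_v2_u.symm
  replace n_v2_w : v2 ≠ w := n_v2_w
  have n_w_v2 : w ≠ v2 := n_v2_w.symm
  replace n_v3_v4 : v3 ≠ v4 := n_v3_v4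
  have n_v4_v3 : v4 ≠ v3 := n_v3_v4.symm
  replace n_v3_v5 : v3 ≠ v5 := n_v3_v5
  have n_v5_v3 : v5 ≠ v3 := n_v3_v5.symm
  replace n_v3_v6 : v3 ≠ v6 := n_v3_v6
  have n_v6_v3 : v6 ≠ v3 := n_v3_v6.symm
  replace n_v3_v7 : v3 ≠ v7 := n_v3_v7
  have n_v7_v3 : v7 ≠ v3 := n_v3_v7.symm
  replace n_v3_v8 : v3 ≠ v8 := n_v3_v8
  have n_v8_v3 : v8 ≠ v3 := n_v3_v8.symm
  replace n_v3_u : v3 ≠ u := n_v3_u
  have n_u_v3 : u ≠ v3 := n_v3_u.symm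
  replace n_v3_w : v3 ≠ w := n_v3_w
  have n_w_v3 : w ≠ v3 := n_v3_w.symm
  replace n_v4_v5 : v4 ≠ v5 := n_v4_v5
  have n_v5_v4 : v5 ≠ v4 := n_v4_v5.symm
  replace n_v4_v6 : v4 ≠ v6 := n_v4_v6
  have n_v6_v4 : v6 ≠ v4 := n_v4_v6.symm
  replace n_v4_v7 : v4 ≠ v7 := n_v4_v7
  have n_v7_v4 : v7 ≠ v4 := n_v4_v7.symm
  replace n_v4_v8 : v4 ≠ v8 := n_v4_v8
  have n_v8_v4 : v8 ≠ v4 := n_v4_v8.symm
  replace n_v4_u : v4 ≠ u := n_v4_u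
  have n_u_v4 : u ≠ v4 := n_v4_u.symm
  replace n_v4_w : v4 ≠ w := n_v4_w
  have n_w_v4 : w ≠ v4 := n_v4_w.symm
  replace n_v5_v6 : v5 ≠ v6 := n_v5_v6
  have n_v6_v5 : v6 ≠ v5 := n_v5_v6.symm
  replace n_v5_v7 : v5 ≠ v7 := n_v5_v7
  have n_v7_v5 : v7 ≠ v5 := n_v5_v7.symm
  replace n_v5_v8 : v5 ≠ v8 := n_v5_v8
  have n_v8_v5 : v8 ≠ v5 := n_v5_v8.symm
  replace n_v5_u : v5 ≠ u := n_v5_u
  have n_u_v5 : u ≠ v5 := n_v5_u.symm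
  replace n_v5_w : v5 ≠ w := n_v5_w
  have n_w_v5 : w ≠ v5 := n_v5_w.symm
  replace n_v6_v7 : v6 ≠ v7 := n_v6_v7
  have n_v7_v6 : v7 ≠ v6 := n_v6_v7.symm
  replace n_v6_v8 : v6 ≠ v8 := n_v6_v8
  have n_v8_v6 : v8 ≠ v6 := n_v6_v8.symm
  replace n_v6_u : v6 ≠ u := n_v6_u
  have n_u_v6 : u ≠ v6 := n_v6_u.symm
  replace n_v6_w : v6 ≠ w := n_v6_w
  have n_w_v6 : w ≠ v6 := n_v6_w.symm
  replace n_v7_v8 : v7 ≠ v8 := n_v7_v8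
  have n_v8_v7 : v8 ≠ v7 := n_v7_v8.symm
  replace n_v7_u : v7 ≠ u := n_v7_u
  have n_u_v7 : u ≠ v7 := n_v7_u.symm
  replace n_v7_w : v7 ≠ w := n_v7_w
  have n_w_v7 : w ≠ v7 := n_v7_w.symm
  replace n_v8_u : v8 ≠ u := n_v8_u
  have n_u_v8 : u ≠ v8 := n_v8_u.symm
  replace n_v8_w : v8 ≠ w := n_v8_w
  have n_w_v8 : w ≠ v8 := n_v8_w.symm
  replace n_u_w : u ≠ w := n_u_w
  have n_w_u : w ≠ u := n_u_w.symm
  have w_v0 : v0 ∈ V := hV _ (by simp only [mem_insert, mem_singleton, true_or, or_true])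
  have w_v1 : v1 ∈ V := hV _ (by simp only [mem_insert, mem_singleton, true_or, or_true])
  have w_v2 : v2 ∈ V := hV _ (by simp only [mem_insert, mem_singleton, true_or, or_true])
  have w_v3 : v3 ∈ V := hV _ (by simp only [mem_insert, mem_singleton, true_or, or_true])
  have w_v4 : v4 ∈ V := hV _ (by simp only [mem_insert, mem_singleton, true_or, or_true])
  have w_v5 : v5 ∈ V := hV _ (by simp only [mem_insert, mem_singleton, true_or, or_true])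
  have w_v6 : v6 ∈ V := hV _ (by simp only [mem_insert, mem_singleton, true_or, or_true])
  have w_v7 : v7 ∈ V := hV _ (by simp only [mem_insert, mem_singleton, true_or, or_true])
  have w_v8 : v8 ∈ V := hV _ (by simp only [mem_insert, mem_singleton, true_or, or_true])
  have w_u : u ∈ V := hV _ (by simp only [mem_insert, mem_singleton, true_or, or_true])
  have w_w : w ∈ V := hV _ (by simp only [mem_insert, mem_singleton, true_or, or_true])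
  exfalso
  exact deg3_fc hF bad (x := v4) t1 t2 tt (card_eq_three.2 ⟨v2, v3, v4, n_v2_v3, n_v2_v4, n_v3_v4, rfl⟩) (card_eq_three.2 ⟨v4, v5, v6, n_v4_v5, n_v4_v6, n_v5_v6, rfl⟩) (card_eq_three.2 ⟨v4, u, w, n_v4_u, n_v4_w, n_u_w, rfl⟩)
    (by simp only [insert_subset_iff, singleton_subset_iff]; exact ⟨w_v2, w_v3, w_v4⟩) (by simp only [insert_subset_iff, singleton_subset_iff]; exact ⟨w_v4, w_v5, w_v6⟩) (by simp only [insert_subset_iff, singleton_subset_iff]; exact ⟨w_v4, w_u, w_w⟩)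
    (by simp only [mem_insert, mem_singleton, true_or, or_true]) (by simp only [mem_insert, mem_singleton, true_or, or_true]) (by simp only [mem_insert, mem_singleton, true_or, or_true])
    (by
    intro he
    have h : v2 ∈ ({v4, v5, v6} : Finset α) := by
      rw [← he]; simp only [mem_insert, mem_singleton, true_or, or_true]
    simp only [mem_insert, mem_singleton] at h
    rcases h with h | h | h
    · exact n_v2_v4 h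
    · exact n_v2_v5 h
    · exact n_v2_v6 h)
    (by
    intro he
    have h : v2 ∈ ({v4, u, w} : Finset α) := by
      rw [← he]; simp only [mem_insert, mem_singleton, true_or, or_true]
    simp only [mem_insert, mem_singleton] at h
    rcases h with h | h | h
    · exact n_v2_v4 h
    · exact n_v2_u h
    · exact n_v2_w h)
    (by
    intro he
    have h : v5 ∈ ({v4, u, w} : Finset α) := by
      rw [← he]; simp only [mem_insert, mem_singleton, true_or, or_true]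
    simp only [mem_insert, mem_singleton] at h
    rcases h with h | h | h
    · exact n_v5_v4 h
    · exact n_v5_u h
    · exact n_v5_w h)

theorem ext_p4_5 {F : Finset (Finset α)} (hF : ∀ A ∈ F, ∀ B ∈ F, A ∪ B ∈ F) {V : Finset α}
    (bad : ∀ x ∈ V, ¬ F.card ≤ 2 * (F.filter (fun A => x ∈ A)).card)
    {v0 v1 v2 v3 v4 v5 v6 v7 v8 u w : α} (nd : [v0, v1, v2, v3, v4, v5, v6, v7, v8, u, w].Nodup)
    (t0 : ({v0, v1, v2} : Finset α) ∈ F)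
    (t1 : ({v2, v3, v4} : Finset α) ∈ F)
    (t2 : ({v4, v5, v6} : Finset α) ∈ F)
    (t3 : ({v6, v7, v8} : Finset α) ∈ F)
    (tt : ({v5, u, w} : Finset α) ∈ F)
    (hV : ∀ x ∈ ({v0, v1, v2, v3, v4, v5, v6, v7, v8, u, w} : Finset α), x ∈ V)
    : Ty (insert {v5, u, w} ({{v0, v1, v2}, {v2, v3, v4}, {v4, v5, v6}, {v6, v7, v8}} : Finset (Finset α))) := by
  simp only [List.nodup_cons, List.mem_cons, List.not_mem_nil, not_or, not_false_eq_true,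
    and_true, or_false, List.nodup_nil] at nd
  obtain ⟨⟨n_v0_v1, n_v0_v2, n_v0_v3, n_v0_v4, n_v0_v5, n_v0_v6, n_v0_v7, n_v0_v8, n_v0_u, n_v0_w⟩, ⟨n_v1_v2, n_v1_v3, n_v1_v4, n_v1_v5, n_v1_v6, n_v1_v7, n_v1_v8, n_v1_u, n_v1_w⟩, ⟨n_v2_v3, n_v2_v4, n_v2_v5, n_v2_v6, n_v2_v7, n_v2_v8, n_v2_u, n_v2_w⟩, ⟨n_v3_v4, n_v3_v5, n_v3_v6, n_v3_v7, n_v3_v8, n_v3_u, n_v3_w⟩, ⟨n_v4_v5, n_v4_v6, n_v4_v7, n_v4_v8, n_v4_u, n_v4_w⟩, ⟨n_v5_v6, n_v5_v7, n_v5_v8, n_v5_u, n_v5_w⟩, ⟨n_v6_v7, n_v6_v8, n_v6_u, n_v6_w⟩, ⟨n_v7_v8, n_v7_u, n_v7_w⟩, ⟨n_v8_u, n_v8_w⟩, n_u_w⟩ := nd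
  replace n_v0_v1 : v0 ≠ v1 := n_v0_v1
  have n_v1_v0 : v1 ≠ v0 := n_v0_v1.symm
  replace n_v0_v2 : v0 ≠ v2 := n_v0_v2
  have n_v2_v0 : v2 ≠ v0 := n_v0_v2.symm
  replace n_v0_v3 : v0 ≠ v3 := n_v0_v3
  have n_v3_v0 : v3 ≠ v0 := n_v0_v3.symm
  replace n_v0_v4 : v0 ≠ v4 := n_v0_v4
  have n_v4_v0 : v4 ≠ v0 := n_v0_v4.symm
  replace n_v0_v5 : v0 ≠ v5 := n_v0_v5
  have n_v5_v0 : v5 ≠ v0 := n_v0_v5.symm
  replace n_v0_v6 : v0 ≠ v6 := n_v0_v6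
  have n_v6_v0 : v6 ≠ v0 := n_v0_v6.symm
  replace n_v0_v7 : v0 ≠ v7 := n_v0_v7
  have n_v7_v0 : v7 ≠ v0 := n_v0_v7.symm
  replace n_v0_v8 : v0 ≠ v8 := n_v0_v8
  have n_v8_v0 : v8 ≠ v0 := n_v0_v8.symm
  replace n_v0_u : v0 ≠ u := n_v0_u
  have n_u_v0 : u ≠ v0 := n_v0_u.symm
  replace n_v0_w : v0 ≠ w := n_v0_w
  have n_w_v0 : w ≠ v0 := n_v0_w.symm
  replace n_v1_v2 : v1 ≠ v2 := n_v1_v2
  have n_v2_v1 : v2 ≠ v1 := n_v1_v2.symm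
  replace n_v1_v3 : v1 ≠ v3 := n_v1_v3
  have n_v3_v1 : v3 ≠ v1 := n_v1_v3.symm
  replace n_v1_v4 : v1 ≠ v4 := n_v1_v4
  have n_v4_v1 : v4 ≠ v1 := n_v1_v4.symm
  replace n_v1_v5 : v1 ≠ v5 := n_v1_v5
  have n_v5_v1 : v5 ≠ v1 := n_v1_v5.symm
  replace n_v1_v6 : v1 ≠ v6 := n_v1_v6
  have n_v6_v1 : v6 ≠ v1 := n_v1_v6.symm
  replace n_v1_v7 : v1 ≠ v7 := n_v1_v7
  have n_v7_v1 : v7 ≠ v1 := n_v1_v7.symm
  replace n_v1_v8 : v1 ≠ v8 := n_v1_v8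
  have n_v8_v1 : v8 ≠ v1 := n_v1_v8.symm
  replace n_v1_u : v1 ≠ u := n_v1_u
  have n_u_v1 : u ≠ v1 := n_v1_u.symm
  replace n_v1_w : v1 ≠ w := n_v1_w
  have n_w_v1 : w ≠ v1 := n_v1_w.symm
  replace n_v2_v3 : v2 ≠ v3 := n_v2_v3
  have n_v3_v2 : v3 ≠ v2 := n_v2_v3.symm
  replace n_v2_v4 : v2 ≠ v4 := n_v2_v4
  have n_v4_v2 : v4 ≠ v2 := n_v2_v4.symm
  replace n_v2_v5 : v2 ≠ v5 := n_v2_v5
  have n_v5_v2 : v5 ≠ v2 := n_v2_v5.symm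
  replace n_v2_v6 : v2 ≠ v6 := n_v2_v6
  have n_v6_v2 : v6 ≠ v2 := n_v2_v6.symm
  replace n_v2_v7 : v2 ≠ v7 := n_v2_v7
  have n_v7_v2 : v7 ≠ v2 := n_v2_v7.symm
  replace n_v2_v8 : v2 ≠ v8 := n_v2_v8
  have n_v8_v2 : v8 ≠ v2 := n_v2_v8.symm
  replace n_v2_u : v2 ≠ u := n_v2_u
  have n_u_v2 : u ≠ v2 := n_v2_u.symm
  replace n_v2_w : v2 ≠ w := n_v2_w
  have n_w_v2 : w ≠ v2 := n_v2_w.symm
  replace n_v3_v4 : v3 ≠ v4 := n_v3_v4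
  have n_v4_v3 : v4 ≠ v3 := n_v3_v4.symm
  replace n_v3_v5 : v3 ≠ v5 := n_v3_v5
  have n_v5_v3 : v5 ≠ v3 := n_v3_v5.symm
  replace n_v3_v6 : v3 ≠ v6 := n_v3_v6
  have n_v6_v3 : v6 ≠ v3 := n_v3_v6.symm
  replace n_v3_v7 : v3 ≠ v7 := n_v3_v7
  have n_v7_v3 : v7 ≠ v3 := n_v3_v7.symm
  replace n_v3_v8 : v3 ≠ v8 := n_v3_v8
  have n_v8_v3 : v8 ≠ v3 := n_v3_v8.symm
  replace n_v3_u : v3 ≠ u := n_v3_u
  have n_u_v3 : u ≠ v3 := n_v3_u.symm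
  replace n_v3_w : v3 ≠ w := n_v3_w
  have n_w_v3 : w ≠ v3 := n_v3_w.symm
  replace n_v4_v5 : v4 ≠ v5 := n_v4_v5
  have n_v5_v4 : v5 ≠ v4 := n_v4_v5.symm
  replace n_v4_v6 : v4 ≠ v6 := n_v4_v6
  have n_v6_v4 : v6 ≠ v4 := n_v4_v6.symm
  replace n_v4_v7 : v4 ≠ v7 := n_v4_v7
  have n_v7_v4 : v7 ≠ v4 := n_v4_v7.symm
  replace n_v4_v8 : v4 ≠ v8 := n_v4_v8
  have n_v8_v4 : v8 ≠ v4 := n_v4_v8.symm
  replace n_v4_u : v4 ≠ u := n_v4_u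
  have n_u_v4 : u ≠ v4 := n_v4_u.symm
  replace n_v4_w : v4 ≠ w := n_v4_w
  have n_w_v4 : w ≠ v4 := n_v4_w.symm
  replace n_v5_v6 : v5 ≠ v6 := n_v5_v6
  have n_v6_v5 : v6 ≠ v5 := n_v5_v6.symm
  replace n_v5_v7 : v5 ≠ v7 := n_v5_v7
  have n_v7_v5 : v7 ≠ v5 := n_v5_v7.symm
  replace n_v5_v8 : v5 ≠ v8 := n_v5_v8
  have n_v8_v5 : v8 ≠ v5 := n_v5_v8.symm
  replace n_v5_u : v5 ≠ u := n_v5_u
  have n_u_v5 : u ≠ v5 := n_v5_u.symm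
  replace n_v5_w : v5 ≠ w := n_v5_w
  have n_w_v5 : w ≠ v5 := n_v5_w.symm
  replace n_v6_v7 : v6 ≠ v7 := n_v6_v7
  have n_v7_v6 : v7 ≠ v6 := n_v6_v7.symm
  replace n_v6_v8 : v6 ≠ v8 := n_v6_v8
  have n_v8_v6 : v8 ≠ v6 := n_v6_v8.symm
  replace n_v6_u : v6 ≠ u := n_v6_u
  have n_u_v6 : u ≠ v6 := n_v6_u.symm
  replace n_v6_w : v6 ≠ w := n_v6_w
  have n_w_v6 : w ≠ v6 := n_v6_w.symm
  replace n_v7_v8 : v7 ≠ v8 := n_v7_v8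
  have n_v8_v7 : v8 ≠ v7 := n_v7_v8.symm
  replace n_v7_u : v7 ≠ u := n_v7_u
  have n_u_v7 : u ≠ v7 := n_v7_u.symm
  replace n_v7_w : v7 ≠ w := n_v7_w
  have n_w_v7 : w ≠ v7 := n_v7_w.symm
  replace n_v8_u : v8 ≠ u := n_v8_u
  have n_u_v8 : u ≠ v8 := n_v8_u.symm
  replace n_v8_w : v8 ≠ w := n_v8_w
  have n_w_v8 : w ≠ v8 := n_v8_w.symm
  replace n_u_w : u ≠ w := n_u_w
  have n_w_u : w ≠ u := n_u_w.symm
  have w_v0 : v0 ∈ V := hV _ (by simp only [mem_insert, mem_singleton, true_or, or_true])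
  have w_v1 : v1 ∈ V := hV _ (by simp only [mem_insert, mem_singleton, true_or, or_true])
  have w_v2 : v2 ∈ V := hV _ (by simp only [mem_insert, mem_singleton, true_or, or_true])
  have w_v3 : v3 ∈ V := hV _ (by simp only [mem_insert, mem_singleton, true_or, or_true])
  have w_v4 : v4 ∈ V := hV _ (by simp only [mem_insert, mem_singleton, true_or, or_true])
  have w_v5 : v5 ∈ V := hV _ (by simp only [mem_insert, mem_singleton, true_or, or_true])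
  have w_v6 : v6 ∈ V := hV _ (by simp only [mem_insert, mem_singleton, true_or, or_true])
  have w_v7 : v7 ∈ V := hV _ (by simp only [mem_insert, mem_singleton, true_or, or_true])
  have w_v8 : v8 ∈ V := hV _ (by simp only [mem_insert, mem_singleton, true_or, or_true])
  have w_u : u ∈ V := hV _ (by simp only [mem_insert, mem_singleton, true_or, or_true])
  have w_w : w ∈ V := hV _ (by simp only [mem_insert, mem_singleton, true_or, or_true])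
  exfalso
  obtain ⟨x, hx, h⟩ := cfg_spider hF (by
    simp only [List.nodup_cons, List.mem_cons, List.not_mem_nil, not_or, not_false_eq_true,
    and_true, or_false, List.nodup_nil]
    exact ⟨⟨n_v2_v3, n_v2_v4, n_v2_v5, n_v2_v6, n_v2_v7, n_v2_v8, n_v2_u, n_v2_w⟩, ⟨n_v3_v4, n_v3_v5, n_v3_v6, n_v3_v7, n_v3_v8, n_v3_u, n_v3_w⟩, ⟨n_v4_v5, n_v4_v6, n_v4_v7, n_v4_v8, n_v4_u, n_v4_w⟩, ⟨n_v5_v6, n_v5_v7, n_v5_v8, n_v5_u, n_v5_w⟩, ⟨n_v6_v7, n_v6_v8, n_v6_u, n_v6_w⟩, ⟨n_v7_v8, n_v7_u, n_v7_w⟩, ⟨n_v8_u, n_v8_w⟩, n_u_w⟩)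
    (by rw [perm_012 v2 v3 v4]; exact t1) (by rw [perm_012 v4 v5 v6]; exact t2) (by rw [perm_012 v6 v7 v8]; exact t3) (by rw [perm_012 v5 u w]; exact tt)
  refine bad x ?_ h
  simp only [mem_insert, mem_singleton] at hx
  rcases hx with hx | hx | hx | hx | hx | hx | hx | hx | hx <;>
  · rw [hx]; assumption

theorem ext_p4_6 {F : Finset (Finset α)} (hF : ∀ A ∈ F, ∀ B ∈ F, A ∪ B ∈ F) {V : Finset α}
    (bad : ∀ x ∈ V, ¬ F.card ≤ 2 * (F.filter (fun A => x ∈ A)).card)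
    {v0 v1 v2 v3 v4 v5 v6 v7 v8 u w : α} (nd : [v0, v1, v2, v3, v4, v5, v6, v7, v8, u, w].Nodup)
    (t0 : ({v0, v1, v2} : Finset α) ∈ F)
    (t1 : ({v2, v3, v4} : Finset α) ∈ F)
    (t2 : ({v4, v5, v6} : Finset α) ∈ F)
    (t3 : ({v6, v7, v8} : Finset α) ∈ F)
    (tt : ({v6, u, w} : Finset α) ∈ F)
    (hV : ∀ x ∈ ({v0, v1, v2, v3, v4, v5, v6, v7, v8, u, w} : Finset α), x ∈ V)
    : Ty (insert {v6, u, w} ({{v0, v1, v2}, {v2, v3, v4}, {v4, v5, v6}, {v6, v7, v8}} : Finset (Finset α))) := by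
  simp only [List.nodup_cons, List.mem_cons, List.not_mem_nil, not_or, not_false_eq_true,
    and_true, or_false, List.nodup_nil] at nd
  obtain ⟨⟨n_v0_v1, n_v0_v2, n_v0_v3, n_v0_v4, n_v0_v5, n_v0_v6, n_v0_v7, n_v0_v8, n_v0_u, n_v0_w⟩, ⟨n_v1_v2, n_v1_v3, n_v1_v4, n_v1_v5, n_v1_v6, n_v1_v7, n_v1_v8, n_v1_u, n_v1_w⟩, ⟨n_v2_v3, n_v2_v4, n_v2_v5, n_v2_v6, n_v2_v7, n_v2_v8, n_v2_u, n_v2_w⟩, ⟨n_v3_v4, n_v3_v5, n_v3_v6, n_v3_v7, n_v3_v8, n_v3_u, n_v3_w⟩, ⟨n_v4_v5, n_v4_v6, n_v4_v7, n_v4_v8, n_v4_u, n_v4_w⟩, ⟨n_v5_v6, n_v5_v7, n_v5_v8, n_v5_u, n_v5_w⟩, ⟨n_v6_v7, n_v6_v8, n_v6_u, n_v6_w⟩, ⟨n_v7_v8, n_v7_u, n_v7_w⟩, ⟨n_v8_u, n_v8_w⟩, n_u_w⟩ := nd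
  replace n_v0_v1 : v0 ≠ v1 := n_v0_v1
  have n_v1_v0 : v1 ≠ v0 := n_v0_v1.symm
  replace n_v0_v2 : v0 ≠ v2 := n_v0_v2
  have n_v2_v0 : v2 ≠ v0 := n_v0_v2.symm
  replace n_v0_v3 : v0 ≠ v3 := n_v0_v3
  have n_v3_v0 : v3 ≠ v0 := n_v0_v3.symm
  replace n_v0_v4 : v0 ≠ v4 := n_v0_v4
  have n_v4_v0 : v4 ≠ v0 := n_v0_v4.symm
  replace n_v0_v5 : v0 ≠ v5 := n_v0_v5
  have n_v5_v0 : v5 ≠ v0 := n_v0_v5.symm
  replace n_v0_v6 : v0 ≠ v6 := n_v0_v6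
  have n_v6_v0 : v6 ≠ v0 := n_v0_v6.symm
  replace n_v0_v7 : v0 ≠ v7 := n_v0_v7
  have n_v7_v0 : v7 ≠ v0 := n_v0_v7.symm
  replace n_v0_v8 : v0 ≠ v8 := n_v0_v8
  have n_v8_v0 : v8 ≠ v0 := n_v0_v8.symm
  replace n_v0_u : v0 ≠ u := n_v0_u
  have n_u_v0 : u ≠ v0 := n_v0_u.symm
  replace n_v0_w : v0 ≠ w := n_v0_w
  have n_w_v0 : w ≠ v0 := n_v0_w.symm
  replace n_v1_v2 : v1 ≠ v2 := n_v1_v2
  have n_v2_v1 : v2 ≠ v1 := n_v1_v2.symm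
  replace n_v1_v3 : v1 ≠ v3 := n_v1_v3
  have n_v3_v1 : v3 ≠ v1 := n_v1_v3.symm
  replace n_v1_v4 : v1 ≠ v4 := n_v1_v4
  have n_v4_v1 : v4 ≠ v1 := n_v1_v4.symm
  replace n_v1_v5 : v1 ≠ v5 := n_v1_v5
  have n_v5_v1 : v5 ≠ v1 := n_v1_v5.symm
  replace n_v1_v6 : v1 ≠ v6 := n_v1_v6
  have n_v6_v1 : v6 ≠ v1 := n_v1_v6.symm
  replace n_v1_v7 : v1 ≠ v7 := n_v1_v7
  have n_v7_v1 : v7 ≠ v1 := n_v1_v7.symm
  replace n_v1_v8 : v1 ≠ v8 := n_v1_v8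
  have n_v8_v1 : v8 ≠ v1 := n_v1_v8.symm
  replace n_v1_u : v1 ≠ u := n_v1_u
  have n_u_v1 : u ≠ v1 := n_v1_u.symm
  replace n_v1_w : v1 ≠ w := n_v1_w
  have n_w_v1 : w ≠ v1 := n_v1_w.symm
  replace n_v2_v3 : v2 ≠ v3 := n_v2_v3
  have n_v3_v2 : v3 ≠ v2 := n_v2_v3.symm
  replace n_v2_v4 : v2 ≠ v4 := n_v2_v4
  have n_v4_v2 : v4 ≠ v2 := n_v2_v4.symm
  replace n_v2_v5 : v2 ≠ v5 := n_v2_v5
  have n_v5_v2 : v5 ≠ v2 := n_v2_v5.symm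
  replace n_v2_v6 : v2 ≠ v6 := n_v2_v6
  have n_v6_v2 : v6 ≠ v2 := n_v2_v6.symm
  replace n_v2_v7 : v2 ≠ v7 := n_v2_v7
  have n_v7_v2 : v7 ≠ v2 := n_v2_v7.symm
  replace n_v2_v8 : v2 ≠ v8 := n_v2_v8
  have n_v8_v2 : v8 ≠ v2 := n_v2_v8.symm
  replace n_v2_u : v2 ≠ u := n_v2_u
  have n_u_v2 : u ≠ v2 := n_v2_u.symm
  replace n_v2_w : v2 ≠ w := n_v2_w
  have n_w_v2 : w ≠ v2 := n_v2_w.symm
  replace n_v3_v4 : v3 ≠ v4 := n_v3_v4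
  have n_v4_v3 : v4 ≠ v3 := n_v3_v4.symm
  replace n_v3_v5 : v3 ≠ v5 := n_v3_v5
  have n_v5_v3 : v5 ≠ v3 := n_v3_v5.symm
  replace n_v3_v6 : v3 ≠ v6 := n_v3_v6
  have n_v6_v3 : v6 ≠ v3 := n_v3_v6.symm
  replace n_v3_v7 : v3 ≠ v7 := n_v3_v7
  have n_v7_v3 : v7 ≠ v3 := n_v3_v7.symm
  replace n_v3_v8 : v3 ≠ v8 := n_v3_v8
  have n_v8_v3 : v8 ≠ v3 := n_v3_v8.symm
  replace n_v3_u : v3 ≠ u := n_v3_u
  have n_u_v3 : u ≠ v3 := n_v3_u.symm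
  replace n_v3_w : v3 ≠ w := n_v3_w
  have n_w_v3 : w ≠ v3 := n_v3_w.symm
  replace n_v4_v5 : v4 ≠ v5 := n_v4_v5
  have n_v5_v4 : v5 ≠ v4 := n_v4_v5.symm
  replace n_v4_v6 : v4 ≠ v6 := n_v4_v6
  have n_v6_v4 : v6 ≠ v4 := n_v4_v6.symm
  replace n_v4_v7 : v4 ≠ v7 := n_v4_v7
  have n_v7_v4 : v7 ≠ v4 := n_v4_v7.symm
  replace n_v4_v8 : v4 ≠ v8 := n_v4_v8
  have n_v8_v4 : v8 ≠ v4 := n_v4_v8.symm
  replace n_v4_u : v4 ≠ u := n_v4_u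
  have n_u_v4 : u ≠ v4 := n_v4_u.symm
  replace n_v4_w : v4 ≠ w := n_v4_w
  have n_w_v4 : w ≠ v4 := n_v4_w.symm
  replace n_v5_v6 : v5 ≠ v6 := n_v5_v6
  have n_v6_v5 : v6 ≠ v5 := n_v5_v6.symm
  replace n_v5_v7 : v5 ≠ v7 := n_v5_v7
  have n_v7_v5 : v7 ≠ v5 := n_v5_v7.symm
  replace n_v5_v8 : v5 ≠ v8 := n_v5_v8
  have n_v8_v5 : v8 ≠ v5 := n_v5_v8.symm
  replace n_v5_u : v5 ≠ u := n_v5_u
  have n_u_v5 : u ≠ v5 := n_v5_u.symm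
  replace n_v5_w : v5 ≠ w := n_v5_w
  have n_w_v5 : w ≠ v5 := n_v5_w.symm
  replace n_v6_v7 : v6 ≠ v7 := n_v6_v7
  have n_v7_v6 : v7 ≠ v6 := n_v6_v7.symm
  replace n_v6_v8 : v6 ≠ v8 := n_v6_v8
  have n_v8_v6 : v8 ≠ v6 := n_v6_v8.symm
  replace n_v6_u : v6 ≠ u := n_v6_u
  have n_u_v6 : u ≠ v6 := n_v6_u.symm
  replace n_v6_w : v6 ≠ w := n_v6_w
  have n_w_v6 : w ≠ v6 := n_v6_w.symm
  replace n_v7_v8 : v7 ≠ v8 := n_v7_v8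
  have n_v8_v7 : v8 ≠ v7 := n_v7_v8.symm
  replace n_v7_u : v7 ≠ u := n_v7_u
  have n_u_v7 : u ≠ v7 := n_v7_u.symm
  replace n_v7_w : v7 ≠ w := n_v7_w
  have n_w_v7 : w ≠ v7 := n_v7_w.symm
  replace n_v8_u : v8 ≠ u := n_v8_u
  have n_u_v8 : u ≠ v8 := n_v8_u.symm
  replace n_v8_w : v8 ≠ w := n_v8_w
  have n_w_v8 : w ≠ v8 := n_v8_w.symm
  replace n_u_w : u ≠ w := n_u_w
  have n_w_u : w ≠ u := n_u_w.symm
  have w_v0 : v0 ∈ V := hV _ (by simp only [mem_insert, mem_singleton, true_or, or_true])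
  have w_v1 : v1 ∈ V := hV _ (by simp only [mem_insert, mem_singleton, true_or, or_true])
  have w_v2 : v2 ∈ V := hV _ (by simp only [mem_insert, mem_singleton, true_or, or_true])
  have w_v3 : v3 ∈ V := hV _ (by simp only [mem_insert, mem_singleton, true_or, or_true])
  have w_v4 : v4 ∈ V := hV _ (by simp only [mem_insert, mem_singleton, true_or, or_true])
  have w_v5 : v5 ∈ V := hV _ (by simp only [mem_insert, mem_singleton, true_or, or_true])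
  have w_v6 : v6 ∈ V := hV _ (by simp only [mem_insert, mem_singleton, true_or, or_true])
  have w_v7 : v7 ∈ V := hV _ (by simp only [mem_insert, mem_singleton, true_or, or_true])
  have w_v8 : v8 ∈ V := hV _ (by simp only [mem_insert, mem_singleton, true_or, or_true])
  have w_u : u ∈ V := hV _ (by simp only [mem_insert, mem_singleton, true_or, or_true])
  have w_w : w ∈ V := hV _ (by simp only [mem_insert, mem_singleton, true_or, or_true])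
  exfalso
  exact deg3_fc hF bad (x := v6) t2 t3 tt (card_eq_three.2 ⟨v4, v5, v6, n_v4_v5, n_v4_v6, n_v5_v6, rfl⟩) (card_eq_three.2 ⟨v6, v7, v8, n_v6_v7, n_v6_v8, n_v7_v8, rfl⟩) (card_eq_three.2 ⟨v6, u, w, n_v6_u, n_v6_w, n_u_w, rfl⟩)
    (by simp only [insert_subset_iff, singleton_subset_iff]; exact ⟨w_v4, w_v5, w_v6⟩) (by simp only [insert_subset_iff, singleton_subset_iff]; exact ⟨w_v6, w_v7, w_v8⟩) (by simp only [insert_subset_iff, singleton_subset_iff]; exact ⟨w_v6, w_u, w_w⟩)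
    (by simp only [mem_insert, mem_singleton, true_or, or_true]) (by simp only [mem_insert, mem_singleton, true_or, or_true]) (by simp only [mem_insert, mem_singleton, true_or, or_true])
    (by
    intro he
    have h : v4 ∈ ({v6, v7, v8} : Finset α) := by
      rw [← he]; simp only [mem_insert, mem_singleton, true_or, or_true]
    simp only [mem_insert, mem_singleton] at h
    rcases h with h | h | h
    · exact n_v4_v6 h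
    · exact n_v4_v7 h
    · exact n_v4_v8 h)
    (by
    intro he
    have h : v4 ∈ ({v6, u, w} : Finset α) := by
      rw [← he]; simp only [mem_insert, mem_singleton, true_or, or_true]
    simp only [mem_insert, mem_singleton] at h
    rcases h with h | h | h
    · exact n_v4_v6 h
    · exact n_v4_u h
    · exact n_v4_w h)
    (by
    intro he
    have h : v7 ∈ ({v6, u, w} : Finset α) := by
      rw [← he]; simp only [mem_insert, mem_singleton, true_or, or_true]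
    simp only [mem_insert, mem_singleton] at h
    rcases h with h | h | h
    · exact n_v7_v6 h
    · exact n_v7_u h
    · exact n_v7_w h)

theorem ext_p4_7 {F : Finset (Finset α)} (hF : ∀ A ∈ F, ∀ B ∈ F, A ∪ B ∈ F) {V : Finset α}
    (bad : ∀ x ∈ V, ¬ F.card ≤ 2 * (F.filter (fun A => x ∈ A)).card)
    {v0 v1 v2 v3 v4 v5 v6 v7 v8 u w : α} (nd : [v0, v1, v2, v3, v4, v5, v6, v7, v8, u, w].Nodup)
    (t0 : ({v0, v1, v2} : Finset α) ∈ F)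
    (t1 : ({v2, v3, v4} : Finset α) ∈ F)
    (t2 : ({v4, v5, v6} : Finset α) ∈ F)
    (t3 : ({v6, v7, v8} : Finset α) ∈ F)
    (tt : ({v7, u, w} : Finset α) ∈ F)
    (hV : ∀ x ∈ ({v0, v1, v2, v3, v4, v5, v6, v7, v8, u, w} : Finset α), x ∈ V)
    : Ty (insert {v7, u, w} ({{v0, v1, v2}, {v2, v3, v4}, {v4, v5, v6}, {v6, v7, v8}} : Finset (Finset α))) := by
  simp only [List.nodup_cons, List.mem_cons, List.not_mem_nil, not_or, not_false_eq_true,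
    and_true, or_false, List.nodup_nil] at nd
  obtain ⟨⟨n_v0_v1, n_v0_v2, n_v0_v3, n_v0_v4, n_v0_v5, n_v0_v6, n_v0_v7, n_v0_v8, n_v0_u, n_v0_w⟩, ⟨n_v1_v2, n_v1_v3, n_v1_v4, n_v1_v5, n_v1_v6, n_v1_v7, n_v1_v8, n_v1_u, n_v1_w⟩, ⟨n_v2_v3, n_v2_v4, n_v2_v5, n_v2_v6, n_v2_v7, n_v2_v8, n_v2_u, n_v2_w⟩, ⟨n_v3_v4, n_v3_v5, n_v3_v6, n_v3_v7, n_v3_v8, n_v3_u, n_v3_w⟩, ⟨n_v4_v5, n_v4_v6, n_v4_v7, n_v4_v8, n_v4_u, n_v4_w⟩, ⟨n_v5_v6, n_v5_v7, n_v5_v8, n_v5_u, n_v5_w⟩, ⟨n_v6_v7, n_v6_v8, n_v6_u, n_v6_w⟩, ⟨n_v7_v8, n_v7_u, n_v7_w⟩, ⟨n_v8_u, n_v8_w⟩, n_u_w⟩ := nd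
  replace n_v0_v1 : v0 ≠ v1 := n_v0_v1
  have n_v1_v0 : v1 ≠ v0 := n_v0_v1.symm
  replace n_v0_v2 : v0 ≠ v2 := n_v0_v2
  have n_v2_v0 : v2 ≠ v0 := n_v0_v2.symm
  replace n_v0_v3 : v0 ≠ v3 := n_v0_v3
  have n_v3_v0 : v3 ≠ v0 := n_v0_v3.symm
  replace n_v0_v4 : v0 ≠ v4 := n_v0_v4
  have n_v4_v0 : v4 ≠ v0 := n_v0_v4.symm
  replace n_v0_v5 : v0 ≠ v5 := n_v0_v5
  have n_v5_v0 : v5 ≠ v0 := n_v0_v5.symm
  replace n_v0_v6 : v0 ≠ v6 := n_v0_v6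
  have n_v6_v0 : v6 ≠ v0 := n_v0_v6.symm
  replace n_v0_v7 : v0 ≠ v7 := n_v0_v7
  have n_v7_v0 : v7 ≠ v0 := n_v0_v7.symm
  replace n_v0_v8 : v0 ≠ v8 := n_v0_v8
  have n_v8_v0 : v8 ≠ v0 := n_v0_v8.symm
  replace n_v0_u : v0 ≠ u := n_v0_u
  have n_u_v0 : u ≠ v0 := n_v0_u.symm
  replace n_v0_w : v0 ≠ w := n_v0_w
  have n_w_v0 : w ≠ v0 := n_v0_w.symm
  replace n_v1_v2 : v1 ≠ v2 := n_v1_v2
  have n_v2_v1 : v2 ≠ v1 := n_v1_v2.symm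
  replace n_v1_v3 : v1 ≠ v3 := n_v1_v3
  have n_v3_v1 : v3 ≠ v1 := n_v1_v3.symm
  replace n_v1_v4 : v1 ≠ v4 := n_v1_v4
  have n_v4_v1 : v4 ≠ v1 := n_v1_v4.symm
  replace n_v1_v5 : v1 ≠ v5 := n_v1_v5
  have n_v5_v1 : v5 ≠ v1 := n_v1_v5.symm
  replace n_v1_v6 : v1 ≠ v6 := n_v1_v6
  have n_v6_v1 : v6 ≠ v1 := n_v1_v6.symm
  replace n_v1_v7 : v1 ≠ v7 := n_v1_v7
  have n_v7_v1 : v7 ≠ v1 := n_v1_v7.symm
  replace n_v1_v8 : v1 ≠ v8 := n_v1_v8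
  have n_v8_v1 : v8 ≠ v1 := n_v1_v8.symm
  replace n_v1_u : v1 ≠ u := n_v1_u
  have n_u_v1 : u ≠ v1 := n_v1_u.symm
  replace n_v1_w : v1 ≠ w := n_v1_w
  have n_w_v1 : w ≠ v1 := n_v1_w.symm
  replace n_v2_v3 : v2 ≠ v3 := n_v2_v3
  have n_v3_v2 : v3 ≠ v2 := n_v2_v3.symm
  replace n_v2_v4 : v2 ≠ v4 := n_v2_v4
  have n_v4_v2 : v4 ≠ v2 := n_v2_v4.symm
  replace n_v2_v5 : v2 ≠ v5 := n_v2_v5
  have n_v5_v2 : v5 ≠ v2 := n_v2_v5.symm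
  replace n_v2_v6 : v2 ≠ v6 := n_v2_v6
  have n_v6_v2 : v6 ≠ v2 := n_v2_v6.symm
  replace n_v2_v7 : v2 ≠ v7 := n_v2_v7
  have n_v7_v2 : v7 ≠ v2 := n_v2_v7.symm
  replace n_v2_v8 : v2 ≠ v8 := n_v2_v8
  have n_v8_v2 : v8 ≠ v2 := n_v2_v8.symm
  replace n_v2_u : v2 ≠ u := n_v2_u
  have n_u_v2 : u ≠ v2 := n_v2_u.symm
  replace n_v2_w : v2 ≠ w := n_v2_w
  have n_w_v2 : w ≠ v2 := n_v2_w.symm
  replace n_v3_v4 : v3 ≠ v4 := n_v3_v4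
  have n_v4_v3 : v4 ≠ v3 := n_v3_v4.symm
  replace n_v3_v5 : v3 ≠ v5 := n_v3_v5
  have n_v5_v3 : v5 ≠ v3 := n_v3_v5.symm
  replace n_v3_v6 : v3 ≠ v6 := n_v3_v6
  have n_v6_v3 : v6 ≠ v3 := n_v3_v6.symm
  replace n_v3_v7 : v3 ≠ v7 := n_v3_v7
  have n_v7_v3 : v7 ≠ v3 := n_v3_v7.symm
  replace n_v3_v8 : v3 ≠ v8 := n_v3_v8
  have n_v8_v3 : v8 ≠ v3 := n_v3_v8.symm
  replace n_v3_u : v3 ≠ u := n_v3_u
  have n_u_v3 : u ≠ v3 := n_v3_u.symm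
  replace n_v3_w : v3 ≠ w := n_v3_w
  have n_w_v3 : w ≠ v3 := n_v3_w.symm
  replace n_v4_v5 : v4 ≠ v5 := n_v4_v5
  have n_v5_v4 : v5 ≠ v4 := n_v4_v5.symm
  replace n_v4_v6 : v4 ≠ v6 := n_v4_v6
  have n_v6_v4 : v6 ≠ v4 := n_v4_v6.symm
  replace n_v4_v7 : v4 ≠ v7 := n_v4_v7
  have n_v7_v4 : v7 ≠ v4 := n_v4_v7.symm
  replace n_v4_v8 : v4 ≠ v8 := n_v4_v8
  have n_v8_v4 : v8 ≠ v4 := n_v4_v8.symm
  replace n_v4_u : v4 ≠ u := n_v4_u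
  have n_u_v4 : u ≠ v4 := n_v4_u.symm
  replace n_v4_w : v4 ≠ w := n_v4_w
  have n_w_v4 : w ≠ v4 := n_v4_w.symm
  replace n_v5_v6 : v5 ≠ v6 := n_v5_v6
  have n_v6_v5 : v6 ≠ v5 := n_v5_v6.symm
  replace n_v5_v7 : v5 ≠ v7 := n_v5_v7
  have n_v7_v5 : v7 ≠ v5 := n_v5_v7.symm
  replace n_v5_v8 : v5 ≠ v8 := n_v5_v8
  have n_v8_v5 : v8 ≠ v5 := n_v5_v8.symm
  replace n_v5_u : v5 ≠ u := n_v5_u
  have n_u_v5 : u ≠ v5 := n_v5_u.symm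
  replace n_v5_w : v5 ≠ w := n_v5_w
  have n_w_v5 : w ≠ v5 := n_v5_w.symm
  replace n_v6_v7 : v6 ≠ v7 := n_v6_v7
  have n_v7_v6 : v7 ≠ v6 := n_v6_v7.symm
  replace n_v6_v8 : v6 ≠ v8 := n_v6_v8
  have n_v8_v6 : v8 ≠ v6 := n_v6_v8.symm
  replace n_v6_u : v6 ≠ u := n_v6_u
  have n_u_v6 : u ≠ v6 := n_v6_u.symm
  replace n_v6_w : v6 ≠ w := n_v6_w
  have n_w_v6 : w ≠ v6 := n_v6_w.symm
  replace n_v7_v8 : v7 ≠ v8 := n_v7_v8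
  have n_v8_v7 : v8 ≠ v7 := n_v7_v8.symm
  replace n_v7_u : v7 ≠ u := n_v7_u
  have n_u_v7 : u ≠ v7 := n_v7_u.symm
  replace n_v7_w : v7 ≠ w := n_v7_w
  have n_w_v7 : w ≠ v7 := n_v7_w.symm
  replace n_v8_u : v8 ≠ u := n_v8_u
  have n_u_v8 : u ≠ v8 := n_v8_u.symm
  replace n_v8_w : v8 ≠ w := n_v8_w
  have n_w_v8 : w ≠ v8 := n_v8_w.symm
  replace n_u_w : u ≠ w := n_u_w
  have n_w_u : w ≠ u := n_u_w.symm
  have w_v0 : v0 ∈ V := hV _ (by simp only [mem_insert, mem_singleton, true_or, or_true])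
  have w_v1 : v1 ∈ V := hV _ (by simp only [mem_insert, mem_singleton, true_or, or_true])
  have w_v2 : v2 ∈ V := hV _ (by simp only [mem_insert, mem_singleton, true_or, or_true])
  have w_v3 : v3 ∈ V := hV _ (by simp only [mem_insert, mem_singleton, true_or, or_true])
  have w_v4 : v4 ∈ V := hV _ (by simp only [mem_insert, mem_singleton, true_or, or_true])
  have w_v5 : v5 ∈ V := hV _ (by simp only [mem_insert, mem_singleton, true_or, or_true])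
  have w_v6 : v6 ∈ V := hV _ (by simp only [mem_insert, mem_singleton, true_or, or_true])
  have w_v7 : v7 ∈ V := hV _ (by simp only [mem_insert, mem_singleton, true_or, or_true])
  have w_v8 : v8 ∈ V := hV _ (by simp only [mem_insert, mem_singleton, true_or, or_true])
  have w_u : u ∈ V := hV _ (by simp only [mem_insert, mem_singleton, true_or, or_true])
  have w_w : w ∈ V := hV _ (by simp only [mem_insert, mem_singleton, true_or, or_true])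
  exfalso
  obtain ⟨x, hx, h⟩ := cfg_P5 hF (by
    simp only [List.nodup_cons, List.mem_cons, List.not_mem_nil, not_or, not_false_eq_true,
    and_true, or_false, List.nodup_nil]
    exact ⟨⟨n_v0_v1, n_v0_v2, n_v0_v3, n_v0_v4, n_v0_v5, n_v0_v6, n_v0_v8, n_v0_v7, n_v0_u, n_v0_w⟩, ⟨n_v1_v2, n_v1_v3, n_v1_v4, n_v1_v5, n_v1_v6, n_v1_v8, n_v1_v7, n_v1_u, n_v1_w⟩, ⟨n_v2_v3, n_v2_v4, n_v2_v5, n_v2_v6, n_v2_v8, n_v2_v7, n_v2_u, n_v2_w⟩, ⟨n_v3_v4, n_v3_v5, n_v3_v6, n_v3_v8, n_v3_v7, n_v3_u, n_v3_w⟩, ⟨n_v4_v5, n_v4_v6, n_v4_v8, n_v4_v7, n_v4_u, n_v4_w⟩, ⟨n_v5_v6, n_v5_v8, n_v5_v7, n_v5_u, n_v5_w⟩, ⟨n_v6_v8, n_v6_v7, n_v6_u, n_v6_w⟩, ⟨n_v8_v7, n_v8_u, n_v8_w⟩, ⟨n_v7_u, n_v7_w⟩, n_u_w⟩)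
    (by rw [perm_012 v0 v1 v2]; exact t0) (by rw [perm_012 v2 v3 v4]; exact t1) (by rw [perm_012 v4 v5 v6]; exact t2) (by rw [perm_021 v6 v7 v8]; exact t3) (by rw [perm_012 v7 u w]; exact tt)
  refine bad x ?_ h
  simp only [mem_insert, mem_singleton] at hx
  rcases hx with hx | hx | hx | hx | hx | hx | hx | hx | hx | hx | hx <;>
  · rw [hx]; assumption

theorem ext_p4_8 {F : Finset (Finset α)} (hF : ∀ A ∈ F, ∀ B ∈ F, A ∪ B ∈ F) {V : Finset α}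
    (bad : ∀ x ∈ V, ¬ F.card ≤ 2 * (F.filter (fun A => x ∈ A)).card)
    {v0 v1 v2 v3 v4 v5 v6 v7 v8 u w : α} (nd : [v0, v1, v2, v3, v4, v5, v6, v7, v8, u, w].Nodup)
    (t0 : ({v0, v1, v2} : Finset α) ∈ F)
    (t1 : ({v2, v3, v4} : Finset α) ∈ F)
    (t2 : ({v4, v5, v6} : Finset α) ∈ F)
    (t3 : ({v6, v7, v8} : Finset α) ∈ F)
    (tt : ({v8, u, w} : Finset α) ∈ F)
    (hV : ∀ x ∈ ({v0, v1, v2, v3, v4, v5, v6, v7, v8, u, w} : Finset α), x ∈ V)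
    : Ty (insert {v8, u, w} ({{v0, v1, v2}, {v2, v3, v4}, {v4, v5, v6}, {v6, v7, v8}} : Finset (Finset α))) := by
  simp only [List.nodup_cons, List.mem_cons, List.not_mem_nil, not_or, not_false_eq_true,
    and_true, or_false, List.nodup_nil] at nd
  obtain ⟨⟨n_v0_v1, n_v0_v2, n_v0_v3, n_v0_v4, n_v0_v5, n_v0_v6, n_v0_v7, n_v0_v8, n_v0_u, n_v0_w⟩, ⟨n_v1_v2, n_v1_v3, n_v1_v4, n_v1_v5, n_v1_v6, n_v1_v7, n_v1_v8, n_v1_u, n_v1_w⟩, ⟨n_v2_v3, n_v2_v4, n_v2_v5, n_v2_v6, n_v2_v7, n_v2_v8, n_v2_u, n_v2_w⟩, ⟨n_v3_v4, n_v3_v5, n_v3_v6, n_v3_v7, n_v3_v8, n_v3_u, n_v3_w⟩, ⟨n_v4_v5, n_v4_v6, n_v4_v7, n_v4_v8, n_v4_u, n_v4_w⟩, ⟨n_v5_v6, n_v5_v7, n_v5_v8, n_v5_u, n_v5_w⟩, ⟨n_v6_v7, n_v6_v8, n_v6_u, n_v6_w⟩, ⟨n_v7_v8, n_v7_u, n_v7_w⟩, ⟨n_v8_u, n_v8_w⟩, n_u_w⟩ := nd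
  replace n_v0_v1 : v0 ≠ v1 := n_v0_v1
  have n_v1_v0 : v1 ≠ v0 := n_v0_v1.symm
  replace n_v0_v2 : v0 ≠ v2 := n_v0_v2
  have n_v2_v0 : v2 ≠ v0 := n_v0_v2.symm
  replace n_v0_v3 : v0 ≠ v3 := n_v0_v3
  have n_v3_v0 : v3 ≠ v0 := n_v0_v3.symm
  replace n_v0_v4 : v0 ≠ v4 := n_v0_v4
  have n_v4_v0 : v4 ≠ v0 := n_v0_v4.symm
  replace n_v0_v5 : v0 ≠ v5 := n_v0_v5
  have n_v5_v0 : v5 ≠ v0 := n_v0_v5.symm
  replace n_v0_v6 : v0 ≠ v6 := n_v0_v6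
  have n_v6_v0 : v6 ≠ v0 := n_v0_v6.symm
  replace n_v0_v7 : v0 ≠ v7 := n_v0_v7
  have n_v7_v0 : v7 ≠ v0 := n_v0_v7.symm
  replace n_v0_v8 : v0 ≠ v8 := n_v0_v8
  have n_v8_v0 : v8 ≠ v0 := n_v0_v8.symm
  replace n_v0_u : v0 ≠ u := n_v0_u
  have n_u_v0 : u ≠ v0 := n_v0_u.symm
  replace n_v0_w : v0 ≠ w := n_v0_w
  have n_w_v0 : w ≠ v0 := n_v0_w.symm
  replace n_v1_v2 : v1 ≠ v2 := n_v1_v2
  have n_v2_v1 : v2 ≠ v1 := n_v1_v2.symm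
  replace n_v1_v3 : v1 ≠ v3 := n_v1_v3
  have n_v3_v1 : v3 ≠ v1 := n_v1_v3.symm
  replace n_v1_v4 : v1 ≠ v4 := n_v1_v4
  have n_v4_v1 : v4 ≠ v1 := n_v1_v4.symm
  replace n_v1_v5 : v1 ≠ v5 := n_v1_v5
  have n_v5_v1 : v5 ≠ v1 := n_v1_v5.symm
  replace n_v1_v6 : v1 ≠ v6 := n_v1_v6
  have n_v6_v1 : v6 ≠ v1 := n_v1_v6.symm
  replace n_v1_v7 : v1 ≠ v7 := n_v1_v7
  have n_v7_v1 : v7 ≠ v1 := n_v1_v7.symm
  replace n_v1_v8 : v1 ≠ v8 := n_v1_v8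
  have n_v8_v1 : v8 ≠ v1 := n_v1_v8.symm
  replace n_v1_u : v1 ≠ u := n_v1_u
  have n_u_v1 : u ≠ v1 := n_v1_u.symm
  replace n_v1_w : v1 ≠ w := n_v1_w
  have n_w_v1 : w ≠ v1 := n_v1_w.symm
  replace n_v2_v3 : v2 ≠ v3 := n_v2_v3
  have n_v3_v2 : v3 ≠ v2 := n_v2_v3.symm
  replace n_v2_v4 : v2 ≠ v4 := n_v2_v4
  have n_v4_v2 : v4 ≠ v2 := n_v2_v4.symm
  replace n_v2_v5 : v2 ≠ v5 := n_v2_v5
  have n_v5_v2 : v5 ≠ v2 := n_v2_v5.symm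
  replace n_v2_v6 : v2 ≠ v6 := n_v2_v6
  have n_v6_v2 : v6 ≠ v2 := n_v2_v6.symm
  replace n_v2_v7 : v2 ≠ v7 := n_v2_v7
  have n_v7_v2 : v7 ≠ v2 := n_v2_v7.symm
  replace n_v2_v8 : v2 ≠ v8 := n_v2_v8
  have n_v8_v2 : v8 ≠ v2 := n_v2_v8.symm
  replace n_v2_u : v2 ≠ u := n_v2_u
  have n_u_v2 : u ≠ v2 := n_v2_u.symm
  replace n_v2_w : v2 ≠ w := n_v2_w
  have n_w_v2 : w ≠ v2 := n_v2_w.symm
  replace n_v3_v4 : v3 ≠ v4 := n_v3_v4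
  have n_v4_v3 : v4 ≠ v3 := n_v3_v4.symm
  replace n_v3_v5 : v3 ≠ v5 := n_v3_v5
  have n_v5_v3 : v5 ≠ v3 := n_v3_v5.symm
  replace n_v3_v6 : v3 ≠ v6 := n_v3_v6
  have n_v6_v3 : v6 ≠ v3 := n_v3_v6.symm
  replace n_v3_v7 : v3 ≠ v7 := n_v3_v7
  have n_v7_v3 : v7 ≠ v3 := n_v3_v7.symm
  replace n_v3_v8 : v3 ≠ v8 := n_v3_v8
  have n_v8_v3 : v8 ≠ v3 := n_v3_v8.symm
  replace n_v3_u : v3 ≠ u := n_v3_u
  have n_u_v3 : u ≠ v3 := n_v3_u.symm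
  replace n_v3_w : v3 ≠ w := n_v3_w
  have n_w_v3 : w ≠ v3 := n_v3_w.symm
  replace n_v4_v5 : v4 ≠ v5 := n_v4_v5
  have n_v5_v4 : v5 ≠ v4 := n_v4_v5.symm
  replace n_v4_v6 : v4 ≠ v6 := n_v4_v6
  have n_v6_v4 : v6 ≠ v4 := n_v4_v6.symm
  replace n_v4_v7 : v4 ≠ v7 := n_v4_v7
  have n_v7_v4 : v7 ≠ v4 := n_v4_v7.symm
  replace n_v4_v8 : v4 ≠ v8 := n_v4_v8
  have n_v8_v4 : v8 ≠ v4 := n_v4_v8.symm
  replace n_v4_u : v4 ≠ u := n_v4_u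
  have n_u_v4 : u ≠ v4 := n_v4_u.symm
  replace n_v4_w : v4 ≠ w := n_v4_w
  have n_w_v4 : w ≠ v4 := n_v4_w.symm
  replace n_v5_v6 : v5 ≠ v6 := n_v5_v6
  have n_v6_v5 : v6 ≠ v5 := n_v5_v6.symm
  replace n_v5_v7 : v5 ≠ v7 := n_v5_v7
  have n_v7_v5 : v7 ≠ v5 := n_v5_v7.symm
  replace n_v5_v8 : v5 ≠ v8 := n_v5_v8
  have n_v8_v5 : v8 ≠ v5 := n_v5_v8.symm
  replace n_v5_u : v5 ≠ u := n_v5_u
  have n_u_v5 : u ≠ v5 := n_v5_u.symm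
  replace n_v5_w : v5 ≠ w := n_v5_w
  have n_w_v5 : w ≠ v5 := n_v5_w.symm
  replace n_v6_v7 : v6 ≠ v7 := n_v6_v7
  have n_v7_v6 : v7 ≠ v6 := n_v6_v7.symm
  replace n_v6_v8 : v6 ≠ v8 := n_v6_v8
  have n_v8_v6 : v8 ≠ v6 := n_v6_v8.symm
  replace n_v6_u : v6 ≠ u := n_v6_u
  have n_u_v6 : u ≠ v6 := n_v6_u.symm
  replace n_v6_w : v6 ≠ w := n_v6_w
  have n_w_v6 : w ≠ v6 := n_v6_w.symm
  replace n_v7_v8 : v7 ≠ v8 := n_v7_v8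
  have n_v8_v7 : v8 ≠ v7 := n_v7_v8.symm
  replace n_v7_u : v7 ≠ u := n_v7_u
  have n_u_v7 : u ≠ v7 := n_v7_u.symm
  replace n_v7_w : v7 ≠ w := n_v7_w
  have n_w_v7 : w ≠ v7 := n_v7_w.symm
  replace n_v8_u : v8 ≠ u := n_v8_u
  have n_u_v8 : u ≠ v8 := n_v8_u.symm
  replace n_v8_w : v8 ≠ w := n_v8_w
  have n_w_v8 : w ≠ v8 := n_v8_w.symm
  replace n_u_w : u ≠ w := n_u_w
  have n_w_u : w ≠ u := n_u_w.symm
  have w_v0 : v0 ∈ V := hV _ (by simp only [mem_insert, mem_singleton, true_or, or_true])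
  have w_v1 : v1 ∈ V := hV _ (by simp only [mem_insert, mem_singleton, true_or, or_true])
  have w_v2 : v2 ∈ V := hV _ (by simp only [mem_insert, mem_singleton, true_or, or_true])
  have w_v3 : v3 ∈ V := hV _ (by simp only [mem_insert, mem_singleton, true_or, or_true])
  have w_v4 : v4 ∈ V := hV _ (by simp only [mem_insert, mem_singleton, true_or, or_true])
  have w_v5 : v5 ∈ V := hV _ (by simp only [mem_insert, mem_singleton, true_or, or_true])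
  have w_v6 : v6 ∈ V := hV _ (by simp only [mem_insert, mem_singleton, true_or, or_true])
  have w_v7 : v7 ∈ V := hV _ (by simp only [mem_insert, mem_singleton, true_or, or_true])
  have w_v8 : v8 ∈ V := hV _ (by simp only [mem_insert, mem_singleton, true_or, or_true])
  have w_u : u ∈ V := hV _ (by simp only [mem_insert, mem_singleton, true_or, or_true])
  have w_w : w ∈ V := hV _ (by simp only [mem_insert, mem_singleton, true_or, or_true])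
  exfalso
  obtain ⟨x, hx, h⟩ := cfg_P5 hF (by
    simp only [List.nodup_cons, List.mem_cons, List.not_mem_nil, not_or, not_false_eq_true,
    and_true, or_false, List.nodup_nil]
    exact ⟨⟨n_v0_v1, n_v0_v2, n_v0_v3, n_v0_v4, n_v0_v5, n_v0_v6, n_v0_v7, n_v0_v8, n_v0_u, n_v0_w⟩, ⟨n_v1_v2, n_v1_v3, n_v1_v4, n_v1_v5, n_v1_v6, n_v1_v7, n_v1_v8, n_v1_u, n_v1_w⟩, ⟨n_v2_v3, n_v2_v4, n_v2_v5, n_v2_v6, n_v2_v7, n_v2_v8, n_v2_u, n_v2_w⟩, ⟨n_v3_v4, n_v3_v5, n_v3_v6, n_v3_v7, n_v3_v8, n_v3_u, n_v3_w⟩, ⟨n_v4_v5, n_v4_v6, n_v4_v7, n_v4_v8, n_v4_u, n_v4_w⟩, ⟨n_v5_v6, n_v5_v7, n_v5_v8, n_v5_u, n_v5_w⟩, ⟨n_v6_v7, n_v6_v8, n_v6_u, n_v6_w⟩, ⟨n_v7_v8, n_v7_u, n_v7_w⟩, ⟨n_v8_u, n_v8_w⟩, n_u_w⟩)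
    (by rw [perm_012 v0 v1 v2]; exact t0) (by rw [perm_012 v2 v3 v4]; exact t1) (by rw [perm_012 v4 v5 v6]; exact t2) (by rw [perm_012 v6 v7 v8]; exact t3) (by rw [perm_012 v8 u w]; exact tt)
  refine bad x ?_ h
  simp only [mem_insert, mem_singleton] at hx
  rcases hx with hx | hx | hx | hx | hx | hx | hx | hx | hx | hx | hx <;>
  · rw [hx]; assumption

theorem ext_q2_0 {F : Finset (Finset α)} (hF : ∀ A ∈ F, ∀ B ∈ F, A ∪ B ∈ F) {V : Finset α}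
    (bad : ∀ x ∈ V, ¬ F.card ≤ 2 * (F.filter (fun A => x ∈ A)).card)
    {v0 v1 v2 v3 u w : α} (nd : [v0, v1, v2, v3, u, w].Nodup)
    (t0 : ({v0, v1, v2} : Finset α) ∈ F)
    (t1 : ({v1, v2, v3} : Finset α) ∈ F)
    (tt : ({v0, u, w} : Finset α) ∈ F)
    (hV : ∀ x ∈ ({v0, v1, v2, v3, u, w} : Finset α), x ∈ V)
    : Ty (insert {v0, u, w} ({{v0, v1, v2}, {v1, v2, v3}} : Finset (Finset α))) := by
  simp only [List.nodup_cons, List.mem_cons, List.not_mem_nil, not_or, not_false_eq_true,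
    and_true, or_false, List.nodup_nil] at nd
  obtain ⟨⟨n_v0_v1, n_v0_v2, n_v0_v3, n_v0_u, n_v0_w⟩, ⟨n_v1_v2, n_v1_v3, n_v1_u, n_v1_w⟩, ⟨n_v2_v3, n_v2_u, n_v2_w⟩, ⟨n_v3_u, n_v3_w⟩, n_u_w⟩ := nd
  replace n_v0_v1 : v0 ≠ v1 := n_v0_v1
  have n_v1_v0 : v1 ≠ v0 := n_v0_v1.symm
  replace n_v0_v2 : v0 ≠ v2 := n_v0_v2
  have n_v2_v0 : v2 ≠ v0 := n_v0_v2.symm
  replace n_v0_v3 : v0 ≠ v3 := n_v0_v3
  have n_v3_v0 : v3 ≠ v0 := n_v0_v3.symm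
  replace n_v0_u : v0 ≠ u := n_v0_u
  have n_u_v0 : u ≠ v0 := n_v0_u.symm
  replace n_v0_w : v0 ≠ w := n_v0_w
  have n_w_v0 : w ≠ v0 := n_v0_w.symm
  replace n_v1_v2 : v1 ≠ v2 := n_v1_v2
  have n_v2_v1 : v2 ≠ v1 := n_v1_v2.symm
  replace n_v1_v3 : v1 ≠ v3 := n_v1_v3
  have n_v3_v1 : v3 ≠ v1 := n_v1_v3.symm
  replace n_v1_u : v1 ≠ u := n_v1_u
  have n_u_v1 : u ≠ v1 := n_v1_u.symm
  replace n_v1_w : v1 ≠ w := n_v1_w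
  have n_w_v1 : w ≠ v1 := n_v1_w.symm
  replace n_v2_v3 : v2 ≠ v3 := n_v2_v3
  have n_v3_v2 : v3 ≠ v2 := n_v2_v3.symm
  replace n_v2_u : v2 ≠ u := n_v2_u
  have n_u_v2 : u ≠ v2 := n_v2_u.symm
  replace n_v2_w : v2 ≠ w := n_v2_w
  have n_w_v2 : w ≠ v2 := n_v2_w.symm
  replace n_v3_u : v3 ≠ u := n_v3_u
  have n_u_v3 : u ≠ v3 := n_v3_u.symm
  replace n_v3_w : v3 ≠ w := n_v3_w
  have n_w_v3 : w ≠ v3 := n_v3_w.symm
  replace n_u_w : u ≠ w := n_u_w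
  have n_w_u : w ≠ u := n_u_w.symm
  have w_v0 : v0 ∈ V := hV _ (by simp only [mem_insert, mem_singleton, true_or, or_true])
  have w_v1 : v1 ∈ V := hV _ (by simp only [mem_insert, mem_singleton, true_or, or_true])
  have w_v2 : v2 ∈ V := hV _ (by simp only [mem_insert, mem_singleton, true_or, or_true])
  have w_v3 : v3 ∈ V := hV _ (by simp only [mem_insert, mem_singleton, true_or, or_true])
  have w_u : u ∈ V := hV _ (by simp only [mem_insert, mem_singleton, true_or, or_true])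
  have w_w : w ∈ V := hV _ (by simp only [mem_insert, mem_singleton, true_or, or_true])
  have h := Ty.q3 u w v0 v1 v2 v3 (by
    simp only [List.nodup_cons, List.mem_cons, List.not_mem_nil, not_or, not_false_eq_true,
    and_true, or_false, List.nodup_nil]
    exact ⟨⟨n_u_w, n_u_v0, n_u_v1, n_u_v2, n_u_v3⟩, ⟨n_w_v0, n_w_v1, n_w_v2, n_w_v3⟩, ⟨n_v0_v1, n_v0_v2, n_v0_v3⟩, ⟨n_v1_v2, n_v1_v3⟩, n_v2_v3⟩)
  rw [perm_120 v0 u w] at h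
  exact h

theorem ext_q2_1 {F : Finset (Finset α)} (hF : ∀ A ∈ F, ∀ B ∈ F, A ∪ B ∈ F) {V : Finset α}
    (bad : ∀ x ∈ V, ¬ F.card ≤ 2 * (F.filter (fun A => x ∈ A)).card)
    {v0 v1 v2 v3 u w : α} (nd : [v0, v1, v2, v3, u, w].Nodup)
    (t0 : ({v0, v1, v2} : Finset α) ∈ F)
    (t1 : ({v1, v2, v3} : Finset α) ∈ F)
    (tt : ({v1, u, w} : Finset α) ∈ F)
    (hV : ∀ x ∈ ({v0, v1, v2, v3, u, w} : Finset α), x ∈ V)
    : Ty (insert {v1, u, w} ({{v0, v1, v2}, {v1, v2, v3}} : Finset (Finset α))) := by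
  simp only [List.nodup_cons, List.mem_cons, List.not_mem_nil, not_or, not_false_eq_true,
    and_true, or_false, List.nodup_nil] at nd
  obtain ⟨⟨n_v0_v1, n_v0_v2, n_v0_v3, n_v0_u, n_v0_w⟩, ⟨n_v1_v2, n_v1_v3, n_v1_u, n_v1_w⟩, ⟨n_v2_v3, n_v2_u, n_v2_w⟩, ⟨n_v3_u, n_v3_w⟩, n_u_w⟩ := nd
  replace n_v0_v1 : v0 ≠ v1 := n_v0_v1
  have n_v1_v0 : v1 ≠ v0 := n_v0_v1.symm
  replace n_v0_v2 : v0 ≠ v2 := n_v0_v2
  have n_v2_v0 : v2 ≠ v0 := n_v0_v2.symm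
  replace n_v0_v3 : v0 ≠ v3 := n_v0_v3
  have n_v3_v0 : v3 ≠ v0 := n_v0_v3.symm
  replace n_v0_u : v0 ≠ u := n_v0_u
  have n_u_v0 : u ≠ v0 := n_v0_u.symm
  replace n_v0_w : v0 ≠ w := n_v0_w
  have n_w_v0 : w ≠ v0 := n_v0_w.symm
  replace n_v1_v2 : v1 ≠ v2 := n_v1_v2
  have n_v2_v1 : v2 ≠ v1 := n_v1_v2.symm
  replace n_v1_v3 : v1 ≠ v3 := n_v1_v3
  have n_v3_v1 : v3 ≠ v1 := n_v1_v3.symm
  replace n_v1_u : v1 ≠ u := n_v1_u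
  have n_u_v1 : u ≠ v1 := n_v1_u.symm
  replace n_v1_w : v1 ≠ w := n_v1_w
  have n_w_v1 : w ≠ v1 := n_v1_w.symm
  replace n_v2_v3 : v2 ≠ v3 := n_v2_v3
  have n_v3_v2 : v3 ≠ v2 := n_v2_v3.symm
  replace n_v2_u : v2 ≠ u := n_v2_u
  have n_u_v2 : u ≠ v2 := n_v2_u.symm
  replace n_v2_w : v2 ≠ w := n_v2_w
  have n_w_v2 : w ≠ v2 := n_v2_w.symm
  replace n_v3_u : v3 ≠ u := n_v3_u
  have n_u_v3 : u ≠ v3 := n_v3_u.symm
  replace n_v3_w : v3 ≠ w := n_v3_w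
  have n_w_v3 : w ≠ v3 := n_v3_w.symm
  replace n_u_w : u ≠ w := n_u_w
  have n_w_u : w ≠ u := n_u_w.symm
  have w_v0 : v0 ∈ V := hV _ (by simp only [mem_insert, mem_singleton, true_or, or_true])
  have w_v1 : v1 ∈ V := hV _ (by simp only [mem_insert, mem_singleton, true_or, or_true])
  have w_v2 : v2 ∈ V := hV _ (by simp only [mem_insert, mem_singleton, true_or, or_true])
  have w_v3 : v3 ∈ V := hV _ (by simp only [mem_insert, mem_singleton, true_or, or_true])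
  have w_u : u ∈ V := hV _ (by simp only [mem_insert, mem_singleton, true_or, or_true])
  have w_w : w ∈ V := hV _ (by simp only [mem_insert, mem_singleton, true_or, or_true])
  exfalso
  exact deg3_fc hF bad (x := v1) t0 t1 tt (card_eq_three.2 ⟨v0, v1, v2, n_v0_v1, n_v0_v2, n_v1_v2, rfl⟩) (card_eq_three.2 ⟨v1, v2, v3, n_v1_v2, n_v1_v3, n_v2_v3, rfl⟩) (card_eq_three.2 ⟨v1, u, w, n_v1_u, n_v1_w, n_u_w, rfl⟩)
    (by simp only [insert_subset_iff, singleton_subset_iff]; exact ⟨w_v0, w_v1, w_v2⟩) (by simp only [insert_subset_iff, singleton_subset_iff]; exact ⟨w_v1, w_v2, w_v3⟩) (by simp only [insert_subset_iff, singleton_subset_iff]; exact ⟨w_v1, w_u, w_w⟩)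
    (by simp only [mem_insert, mem_singleton, true_or, or_true]) (by simp only [mem_insert, mem_singleton, true_or, or_true]) (by simp only [mem_insert, mem_singleton, true_or, or_true])
    (by
    intro he
    have h : v0 ∈ ({v1, v2, v3} : Finset α) := by
      rw [← he]; simp only [mem_insert, mem_singleton, true_or, or_true]
    simp only [mem_insert, mem_singleton] at h
    rcases h with h | h | h
    · exact n_v0_v1 h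
    · exact n_v0_v2 h
    · exact n_v0_v3 h)
    (by
    intro he
    have h : v0 ∈ ({v1, u, w} : Finset α) := by
      rw [← he]; simp only [mem_insert, mem_singleton, true_or, or_true]
    simp only [mem_insert, mem_singleton] at h
    rcases h with h | h | h
    · exact n_v0_v1 h
    · exact n_v0_u h
    · exact n_v0_w h)
    (by
    intro he
    have h : v2 ∈ ({v1, u, w} : Finset α) := by
      rw [← he]; simp only [mem_insert, mem_singleton, true_or, or_true]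
    simp only [mem_insert, mem_singleton] at h
    rcases h with h | h | h
    · exact n_v2_v1 h
    · exact n_v2_u h
    · exact n_v2_w h)

theorem ext_q2_2 {F : Finset (Finset α)} (hF : ∀ A ∈ F, ∀ B ∈ F, A ∪ B ∈ F) {V : Finset α}
    (bad : ∀ x ∈ V, ¬ F.card ≤ 2 * (F.filter (fun A => x ∈ A)).card)
    {v0 v1 v2 v3 u w : α} (nd : [v0, v1, v2, v3, u, w].Nodup)
    (t0 : ({v0, v1, v2} : Finset α) ∈ F)
    (t1 : ({v1, v2, v3} : Finset α) ∈ F)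
    (tt : ({v2, u, w} : Finset α) ∈ F)
    (hV : ∀ x ∈ ({v0, v1, v2, v3, u, w} : Finset α), x ∈ V)
    : Ty (insert {v2, u, w} ({{v0, v1, v2}, {v1, v2, v3}} : Finset (Finset α))) := by
  simp only [List.nodup_cons, List.mem_cons, List.not_mem_nil, not_or, not_false_eq_true,
    and_true, or_false, List.nodup_nil] at nd
  obtain ⟨⟨n_v0_v1, n_v0_v2, n_v0_v3, n_v0_u, n_v0_w⟩, ⟨n_v1_v2, n_v1_v3, n_v1_u, n_v1_w⟩, ⟨n_v2_v3, n_v2_u, n_v2_w⟩, ⟨n_v3_u, n_v3_w⟩, n_u_w⟩ := nd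
  replace n_v0_v1 : v0 ≠ v1 := n_v0_v1
  have n_v1_v0 : v1 ≠ v0 := n_v0_v1.symm
  replace n_v0_v2 : v0 ≠ v2 := n_v0_v2
  have n_v2_v0 : v2 ≠ v0 := n_v0_v2.symm
  replace n_v0_v3 : v0 ≠ v3 := n_v0_v3
  have n_v3_v0 : v3 ≠ v0 := n_v0_v3.symm
  replace n_v0_u : v0 ≠ u := n_v0_u
  have n_u_v0 : u ≠ v0 := n_v0_u.symm
  replace n_v0_w : v0 ≠ w := n_v0_w
  have n_w_v0 : w ≠ v0 := n_v0_w.symm
  replace n_v1_v2 : v1 ≠ v2 := n_v1_v2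
  have n_v2_v1 : v2 ≠ v1 := n_v1_v2.symm
  replace n_v1_v3 : v1 ≠ v3 := n_v1_v3
  have n_v3_v1 : v3 ≠ v1 := n_v1_v3.symm
  replace n_v1_u : v1 ≠ u := n_v1_u
  have n_u_v1 : u ≠ v1 := n_v1_u.symm
  replace n_v1_w : v1 ≠ w := n_v1_w
  have n_w_v1 : w ≠ v1 := n_v1_w.symm
  replace n_v2_v3 : v2 ≠ v3 := n_v2_v3
  have n_v3_v2 : v3 ≠ v2 := n_v2_v3.symm
  replace n_v2_u : v2 ≠ u := n_v2_u
  have n_u_v2 : u ≠ v2 := n_v2_u.symm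
  replace n_v2_w : v2 ≠ w := n_v2_w
  have n_w_v2 : w ≠ v2 := n_v2_w.symm
  replace n_v3_u : v3 ≠ u := n_v3_u
  have n_u_v3 : u ≠ v3 := n_v3_u.symm
  replace n_v3_w : v3 ≠ w := n_v3_w
  have n_w_v3 : w ≠ v3 := n_v3_w.symm
  replace n_u_w : u ≠ w := n_u_w
  have n_w_u : w ≠ u := n_u_w.symm
  have w_v0 : v0 ∈ V := hV _ (by simp only [mem_insert, mem_singleton, true_or, or_true])
  have w_v1 : v1 ∈ V := hV _ (by simp only [mem_insert, mem_singleton, true_or, or_true])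
  have w_v2 : v2 ∈ V := hV _ (by simp only [mem_insert, mem_singleton, true_or, or_true])
  have w_v3 : v3 ∈ V := hV _ (by simp only [mem_insert, mem_singleton, true_or, or_true])
  have w_u : u ∈ V := hV _ (by simp only [mem_insert, mem_singleton, true_or, or_true])
  have w_w : w ∈ V := hV _ (by simp only [mem_insert, mem_singleton, true_or, or_true])
  exfalso
  exact deg3_fc hF bad (x := v2) t0 t1 tt (card_eq_three.2 ⟨v0, v1, v2, n_v0_v1, n_v0_v2, n_v1_v2, rfl⟩) (card_eq_three.2 ⟨v1, v2, v3, n_v1_v2, n_v1_v3, n_v2_v3, rfl⟩) (card_eq_three.2 ⟨v2, u, w, n_v2_u, n_v2_w, n_u_w, rfl⟩)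
    (by simp only [insert_subset_iff, singleton_subset_iff]; exact ⟨w_v0, w_v1, w_v2⟩) (by simp only [insert_subset_iff, singleton_subset_iff]; exact ⟨w_v1, w_v2, w_v3⟩) (by simp only [insert_subset_iff, singleton_subset_iff]; exact ⟨w_v2, w_u, w_w⟩)
    (by simp only [mem_insert, mem_singleton, true_or, or_true]) (by simp only [mem_insert, mem_singleton, true_or, or_true]) (by simp only [mem_insert, mem_singleton, true_or, or_true])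
    (by
    intro he
    have h : v0 ∈ ({v1, v2, v3} : Finset α) := by
      rw [← he]; simp only [mem_insert, mem_singleton, true_or, or_true]
    simp only [mem_insert, mem_singleton] at h
    rcases h with h | h | h
    · exact n_v0_v1 h
    · exact n_v0_v2 h
    · exact n_v0_v3 h)
    (by
    intro he
    have h : v0 ∈ ({v2, u, w} : Finset α) := by
      rw [← he]; simp only [mem_insert, mem_singleton, true_or, or_true]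
    simp only [mem_insert, mem_singleton] at h
    rcases h with h | h | h
    · exact n_v0_v2 h
    · exact n_v0_u h
    · exact n_v0_w h)
    (by
    intro he
    have h : v1 ∈ ({v2, u, w} : Finset α) := by
      rw [← he]; simp only [mem_insert, mem_singleton, true_or, or_true]
    simp only [mem_insert, mem_singleton] at h
    rcases h with h | h | h
    · exact n_v1_v2 h
    · exact n_v1_u h
    · exact n_v1_w h)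

theorem ext_q2_3 {F : Finset (Finset α)} (hF : ∀ A ∈ F, ∀ B ∈ F, A ∪ B ∈ F) {V : Finset α}
    (bad : ∀ x ∈ V, ¬ F.card ≤ 2 * (F.filter (fun A => x ∈ A)).card)
    {v0 v1 v2 v3 u w : α} (nd : [v0, v1, v2, v3, u, w].Nodup)
    (t0 : ({v0, v1, v2} : Finset α) ∈ F)
    (t1 : ({v1, v2, v3} : Finset α) ∈ F)
    (tt : ({v3, u, w} : Finset α) ∈ F)
    (hV : ∀ x ∈ ({v0, v1, v2, v3, u, w} : Finset α), x ∈ V)
    : Ty (insert {v3, u, w} ({{v0, v1, v2}, {v1, v2, v3}} : Finset (Finset α))) := by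
  simp only [List.nodup_cons, List.mem_cons, List.not_mem_nil, not_or, not_false_eq_true,
    and_true, or_false, List.nodup_nil] at nd
  obtain ⟨⟨n_v0_v1, n_v0_v2, n_v0_v3, n_v0_u, n_v0_w⟩, ⟨n_v1_v2, n_v1_v3, n_v1_u, n_v1_w⟩, ⟨n_v2_v3, n_v2_u, n_v2_w⟩, ⟨n_v3_u, n_v3_w⟩, n_u_w⟩ := nd
  replace n_v0_v1 : v0 ≠ v1 := n_v0_v1
  have n_v1_v0 : v1 ≠ v0 := n_v0_v1.symm
  replace n_v0_v2 : v0 ≠ v2 := n_v0_v2
  have n_v2_v0 : v2 ≠ v0 := n_v0_v2.symm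
  replace n_v0_v3 : v0 ≠ v3 := n_v0_v3
  have n_v3_v0 : v3 ≠ v0 := n_v0_v3.symm
  replace n_v0_u : v0 ≠ u := n_v0_u
  have n_u_v0 : u ≠ v0 := n_v0_u.symm
  replace n_v0_w : v0 ≠ w := n_v0_w
  have n_w_v0 : w ≠ v0 := n_v0_w.symm
  replace n_v1_v2 : v1 ≠ v2 := n_v1_v2
  have n_v2_v1 : v2 ≠ v1 := n_v1_v2.symm
  replace n_v1_v3 : v1 ≠ v3 := n_v1_v3
  have n_v3_v1 : v3 ≠ v1 := n_v1_v3.symm
  replace n_v1_u : v1 ≠ u := n_v1_u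
  have n_u_v1 : u ≠ v1 := n_v1_u.symm
  replace n_v1_w : v1 ≠ w := n_v1_w
  have n_w_v1 : w ≠ v1 := n_v1_w.symm
  replace n_v2_v3 : v2 ≠ v3 := n_v2_v3
  have n_v3_v2 : v3 ≠ v2 := n_v2_v3.symm
  replace n_v2_u : v2 ≠ u := n_v2_u
  have n_u_v2 : u ≠ v2 := n_v2_u.symm
  replace n_v2_w : v2 ≠ w := n_v2_w
  have n_w_v2 : w ≠ v2 := n_v2_w.symm
  replace n_v3_u : v3 ≠ u := n_v3_u
  have n_u_v3 : u ≠ v3 := n_v3_u.symm
  replace n_v3_w : v3 ≠ w := n_v3_w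
  have n_w_v3 : w ≠ v3 := n_v3_w.symm
  replace n_u_w : u ≠ w := n_u_w
  have n_w_u : w ≠ u := n_u_w.symm
  have w_v0 : v0 ∈ V := hV _ (by simp only [mem_insert, mem_singleton, true_or, or_true])
  have w_v1 : v1 ∈ V := hV _ (by simp only [mem_insert, mem_singleton, true_or, or_true])
  have w_v2 : v2 ∈ V := hV _ (by simp only [mem_insert, mem_singleton, true_or, or_true])
  have w_v3 : v3 ∈ V := hV _ (by simp only [mem_insert, mem_singleton, true_or, or_true])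
  have w_u : u ∈ V := hV _ (by simp only [mem_insert, mem_singleton, true_or, or_true])
  have w_w : w ∈ V := hV _ (by simp only [mem_insert, mem_singleton, true_or, or_true])
  have h := Ty.q3 u w v3 v1 v2 v0 (by
    simp only [List.nodup_cons, List.mem_cons, List.not_mem_nil, not_or, not_false_eq_true,
    and_true, or_false, List.nodup_nil]
    exact ⟨⟨n_u_w, n_u_v3, n_u_v1, n_u_v2, n_u_v0⟩, ⟨n_w_v3, n_w_v1, n_w_v2, n_w_v0⟩, ⟨n_v3_v1, n_v3_v2, n_v3_v0⟩, ⟨n_v1_v2, n_v1_v0⟩, n_v2_v0⟩)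
  rw [perm_120 v3 u w] at h
  rw [perm_201 v1 v2 v3] at h
  rw [perm_120 v0 v1 v2] at h
  rw [fperm_021 (β := Finset α) {v3, u, w} {v0, v1, v2} {v1, v2, v3}] at h
  exact h

theorem ext_q3_0 {F : Finset (Finset α)} (hF : ∀ A ∈ F, ∀ B ∈ F, A ∪ B ∈ F) {V : Finset α}
    (bad : ∀ x ∈ V, ¬ F.card ≤ 2 * (F.filter (fun A => x ∈ A)).card)
    {v0 v1 v2 v3 v4 v5 u w : α} (nd : [v0, v1, v2, v3, v4, v5, u, w].Nodup)
    (t0 : ({v0, v1, v2} : Finset α) ∈ F)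
    (t1 : ({v2, v3, v4} : Finset α) ∈ F)
    (t2 : ({v3, v4, v5} : Finset α) ∈ F)
    (tt : ({v0, u, w} : Finset α) ∈ F)
    (hV : ∀ x ∈ ({v0, v1, v2, v3, v4, v5, u, w} : Finset α), x ∈ V)
    : Ty (insert {v0, u, w} ({{v0, v1, v2}, {v2, v3, v4}, {v3, v4, v5}} : Finset (Finset α))) := by
  simp only [List.nodup_cons, List.mem_cons, List.not_mem_nil, not_or, not_false_eq_true,
    and_true, or_false, List.nodup_nil] at nd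
  obtain ⟨⟨n_v0_v1, n_v0_v2, n_v0_v3, n_v0_v4, n_v0_v5, n_v0_u, n_v0_w⟩, ⟨n_v1_v2, n_v1_v3, n_v1_v4, n_v1_v5, n_v1_u, n_v1_w⟩, ⟨n_v2_v3, n_v2_v4, n_v2_v5, n_v2_u, n_v2_w⟩, ⟨n_v3_v4, n_v3_v5, n_v3_u, n_v3_w⟩, ⟨n_v4_v5, n_v4_u, n_v4_w⟩, ⟨n_v5_u, n_v5_w⟩, n_u_w⟩ := nd
  replace n_v0_v1 : v0 ≠ v1 := n_v0_v1
  have n_v1_v0 : v1 ≠ v0 := n_v0_v1.symm
  replace n_v0_v2 : v0 ≠ v2 := n_v0_v2
  have n_v2_v0 : v2 ≠ v0 := n_v0_v2.symm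
  replace n_v0_v3 : v0 ≠ v3 := n_v0_v3
  have n_v3_v0 : v3 ≠ v0 := n_v0_v3.symm
  replace n_v0_v4 : v0 ≠ v4 := n_v0_v4
  have n_v4_v0 : v4 ≠ v0 := n_v0_v4.symm
  replace n_v0_v5 : v0 ≠ v5 := n_v0_v5
  have n_v5_v0 : v5 ≠ v0 := n_v0_v5.symm
  replace n_v0_u : v0 ≠ u := n_v0_u
  have n_u_v0 : u ≠ v0 := n_v0_u.symm
  replace n_v0_w : v0 ≠ w := n_v0_w
  have n_w_v0 : w ≠ v0 := n_v0_w.symm
  replace n_v1_v2 : v1 ≠ v2 := n_v1_v2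
  have n_v2_v1 : v2 ≠ v1 := n_v1_v2.symm
  replace n_v1_v3 : v1 ≠ v3 := n_v1_v3
  have n_v3_v1 : v3 ≠ v1 := n_v1_v3.symm
  replace n_v1_v4 : v1 ≠ v4 := n_v1_v4
  have n_v4_v1 : v4 ≠ v1 := n_v1_v4.symm
  replace n_v1_v5 : v1 ≠ v5 := n_v1_v5
  have n_v5_v1 : v5 ≠ v1 := n_v1_v5.symm
  replace n_v1_u : v1 ≠ u := n_v1_u
  have n_u_v1 : u ≠ v1 := n_v1_u.symm
  replace n_v1_w : v1 ≠ w := n_v1_w
  have n_w_v1 : w ≠ v1 := n_v1_w.symm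
  replace n_v2_v3 : v2 ≠ v3 := n_v2_v3
  have n_v3_v2 : v3 ≠ v2 := n_v2_v3.symm
  replace n_v2_v4 : v2 ≠ v4 := n_v2_v4
  have n_v4_v2 : v4 ≠ v2 := n_v2_v4.symm
  replace n_v2_v5 : v2 ≠ v5 := n_v2_v5
  have n_v5_v2 : v5 ≠ v2 := n_v2_v5.symm
  replace n_v2_u : v2 ≠ u := n_v2_u
  have n_u_v2 : u ≠ v2 := n_v2_u.symm
  replace n_v2_w : v2 ≠ w := n_v2_w
  have n_w_v2 : w ≠ v2 := n_v2_w.symm
  replace n_v3_v4 : v3 ≠ v4 := n_v3_v4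
  have n_v4_v3 : v4 ≠ v3 := n_v3_v4.symm
  replace n_v3_v5 : v3 ≠ v5 := n_v3_v5
  have n_v5_v3 : v5 ≠ v3 := n_v3_v5.symm
  replace n_v3_u : v3 ≠ u := n_v3_u
  have n_u_v3 : u ≠ v3 := n_v3_u.symm
  replace n_v3_w : v3 ≠ w := n_v3_w
  have n_w_v3 : w ≠ v3 := n_v3_w.symm
  replace n_v4_v5 : v4 ≠ v5 := n_v4_v5
  have n_v5_v4 : v5 ≠ v4 := n_v4_v5.symm
  replace n_v4_u : v4 ≠ u := n_v4_u
  have n_u_v4 : u ≠ v4 := n_v4_u.symm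
  replace n_v4_w : v4 ≠ w := n_v4_w
  have n_w_v4 : w ≠ v4 := n_v4_w.symm
  replace n_v5_u : v5 ≠ u := n_v5_u
  have n_u_v5 : u ≠ v5 := n_v5_u.symm
  replace n_v5_w : v5 ≠ w := n_v5_w
  have n_w_v5 : w ≠ v5 := n_v5_w.symm
  replace n_u_w : u ≠ w := n_u_w
  have n_w_u : w ≠ u := n_u_w.symm
  have w_v0 : v0 ∈ V := hV _ (by simp only [mem_insert, mem_singleton, true_or, or_true])
  have w_v1 : v1 ∈ V := hV _ (by simp only [mem_insert, mem_singleton, true_or, or_true])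
  have w_v2 : v2 ∈ V := hV _ (by simp only [mem_insert, mem_singleton, true_or, or_true])
  have w_v3 : v3 ∈ V := hV _ (by simp only [mem_insert, mem_singleton, true_or, or_true])
  have w_v4 : v4 ∈ V := hV _ (by simp only [mem_insert, mem_singleton, true_or, or_true])
  have w_v5 : v5 ∈ V := hV _ (by simp only [mem_insert, mem_singleton, true_or, or_true])
  have w_u : u ∈ V := hV _ (by simp only [mem_insert, mem_singleton, true_or, or_true])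
  have w_w : w ∈ V := hV _ (by simp only [mem_insert, mem_singleton, true_or, or_true])
  have h := Ty.q4 u w v0 v1 v2 v3 v4 v5 (by
    simp only [List.nodup_cons, List.mem_cons, List.not_mem_nil, not_or, not_false_eq_true,
    and_true, or_false, List.nodup_nil]
    exact ⟨⟨n_u_w, n_u_v0, n_u_v1, n_u_v2, n_u_v3, n_u_v4, n_u_v5⟩, ⟨n_w_v0, n_w_v1, n_w_v2, n_w_v3, n_w_v4, n_w_v5⟩, ⟨n_v0_v1, n_v0_v2, n_v0_v3, n_v0_v4, n_v0_v5⟩, ⟨n_v1_v2, n_v1_v3, n_v1_v4, n_v1_v5⟩, ⟨n_v2_v3, n_v2_v4, n_v2_v5⟩, ⟨n_v3_v4, n_v3_v5⟩, n_v4_v5⟩)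
  rw [perm_120 v0 u w] at h
  exact h

theorem ext_q3_1 {F : Finset (Finset α)} (hF : ∀ A ∈ F, ∀ B ∈ F, A ∪ B ∈ F) {V : Finset α}
    (bad : ∀ x ∈ V, ¬ F.card ≤ 2 * (F.filter (fun A => x ∈ A)).card)
    {v0 v1 v2 v3 v4 v5 u w : α} (nd : [v0, v1, v2, v3, v4, v5, u, w].Nodup)
    (t0 : ({v0, v1, v2} : Finset α) ∈ F)
    (t1 : ({v2, v3, v4} : Finset α) ∈ F)
    (t2 : ({v3, v4, v5} : Finset α) ∈ F)
    (tt : ({v1, u, w} : Finset α) ∈ F)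
    (hV : ∀ x ∈ ({v0, v1, v2, v3, v4, v5, u, w} : Finset α), x ∈ V)
    : Ty (insert {v1, u, w} ({{v0, v1, v2}, {v2, v3, v4}, {v3, v4, v5}} : Finset (Finset α))) := by
  simp only [List.nodup_cons, List.mem_cons, List.not_mem_nil, not_or, not_false_eq_true,
    and_true, or_false, List.nodup_nil] at nd
  obtain ⟨⟨n_v0_v1, n_v0_v2, n_v0_v3, n_v0_v4, n_v0_v5, n_v0_u, n_v0_w⟩, ⟨n_v1_v2, n_v1_v3, n_v1_v4, n_v1_v5, n_v1_u, n_v1_w⟩, ⟨n_v2_v3, n_v2_v4, n_v2_v5, n_v2_u, n_v2_w⟩, ⟨n_v3_v4, n_v3_v5, n_v3_u, n_v3_w⟩, ⟨n_v4_v5, n_v4_u, n_v4_w⟩, ⟨n_v5_u, n_v5_w⟩, n_u_w⟩ := nd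
  replace n_v0_v1 : v0 ≠ v1 := n_v0_v1
  have n_v1_v0 : v1 ≠ v0 := n_v0_v1.symm
  replace n_v0_v2 : v0 ≠ v2 := n_v0_v2
  have n_v2_v0 : v2 ≠ v0 := n_v0_v2.symm
  replace n_v0_v3 : v0 ≠ v3 := n_v0_v3
  have n_v3_v0 : v3 ≠ v0 := n_v0_v3.symm
  replace n_v0_v4 : v0 ≠ v4 := n_v0_v4
  have n_v4_v0 : v4 ≠ v0 := n_v0_v4.symm
  replace n_v0_v5 : v0 ≠ v5 := n_v0_v5
  have n_v5_v0 : v5 ≠ v0 := n_v0_v5.symm
  replace n_v0_u : v0 ≠ u := n_v0_u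
  have n_u_v0 : u ≠ v0 := n_v0_u.symm
  replace n_v0_w : v0 ≠ w := n_v0_w
  have n_w_v0 : w ≠ v0 := n_v0_w.symm
  replace n_v1_v2 : v1 ≠ v2 := n_v1_v2
  have n_v2_v1 : v2 ≠ v1 := n_v1_v2.symm
  replace n_v1_v3 : v1 ≠ v3 := n_v1_v3
  have n_v3_v1 : v3 ≠ v1 := n_v1_v3.symm
  replace n_v1_v4 : v1 ≠ v4 := n_v1_v4
  have n_v4_v1 : v4 ≠ v1 := n_v1_v4.symm
  replace n_v1_v5 : v1 ≠ v5 := n_v1_v5
  have n_v5_v1 : v5 ≠ v1 := n_v1_v5.symm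
  replace n_v1_u : v1 ≠ u := n_v1_u
  have n_u_v1 : u ≠ v1 := n_v1_u.symm
  replace n_v1_w : v1 ≠ w := n_v1_w
  have n_w_v1 : w ≠ v1 := n_v1_w.symm
  replace n_v2_v3 : v2 ≠ v3 := n_v2_v3
  have n_v3_v2 : v3 ≠ v2 := n_v2_v3.symm
  replace n_v2_v4 : v2 ≠ v4 := n_v2_v4
  have n_v4_v2 : v4 ≠ v2 := n_v2_v4.symm
  replace n_v2_v5 : v2 ≠ v5 := n_v2_v5
  have n_v5_v2 : v5 ≠ v2 := n_v2_v5.symm
  replace n_v2_u : v2 ≠ u := n_v2_u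
  have n_u_v2 : u ≠ v2 := n_v2_u.symm
  replace n_v2_w : v2 ≠ w := n_v2_w
  have n_w_v2 : w ≠ v2 := n_v2_w.symm
  replace n_v3_v4 : v3 ≠ v4 := n_v3_v4
  have n_v4_v3 : v4 ≠ v3 := n_v3_v4.symm
  replace n_v3_v5 : v3 ≠ v5 := n_v3_v5
  have n_v5_v3 : v5 ≠ v3 := n_v3_v5.symm
  replace n_v3_u : v3 ≠ u := n_v3_u
  have n_u_v3 : u ≠ v3 := n_v3_u.symm
  replace n_v3_w : v3 ≠ w := n_v3_w
  have n_w_v3 : w ≠ v3 := n_v3_w.symm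
  replace n_v4_v5 : v4 ≠ v5 := n_v4_v5
  have n_v5_v4 : v5 ≠ v4 := n_v4_v5.symm
  replace n_v4_u : v4 ≠ u := n_v4_u
  have n_u_v4 : u ≠ v4 := n_v4_u.symm
  replace n_v4_w : v4 ≠ w := n_v4_w
  have n_w_v4 : w ≠ v4 := n_v4_w.symm
  replace n_v5_u : v5 ≠ u := n_v5_u
  have n_u_v5 : u ≠ v5 := n_v5_u.symm
  replace n_v5_w : v5 ≠ w := n_v5_w
  have n_w_v5 : w ≠ v5 := n_v5_w.symm
  replace n_u_w : u ≠ w := n_u_w
  have n_w_u : w ≠ u := n_u_w.symm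
  have w_v0 : v0 ∈ V := hV _ (by simp only [mem_insert, mem_singleton, true_or, or_true])
  have w_v1 : v1 ∈ V := hV _ (by simp only [mem_insert, mem_singleton, true_or, or_true])
  have w_v2 : v2 ∈ V := hV _ (by simp only [mem_insert, mem_singleton, true_or, or_true])
  have w_v3 : v3 ∈ V := hV _ (by simp only [mem_insert, mem_singleton, true_or, or_true])
  have w_v4 : v4 ∈ V := hV _ (by simp only [mem_insert, mem_singleton, true_or, or_true])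
  have w_v5 : v5 ∈ V := hV _ (by simp only [mem_insert, mem_singleton, true_or, or_true])
  have w_u : u ∈ V := hV _ (by simp only [mem_insert, mem_singleton, true_or, or_true])
  have w_w : w ∈ V := hV _ (by simp only [mem_insert, mem_singleton, true_or, or_true])
  have h := Ty.q4 u w v1 v0 v2 v3 v4 v5 (by
    simp only [List.nodup_cons, List.mem_cons, List.not_mem_nil, not_or, not_false_eq_true,
    and_true, or_false, List.nodup_nil]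
    exact ⟨⟨n_u_w, n_u_v1, n_u_v0, n_u_v2, n_u_v3, n_u_v4, n_u_v5⟩, ⟨n_w_v1, n_w_v0, n_w_v2, n_w_v3, n_w_v4, n_w_v5⟩, ⟨n_v1_v0, n_v1_v2, n_v1_v3, n_v1_v4, n_v1_v5⟩, ⟨n_v0_v2, n_v0_v3, n_v0_v4, n_v0_v5⟩, ⟨n_v2_v3, n_v2_v4, n_v2_v5⟩, ⟨n_v3_v4, n_v3_v5⟩, n_v4_v5⟩)
  rw [perm_120 v1 u w] at h
  rw [perm_102 v0 v1 v2] at h
  exact h

theorem ext_q3_2 {F : Finset (Finset α)} (hF : ∀ A ∈ F, ∀ B ∈ F, A ∪ B ∈ F) {V : Finset α}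
    (bad : ∀ x ∈ V, ¬ F.card ≤ 2 * (F.filter (fun A => x ∈ A)).card)
    {v0 v1 v2 v3 v4 v5 u w : α} (nd : [v0, v1, v2, v3, v4, v5, u, w].Nodup)
    (t0 : ({v0, v1, v2} : Finset α) ∈ F)
    (t1 : ({v2, v3, v4} : Finset α) ∈ F)
    (t2 : ({v3, v4, v5} : Finset α) ∈ F)
    (tt : ({v2, u, w} : Finset α) ∈ F)
    (hV : ∀ x ∈ ({v0, v1, v2, v3, v4, v5, u, w} : Finset α), x ∈ V)
    : Ty (insert {v2, u, w} ({{v0, v1, v2}, {v2, v3, v4}, {v3, v4, v5}} : Finset (Finset α))) := by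
  simp only [List.nodup_cons, List.mem_cons, List.not_mem_nil, not_or, not_false_eq_true,
    and_true, or_false, List.nodup_nil] at nd
  obtain ⟨⟨n_v0_v1, n_v0_v2, n_v0_v3, n_v0_v4, n_v0_v5, n_v0_u, n_v0_w⟩, ⟨n_v1_v2, n_v1_v3, n_v1_v4, n_v1_v5, n_v1_u, n_v1_w⟩, ⟨n_v2_v3, n_v2_v4, n_v2_v5, n_v2_u, n_v2_w⟩, ⟨n_v3_v4, n_v3_v5, n_v3_u, n_v3_w⟩, ⟨n_v4_v5, n_v4_u, n_v4_w⟩, ⟨n_v5_u, n_v5_w⟩, n_u_w⟩ := nd
  replace n_v0_v1 : v0 ≠ v1 := n_v0_v1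
  have n_v1_v0 : v1 ≠ v0 := n_v0_v1.symm
  replace n_v0_v2 : v0 ≠ v2 := n_v0_v2
  have n_v2_v0 : v2 ≠ v0 := n_v0_v2.symm
  replace n_v0_v3 : v0 ≠ v3 := n_v0_v3
  have n_v3_v0 : v3 ≠ v0 := n_v0_v3.symm
  replace n_v0_v4 : v0 ≠ v4 := n_v0_v4
  have n_v4_v0 : v4 ≠ v0 := n_v0_v4.symm
  replace n_v0_v5 : v0 ≠ v5 := n_v0_v5
  have n_v5_v0 : v5 ≠ v0 := n_v0_v5.symm
  replace n_v0_u : v0 ≠ u := n_v0_u
  have n_u_v0 : u ≠ v0 := n_v0_u.symm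
  replace n_v0_w : v0 ≠ w := n_v0_w
  have n_w_v0 : w ≠ v0 := n_v0_w.symm
  replace n_v1_v2 : v1 ≠ v2 := n_v1_v2
  have n_v2_v1 : v2 ≠ v1 := n_v1_v2.symm
  replace n_v1_v3 : v1 ≠ v3 := n_v1_v3
  have n_v3_v1 : v3 ≠ v1 := n_v1_v3.symm
  replace n_v1_v4 : v1 ≠ v4 := n_v1_v4
  have n_v4_v1 : v4 ≠ v1 := n_v1_v4.symm
  replace n_v1_v5 : v1 ≠ v5 := n_v1_v5
  have n_v5_v1 : v5 ≠ v1 := n_v1_v5.symm
  replace n_v1_u : v1 ≠ u := n_v1_u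
  have n_u_v1 : u ≠ v1 := n_v1_u.symm
  replace n_v1_w : v1 ≠ w := n_v1_w
  have n_w_v1 : w ≠ v1 := n_v1_w.symm
  replace n_v2_v3 : v2 ≠ v3 := n_v2_v3
  have n_v3_v2 : v3 ≠ v2 := n_v2_v3.symm
  replace n_v2_v4 : v2 ≠ v4 := n_v2_v4
  have n_v4_v2 : v4 ≠ v2 := n_v2_v4.symm
  replace n_v2_v5 : v2 ≠ v5 := n_v2_v5
  have n_v5_v2 : v5 ≠ v2 := n_v2_v5.symm
  replace n_v2_u : v2 ≠ u := n_v2_u
  have n_u_v2 : u ≠ v2 := n_v2_u.symm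
  replace n_v2_w : v2 ≠ w := n_v2_w
  have n_w_v2 : w ≠ v2 := n_v2_w.symm
  replace n_v3_v4 : v3 ≠ v4 := n_v3_v4
  have n_v4_v3 : v4 ≠ v3 := n_v3_v4.symm
  replace n_v3_v5 : v3 ≠ v5 := n_v3_v5
  have n_v5_v3 : v5 ≠ v3 := n_v3_v5.symm
  replace n_v3_u : v3 ≠ u := n_v3_u
  have n_u_v3 : u ≠ v3 := n_v3_u.symm
  replace n_v3_w : v3 ≠ w := n_v3_w
  have n_w_v3 : w ≠ v3 := n_v3_w.symm
  replace n_v4_v5 : v4 ≠ v5 := n_v4_v5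
  have n_v5_v4 : v5 ≠ v4 := n_v4_v5.symm
  replace n_v4_u : v4 ≠ u := n_v4_u
  have n_u_v4 : u ≠ v4 := n_v4_u.symm
  replace n_v4_w : v4 ≠ w := n_v4_w
  have n_w_v4 : w ≠ v4 := n_v4_w.symm
  replace n_v5_u : v5 ≠ u := n_v5_u
  have n_u_v5 : u ≠ v5 := n_v5_u.symm
  replace n_v5_w : v5 ≠ w := n_v5_w
  have n_w_v5 : w ≠ v5 := n_v5_w.symm
  replace n_u_w : u ≠ w := n_u_w
  have n_w_u : w ≠ u := n_u_w.symm
  have w_v0 : v0 ∈ V := hV _ (by simp only [mem_insert, mem_singleton, true_or, or_true])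
  have w_v1 : v1 ∈ V := hV _ (by simp only [mem_insert, mem_singleton, true_or, or_true])
  have w_v2 : v2 ∈ V := hV _ (by simp only [mem_insert, mem_singleton, true_or, or_true])
  have w_v3 : v3 ∈ V := hV _ (by simp only [mem_insert, mem_singleton, true_or, or_true])
  have w_v4 : v4 ∈ V := hV _ (by simp only [mem_insert, mem_singleton, true_or, or_true])
  have w_v5 : v5 ∈ V := hV _ (by simp only [mem_insert, mem_singleton, true_or, or_true])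
  have w_u : u ∈ V := hV _ (by simp only [mem_insert, mem_singleton, true_or, or_true])
  have w_w : w ∈ V := hV _ (by simp only [mem_insert, mem_singleton, true_or, or_true])
  exfalso
  exact deg3_fc hF bad (x := v2) t0 t1 tt (card_eq_three.2 ⟨v0, v1, v2, n_v0_v1, n_v0_v2, n_v1_v2, rfl⟩) (card_eq_three.2 ⟨v2, v3, v4, n_v2_v3, n_v2_v4, n_v3_v4, rfl⟩) (card_eq_three.2 ⟨v2, u, w, n_v2_u, n_v2_w, n_u_w, rfl⟩)
    (by simp only [insert_subset_iff, singleton_subset_iff]; exact ⟨w_v0, w_v1, w_v2⟩) (by simp only [insert_subset_iff, singleton_subset_iff]; exact ⟨w_v2, w_v3, w_v4⟩) (by simp only [insert_subset_iff, singleton_subset_iff]; exact ⟨w_v2, w_u, w_w⟩)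
    (by simp only [mem_insert, mem_singleton, true_or, or_true]) (by simp only [mem_insert, mem_singleton, true_or, or_true]) (by simp only [mem_insert, mem_singleton, true_or, or_true])
    (by
    intro he
    have h : v0 ∈ ({v2, v3, v4} : Finset α) := by
      rw [← he]; simp only [mem_insert, mem_singleton, true_or, or_true]
    simp only [mem_insert, mem_singleton] at h
    rcases h with h | h | h
    · exact n_v0_v2 h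
    · exact n_v0_v3 h
    · exact n_v0_v4 h)
    (by
    intro he
    have h : v0 ∈ ({v2, u, w} : Finset α) := by
      rw [← he]; simp only [mem_insert, mem_singleton, true_or, or_true]
    simp only [mem_insert, mem_singleton] at h
    rcases h with h | h | h
    · exact n_v0_v2 h
    · exact n_v0_u h
    · exact n_v0_w h)
    (by
    intro he
    have h : v3 ∈ ({v2, u, w} : Finset α) := by
      rw [← he]; simp only [mem_insert, mem_singleton, true_or, or_true]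
    simp only [mem_insert, mem_singleton] at h
    rcases h with h | h | h
    · exact n_v3_v2 h
    · exact n_v3_u h
    · exact n_v3_w h)

theorem ext_q3_3 {F : Finset (Finset α)} (hF : ∀ A ∈ F, ∀ B ∈ F, A ∪ B ∈ F) {V : Finset α}
    (bad : ∀ x ∈ V, ¬ F.card ≤ 2 * (F.filter (fun A => x ∈ A)).card)
    {v0 v1 v2 v3 v4 v5 u w : α} (nd : [v0, v1, v2, v3, v4, v5, u, w].Nodup)
    (t0 : ({v0, v1, v2} : Finset α) ∈ F)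
    (t1 : ({v2, v3, v4} : Finset α) ∈ F)
    (t2 : ({v3, v4, v5} : Finset α) ∈ F)
    (tt : ({v3, u, w} : Finset α) ∈ F)
    (hV : ∀ x ∈ ({v0, v1, v2, v3, v4, v5, u, w} : Finset α), x ∈ V)
    : Ty (insert {v3, u, w} ({{v0, v1, v2}, {v2, v3, v4}, {v3, v4, v5}} : Finset (Finset α))) := by
  simp only [List.nodup_cons, List.mem_cons, List.not_mem_nil, not_or, not_false_eq_true,
    and_true, or_false, List.nodup_nil] at nd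
  obtain ⟨⟨n_v0_v1, n_v0_v2, n_v0_v3, n_v0_v4, n_v0_v5, n_v0_u, n_v0_w⟩, ⟨n_v1_v2, n_v1_v3, n_v1_v4, n_v1_v5, n_v1_u, n_v1_w⟩, ⟨n_v2_v3, n_v2_v4, n_v2_v5, n_v2_u, n_v2_w⟩, ⟨n_v3_v4, n_v3_v5, n_v3_u, n_v3_w⟩, ⟨n_v4_v5, n_v4_u, n_v4_w⟩, ⟨n_v5_u, n_v5_w⟩, n_u_w⟩ := nd
  replace n_v0_v1 : v0 ≠ v1 := n_v0_v1
  have n_v1_v0 : v1 ≠ v0 := n_v0_v1.symm
  replace n_v0_v2 : v0 ≠ v2 := n_v0_v2
  have n_v2_v0 : v2 ≠ v0 := n_v0_v2.symm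
  replace n_v0_v3 : v0 ≠ v3 := n_v0_v3
  have n_v3_v0 : v3 ≠ v0 := n_v0_v3.symm
  replace n_v0_v4 : v0 ≠ v4 := n_v0_v4
  have n_v4_v0 : v4 ≠ v0 := n_v0_v4.symm
  replace n_v0_v5 : v0 ≠ v5 := n_v0_v5
  have n_v5_v0 : v5 ≠ v0 := n_v0_v5.symm
  replace n_v0_u : v0 ≠ u := n_v0_u
  have n_u_v0 : u ≠ v0 := n_v0_u.symm
  replace n_v0_w : v0 ≠ w := n_v0_w
  have n_w_v0 : w ≠ v0 := n_v0_w.symm
  replace n_v1_v2 : v1 ≠ v2 := n_v1_v2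
  have n_v2_v1 : v2 ≠ v1 := n_v1_v2.symm
  replace n_v1_v3 : v1 ≠ v3 := n_v1_v3
  have n_v3_v1 : v3 ≠ v1 := n_v1_v3.symm
  replace n_v1_v4 : v1 ≠ v4 := n_v1_v4
  have n_v4_v1 : v4 ≠ v1 := n_v1_v4.symm
  replace n_v1_v5 : v1 ≠ v5 := n_v1_v5
  have n_v5_v1 : v5 ≠ v1 := n_v1_v5.symm
  replace n_v1_u : v1 ≠ u := n_v1_u
  have n_u_v1 : u ≠ v1 := n_v1_u.symm
  replace n_v1_w : v1 ≠ w := n_v1_w
  have n_w_v1 : w ≠ v1 := n_v1_w.symm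
  replace n_v2_v3 : v2 ≠ v3 := n_v2_v3
  have n_v3_v2 : v3 ≠ v2 := n_v2_v3.symm
  replace n_v2_v4 : v2 ≠ v4 := n_v2_v4
  have n_v4_v2 : v4 ≠ v2 := n_v2_v4.symm
  replace n_v2_v5 : v2 ≠ v5 := n_v2_v5
  have n_v5_v2 : v5 ≠ v2 := n_v2_v5.symm
  replace n_v2_u : v2 ≠ u := n_v2_u
  have n_u_v2 : u ≠ v2 := n_v2_u.symm
  replace n_v2_w : v2 ≠ w := n_v2_w
  have n_w_v2 : w ≠ v2 := n_v2_w.symm
  replace n_v3_v4 : v3 ≠ v4 := n_v3_v4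
  have n_v4_v3 : v4 ≠ v3 := n_v3_v4.symm
  replace n_v3_v5 : v3 ≠ v5 := n_v3_v5
  have n_v5_v3 : v5 ≠ v3 := n_v3_v5.symm
  replace n_v3_u : v3 ≠ u := n_v3_u
  have n_u_v3 : u ≠ v3 := n_v3_u.symm
  replace n_v3_w : v3 ≠ w := n_v3_w
  have n_w_v3 : w ≠ v3 := n_v3_w.symm
  replace n_v4_v5 : v4 ≠ v5 := n_v4_v5
  have n_v5_v4 : v5 ≠ v4 := n_v4_v5.symm
  replace n_v4_u : v4 ≠ u := n_v4_u
  have n_u_v4 : u ≠ v4 := n_v4_u.symm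
  replace n_v4_w : v4 ≠ w := n_v4_w
  have n_w_v4 : w ≠ v4 := n_v4_w.symm
  replace n_v5_u : v5 ≠ u := n_v5_u
  have n_u_v5 : u ≠ v5 := n_v5_u.symm
  replace n_v5_w : v5 ≠ w := n_v5_w
  have n_w_v5 : w ≠ v5 := n_v5_w.symm
  replace n_u_w : u ≠ w := n_u_w
  have n_w_u : w ≠ u := n_u_w.symm
  have w_v0 : v0 ∈ V := hV _ (by simp only [mem_insert, mem_singleton, true_or, or_true])
  have w_v1 : v1 ∈ V := hV _ (by simp only [mem_insert, mem_singleton, true_or, or_true])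
  have w_v2 : v2 ∈ V := hV _ (by simp only [mem_insert, mem_singleton, true_or, or_true])
  have w_v3 : v3 ∈ V := hV _ (by simp only [mem_insert, mem_singleton, true_or, or_true])
  have w_v4 : v4 ∈ V := hV _ (by simp only [mem_insert, mem_singleton, true_or, or_true])
  have w_v5 : v5 ∈ V := hV _ (by simp only [mem_insert, mem_singleton, true_or, or_true])
  have w_u : u ∈ V := hV _ (by simp only [mem_insert, mem_singleton, true_or, or_true])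
  have w_w : w ∈ V := hV _ (by simp only [mem_insert, mem_singleton, true_or, or_true])
  exfalso
  exact deg3_fc hF bad (x := v3) t1 t2 tt (card_eq_three.2 ⟨v2, v3, v4, n_v2_v3, n_v2_v4, n_v3_v4, rfl⟩) (card_eq_three.2 ⟨v3, v4, v5, n_v3_v4, n_v3_v5, n_v4_v5, rfl⟩) (card_eq_three.2 ⟨v3, u, w, n_v3_u, n_v3_w, n_u_w, rfl⟩)
    (by simp only [insert_subset_iff, singleton_subset_iff]; exact ⟨w_v2, w_v3, w_v4⟩) (by simp only [insert_subset_iff, singleton_subset_iff]; exact ⟨w_v3, w_v4, w_v5⟩) (by simp only [insert_subset_iff, singleton_subset_iff]; exact ⟨w_v3, w_u, w_w⟩)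
    (by simp only [mem_insert, mem_singleton, true_or, or_true]) (by simp only [mem_insert, mem_singleton, true_or, or_true]) (by simp only [mem_insert, mem_singleton, true_or, or_true])
    (by
    intro he
    have h : v2 ∈ ({v3, v4, v5} : Finset α) := by
      rw [← he]; simp only [mem_insert, mem_singleton, true_or, or_true]
    simp only [mem_insert, mem_singleton] at h
    rcases h with h | h | h
    · exact n_v2_v3 h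
    · exact n_v2_v4 h
    · exact n_v2_v5 h)
    (by
    intro he
    have h : v2 ∈ ({v3, u, w} : Finset α) := by
      rw [← he]; simp only [mem_insert, mem_singleton, true_or, or_true]
    simp only [mem_insert, mem_singleton] at h
    rcases h with h | h | h
    · exact n_v2_v3 h
    · exact n_v2_u h
    · exact n_v2_w h)
    (by
    intro he
    have h : v4 ∈ ({v3, u, w} : Finset α) := by
      rw [← he]; simp only [mem_insert, mem_singleton, true_or, or_true]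
    simp only [mem_insert, mem_singleton] at h
    rcases h with h | h | h
    · exact n_v4_v3 h
    · exact n_v4_u h
    · exact n_v4_w h)

theorem ext_q3_4 {F : Finset (Finset α)} (hF : ∀ A ∈ F, ∀ B ∈ F, A ∪ B ∈ F) {V : Finset α}
    (bad : ∀ x ∈ V, ¬ F.card ≤ 2 * (F.filter (fun A => x ∈ A)).card)
    {v0 v1 v2 v3 v4 v5 u w : α} (nd : [v0, v1, v2, v3, v4, v5, u, w].Nodup)
    (t0 : ({v0, v1, v2} : Finset α) ∈ F)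
    (t1 : ({v2, v3, v4} : Finset α) ∈ F)
    (t2 : ({v3, v4, v5} : Finset α) ∈ F)
    (tt : ({v4, u, w} : Finset α) ∈ F)
    (hV : ∀ x ∈ ({v0, v1, v2, v3, v4, v5, u, w} : Finset α), x ∈ V)
    : Ty (insert {v4, u, w} ({{v0, v1, v2}, {v2, v3, v4}, {v3, v4, v5}} : Finset (Finset α))) := by
  simp only [List.nodup_cons, List.mem_cons, List.not_mem_nil, not_or, not_false_eq_true,
    and_true, or_false, List.nodup_nil] at nd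
  obtain ⟨⟨n_v0_v1, n_v0_v2, n_v0_v3, n_v0_v4, n_v0_v5, n_v0_u, n_v0_w⟩, ⟨n_v1_v2, n_v1_v3, n_v1_v4, n_v1_v5, n_v1_u, n_v1_w⟩, ⟨n_v2_v3, n_v2_v4, n_v2_v5, n_v2_u, n_v2_w⟩, ⟨n_v3_v4, n_v3_v5, n_v3_u, n_v3_w⟩, ⟨n_v4_v5, n_v4_u, n_v4_w⟩, ⟨n_v5_u, n_v5_w⟩, n_u_w⟩ := nd
  replace n_v0_v1 : v0 ≠ v1 := n_v0_v1
  have n_v1_v0 : v1 ≠ v0 := n_v0_v1.symm
  replace n_v0_v2 : v0 ≠ v2 := n_v0_v2
  have n_v2_v0 : v2 ≠ v0 := n_v0_v2.symm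
  replace n_v0_v3 : v0 ≠ v3 := n_v0_v3
  have n_v3_v0 : v3 ≠ v0 := n_v0_v3.symm
  replace n_v0_v4 : v0 ≠ v4 := n_v0_v4
  have n_v4_v0 : v4 ≠ v0 := n_v0_v4.symm
  replace n_v0_v5 : v0 ≠ v5 := n_v0_v5
  have n_v5_v0 : v5 ≠ v0 := n_v0_v5.symm
  replace n_v0_u : v0 ≠ u := n_v0_u
  have n_u_v0 : u ≠ v0 := n_v0_u.symm
  replace n_v0_w : v0 ≠ w := n_v0_w
  have n_w_v0 : w ≠ v0 := n_v0_w.symm
  replace n_v1_v2 : v1 ≠ v2 := n_v1_v2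
  have n_v2_v1 : v2 ≠ v1 := n_v1_v2.symm
  replace n_v1_v3 : v1 ≠ v3 := n_v1_v3
  have n_v3_v1 : v3 ≠ v1 := n_v1_v3.symm
  replace n_v1_v4 : v1 ≠ v4 := n_v1_v4
  have n_v4_v1 : v4 ≠ v1 := n_v1_v4.symm
  replace n_v1_v5 : v1 ≠ v5 := n_v1_v5
  have n_v5_v1 : v5 ≠ v1 := n_v1_v5.symm
  replace n_v1_u : v1 ≠ u := n_v1_u
  have n_u_v1 : u ≠ v1 := n_v1_u.symm
  replace n_v1_w : v1 ≠ w := n_v1_w
  have n_w_v1 : w ≠ v1 := n_v1_w.symm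
  replace n_v2_v3 : v2 ≠ v3 := n_v2_v3
  have n_v3_v2 : v3 ≠ v2 := n_v2_v3.symm
  replace n_v2_v4 : v2 ≠ v4 := n_v2_v4
  have n_v4_v2 : v4 ≠ v2 := n_v2_v4.symm
  replace n_v2_v5 : v2 ≠ v5 := n_v2_v5
  have n_v5_v2 : v5 ≠ v2 := n_v2_v5.symm
  replace n_v2_u : v2 ≠ u := n_v2_u
  have n_u_v2 : u ≠ v2 := n_v2_u.symm
  replace n_v2_w : v2 ≠ w := n_v2_w
  have n_w_v2 : w ≠ v2 := n_v2_w.symm
  replace n_v3_v4 : v3 ≠ v4 := n_v3_v4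
  have n_v4_v3 : v4 ≠ v3 := n_v3_v4.symm
  replace n_v3_v5 : v3 ≠ v5 := n_v3_v5
  have n_v5_v3 : v5 ≠ v3 := n_v3_v5.symm
  replace n_v3_u : v3 ≠ u := n_v3_u
  have n_u_v3 : u ≠ v3 := n_v3_u.symm
  replace n_v3_w : v3 ≠ w := n_v3_w
  have n_w_v3 : w ≠ v3 := n_v3_w.symm
  replace n_v4_v5 : v4 ≠ v5 := n_v4_v5
  have n_v5_v4 : v5 ≠ v4 := n_v4_v5.symm
  replace n_v4_u : v4 ≠ u := n_v4_u
  have n_u_v4 : u ≠ v4 := n_v4_u.symm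
  replace n_v4_w : v4 ≠ w := n_v4_w
  have n_w_v4 : w ≠ v4 := n_v4_w.symm
  replace n_v5_u : v5 ≠ u := n_v5_u
  have n_u_v5 : u ≠ v5 := n_v5_u.symm
  replace n_v5_w : v5 ≠ w := n_v5_w
  have n_w_v5 : w ≠ v5 := n_v5_w.symm
  replace n_u_w : u ≠ w := n_u_w
  have n_w_u : w ≠ u := n_u_w.symm
  have w_v0 : v0 ∈ V := hV _ (by simp only [mem_insert, mem_singleton, true_or, or_true])
  have w_v1 : v1 ∈ V := hV _ (by simp only [mem_insert, mem_singleton, true_or, or_true])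
  have w_v2 : v2 ∈ V := hV _ (by simp only [mem_insert, mem_singleton, true_or, or_true])
  have w_v3 : v3 ∈ V := hV _ (by simp only [mem_insert, mem_singleton, true_or, or_true])
  have w_v4 : v4 ∈ V := hV _ (by simp only [mem_insert, mem_singleton, true_or, or_true])
  have w_v5 : v5 ∈ V := hV _ (by simp only [mem_insert, mem_singleton, true_or, or_true])
  have w_u : u ∈ V := hV _ (by simp only [mem_insert, mem_singleton, true_or, or_true])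
  have w_w : w ∈ V := hV _ (by simp only [mem_insert, mem_singleton, true_or, or_true])
  exfalso
  exact deg3_fc hF bad (x := v4) t1 t2 tt (card_eq_three.2 ⟨v2, v3, v4, n_v2_v3, n_v2_v4, n_v3_v4, rfl⟩) (card_eq_three.2 ⟨v3, v4, v5, n_v3_v4, n_v3_v5, n_v4_v5, rfl⟩) (card_eq_three.2 ⟨v4, u, w, n_v4_u, n_v4_w, n_u_w, rfl⟩)
    (by simp only [insert_subset_iff, singleton_subset_iff]; exact ⟨w_v2, w_v3, w_v4⟩) (by simp only [insert_subset_iff, singleton_subset_iff]; exact ⟨w_v3, w_v4, w_v5⟩) (by simp only [insert_subset_iff, singleton_subset_iff]; exact ⟨w_v4, w_u, w_w⟩)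
    (by simp only [mem_insert, mem_singleton, true_or, or_true]) (by simp only [mem_insert, mem_singleton, true_or, or_true]) (by simp only [mem_insert, mem_singleton, true_or, or_true])
    (by
    intro he
    have h : v2 ∈ ({v3, v4, v5} : Finset α) := by
      rw [← he]; simp only [mem_insert, mem_singleton, true_or, or_true]
    simp only [mem_insert, mem_singleton] at h
    rcases h with h | h | h
    · exact n_v2_v3 h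
    · exact n_v2_v4 h
    · exact n_v2_v5 h)
    (by
    intro he
    have h : v2 ∈ ({v4, u, w} : Finset α) := by
      rw [← he]; simp only [mem_insert, mem_singleton, true_or, or_true]
    simp only [mem_insert, mem_singleton] at h
    rcases h with h | h | h
    · exact n_v2_v4 h
    · exact n_v2_u h
    · exact n_v2_w h)
    (by
    intro he
    have h : v3 ∈ ({v4, u, w} : Finset α) := by
      rw [← he]; simp only [mem_insert, mem_singleton, true_or, or_true]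
    simp only [mem_insert, mem_singleton] at h
    rcases h with h | h | h
    · exact n_v3_v4 h
    · exact n_v3_u h
    · exact n_v3_w h)

theorem ext_q3_5 {F : Finset (Finset α)} (hF : ∀ A ∈ F, ∀ B ∈ F, A ∪ B ∈ F) {V : Finset α}
    (bad : ∀ x ∈ V, ¬ F.card ≤ 2 * (F.filter (fun A => x ∈ A)).card)
    {v0 v1 v2 v3 v4 v5 u w : α} (nd : [v0, v1, v2, v3, v4, v5, u, w].Nodup)
    (t0 : ({v0, v1, v2} : Finset α) ∈ F)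
    (t1 : ({v2, v3, v4} : Finset α) ∈ F)
    (t2 : ({v3, v4, v5} : Finset α) ∈ F)
    (tt : ({v5, u, w} : Finset α) ∈ F)
    (hV : ∀ x ∈ ({v0, v1, v2, v3, v4, v5, u, w} : Finset α), x ∈ V)
    : Ty (insert {v5, u, w} ({{v0, v1, v2}, {v2, v3, v4}, {v3, v4, v5}} : Finset (Finset α))) := by
  simp only [List.nodup_cons, List.mem_cons, List.not_mem_nil, not_or, not_false_eq_true,
    and_true, or_false, List.nodup_nil] at nd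
  obtain ⟨⟨n_v0_v1, n_v0_v2, n_v0_v3, n_v0_v4, n_v0_v5, n_v0_u, n_v0_w⟩, ⟨n_v1_v2, n_v1_v3, n_v1_v4, n_v1_v5, n_v1_u, n_v1_w⟩, ⟨n_v2_v3, n_v2_v4, n_v2_v5, n_v2_u, n_v2_w⟩, ⟨n_v3_v4, n_v3_v5, n_v3_u, n_v3_w⟩, ⟨n_v4_v5, n_v4_u, n_v4_w⟩, ⟨n_v5_u, n_v5_w⟩, n_u_w⟩ := nd
  replace n_v0_v1 : v0 ≠ v1 := n_v0_v1
  have n_v1_v0 : v1 ≠ v0 := n_v0_v1.symm
  replace n_v0_v2 : v0 ≠ v2 := n_v0_v2
  have n_v2_v0 : v2 ≠ v0 := n_v0_v2.symm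
  replace n_v0_v3 : v0 ≠ v3 := n_v0_v3
  have n_v3_v0 : v3 ≠ v0 := n_v0_v3.symm
  replace n_v0_v4 : v0 ≠ v4 := n_v0_v4
  have n_v4_v0 : v4 ≠ v0 := n_v0_v4.symm
  replace n_v0_v5 : v0 ≠ v5 := n_v0_v5
  have n_v5_v0 : v5 ≠ v0 := n_v0_v5.symm
  replace n_v0_u : v0 ≠ u := n_v0_u
  have n_u_v0 : u ≠ v0 := n_v0_u.symm
  replace n_v0_w : v0 ≠ w := n_v0_w
  have n_w_v0 : w ≠ v0 := n_v0_w.symm
  replace n_v1_v2 : v1 ≠ v2 := n_v1_v2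
  have n_v2_v1 : v2 ≠ v1 := n_v1_v2.symm
  replace n_v1_v3 : v1 ≠ v3 := n_v1_v3
  have n_v3_v1 : v3 ≠ v1 := n_v1_v3.symm
  replace n_v1_v4 : v1 ≠ v4 := n_v1_v4
  have n_v4_v1 : v4 ≠ v1 := n_v1_v4.symm
  replace n_v1_v5 : v1 ≠ v5 := n_v1_v5
  have n_v5_v1 : v5 ≠ v1 := n_v1_v5.symm
  replace n_v1_u : v1 ≠ u := n_v1_u
  have n_u_v1 : u ≠ v1 := n_v1_u.symm
  replace n_v1_w : v1 ≠ w := n_v1_w
  have n_w_v1 : w ≠ v1 := n_v1_w.symm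
  replace n_v2_v3 : v2 ≠ v3 := n_v2_v3
  have n_v3_v2 : v3 ≠ v2 := n_v2_v3.symm
  replace n_v2_v4 : v2 ≠ v4 := n_v2_v4
  have n_v4_v2 : v4 ≠ v2 := n_v2_v4.symm
  replace n_v2_v5 : v2 ≠ v5 := n_v2_v5
  have n_v5_v2 : v5 ≠ v2 := n_v2_v5.symm
  replace n_v2_u : v2 ≠ u := n_v2_u
  have n_u_v2 : u ≠ v2 := n_v2_u.symm
  replace n_v2_w : v2 ≠ w := n_v2_w
  have n_w_v2 : w ≠ v2 := n_v2_w.symm
  replace n_v3_v4 : v3 ≠ v4 := n_v3_v4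
  have n_v4_v3 : v4 ≠ v3 := n_v3_v4.symm
  replace n_v3_v5 : v3 ≠ v5 := n_v3_v5
  have n_v5_v3 : v5 ≠ v3 := n_v3_v5.symm
  replace n_v3_u : v3 ≠ u := n_v3_u
  have n_u_v3 : u ≠ v3 := n_v3_u.symm
  replace n_v3_w : v3 ≠ w := n_v3_w
  have n_w_v3 : w ≠ v3 := n_v3_w.symm
  replace n_v4_v5 : v4 ≠ v5 := n_v4_v5
  have n_v5_v4 : v5 ≠ v4 := n_v4_v5.symm
  replace n_v4_u : v4 ≠ u := n_v4_u
  have n_u_v4 : u ≠ v4 := n_v4_u.symm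
  replace n_v4_w : v4 ≠ w := n_v4_w
  have n_w_v4 : w ≠ v4 := n_v4_w.symm
  replace n_v5_u : v5 ≠ u := n_v5_u
  have n_u_v5 : u ≠ v5 := n_v5_u.symm
  replace n_v5_w : v5 ≠ w := n_v5_w
  have n_w_v5 : w ≠ v5 := n_v5_w.symm
  replace n_u_w : u ≠ w := n_u_w
  have n_w_u : w ≠ u := n_u_w.symm
  have w_v0 : v0 ∈ V := hV _ (by simp only [mem_insert, mem_singleton, true_or, or_true])
  have w_v1 : v1 ∈ V := hV _ (by simp only [mem_insert, mem_singleton, true_or, or_true])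
  have w_v2 : v2 ∈ V := hV _ (by simp only [mem_insert, mem_singleton, true_or, or_true])
  have w_v3 : v3 ∈ V := hV _ (by simp only [mem_insert, mem_singleton, true_or, or_true])
  have w_v4 : v4 ∈ V := hV _ (by simp only [mem_insert, mem_singleton, true_or, or_true])
  have w_v5 : v5 ∈ V := hV _ (by simp only [mem_insert, mem_singleton, true_or, or_true])
  have w_u : u ∈ V := hV _ (by simp only [mem_insert, mem_singleton, true_or, or_true])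
  have w_w : w ∈ V := hV _ (by simp only [mem_insert, mem_singleton, true_or, or_true])
  exfalso
  obtain ⟨x, hx, h⟩ := cfg_mid hF (by
    simp only [List.nodup_cons, List.mem_cons, List.not_mem_nil, not_or, not_false_eq_true,
    and_true, or_false, List.nodup_nil]
    exact ⟨⟨n_v0_v1, n_v0_v2, n_v0_v3, n_v0_v4, n_v0_v5, n_v0_u, n_v0_w⟩, ⟨n_v1_v2, n_v1_v3, n_v1_v4, n_v1_v5, n_v1_u, n_v1_w⟩, ⟨n_v2_v3, n_v2_v4, n_v2_v5, n_v2_u, n_v2_w⟩, ⟨n_v3_v4, n_v3_v5, n_v3_u, n_v3_w⟩, ⟨n_v4_v5, n_v4_u, n_v4_w⟩, ⟨n_v5_u, n_v5_w⟩, n_u_w⟩)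
    (by rw [perm_012 v0 v1 v2]; exact t0) (by rw [perm_012 v2 v3 v4]; exact t1) (by rw [perm_012 v3 v4 v5]; exact t2) (by rw [perm_012 v5 u w]; exact tt)
  refine bad x ?_ h
  simp only [mem_insert, mem_singleton] at hx
  rcases hx with hx | hx | hx | hx | hx | hx | hx | hx <;>
  · rw [hx]; assumption

theorem ext_q4_0 {F : Finset (Finset α)} (hF : ∀ A ∈ F, ∀ B ∈ F, A ∪ B ∈ F) {V : Finset α}
    (bad : ∀ x ∈ V, ¬ F.card ≤ 2 * (F.filter (fun A => x ∈ A)).card)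
    {v0 v1 v2 v3 v4 v5 v6 v7 u w : α} (nd : [v0, v1, v2, v3, v4, v5, v6, v7, u, w].Nodup)
    (t0 : ({v0, v1, v2} : Finset α) ∈ F)
    (t1 : ({v2, v3, v4} : Finset α) ∈ F)
    (t2 : ({v4, v5, v6} : Finset α) ∈ F)
    (t3 : ({v5, v6, v7} : Finset α) ∈ F)
    (tt : ({v0, u, w} : Finset α) ∈ F)
    (hV : ∀ x ∈ ({v0, v1, v2, v3, v4, v5, v6, v7, u, w} : Finset α), x ∈ V)
    : Ty (insert {v0, u, w} ({{v0, v1, v2}, {v2, v3, v4}, {v4, v5, v6}, {v5, v6, v7}} : Finset (Finset α))) := by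
  simp only [List.nodup_cons, List.mem_cons, List.not_mem_nil, not_or, not_false_eq_true,
    and_true, or_false, List.nodup_nil] at nd
  obtain ⟨⟨n_v0_v1, n_v0_v2, n_v0_v3, n_v0_v4, n_v0_v5, n_v0_v6, n_v0_v7, n_v0_u, n_v0_w⟩, ⟨n_v1_v2, n_v1_v3, n_v1_v4, n_v1_v5, n_v1_v6, n_v1_v7, n_v1_u, n_v1_w⟩, ⟨n_v2_v3, n_v2_v4, n_v2_v5, n_v2_v6, n_v2_v7, n_v2_u, n_v2_w⟩, ⟨n_v3_v4, n_v3_v5, n_v3_v6, n_v3_v7, n_v3_u, n_v3_w⟩, ⟨n_v4_v5, n_v4_v6, n_v4_v7, n_v4_u, n_v4_w⟩, ⟨n_v5_v6, n_v5_v7, n_v5_u, n_v5_w⟩, ⟨n_v6_v7, n_v6_u, n_v6_w⟩, ⟨n_v7_u, n_v7_w⟩, n_u_w⟩ := nd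
  replace n_v0_v1 : v0 ≠ v1 := n_v0_v1
  have n_v1_v0 : v1 ≠ v0 := n_v0_v1.symm
  replace n_v0_v2 : v0 ≠ v2 := n_v0_v2
  have n_v2_v0 : v2 ≠ v0 := n_v0_v2.symm
  replace n_v0_v3 : v0 ≠ v3 := n_v0_v3
  have n_v3_v0 : v3 ≠ v0 := n_v0_v3.symm
  replace n_v0_v4 : v0 ≠ v4 := n_v0_v4
  have n_v4_v0 : v4 ≠ v0 := n_v0_v4.symm
  replace n_v0_v5 : v0 ≠ v5 := n_v0_v5
  have n_v5_v0 : v5 ≠ v0 := n_v0_v5.symm
  replace n_v0_v6 : v0 ≠ v6 := n_v0_v6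
  have n_v6_v0 : v6 ≠ v0 := n_v0_v6.symm
  replace n_v0_v7 : v0 ≠ v7 := n_v0_v7
  have n_v7_v0 : v7 ≠ v0 := n_v0_v7.symm
  replace n_v0_u : v0 ≠ u := n_v0_u
  have n_u_v0 : u ≠ v0 := n_v0_u.symm
  replace n_v0_w : v0 ≠ w := n_v0_w
  have n_w_v0 : w ≠ v0 := n_v0_w.symm
  replace n_v1_v2 : v1 ≠ v2 := n_v1_v2
  have n_v2_v1 : v2 ≠ v1 := n_v1_v2.symm
  replace n_v1_v3 : v1 ≠ v3 := n_v1_v3
  have n_v3_v1 : v3 ≠ v1 := n_v1_v3.symm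
  replace n_v1_v4 : v1 ≠ v4 := n_v1_v4
  have n_v4_v1 : v4 ≠ v1 := n_v1_v4.symm
  replace n_v1_v5 : v1 ≠ v5 := n_v1_v5
  have n_v5_v1 : v5 ≠ v1 := n_v1_v5.symm
  replace n_v1_v6 : v1 ≠ v6 := n_v1_v6
  have n_v6_v1 : v6 ≠ v1 := n_v1_v6.symm
  replace n_v1_v7 : v1 ≠ v7 := n_v1_v7
  have n_v7_v1 : v7 ≠ v1 := n_v1_v7.symm
  replace n_v1_u : v1 ≠ u := n_v1_u
  have n_u_v1 : u ≠ v1 := n_v1_u.symm
  replace n_v1_w : v1 ≠ w := n_v1_w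
  have n_w_v1 : w ≠ v1 := n_v1_w.symm
  replace n_v2_v3 : v2 ≠ v3 := n_v2_v3
  have n_v3_v2 : v3 ≠ v2 := n_v2_v3.symm
  replace n_v2_v4 : v2 ≠ v4 := n_v2_v4
  have n_v4_v2 : v4 ≠ v2 := n_v2_v4.symm
  replace n_v2_v5 : v2 ≠ v5 := n_v2_v5
  have n_v5_v2 : v5 ≠ v2 := n_v2_v5.symm
  replace n_v2_v6 : v2 ≠ v6 := n_v2_v6
  have n_v6_v2 : v6 ≠ v2 := n_v2_v6.symm
  replace n_v2_v7 : v2 ≠ v7 := n_v2_v7
  have n_v7_v2 : v7 ≠ v2 := n_v2_v7.symm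
  replace n_v2_u : v2 ≠ u := n_v2_u
  have n_u_v2 : u ≠ v2 := n_v2_u.symm
  replace n_v2_w : v2 ≠ w := n_v2_w
  have n_w_v2 : w ≠ v2 := n_v2_w.symm
  replace n_v3_v4 : v3 ≠ v4 := n_v3_v4
  have n_v4_v3 : v4 ≠ v3 := n_v3_v4.symm
  replace n_v3_v5 : v3 ≠ v5 := n_v3_v5
  have n_v5_v3 : v5 ≠ v3 := n_v3_v5.symm
  replace n_v3_v6 : v3 ≠ v6 := n_v3_v6
  have n_v6_v3 : v6 ≠ v3 := n_v3_v6.symm
  replace n_v3_v7 : v3 ≠ v7 := n_v3_v7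
  have n_v7_v3 : v7 ≠ v3 := n_v3_v7.symm
  replace n_v3_u : v3 ≠ u := n_v3_u
  have n_u_v3 : u ≠ v3 := n_v3_u.symm
  replace n_v3_w : v3 ≠ w := n_v3_w
  have n_w_v3 : w ≠ v3 := n_v3_w.symm
  replace n_v4_v5 : v4 ≠ v5 := n_v4_v5
  have n_v5_v4 : v5 ≠ v4 := n_v4_v5.symm
  replace n_v4_v6 : v4 ≠ v6 := n_v4_v6
  have n_v6_v4 : v6 ≠ v4 := n_v4_v6.symm
  replace n_v4_v7 : v4 ≠ v7 := n_v4_v7
  have n_v7_v4 : v7 ≠ v4 := n_v4_v7.symm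
  replace n_v4_u : v4 ≠ u := n_v4_u
  have n_u_v4 : u ≠ v4 := n_v4_u.symm
  replace n_v4_w : v4 ≠ w := n_v4_w
  have n_w_v4 : w ≠ v4 := n_v4_w.symm
  replace n_v5_v6 : v5 ≠ v6 := n_v5_v6
  have n_v6_v5 : v6 ≠ v5 := n_v5_v6.symm
  replace n_v5_v7 : v5 ≠ v7 := n_v5_v7
  have n_v7_v5 : v7 ≠ v5 := n_v5_v7.symm
  replace n_v5_u : v5 ≠ u := n_v5_u
  have n_u_v5 : u ≠ v5 := n_v5_u.symm
  replace n_v5_w : v5 ≠ w := n_v5_w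
  have n_w_v5 : w ≠ v5 := n_v5_w.symm
  replace n_v6_v7 : v6 ≠ v7 := n_v6_v7
  have n_v7_v6 : v7 ≠ v6 := n_v6_v7.symm
  replace n_v6_u : v6 ≠ u := n_v6_u
  have n_u_v6 : u ≠ v6 := n_v6_u.symm
  replace n_v6_w : v6 ≠ w := n_v6_w
  have n_w_v6 : w ≠ v6 := n_v6_w.symm
  replace n_v7_u : v7 ≠ u := n_v7_u
  have n_u_v7 : u ≠ v7 := n_v7_u.symm
  replace n_v7_w : v7 ≠ w := n_v7_w
  have n_w_v7 : w ≠ v7 := n_v7_w.symm
  replace n_u_w : u ≠ w := n_u_w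
  have n_w_u : w ≠ u := n_u_w.symm
  have w_v0 : v0 ∈ V := hV _ (by simp only [mem_insert, mem_singleton, true_or, or_true])
  have w_v1 : v1 ∈ V := hV _ (by simp only [mem_insert, mem_singleton, true_or, or_true])
  have w_v2 : v2 ∈ V := hV _ (by simp only [mem_insert, mem_singleton, true_or, or_true])
  have w_v3 : v3 ∈ V := hV _ (by simp only [mem_insert, mem_singleton, true_or, or_true])
  have w_v4 : v4 ∈ V := hV _ (by simp only [mem_insert, mem_singleton, true_or, or_true])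
  have w_v5 : v5 ∈ V := hV _ (by simp only [mem_insert, mem_singleton, true_or, or_true])
  have w_v6 : v6 ∈ V := hV _ (by simp only [mem_insert, mem_singleton, true_or, or_true])
  have w_v7 : v7 ∈ V := hV _ (by simp only [mem_insert, mem_singleton, true_or, or_true])
  have w_u : u ∈ V := hV _ (by simp only [mem_insert, mem_singleton, true_or, or_true])
  have w_w : w ∈ V := hV _ (by simp only [mem_insert, mem_singleton, true_or, or_true])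
  exfalso
  obtain ⟨x, hx, h⟩ := cfg_P5d hF (by
    simp only [List.nodup_cons, List.mem_cons, List.not_mem_nil, not_or, not_false_eq_true,
    and_true, or_false, List.nodup_nil]
    exact ⟨⟨n_u_w, n_u_v0, n_u_v1, n_u_v2, n_u_v3, n_u_v4, n_u_v5, n_u_v6, n_u_v7⟩, ⟨n_w_v0, n_w_v1, n_w_v2, n_w_v3, n_w_v4, n_w_v5, n_w_v6, n_w_v7⟩, ⟨n_v0_v1, n_v0_v2, n_v0_v3, n_v0_v4, n_v0_v5, n_v0_v6, n_v0_v7⟩, ⟨n_v1_v2, n_v1_v3, n_v1_v4, n_v1_v5, n_v1_v6, n_v1_v7⟩, ⟨n_v2_v3, n_v2_v4, n_v2_v5, n_v2_v6, n_v2_v7⟩, ⟨n_v3_v4, n_v3_v5, n_v3_v6, n_v3_v7⟩, ⟨n_v4_v5, n_v4_v6, n_v4_v7⟩, ⟨n_v5_v6, n_v5_v7⟩, n_v6_v7⟩)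
    (by rw [perm_120 v0 u w]; exact tt) (by rw [perm_012 v0 v1 v2]; exact t0) (by rw [perm_012 v2 v3 v4]; exact t1) (by rw [perm_012 v4 v5 v6]; exact t2) (by rw [perm_012 v5 v6 v7]; exact t3)
  refine bad x ?_ h
  simp only [mem_insert, mem_singleton] at hx
  rcases hx with hx | hx | hx | hx | hx | hx | hx | hx | hx | hx <;>
  · rw [hx]; assumption

theorem ext_q4_1 {F : Finset (Finset α)} (hF : ∀ A ∈ F, ∀ B ∈ F, A ∪ B ∈ F) {V : Finset α}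
    (bad : ∀ x ∈ V, ¬ F.card ≤ 2 * (F.filter (fun A => x ∈ A)).card)
    {v0 v1 v2 v3 v4 v5 v6 v7 u w : α} (nd : [v0, v1, v2, v3, v4, v5, v6, v7, u, w].Nodup)
    (t0 : ({v0, v1, v2} : Finset α) ∈ F)
    (t1 : ({v2, v3, v4} : Finset α) ∈ F)
    (t2 : ({v4, v5, v6} : Finset α) ∈ F)
    (t3 : ({v5, v6, v7} : Finset α) ∈ F)
    (tt : ({v1, u, w} : Finset α) ∈ F)
    (hV : ∀ x ∈ ({v0, v1, v2, v3, v4, v5, v6, v7, u, w} : Finset α), x ∈ V)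
    : Ty (insert {v1, u, w} ({{v0, v1, v2}, {v2, v3, v4}, {v4, v5, v6}, {v5, v6, v7}} : Finset (Finset α))) := by
  simp only [List.nodup_cons, List.mem_cons, List.not_mem_nil, not_or, not_false_eq_true,
    and_true, or_false, List.nodup_nil] at nd
  obtain ⟨⟨n_v0_v1, n_v0_v2, n_v0_v3, n_v0_v4, n_v0_v5, n_v0_v6, n_v0_v7, n_v0_u, n_v0_w⟩, ⟨n_v1_v2, n_v1_v3, n_v1_v4, n_v1_v5, n_v1_v6, n_v1_v7, n_v1_u, n_v1_w⟩, ⟨n_v2_v3, n_v2_v4, n_v2_v5, n_v2_v6, n_v2_v7, n_v2_u, n_v2_w⟩, ⟨n_v3_v4, n_v3_v5, n_v3_v6, n_v3_v7, n_v3_u, n_v3_w⟩, ⟨n_v4_v5, n_v4_v6, n_v4_v7, n_v4_u, n_v4_w⟩, ⟨n_v5_v6, n_v5_v7, n_v5_u, n_v5_w⟩, ⟨n_v6_v7, n_v6_u, n_v6_w⟩, ⟨n_v7_u, n_v7_w⟩, n_u_w⟩ := nd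
  replace n_v0_v1 : v0 ≠ v1 := n_v0_v1
  have n_v1_v0 : v1 ≠ v0 := n_v0_v1.symm
  replace n_v0_v2 : v0 ≠ v2 := n_v0_v2
  have n_v2_v0 : v2 ≠ v0 := n_v0_v2.symm
  replace n_v0_v3 : v0 ≠ v3 := n_v0_v3
  have n_v3_v0 : v3 ≠ v0 := n_v0_v3.symm
  replace n_v0_v4 : v0 ≠ v4 := n_v0_v4
  have n_v4_v0 : v4 ≠ v0 := n_v0_v4.symm
  replace n_v0_v5 : v0 ≠ v5 := n_v0_v5
  have n_v5_v0 : v5 ≠ v0 := n_v0_v5.symm
  replace n_v0_v6 : v0 ≠ v6 := n_v0_v6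
  have n_v6_v0 : v6 ≠ v0 := n_v0_v6.symm
  replace n_v0_v7 : v0 ≠ v7 := n_v0_v7
  have n_v7_v0 : v7 ≠ v0 := n_v0_v7.symm
  replace n_v0_u : v0 ≠ u := n_v0_u
  have n_u_v0 : u ≠ v0 := n_v0_u.symm
  replace n_v0_w : v0 ≠ w := n_v0_w
  have n_w_v0 : w ≠ v0 := n_v0_w.symm
  replace n_v1_v2 : v1 ≠ v2 := n_v1_v2
  have n_v2_v1 : v2 ≠ v1 := n_v1_v2.symm
  replace n_v1_v3 : v1 ≠ v3 := n_v1_v3
  have n_v3_v1 : v3 ≠ v1 := n_v1_v3.symm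
  replace n_v1_v4 : v1 ≠ v4 := n_v1_v4
  have n_v4_v1 : v4 ≠ v1 := n_v1_v4.symm
  replace n_v1_v5 : v1 ≠ v5 := n_v1_v5
  have n_v5_v1 : v5 ≠ v1 := n_v1_v5.symm
  replace n_v1_v6 : v1 ≠ v6 := n_v1_v6
  have n_v6_v1 : v6 ≠ v1 := n_v1_v6.symm
  replace n_v1_v7 : v1 ≠ v7 := n_v1_v7
  have n_v7_v1 : v7 ≠ v1 := n_v1_v7.symm
  replace n_v1_u : v1 ≠ u := n_v1_u
  have n_u_v1 : u ≠ v1 := n_v1_u.symm
  replace n_v1_w : v1 ≠ w := n_v1_w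
  have n_w_v1 : w ≠ v1 := n_v1_w.symm
  replace n_v2_v3 : v2 ≠ v3 := n_v2_v3
  have n_v3_v2 : v3 ≠ v2 := n_v2_v3.symm
  replace n_v2_v4 : v2 ≠ v4 := n_v2_v4
  have n_v4_v2 : v4 ≠ v2 := n_v2_v4.symm
  replace n_v2_v5 : v2 ≠ v5 := n_v2_v5
  have n_v5_v2 : v5 ≠ v2 := n_v2_v5.symm
  replace n_v2_v6 : v2 ≠ v6 := n_v2_v6
  have n_v6_v2 : v6 ≠ v2 := n_v2_v6.symm
  replace n_v2_v7 : v2 ≠ v7 := n_v2_v7
  have n_v7_v2 : v7 ≠ v2 := n_v2_v7.symm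
  replace n_v2_u : v2 ≠ u := n_v2_u
  have n_u_v2 : u ≠ v2 := n_v2_u.symm
  replace n_v2_w : v2 ≠ w := n_v2_w
  have n_w_v2 : w ≠ v2 := n_v2_w.symm
  replace n_v3_v4 : v3 ≠ v4 := n_v3_v4
  have n_v4_v3 : v4 ≠ v3 := n_v3_v4.symm
  replace n_v3_v5 : v3 ≠ v5 := n_v3_v5
  have n_v5_v3 : v5 ≠ v3 := n_v3_v5.symm
  replace n_v3_v6 : v3 ≠ v6 := n_v3_v6
  have n_v6_v3 : v6 ≠ v3 := n_v3_v6.symm
  replace n_v3_v7 : v3 ≠ v7 := n_v3_v7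
  have n_v7_v3 : v7 ≠ v3 := n_v3_v7.symm
  replace n_v3_u : v3 ≠ u := n_v3_u
  have n_u_v3 : u ≠ v3 := n_v3_u.symm
  replace n_v3_w : v3 ≠ w := n_v3_w
  have n_w_v3 : w ≠ v3 := n_v3_w.symm
  replace n_v4_v5 : v4 ≠ v5 := n_v4_v5
  have n_v5_v4 : v5 ≠ v4 := n_v4_v5.symm
  replace n_v4_v6 : v4 ≠ v6 := n_v4_v6
  have n_v6_v4 : v6 ≠ v4 := n_v4_v6.symm
  replace n_v4_v7 : v4 ≠ v7 := n_v4_v7
  have n_v7_v4 : v7 ≠ v4 := n_v4_v7.symm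
  replace n_v4_u : v4 ≠ u := n_v4_u
  have n_u_v4 : u ≠ v4 := n_v4_u.symm
  replace n_v4_w : v4 ≠ w := n_v4_w
  have n_w_v4 : w ≠ v4 := n_v4_w.symm
  replace n_v5_v6 : v5 ≠ v6 := n_v5_v6
  have n_v6_v5 : v6 ≠ v5 := n_v5_v6.symm
  replace n_v5_v7 : v5 ≠ v7 := n_v5_v7
  have n_v7_v5 : v7 ≠ v5 := n_v5_v7.symm
  replace n_v5_u : v5 ≠ u := n_v5_u
  have n_u_v5 : u ≠ v5 := n_v5_u.symm
  replace n_v5_w : v5 ≠ w := n_v5_w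
  have n_w_v5 : w ≠ v5 := n_v5_w.symm
  replace n_v6_v7 : v6 ≠ v7 := n_v6_v7
  have n_v7_v6 : v7 ≠ v6 := n_v6_v7.symm
  replace n_v6_u : v6 ≠ u := n_v6_u
  have n_u_v6 : u ≠ v6 := n_v6_u.symm
  replace n_v6_w : v6 ≠ w := n_v6_w
  have n_w_v6 : w ≠ v6 := n_v6_w.symm
  replace n_v7_u : v7 ≠ u := n_v7_u
  have n_u_v7 : u ≠ v7 := n_v7_u.symm
  replace n_v7_w : v7 ≠ w := n_v7_w
  have n_w_v7 : w ≠ v7 := n_v7_w.symm
  replace n_u_w : u ≠ w := n_u_w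
  have n_w_u : w ≠ u := n_u_w.symm
  have w_v0 : v0 ∈ V := hV _ (by simp only [mem_insert, mem_singleton, true_or, or_true])
  have w_v1 : v1 ∈ V := hV _ (by simp only [mem_insert, mem_singleton, true_or, or_true])
  have w_v2 : v2 ∈ V := hV _ (by simp only [mem_insert, mem_singleton, true_or, or_true])
  have w_v3 : v3 ∈ V := hV _ (by simp only [mem_insert, mem_singleton, true_or, or_true])
  have w_v4 : v4 ∈ V := hV _ (by simp only [mem_insert, mem_singleton, true_or, or_true])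
  have w_v5 : v5 ∈ V := hV _ (by simp only [mem_insert, mem_singleton, true_or, or_true])
  have w_v6 : v6 ∈ V := hV _ (by simp only [mem_insert, mem_singleton, true_or, or_true])
  have w_v7 : v7 ∈ V := hV _ (by simp only [mem_insert, mem_singleton, true_or, or_true])
  have w_u : u ∈ V := hV _ (by simp only [mem_insert, mem_singleton, true_or, or_true])
  have w_w : w ∈ V := hV _ (by simp only [mem_insert, mem_singleton, true_or, or_true])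
  exfalso
  obtain ⟨x, hx, h⟩ := cfg_P5d hF (by
    simp only [List.nodup_cons, List.mem_cons, List.not_mem_nil, not_or, not_false_eq_true,
    and_true, or_false, List.nodup_nil]
    exact ⟨⟨n_u_w, n_u_v1, n_u_v0, n_u_v2, n_u_v3, n_u_v4, n_u_v5, n_u_v6, n_u_v7⟩, ⟨n_w_v1, n_w_v0, n_w_v2, n_w_v3, n_w_v4, n_w_v5, n_w_v6, n_w_v7⟩, ⟨n_v1_v0, n_v1_v2, n_v1_v3, n_v1_v4, n_v1_v5, n_v1_v6, n_v1_v7⟩, ⟨n_v0_v2, n_v0_v3, n_v0_v4, n_v0_v5, n_v0_v6, n_v0_v7⟩, ⟨n_v2_v3, n_v2_v4, n_v2_v5, n_v2_v6, n_v2_v7⟩, ⟨n_v3_v4, n_v3_v5, n_v3_v6, n_v3_v7⟩, ⟨n_v4_v5, n_v4_v6, n_v4_v7⟩, ⟨n_v5_v6, n_v5_v7⟩, n_v6_v7⟩)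
    (by rw [perm_120 v1 u w]; exact tt) (by rw [perm_102 v0 v1 v2]; exact t0) (by rw [perm_012 v2 v3 v4]; exact t1) (by rw [perm_012 v4 v5 v6]; exact t2) (by rw [perm_012 v5 v6 v7]; exact t3)
  refine bad x ?_ h
  simp only [mem_insert, mem_singleton] at hx
  rcases hx with hx | hx | hx | hx | hx | hx | hx | hx | hx | hx <;>
  · rw [hx]; assumption

theorem ext_q4_2 {F : Finset (Finset α)} (hF : ∀ A ∈ F, ∀ B ∈ F, A ∪ B ∈ F) {V : Finset α}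
    (bad : ∀ x ∈ V, ¬ F.card ≤ 2 * (F.filter (fun A => x ∈ A)).card)
    {v0 v1 v2 v3 v4 v5 v6 v7 u w : α} (nd : [v0, v1, v2, v3, v4, v5, v6, v7, u, w].Nodup)
    (t0 : ({v0, v1, v2} : Finset α) ∈ F)
    (t1 : ({v2, v3, v4} : Finset α) ∈ F)
    (t2 : ({v4, v5, v6} : Finset α) ∈ F)
    (t3 : ({v5, v6, v7} : Finset α) ∈ F)
    (tt : ({v2, u, w} : Finset α) ∈ F)
    (hV : ∀ x ∈ ({v0, v1, v2, v3, v4, v5, v6, v7, u, w} : Finset α), x ∈ V)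
    : Ty (insert {v2, u, w} ({{v0, v1, v2}, {v2, v3, v4}, {v4, v5, v6}, {v5, v6, v7}} : Finset (Finset α))) := by
  simp only [List.nodup_cons, List.mem_cons, List.not_mem_nil, not_or, not_false_eq_true,
    and_true, or_false, List.nodup_nil] at nd
  obtain ⟨⟨n_v0_v1, n_v0_v2, n_v0_v3, n_v0_v4, n_v0_v5, n_v0_v6, n_v0_v7, n_v0_u, n_v0_w⟩, ⟨n_v1_v2, n_v1_v3, n_v1_v4, n_v1_v5, n_v1_v6, n_v1_v7, n_v1_u, n_v1_w⟩, ⟨n_v2_v3, n_v2_v4, n_v2_v5, n_v2_v6, n_v2_v7, n_v2_u, n_v2_w⟩, ⟨n_v3_v4, n_v3_v5, n_v3_v6, n_v3_v7, n_v3_u, n_v3_w⟩, ⟨n_v4_v5, n_v4_v6, n_v4_v7, n_v4_u, n_v4_w⟩, ⟨n_v5_v6, n_v5_v7, n_v5_u, n_v5_w⟩, ⟨n_v6_v7, n_v6_u, n_v6_w⟩, ⟨n_v7_u, n_v7_w⟩, n_u_w⟩ := nd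
  replace n_v0_v1 : v0 ≠ v1 := n_v0_v1
  have n_v1_v0 : v1 ≠ v0 := n_v0_v1.symm
  replace n_v0_v2 : v0 ≠ v2 := n_v0_v2
  have n_v2_v0 : v2 ≠ v0 := n_v0_v2.symm
  replace n_v0_v3 : v0 ≠ v3 := n_v0_v3
  have n_v3_v0 : v3 ≠ v0 := n_v0_v3.symm
  replace n_v0_v4 : v0 ≠ v4 := n_v0_v4
  have n_v4_v0 : v4 ≠ v0 := n_v0_v4.symm
  replace n_v0_v5 : v0 ≠ v5 := n_v0_v5
  have n_v5_v0 : v5 ≠ v0 := n_v0_v5.symm
  replace n_v0_v6 : v0 ≠ v6 := n_v0_v6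
  have n_v6_v0 : v6 ≠ v0 := n_v0_v6.symm
  replace n_v0_v7 : v0 ≠ v7 := n_v0_v7
  have n_v7_v0 : v7 ≠ v0 := n_v0_v7.symm
  replace n_v0_u : v0 ≠ u := n_v0_u
  have n_u_v0 : u ≠ v0 := n_v0_u.symm
  replace n_v0_w : v0 ≠ w := n_v0_w
  have n_w_v0 : w ≠ v0 := n_v0_w.symm
  replace n_v1_v2 : v1 ≠ v2 := n_v1_v2
  have n_v2_v1 : v2 ≠ v1 := n_v1_v2.symm
  replace n_v1_v3 : v1 ≠ v3 := n_v1_v3
  have n_v3_v1 : v3 ≠ v1 := n_v1_v3.symm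
  replace n_v1_v4 : v1 ≠ v4 := n_v1_v4
  have n_v4_v1 : v4 ≠ v1 := n_v1_v4.symm
  replace n_v1_v5 : v1 ≠ v5 := n_v1_v5
  have n_v5_v1 : v5 ≠ v1 := n_v1_v5.symm
  replace n_v1_v6 : v1 ≠ v6 := n_v1_v6
  have n_v6_v1 : v6 ≠ v1 := n_v1_v6.symm
  replace n_v1_v7 : v1 ≠ v7 := n_v1_v7
  have n_v7_v1 : v7 ≠ v1 := n_v1_v7.symm
  replace n_v1_u : v1 ≠ u := n_v1_u
  have n_u_v1 : u ≠ v1 := n_v1_u.symm
  replace n_v1_w : v1 ≠ w := n_v1_w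
  have n_w_v1 : w ≠ v1 := n_v1_w.symm
  replace n_v2_v3 : v2 ≠ v3 := n_v2_v3
  have n_v3_v2 : v3 ≠ v2 := n_v2_v3.symm
  replace n_v2_v4 : v2 ≠ v4 := n_v2_v4
  have n_v4_v2 : v4 ≠ v2 := n_v2_v4.symm
  replace n_v2_v5 : v2 ≠ v5 := n_v2_v5
  have n_v5_v2 : v5 ≠ v2 := n_v2_v5.symm
  replace n_v2_v6 : v2 ≠ v6 := n_v2_v6
  have n_v6_v2 : v6 ≠ v2 := n_v2_v6.symm
  replace n_v2_v7 : v2 ≠ v7 := n_v2_v7
  have n_v7_v2 : v7 ≠ v2 := n_v2_v7.symm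
  replace n_v2_u : v2 ≠ u := n_v2_u
  have n_u_v2 : u ≠ v2 := n_v2_u.symm
  replace n_v2_w : v2 ≠ w := n_v2_w
  have n_w_v2 : w ≠ v2 := n_v2_w.symm
  replace n_v3_v4 : v3 ≠ v4 := n_v3_v4
  have n_v4_v3 : v4 ≠ v3 := n_v3_v4.symm
  replace n_v3_v5 : v3 ≠ v5 := n_v3_v5
  have n_v5_v3 : v5 ≠ v3 := n_v3_v5.symm
  replace n_v3_v6 : v3 ≠ v6 := n_v3_v6
  have n_v6_v3 : v6 ≠ v3 := n_v3_v6.symm
  replace n_v3_v7 : v3 ≠ v7 := n_v3_v7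
  have n_v7_v3 : v7 ≠ v3 := n_v3_v7.symm
  replace n_v3_u : v3 ≠ u := n_v3_u
  have n_u_v3 : u ≠ v3 := n_v3_u.symm
  replace n_v3_w : v3 ≠ w := n_v3_w
  have n_w_v3 : w ≠ v3 := n_v3_w.symm
  replace n_v4_v5 : v4 ≠ v5 := n_v4_v5
  have n_v5_v4 : v5 ≠ v4 := n_v4_v5.symm
  replace n_v4_v6 : v4 ≠ v6 := n_v4_v6
  have n_v6_v4 : v6 ≠ v4 := n_v4_v6.symm
  replace n_v4_v7 : v4 ≠ v7 := n_v4_v7
  have n_v7_v4 : v7 ≠ v4 := n_v4_v7.symm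
  replace n_v4_u : v4 ≠ u := n_v4_u
  have n_u_v4 : u ≠ v4 := n_v4_u.symm
  replace n_v4_w : v4 ≠ w := n_v4_w
  have n_w_v4 : w ≠ v4 := n_v4_w.symm
  replace n_v5_v6 : v5 ≠ v6 := n_v5_v6
  have n_v6_v5 : v6 ≠ v5 := n_v5_v6.symm
  replace n_v5_v7 : v5 ≠ v7 := n_v5_v7
  have n_v7_v5 : v7 ≠ v5 := n_v5_v7.symm
  replace n_v5_u : v5 ≠ u := n_v5_u
  have n_u_v5 : u ≠ v5 := n_v5_u.symm
  replace n_v5_w : v5 ≠ w := n_v5_w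
  have n_w_v5 : w ≠ v5 := n_v5_w.symm
  replace n_v6_v7 : v6 ≠ v7 := n_v6_v7
  have n_v7_v6 : v7 ≠ v6 := n_v6_v7.symm
  replace n_v6_u : v6 ≠ u := n_v6_u
  have n_u_v6 : u ≠ v6 := n_v6_u.symm
  replace n_v6_w : v6 ≠ w := n_v6_w
  have n_w_v6 : w ≠ v6 := n_v6_w.symm
  replace n_v7_u : v7 ≠ u := n_v7_u
  have n_u_v7 : u ≠ v7 := n_v7_u.symm
  replace n_v7_w : v7 ≠ w := n_v7_w
  have n_w_v7 : w ≠ v7 := n_v7_w.symm
  replace n_u_w : u ≠ w := n_u_w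
  have n_w_u : w ≠ u := n_u_w.symm
  have w_v0 : v0 ∈ V := hV _ (by simp only [mem_insert, mem_singleton, true_or, or_true])
  have w_v1 : v1 ∈ V := hV _ (by simp only [mem_insert, mem_singleton, true_or, or_true])
  have w_v2 : v2 ∈ V := hV _ (by simp only [mem_insert, mem_singleton, true_or, or_true])
  have w_v3 : v3 ∈ V := hV _ (by simp only [mem_insert, mem_singleton, true_or, or_true])
  have w_v4 : v4 ∈ V := hV _ (by simp only [mem_insert, mem_singleton, true_or, or_true])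
  have w_v5 : v5 ∈ V := hV _ (by simp only [mem_insert, mem_singleton, true_or, or_true])
  have w_v6 : v6 ∈ V := hV _ (by simp only [mem_insert, mem_singleton, true_or, or_true])
  have w_v7 : v7 ∈ V := hV _ (by simp only [mem_insert, mem_singleton, true_or, or_true])
  have w_u : u ∈ V := hV _ (by simp only [mem_insert, mem_singleton, true_or, or_true])
  have w_w : w ∈ V := hV _ (by simp only [mem_insert, mem_singleton, true_or, or_true])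
  exfalso
  exact deg3_fc hF bad (x := v2) t0 t1 tt (card_eq_three.2 ⟨v0, v1, v2, n_v0_v1, n_v0_v2, n_v1_v2, rfl⟩) (card_eq_three.2 ⟨v2, v3, v4, n_v2_v3, n_v2_v4, n_v3_v4, rfl⟩) (card_eq_three.2 ⟨v2, u, w, n_v2_u, n_v2_w, n_u_w, rfl⟩)
    (by simp only [insert_subset_iff, singleton_subset_iff]; exact ⟨w_v0, w_v1, w_v2⟩) (by simp only [insert_subset_iff, singleton_subset_iff]; exact ⟨w_v2, w_v3, w_v4⟩) (by simp only [insert_subset_iff, singleton_subset_iff]; exact ⟨w_v2, w_u, w_w⟩)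
    (by simp only [mem_insert, mem_singleton, true_or, or_true]) (by simp only [mem_insert, mem_singleton, true_or, or_true]) (by simp only [mem_insert, mem_singleton, true_or, or_true])
    (by
    intro he
    have h : v0 ∈ ({v2, v3, v4} : Finset α) := by
      rw [← he]; simp only [mem_insert, mem_singleton, true_or, or_true]
    simp only [mem_insert, mem_singleton] at h
    rcases h with h | h | h
    · exact n_v0_v2 h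
    · exact n_v0_v3 h
    · exact n_v0_v4 h)
    (by
    intro he
    have h : v0 ∈ ({v2, u, w} : Finset α) := by
      rw [← he]; simp only [mem_insert, mem_singleton, true_or, or_true]
    simp only [mem_insert, mem_singleton] at h
    rcases h with h | h | h
    · exact n_v0_v2 h
    · exact n_v0_u h
    · exact n_v0_w h)
    (by
    intro he
    have h : v3 ∈ ({v2, u, w} : Finset α) := by
      rw [← he]; simp only [mem_insert, mem_singleton, true_or, or_true]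
    simp only [mem_insert, mem_singleton] at h
    rcases h with h | h | h
    · exact n_v3_v2 h
    · exact n_v3_u h
    · exact n_v3_w h)

theorem ext_q4_3 {F : Finset (Finset α)} (hF : ∀ A ∈ F, ∀ B ∈ F, A ∪ B ∈ F) {V : Finset α}
    (bad : ∀ x ∈ V, ¬ F.card ≤ 2 * (F.filter (fun A => x ∈ A)).card)
    {v0 v1 v2 v3 v4 v5 v6 v7 u w : α} (nd : [v0, v1, v2, v3, v4, v5, v6, v7, u, w].Nodup)
    (t0 : ({v0, v1, v2} : Finset α) ∈ F)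
    (t1 : ({v2, v3, v4} : Finset α) ∈ F)
    (t2 : ({v4, v5, v6} : Finset α) ∈ F)
    (t3 : ({v5, v6, v7} : Finset α) ∈ F)
    (tt : ({v3, u, w} : Finset α) ∈ F)
    (hV : ∀ x ∈ ({v0, v1, v2, v3, v4, v5, v6, v7, u, w} : Finset α), x ∈ V)
    : Ty (insert {v3, u, w} ({{v0, v1, v2}, {v2, v3, v4}, {v4, v5, v6}, {v5, v6, v7}} : Finset (Finset α))) := by
  simp only [List.nodup_cons, List.mem_cons, List.not_mem_nil, not_or, not_false_eq_true,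
    and_true, or_false, List.nodup_nil] at nd
  obtain ⟨⟨n_v0_v1, n_v0_v2, n_v0_v3, n_v0_v4, n_v0_v5, n_v0_v6, n_v0_v7, n_v0_u, n_v0_w⟩, ⟨n_v1_v2, n_v1_v3, n_v1_v4, n_v1_v5, n_v1_v6, n_v1_v7, n_v1_u, n_v1_w⟩, ⟨n_v2_v3, n_v2_v4, n_v2_v5, n_v2_v6, n_v2_v7, n_v2_u, n_v2_w⟩, ⟨n_v3_v4, n_v3_v5, n_v3_v6, n_v3_v7, n_v3_u, n_v3_w⟩, ⟨n_v4_v5, n_v4_v6, n_v4_v7, n_v4_u, n_v4_w⟩, ⟨n_v5_v6, n_v5_v7, n_v5_u, n_v5_w⟩, ⟨n_v6_v7, n_v6_u, n_v6_w⟩, ⟨n_v7_u, n_v7_w⟩, n_u_w⟩ := nd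
  replace n_v0_v1 : v0 ≠ v1 := n_v0_v1
  have n_v1_v0 : v1 ≠ v0 := n_v0_v1.symm
  replace n_v0_v2 : v0 ≠ v2 := n_v0_v2
  have n_v2_v0 : v2 ≠ v0 := n_v0_v2.symm
  replace n_v0_v3 : v0 ≠ v3 := n_v0_v3
  have n_v3_v0 : v3 ≠ v0 := n_v0_v3.symm
  replace n_v0_v4 : v0 ≠ v4 := n_v0_v4
  have n_v4_v0 : v4 ≠ v0 := n_v0_v4.symm
  replace n_v0_v5 : v0 ≠ v5 := n_v0_v5
  have n_v5_v0 : v5 ≠ v0 := n_v0_v5.symm
  replace n_v0_v6 : v0 ≠ v6 := n_v0_v6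
  have n_v6_v0 : v6 ≠ v0 := n_v0_v6.symm
  replace n_v0_v7 : v0 ≠ v7 := n_v0_v7
  have n_v7_v0 : v7 ≠ v0 := n_v0_v7.symm
  replace n_v0_u : v0 ≠ u := n_v0_u
  have n_u_v0 : u ≠ v0 := n_v0_u.symm
  replace n_v0_w : v0 ≠ w := n_v0_w
  have n_w_v0 : w ≠ v0 := n_v0_w.symm
  replace n_v1_v2 : v1 ≠ v2 := n_v1_v2
  have n_v2_v1 : v2 ≠ v1 := n_v1_v2.symm
  replace n_v1_v3 : v1 ≠ v3 := n_v1_v3
  have n_v3_v1 : v3 ≠ v1 := n_v1_v3.symm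
  replace n_v1_v4 : v1 ≠ v4 := n_v1_v4
  have n_v4_v1 : v4 ≠ v1 := n_v1_v4.symm
  replace n_v1_v5 : v1 ≠ v5 := n_v1_v5
  have n_v5_v1 : v5 ≠ v1 := n_v1_v5.symm
  replace n_v1_v6 : v1 ≠ v6 := n_v1_v6
  have n_v6_v1 : v6 ≠ v1 := n_v1_v6.symm
  replace n_v1_v7 : v1 ≠ v7 := n_v1_v7
  have n_v7_v1 : v7 ≠ v1 := n_v1_v7.symm
  replace n_v1_u : v1 ≠ u := n_v1_u
  have n_u_v1 : u ≠ v1 := n_v1_u.symm
  replace n_v1_w : v1 ≠ w := n_v1_w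
  have n_w_v1 : w ≠ v1 := n_v1_w.symm
  replace n_v2_v3 : v2 ≠ v3 := n_v2_v3
  have n_v3_v2 : v3 ≠ v2 := n_v2_v3.symm
  replace n_v2_v4 : v2 ≠ v4 := n_v2_v4
  have n_v4_v2 : v4 ≠ v2 := n_v2_v4.symm
  replace n_v2_v5 : v2 ≠ v5 := n_v2_v5
  have n_v5_v2 : v5 ≠ v2 := n_v2_v5.symm
  replace n_v2_v6 : v2 ≠ v6 := n_v2_v6
  have n_v6_v2 : v6 ≠ v2 := n_v2_v6.symm
  replace n_v2_v7 : v2 ≠ v7 := n_v2_v7
  have n_v7_v2 : v7 ≠ v2 := n_v2_v7.symm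
  replace n_v2_u : v2 ≠ u := n_v2_u
  have n_u_v2 : u ≠ v2 := n_v2_u.symm
  replace n_v2_w : v2 ≠ w := n_v2_w
  have n_w_v2 : w ≠ v2 := n_v2_w.symm
  replace n_v3_v4 : v3 ≠ v4 := n_v3_v4
  have n_v4_v3 : v4 ≠ v3 := n_v3_v4.symm
  replace n_v3_v5 : v3 ≠ v5 := n_v3_v5
  have n_v5_v3 : v5 ≠ v3 := n_v3_v5.symm
  replace n_v3_v6 : v3 ≠ v6 := n_v3_v6
  have n_v6_v3 : v6 ≠ v3 := n_v3_v6.symm
  replace n_v3_v7 : v3 ≠ v7 := n_v3_v7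
  have n_v7_v3 : v7 ≠ v3 := n_v3_v7.symm
  replace n_v3_u : v3 ≠ u := n_v3_u
  have n_u_v3 : u ≠ v3 := n_v3_u.symm
  replace n_v3_w : v3 ≠ w := n_v3_w
  have n_w_v3 : w ≠ v3 := n_v3_w.symm
  replace n_v4_v5 : v4 ≠ v5 := n_v4_v5
  have n_v5_v4 : v5 ≠ v4 := n_v4_v5.symm
  replace n_v4_v6 : v4 ≠ v6 := n_v4_v6
  have n_v6_v4 : v6 ≠ v4 := n_v4_v6.symm
  replace n_v4_v7 : v4 ≠ v7 := n_v4_v7
  have n_v7_v4 : v7 ≠ v4 := n_v4_v7.symm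
  replace n_v4_u : v4 ≠ u := n_v4_u
  have n_u_v4 : u ≠ v4 := n_v4_u.symm
  replace n_v4_w : v4 ≠ w := n_v4_w
  have n_w_v4 : w ≠ v4 := n_v4_w.symm
  replace n_v5_v6 : v5 ≠ v6 := n_v5_v6
  have n_v6_v5 : v6 ≠ v5 := n_v5_v6.symm
  replace n_v5_v7 : v5 ≠ v7 := n_v5_v7
  have n_v7_v5 : v7 ≠ v5 := n_v5_v7.symm
  replace n_v5_u : v5 ≠ u := n_v5_u
  have n_u_v5 : u ≠ v5 := n_v5_u.symm
  replace n_v5_w : v5 ≠ w := n_v5_w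
  have n_w_v5 : w ≠ v5 := n_v5_w.symm
  replace n_v6_v7 : v6 ≠ v7 := n_v6_v7
  have n_v7_v6 : v7 ≠ v6 := n_v6_v7.symm
  replace n_v6_u : v6 ≠ u := n_v6_u
  have n_u_v6 : u ≠ v6 := n_v6_u.symm
  replace n_v6_w : v6 ≠ w := n_v6_w
  have n_w_v6 : w ≠ v6 := n_v6_w.symm
  replace n_v7_u : v7 ≠ u := n_v7_u
  have n_u_v7 : u ≠ v7 := n_v7_u.symm
  replace n_v7_w : v7 ≠ w := n_v7_w
  have n_w_v7 : w ≠ v7 := n_v7_w.symm
  replace n_u_w : u ≠ w := n_u_w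
  have n_w_u : w ≠ u := n_u_w.symm
  have w_v0 : v0 ∈ V := hV _ (by simp only [mem_insert, mem_singleton, true_or, or_true])
  have w_v1 : v1 ∈ V := hV _ (by simp only [mem_insert, mem_singleton, true_or, or_true])
  have w_v2 : v2 ∈ V := hV _ (by simp only [mem_insert, mem_singleton, true_or, or_true])
  have w_v3 : v3 ∈ V := hV _ (by simp only [mem_insert, mem_singleton, true_or, or_true])
  have w_v4 : v4 ∈ V := hV _ (by simp only [mem_insert, mem_singleton, true_or, or_true])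
  have w_v5 : v5 ∈ V := hV _ (by simp only [mem_insert, mem_singleton, true_or, or_true])
  have w_v6 : v6 ∈ V := hV _ (by simp only [mem_insert, mem_singleton, true_or, or_true])
  have w_v7 : v7 ∈ V := hV _ (by simp only [mem_insert, mem_singleton, true_or, or_true])
  have w_u : u ∈ V := hV _ (by simp only [mem_insert, mem_singleton, true_or, or_true])
  have w_w : w ∈ V := hV _ (by simp only [mem_insert, mem_singleton, true_or, or_true])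
  exfalso
  obtain ⟨x, hx, h⟩ := cfg_spider hF (by
    simp only [List.nodup_cons, List.mem_cons, List.not_mem_nil, not_or, not_false_eq_true,
    and_true, or_false, List.nodup_nil]
    exact ⟨⟨n_v0_v1, n_v0_v2, n_v0_v3, n_v0_v4, n_v0_v5, n_v0_v6, n_v0_u, n_v0_w⟩, ⟨n_v1_v2, n_v1_v3, n_v1_v4, n_v1_v5, n_v1_v6, n_v1_u, n_v1_w⟩, ⟨n_v2_v3, n_v2_v4, n_v2_v5, n_v2_v6, n_v2_u, n_v2_w⟩, ⟨n_v3_v4, n_v3_v5, n_v3_v6, n_v3_u, n_v3_w⟩, ⟨n_v4_v5, n_v4_v6, n_v4_u, n_v4_w⟩, ⟨n_v5_v6, n_v5_u, n_v5_w⟩, ⟨n_v6_u, n_v6_w⟩, n_u_w⟩)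
    (by rw [perm_012 v0 v1 v2]; exact t0) (by rw [perm_012 v2 v3 v4]; exact t1) (by rw [perm_012 v4 v5 v6]; exact t2) (by rw [perm_012 v3 u w]; exact tt)
  refine bad x ?_ h
  simp only [mem_insert, mem_singleton] at hx
  rcases hx with hx | hx | hx | hx | hx | hx | hx | hx | hx <;>
  · rw [hx]; assumption

theorem ext_q4_4 {F : Finset (Finset α)} (hF : ∀ A ∈ F, ∀ B ∈ F, A ∪ B ∈ F) {V : Finset α}
    (bad : ∀ x ∈ V, ¬ F.card ≤ 2 * (F.filter (fun A => x ∈ A)).card)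
    {v0 v1 v2 v3 v4 v5 v6 v7 u w : α} (nd : [v0, v1, v2, v3, v4, v5, v6, v7, u, w].Nodup)
    (t0 : ({v0, v1, v2} : Finset α) ∈ F)
    (t1 : ({v2, v3, v4} : Finset α) ∈ F)
    (t2 : ({v4, v5, v6} : Finset α) ∈ F)
    (t3 : ({v5, v6, v7} : Finset α) ∈ F)
    (tt : ({v4, u, w} : Finset α) ∈ F)
    (hV : ∀ x ∈ ({v0, v1, v2, v3, v4, v5, v6, v7, u, w} : Finset α), x ∈ V)
    : Ty (insert {v4, u, w} ({{v0, v1, v2}, {v2, v3, v4}, {v4, v5, v6}, {v5, v6, v7}} : Finset (Finset α))) := by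
  simp only [List.nodup_cons, List.mem_cons, List.not_mem_nil, not_or, not_false_eq_true,
    and_true, or_false, List.nodup_nil] at nd
  obtain ⟨⟨n_v0_v1, n_v0_v2, n_v0_v3, n_v0_v4, n_v0_v5, n_v0_v6, n_v0_v7, n_v0_u, n_v0_w⟩, ⟨n_v1_v2, n_v1_v3, n_v1_v4, n_v1_v5, n_v1_v6, n_v1_v7, n_v1_u, n_v1_w⟩, ⟨n_v2_v3, n_v2_v4, n_v2_v5, n_v2_v6, n_v2_v7, n_v2_u, n_v2_w⟩, ⟨n_v3_v4, n_v3_v5, n_v3_v6, n_v3_v7, n_v3_u, n_v3_w⟩, ⟨n_v4_v5, n_v4_v6, n_v4_v7, n_v4_u, n_v4_w⟩, ⟨n_v5_v6, n_v5_v7, n_v5_u, n_v5_w⟩, ⟨n_v6_v7, n_v6_u, n_v6_w⟩, ⟨n_v7_u, n_v7_w⟩, n_u_w⟩ := nd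
  replace n_v0_v1 : v0 ≠ v1 := n_v0_v1
  have n_v1_v0 : v1 ≠ v0 := n_v0_v1.symm
  replace n_v0_v2 : v0 ≠ v2 := n_v0_v2
  have n_v2_v0 : v2 ≠ v0 := n_v0_v2.symm
  replace n_v0_v3 : v0 ≠ v3 := n_v0_v3
  have n_v3_v0 : v3 ≠ v0 := n_v0_v3.symm
  replace n_v0_v4 : v0 ≠ v4 := n_v0_v4
  have n_v4_v0 : v4 ≠ v0 := n_v0_v4.symm
  replace n_v0_v5 : v0 ≠ v5 := n_v0_v5
  have n_v5_v0 : v5 ≠ v0 := n_v0_v5.symm
  replace n_v0_v6 : v0 ≠ v6 := n_v0_v6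
  have n_v6_v0 : v6 ≠ v0 := n_v0_v6.symm
  replace n_v0_v7 : v0 ≠ v7 := n_v0_v7
  have n_v7_v0 : v7 ≠ v0 := n_v0_v7.symm
  replace n_v0_u : v0 ≠ u := n_v0_u
  have n_u_v0 : u ≠ v0 := n_v0_u.symm
  replace n_v0_w : v0 ≠ w := n_v0_w
  have n_w_v0 : w ≠ v0 := n_v0_w.symm
  replace n_v1_v2 : v1 ≠ v2 := n_v1_v2
  have n_v2_v1 : v2 ≠ v1 := n_v1_v2.symm
  replace n_v1_v3 : v1 ≠ v3 := n_v1_v3
  have n_v3_v1 : v3 ≠ v1 := n_v1_v3.symm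
  replace n_v1_v4 : v1 ≠ v4 := n_v1_v4
  have n_v4_v1 : v4 ≠ v1 := n_v1_v4.symm
  replace n_v1_v5 : v1 ≠ v5 := n_v1_v5
  have n_v5_v1 : v5 ≠ v1 := n_v1_v5.symm
  replace n_v1_v6 : v1 ≠ v6 := n_v1_v6
  have n_v6_v1 : v6 ≠ v1 := n_v1_v6.symm
  replace n_v1_v7 : v1 ≠ v7 := n_v1_v7
  have n_v7_v1 : v7 ≠ v1 := n_v1_v7.symm
  replace n_v1_u : v1 ≠ u := n_v1_u
  have n_u_v1 : u ≠ v1 := n_v1_u.symm
  replace n_v1_w : v1 ≠ w := n_v1_w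
  have n_w_v1 : w ≠ v1 := n_v1_w.symm
  replace n_v2_v3 : v2 ≠ v3 := n_v2_v3
  have n_v3_v2 : v3 ≠ v2 := n_v2_v3.symm
  replace n_v2_v4 : v2 ≠ v4 := n_v2_v4
  have n_v4_v2 : v4 ≠ v2 := n_v2_v4.symm
  replace n_v2_v5 : v2 ≠ v5 := n_v2_v5
  have n_v5_v2 : v5 ≠ v2 := n_v2_v5.symm
  replace n_v2_v6 : v2 ≠ v6 := n_v2_v6
  have n_v6_v2 : v6 ≠ v2 := n_v2_v6.symm
  replace n_v2_v7 : v2 ≠ v7 := n_v2_v7
  have n_v7_v2 : v7 ≠ v2 := n_v2_v7.symm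
  replace n_v2_u : v2 ≠ u := n_v2_u
  have n_u_v2 : u ≠ v2 := n_v2_u.symm
  replace n_v2_w : v2 ≠ w := n_v2_w
  have n_w_v2 : w ≠ v2 := n_v2_w.symm
  replace n_v3_v4 : v3 ≠ v4 := n_v3_v4
  have n_v4_v3 : v4 ≠ v3 := n_v3_v4.symm
  replace n_v3_v5 : v3 ≠ v5 := n_v3_v5
  have n_v5_v3 : v5 ≠ v3 := n_v3_v5.symm
  replace n_v3_v6 : v3 ≠ v6 := n_v3_v6
  have n_v6_v3 : v6 ≠ v3 := n_v3_v6.symm
  replace n_v3_v7 : v3 ≠ v7 := n_v3_v7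
  have n_v7_v3 : v7 ≠ v3 := n_v3_v7.symm
  replace n_v3_u : v3 ≠ u := n_v3_u
  have n_u_v3 : u ≠ v3 := n_v3_u.symm
  replace n_v3_w : v3 ≠ w := n_v3_w
  have n_w_v3 : w ≠ v3 := n_v3_w.symm
  replace n_v4_v5 : v4 ≠ v5 := n_v4_v5
  have n_v5_v4 : v5 ≠ v4 := n_v4_v5.symm
  replace n_v4_v6 : v4 ≠ v6 := n_v4_v6
  have n_v6_v4 : v6 ≠ v4 := n_v4_v6.symm
  replace n_v4_v7 : v4 ≠ v7 := n_v4_v7
  have n_v7_v4 : v7 ≠ v4 := n_v4_v7.symm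
  replace n_v4_u : v4 ≠ u := n_v4_u
  have n_u_v4 : u ≠ v4 := n_v4_u.symm
  replace n_v4_w : v4 ≠ w := n_v4_w
  have n_w_v4 : w ≠ v4 := n_v4_w.symm
  replace n_v5_v6 : v5 ≠ v6 := n_v5_v6
  have n_v6_v5 : v6 ≠ v5 := n_v5_v6.symm
  replace n_v5_v7 : v5 ≠ v7 := n_v5_v7
  have n_v7_v5 : v7 ≠ v5 := n_v5_v7.symm
  replace n_v5_u : v5 ≠ u := n_v5_u
  have n_u_v5 : u ≠ v5 := n_v5_u.symm
  replace n_v5_w : v5 ≠ w := n_v5_w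
  have n_w_v5 : w ≠ v5 := n_v5_w.symm
  replace n_v6_v7 : v6 ≠ v7 := n_v6_v7
  have n_v7_v6 : v7 ≠ v6 := n_v6_v7.symm
  replace n_v6_u : v6 ≠ u := n_v6_u
  have n_u_v6 : u ≠ v6 := n_v6_u.symm
  replace n_v6_w : v6 ≠ w := n_v6_w
  have n_w_v6 : w ≠ v6 := n_v6_w.symm
  replace n_v7_u : v7 ≠ u := n_v7_u
  have n_u_v7 : u ≠ v7 := n_v7_u.symm
  replace n_v7_w : v7 ≠ w := n_v7_w
  have n_w_v7 : w ≠ v7 := n_v7_w.symm
  replace n_u_w : u ≠ w := n_u_w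
  have n_w_u : w ≠ u := n_u_w.symm
  have w_v0 : v0 ∈ V := hV _ (by simp only [mem_insert, mem_singleton, true_or, or_true])
  have w_v1 : v1 ∈ V := hV _ (by simp only [mem_insert, mem_singleton, true_or, or_true])
  have w_v2 : v2 ∈ V := hV _ (by simp only [mem_insert, mem_singleton, true_or, or_true])
  have w_v3 : v3 ∈ V := hV _ (by simp only [mem_insert, mem_singleton, true_or, or_true])
  have w_v4 : v4 ∈ V := hV _ (by simp only [mem_insert, mem_singleton, true_or, or_true])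
  have w_v5 : v5 ∈ V := hV _ (by simp only [mem_insert, mem_singleton, true_or, or_true])
  have w_v6 : v6 ∈ V := hV _ (by simp only [mem_insert, mem_singleton, true_or, or_true])
  have w_v7 : v7 ∈ V := hV _ (by simp only [mem_insert, mem_singleton, true_or, or_true])
  have w_u : u ∈ V := hV _ (by simp only [mem_insert, mem_singleton, true_or, or_true])
  have w_w : w ∈ V := hV _ (by simp only [mem_insert, mem_singleton, true_or, or_true])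
  exfalso
  exact deg3_fc hF bad (x := v4) t1 t2 tt (card_eq_three.2 ⟨v2, v3, v4, n_v2_v3, n_v2_v4, n_v3_v4, rfl⟩) (card_eq_three.2 ⟨v4, v5, v6, n_v4_v5, n_v4_v6, n_v5_v6, rfl⟩) (card_eq_three.2 ⟨v4, u, w, n_v4_u, n_v4_w, n_u_w, rfl⟩)
    (by simp only [insert_subset_iff, singleton_subset_iff]; exact ⟨w_v2, w_v3, w_v4⟩) (by simp only [insert_subset_iff, singleton_subset_iff]; exact ⟨w_v4, w_v5, w_v6⟩) (by simp only [insert_subset_iff, singleton_subset_iff]; exact ⟨w_v4, w_u, w_w⟩)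
    (by simp only [mem_insert, mem_singleton, true_or, or_true]) (by simp only [mem_insert, mem_singleton, true_or, or_true]) (by simp only [mem_insert, mem_singleton, true_or, or_true])
    (by
    intro he
    have h : v2 ∈ ({v4, v5, v6} : Finset α) := by
      rw [← he]; simp only [mem_insert, mem_singleton, true_or, or_true]
    simp only [mem_insert, mem_singleton] at h
    rcases h with h | h | h
    · exact n_v2_v4 h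
    · exact n_v2_v5 h
    · exact n_v2_v6 h)
    (by
    intro he
    have h : v2 ∈ ({v4, u, w} : Finset α) := by
      rw [← he]; simp only [mem_insert, mem_singleton, true_or, or_true]
    simp only [mem_insert, mem_singleton] at h
    rcases h with h | h | h
    · exact n_v2_v4 h
    · exact n_v2_u h
    · exact n_v2_w h)
    (by
    intro he
    have h : v5 ∈ ({v4, u, w} : Finset α) := by
      rw [← he]; simp only [mem_insert, mem_singleton, true_or, or_true]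
    simp only [mem_insert, mem_singleton] at h
    rcases h with h | h | h
    · exact n_v5_v4 h
    · exact n_v5_u h
    · exact n_v5_w h)

theorem ext_q4_5 {F : Finset (Finset α)} (hF : ∀ A ∈ F, ∀ B ∈ F, A ∪ B ∈ F) {V : Finset α}
    (bad : ∀ x ∈ V, ¬ F.card ≤ 2 * (F.filter (fun A => x ∈ A)).card)
    {v0 v1 v2 v3 v4 v5 v6 v7 u w : α} (nd : [v0, v1, v2, v3, v4, v5, v6, v7, u, w].Nodup)
    (t0 : ({v0, v1, v2} : Finset α) ∈ F)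
    (t1 : ({v2, v3, v4} : Finset α) ∈ F)
    (t2 : ({v4, v5, v6} : Finset α) ∈ F)
    (t3 : ({v5, v6, v7} : Finset α) ∈ F)
    (tt : ({v5, u, w} : Finset α) ∈ F)
    (hV : ∀ x ∈ ({v0, v1, v2, v3, v4, v5, v6, v7, u, w} : Finset α), x ∈ V)
    : Ty (insert {v5, u, w} ({{v0, v1, v2}, {v2, v3, v4}, {v4, v5, v6}, {v5, v6, v7}} : Finset (Finset α))) := by
  simp only [List.nodup_cons, List.mem_cons, List.not_mem_nil, not_or, not_false_eq_true,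
    and_true, or_false, List.nodup_nil] at nd
  obtain ⟨⟨n_v0_v1, n_v0_v2, n_v0_v3, n_v0_v4, n_v0_v5, n_v0_v6, n_v0_v7, n_v0_u, n_v0_w⟩, ⟨n_v1_v2, n_v1_v3, n_v1_v4, n_v1_v5, n_v1_v6, n_v1_v7, n_v1_u, n_v1_w⟩, ⟨n_v2_v3, n_v2_v4, n_v2_v5, n_v2_v6, n_v2_v7, n_v2_u, n_v2_w⟩, ⟨n_v3_v4, n_v3_v5, n_v3_v6, n_v3_v7, n_v3_u, n_v3_w⟩, ⟨n_v4_v5, n_v4_v6, n_v4_v7, n_v4_u, n_v4_w⟩, ⟨n_v5_v6, n_v5_v7, n_v5_u, n_v5_w⟩, ⟨n_v6_v7, n_v6_u, n_v6_w⟩, ⟨n_v7_u, n_v7_w⟩, n_u_w⟩ := nd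
  replace n_v0_v1 : v0 ≠ v1 := n_v0_v1
  have n_v1_v0 : v1 ≠ v0 := n_v0_v1.symm
  replace n_v0_v2 : v0 ≠ v2 := n_v0_v2
  have n_v2_v0 : v2 ≠ v0 := n_v0_v2.symm
  replace n_v0_v3 : v0 ≠ v3 := n_v0_v3
  have n_v3_v0 : v3 ≠ v0 := n_v0_v3.symm
  replace n_v0_v4 : v0 ≠ v4 := n_v0_v4
  have n_v4_v0 : v4 ≠ v0 := n_v0_v4.symm
  replace n_v0_v5 : v0 ≠ v5 := n_v0_v5
  have n_v5_v0 : v5 ≠ v0 := n_v0_v5.symm
  replace n_v0_v6 : v0 ≠ v6 := n_v0_v6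
  have n_v6_v0 : v6 ≠ v0 := n_v0_v6.symm
  replace n_v0_v7 : v0 ≠ v7 := n_v0_v7
  have n_v7_v0 : v7 ≠ v0 := n_v0_v7.symm
  replace n_v0_u : v0 ≠ u := n_v0_u
  have n_u_v0 : u ≠ v0 := n_v0_u.symm
  replace n_v0_w : v0 ≠ w := n_v0_w
  have n_w_v0 : w ≠ v0 := n_v0_w.symm
  replace n_v1_v2 : v1 ≠ v2 := n_v1_v2
  have n_v2_v1 : v2 ≠ v1 := n_v1_v2.symm
  replace n_v1_v3 : v1 ≠ v3 := n_v1_v3
  have n_v3_v1 : v3 ≠ v1 := n_v1_v3.symm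
  replace n_v1_v4 : v1 ≠ v4 := n_v1_v4
  have n_v4_v1 : v4 ≠ v1 := n_v1_v4.symm
  replace n_v1_v5 : v1 ≠ v5 := n_v1_v5
  have n_v5_v1 : v5 ≠ v1 := n_v1_v5.symm
  replace n_v1_v6 : v1 ≠ v6 := n_v1_v6
  have n_v6_v1 : v6 ≠ v1 := n_v1_v6.symm
  replace n_v1_v7 : v1 ≠ v7 := n_v1_v7
  have n_v7_v1 : v7 ≠ v1 := n_v1_v7.symm
  replace n_v1_u : v1 ≠ u := n_v1_u
  have n_u_v1 : u ≠ v1 := n_v1_u.symm
  replace n_v1_w : v1 ≠ w := n_v1_w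
  have n_w_v1 : w ≠ v1 := n_v1_w.symm
  replace n_v2_v3 : v2 ≠ v3 := n_v2_v3
  have n_v3_v2 : v3 ≠ v2 := n_v2_v3.symm
  replace n_v2_v4 : v2 ≠ v4 := n_v2_v4
  have n_v4_v2 : v4 ≠ v2 := n_v2_v4.symm
  replace n_v2_v5 : v2 ≠ v5 := n_v2_v5
  have n_v5_v2 : v5 ≠ v2 := n_v2_v5.symm
  replace n_v2_v6 : v2 ≠ v6 := n_v2_v6
  have n_v6_v2 : v6 ≠ v2 := n_v2_v6.symm
  replace n_v2_v7 : v2 ≠ v7 := n_v2_v7
  have n_v7_v2 : v7 ≠ v2 := n_v2_v7.symm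
  replace n_v2_u : v2 ≠ u := n_v2_u
  have n_u_v2 : u ≠ v2 := n_v2_u.symm
  replace n_v2_w : v2 ≠ w := n_v2_w
  have n_w_v2 : w ≠ v2 := n_v2_w.symm
  replace n_v3_v4 : v3 ≠ v4 := n_v3_v4
  have n_v4_v3 : v4 ≠ v3 := n_v3_v4.symm
  replace n_v3_v5 : v3 ≠ v5 := n_v3_v5
  have n_v5_v3 : v5 ≠ v3 := n_v3_v5.symm
  replace n_v3_v6 : v3 ≠ v6 := n_v3_v6
  have n_v6_v3 : v6 ≠ v3 := n_v3_v6.symm
  replace n_v3_v7 : v3 ≠ v7 := n_v3_v7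
  have n_v7_v3 : v7 ≠ v3 := n_v3_v7.symm
  replace n_v3_u : v3 ≠ u := n_v3_u
  have n_u_v3 : u ≠ v3 := n_v3_u.symm
  replace n_v3_w : v3 ≠ w := n_v3_w
  have n_w_v3 : w ≠ v3 := n_v3_w.symm
  replace n_v4_v5 : v4 ≠ v5 := n_v4_v5
  have n_v5_v4 : v5 ≠ v4 := n_v4_v5.symm
  replace n_v4_v6 : v4 ≠ v6 := n_v4_v6
  have n_v6_v4 : v6 ≠ v4 := n_v4_v6.symm
  replace n_v4_v7 : v4 ≠ v7 := n_v4_v7
  have n_v7_v4 : v7 ≠ v4 := n_v4_v7.symm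
  replace n_v4_u : v4 ≠ u := n_v4_u
  have n_u_v4 : u ≠ v4 := n_v4_u.symm
  replace n_v4_w : v4 ≠ w := n_v4_w
  have n_w_v4 : w ≠ v4 := n_v4_w.symm
  replace n_v5_v6 : v5 ≠ v6 := n_v5_v6
  have n_v6_v5 : v6 ≠ v5 := n_v5_v6.symm
  replace n_v5_v7 : v5 ≠ v7 := n_v5_v7
  have n_v7_v5 : v7 ≠ v5 := n_v5_v7.symm
  replace n_v5_u : v5 ≠ u := n_v5_u
  have n_u_v5 : u ≠ v5 := n_v5_u.symm
  replace n_v5_w : v5 ≠ w := n_v5_w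
  have n_w_v5 : w ≠ v5 := n_v5_w.symm
  replace n_v6_v7 : v6 ≠ v7 := n_v6_v7
  have n_v7_v6 : v7 ≠ v6 := n_v6_v7.symm
  replace n_v6_u : v6 ≠ u := n_v6_u
  have n_u_v6 : u ≠ v6 := n_v6_u.symm
  replace n_v6_w : v6 ≠ w := n_v6_w
  have n_w_v6 : w ≠ v6 := n_v6_w.symm
  replace n_v7_u : v7 ≠ u := n_v7_u
  have n_u_v7 : u ≠ v7 := n_v7_u.symm
  replace n_v7_w : v7 ≠ w := n_v7_w
  have n_w_v7 : w ≠ v7 := n_v7_w.symm
  replace n_u_w : u ≠ w := n_u_w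
  have n_w_u : w ≠ u := n_u_w.symm
  have w_v0 : v0 ∈ V := hV _ (by simp only [mem_insert, mem_singleton, true_or, or_true])
  have w_v1 : v1 ∈ V := hV _ (by simp only [mem_insert, mem_singleton, true_or, or_true])
  have w_v2 : v2 ∈ V := hV _ (by simp only [mem_insert, mem_singleton, true_or, or_true])
  have w_v3 : v3 ∈ V := hV _ (by simp only [mem_insert, mem_singleton, true_or, or_true])
  have w_v4 : v4 ∈ V := hV _ (by simp only [mem_insert, mem_singleton, true_or, or_true])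
  have w_v5 : v5 ∈ V := hV _ (by simp only [mem_insert, mem_singleton, true_or, or_true])
  have w_v6 : v6 ∈ V := hV _ (by simp only [mem_insert, mem_singleton, true_or, or_true])
  have w_v7 : v7 ∈ V := hV _ (by simp only [mem_insert, mem_singleton, true_or, or_true])
  have w_u : u ∈ V := hV _ (by simp only [mem_insert, mem_singleton, true_or, or_true])
  have w_w : w ∈ V := hV _ (by simp only [mem_insert, mem_singleton, true_or, or_true])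
  exfalso
  exact deg3_fc hF bad (x := v5) t2 t3 tt (card_eq_three.2 ⟨v4, v5, v6, n_v4_v5, n_v4_v6, n_v5_v6, rfl⟩) (card_eq_three.2 ⟨v5, v6, v7, n_v5_v6, n_v5_v7, n_v6_v7, rfl⟩) (card_eq_three.2 ⟨v5, u, w, n_v5_u, n_v5_w, n_u_w, rfl⟩)
    (by simp only [insert_subset_iff, singleton_subset_iff]; exact ⟨w_v4, w_v5, w_v6⟩) (by simp only [insert_subset_iff, singleton_subset_iff]; exact ⟨w_v5, w_v6, w_v7⟩) (by simp only [insert_subset_iff, singleton_subset_iff]; exact ⟨w_v5, w_u, w_w⟩)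
    (by simp only [mem_insert, mem_singleton, true_or, or_true]) (by simp only [mem_insert, mem_singleton, true_or, or_true]) (by simp only [mem_insert, mem_singleton, true_or, or_true])
    (by
    intro he
    have h : v4 ∈ ({v5, v6, v7} : Finset α) := by
      rw [← he]; simp only [mem_insert, mem_singleton, true_or, or_true]
    simp only [mem_insert, mem_singleton] at h
    rcases h with h | h | h
    · exact n_v4_v5 h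
    · exact n_v4_v6 h
    · exact n_v4_v7 h)
    (by
    intro he
    have h : v4 ∈ ({v5, u, w} : Finset α) := by
      rw [← he]; simp only [mem_insert, mem_singleton, true_or, or_true]
    simp only [mem_insert, mem_singleton] at h
    rcases h with h | h | h
    · exact n_v4_v5 h
    · exact n_v4_u h
    · exact n_v4_w h)
    (by
    intro he
    have h : v6 ∈ ({v5, u, w} : Finset α) := by
      rw [← he]; simp only [mem_insert, mem_singleton, true_or, or_true]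
    simp only [mem_insert, mem_singleton] at h
    rcases h with h | h | h
    · exact n_v6_v5 h
    · exact n_v6_u h
    · exact n_v6_w h)

theorem ext_q4_6 {F : Finset (Finset α)} (hF : ∀ A ∈ F, ∀ B ∈ F, A ∪ B ∈ F) {V : Finset α}
    (bad : ∀ x ∈ V, ¬ F.card ≤ 2 * (F.filter (fun A => x ∈ A)).card)
    {v0 v1 v2 v3 v4 v5 v6 v7 u w : α} (nd : [v0, v1, v2, v3, v4, v5, v6, v7, u, w].Nodup)
    (t0 : ({v0, v1, v2} : Finset α) ∈ F)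
    (t1 : ({v2, v3, v4} : Finset α) ∈ F)
    (t2 : ({v4, v5, v6} : Finset α) ∈ F)
    (t3 : ({v5, v6, v7} : Finset α) ∈ F)
    (tt : ({v6, u, w} : Finset α) ∈ F)
    (hV : ∀ x ∈ ({v0, v1, v2, v3, v4, v5, v6, v7, u, w} : Finset α), x ∈ V)
    : Ty (insert {v6, u, w} ({{v0, v1, v2}, {v2, v3, v4}, {v4, v5, v6}, {v5, v6, v7}} : Finset (Finset α))) := by
  simp only [List.nodup_cons, List.mem_cons, List.not_mem_nil, not_or, not_false_eq_true,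
    and_true, or_false, List.nodup_nil] at nd
  obtain ⟨⟨n_v0_v1, n_v0_v2, n_v0_v3, n_v0_v4, n_v0_v5, n_v0_v6, n_v0_v7, n_v0_u, n_v0_w⟩, ⟨n_v1_v2, n_v1_v3, n_v1_v4, n_v1_v5, n_v1_v6, n_v1_v7, n_v1_u, n_v1_w⟩, ⟨n_v2_v3, n_v2_v4, n_v2_v5, n_v2_v6, n_v2_v7, n_v2_u, n_v2_w⟩, ⟨n_v3_v4, n_v3_v5, n_v3_v6, n_v3_v7, n_v3_u, n_v3_w⟩, ⟨n_v4_v5, n_v4_v6, n_v4_v7, n_v4_u, n_v4_w⟩, ⟨n_v5_v6, n_v5_v7, n_v5_u, n_v5_w⟩, ⟨n_v6_v7, n_v6_u, n_v6_w⟩, ⟨n_v7_u, n_v7_w⟩, n_u_w⟩ := nd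
  replace n_v0_v1 : v0 ≠ v1 := n_v0_v1
  have n_v1_v0 : v1 ≠ v0 := n_v0_v1.symm
  replace n_v0_v2 : v0 ≠ v2 := n_v0_v2
  have n_v2_v0 : v2 ≠ v0 := n_v0_v2.symm
  replace n_v0_v3 : v0 ≠ v3 := n_v0_v3
  have n_v3_v0 : v3 ≠ v0 := n_v0_v3.symm
  replace n_v0_v4 : v0 ≠ v4 := n_v0_v4
  have n_v4_v0 : v4 ≠ v0 := n_v0_v4.symm
  replace n_v0_v5 : v0 ≠ v5 := n_v0_v5
  have n_v5_v0 : v5 ≠ v0 := n_v0_v5.symm
  replace n_v0_v6 : v0 ≠ v6 := n_v0_v6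
  have n_v6_v0 : v6 ≠ v0 := n_v0_v6.symm
  replace n_v0_v7 : v0 ≠ v7 := n_v0_v7
  have n_v7_v0 : v7 ≠ v0 := n_v0_v7.symm
  replace n_v0_u : v0 ≠ u := n_v0_u
  have n_u_v0 : u ≠ v0 := n_v0_u.symm
  replace n_v0_w : v0 ≠ w := n_v0_w
  have n_w_v0 : w ≠ v0 := n_v0_w.symm
  replace n_v1_v2 : v1 ≠ v2 := n_v1_v2
  have n_v2_v1 : v2 ≠ v1 := n_v1_v2.symm
  replace n_v1_v3 : v1 ≠ v3 := n_v1_v3
  have n_v3_v1 : v3 ≠ v1 := n_v1_v3.symm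
  replace n_v1_v4 : v1 ≠ v4 := n_v1_v4
  have n_v4_v1 : v4 ≠ v1 := n_v1_v4.symm
  replace n_v1_v5 : v1 ≠ v5 := n_v1_v5
  have n_v5_v1 : v5 ≠ v1 := n_v1_v5.symm
  replace n_v1_v6 : v1 ≠ v6 := n_v1_v6
  have n_v6_v1 : v6 ≠ v1 := n_v1_v6.symm
  replace n_v1_v7 : v1 ≠ v7 := n_v1_v7
  have n_v7_v1 : v7 ≠ v1 := n_v1_v7.symm
  replace n_v1_u : v1 ≠ u := n_v1_u
  have n_u_v1 : u ≠ v1 := n_v1_u.symm
  replace n_v1_w : v1 ≠ w := n_v1_w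
  have n_w_v1 : w ≠ v1 := n_v1_w.symm
  replace n_v2_v3 : v2 ≠ v3 := n_v2_v3
  have n_v3_v2 : v3 ≠ v2 := n_v2_v3.symm
  replace n_v2_v4 : v2 ≠ v4 := n_v2_v4
  have n_v4_v2 : v4 ≠ v2 := n_v2_v4.symm
  replace n_v2_v5 : v2 ≠ v5 := n_v2_v5
  have n_v5_v2 : v5 ≠ v2 := n_v2_v5.symm
  replace n_v2_v6 : v2 ≠ v6 := n_v2_v6
  have n_v6_v2 : v6 ≠ v2 := n_v2_v6.symm
  replace n_v2_v7 : v2 ≠ v7 := n_v2_v7
  have n_v7_v2 : v7 ≠ v2 := n_v2_v7.symm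
  replace n_v2_u : v2 ≠ u := n_v2_u
  have n_u_v2 : u ≠ v2 := n_v2_u.symm
  replace n_v2_w : v2 ≠ w := n_v2_w
  have n_w_v2 : w ≠ v2 := n_v2_w.symm
  replace n_v3_v4 : v3 ≠ v4 := n_v3_v4
  have n_v4_v3 : v4 ≠ v3 := n_v3_v4.symm
  replace n_v3_v5 : v3 ≠ v5 := n_v3_v5
  have n_v5_v3 : v5 ≠ v3 := n_v3_v5.symm
  replace n_v3_v6 : v3 ≠ v6 := n_v3_v6
  have n_v6_v3 : v6 ≠ v3 := n_v3_v6.symm
  replace n_v3_v7 : v3 ≠ v7 := n_v3_v7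
  have n_v7_v3 : v7 ≠ v3 := n_v3_v7.symm
  replace n_v3_u : v3 ≠ u := n_v3_u
  have n_u_v3 : u ≠ v3 := n_v3_u.symm
  replace n_v3_w : v3 ≠ w := n_v3_w
  have n_w_v3 : w ≠ v3 := n_v3_w.symm
  replace n_v4_v5 : v4 ≠ v5 := n_v4_v5
  have n_v5_v4 : v5 ≠ v4 := n_v4_v5.symm
  replace n_v4_v6 : v4 ≠ v6 := n_v4_v6
  have n_v6_v4 : v6 ≠ v4 := n_v4_v6.symm
  replace n_v4_v7 : v4 ≠ v7 := n_v4_v7
  have n_v7_v4 : v7 ≠ v4 := n_v4_v7.symm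
  replace n_v4_u : v4 ≠ u := n_v4_u
  have n_u_v4 : u ≠ v4 := n_v4_u.symm
  replace n_v4_w : v4 ≠ w := n_v4_w
  have n_w_v4 : w ≠ v4 := n_v4_w.symm
  replace n_v5_v6 : v5 ≠ v6 := n_v5_v6
  have n_v6_v5 : v6 ≠ v5 := n_v5_v6.symm
  replace n_v5_v7 : v5 ≠ v7 := n_v5_v7
  have n_v7_v5 : v7 ≠ v5 := n_v5_v7.symm
  replace n_v5_u : v5 ≠ u := n_v5_u
  have n_u_v5 : u ≠ v5 := n_v5_u.symm
  replace n_v5_w : v5 ≠ w := n_v5_w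
  have n_w_v5 : w ≠ v5 := n_v5_w.symm
  replace n_v6_v7 : v6 ≠ v7 := n_v6_v7
  have n_v7_v6 : v7 ≠ v6 := n_v6_v7.symm
  replace n_v6_u : v6 ≠ u := n_v6_u
  have n_u_v6 : u ≠ v6 := n_v6_u.symm
  replace n_v6_w : v6 ≠ w := n_v6_w
  have n_w_v6 : w ≠ v6 := n_v6_w.symm
  replace n_v7_u : v7 ≠ u := n_v7_u
  have n_u_v7 : u ≠ v7 := n_v7_u.symm
  replace n_v7_w : v7 ≠ w := n_v7_w
  have n_w_v7 : w ≠ v7 := n_v7_w.symm
  replace n_u_w : u ≠ w := n_u_w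
  have n_w_u : w ≠ u := n_u_w.symm
  have w_v0 : v0 ∈ V := hV _ (by simp only [mem_insert, mem_singleton, true_or, or_true])
  have w_v1 : v1 ∈ V := hV _ (by simp only [mem_insert, mem_singleton, true_or, or_true])
  have w_v2 : v2 ∈ V := hV _ (by simp only [mem_insert, mem_singleton, true_or, or_true])
  have w_v3 : v3 ∈ V := hV _ (by simp only [mem_insert, mem_singleton, true_or, or_true])
  have w_v4 : v4 ∈ V := hV _ (by simp only [mem_insert, mem_singleton, true_or, or_true])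
  have w_v5 : v5 ∈ V := hV _ (by simp only [mem_insert, mem_singleton, true_or, or_true])
  have w_v6 : v6 ∈ V := hV _ (by simp only [mem_insert, mem_singleton, true_or, or_true])
  have w_v7 : v7 ∈ V := hV _ (by simp only [mem_insert, mem_singleton, true_or, or_true])
  have w_u : u ∈ V := hV _ (by simp only [mem_insert, mem_singleton, true_or, or_true])
  have w_w : w ∈ V := hV _ (by simp only [mem_insert, mem_singleton, true_or, or_true])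
  exfalso
  exact deg3_fc hF bad (x := v6) t2 t3 tt (card_eq_three.2 ⟨v4, v5, v6, n_v4_v5, n_v4_v6, n_v5_v6, rfl⟩) (card_eq_three.2 ⟨v5, v6, v7, n_v5_v6, n_v5_v7, n_v6_v7, rfl⟩) (card_eq_three.2 ⟨v6, u, w, n_v6_u, n_v6_w, n_u_w, rfl⟩)
    (by simp only [insert_subset_iff, singleton_subset_iff]; exact ⟨w_v4, w_v5, w_v6⟩) (by simp only [insert_subset_iff, singleton_subset_iff]; exact ⟨w_v5, w_v6, w_v7⟩) (by simp only [insert_subset_iff, singleton_subset_iff]; exact ⟨w_v6, w_u, w_w⟩)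
    (by simp only [mem_insert, mem_singleton, true_or, or_true]) (by simp only [mem_insert, mem_singleton, true_or, or_true]) (by simp only [mem_insert, mem_singleton, true_or, or_true])
    (by
    intro he
    have h : v4 ∈ ({v5, v6, v7} : Finset α) := by
      rw [← he]; simp only [mem_insert, mem_singleton, true_or, or_true]
    simp only [mem_insert, mem_singleton] at h
    rcases h with h | h | h
    · exact n_v4_v5 h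
    · exact n_v4_v6 h
    · exact n_v4_v7 h)
    (by
    intro he
    have h : v4 ∈ ({v6, u, w} : Finset α) := by
      rw [← he]; simp only [mem_insert, mem_singleton, true_or, or_true]
    simp only [mem_insert, mem_singleton] at h
    rcases h with h | h | h
    · exact n_v4_v6 h
    · exact n_v4_u h
    · exact n_v4_w h)
    (by
    intro he
    have h : v5 ∈ ({v6, u, w} : Finset α) := by
      rw [← he]; simp only [mem_insert, mem_singleton, true_or, or_true]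
    simp only [mem_insert, mem_singleton] at h
    rcases h with h | h | h
    · exact n_v5_v6 h
    · exact n_v5_u h
    · exact n_v5_w h)

theorem ext_q4_7 {F : Finset (Finset α)} (hF : ∀ A ∈ F, ∀ B ∈ F, A ∪ B ∈ F) {V : Finset α}
    (bad : ∀ x ∈ V, ¬ F.card ≤ 2 * (F.filter (fun A => x ∈ A)).card)
    {v0 v1 v2 v3 v4 v5 v6 v7 u w : α} (nd : [v0, v1, v2, v3, v4, v5, v6, v7, u, w].Nodup)
    (t0 : ({v0, v1, v2} : Finset α) ∈ F)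
    (t1 : ({v2, v3, v4} : Finset α) ∈ F)
    (t2 : ({v4, v5, v6} : Finset α) ∈ F)
    (t3 : ({v5, v6, v7} : Finset α) ∈ F)
    (tt : ({v7, u, w} : Finset α) ∈ F)
    (hV : ∀ x ∈ ({v0, v1, v2, v3, v4, v5, v6, v7, u, w} : Finset α), x ∈ V)
    : Ty (insert {v7, u, w} ({{v0, v1, v2}, {v2, v3, v4}, {v4, v5, v6}, {v5, v6, v7}} : Finset (Finset α))) := by
  simp only [List.nodup_cons, List.mem_cons, List.not_mem_nil, not_or, not_false_eq_true,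
    and_true, or_false, List.nodup_nil] at nd
  obtain ⟨⟨n_v0_v1, n_v0_v2, n_v0_v3, n_v0_v4, n_v0_v5, n_v0_v6, n_v0_v7, n_v0_u, n_v0_w⟩, ⟨n_v1_v2, n_v1_v3, n_v1_v4, n_v1_v5, n_v1_v6, n_v1_v7, n_v1_u, n_v1_w⟩, ⟨n_v2_v3, n_v2_v4, n_v2_v5, n_v2_v6, n_v2_v7, n_v2_u, n_v2_w⟩, ⟨n_v3_v4, n_v3_v5, n_v3_v6, n_v3_v7, n_v3_u, n_v3_w⟩, ⟨n_v4_v5, n_v4_v6, n_v4_v7, n_v4_u, n_v4_w⟩, ⟨n_v5_v6, n_v5_v7, n_v5_u, n_v5_w⟩, ⟨n_v6_v7, n_v6_u, n_v6_w⟩, ⟨n_v7_u, n_v7_w⟩, n_u_w⟩ := nd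
  replace n_v0_v1 : v0 ≠ v1 := n_v0_v1
  have n_v1_v0 : v1 ≠ v0 := n_v0_v1.symm
  replace n_v0_v2 : v0 ≠ v2 := n_v0_v2
  have n_v2_v0 : v2 ≠ v0 := n_v0_v2.symm
  replace n_v0_v3 : v0 ≠ v3 := n_v0_v3
  have n_v3_v0 : v3 ≠ v0 := n_v0_v3.symm
  replace n_v0_v4 : v0 ≠ v4 := n_v0_v4
  have n_v4_v0 : v4 ≠ v0 := n_v0_v4.symm
  replace n_v0_v5 : v0 ≠ v5 := n_v0_v5
  have n_v5_v0 : v5 ≠ v0 := n_v0_v5.symm
  replace n_v0_v6 : v0 ≠ v6 := n_v0_v6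
  have n_v6_v0 : v6 ≠ v0 := n_v0_v6.symm
  replace n_v0_v7 : v0 ≠ v7 := n_v0_v7
  have n_v7_v0 : v7 ≠ v0 := n_v0_v7.symm
  replace n_v0_u : v0 ≠ u := n_v0_u
  have n_u_v0 : u ≠ v0 := n_v0_u.symm
  replace n_v0_w : v0 ≠ w := n_v0_w
  have n_w_v0 : w ≠ v0 := n_v0_w.symm
  replace n_v1_v2 : v1 ≠ v2 := n_v1_v2
  have n_v2_v1 : v2 ≠ v1 := n_v1_v2.symm
  replace n_v1_v3 : v1 ≠ v3 := n_v1_v3
  have n_v3_v1 : v3 ≠ v1 := n_v1_v3.symm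
  replace n_v1_v4 : v1 ≠ v4 := n_v1_v4
  have n_v4_v1 : v4 ≠ v1 := n_v1_v4.symm
  replace n_v1_v5 : v1 ≠ v5 := n_v1_v5
  have n_v5_v1 : v5 ≠ v1 := n_v1_v5.symm
  replace n_v1_v6 : v1 ≠ v6 := n_v1_v6
  have n_v6_v1 : v6 ≠ v1 := n_v1_v6.symm
  replace n_v1_v7 : v1 ≠ v7 := n_v1_v7
  have n_v7_v1 : v7 ≠ v1 := n_v1_v7.symm
  replace n_v1_u : v1 ≠ u := n_v1_u
  have n_u_v1 : u ≠ v1 := n_v1_u.symm
  replace n_v1_w : v1 ≠ w := n_v1_w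
  have n_w_v1 : w ≠ v1 := n_v1_w.symm
  replace n_v2_v3 : v2 ≠ v3 := n_v2_v3
  have n_v3_v2 : v3 ≠ v2 := n_v2_v3.symm
  replace n_v2_v4 : v2 ≠ v4 := n_v2_v4
  have n_v4_v2 : v4 ≠ v2 := n_v2_v4.symm
  replace n_v2_v5 : v2 ≠ v5 := n_v2_v5
  have n_v5_v2 : v5 ≠ v2 := n_v2_v5.symm
  replace n_v2_v6 : v2 ≠ v6 := n_v2_v6
  have n_v6_v2 : v6 ≠ v2 := n_v2_v6.symm
  replace n_v2_v7 : v2 ≠ v7 := n_v2_v7
  have n_v7_v2 : v7 ≠ v2 := n_v2_v7.symm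
  replace n_v2_u : v2 ≠ u := n_v2_u
  have n_u_v2 : u ≠ v2 := n_v2_u.symm
  replace n_v2_w : v2 ≠ w := n_v2_w
  have n_w_v2 : w ≠ v2 := n_v2_w.symm
  replace n_v3_v4 : v3 ≠ v4 := n_v3_v4
  have n_v4_v3 : v4 ≠ v3 := n_v3_v4.symm
  replace n_v3_v5 : v3 ≠ v5 := n_v3_v5
  have n_v5_v3 : v5 ≠ v3 := n_v3_v5.symm
  replace n_v3_v6 : v3 ≠ v6 := n_v3_v6
  have n_v6_v3 : v6 ≠ v3 := n_v3_v6.symm
  replace n_v3_v7 : v3 ≠ v7 := n_v3_v7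
  have n_v7_v3 : v7 ≠ v3 := n_v3_v7.symm
  replace n_v3_u : v3 ≠ u := n_v3_u
  have n_u_v3 : u ≠ v3 := n_v3_u.symm
  replace n_v3_w : v3 ≠ w := n_v3_w
  have n_w_v3 : w ≠ v3 := n_v3_w.symm
  replace n_v4_v5 : v4 ≠ v5 := n_v4_v5
  have n_v5_v4 : v5 ≠ v4 := n_v4_v5.symm
  replace n_v4_v6 : v4 ≠ v6 := n_v4_v6
  have n_v6_v4 : v6 ≠ v4 := n_v4_v6.symm
  replace n_v4_v7 : v4 ≠ v7 := n_v4_v7
  have n_v7_v4 : v7 ≠ v4 := n_v4_v7.symm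
  replace n_v4_u : v4 ≠ u := n_v4_u
  have n_u_v4 : u ≠ v4 := n_v4_u.symm
  replace n_v4_w : v4 ≠ w := n_v4_w
  have n_w_v4 : w ≠ v4 := n_v4_w.symm
  replace n_v5_v6 : v5 ≠ v6 := n_v5_v6
  have n_v6_v5 : v6 ≠ v5 := n_v5_v6.symm
  replace n_v5_v7 : v5 ≠ v7 := n_v5_v7
  have n_v7_v5 : v7 ≠ v5 := n_v5_v7.symm
  replace n_v5_u : v5 ≠ u := n_v5_u
  have n_u_v5 : u ≠ v5 := n_v5_u.symm
  replace n_v5_w : v5 ≠ w := n_v5_w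
  have n_w_v5 : w ≠ v5 := n_v5_w.symm
  replace n_v6_v7 : v6 ≠ v7 := n_v6_v7
  have n_v7_v6 : v7 ≠ v6 := n_v6_v7.symm
  replace n_v6_u : v6 ≠ u := n_v6_u
  have n_u_v6 : u ≠ v6 := n_v6_u.symm
  replace n_v6_w : v6 ≠ w := n_v6_w
  have n_w_v6 : w ≠ v6 := n_v6_w.symm
  replace n_v7_u : v7 ≠ u := n_v7_u
  have n_u_v7 : u ≠ v7 := n_v7_u.symm
  replace n_v7_w : v7 ≠ w := n_v7_w
  have n_w_v7 : w ≠ v7 := n_v7_w.symm
  replace n_u_w : u ≠ w := n_u_w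
  have n_w_u : w ≠ u := n_u_w.symm
  have w_v0 : v0 ∈ V := hV _ (by simp only [mem_insert, mem_singleton, true_or, or_true])
  have w_v1 : v1 ∈ V := hV _ (by simp only [mem_insert, mem_singleton, true_or, or_true])
  have w_v2 : v2 ∈ V := hV _ (by simp only [mem_insert, mem_singleton, true_or, or_true])
  have w_v3 : v3 ∈ V := hV _ (by simp only [mem_insert, mem_singleton, true_or, or_true])
  have w_v4 : v4 ∈ V := hV _ (by simp only [mem_insert, mem_singleton, true_or, or_true])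
  have w_v5 : v5 ∈ V := hV _ (by simp only [mem_insert, mem_singleton, true_or, or_true])
  have w_v6 : v6 ∈ V := hV _ (by simp only [mem_insert, mem_singleton, true_or, or_true])
  have w_v7 : v7 ∈ V := hV _ (by simp only [mem_insert, mem_singleton, true_or, or_true])
  have w_u : u ∈ V := hV _ (by simp only [mem_insert, mem_singleton, true_or, or_true])
  have w_w : w ∈ V := hV _ (by simp only [mem_insert, mem_singleton, true_or, or_true])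
  exfalso
  obtain ⟨x, hx, h⟩ := cfg_mid hF (by
    simp only [List.nodup_cons, List.mem_cons, List.not_mem_nil, not_or, not_false_eq_true,
    and_true, or_false, List.nodup_nil]
    exact ⟨⟨n_v2_v3, n_v2_v4, n_v2_v5, n_v2_v6, n_v2_v7, n_v2_u, n_v2_w⟩, ⟨n_v3_v4, n_v3_v5, n_v3_v6, n_v3_v7, n_v3_u, n_v3_w⟩, ⟨n_v4_v5, n_v4_v6, n_v4_v7, n_v4_u, n_v4_w⟩, ⟨n_v5_v6, n_v5_v7, n_v5_u, n_v5_w⟩, ⟨n_v6_v7, n_v6_u, n_v6_w⟩, ⟨n_v7_u, n_v7_w⟩, n_u_w⟩)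
    (by rw [perm_012 v2 v3 v4]; exact t1) (by rw [perm_012 v4 v5 v6]; exact t2) (by rw [perm_012 v5 v6 v7]; exact t3) (by rw [perm_012 v7 u w]; exact tt)
  refine bad x ?_ h
  simp only [mem_insert, mem_singleton] at hx
  rcases hx with hx | hx | hx | hx | hx | hx | hx | hx <;>
  · rw [hx]; assumption

end Pool.Agent.H61.FC
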