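import Pool.Agent.H61.Low2

set_option autoImplicit false
set_option linter.all false

/-!
# The number of `k`-sets which force a frequent element
-/

namespace Pool.Agent.H61.FC

open Finset Filter Asymptotics Topology

section

variable {α : Type*} [DecidableEq α]

/-- the upper bound for all `k ≥ 3` -/
theorem upper_all {k : ℕ} (hk : 3 ≤ k) : ∃ K : ℕ, ∀ (N : Finset α) (F : Finset (Finset α)),
    (∀ A ∈ F, ∀ B ∈ F, A ∪ B ∈ F) →
    N.card.choose (k - 2) + K * N.card ^ (k - 3) <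
      2 * (F.filter (fun A => A ⊆ N ∧ A.card = k)).card →
    ∃ x ∈ N, F.card ≤ 2 * (F.filter (fun A => x ∈ A)).card := by
  rcases Nat.eq_or_lt_of_le hk with rfl | hk4
  · refine ⟨0, fun N F hF h => ?_⟩
    by_contra hcon
    push Not at hcon
    have h1 := upper3 (G := F.filter (fun A => A.card = 3)) (fun B hB => (mem_filter.1 hB).2) hF
      (filter_subset _ _) N.card N rfl (fun x hx h => by have := hcon x hx; omega)
    unfold ins at h1
    rw [filter_filter] at h1
    have e : F.filter (fun A => A.card = 3 ∧ A ⊆ N) = F.filter (fun A => A ⊆ N ∧ A.card = 3) := by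
      congr 1; ext A; exact and_comm
    rw [e] at h1
    simp only [Nat.sub_self, pow_zero, Nat.choose_one_right, show 3 - 2 = 1 from rfl] at h
    omega
  · refine ⟨2 * (MM k * k) ^ 3 + 1, fun N F hF h => ?_⟩
    by_contra hcon
    push Not at hcon
    have h1 := upper4 (G := F.filter (fun A => A.card = k)) (k := k) hk4
      (fun B hB => (mem_filter.1 hB).2) hF (filter_subset _ _) N.card N.card N rfl le_rfl
      (fun x hx h => by have := hcon x hx; omega)
    unfold ins at h1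
    rw [filter_filter] at h1
    have e : F.filter (fun A => A.card = k ∧ A ⊆ N) = F.filter (fun A => A ⊆ N ∧ A.card = k) := by
      congr 1; ext A; exact and_comm
    rw [e, mul_assoc, ← pow_succ] at h1
    have e2 : k - 4 + 1 = k - 3 := by omega
    rw [e2] at h1
    omega

/-- the exact upper bound for triples -/
theorem upper_three (N : Finset α) (F : Finset (Finset α)) (hF : ∀ A ∈ F, ∀ B ∈ F, A ∪ B ∈ F)
    (h : N.card < 2 * (F.filter (fun A => A ⊆ N ∧ A.card = 3)).card) :
    ∃ x ∈ N, F.card ≤ 2 * (F.filter (fun A => x ∈ A)).card := by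
  by_contra hcon
  push Not at hcon
  have h1 := upper3 (G := F.filter (fun A => A.card = 3)) (fun B hB => (mem_filter.1 hB).2) hF
    (filter_subset _ _) N.card N rfl (fun x hx h => by have := hcon x hx; omega)
  unfold ins at h1
  rw [filter_filter] at h1
  have e : F.filter (fun A => A.card = 3 ∧ A ⊆ N) = F.filter (fun A => A ⊆ N ∧ A.card = 3) := by
    congr 1; ext A; exact and_comm
  rw [e] at h1
  omega

theorem lower_of {k : ℕ} [Infinite α] {S : Finset α} {G : Finset (Finset α)}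
    (hG : ∀ B ∈ G, B ⊆ S ∧ B.card = k) (h : NW S G) :
    ∃ F : Finset (Finset α), (∀ A ∈ F, ∀ B ∈ F, A ∪ B ∈ F) ∧
      G.card ≤ (F.filter (fun A => A ⊆ S ∧ A.card = k)).card ∧
      ∀ x ∈ S, 2 * (F.filter (fun A => x ∈ A)).card < F.card := by
  obtain ⟨F, h1, h2, h3⟩ := exists_of_NW (fun B hB => (hG B hB).1) h
  refine ⟨F, h1, card_le_card ?_, h3⟩
  intro B hB
  exact mem_filter.2 ⟨h2 hB, hG B hB⟩

end

theorem tendsto_half {j : ℕ} {f : ℕ → ℕ} {K : ℕ}
    (h : ∀ n ≥ 1, |2 * (f n : ℤ) - (n.choose (j + 1) : ℤ)| ≤ K * (n : ℤ) ^ j) :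
    Tendsto (fun n : ℕ => (f n : ℝ) / (n.choose (j + 1) : ℝ)) atTop (𝓝 (1 / 2)) := by
  have hO : (fun n : ℕ => ((n : ℝ) ^ (j + 1))) =O[atTop] fun n : ℕ => (n.choose (j + 1) : ℝ) :=
    (isTheta_choose (j + 1)).2
  have hlo : (fun n : ℕ => ((n : ℝ) ^ j)) =o[atTop] fun n : ℕ => ((n : ℝ) ^ (j + 1)) := by
    have h1 := (isLittleO_pow_pow_atTop_of_lt (𝕜 := ℝ) (Nat.lt_succ_self j))
    exact h1.comp_tendsto tendsto_natCast_atTop_atTop
  have h1 : (fun n : ℕ => (f n : ℝ) - (n.choose (j + 1) : ℝ) / 2) =o[atTop]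
      fun n : ℕ => (n.choose (j + 1) : ℝ) := by
    refine IsBigO.trans_isLittleO ?_ (hlo.trans_isBigO hO)
    refine IsBigO.of_bound (K : ℝ) ?_
    filter_upwards [eventually_ge_atTop 1] with n hn
    have h2 := h n hn
    have h3 : |2 * (f n : ℝ) - (n.choose (j + 1) : ℝ)| ≤ K * (n : ℝ) ^ j := by exact_mod_cast h2
    have hK : (0 : ℝ) ≤ K * (n : ℝ) ^ j := by positivity
    rw [Real.norm_eq_abs, Real.norm_of_nonneg (by positivity)]
    have h4 : (f n : ℝ) - (n.choose (j + 1) : ℝ) / 2 =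
        (2 * (f n : ℝ) - (n.choose (j + 1) : ℝ)) / 2 := by ring
    rw [h4, abs_div, abs_two]
    linarith
  have h2 := h1.tendsto_div_nhds_zero
  have h3 : Tendsto (fun n : ℕ => ((f n : ℝ) - (n.choose (j + 1) : ℝ) / 2) /
      (n.choose (j + 1) : ℝ) + 1 / 2) atTop (𝓝 (0 + 1 / 2)) := h2.add_const _
  rw [zero_add] at h3
  refine h3.congr' ?_
  filter_upwards [eventually_ge_atTop (j + 1)] with n hn
  have h4 : (0 : ℝ) < (n.choose (j + 1) : ℝ) := by exact_mod_cast Nat.choose_pos hn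
  field_simp
  ring

end Pool.Agent.H61.FC
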