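import Pool.Agent.H61.NWTy

set_option autoImplicit false
set_option linter.all false

/-!
# Disjoint unions
-/

namespace Pool.Agent.H61.FC

open Finset

variable {α : Type*} [DecidableEq α]

theorem card_tr2 {S₁ R : Finset α} (hR : Disjoint S₁ R)
    {𝒜 : Finset (Finset α)} (h𝒜 : ∀ A ∈ 𝒜, A ⊆ S₁) :
    ((𝒜 ×ˢ R.powerset).image (fun p => p.1 ∪ p.2)).card = 𝒜.card * 2 ^ R.card := by
  rw [card_image_of_injOn, card_product, card_powerset]
  intro p hp q hq hpq
  have hp' := mem_product.1 (Finset.mem_coe.1 hp)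
  have hq' := mem_product.1 (Finset.mem_coe.1 hq)
  have hp2 := mem_powerset.1 hp'.2
  have hq2 := mem_powerset.1 hq'.2
  have hp1 := h𝒜 _ hp'.1
  have hq1 := h𝒜 _ hq'.1
  have hpq' : p.1 ∪ p.2 = q.1 ∪ q.2 := hpq
  have key : ∀ {A B C D : Finset α}, A ⊆ S₁ → B ⊆ R → C ⊆ S₁ → D ⊆ R → A ∪ B = C ∪ D →
      A ⊆ C ∧ B ⊆ D := by
    intro A B C D hA hB hC hD h
    constructor
    · intro t ht
      have : t ∈ C ∪ D := by rw [← h]; exact mem_union_left _ ht
      exact (mem_union.1 this).resolve_right (fun h' => disjoint_left.1 hR (hA ht) (hD h'))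
    · intro t ht
      have : t ∈ C ∪ D := by rw [← h]; exact mem_union_right _ ht
      exact (mem_union.1 this).resolve_left (fun h' => disjoint_left.1 hR (hC h') (hB ht))
  obtain ⟨a1, a2⟩ := key hp1 hp2 hq1 hq2 hpq'
  obtain ⟨b1, b2⟩ := key hq1 hq2 hp1 hp2 hpq'.symm
  exact Prod.ext (a1.antisymm b1) (a2.antisymm b2)

theorem Crit_restrict {S₁ S₂ : Finset α} {G G₁ : Finset (Finset α)} {c : α → ℝ}
    (hdis : Disjoint S₁ S₂) (hc : Crit (S₁ ∪ S₂) G c)
    (hG : ∀ B ∈ G, ∀ x ∈ S₁, x ∈ B → B ∈ G₁ ∧ B ⊆ S₁) : Crit S₁ G₁ c := by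
  intro x hx 𝒟 hD hDs hv
  have hxS2 : x ∉ S₂ := fun h => disjoint_left.1 hdis hx h
  have hDS : ∀ D ∈ 𝒟, D ⊆ S₁ := fun D hD' => (hDs D hD').trans (erase_subset _ _)
  set 𝒟' := (𝒟 ×ˢ S₂.powerset).image (fun p => p.1 ∪ p.2) with h𝒟
  have hmem : ∀ D, D ∈ 𝒟' ↔ ∃ A ∈ 𝒟, ∃ B, B ⊆ S₂ ∧ A ∪ B = D := by
    intro D
    rw [h𝒟, mem_image]
    constructor
    · rintro ⟨⟨A, B⟩, hAB, rfl⟩
      rw [mem_product, mem_powerset] at hAB
      exact ⟨A, hAB.1, B, hAB.2, rfl⟩
    · rintro ⟨A, hA, B, hB, rfl⟩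
      exact ⟨(A, B), by rw [mem_product, mem_powerset]; exact ⟨hA, hB⟩, rfl⟩
  have hcard : (𝒟'.card : ℝ) = 𝒟.card * 2 ^ S₂.card := by
    rw [h𝒟, card_tr2 hdis hDS]; push_cast; ring
  have hDn : Dn 𝒟' := by
    intro D hD1 D' hD'
    rw [hmem] at hD1 ⊢
    obtain ⟨A, hA, B, hB, rfl⟩ := hD1
    refine ⟨A ∩ D', hD A hA _ inter_subset_left, B ∩ D', inter_subset_left.trans hB, ?_⟩
    rw [← union_inter_distrib_right, inter_eq_right]
    exact hD'
  have h1 := hc x (mem_union_left _ hx) 𝒟' hDn (by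
    intro D hD1
    rw [hmem] at hD1
    obtain ⟨A, hA, B, hB, rfl⟩ := hD1
    refine union_subset ((hDs A hA).trans (erase_subset_erase _ subset_union_left)) ?_
    intro t ht
    exact mem_erase.2 ⟨fun h => hxS2 (h ▸ hB ht), mem_union_right _ (hB ht)⟩) (by
    intro D hD1 B' hB' hxB hs
    rw [hmem] at hD1
    obtain ⟨A, hA, B, hB, rfl⟩ := hD1
    obtain ⟨g1, g2⟩ := hG B' hB' x hx hxB
    refine hv A hA B' g1 hxB ?_
    intro t ht
    exact (mem_union.1 (hs ht)).resolve_right (fun h =>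
      disjoint_left.1 hdis (g2 (erase_subset _ _ ht)) (hB h)))
  have hdR : ∀ k ∈ S₂, dg 𝒟' k = 0 := by
    intro k hk
    rw [← card_leave hDn]
    rw [Nat.cast_eq_zero, card_eq_zero, filter_eq_empty_iff]
    rintro D hD1 ⟨_, h2⟩
    apply h2
    rw [hmem] at hD1 ⊢
    obtain ⟨A, hA, B, hB, rfl⟩ := hD1
    refine ⟨A, hA, insert k B, insert_subset hk hB, ?_⟩
    rw [union_insert]
  have hde : ∀ j ∈ S₁, dg 𝒟' j = dg 𝒟 j * 2 ^ S₂.card := by
    intro j hj
    have h2 : 𝒟'.filter (fun D => j ∈ D) =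
        ((𝒟.filter (fun A => j ∈ A)) ×ˢ S₂.powerset).image (fun p => p.1 ∪ p.2) := by
      ext D
      rw [mem_filter, hmem, mem_image]
      constructor
      · rintro ⟨⟨A, hA, B, hB, rfl⟩, hjD⟩
        refine ⟨(A, B), ?_, rfl⟩
        rw [mem_product, mem_filter, mem_powerset]
        exact ⟨⟨hA, (mem_union.1 hjD).resolve_right (fun h => disjoint_left.1 hdis hj (hB h))⟩, hB⟩
      · rintro ⟨⟨A, B⟩, hAB, rfl⟩
        rw [mem_product, mem_filter, mem_powerset] at hAB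
        exact ⟨⟨A, hAB.1.1, B, hAB.2, rfl⟩, mem_union_left _ hAB.1.2⟩
    unfold dg
    rw [hcard, h2, card_tr2 hdis (fun A hA => hDS A (mem_filter.1 hA).1)]
    push_cast
    ring
  have hsplit : ∑ k ∈ (S₁ ∪ S₂).erase x, c k * dg 𝒟' k = ∑ k ∈ S₁.erase x, c k * dg 𝒟' k := by
    symm
    refine sum_subset (erase_subset_erase _ subset_union_left) ?_
    intro t ht hte
    have h4 := mem_erase.1 ht
    rcases mem_union.1 h4.2 with h5 | h5
    · exact absurd (mem_erase.2 ⟨h4.1, h5⟩) hte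
    · rw [hdR t h5, mul_zero]
  rw [hsplit, hcard] at h1
  have hp : (0 : ℝ) < 2 ^ S₂.card := by positivity
  have h3 : 2 ^ S₂.card * (c x * (𝒟.card : ℝ)) ≤ 2 ^ S₂.card * ∑ k ∈ S₁.erase x, c k * dg 𝒟 k := by
    rw [mul_sum]
    refine le_trans (le_of_eq (by ring)) (h1.trans (le_of_eq ?_))
    refine sum_congr rfl fun j hj => ?_
    rw [hde j (mem_of_mem_erase hj)]; ring
  exact le_of_mul_le_mul_left h3 hp

/-- disjoint unions -/
theorem NW_union {S₁ S₂ : Finset α} {G₁ G₂ : Finset (Finset α)} (hdis : Disjoint S₁ S₂)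
    (h1 : ∀ B ∈ G₁, B ⊆ S₁) (h2 : ∀ B ∈ G₂, B ⊆ S₂) (n1 : NW S₁ G₁) (n2 : NW S₂ G₂) :
    NW (S₁ ∪ S₂) (G₁ ∪ G₂) := by
  intro c hc0 hc x hx
  rcases mem_union.1 hx with hx | hx
  · refine n1 c hc0 (Crit_restrict hdis hc ?_) x hx
    intro B hB y hy hyB
    rcases mem_union.1 hB with hB | hB
    · exact ⟨hB, h1 B hB⟩
    · exact absurd (h2 B hB hyB) (fun h => disjoint_left.1 hdis hy h)
  · rw [union_comm S₁] at hc
    refine n2 c hc0 (Crit_restrict hdis.symm hc ?_) x hx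
    intro B hB y hy hyB
    rcases mem_union.1 hB with hB | hB
    · exact absurd (h1 B hB hyB) (fun h => disjoint_left.1 hdis h hy)
    · exact ⟨hB, h2 B hB⟩

theorem NW_Ty {P : Finset (Finset α)} (h : Ty P) : NW (P.biUnion id) P := by
  cases h with
  | p1 v0 v1 v2 h =>
    have := NW_p1 h
    convert this using 1
    ext t; simp only [mem_biUnion, mem_insert, mem_singleton, id, exists_eq_or_imp, exists_eq_left]
  | p2 v0 v1 v2 v3 v4 h =>
    have := NW_p2 h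
    convert this using 1
    ext t; simp only [mem_biUnion, mem_insert, mem_singleton, id, exists_eq_or_imp, exists_eq_left]
    tauto
  | p3 v0 v1 v2 v3 v4 v5 v6 h =>
    have := NW_p3 h
    convert this using 1
    ext t; simp only [mem_biUnion, mem_insert, mem_singleton, id, exists_eq_or_imp, exists_eq_left]
    tauto
  | p4 v0 v1 v2 v3 v4 v5 v6 v7 v8 h =>
    have := NW_p4 h
    convert this using 1
    ext t; simp only [mem_biUnion, mem_insert, mem_singleton, id, exists_eq_or_imp, exists_eq_left]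
    tauto
  | q2 v0 v1 v2 v3 h =>
    have := NW_q2 h
    convert this using 1
    ext t; simp only [mem_biUnion, mem_insert, mem_singleton, id, exists_eq_or_imp, exists_eq_left]
    tauto
  | q3 v0 v1 v2 v3 v4 v5 h =>
    have := NW_q3 h
    convert this using 1
    ext t; simp only [mem_biUnion, mem_insert, mem_singleton, id, exists_eq_or_imp, exists_eq_left]
    tauto
  | q4 v0 v1 v2 v3 v4 v5 v6 v7 h =>
    have := NW_q4 h
    convert this using 1
    ext t; simp only [mem_biUnion, mem_insert, mem_singleton, id, exists_eq_or_imp, exists_eq_left]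
    tauto

/-- a partition into components of the seven types -/
def Parts (G : Finset (Finset α)) : Prop :=
  ∃ 𝒬 : Finset (Finset (Finset α)), 𝒬.biUnion id = G ∧ (∀ P ∈ 𝒬, Ty P) ∧
    ∀ P ∈ 𝒬, ∀ P' ∈ 𝒬, P ≠ P' → ∀ T ∈ P, ∀ T' ∈ P', Disjoint T T'

theorem NW_parts (𝒬 : Finset (Finset (Finset α))) : (∀ P ∈ 𝒬, Ty P) →
    (∀ P ∈ 𝒬, ∀ P' ∈ 𝒬, P ≠ P' → ∀ T ∈ P, ∀ T' ∈ P', Disjoint T T') →
    NW ((𝒬.biUnion id).biUnion id) (𝒬.biUnion id) := by
  induction 𝒬 using Finset.induction_on with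
  | empty =>
    intro _ _ c _ _ x hx
    simp at hx
  | insert P 𝒬 hP ih =>
    intro h1 h2
    have h3 := ih (fun Q hQ => h1 Q (mem_insert_of_mem hQ))
      (fun Q hQ Q' hQ' => h2 Q (mem_insert_of_mem hQ) Q' (mem_insert_of_mem hQ'))
    rw [biUnion_insert, id, union_biUnion]
    refine NW_union ?_ ?_ ?_ (NW_Ty (h1 P (mem_insert_self _ _))) h3
    · rw [disjoint_left]
      intro t ht ht'
      obtain ⟨T, hT, htT⟩ := mem_biUnion.1 ht
      obtain ⟨T', hT', htT'⟩ := mem_biUnion.1 ht'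
      obtain ⟨Q, hQ, hTQ⟩ := mem_biUnion.1 hT'
      have hne : P ≠ Q := fun h => hP (h ▸ hQ)
      exact disjoint_left.1 (h2 P (mem_insert_self _ _) Q (mem_insert_of_mem hQ) hne T hT T' hTQ)
        htT htT'
    · intro B hB
      exact subset_biUnion_of_mem id hB
    · intro B hB
      exact subset_biUnion_of_mem id hB

end Pool.Agent.H61.FC
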