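import Pool.Agent.H61.PS7

set_option autoImplicit false
set_option linter.all false

/-!
# One strict local inequality, in terms of `dg`
-/

namespace Pool.Agent.H61.KS

open Finset Pool.Agent.H61.FC Pool.Agent.H61.PS Pool.Agent.N188.FC

variable {α : Type*} [DecidableEq α]

/-- the downsets that occur at `x` -/
def Val (G : Finset (Finset α)) (W : Finset α) (x : α) (𝒟 : Finset (Finset α)) : Prop :=
  Dn 𝒟 ∧ (∀ D ∈ 𝒟, D ⊆ W.erase x) ∧ ∀ D ∈ 𝒟, ∀ B ∈ G, x ∈ B → ¬ B.erase x ⊆ D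

/-- the local inequality -/
def Ineq (G : Finset (Finset α)) (W : Finset α) (c : α → ℝ) (x : α) : Prop :=
  ∀ 𝒟, Val G W x 𝒟 → c x * (𝒟.card : ℝ) ≤ ∑ k ∈ W.erase x, c k * dg 𝒟 k

/-- the strict local inequality -/
def SIneq (G : Finset (Finset α)) (W : Finset α) (c : α → ℝ) (x : α) : Prop :=
  ∀ 𝒟, Val G W x 𝒟 → 𝒟.Nonempty → c x * (𝒟.card : ℝ) < ∑ k ∈ W.erase x, c k * dg 𝒟 k

theorem factor_of_sineq {G : Finset (Finset α)} {W : Finset α} {c : α → ℝ} {x : α}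
    (hcx : 0 < c x) (h : SIneq G W c x) :
    ∃ l : ℝ, 1 < l ∧ ∀ 𝒟, Val G W x 𝒟 → l * c x * (𝒟.card : ℝ) ≤ ∑ k ∈ W.erase x, c k * dg 𝒟 k := by
  classical
  set 𝓥 : Finset (Finset (Finset α)) := (W.erase x).powerset.powerset.filter
    (fun 𝒟 => Val G W x 𝒟 ∧ 𝒟.Nonempty) with h𝓥
  have hmem : ∀ 𝒟, Val G W x 𝒟 → 𝒟.Nonempty → 𝒟 ∈ 𝓥 := by
    intro 𝒟 hv hne
    rw [h𝓥, mem_filter, mem_powerset]
    exact ⟨fun D hD => mem_powerset.2 (hv.2.1 D hD), hv, hne⟩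
  set φ : Finset (Finset α) → ℝ := fun 𝒟 => (∑ k ∈ W.erase x, c k * dg 𝒟 k) - c x * (𝒟.card : ℝ)
    with hφ
  have hδ : ∃ δ : ℝ, 0 < δ ∧ ∀ 𝒟 ∈ 𝓥, δ ≤ φ 𝒟 := by
    rcases 𝓥.eq_empty_or_nonempty with he | hne
    · exact ⟨1, one_pos, fun 𝒟 h => by rw [he] at h; simp at h⟩
    · obtain ⟨𝒟, h𝒟, hmin⟩ := exists_min_image 𝓥 φ hne
      refine ⟨φ 𝒟, ?_, fun 𝒟' h' => hmin 𝒟' h'⟩
      rw [h𝓥, mem_filter] at h𝒟
      have := h 𝒟 h𝒟.2.1 h𝒟.2.2
      simp only [hφ]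
      linarith
  obtain ⟨δ, hδ0, hδ⟩ := hδ
  set N : ℝ := ((W.erase x).powerset.card : ℝ) with hN
  have hN0 : 0 < N := by
    rw [hN]; exact_mod_cast card_pos.2 ⟨∅, empty_mem_powerset _⟩
  have hpos : 0 < δ / (c x * N) := by positivity
  refine ⟨1 + δ / (c x * N), by linarith, fun 𝒟 hv => ?_⟩
  rcases 𝒟.eq_empty_or_nonempty with he | hne
  · subst he
    simp [dg]
  have h1 := hδ 𝒟 (hmem 𝒟 hv hne)
  have h2 : (𝒟.card : ℝ) ≤ N := by
    rw [hN]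
    exact_mod_cast card_le_card (fun D hD => mem_powerset.2 (hv.2.1 D hD))
  simp only [hφ] at h1
  have h3 : (1 + δ / (c x * N)) * c x * (𝒟.card : ℝ) = c x * 𝒟.card + δ * (𝒟.card / N) := by
    field_simp
  have h4 : δ * ((𝒟.card : ℝ) / N) ≤ δ * 1 :=
    mul_le_mul_of_nonneg_left ((div_le_one hN0).2 h2) hδ0.le
  rw [h3]
  linarith

theorem isoW_of_ineq {G : Finset (Finset α)} {W : Finset α} {c : α → ℝ} {x : α} {l : ℝ}
    (hc0 : ∀ x, 0 ≤ c x) (hx : x ∈ W)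
    (h : ∀ 𝒟, Val G W x 𝒟 → l * c x * (𝒟.card : ℝ) ≤ ∑ k ∈ W.erase x, c k * dg 𝒟 k) :
    IsoW W (G.filter (fun B => B ⊆ W)) c l x := by
  refine isoW_of hc0 (fun 𝒟 hDs hD hv => ?_)
  have h1 := h 𝒟 ⟨hD, hDs, ?_⟩
  · have h2 := sum_leave hD (W.erase x) c
    rw [← h2] at h1
    exact h1
  · intro D hD' B hB hxB hs
    refine hv D hD' B (mem_filter.2 ⟨hB, ?_⟩) hxB ?_
    · intro t ht
      by_cases he : t = x
      · rw [he]; exact hx
      · exact (erase_subset _ _) (hDs D hD' (hs (mem_erase.2 ⟨he, ht⟩)))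
    · rw [← insert_erase hxB]
      exact insert_subset_insert _ hs

/-- one strict local inequality makes an element free -/
theorem free_of_sineq {F G : Finset (Finset α)} {W : Finset α} (hF : ∀ A ∈ F, ∀ B ∈ F, A ∪ B ∈ F)
    (hGF : G ⊆ F) {c : α → ℝ} (hc0 : ∀ x, 0 ≤ c x) (hc : ∀ x ∈ W, Ineq G W c x) {b : α} (hb : b ∈ W)
    (hcb : 0 < c b) (hs : SIneq G W c b)
    (hno : ∀ x ∈ W, 2 * (F.filter (fun A => x ∈ A)).card ≤ F.card) : Free F b := by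
  classical
  obtain ⟨l, hl1, hl⟩ := factor_of_sineq hcb hs
  refine strict_or_free (G := G.filter (fun B => B ⊆ W)) (S := W) (c := c)
    (l := fun x => if x = b then l else 1) hF (fun B hB => (mem_filter.1 hB).2)
    ((filter_subset _ _).trans hGF) hc0 ?_ ?_ ?_ hb ?_ hcb ?_
  · intro x
    show (0 : ℝ) ≤ if x = b then l else 1
    split_ifs <;> linarith
  · intro x _
    show (1 : ℝ) ≤ if x = b then l else 1
    split_ifs <;> linarith
  · intro w hw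
    show IsoW W (G.filter (fun B => B ⊆ W)) c (if w = b then l else 1) w
    by_cases h : w = b
    · subst h
      rw [if_pos rfl]
      convert isoW_of_ineq hc0 hw hl
    · rw [if_neg h]
      have := isoW_of_ineq (l := 1) hc0 hw (fun 𝒟 hv => by rw [one_mul]; exact hc w hw 𝒟 hv)
      convert this
  · show 1 < if b = b then l else 1
    rw [if_pos rfl]
    exact hl1
  · intro x hx
    convert hno x hx

end Pool.Agent.H61.KS
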