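import Pool.Agent.H61.KS1

set_option autoImplicit false
set_option linter.all false

/-!
# Local inequalities with slack
-/

namespace Pool.Agent.H61.KS

open Finset Pool.Agent.H61.FC Pool.Agent.H61.PS

variable {α : Type*} [DecidableEq α]

/-- the local inequality with slack in the directions outside `C` -/
def Slack (G : Finset (Finset α)) (W : Finset α) (c : α → ℝ) (x : α) (C : Finset α) : Prop :=
  ∀ 𝒟, Val G W x 𝒟 → c x * (𝒟.card : ℝ) + (1 / 48) * ∑ e ∈ (W.erase x) \ C, dg 𝒟 e ≤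
    ∑ k ∈ W.erase x, c k * dg 𝒟 k

variable {G : Finset (Finset α)} {W : Finset α} {c : α → ℝ} {x : α} {C : Finset α} {k : ℕ}

theorem Slack.ineq (h : Slack G W c x C) : Ineq G W c x := by
  intro 𝒟 hv
  have h1 := h 𝒟 hv
  have h2 : (0 : ℝ) ≤ ∑ e ∈ (W.erase x) \ C, dg 𝒟 e := sum_nonneg fun _ _ => dg_nonneg hv.1 _
  linarith

theorem full_of_dg {𝒟 : Finset (Finset α)} (h : Dn 𝒟) (hne : 𝒟.Nonempty) (S : Finset α)
    (h0 : ∀ e ∈ S, dg 𝒟 e = 0) : S ∈ 𝒟 := by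
  induction S using Finset.induction_on with
  | empty =>
    obtain ⟨D, hD⟩ := hne
    exact h D hD ∅ (empty_subset _)
  | insert e S he ih =>
    have h1 := ih (fun e he => h0 e (mem_insert_of_mem he))
    have h2 := card_leave h e
    rw [h0 e (mem_insert_self _ _)] at h2
    have h3 : (𝒟.filter (fun D => e ∉ D ∧ insert e D ∉ 𝒟)).card = 0 := by exact_mod_cast h2
    rw [card_eq_zero, filter_eq_empty_iff] at h3
    have h4 := h3 h1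
    by_contra h5
    exact h4 ⟨he, h5⟩

theorem Slack.sineq (h : Slack G W c x C) {B : Finset α} (hB : B ∈ G) (hxB : x ∈ B) (hBW : B ⊆ W)
    (hd : ∀ v ∈ C, v ∈ B → v = x) : SIneq G W c x := by
  intro 𝒟 hv hne
  have h1 := h 𝒟 hv
  have h2 : ∀ e ∈ (W.erase x) \ C, 0 ≤ dg 𝒟 e := fun _ _ => dg_nonneg hv.1 _
  have h3 := sum_nonneg h2
  rcases h3.lt_or_eq with h4 | h4
  · linarith
  · exfalso
    have h5 := (sum_eq_zero_iff_of_nonneg h2).1 h4.symm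
    have h6 := full_of_dg hv.1 hne _ h5
    refine hv.2.2 _ h6 B hB hxB ?_
    intro t ht
    rw [mem_erase] at ht
    rw [mem_sdiff, mem_erase]
    exact ⟨⟨ht.1, hBW ht.2⟩, fun hC => ht.1 (hd t hC ht.2)⟩

theorem slack_root1 (hG : ∀ B ∈ G, B.card = k) (hc : ∀ v, 4 / 3 ≤ c v) (hc3 : ∀ v, c v ≤ 3)
    (hr : Rich G W (MM k) {x}) : Slack G W c x ∅ := by
  intro 𝒟 hv
  have h := hv.1
  have hp : (0 : ℝ) < 2 ^ k := by positivity
  have hn : (0 : ℝ) ≤ 𝒟.card := Nat.cast_nonneg _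
  have hlow : ∀ S : Finset α, (4 / 3) * ∑ e ∈ S, dg 𝒟 e ≤ ∑ e ∈ S, c e * dg 𝒟 e := by
    intro S
    rw [mul_sum]
    exact sum_le_sum fun e _ => mul_le_mul_of_nonneg_right (hc e) (dg_nonneg h e)
  have h1 := rich_sum hG hr h (mem_singleton_self x) hv.2.2 ∅
  have h2 : up 𝒟 (({x} : Finset α).erase x) = 𝒟.card := by
    unfold up
    rw [filter_true_of_mem]
    intro D _
    simp
  rw [h2, card_empty, sdiff_empty, MM_cast] at h1
  push_cast at h1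
  rw [sdiff_empty]
  have h3 := hlow (W.erase x)
  have h5 : (48 * 2 ^ k) * (𝒟.card : ℝ) ≤ 2 ^ k * ∑ e ∈ W.erase x, dg 𝒟 e := by nlinarith
  have h6 : 2 ^ k * (48 * (𝒟.card : ℝ)) ≤ 2 ^ k * ∑ e ∈ W.erase x, dg 𝒟 e := by linarith
  have h7 := le_of_mul_le_mul_left h6 hp
  have h8 := mul_le_mul_of_nonneg_right (hc3 x) hn
  linarith

theorem slack_root2 (hG : ∀ B ∈ G, B.card = k) (hc : ∀ v, 4 / 3 ≤ c v) (hc3 : ∀ v, c v ≤ 3)
    {y : α} (hyx : y ≠ x) (hcy : c y = 3) (hr : Rich G W (MM k) {x, y}) : Slack G W c x {y} := by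
  intro 𝒟 hv
  have h := hv.1
  have hp : (0 : ℝ) < 2 ^ k := by positivity
  have hn : (0 : ℝ) ≤ 𝒟.card := Nat.cast_nonneg _
  have hlow : ∀ S : Finset α, (4 / 3) * ∑ e ∈ S, dg 𝒟 e ≤ ∑ e ∈ S, c e * dg 𝒟 e := by
    intro S
    rw [mul_sum]
    exact sum_le_sum fun e _ => mul_le_mul_of_nonneg_right (hc e) (dg_nonneg h e)
  have hyW : y ∈ W := hr.sub (by unfold MM; omega) (by simp)
  have h1 := rich_sum hG hr h (x := x) (by simp) hv.2.2 {y}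
  have h2 : ({x, y} : Finset α).erase x = {y} := by
    rw [erase_insert (by simpa using hyx.symm)]
  have h2' : up 𝒟 ({y} : Finset α) = (𝒟.filter (fun D => y ∈ D)).card := by
    unfold up
    congr 1
    ext D
    simp
  rw [h2, h2', card_singleton, MM_cast] at h1
  push_cast at h1
  have h3 := hlow ((W.erase x) \ {y})
  have hyW' : y ∈ W.erase x := mem_erase.2 ⟨hyx, hyW⟩
  rw [← erase_eq] at h3 h1 ⊢
  rw [← add_sum_erase (W.erase x) (fun k => c k * dg 𝒟 k) hyW', hcy]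
  have hny : (0 : ℝ) ≤ (𝒟.filter (fun D => y ∈ D)).card := Nat.cast_nonneg _
  have h5 : (48 * 2 ^ k) * ((𝒟.filter (fun D => y ∈ D)).card : ℝ) ≤
    2 ^ k * ∑ e ∈ (W.erase x).erase y, dg 𝒟 e := by nlinarith
  have h6 : 2 ^ k * (48 * ((𝒟.filter (fun D => y ∈ D)).card : ℝ)) ≤
    2 ^ k * ∑ e ∈ (W.erase x).erase y, dg 𝒟 e := by linarith
  have h7 := le_of_mul_le_mul_left h6 hp
  have h8 := mul_le_mul_of_nonneg_right (hc3 x) hn
  have h9 : dg 𝒟 y = (𝒟.card : ℝ) - 2 * ((𝒟.filter (fun D => y ∈ D)).card : ℝ) := rfl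
  rw [h9]
  linarith

theorem slack_nonroot (hG : ∀ B ∈ G, B.card = k) (hc : ∀ v, 4 / 3 ≤ c v) (hc3 : ∀ v, c v ≤ 3)
    {Q : Finset (Finset α)} (hQ : ∀ T ∈ Q, Rich G W (MM k) T) (hQ3 : Q.card ≤ 3)
    (hxQ : ∀ T ∈ Q, x ∈ T) (hCW : C ⊆ W) (hC6 : C.card ≤ 6) (hxC : x ∉ C)
    (hloc : ∀ 𝒟 : Finset (Finset α), Dn 𝒟 → (∀ D ∈ 𝒟, ∀ T ∈ Q, ¬ T.erase x ⊆ D) →
      c x * (𝒟.card : ℝ) ≤ ∑ k ∈ C, c k * dg 𝒟 k) : Slack G W c x C := by
  intro 𝒟 hvv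
  have h := hvv.1
  have hv := hvv.2.2
  have hp : (0 : ℝ) < 2 ^ k := by positivity
  set 𝒟₁ := 𝒟.filter (fun D => ∀ T ∈ Q, ¬ T.erase x ⊆ D) with h𝒟₁
  set 𝒟₂ := 𝒟.filter (fun D => ¬ ∀ T ∈ Q, ¬ T.erase x ⊆ D) with h𝒟₂
  have hcard : 𝒟₁.card + 𝒟₂.card = 𝒟.card := card_filter_add_card_filter_not _
  have hDn : Dn 𝒟₁ := by
    intro D hD D' hD'
    rw [mem_filter] at hD ⊢
    exact ⟨h D hD.1 D' hD', fun T hT hs => hD.2 T hT (hs.trans hD')⟩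
  have h1 := hloc 𝒟₁ hDn (fun D hD => (mem_filter.1 hD).2)
  have h2 : ∀ e, dg 𝒟₁ e - 𝒟₂.card ≤ dg 𝒟 e := by
    intro e
    have g1 : (𝒟.filter (fun D => e ∈ D)).card =
        (𝒟₁.filter (fun D => e ∈ D)).card + (𝒟₂.filter (fun D => e ∈ D)).card := by
      rw [← card_filter_add_card_filter_not (s := 𝒟.filter (fun D => e ∈ D))
        (fun D => ∀ T ∈ Q, ¬ T.erase x ⊆ D)]
      congr 2 <;>
      · ext D; simp only [h𝒟₁, h𝒟₂, mem_filter]; tauto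
    have g2 : (𝒟₂.filter (fun D => e ∈ D)).card ≤ 𝒟₂.card := card_filter_le _ _
    unfold dg
    have g3 : ((𝒟.filter (fun D => e ∈ D)).card : ℝ) =
        (𝒟₁.filter (fun D => e ∈ D)).card + (𝒟₂.filter (fun D => e ∈ D)).card := by
      exact_mod_cast g1
    have g4 : ((𝒟₂.filter (fun D => e ∈ D)).card : ℝ) ≤ 𝒟₂.card := by exact_mod_cast g2
    have g5 : (𝒟₁.card : ℝ) + 𝒟₂.card = 𝒟.card := by exact_mod_cast hcard
    rw [g3]
    linarith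
  have hup : (𝒟₂.card : ℝ) ≤ ∑ T ∈ Q, (up 𝒟 (T.erase x) : ℝ) := by
    have g1 : 𝒟₂ ⊆ Q.biUnion (fun T => 𝒟.filter (fun D => T.erase x ⊆ D)) := by
      intro D hD
      rw [mem_filter] at hD
      obtain ⟨hD1, hD2⟩ := hD
      push Not at hD2
      obtain ⟨T, hT, hs⟩ := hD2
      exact mem_biUnion.2 ⟨T, hT, mem_filter.2 ⟨hD1, hs⟩⟩
    have g2 := (card_le_card g1).trans card_biUnion_le
    exact_mod_cast g2
  have hT : ∀ T ∈ Q, (48 : ℝ) * (up 𝒟 (T.erase x) : ℝ) ≤ ∑ e ∈ (W.erase x) \ C, dg 𝒟 e := by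
    intro T hT
    have g1 := rich_sum hG (hQ T hT) h (hxQ T hT) hv C
    rw [MM_cast] at g1
    have g2 : (0 : ℝ) ≤ (up 𝒟 (T.erase x) : ℝ) := Nat.cast_nonneg _
    have g3 : (C.card : ℝ) ≤ 6 := by exact_mod_cast hC6
    have g4 : (48 * 2 ^ k) * (up 𝒟 (T.erase x) : ℝ) ≤
        2 ^ k * ∑ e ∈ (W.erase x) \ C, dg 𝒟 e := by
      refine le_trans ?_ g1
      apply mul_le_mul_of_nonneg_right _ g2
      linarith
    have g5 : 2 ^ k * (48 * (up 𝒟 (T.erase x) : ℝ)) ≤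
        2 ^ k * ∑ e ∈ (W.erase x) \ C, dg 𝒟 e := by linarith
    exact le_of_mul_le_mul_left g5 hp
  have hsum : (48 : ℝ) * 𝒟₂.card ≤ 3 * ∑ e ∈ (W.erase x) \ C, dg 𝒟 e := by
    have g0 : (0 : ℝ) ≤ ∑ e ∈ (W.erase x) \ C, dg 𝒟 e := sum_nonneg fun _ _ => dg_nonneg h _
    have g1 : ∑ T ∈ Q, (48 : ℝ) * (up 𝒟 (T.erase x) : ℝ) ≤
        Q.card • ∑ e ∈ (W.erase x) \ C, dg 𝒟 e := sum_le_card_nsmul _ _ _ hT
    rw [← mul_sum, nsmul_eq_mul] at g1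
    have g2 : (Q.card : ℝ) ≤ 3 := by exact_mod_cast hQ3
    have g3 := mul_le_mul_of_nonneg_right g2 g0
    linarith
  have hsplit : ∑ e ∈ W.erase x, c e * dg 𝒟 e =
      ∑ e ∈ (W.erase x) \ C, c e * dg 𝒟 e + ∑ e ∈ C, c e * dg 𝒟 e := by
    rw [sum_sdiff]
    intro e he
    exact mem_erase.2 ⟨fun h => hxC (h ▸ he), hCW he⟩
  have hlow : (4 / 3) * ∑ e ∈ (W.erase x) \ C, dg 𝒟 e ≤ ∑ e ∈ (W.erase x) \ C, c e * dg 𝒟 e := by
    rw [mul_sum]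
    exact sum_le_sum fun e _ => mul_le_mul_of_nonneg_right (hc e) (dg_nonneg h e)
  have hCs : ∑ e ∈ C, c e * dg 𝒟₁ e - 18 * 𝒟₂.card ≤ ∑ e ∈ C, c e * dg 𝒟 e := by
    have g0 : (0 : ℝ) ≤ 𝒟₂.card := Nat.cast_nonneg _
    have g1 : ∀ e ∈ C, c e * dg 𝒟₁ e - 3 * 𝒟₂.card ≤ c e * dg 𝒟 e := by
      intro e _
      have := h2 e
      have h3 := hc e
      have h4 := hc3 e
      nlinarith
    have g2 := sum_le_sum g1
    rw [sum_sub_distrib, sum_const, nsmul_eq_mul] at g2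
    have g3 : (C.card : ℝ) ≤ 6 := by exact_mod_cast hC6
    nlinarith
  have hn : (𝒟.card : ℝ) = 𝒟₁.card + 𝒟₂.card := by exact_mod_cast hcard.symm
  have g0 : (0 : ℝ) ≤ 𝒟₂.card := Nat.cast_nonneg _
  have h3x : c x * (𝒟₂.card : ℝ) ≤ 3 * 𝒟₂.card := mul_le_mul_of_nonneg_right (hc3 x) g0
  rw [hn, mul_add, hsplit]
  linarith

end Pool.Agent.H61.KS
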