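import Pool.Agent.H61.KS2

set_option autoImplicit false
set_option linter.all false

/-!
# The directions outside the triples can be dropped from the local inequality
-/

namespace Pool.Agent.H61.KS

open Finset Pool.Agent.H61.FC Pool.Agent.H61.PS

variable {α : Type*} [DecidableEq α]

/-- avoiding the sets `T ∖ {x}`, `T ∈ Q` -/
def Avoid (Q : Finset (Finset α)) (x : α) (𝒟 : Finset (Finset α)) : Prop :=
  ∀ D ∈ 𝒟, ∀ T ∈ Q, ¬ T.erase x ⊆ D

theorem card_ins {𝒳 : Finset (Finset α)} {e : α} (h : ∀ D ∈ 𝒳, e ∉ D) (p : Finset α → Prop)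
    [DecidablePred p] (hp : ∀ D, p (insert e D) ↔ p D) :
    ((𝒳 ∪ 𝒳.image (fun D => insert e D)).filter p).card = 2 * (𝒳.filter p).card := by
  have h1 : (𝒳 ∪ 𝒳.image (fun D => insert e D)).filter p =
      𝒳.filter p ∪ (𝒳.filter p).image (fun D => insert e D) := by
    ext D
    simp only [mem_filter, mem_union, mem_image]
    constructor
    · rintro ⟨h1 | ⟨D', hD', rfl⟩, h2⟩
      · exact Or.inl ⟨h1, h2⟩
      · exact Or.inr ⟨D', ⟨hD', (hp D').1 h2⟩, rfl⟩
    · rintro (⟨h1, h2⟩ | ⟨D', ⟨hD', h2⟩, rfl⟩)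
      · exact ⟨Or.inl h1, h2⟩
      · exact ⟨Or.inr ⟨D', hD', rfl⟩, (hp D').2 h2⟩
  rw [h1, card_union_of_disjoint, card_image_of_injOn]
  · ring
  · intro A hA B hB hAB
    have hA' := h A (mem_filter.1 (mem_coe.1 hA)).1
    have hB' := h B (mem_filter.1 (mem_coe.1 hB)).1
    have h3 : (insert e A).erase e = (insert e B).erase e := by
      have : insert e A = insert e B := hAB
      rw [this]
    rwa [erase_insert hA', erase_insert hB'] at h3
  · rw [disjoint_left]
    intro D hD hD'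
    obtain ⟨E, hE, rfl⟩ := mem_image.1 hD'
    exact h _ (mem_filter.1 hD).1 (mem_insert_self _ _)

theorem card_split {𝒟 : Finset (Finset α)} {e : α} (p : Finset α → Prop)
    [DecidablePred p] (hp : ∀ D, p (D.erase e) ↔ p D) :
    (𝒟.filter p).card = ((𝒟.filter (fun D => e ∉ D)).filter p).card +
      (((𝒟.filter (fun D => e ∈ D)).image (fun D => D.erase e)).filter p).card := by
  have h1 : ((𝒟.filter (fun D => e ∈ D)).image (fun D => D.erase e)).filter p =
      ((𝒟.filter (fun D => e ∈ D)).filter p).image (fun D => D.erase e) := by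
    ext D
    simp only [mem_filter, mem_image]
    constructor
    · rintro ⟨⟨D', hD', rfl⟩, h2⟩
      exact ⟨D', ⟨hD', (hp D').1 h2⟩, rfl⟩
    · rintro ⟨D', ⟨hD', h2⟩, rfl⟩
      exact ⟨⟨D', hD', rfl⟩, (hp D').2 h2⟩
  rw [h1, card_image_of_injOn]
  · have h2 := card_filter_add_card_filter_not (s := 𝒟.filter p) (fun D => e ∈ D)
    rw [← h2, add_comm]
    congr 2 <;>
    · ext D; simp only [mem_filter]; tauto
  · intro A hA B hB hAB
    have hA' := (mem_filter.1 (mem_filter.1 (mem_coe.1 hA)).1).2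
    have hB' := (mem_filter.1 (mem_filter.1 (mem_coe.1 hB)).1).2
    rw [← insert_erase hA', ← insert_erase hB']
    have : A.erase e = B.erase e := hAB
    rw [this]

theorem loc_erase {c : α → ℝ} {x : α} {Q : Finset (Finset α)} {C : Finset α} {e : α}
    (heQ : ∀ T ∈ Q, e ∉ T.erase x)
    (hloc : ∀ 𝒟 : Finset (Finset α), Dn 𝒟 → Avoid Q x 𝒟 →
      c x * (𝒟.card : ℝ) ≤ ∑ k ∈ C, c k * dg 𝒟 k) :
    ∀ 𝒟 : Finset (Finset α), Dn 𝒟 → Avoid Q x 𝒟 →
      c x * (𝒟.card : ℝ) ≤ ∑ k ∈ C.erase e, c k * dg 𝒟 k := by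
  have step : ∀ 𝒳 : Finset (Finset α), Dn 𝒳 → Avoid Q x 𝒳 → (∀ D ∈ 𝒳, e ∉ D) →
      c x * (𝒳.card : ℝ) ≤ ∑ k ∈ C.erase e, c k * dg 𝒳 k := by
    intro 𝒳 hD ha he
    set 𝒴 := 𝒳 ∪ 𝒳.image (fun D => insert e D) with h𝒴
    have hDn : Dn 𝒴 := by
      intro D hD' D' hs
      rw [h𝒴, mem_union, mem_image] at hD' ⊢
      by_cases heD : e ∈ D'
      · right
        refine ⟨D'.erase e, ?_, insert_erase heD⟩
        rcases hD' with h | ⟨E, hE, rfl⟩
        · exact absurd (hs heD) (he D h)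
        · refine hD E hE _ ?_
          rw [← erase_insert (he E hE)]
          exact erase_subset_erase _ hs
      · left
        rcases hD' with h | ⟨E, hE, rfl⟩
        · exact hD D h D' hs
        · refine hD E hE _ ?_
          intro t ht
          rcases mem_insert.1 (hs ht) with h | h
          · exact absurd (h ▸ ht) heD
          · exact h
    have hav : Avoid Q x 𝒴 := by
      intro D hD' T hT hs
      rw [h𝒴, mem_union, mem_image] at hD'
      rcases hD' with h | ⟨E, hE, rfl⟩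
      · exact ha D h T hT hs
      · refine ha E hE T hT ?_
        intro t ht
        rcases mem_insert.1 (hs ht) with h | h
        · exact absurd (h ▸ ht) (heQ T hT)
        · exact h
    have h1 := hloc 𝒴 hDn hav
    have h2 : 𝒴.card = 2 * 𝒳.card := by
      have := card_ins he (fun _ => True) (fun _ => Iff.rfl)
      simpa using this
    have h3 : ∀ k, k ≠ e → (𝒴.filter (fun D => k ∈ D)).card =
        2 * (𝒳.filter (fun D => k ∈ D)).card := by
      intro k hk
      exact card_ins he (fun D => k ∈ D) (fun D => by simp [hk])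
    have h4 : dg 𝒴 e = 0 := by
      have g1 := card_filter_add_card_filter_not (s := 𝒴) (fun D => e ∈ D)
      have g2 : 𝒴.filter (fun D => ¬ e ∈ D) = 𝒳 := by
        ext D
        rw [mem_filter, h𝒴, mem_union, mem_image]
        constructor
        · rintro ⟨h | ⟨E, hE, rfl⟩, h2⟩
          · exact h
          · exact absurd (mem_insert_self _ _) h2
        · intro h
          exact ⟨Or.inl h, he D h⟩
      rw [g2] at g1
      unfold dg
      have g3 : ((𝒴.filter (fun D => e ∈ D)).card : ℝ) + 𝒳.card = 𝒴.card := by exact_mod_cast g1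
      have g4 : (𝒴.card : ℝ) = 2 * 𝒳.card := by exact_mod_cast h2
      linarith
    have h5 : ∀ k, k ≠ e → dg 𝒴 k = 2 * dg 𝒳 k := by
      intro k hk
      unfold dg
      rw [h2, h3 k hk]
      push_cast
      ring
    have h6 : ∑ k ∈ C, c k * dg 𝒴 k = 2 * ∑ k ∈ C.erase e, c k * dg 𝒳 k := by
      rw [← sum_erase C (show c e * dg 𝒴 e = 0 by rw [h4, mul_zero]), mul_sum]
      refine sum_congr rfl fun k hk => ?_
      rw [h5 k (mem_erase.1 hk).1]
      ring
    rw [h6, h2] at h1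
    push_cast at h1
    linarith
  intro 𝒟 hD ha
  have h0 := step (𝒟.filter (fun D => e ∉ D)) (by
      intro D hD' D' hs
      rw [mem_filter] at hD' ⊢
      exact ⟨hD D hD'.1 D' hs, fun h => hD'.2 (hs h)⟩)
    (fun D hD' => ha D (mem_filter.1 hD').1) (fun D hD' => (mem_filter.1 hD').2)
  have h1 := step ((𝒟.filter (fun D => e ∈ D)).image (fun D => D.erase e)) (by
      intro D hD' D' hs
      rw [mem_image] at hD' ⊢
      obtain ⟨E, hE, rfl⟩ := hD'
      rw [mem_filter] at hE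
      have heD : e ∉ D' := fun h => notMem_erase e E (hs h)
      refine ⟨insert e D', mem_filter.2 ⟨hD E hE.1 _ ?_, mem_insert_self _ _⟩, erase_insert heD⟩
      exact insert_subset hE.2 (hs.trans (erase_subset _ _)))
    (by
      intro D hD' T hT hs
      obtain ⟨E, hE, rfl⟩ := mem_image.1 hD'
      exact ha E (mem_filter.1 hE).1 T hT (hs.trans (erase_subset _ _)))
    (by
      intro D hD'
      obtain ⟨E, hE, rfl⟩ := mem_image.1 hD'
      exact notMem_erase _ _)
  have h2 := card_split (𝒟 := 𝒟) (e := e) (fun _ => True) (fun _ => Iff.rfl)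
  simp only [filter_true] at h2
  have h2' : (𝒟.card : ℝ) = (𝒟.filter (fun D => e ∉ D)).card +
      ((𝒟.filter (fun D => e ∈ D)).image (fun D => D.erase e)).card := by exact_mod_cast h2
  have h3 : ∀ k, k ≠ e → dg 𝒟 k = dg (𝒟.filter (fun D => e ∉ D)) k +
      dg ((𝒟.filter (fun D => e ∈ D)).image (fun D => D.erase e)) k := by
    intro k hk
    have h4 := card_split (𝒟 := 𝒟) (e := e) (fun D => k ∈ D) (fun D => by simp [hk])
    have h4' : ((𝒟.filter (fun D => k ∈ D)).card : ℝ) =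
        ((𝒟.filter (fun D => e ∉ D)).filter (fun D => k ∈ D)).card +
        (((𝒟.filter (fun D => e ∈ D)).image (fun D => D.erase e)).filter (fun D => k ∈ D)).card := by
      exact_mod_cast h4
    unfold dg
    rw [h2', h4']
    ring
  have h4 : ∑ k ∈ C.erase e, c k * dg 𝒟 k = ∑ k ∈ C.erase e, c k * dg (𝒟.filter (fun D => e ∉ D)) k +
      ∑ k ∈ C.erase e, c k *
        dg ((𝒟.filter (fun D => e ∈ D)).image (fun D => D.erase e)) k := by
    rw [← sum_add_distrib]
    refine sum_congr rfl fun k hk => ?_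
    rw [h3 k (mem_erase.1 hk).1]
    ring
  rw [h4, h2']
  linarith

/-- the directions can be taken from the triples -/
theorem loc_sub {c : α → ℝ} {x : α} {Q : Finset (Finset α)} (C : Finset α)
    (hloc : ∀ 𝒟 : Finset (Finset α), Dn 𝒟 → Avoid Q x 𝒟 →
      c x * (𝒟.card : ℝ) ≤ ∑ k ∈ C, c k * dg 𝒟 k) :
    ∃ C' ⊆ C, (∀ v ∈ C', ∃ T ∈ Q, v ∈ T.erase x) ∧
    ∀ 𝒟 : Finset (Finset α), Dn 𝒟 → Avoid Q x 𝒟 →
      c x * (𝒟.card : ℝ) ≤ ∑ k ∈ C', c k * dg 𝒟 k := by
  induction C using Finset.strongInduction with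
  | H C ih =>
    by_cases h : ∀ v ∈ C, ∃ T ∈ Q, v ∈ T.erase x
    · exact ⟨C, Subset.rfl, h, hloc⟩
    · push Not at h
      obtain ⟨e, he, heQ⟩ := h
      obtain ⟨C', h1, h2, h3⟩ := ih (C.erase e) (erase_ssubset he) (loc_erase heQ hloc)
      exact ⟨C', h1.trans (erase_subset _ _), h2, h3⟩

/-- the neighbours of `x` -/
def Nb (H : Finset (Finset α)) (x : α) : Finset α :=
  (H.filter (fun T => x ∈ T)).biUnion (fun T => T.erase x)

theorem mem_Nb {H : Finset (Finset α)} {x v : α} :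
    v ∈ Nb H x ↔ ∃ T ∈ H, x ∈ T ∧ v ∈ T ∧ v ≠ x := by
  unfold Nb
  simp only [mem_biUnion, mem_filter, mem_erase]
  constructor
  · rintro ⟨T, ⟨h1, h2⟩, h3, h4⟩
    exact ⟨T, h1, h2, h4, h3⟩
  · rintro ⟨T, h1, h2, h4, h3⟩
    exact ⟨T, ⟨h1, h2⟩, h3, h4⟩

theorem Nb_symm {H : Finset (Finset α)} {x v : α} (h : v ∈ Nb H x) : x ∈ Nb H v := by
  rw [mem_Nb] at h ⊢
  obtain ⟨T, h1, h2, h3, h4⟩ := h
  exact ⟨T, h1, h3, h2, h4.symm⟩

/-- a nonroot: the local inequality with slack outside the neighbours -/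
theorem slack_of_loc {G H : Finset (Finset α)} {W : Finset α} {c : α → ℝ} {x : α} {k : ℕ}
    (hG : ∀ B ∈ G, B.card = k) (hc : ∀ v, 4 / 3 ≤ c v) (hc3 : ∀ v, c v ≤ 3)
    (hH : ∀ T ∈ H, Rich G W (MM k) T) (h : LocOK W H c x) :
    ∃ C ⊆ Nb H x, Slack G W c x C := by
  obtain ⟨Q, hQ, hQ3, hxQ, C, hCW, hC6, hxC, hloc⟩ := h
  obtain ⟨C', h1, h2, h3⟩ := loc_sub C hloc
  refine ⟨C', ?_, slack_nonroot hG hc hc3 (fun T hT => hH T (hQ hT)) hQ3 hxQ (h1.trans hCW)
    ((card_le_card h1).trans hC6) (fun h => hxC (h1 h)) h3⟩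
  intro v hv
  obtain ⟨T, hT, hvT⟩ := h2 v hv
  rw [mem_erase] at hvT
  exact mem_Nb.2 ⟨T, hQ hT, hxQ T hT, hvT.2, hvT.1⟩

end Pool.Agent.H61.KS
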