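import Pool.Agent.H61.KS3

set_option autoImplicit false
set_option linter.all false

/-!
# Dense triples
-/

namespace Pool.Agent.H61.KS

open Finset Pool.Agent.H61.FC Pool.Agent.H61.PS

variable {α : Type*} [DecidableEq α] {G : Finset (Finset α)} {W : Finset α} {k K : ℕ}

/-- the members between `A` and `W` -/
def thr (G : Finset (Finset α)) (W A : Finset α) : Finset (Finset α) :=
  G.filter (fun B => A ⊆ B ∧ B ⊆ W)

/-- the triples in many members -/
def HT (G : Finset (Finset α)) (W : Finset α) (k K : ℕ) : Finset (Finset α) :=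
  (W.powersetCard 3).filter (fun T => K * W.card ^ (k - 4) < (thr G W T).card)

theorem mem_HT {T : Finset α} :
    T ∈ HT G W k K ↔ (T ⊆ W ∧ T.card = 3) ∧ K * W.card ^ (k - 4) < (thr G W T).card := by
  unfold HT
  rw [mem_filter, mem_powersetCard]

theorem mem_thr {A B : Finset α} : B ∈ thr G W A ↔ B ∈ G ∧ A ⊆ B ∧ B ⊆ W := by
  unfold thr
  rw [mem_filter]

theorem rich_of_HT (hk : 4 ≤ k) (hG : ∀ B ∈ G, B.card = k) {T : Finset α} (hT : T ∈ HT G W k K)
    {M : ℕ} (hM : M * k ≤ K) : Rich G W M T := by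
  obtain ⟨⟨hTW, hT3⟩, hT⟩ := mem_HT.1 hT
  by_contra hr
  have hsub : ∀ B ∈ G.filter (fun B => B ⊆ W), B ∈ G ∧ B ⊆ W := fun B hB => mem_filter.1 hB
  have h1 := deg_step (M := M) (t := W.card ^ (k - 4)) hG (by omega) hr hsub (by
    intro u hu huA
    refine (deg_top hG (insert_subset hu hTW) hsub).trans ?_
    rw [card_insert_of_notMem huA, hT3]
    refine (choose_le_pow' _ _).trans ?_
    exact Nat.pow_le_pow_left (by omega) _)
  have h2 : (G.filter (fun B => B ⊆ W)).filter (fun B => T ⊆ B) = thr G W T := by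
    ext B
    rw [mem_filter, mem_filter, mem_thr]
    tauto
  rw [h2] at h1
  have h3 : M * k * W.card ^ (k - 4) ≤ K * W.card ^ (k - 4) := Nat.mul_le_mul_right _ hM
  omega

/-- a cover of the members through `A` meets the rich sets containing `A` -/
theorem cover_rich {A U T : Finset α} {M : ℕ}
    (hU : ∀ B ∈ G, A ⊆ B → B ⊆ W → ∃ u ∈ U, u ∈ B) (hr : Rich G W M T) (hAT : A ⊆ T)
    (hM : U.card < M) : ∃ u ∈ U, u ∈ T := by
  obtain ⟨𝓜, hM', hE, hdis⟩ := hr
  have h1 := card_disjoint_filter hdis U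
  have h2 : 0 < (𝓜.filter (fun E => Disjoint E U)).card := by omega
  obtain ⟨E, hE'⟩ := card_pos.1 h2
  rw [mem_filter] at hE'
  obtain ⟨g1, g2, g3⟩ := hE E hE'.1
  obtain ⟨u, hu, huB⟩ := hU _ g2 (hAT.trans subset_union_left) g3
  refine ⟨u, hu, ?_⟩
  rcases mem_union.1 huB with h | h
  · exact h
  · exact absurd hu (disjoint_left.1 hE'.2 h)

/-- an element in all members containing the rich set `T` is in `T` -/
theorem common_rich {T : Finset α} {M : ℕ} {y : α} (hr : Rich G W M T) (hM : 2 ≤ M)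
    (h : ∀ B ∈ G, T ⊆ B → B ⊆ W → y ∈ B) : y ∈ T := by
  obtain ⟨u, hu, huT⟩ := cover_rich (U := {y}) (A := T) (fun B hB hT hW =>
    ⟨y, mem_singleton_self y, h B hB hT hW⟩) hr Subset.rfl (by rw [card_singleton]; omega)
  rw [mem_singleton] at hu
  rwa [← hu]

theorem deg_HT (hk : 4 ≤ k) (hG : ∀ B ∈ G, B.card = k) (hK : (MM k * k + 1) * k ≤ K) {a : α}
    (hR : ¬ RR G W k a) :
    ((HT G W k K).filter (fun T => a ∈ T)).card ≤ MM k * k * (MM k * k) := by
  have hr1 : ¬ Rich G W (MM k) {a} := fun h => hR (Or.inl h)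
  obtain ⟨U, hU, hUa, hcov⟩ := cover_of_not_rich hG (by rw [card_singleton]; omega) hr1
  have h1 : (HT G W k K).filter (fun T => a ∈ T) ⊆
      U.biUnion (fun u => (HT G W k K).filter (fun T => a ∈ T ∧ u ∈ T)) := by
    intro T hT
    rw [mem_filter] at hT
    obtain ⟨u, hu, huT⟩ := cover_rich hcov (rich_of_HT hk hG hT.1 hK)
      (singleton_subset_iff.2 hT.2) (by omega)
    exact mem_biUnion.2 ⟨u, hu, mem_filter.2 ⟨hT.1, hT.2, huT⟩⟩
  refine (card_le_card h1).trans ((card_biUnion_le_card_mul _ _ (MM k * k) ?_).trans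
    (Nat.mul_le_mul_right _ hU))
  intro u hu
  have hua : u ≠ a := by
    rintro rfl
    exact disjoint_left.1 hUa hu (mem_singleton_self _)
  have hr2 : ¬ Rich G W (MM k) {a, u} := fun h => hR (Or.inr ⟨u, hua, h⟩)
  obtain ⟨V, hV, hVa, hcov2⟩ := cover_of_not_rich hG (by rw [card_pair hua.symm]; omega) hr2
  have h2 : (HT G W k K).filter (fun T => a ∈ T ∧ u ∈ T) ⊆
      V.image (fun v => ({a, u, v} : Finset α)) := by
    intro T hT
    rw [mem_filter] at hT
    obtain ⟨v, hv, hvT⟩ := cover_rich hcov2 (rich_of_HT hk hG hT.1 hK)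
      (insert_subset hT.2.1 (singleton_subset_iff.2 hT.2.2)) (by omega)
    refine mem_image.2 ⟨v, hv, ?_⟩
    have hvn := disjoint_left.1 hVa hv
    simp only [mem_insert, mem_singleton, not_or] at hvn
    refine eq_of_subset_of_card_le ?_ ?_
    · intro t ht
      simp only [mem_insert, mem_singleton] at ht
      rcases ht with rfl | rfl | rfl
      · exact hT.2.1
      · exact hT.2.2
      · exact hvT
    · rw [(mem_HT.1 hT.1).1.2, card_insert_of_notMem (by
        simp only [mem_insert, mem_singleton, not_or]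
        exact ⟨hua.symm, fun h => hvn.1 h.symm⟩), card_pair (fun h => hvn.2 h.symm)]
  exact (card_le_card h2).trans (card_image_le.trans hV)

theorem card_Nb (hk : 4 ≤ k) (hG : ∀ B ∈ G, B.card = k) (hK : (MM k * k + 1) * k ≤ K) {a : α}
    (hR : ¬ RR G W k a) : (Nb (HT G W k K) a).card ≤ MM k * k * (MM k * k) * 2 := by
  unfold Nb
  refine (card_biUnion_le_card_mul _ _ 2 ?_).trans (Nat.mul_le_mul_right _ (deg_HT hk hG hK hR))
  intro T hT
  rw [mem_filter] at hT
  rw [card_erase_of_mem hT.2, (mem_HT.1 hT.1).1.2]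

/-- few members contain two related elements outside `T` -/
theorem count_bad (hk : 4 ≤ k) (hG : ∀ B ∈ G, B.card = k) {T : Finset α} (hTW : T ⊆ W)
    (hT3 : T.card = 3) {Np : α → Finset α} {D : ℕ} (hN : ∀ x ∈ W, (Np x).card ≤ D)
    {Z : Finset α} (hZ : Z.card ≤ 3 * D)
    (h : ∀ B ∈ thr G W T, (∃ z ∈ Z, z ∉ T ∧ z ∈ B) ∨
      ∃ e ∈ W, e ∉ T ∧ e ∈ B ∧ ∃ v ∈ Np e, v ∉ T ∧ v ≠ e ∧ v ∈ B) :
    (thr G W T).card ≤ 4 * D * W.card ^ (k - 4) := by
  set 𝒢 := thr G W T with h𝒢
  have hsub : ∀ B ∈ 𝒢, B ∈ G ∧ B ⊆ W := fun B hB => ⟨(mem_thr.1 hB).1, (mem_thr.1 hB).2.2⟩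
  have h1 : 𝒢 ⊆ (Z.filter (fun z => z ∉ T)).biUnion (fun z => 𝒢.filter (fun B => insert z T ⊆ B)) ∪
      W.biUnion (fun e => (Np e).biUnion (fun v => 𝒢.filter (fun B => e ∉ T ∧ v ∉ T ∧ v ≠ e ∧
        insert v (insert e T) ⊆ B))) := by
    intro B hB
    have hTB := (mem_thr.1 hB).2.1
    rcases h B hB with ⟨z, hz, hzT, hzB⟩ | ⟨e, he, heT, heB, v, hv, hvT, hve, hvB⟩
    · exact mem_union_left _ (mem_biUnion.2 ⟨z, mem_filter.2 ⟨hz, hzT⟩,
        mem_filter.2 ⟨hB, insert_subset hzB hTB⟩⟩)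
    · exact mem_union_right _ (mem_biUnion.2 ⟨e, he, mem_biUnion.2 ⟨v, hv, mem_filter.2
        ⟨hB, heT, hvT, hve, insert_subset hvB (insert_subset heB hTB)⟩⟩⟩)
  have h2 : ((Z.filter (fun z => z ∉ T)).biUnion
      (fun z => 𝒢.filter (fun B => insert z T ⊆ B))).card ≤ 3 * D * W.card ^ (k - 4) := by
    refine (card_biUnion_le_card_mul _ _ (W.card ^ (k - 4)) ?_).trans
      (Nat.mul_le_mul_right _ ((card_filter_le _ _).trans hZ))
    intro z hz
    rw [mem_filter] at hz
    by_cases hzW : z ∈ W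
    · refine (deg_top hG (insert_subset hzW hTW) hsub).trans ?_
      rw [card_insert_of_notMem hz.2, hT3]
      refine (choose_le_pow' _ _).trans ?_
      exact Nat.pow_le_pow_left (by omega) _
    · rw [filter_false_of_mem]
      · simp
      · intro B hB hs
        exact hzW ((hsub B hB).2 (hs (mem_insert_self _ _)))
  have h3 : ∃ t, W.card * t ≤ W.card ^ (k - 4) ∧ ∀ e ∈ W, ∀ v ∈ Np e,
      (𝒢.filter (fun B => e ∉ T ∧ v ∉ T ∧ v ≠ e ∧ insert v (insert e T) ⊆ B)).card ≤ t := by
    rcases Nat.eq_or_lt_of_le hk with hk4 | hk5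
    · refine ⟨0, by simp, fun e he v hv => ?_⟩
      rw [Nat.le_zero, card_eq_zero, filter_eq_empty_iff]
      rintro B hB ⟨g1, g2, g3, g4⟩
      have g5 := card_le_card g4
      rw [card_insert_of_notMem (by
        rw [mem_insert, not_or]; exact ⟨g3, g2⟩), card_insert_of_notMem g1, hT3,
        hG B (hsub B hB).1] at g5
      omega
    · refine ⟨W.card ^ (k - 5), ?_, fun e he v hv => ?_⟩
      · have e1 : k - 4 = k - 5 + 1 := by omega
        rw [e1, pow_succ, mul_comm]
      · by_cases hc : e ∉ T ∧ v ∉ T ∧ v ≠ e ∧ v ∈ W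
        · obtain ⟨g1, g2, g3, g4⟩ := hc
          have hS : insert v (insert e T) ⊆ W := insert_subset g4 (insert_subset he hTW)
          have g5 : (𝒢.filter (fun B => e ∉ T ∧ v ∉ T ∧ v ≠ e ∧ insert v (insert e T) ⊆ B)).card ≤
              (𝒢.filter (fun B => insert v (insert e T) ⊆ B)).card := by
            refine card_le_card ?_
            intro B hB
            rw [mem_filter] at hB ⊢
            exact ⟨hB.1, hB.2.2.2.2⟩
          refine g5.trans ((deg_top hG hS hsub).trans ?_)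
          rw [card_insert_of_notMem (by rw [mem_insert, not_or]; exact ⟨g3, g2⟩),
            card_insert_of_notMem g1, hT3]
          refine (choose_le_pow' _ _).trans ?_
          exact Nat.pow_le_pow_left (by omega) _
        · rw [filter_false_of_mem]
          · simp
          · rintro B hB ⟨g1, g2, g3, g4⟩
            exact hc ⟨g1, g2, g3, (hsub B hB).2 (g4 (mem_insert_self _ _))⟩
  obtain ⟨t, ht, ht2⟩ := h3
  have h4 : (W.biUnion (fun e => (Np e).biUnion (fun v => 𝒢.filter (fun B => e ∉ T ∧ v ∉ T ∧ v ≠ e ∧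
        insert v (insert e T) ⊆ B)))).card ≤ W.card * (D * t) := by
    refine card_biUnion_le_card_mul _ _ _ ?_
    intro e he
    exact (card_biUnion_le_card_mul _ _ t (ht2 e he)).trans (Nat.mul_le_mul_right _ (hN e he))
  have h5 : W.card * (D * t) ≤ D * W.card ^ (k - 4) := by
    calc W.card * (D * t) = D * (W.card * t) := by ring
      _ ≤ D * W.card ^ (k - 4) := Nat.mul_le_mul_left _ ht
  have h6 := (card_le_card h1).trans (card_union_le _ _)
  nlinarith

/-- if the elements come in pairs, there are few members -/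
theorem twin_count (hk : 4 ≤ k) (hG : ∀ B ∈ G, B.card = k) (σ : α → α)
    (hσσ : ∀ x ∈ W, σ (σ x) = x) (hne : ∀ x ∈ W, σ x ≠ x)
    (htw : ∀ x ∈ W, ∀ B ∈ G, B ⊆ W → x ∈ B → σ x ∈ B) :
    2 * ins G W ≤ W.card.choose (k - 2) := by
  classical
  set 𝒮 : Finset α → Finset (Finset α) := fun B =>
    (W.powersetCard (k - 2)).filter (fun S => S ∪ S.image σ = B) with h𝒮
  have h1 : ∀ B ∈ G.filter (fun B => B ⊆ W), 2 ≤ (𝒮 B).card := by
    intro B hB
    rw [mem_filter] at hB
    obtain ⟨hBG, hBW⟩ := hB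
    have hBk := hG B hBG
    obtain ⟨x, hx⟩ : B.Nonempty := card_pos.1 (by omega)
    have hsx := htw x (hBW hx) B hBG hBW hx
    have hxx := hne x (hBW hx)
    obtain ⟨u, hu⟩ : (B \ {x, σ x}).Nonempty := by
      rw [← card_pos]
      have := le_card_sdiff {x, σ x} B
      have h2 := card_le_two (a := x) (b := σ x)
      omega
    rw [mem_sdiff, mem_insert, mem_singleton, not_or] at hu
    obtain ⟨huB, hux, hus⟩ := hu
    have hsu := htw u (hBW huB) B hBG hBW huB
    have huu := hne u (hBW huB)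
    have n1 : σ u ≠ x := by
      intro h
      apply hus
      rw [← h, hσσ u (hBW huB)]
    have n2 : σ u ≠ σ x := by
      intro h
      apply hux
      rw [← hσσ u (hBW huB), h, hσσ x (hBW hx)]
    have hcl : ∀ t ∈ B, σ t ∈ B := fun t ht => htw t (hBW ht) B hBG hBW ht
    have c1 : (B \ {σ x, σ u}).card = k - 2 := by
      rw [card_sdiff_of_subset (insert_subset hsx (singleton_subset_iff.2 hsu)),
        card_pair n2.symm, hBk]
    have c2 : (B \ {σ x, u}).card = k - 2 := by
      rw [card_sdiff_of_subset (insert_subset hsx (singleton_subset_iff.2 huB)),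
        card_pair (fun h => hus h.symm), hBk]
    have m1 : B \ {σ x, σ u} ∈ 𝒮 B := by
      simp only [h𝒮, mem_filter, mem_powersetCard]
      refine ⟨⟨sdiff_subset.trans hBW, c1⟩, ?_⟩
      ext t
      simp only [mem_union, mem_sdiff, mem_image, mem_insert, mem_singleton, not_or]
      constructor
      · rintro (⟨h, _⟩ | ⟨s, ⟨h, _⟩, rfl⟩)
        · exact h
        · exact hcl s h
      · intro ht
        by_cases e1 : t = σ x
        · exact Or.inr ⟨x, ⟨hx, hxx.symm, n1.symm⟩, e1.symm⟩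
        · by_cases e2 : t = σ u
          · exact Or.inr ⟨u, ⟨huB, hus, huu.symm⟩, e2.symm⟩
          · exact Or.inl ⟨ht, e1, e2⟩
    have m2 : B \ {σ x, u} ∈ 𝒮 B := by
      simp only [h𝒮, mem_filter, mem_powersetCard]
      refine ⟨⟨sdiff_subset.trans hBW, c2⟩, ?_⟩
      ext t
      simp only [mem_union, mem_sdiff, mem_image, mem_insert, mem_singleton, not_or]
      constructor
      · rintro (⟨h, _⟩ | ⟨s, ⟨h, _⟩, rfl⟩)
        · exact h
        · exact hcl s h
      · intro ht
        by_cases e1 : t = σ x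
        · exact Or.inr ⟨x, ⟨hx, hxx.symm, fun h => hux h.symm⟩, e1.symm⟩
        · by_cases e2 : t = u
          · exact Or.inr ⟨σ u, ⟨hsu, n2, huu⟩, by rw [hσσ u (hBW huB), e2]⟩
          · exact Or.inl ⟨ht, e1, e2⟩
    have hne2 : B \ {σ x, σ u} ≠ B \ {σ x, u} := by
      intro he
      have : u ∈ B \ {σ x, u} := by
        rw [← he]
        simp only [mem_sdiff, mem_insert, mem_singleton, not_or]
        exact ⟨huB, hus, huu.symm⟩
      simp at this
    have h3 : ({B \ {σ x, σ u}, B \ {σ x, u}} : Finset (Finset α)) ⊆ 𝒮 B :=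
      insert_subset m1 (singleton_subset_iff.2 m2)
    have h4 := card_le_card h3
    rwa [card_pair hne2] at h4
  have h2 : ((G.filter (fun B => B ⊆ W)).biUnion 𝒮).card = ∑ B ∈ G.filter (fun B => B ⊆ W),
      (𝒮 B).card := by
    refine card_biUnion ?_
    intro B hB B' hB' hne
    show Disjoint (𝒮 B) (𝒮 B')
    rw [disjoint_left]
    intro S hS hS'
    simp only [h𝒮, mem_filter] at hS hS'
    exact hne (hS.2.symm.trans hS'.2)
  have h3 : ((G.filter (fun B => B ⊆ W)).biUnion 𝒮).card ≤ W.card.choose (k - 2) := by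
    rw [← card_powersetCard]
    refine card_le_card ?_
    intro S hS
    obtain ⟨B, hB, hS'⟩ := mem_biUnion.1 hS
    exact (mem_filter.1 hS').1
  have h4 := card_nsmul_le_sum (G.filter (fun B => B ⊆ W)) (fun B => (𝒮 B).card) 2 h1
  rw [smul_eq_mul] at h4
  unfold ins
  rw [mul_comm]
  omega

end Pool.Agent.H61.KS
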