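import Pool.Agent.H61.KS4

set_option autoImplicit false
set_option linter.all false

/-!
# No removable parts, strict version
-/

namespace Pool.Agent.H61.KS

open Finset Pool.Agent.H61.FC Pool.Agent.H61.PS

variable {α : Type*} [DecidableEq α] {G : Finset (Finset α)} {W : Finset α} {k : ℕ}

/-- the constant -/
def KK (k : ℕ) : ℕ := (MM k * k + 1) * k + 4 * (MM k * k * (MM k * k) * 2)

theorem KK1 (k : ℕ) : (MM k * k + 1) * k ≤ KK k := by unfold KK; omega

theorem KK2 (k : ℕ) : MM k * k ≤ KK k := by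
  unfold KK
  nlinarith [Nat.zero_le (MM k * k * (MM k * k) * 2), Nat.zero_le k, Nat.zero_le (MM k * k),
    Nat.le_mul_self (MM k * k)]

theorem KK3 (k : ℕ) : 4 * (MM k * k * (MM k * k) * 2) ≤ KK k := by unfold KK; omega

/-- if there are no removable parts, then a free element exists or there are few members -/
theorem stuck_twin (hk : 4 ≤ k) (hG : ∀ B ∈ G, B.card = k) {F : Finset (Finset α)}
    (hF : ∀ A ∈ F, ∀ B ∈ F, A ∪ B ∈ F) (hGF : G ⊆ F)
    (hS : Stuck W (HT G W k (KK k)) (RR G W k))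
    (hno : ∀ x ∈ W, 2 * (F.filter (fun A => x ∈ A)).card ≤ F.card)
    (hfr : ∀ b ∈ W, ¬ Free F b) : 2 * ins G W ≤ W.card.choose (k - 2) := by
  classical
  set H := HT G W k (KK k) with hH
  set R := RR G W k with hR
  have hMk : 2 ≤ MM k := by unfold MM; omega
  have hrich : ∀ T ∈ H, Rich G W (MM k) T := fun T hT => rich_of_HT hk hG hT (KK2 k)
  -- the local inequalities at the roots
  have hroot : ∀ d : α → ℝ, (∀ v, 4 / 3 ≤ d v) → (∀ v, d v ≤ 3) → (∀ v, R v → d v = 3) →
      ∀ x, R x → Ineq G W d x := by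
    intro d h1 h2 h3 x hx
    rcases hx with hr | ⟨y, hyx, hr⟩
    · exact (slack_root1 hG h1 h2 hr).ineq
    · exact (slack_root2 hG h1 h2 hyx (h3 y (Or.inr ⟨x, hyx.symm, by rwa [pair_comm] at hr⟩)) hr).ineq
  set c := wt H R with hc
  have c1 : ∀ v, 4 / 3 ≤ c v := fun v => wt_low v
  have c2 : ∀ v, c v ≤ 3 := fun v => wt_high v
  have c3 : ∀ v, R v → c v = 3 := fun v hv => wt_St (Or.inl hv)
  have hineq : ∀ x ∈ W, Ineq G W c x := by
    intro x hx
    by_cases hxR : R x
    · exact hroot c c1 c2 c3 x hxR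
    · obtain ⟨C, _, hs⟩ := slack_of_loc hG c1 c2 hrich (locOK_all hS hx hxR)
      exact hs.ineq
  have hns : ∀ x ∈ W, ¬ SIneq G W c x := by
    intro x hx hs
    exact hfr x hx (free_of_sineq hF hGF (fun v => by linarith [c1 v]) hineq hx
      (by linarith [c1 x]) hs hno)
  have F1 : ∀ x ∈ W, ¬ Rich G W (MM k) {x} := by
    intro x hx hr
    have hs := slack_root1 hG c1 c2 hr
    obtain ⟨𝓜, hM, hE, hdis⟩ := hr
    obtain ⟨E, hE'⟩ := card_pos.1 (by omega : 0 < 𝓜.card)
    obtain ⟨g1, g2, g3⟩ := hE E hE'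
    exact hns x hx (hs.sineq g2 (by simp) g3 (fun v hv => by simp at hv))
  have F2 : ∀ x ∈ W, ∀ y, y ≠ x → Rich G W (MM k) {x, y} → ∀ B ∈ G, B ⊆ W → x ∈ B → y ∈ B := by
    intro x hx y hyx hr B hB hBW hxB
    by_contra hyB
    refine hns x hx ((slack_root2 hG c1 c2 hyx
      (c3 y (Or.inr ⟨x, hyx.symm, by rwa [pair_comm] at hr⟩)) hr).sineq hB hxB hBW ?_)
    intro v hv hvB
    rw [mem_singleton] at hv
    rw [hv] at hvB
    exact absurd hvB hyB
  have hex : ∀ x, ∃ y, x ∈ W → R x → y ≠ x ∧ Rich G W (MM k) {x, y} := by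
    intro x
    by_cases h : x ∈ W ∧ R x
    · obtain ⟨y, h1, h2⟩ := h.2.resolve_left (F1 x h.1)
      exact ⟨y, fun _ _ => ⟨h1, h2⟩⟩
    · exact ⟨x, fun h1 h2 => absurd ⟨h1, h2⟩ h⟩
  choose σ hσ using hex
  have σW : ∀ x ∈ W, R x → σ x ∈ W := by
    intro x hx hxR
    exact (hσ x hx hxR).2.sub (by omega) (by simp)
  have σR : ∀ x ∈ W, R x → R (σ x) := by
    intro x hx hxR
    obtain ⟨h1, h2⟩ := hσ x hx hxR
    exact Or.inr ⟨x, h1.symm, by rwa [pair_comm] at h2⟩
  have σσ : ∀ x ∈ W, R x → σ (σ x) = x := by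
    intro x hx hxR
    obtain ⟨h1, h2⟩ := hσ x hx hxR
    obtain ⟨h3, h4⟩ := hσ (σ x) (σW x hx hxR) (σR x hx hxR)
    have h5 := common_rich (y := x) h4 hMk (fun B hB hT hBW =>
      F2 (σ x) (σW x hx hxR) x h1.symm (by rwa [pair_comm] at h2) B hB hBW (hT (by simp)))
    rw [mem_insert, mem_singleton] at h5
    rcases h5 with h | h
    · exact absurd h h1.symm
    · exact h.symm
  set Np : α → Finset α := fun x => if R x then {σ x} else Nb H x with hNp
  have hstar : ∀ x ∈ W, ∀ B ∈ G, B ⊆ W → x ∈ B → ∃ v ∈ Np x, v ≠ x ∧ v ∈ B := by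
    intro x hx B hB hBW hxB
    by_cases hxR : R x
    · obtain ⟨h1, h2⟩ := hσ x hx hxR
      refine ⟨σ x, ?_, h1, F2 x hx (σ x) h1 h2 B hB hBW hxB⟩
      simp only [hNp, if_pos hxR, mem_singleton]
    · obtain ⟨C, hC, hs⟩ := slack_of_loc hG c1 c2 hrich (locOK_all hS hx hxR)
      by_contra hcon
      push Not at hcon
      refine hns x hx (hs.sineq hB hxB hBW (fun v hv hvB => ?_))
      by_contra hne
      refine hcon v ?_ hne hvB
      simp only [hNp, if_neg hxR]
      exact hC hv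
  set D := MM k * k * (MM k * k) * 2 with hD
  have hD1 : 1 ≤ D := by
    have h1 : 1 ≤ MM k * k := Nat.one_le_iff_ne_zero.2 (Nat.mul_ne_zero (by omega) (by omega))
    have h2 : 1 ≤ MM k * k * (MM k * k) := Nat.one_le_iff_ne_zero.2
      (Nat.mul_ne_zero (by omega) (by omega))
    omega
  have hN : ∀ x, (Np x).card ≤ D := by
    intro x
    by_cases hxR : R x
    · simp only [hNp, if_pos hxR, card_singleton]; exact hD1
    · simp only [hNp, if_neg hxR]
      exact card_Nb hk hG (KK1 k) hxR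
  have F4 : ∀ T ∈ H, ∃ x ∈ T, R x := by
    intro T hT
    by_contra hcon
    push Not at hcon
    obtain ⟨⟨hTW, hT3⟩, hTc⟩ := mem_HT.1 hT
    have h1 := count_bad hk hG hTW hT3 (Np := Np) (D := D) (fun x _ => hN x)
      (Z := T.biUnion (Nb H)) ?_ ?_
    · have h2 : 4 * D * W.card ^ (k - 4) ≤ KK k * W.card ^ (k - 4) :=
        Nat.mul_le_mul_right _ (KK3 k)
      omega
    · rw [← hT3]
      refine card_biUnion_le_card_mul _ _ D ?_
      intro v hv
      exact card_Nb hk hG (KK1 k) (hcon v hv)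
    · intro B hB
      obtain ⟨hBG, hTB, hBW⟩ := mem_thr.1 hB
      obtain ⟨e, he⟩ : (B \ T).Nonempty := by
        rw [← card_pos, card_sdiff_of_subset hTB, hG B hBG, hT3]; omega
      rw [mem_sdiff] at he
      obtain ⟨v, hv, hve, hvB⟩ := hstar e (hBW he.1) B hBG hBW he.1
      by_cases hvT : v ∈ T
      · left
        have hvR := hcon v hvT
        by_cases heR : R e
        · exfalso
          simp only [hNp, if_pos heR, mem_singleton] at hv
          rw [hv] at hvR
          exact hvR (σR e (hBW he.1) heR)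
        · simp only [hNp, if_neg heR] at hv
          exact ⟨e, mem_biUnion.2 ⟨v, hvT, Nb_symm hv⟩, he.2, he.1⟩
      · right
        exact ⟨e, hBW he.1, he.2, he.1, v, hv, hvT, hve, hvB⟩
  have F5 : ∀ T ∈ H, ∀ x ∈ T, R x → σ x ∈ T := by
    intro T hT x hxT hxR
    have hxW := (mem_HT.1 hT).1.1 hxT
    obtain ⟨h1, h2⟩ := hσ x hxW hxR
    exact common_rich (hrich T hT) hMk (fun B hB hTB hBW => F2 x hxW (σ x) h1 h2 B hB hBW (hTB hxT))
  have F6 : ∀ z ∈ W, ¬ R z → ∃ a b, a ≠ z ∧ b ≠ z ∧ a ≠ b ∧ ({z, a, b} : Finset α) ∈ H ∧ R a ∧ R b := by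
    intro z hz hzR
    obtain ⟨T, hT, hzT⟩ := hS.cov z hz hzR
    obtain ⟨x, hxT, hxR⟩ := F4 T hT
    have hxW := (mem_HT.1 hT).1.1 hxT
    have hs := F5 T hT x hxT hxR
    have hsR := σR x hxW hxR
    have n1 : x ≠ z := fun h => hzR (h ▸ hxR)
    have n2 : σ x ≠ z := fun h => hzR (h ▸ hsR)
    have n3 := (hσ x hxW hxR).1
    have he : ({z, x, σ x} : Finset α) = T := by
      refine eq_of_subset_of_card_le (insert_subset hzT (insert_subset hxT
        (singleton_subset_iff.2 hs))) ?_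
      rw [(mem_HT.1 hT).1.2, card_insert_of_notMem (by
        simp only [mem_insert, mem_singleton, not_or]
        exact ⟨n1.symm, n2.symm⟩), card_pair n3.symm]
    exact ⟨x, σ x, n1, n2, n3.symm, he ▸ hT, hxR, hsR⟩
  have hI : ∀ d : α → ℝ, (∀ v, 4 / 3 ≤ d v) → (∀ v, d v ≤ 3) → (∀ v, R v → d v = 3) →
      (∀ v, ¬ R v → d v ≤ 2) → ∀ x ∈ W, Ineq G W d x := by
    intro d h1 h2 h3 h4 x hx
    by_cases hxR : R x
    · exact hroot d h1 h2 h3 x hxR
    · obtain ⟨a, b, haz, hbz, hab, hT, haR, hbR⟩ := F6 x hx hxR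
      have e1 := h4 x hxR
      have e2 := h3 a haR
      have e3 := h3 b hbR
      have hl : LocOK W H d x := locOK1 hS.sub hT haz hbz hab (by linarith) (by linarith)
        (by linarith) (by linarith [h1 x])
      obtain ⟨C, _, hs⟩ := slack_of_loc hG h1 h2 hrich hl
      exact hs.ineq
  by_cases hall : ∀ x ∈ W, R x
  · exact twin_count hk hG σ (fun x hx => σσ x hx (hall x hx)) (fun x hx => (hσ x hx (hall x hx)).1)
      (fun x hx B hB hBW hxB => F2 x hx (σ x) (hσ x hx (hall x hx)).1 (hσ x hx (hall x hx)).2 B hB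
        hBW hxB)
  · exfalso
    push Not at hall
    obtain ⟨z, hz, hzR⟩ := hall
    set d : α → ℝ := fun v => if R v then 3 else 3 / 2 with hd
    set d' : α → ℝ := fun v => if R v then 3 else if v = z then 2 else 3 / 2 with hd'
    have hd1 : ∀ x ∈ W, Ineq G W d x := by
      refine hI d ?_ ?_ ?_ ?_
      · intro v; simp only [hd]; split_ifs <;> norm_num
      · intro v; simp only [hd]; split_ifs <;> norm_num
      · intro v hv; simp only [hd, if_pos hv]
      · intro v hv; simp only [hd, if_neg hv]; norm_num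
    have hd2 : ∀ x ∈ W, Ineq G W d' x := by
      refine hI d' ?_ ?_ ?_ ?_
      · intro v; simp only [hd']; split_ifs <;> norm_num
      · intro v; simp only [hd']; split_ifs <;> norm_num
      · intro v hv; simp only [hd', if_pos hv]
      · intro v hv; simp only [hd', if_neg hv]; split_ifs <;> norm_num
    refine hfr z hz (free_of_sineq hF hGF (c := d) ?_ hd1 hz ?_ ?_ hno)
    · intro v; simp only [hd]; split_ifs <;> norm_num
    · simp only [hd, if_neg hzR]; norm_num
    · intro 𝒟 hv hne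
      have h1 := hd2 z hz 𝒟 hv
      have h2 : ∑ k ∈ W.erase z, d' k * dg 𝒟 k = ∑ k ∈ W.erase z, d k * dg 𝒟 k := by
        refine sum_congr rfl fun v hv' => ?_
        have : v ≠ z := (mem_erase.1 hv').1
        simp only [hd, hd', if_neg this]
      have h3 : d' z = 2 := by simp only [hd', if_neg hzR, if_true]
      have h4 : d z = 3 / 2 := by simp only [hd, if_neg hzR]
      rw [h2, h3] at h1
      rw [h4]
      have h5 : (0 : ℝ) < 𝒟.card := by exact_mod_cast hne.card_pos
      linarith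

end Pool.Agent.H61.KS
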