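import Pool.Agent.H61.KS5

set_option autoImplicit false
set_option linter.all false

/-!
# The number of `k`-sets which force a strictly frequent element or a free element
-/

namespace Pool.Agent.H61.KS

open Finset Pool.Agent.H61.FC Pool.Agent.H61.PS

variable {α : Type*} [DecidableEq α] {G : Finset (Finset α)} {W : Finset α} {k K : ℕ}

/-- members through a nonroot which contain no dense triple through it -/
theorem deg_nonroot' (hk : 4 ≤ k) (hG : ∀ B ∈ G, B.card = k) {x : α} (hx : x ∈ W)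
    (hR : ¬ RR G W k x) :
    (G.filter (fun B => B ⊆ W ∧ x ∈ B ∧ ∀ T ∈ HT G W k K, x ∈ T → ¬ T ⊆ B)).card ≤
      MM k * k * (MM k * k) * K * W.card ^ (k - 4) := by
  set 𝒢 := G.filter (fun B => B ⊆ W ∧ x ∈ B ∧ ∀ T ∈ HT G W k K, x ∈ T → ¬ T ⊆ B) with h𝒢
  have hsub : ∀ B ∈ 𝒢, B ∈ G ∧ B ⊆ W := fun B hB => ⟨(mem_filter.1 hB).1, (mem_filter.1 hB).2.1⟩
  have h3 : ∀ A : Finset α, A ⊆ W → A.card = 3 → x ∈ A →
      (𝒢.filter (fun B => A ⊆ B)).card ≤ K * W.card ^ (k - 4) := by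
    intro A hAW hA3 hxA
    by_cases hr : K * W.card ^ (k - 4) < (thr G W A).card
    · have : 𝒢.filter (fun B => A ⊆ B) = ∅ := by
        rw [filter_eq_empty_iff]
        intro B hB hs
        exact (mem_filter.1 hB).2.2.2 A (mem_HT.2 ⟨⟨hAW, hA3⟩, hr⟩) hxA hs
      rw [this]; simp
    · push Not at hr
      refine (card_le_card ?_).trans hr
      intro B hB
      rw [mem_filter] at hB
      exact mem_thr.2 ⟨(hsub B hB.1).1, hB.2, (hsub B hB.1).2⟩
  have h2 : ∀ A : Finset α, A ⊆ W → A.card = 2 → x ∈ A →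
      (𝒢.filter (fun B => A ⊆ B)).card ≤ MM k * k * (K * W.card ^ (k - 4)) := by
    intro A hAW hA2 hxA
    have hr : ¬ Rich G W (MM k) A := by
      intro hr
      apply hR
      right
      obtain ⟨y, z, hyz, he⟩ := card_eq_two.1 hA2
      rw [he] at hxA hr
      simp only [mem_insert, mem_singleton] at hxA
      rcases hxA with rfl | rfl
      · exact ⟨z, hyz.symm, hr⟩
      · exact ⟨y, hyz, by rwa [pair_comm] at hr⟩
    refine deg_step hG (by omega) hr hsub ?_
    intro u hu huA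
    exact h3 _ (insert_subset hu hAW) (by rw [card_insert_of_notMem huA, hA2])
      (mem_insert_of_mem hxA)
  have h1 : (𝒢.filter (fun B => ({x} : Finset α) ⊆ B)).card ≤
      MM k * k * (MM k * k * (K * W.card ^ (k - 4))) := by
    have hr : ¬ Rich G W (MM k) {x} := fun hr => hR (Or.inl hr)
    refine deg_step hG (by simp; omega) hr hsub ?_
    intro u hu huA
    refine h2 _ (insert_subset hu (singleton_subset_iff.2 hx)) ?_ (by simp)
    rw [card_insert_of_notMem huA, card_singleton]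
  have h0 : 𝒢.filter (fun B => ({x} : Finset α) ⊆ B) = 𝒢 := by
    rw [filter_true_of_mem]
    intro B hB
    exact singleton_subset_iff.2 (mem_filter.1 hB).2.2.1
  rw [h0] at h1
  refine h1.trans (le_of_eq ?_)
  ring

theorem elim_step' (hk : 4 ≤ k) (hG : ∀ B ∈ G, B.card = k) {S : Finset α} (hSW : S ⊆ W)
    {𝓣 : Finset (Finset α)} (h𝓣 : 𝓣 ⊆ HT G W k K) (hR : ∀ s ∈ S, ¬ RR G W k s)
    (hS : ∀ s ∈ S, ∀ T ∈ HT G W k K, s ∈ T → T ∈ 𝓣) :
    ins G W ≤ ins G (W \ S) + 𝓣.card * (W.card - 3).choose (k - 3) +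
      S.card * (MM k * k * (MM k * k) * K * W.card ^ (k - 4)) := by
  have h1 : G.filter (fun B => B ⊆ W) ⊆ (G.filter (fun B => B ⊆ W \ S)) ∪
      (𝓣.biUnion (fun T => (G.filter (fun B => B ⊆ W)).filter (fun B => T ⊆ B))) ∪
      (S.biUnion (fun x => G.filter (fun B => B ⊆ W ∧ x ∈ B ∧
        ∀ T ∈ HT G W k K, x ∈ T → ¬ T ⊆ B))) := by
    intro B hB
    have hB' := mem_filter.1 hB
    by_cases h : ∃ s ∈ S, s ∈ B
    · obtain ⟨s, hs, hsB⟩ := h
      by_cases h2 : ∃ T ∈ 𝓣, T ⊆ B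
      · obtain ⟨T, hT, hTB⟩ := h2
        exact mem_union_left _ (mem_union_right _ (mem_biUnion.2 ⟨T, hT, mem_filter.2 ⟨hB, hTB⟩⟩))
      · push Not at h2
        refine mem_union_right _ (mem_biUnion.2 ⟨s, hs, mem_filter.2 ⟨hB'.1, hB'.2, hsB, ?_⟩⟩)
        intro T hT hsT
        exact h2 T (hS s hs T hT hsT)
    · push Not at h
      refine mem_union_left _ (mem_union_left _ (mem_filter.2 ⟨hB'.1, ?_⟩))
      intro t ht
      exact mem_sdiff.2 ⟨hB'.2 ht, fun hs => h t hs ht⟩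
  refine (card_le_card h1).trans ((card_union_le _ _).trans ?_)
  refine Nat.add_le_add ((card_union_le _ _).trans (Nat.add_le_add_left ?_ _)) ?_
  · refine card_biUnion_le_card_mul _ _ _ ?_
    intro T hT
    obtain ⟨⟨hTW, hT3⟩, _⟩ := mem_HT.1 (h𝓣 hT)
    have := deg_top hG hTW (𝒢 := G.filter (fun B => B ⊆ W))
      (fun B hB => ⟨(mem_filter.1 hB).1, (mem_filter.1 hB).2⟩)
    rwa [hT3] at this
  · refine card_biUnion_le_card_mul _ _ _ ?_
    intro s hs
    exact deg_nonroot' hk hG (hSW hs) (hR s hs)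

/-- the constant -/
def KQ (k : ℕ) : ℕ := MM k * k * (MM k * k) * KK k

/-- the upper bound, `k ≥ 4` -/
theorem upper4_strict (hk : 4 ≤ k) (hG : ∀ B ∈ G, B.card = k) {F : Finset (Finset α)}
    (hF : ∀ A ∈ F, ∀ B ∈ F, A ∪ B ∈ F) (hGF : G ⊆ F) (n : ℕ) (m : ℕ) :
    ∀ W : Finset α, W.card = m → W.card ≤ n →
      (∀ x ∈ W, 2 * (F.filter (fun A => x ∈ A)).card ≤ F.card) → (∀ b ∈ W, ¬ Free F b) →
      2 * ins G W ≤ W.card.choose (k - 2) + (2 * KQ k + 1) * n ^ (k - 4) * W.card := by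
  induction m using Nat.strong_induction_on with
  | _ m ih =>
  intro W hWm hWn hno hfr
  rcases W.eq_empty_or_nonempty with rfl | hne
  · have : ins G ∅ = 0 := by
      unfold ins
      rw [card_eq_zero, filter_eq_empty_iff]
      intro B hB hs
      rw [subset_empty] at hs
      have := hG B hB
      rw [hs, card_empty] at this
      omega
    rw [this]; simp
  by_cases hstuck : Stuck W (HT G W k (KK k)) (RR G W k)
  · exact (stuck_twin hk hG hF hGF hstuck hno hfr).trans (Nat.le_add_right _ _)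
  obtain ⟨S, hSW, 𝓣, h𝓣, hR, hST, hcard⟩ := not_stuck (fun T hT => (mem_HT.1 hT).1.1)
    (fun T hT => (mem_HT.1 hT).1.2) hstuck
  have h1 := elim_step' hk hG hSW h𝓣 hR hST
  have hSc : S.card ≤ W.card := card_le_card hSW
  have hc : (W \ S).card = W.card - S.card := card_sdiff_of_subset hSW
  have hpos : 0 < W.card := hne.card_pos
  have hlt : (W \ S).card < m := by
    rw [hc]
    rcases hcard with h | h | h <;> omega
  have h2 := ih _ hlt (W \ S) rfl (by rw [hc]; omega) (fun x hx => hno x (sdiff_subset hx))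
    (fun x hx => hfr x (sdiff_subset hx))
  rw [hc] at h2
  have hpow : W.card ^ (k - 4) ≤ n ^ (k - 4) := Nat.pow_le_pow_left hWn _
  have eK : MM k * k * (MM k * k) * KK k = KQ k := rfl
  rw [eK] at h1
  set K0 := KQ k with hK0
  set P := n ^ (k - 4) with hP
  have hK0P : K0 * W.card ^ (k - 4) ≤ K0 * P := Nat.mul_le_mul_left _ hpow
  obtain ⟨j, rfl⟩ : ∃ j, k = j + 4 := ⟨k - 4, by omega⟩
  have e1 : j + 4 - 2 = j + 2 := by omega
  have e2 : j + 4 - 3 = j + 1 := by omega
  have e3 : j + 4 - 4 = j := by omega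
  rw [e1] at h2 ⊢
  rw [e2] at h1
  rcases hcard with ⟨hS1, hT1⟩ | ⟨hS1, hT1⟩ | ⟨hS1, hT1⟩
  · rw [hS1, hT1] at h1
    rw [hS1] at h2
    obtain ⟨w, hw⟩ : ∃ w, W.card = w + 1 := ⟨W.card - 1, by omega⟩
    rw [hw] at h1 h2 hK0P ⊢
    have e4 : w + 1 - 1 = w := by omega
    rw [e4] at h2
    have h3 : w.choose (j + 2) ≤ (w + 1).choose (j + 2) := Nat.choose_le_choose _ (by omega)
    nlinarith
  · rw [hS1, hT1] at h1
    rw [hS1] at h2
    obtain ⟨w, hw⟩ : ∃ w, W.card = w + 2 := ⟨W.card - 2, by omega⟩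
    rw [hw] at h1 h2 hK0P ⊢
    have e4 : w + 2 - 2 = w := by omega
    rw [e4] at h2
    have h3 : (w + 2).choose (j + 2) = (w + 1).choose (j + 1) + (w.choose (j + 1) + w.choose (j + 2)) := by
      rw [Nat.choose_succ_succ' (w + 1) (j + 1), Nat.choose_succ_succ' w (j + 1)]
    have h4 : (w + 2 - 3).choose (j + 1) ≤ w.choose (j + 1) := Nat.choose_le_choose _ (by omega)
    have h5 : w.choose (j + 1) ≤ (w + 1).choose (j + 1) := Nat.choose_le_choose _ (by omega)
    nlinarith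
  · rw [hS1, hT1] at h1
    rw [hS1] at h2
    obtain ⟨w, hw⟩ : ∃ w, W.card = w + 4 := ⟨W.card - 4, by omega⟩
    rw [hw] at h1 h2 hK0P hWn ⊢
    have e4 : w + 4 - 4 = w := by omega
    have e5 : w + 4 - 3 = w + 1 := by omega
    rw [e4] at h2
    rw [e5] at h1
    have h3 : (w + 4).choose (j + 2) = (w + 3).choose (j + 1) + ((w + 2).choose (j + 1) +
        ((w + 1).choose (j + 1) + (w.choose (j + 1) + w.choose (j + 2)))) := by
      rw [Nat.choose_succ_succ' (w + 3) (j + 1), Nat.choose_succ_succ' (w + 2) (j + 1),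
        Nat.choose_succ_succ' (w + 1) (j + 1), Nat.choose_succ_succ' w (j + 1)]
    have h4 : (w + 1).choose (j + 1) = w.choose j + w.choose (j + 1) := Nat.choose_succ_succ' _ _
    have h5 : (w + 1).choose (j + 1) ≤ (w + 2).choose (j + 1) := Nat.choose_le_choose _ (by omega)
    have h6 : (w + 2).choose (j + 1) ≤ (w + 3).choose (j + 1) := Nat.choose_le_choose _ (by omega)
    have h7 : w.choose j ≤ P := by
      refine (choose_le_pow' _ _).trans ?_
      rw [hP, e3]
      exact Nat.pow_le_pow_left (by omega) _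
    nlinarith

end Pool.Agent.H61.KS
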