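import Mathlib

set_option autoImplicit false
set_option linter.all false

/-!
# The inequality for the weights of one set: real inequalities for three and four elements
-/

namespace Pool.Agent.H61.LF

theorem amgm {a b d : ℝ} (ha : 0 ≤ a) (hb : 0 ≤ b) (hd : 0 ≤ d) (h : d ^ 2 ≤ 4 * (a * b)) :
    d ≤ a + b := by
  by_contra hcon
  push Not at hcon
  nlinarith [sq_nonneg (a - b)]

/-- `x + c / x ≥ d` -/
theorem xc {x c d : ℝ} (hx : 0 < x) (hc : 0 ≤ c) (hd : 0 ≤ d) (h : d ^ 2 ≤ 4 * c) :
    d ≤ x + c / x := by
  refine amgm hx.le (by positivity) hd ?_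
  have : x * (c / x) = c := by field_simp
  rw [this]; exact h

theorem two_le {x y : ℝ} (hx : 0 < x) (hy : 0 < y) : 2 ≤ x / y + y / x := by
  refine amgm (by positivity) (by positivity) (by norm_num) ?_
  have : x / y * (y / x) = 1 := by field_simp
  rw [this]; norm_num

/-- three elements -/
theorem real3 {s t : ℝ} (hs : 1 ≤ s) (hst : s ≤ t) :
    6 ≤ s + 1 / s + min (2 * s) t + min 2 t / s + 3 * min 1 ((1 + s) / 3) / t := by
  have hs0 : 0 < s := by linarith
  have ht0 : 0 < t := by linarith
  have hφ : (2 : ℝ) / 3 ≤ min 1 ((1 + s) / 3) := le_min (by norm_num) (by linarith)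
  rcases le_total (2 * s) t with h1 | h1
  · rw [min_eq_left h1, min_eq_left (by linarith)]
    have h2 : 0 ≤ 3 * min 1 ((1 + s) / 3) / t := by positivity
    have h3 : 2 ≤ s + 1 / s := xc hs0 (by norm_num) (by norm_num) (by norm_num)
    have h4 : (2 : ℝ) / s = 2 * (1 / s) := by ring
    rw [h4]
    linarith
  · rw [min_eq_right h1]
    rcases le_total 2 t with h2 | h2
    · rw [min_eq_left h2]
      have h3 : 2 / t ≤ 3 * min 1 ((1 + s) / 3) / t := by
        apply div_le_div_of_nonneg_right _ ht0.le
        linarith
      have h4 : 3 ≤ t + 2 / t := by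
        have : t + 2 / t - 3 = (t - 1) * (t - 2) / t := by field_simp; ring
        have h5 : 0 ≤ (t - 1) * (t - 2) / t :=
          div_nonneg (mul_nonneg (by linarith) (by linarith)) ht0.le
        linarith
      have h5 : 3 ≤ s + 3 / s := xc hs0 (by norm_num) (by norm_num) (by norm_num)
      have h6 : (3 : ℝ) / s = 1 / s + 2 / s := by ring
      linarith
    · rw [min_eq_right h2, min_eq_right (by linarith)]
      have h3 := two_le hs0 one_pos
      have h4 := two_le ht0 one_pos
      have h5 := two_le ht0 hs0
      have h6 : 3 * ((1 + s) / 3) / t = 1 / t + s / t := by field_simp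
      rw [h6]
      simp only [div_one] at h3 h4
      linarith

theorem fb {s v a3 : ℝ} (hs : 1 ≤ s) (hv : 2 ≤ v) (ha3 : 2 / 3 ≤ a3) :
    2 ≤ min s ((s + v) / 3) + 1 / s + a3 / v := by
  have hs0 : 0 < s := by linarith
  have hv0 : 0 < v := by linarith
  have h0 : (2 / 3) / v ≤ a3 / v := div_le_div_of_nonneg_right ha3 hv0.le
  have h00 : 0 ≤ a3 / v := by positivity
  rcases le_total s ((s + v) / 3) with h1 | h1
  · rw [min_eq_left h1]
    have h3 : 2 ≤ s + 1 / s := xc hs0 (by norm_num) (by norm_num) (by norm_num)
    linarith
  · rw [min_eq_right h1]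
    have h3 : 345 / 100 ≤ s + 3 / s := xc hs0 (by norm_num) (by norm_num) (by norm_num)
    have h4 : 27 / 10 ≤ v + 2 / v := xc hv0 (by norm_num) (by norm_num) (by norm_num)
    have e1 : (3 : ℝ) / s = 3 * (1 / s) := by ring
    have e2 : (2 / 3) / v = (1 / 3) * (2 / v) := by ring
    linarith

/-- four elements -/
theorem real4 {s v t : ℝ} (hs : 1 ≤ s) (hsv : s ≤ v) (hvt : v ≤ t) :
    12 ≤ 3 * (min s ((s + v) / 3) + min 1 ((1 + v) / 3) / s + min 1 ((1 + s) / 3) / v) +
      min (4 * min s ((s + v) / 3)) t + min (4 * min 1 ((1 + v) / 3)) t / s +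
      min (4 * min 1 ((1 + s) / 3)) t / v + 7 * min 1 (min ((1 + s) / 3) ((1 + s + v) / 7)) / t := by
  have hs0 : 0 < s := by linarith
  have hv0 : 0 < v := by linarith
  have ht0 : 0 < t := by linarith
  have hφ0 : 0 ≤ 7 * min 1 (min ((1 + s) / 3) ((1 + s + v) / 7)) / t := by positivity
  rcases lt_or_ge v 2 with hv2 | hv2
  · -- all the minima are the last ones
    have e1 : min s ((s + v) / 3) = (s + v) / 3 := min_eq_right (by linarith)
    have e2 : min 1 ((1 + v) / 3) = (1 + v) / 3 := min_eq_right (by linarith)
    have e3 : min 1 ((1 + s) / 3) = (1 + s) / 3 := min_eq_right (by linarith)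
    have e4 : min 1 (min ((1 + s) / 3) ((1 + s + v) / 7)) = (1 + s + v) / 7 := by
      rw [min_eq_right (a := (1 + s) / 3) (by linarith), min_eq_right (by linarith)]
    rw [e4] at hφ0 ⊢
    rw [e1, e2, e3]
    rcases le_total t (4 * ((1 + s) / 3)) with h1 | h1
    · rw [min_eq_right (a := 4 * ((s + v) / 3)) (by linarith),
        min_eq_right (a := 4 * ((1 + v) / 3)) (by linarith), min_eq_right h1]
      have g1 := two_le hs0 one_pos
      have g2 := two_le hv0 one_pos
      have g3 := two_le ht0 one_pos
      have g4 := two_le hs0 hv0
      have g5 := two_le hs0 ht0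
      have g6 := two_le hv0 ht0
      simp only [div_one] at g1 g2 g3
      have h7 : 3 * ((s + v) / 3 + (1 + v) / 3 / s + (1 + s) / 3 / v) + t + t / s + t / v +
          7 * ((1 + s + v) / 7) / t = (s + 1 / s) + (v + 1 / v) + (t + 1 / t) + (s / v + v / s) +
          (s / t + t / s) + (v / t + t / v) := by
        field_simp
        ring
      rw [h7]
      linarith
    · have m1 : (8 : ℝ) / 3 ≤ min (4 * ((s + v) / 3)) t := le_min (by linarith) (by linarith)
      have m2 : (8 : ℝ) / 3 ≤ min (4 * ((1 + v) / 3)) t := le_min (by linarith) (by linarith)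
      have m3 : (8 : ℝ) / 3 ≤ min (4 * ((1 + s) / 3)) t := le_min (by linarith) (by linarith)
      have k2 := div_le_div_of_nonneg_right m2 hs0.le
      have k3 := div_le_div_of_nonneg_right m3 hv0.le
      have g1 : 38 / 10 ≤ s + (11 / 3) / s := xc hs0 (by norm_num) (by norm_num) (by norm_num)
      have g2 : 38 / 10 ≤ v + (11 / 3) / v := xc hv0 (by norm_num) (by norm_num) (by norm_num)
      have g3 := two_le hs0 hv0
      have h7 : 3 * ((s + v) / 3 + (1 + v) / 3 / s + (1 + s) / 3 / v) + 8 / 3 + 8 / 3 / s +
          8 / 3 / v = 8 / 3 + (s + (11 / 3) / s) + (v + (11 / 3) / v) + (s / v + v / s) := by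
        field_simp
        ring
      linarith
  · have e2 : min 1 ((1 + v) / 3) = 1 := min_eq_left (by linarith)
    have ha1 : (1 : ℝ) ≤ min s ((s + v) / 3) := le_min hs (by linarith)
    have ha3 : (2 : ℝ) / 3 ≤ min 1 ((1 + s) / 3) := le_min (by norm_num) (by linarith)
    have hF := fb hs hv2 ha3
    rw [e2, mul_one]
    rcases le_total 4 t with h4 | h4
    · rw [min_eq_left h4]
      have m1 : (4 : ℝ) ≤ min (4 * min s ((s + v) / 3)) t := le_min (by linarith) h4
      have m3 : (8 : ℝ) / 3 ≤ min (4 * min 1 ((1 + s) / 3)) t := le_min (by linarith) (by linarith)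
      have k3 := div_le_div_of_nonneg_right m3 hv0.le
      have k4 := div_le_div_of_nonneg_right ha3 hv0.le
      rcases le_total s ((s + v) / 3) with h1 | h1
      · rw [min_eq_left h1] at m1 ⊢
        have g1 : 3 ≤ s + (7 / 3) / s := xc hs0 (by norm_num) (by norm_num) (by norm_num)
        have e3 : (7 / 3) / s * 3 = 3 * (1 / s) + 4 / s := by field_simp; ring
        have k5 : 0 ≤ min 1 ((1 + s) / 3) / v := by positivity
        have k6 : 0 ≤ min (4 * min 1 ((1 + s) / 3)) t / v := by positivity
        linarith
      · rw [min_eq_right h1] at m1 ⊢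
        have g1 : 5 ≤ s + 7 / s := xc hs0 (by norm_num) (by norm_num) (by norm_num)
        have g2 : 4 ≤ v + (14 / 3) / v := xc hv0 (by norm_num) (by norm_num) (by norm_num)
        have e3 : (7 : ℝ) / s = 3 * (1 / s) + 4 / s := by ring
        have e4 : (14 / 3) / v = 3 * (2 / 3 / v) + 8 / 3 / v := by ring
        linarith
    · rw [min_eq_right h4, min_eq_right (a := 4 * min s ((s + v) / 3)) (by linarith)]
      have hs4 : s ≤ 4 := by linarith
      -- the six-bound
      have six1 : 6 ≤ t * (1 + 1 / s + 1 / v) + (1 + s + v) / t := by
        have g3 := two_le ht0 one_pos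
        have g5 := two_le hs0 ht0
        have g6 := two_le hv0 ht0
        simp only [div_one] at g3
        have : t * (1 + 1 / s + 1 / v) + (1 + s + v) / t = (t + 1 / t) + (s / t + t / s) +
            (v / t + t / v) := by field_simp; ring
        rw [this]; linarith
      have six2 : 6 ≤ t * (1 + 1 / s) + (7 / 3) * (1 + s) / t := by
        refine amgm (by positivity) (by positivity) (by norm_num) ?_
        have e5 : t * (1 + 1 / s) * ((7 / 3) * (1 + s) / t) = (7 / 3) * ((s + 1 / s) + 2) := by
          field_simp; ring
        rw [e5]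
        have h3 : 2 ≤ s + 1 / s := xc hs0 (by norm_num) (by norm_num) (by norm_num)
        nlinarith
      have hv4 : v ≤ 4 := by linarith
      rcases le_total t (4 * min 1 ((1 + s) / 3)) with h5 | h5
      · rw [min_eq_right h5]
        have ev : 0 ≤ t / v := by positivity
        rcases le_total 1 (min ((1 + s) / 3) ((1 + s + v) / 7)) with h6 | h6
        · rw [min_eq_left h6]
          have h7 := le_min_iff.1 h6
          have hs2 : 2 ≤ s := by linarith [h7.1]
          have e3 : min 1 ((1 + s) / 3) = 1 := min_eq_left (by linarith)
          have ha : (2 : ℝ) ≤ min s ((s + v) / 3) := le_min hs2 (by linarith [h7.2])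
          rw [e3]
          have i1 : (1 : ℝ) / 4 ≤ 1 / s := by
            apply one_div_le_one_div_of_le hs0 hs4
          have i2 : (1 : ℝ) / 4 ≤ 1 / v := by
            apply one_div_le_one_div_of_le hv0 hv4
          have i3 : t * (1 / 4) ≤ t / s := by
            rw [div_eq_mul_one_div t s]; exact mul_le_mul_of_nonneg_left i1 ht0.le
          have i4 : t * (1 / 4) ≤ t / v := by
            rw [div_eq_mul_one_div t v]; exact mul_le_mul_of_nonneg_left i2 ht0.le
          have g1 : 4 ≤ t + (14 / 3) / t := xc ht0 (by norm_num) (by norm_num) (by norm_num)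
          have e6 : (14 / 3) / t * (3 / 2) = 7 * 1 / t := by ring
          linarith
        · rw [min_eq_right h6]
          rcases le_total ((1 + s) / 3) ((1 + s + v) / 7) with h8 | h8
          · rw [min_eq_left h8]
            have e5 : 7 * ((1 + s) / 3) / t = (7 / 3) * (1 + s) / t := by ring
            have e6 : t * (1 + 1 / s) = t + t / s := by ring
            rw [e5]
            rw [e6] at six2
            linarith
          · rw [min_eq_right h8]
            have e5 : 7 * ((1 + s + v) / 7) / t = (1 + s + v) / t := by ring
            have e6 : t * (1 + 1 / s + 1 / v) = t + t / s + t / v := by ring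
            rw [e5]
            rw [e6] at six1
            linarith
      · rw [min_eq_left h5]
        have hs2 : s < 2 ∨ t = 4 := by
          by_cases hs2 : s < 2
          · exact Or.inl hs2
          · push Not at hs2
            rw [min_eq_left (by linarith)] at h5
            right; linarith
        have hfin : 12 ≤ 3 * (min s ((s + v) / 3) + 1 / s + min 1 ((1 + s) / 3) / v) + t + t / s +
            4 * min 1 ((1 + s) / 3) / v + 7 * min 1 (min ((1 + s) / 3) ((1 + s + v) / 7)) / t := by
          have pv : 0 ≤ 4 * min 1 ((1 + s) / 3) / v := by positivity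
          rcases hs2 with hs2 | ht4
          · have e3 : min 1 ((1 + s) / 3) = (1 + s) / 3 := min_eq_right (by linarith)
            have e4 : min 1 (min ((1 + s) / 3) ((1 + s + v) / 7)) =
                min ((1 + s) / 3) ((1 + s + v) / 7) :=
              min_eq_right ((min_le_left _ _).trans (by linarith))
            rw [e4]
            rcases le_total ((1 + s) / 3) ((1 + s + v) / 7) with h8 | h8
            · rw [min_eq_left h8]
              have e5 : 7 * ((1 + s) / 3) / t = (7 / 3) * (1 + s) / t := by ring
              have e6 : t * (1 + 1 / s) = t + t / s := by ring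
              rw [e5]
              rw [e6] at six2
              linarith
            · rw [min_eq_right h8, e3]
              have e5 : 7 * ((1 + s + v) / 7) / t = (1 + s + v) / t := by ring
              rw [e5]
              have i1 : 54 / 10 ≤ t * (1 + 1 / s) + (1 + s + v) / t := by
                refine amgm (by positivity) (by positivity) (by norm_num) ?_
                have e6 : t * (1 + 1 / s) * ((1 + s + v) / t) = (1 + 1 / s) * (1 + s + v) := by
                  field_simp
                rw [e6]
                have h3 : 33 / 10 ≤ s + 3 / s := xc hs0 (by norm_num) (by norm_num) (by norm_num)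
                have h9 : (1 + 1 / s) * (3 + s) = 4 + (s + 3 / s) := by field_simp; ring
                have h10 : (1 + 1 / s) * (3 + s) ≤ (1 + 1 / s) * (1 + s + v) :=
                  mul_le_mul_of_nonneg_left (by linarith) (by positivity)
                linarith
              have e6 : t * (1 + 1 / s) = t + t / s := by ring
              rw [e6] at i1
              have e7 : 3 * ((1 + s) / 3 / v) + 4 * ((1 + s) / 3) / v = (7 / 3) * (1 + s) / v := by
                field_simp; ring
              have i2 : (14 / 3) / v ≤ (7 / 3) * (1 + s) / v :=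
                div_le_div_of_nonneg_right (by linarith) hv0.le
              rcases le_total s ((s + v) / 3) with h1 | h1
              · rw [min_eq_left h1]
                have g1 : 2 ≤ s + 1 / s := xc hs0 (by norm_num) (by norm_num) (by norm_num)
                have g2 : (14 / 3) / 4 ≤ (14 / 3) / v :=
                  div_le_div_of_nonneg_left (by norm_num) hv0 hv4
                linarith
              · rw [min_eq_right h1]
                have g1 : 34 / 10 ≤ s + 3 / s := xc hs0 (by norm_num) (by norm_num) (by norm_num)
                have g2 : 4 ≤ v + (14 / 3) / v := xc hv0 (by norm_num) (by norm_num) (by norm_num)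
                have e8 : (3 : ℝ) / s = 3 * (1 / s) := by ring
                linarith
          · subst ht4
            have m1 : (4 : ℝ) ≤ 4 * min s ((s + v) / 3) := by linarith
            have k4 := div_le_div_of_nonneg_right ha3 hv0.le
            have k5 : 4 * (2 / 3) / v ≤ 4 * min 1 ((1 + s) / 3) / v :=
              div_le_div_of_nonneg_right (by linarith) hv0.le
            rcases le_total s ((s + v) / 3) with h1 | h1
            · rw [min_eq_left h1] at m1 ⊢
              have g1 : 3 ≤ s + (7 / 3) / s := xc hs0 (by norm_num) (by norm_num) (by norm_num)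
              have e3 : (7 / 3) / s * 3 = 3 * (1 / s) + 4 / s := by field_simp; ring
              have k6 : 0 ≤ min 1 ((1 + s) / 3) / v := by positivity
              linarith
            · rw [min_eq_right h1] at m1 ⊢
              have g1 : 5 ≤ s + 7 / s := xc hs0 (by norm_num) (by norm_num) (by norm_num)
              have g2 : 4 ≤ v + (14 / 3) / v := xc hv0 (by norm_num) (by norm_num) (by norm_num)
              have e3 : (7 : ℝ) / s = 3 * (1 / s) + 4 / s := by ring
              have e4 : (14 / 3) / v = 3 * (2 / 3 / v) + 4 * (2 / 3) / v := by field_simp; ring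
              linarith
        exact hfin

end Pool.Agent.H61.LF
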