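import Pool.Agent.H61.LF9
import Pool.Graph.R_pool_sql_team_seeded_63374d34.N361.DC.Rand
import Pool.Graph.R_pool_sql_team_seeded_63374d34.N849.DC.Mono
import Pool.Graph.R_pool_sql_team_seeded_63374d34.N87.DC.Conf

set_option autoImplicit false
set_option linter.all false

/-!
# Corollaries: uniform families, Steiner systems, almost all families
-/

namespace Pool.Agent.H61.LF

open Finset Pool.Agent.H61.FC

theorem Linear.codeg {K : Finset (Finset ℕ)} (h : Linear K) {x y : ℕ} (hxy : x ≠ y) :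
    #(K.filter (fun A => x ∈ A ∧ y ∈ A)) ≤ 1 :=
  Pool.Agent.N361.DC.codeg_one (fun A hA A' hA' hne => h A hA A' hA' hne) hxy

/-- the average of the weights -/
theorem sum_om {G : Finset (Finset ℕ)} {S : Finset ℕ} (hG : ∀ A ∈ G, A ⊆ S) :
    ∑ x ∈ S, om G x = ∑ A ∈ G, (#A : ℝ) * (#A - 1) / (2 ^ (#A - 1) - 1) := by
  unfold om
  have e1 : ∀ x ∈ S, ∑ A ∈ G.filter (fun A => x ∈ A), ((#A : ℝ) - 1) / (2 ^ (#A - 1) - 1) =
      ∑ A ∈ G, if x ∈ A then ((#A : ℝ) - 1) / (2 ^ (#A - 1) - 1) else 0 := fun x _ => sum_filter _ _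
  rw [sum_congr rfl e1, sum_comm]
  refine sum_congr rfl fun A hA => ?_
  rw [← sum_filter, filter_mem_eq_inter, inter_eq_right.2 (hG A hA), sum_const, nsmul_eq_mul]
  ring

/-- linear families whose average weight is at least `1` -/
theorem linear_fc {F G : Finset (Finset ℕ)} {S : Finset ℕ} (hF : ∀ A ∈ F, ∀ B ∈ F, A ∪ B ∈ F)
    (hGF : G ⊆ F) (hS : S.Nonempty) (hG : ∀ A ∈ G, A ⊆ S) (hlin : Linear G)
    (hG2 : ∀ A ∈ G, 2 ≤ #A) (h : (#S : ℝ) ≤ ∑ x ∈ S, om G x) :
    ∃ x ∈ S, #F ≤ 2 * #(F.filter (fun A => x ∈ A)) := by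
  refine criterion (l := fun _ => 1) hF hGF hG hG2 hS (fun _ _ => zero_le_one) ?_ ?_
  · intro x _ y _ hxy
    rw [sum_const, nsmul_eq_mul, mul_one]
    exact_mod_cast hlin.codeg hxy
  · rw [sum_om hG] at h
    simpa using h

/-- uniform families with given codegrees -/
theorem unif_fc {F G : Finset (Finset ℕ)} {S : Finset ℕ} {k l : ℕ}
    (hF : ∀ A ∈ F, ∀ B ∈ F, A ∪ B ∈ F)
    (hGF : G ⊆ F) (hS : S.Nonempty) (hk : 2 ≤ k) (hG : ∀ A ∈ G, A ⊆ S ∧ #A = k)
    (hcod : ∀ x ∈ S, ∀ y ∈ S, x ≠ y → #(G.filter (fun A => x ∈ A ∧ y ∈ A)) ≤ l)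
    (hl : 1 ≤ l) (h : l * ((2 ^ (k - 1) - 1) * #S) ≤ k * (k - 1) * #G) :
    ∃ x ∈ S, #F ≤ 2 * #(F.filter (fun A => x ∈ A)) := by
  have hl' : (0 : ℝ) < l := by exact_mod_cast hl
  refine criterion (l := fun _ => 1 / (l : ℝ)) hF hGF (fun A hA => (hG A hA).1)
    (fun A hA => by rw [(hG A hA).2]; exact hk) hS (fun _ _ => by positivity) ?_ ?_
  · intro x hx y hy hxy
    rw [sum_const, nsmul_eq_mul, mul_one_div, div_le_one hl']
    exact_mod_cast hcod x hx y hy hxy
  · have e1 : ∑ A ∈ G, 1 / (l : ℝ) * ((#A : ℝ) * (#A - 1) / (2 ^ (#A - 1) - 1)) =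
        #G * (1 / (l : ℝ) * ((k : ℝ) * (k - 1) / (2 ^ (k - 1) - 1))) := by
      rw [← nsmul_eq_mul, ← sum_const]
      exact sum_congr rfl fun A hA => by rw [(hG A hA).2]
    rw [e1]
    have hp := pow_pos' hk
    have h2 : (l : ℝ) * ((2 ^ (k - 1) - 1) * #S) ≤ k * (k - 1) * #G := by
      have h3 : ((l * ((2 ^ (k - 1) - 1) * #S) : ℕ) : ℝ) ≤ ((k * (k - 1) * #G : ℕ) : ℝ) := by
        exact_mod_cast h
      push_cast [Nat.cast_sub (by omega : 1 ≤ k), Nat.cast_sub (Nat.one_le_two_pow (n := k - 1))] at h3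
      exact h3
    have e2 : (#G : ℝ) * (1 / (l : ℝ) * ((k : ℝ) * (k - 1) / (2 ^ (k - 1) - 1))) =
        (k * (k - 1) * #G) / (l * (2 ^ (k - 1) - 1)) := by
      field_simp
    rw [e2, le_div_iff₀ (by positivity)]
    linarith

/-- the admissible values -/
def LFs (k n : ℕ) : Set ℕ :=
  {m : ℕ | ∀ F K : Finset (Finset ℕ), (∀ A ∈ F, ∀ B ∈ F, A ∪ B ∈ F) → K ⊆ F →
    (∀ A ∈ K, A ⊆ range n ∧ #A = k) → Linear K → m ≤ #K →
    ∃ x ∈ range n, #F ≤ 2 * #(F.filter (fun A => x ∈ A))}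

theorem LFs_upper {k n m : ℕ} (hk : 2 ≤ k) (hn : 1 ≤ n)
    (h : (2 ^ (k - 1) - 1) * n ≤ k * (k - 1) * m) : m ∈ LFs k n := by
  intro F K hF hKF hK hlin hm
  refine unif_fc (l := 1) hF hKF (nonempty_range_iff.2 (by omega)) hk hK
    (fun x _ y _ hxy => hlin.codeg hxy) le_rfl ?_
  rw [one_mul, card_range]
  exact h.trans (Nat.mul_le_mul_left _ hm)

theorem LFs_lower {k n m d : ℕ} (hk : 2 ≤ k) (hd : d * (k - 1) + 1 < 2 ^ (k - 1))
    (hn : k * (d * k) ≤ n) (hn0 : k ≤ n) (hm : m ∈ LFs k n) : n / k * d < m := by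
  by_contra hcon
  push Not at hcon
  have hkp : 0 < k := by omega
  have hmk : d * k ≤ n / k := by
    rw [Nat.le_div_iff_mul_le hkp, mul_comm]
    exact hn
  have hm0 : 0 < n / k := Nat.div_pos hn0 hkp
  have hkm : k * (n / k) ≤ n := Nat.mul_div_le n k
  obtain ⟨F, hF, hKF, hx⟩ := lower hk hd hn hn0
  obtain ⟨x, hxn, hab⟩ := hm F _ hF hKF
    (fun A hA => ⟨(KK_mem hm0 hA).1.trans (range_subset_range.2 hkm), (KK_mem hm0 hA).2⟩)
    (KK_linear hk hmk) (by rw [KK_card hk hmk]; exact hcon)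
  have := hx x hxn
  omega

theorem lfc_bounds {k n : ℕ} (hk : 3 ≤ k) (hn : k ^ 2 * 2 ^ (k - 1) ≤ n) :
    (2 ^ (k - 1) - k) * (n - k) < k * (k - 1) * sInf (LFs k n) ∧
    k * (k - 1) * sInf (LFs k n) ≤ (2 ^ (k - 1) - 1) * n + k * (k - 1) := by
  have hk2 : 2 ≤ k := by omega
  have hkp : 0 < k := by omega
  have hn1 : k ≤ n := by
    refine le_trans ?_ hn
    calc k = k * 1 * 1 := by ring
      _ ≤ k * k * 2 ^ (k - 1) := by
        exact Nat.mul_le_mul (Nat.mul_le_mul_left _ (by omega)) Nat.one_le_two_pow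
      _ = k ^ 2 * 2 ^ (k - 1) := by ring
  have hkk : 0 < k * (k - 1) := Nat.mul_pos hkp (by omega)
  set q := (2 ^ (k - 1) - 1) * n / (k * (k - 1)) with hq
  have h1 : (2 ^ (k - 1) - 1) * n < k * (k - 1) * (q + 1) :=
    Nat.lt_mul_div_succ _ hkk
  have h2 : k * (k - 1) * q ≤ (2 ^ (k - 1) - 1) * n := Nat.mul_div_le _ _
  have hmem : q + 1 ∈ LFs k n := LFs_upper hk2 (by omega) h1.le
  have hmem' := Nat.sInf_mem (⟨_, hmem⟩ : (LFs k n).Nonempty)
  have h3 : sInf (LFs k n) ≤ q + 1 := Nat.sInf_le hmem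
  constructor
  · -- the lower bound
    have hpow : 2 ≤ 2 ^ (k - 1) := by
      calc 2 = 2 ^ 1 := rfl
        _ ≤ 2 ^ (k - 1) := Nat.pow_le_pow_right (by norm_num) (by omega)
    set d := (2 ^ (k - 1) - 2) / (k - 1) with hd
    have hd1 : (k - 1) * d ≤ 2 ^ (k - 1) - 2 := Nat.mul_div_le _ _
    have hd2 : 2 ^ (k - 1) - 2 < (k - 1) * (d + 1) := Nat.lt_mul_div_succ _ (by omega)
    have hd3 : d ≤ 2 ^ (k - 1) := (Nat.div_le_self _ _).trans (Nat.sub_le _ _)
    have h4 := LFs_lower (d := d) hk2 (by rw [mul_comm]; omega)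
      (by
        refine le_trans ?_ hn
        calc k * (d * k) = k ^ 2 * d := by ring
          _ ≤ k ^ 2 * 2 ^ (k - 1) := Nat.mul_le_mul_left _ hd3) hn1 hmem'
    have h5 : n - k ≤ k * (n / k) := by
      have := Nat.lt_mul_div_succ n hkp
      rw [mul_add, mul_one] at this
      omega
    have h6 : 2 ^ (k - 1) - k ≤ (k - 1) * d := by
      rw [mul_add, mul_one] at hd2
      omega
    calc (2 ^ (k - 1) - k) * (n - k) ≤ ((k - 1) * d) * (k * (n / k)) := Nat.mul_le_mul h6 h5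
      _ = k * (k - 1) * (n / k * d) := by ring
      _ < k * (k - 1) * sInf (LFs k n) := Nat.mul_lt_mul_of_pos_left h4 hkk
  · calc k * (k - 1) * sInf (LFs k n) ≤ k * (k - 1) * (q + 1) := Nat.mul_le_mul_left _ h3
      _ = k * (k - 1) * q + k * (k - 1) := by ring
      _ ≤ _ := Nat.add_le_add_right h2 _

/-- Steiner systems -/
theorem steiner {G : Finset (Finset ℕ)} {S : Finset ℕ} {k : ℕ} (hk : 2 ≤ k) (hS : 2 ≤ #S)
    (hG : ∀ A ∈ G, A ⊆ S ∧ #A = k)
    (hcod : ∀ x ∈ S, ∀ y ∈ S, x ≠ y → #(G.filter (fun A => x ∈ A ∧ y ∈ A)) = 1) :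
    Linear G ∧ ∀ x ∈ S, om G x = ((#S : ℝ) - 1) / (2 ^ (k - 1) - 1) := by
  constructor
  · intro A hA B hB hne
    by_contra hcon
    push Not at hcon
    obtain ⟨x, hx, y, hy, hxy⟩ := one_lt_card.1 hcon
    rw [mem_inter] at hx hy
    have h1 := hcod x ((hG A hA).1 hx.1) y ((hG A hA).1 hy.1) hxy
    obtain ⟨C, hC⟩ := card_eq_one.1 h1
    have hA' : A ∈ G.filter (fun A => x ∈ A ∧ y ∈ A) := mem_filter.2 ⟨hA, hx.1, hy.1⟩
    have hB' : B ∈ G.filter (fun A => x ∈ A ∧ y ∈ A) := mem_filter.2 ⟨hB, hx.2, hy.2⟩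
    rw [hC, mem_singleton] at hA' hB'
    exact hne (hA'.trans hB'.symm)
  · intro x hx
    rw [om_uniform (fun A hA => (hG A hA).2)]
    have h1 : ∑ A ∈ G.filter (fun A => x ∈ A), #(A.erase x) = #(S.erase x) := by
      have e1 : ∀ A ∈ G.filter (fun A => x ∈ A), #(A.erase x) =
          ∑ y ∈ S.erase x, if y ∈ A then 1 else 0 := by
        intro A hA
        have hA' := mem_filter.1 hA
        rw [← card_filter]
        congr 1
        ext y
        simp only [mem_erase, mem_filter]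
        constructor
        · rintro ⟨h1, h2⟩; exact ⟨⟨h1, (hG A hA'.1).1 h2⟩, h2⟩
        · rintro ⟨⟨h1, _⟩, h2⟩; exact ⟨h1, h2⟩
      rw [sum_congr rfl e1, sum_comm, card_eq_sum_ones]
      refine sum_congr rfl fun y hy => ?_
      have hy' := mem_erase.1 hy
      rw [← card_filter, filter_filter]
      exact hcod x hx y hy'.2 hy'.1.symm
    have h2 : ∑ A ∈ G.filter (fun A => x ∈ A), #(A.erase x) =
        #(G.filter (fun A => x ∈ A)) * (k - 1) := by
      rw [← smul_eq_mul, ← sum_const]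
      refine sum_congr rfl fun A hA => ?_
      have hA' := mem_filter.1 hA
      rw [card_erase_of_mem hA'.2, (hG A hA'.1).2]
    rw [h1, card_erase_of_mem hx] at h2
    have h3 : ((#S - 1 : ℕ) : ℝ) = ((#(G.filter (fun A => x ∈ A)) * (k - 1) : ℕ) : ℝ) := by
      exact_mod_cast h2
    push_cast [Nat.cast_sub (by omega : 1 ≤ k), Nat.cast_sub (by omega : 1 ≤ #S)] at h3
    rw [mul_div_assoc', ← h3]

/-- the library's bound for almost all families, with a factor `k` more -/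
theorem almost_gen (k : ℕ) (hk : 3 ≤ k) : ∃ C : ℕ, ∀ n m : ℕ,
    2 ^ (k - 1) * n ≤ k * (k - 1) * m → ∀ (P : Finset (Finset ℕ) → Prop) [DecidablePred P],
    (∀ B' ⊆ powersetCard k (range n), P B' → ∀ B ⊆ B', P B) →
    (1 ≤ n → ∀ B ⊆ powersetCard k (range n), P B → ∀ K ⊆ B,
      (∀ A ∈ K, ∀ A' ∈ K, A ≠ A' → (A ∩ A').card ≤ 1) →
      k * (k - 1) * K.card ≤ (2 ^ (k - 1) - 1) * n) →
    n * ((powersetCard m (powersetCard k (range n))).filter P).card ≤
      C * (powersetCard m (powersetCard k (range n))).card := by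
  obtain ⟨C₀, hC₀⟩ := Pool.Agent.N87.DC.conf_avg k hk (2 ^ (k - 1))
  have hkk : 0 < k * (k - 1) := Nat.mul_pos (by omega) (by omega)
  refine ⟨k * (k - 1) * C₀, ?_⟩
  intro n m hnm P _ hdown hlin
  set X := powersetCard k (range n) with hX
  rcases Nat.eq_zero_or_pos n with hn | hn
  · rw [hn, zero_mul]; exact Nat.zero_le _
  rcases lt_or_ge X.card m with hm | hm
  · rw [powersetCard_eq_empty.2 hm]; simp
  -- the minimal admissible size
  have hex : ∃ m₀, 2 ^ (k - 1) * n ≤ k * (k - 1) * m₀ := ⟨m, hnm⟩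
  set m₀ := Nat.find hex with hm₀
  have h1 : 2 ^ (k - 1) * n ≤ k * (k - 1) * m₀ := Nat.find_spec hex
  have h2 : m₀ ≤ m := Nat.find_min' hex hnm
  have h3 : m₀ ≤ 2 ^ (k - 1) * n := Nat.find_min' hex (Nat.le_mul_of_pos_left _ hkk)
  have h4 := hC₀ n m₀ h3
  rw [← hX] at h4
  have h5 : n * ((powersetCard m₀ X).filter P).card ≤
      ∑ B ∈ powersetCard m₀ X, k * (k - 1) * Pool.Agent.N361.DC.conf B := by
    calc n * ((powersetCard m₀ X).filter P).card = ∑ B ∈ (powersetCard m₀ X).filter P, n := by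
          rw [sum_const, smul_eq_mul, mul_comm]
      _ ≤ ∑ B ∈ (powersetCard m₀ X).filter P, k * (k - 1) * Pool.Agent.N361.DC.conf B := by
          refine sum_le_sum fun B hB => ?_
          rw [mem_filter, mem_powersetCard] at hB
          have h6 := hlin hn B hB.1.1 hB.2 (Pool.Agent.N361.DC.lin B) (filter_subset _ _)
            Pool.Agent.N361.DC.lin_lin
          have h7 := Pool.Agent.N361.DC.card_le_lin B
          rw [hB.1.2] at h7
          have h8 : k * (k - 1) * m₀ ≤ k * (k - 1) * (Pool.Agent.N361.DC.lin B).card +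
              k * (k - 1) * Pool.Agent.N361.DC.conf B := by
            rw [← mul_add]; exact Nat.mul_le_mul_left _ h7
          have h9 : (2 ^ (k - 1) - 1) * n + n = 2 ^ (k - 1) * n := by
            rw [Nat.sub_mul, one_mul, Nat.sub_add_cancel]
            exact Nat.le_mul_of_pos_left _ (by positivity)
          omega
      _ ≤ ∑ B ∈ powersetCard m₀ X, k * (k - 1) * Pool.Agent.N361.DC.conf B :=
          sum_le_sum_of_subset (filter_subset _ _)
  rw [← mul_sum] at h5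
  have h6 : n * ((powersetCard m₀ X).filter P).card ≤
      k * (k - 1) * C₀ * (powersetCard m₀ X).card := by
    refine h5.trans ?_
    rw [mul_assoc _ C₀]
    exact Nat.mul_le_mul_left _ h4
  have h7 := Pool.Agent.N849.DC.mono X P hdown m₀ m h2 hm
  have h8 : 0 < (powersetCard m₀ X).card := by
    rw [card_powersetCard]; exact Nat.choose_pos (h2.trans hm)
  refine Nat.le_of_mul_le_mul_right (c := (powersetCard m₀ X).card) ?_ h8
  calc n * ((powersetCard m X).filter P).card * (powersetCard m₀ X).card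
      = n * (((powersetCard m X).filter P).card * (powersetCard m₀ X).card) := by ring
    _ ≤ n * (((powersetCard m₀ X).filter P).card * (powersetCard m X).card) :=
        Nat.mul_le_mul_left _ h7
    _ = (n * ((powersetCard m₀ X).filter P).card) * (powersetCard m X).card := by ring
    _ ≤ (k * (k - 1) * C₀ * (powersetCard m₀ X).card) * (powersetCard m X).card :=
        Nat.mul_le_mul_right _ h6
    _ = k * (k - 1) * C₀ * (powersetCard m X).card * (powersetCard m₀ X).card := by ring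

/-- almost all families of this size force an abundant element -/
theorem almost (k : ℕ) (hk : 3 ≤ k) : ∃ C : ℕ, ∀ n m : ℕ,
    2 ^ (k - 1) * n ≤ k * (k - 1) * m → ∀ (P : Finset (Finset ℕ) → Prop) [DecidablePred P],
    (∀ B, P B ↔ ∃ F : Finset (Finset ℕ), (∀ A ∈ F, ∀ B ∈ F, A ∪ B ∈ F) ∧ B ⊆ F ∧
      ∀ x ∈ range n, ¬ #F ≤ 2 * #(F.filter (fun A => x ∈ A))) →
    n * ((powersetCard m (powersetCard k (range n))).filter P).card ≤
      C * (powersetCard m (powersetCard k (range n))).card := by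
  obtain ⟨C, hC⟩ := almost_gen k hk
  refine ⟨C, fun n m hnm P _ hP => hC n m hnm P ?_ ?_⟩
  · intro B' _ h B hB
    rw [hP] at h ⊢
    obtain ⟨F, hF, hBF, h⟩ := h
    exact ⟨F, hF, hB.trans hBF, h⟩
  · intro hn B hB h K hK hlin
    rw [hP] at h
    obtain ⟨F, hF, hBF, h⟩ := h
    by_contra hcon
    push Not at hcon
    obtain ⟨x, hx, hab⟩ := LFs_upper (k := k) (n := n) (m := #K) (by omega) hn hcon.le F K hF
      (hK.trans hBF) (fun A hA => mem_powersetCard.1 (hB (hK hA))) hlin le_rfl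
    exact h x hx hab

end Pool.Agent.H61.LF
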