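import Pool.Agent.H61.Low
import Pool.Agent.H61.Elim

set_option autoImplicit false
set_option linter.all false

/-!
# Many sets without weights
-/

namespace Pool.Agent.H61.FC

open Finset

variable {α : Type*} [DecidableEq α]

/-- one more part -/
theorem low_step {k : ℕ} (hk : 3 ≤ k) {S' : Finset α} {G' : Finset (Finset α)}
    (hG' : ∀ B ∈ G', B ⊆ S' ∧ B.card = k) (h : NW S' G') {a b u v : α} (ha : a ∉ S') (hb : b ∉ S')
    (hu : u ∉ S') (hv : v ∉ S') (hab : a ≠ b) (hau : a ≠ u) (hav : a ≠ v) (hbu : b ≠ u)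
    (hbv : b ≠ v) (huv : u ≠ v) :
    ∃ G : Finset (Finset α), (∀ B ∈ G, B ⊆ {a, b, u, v} ∪ S' ∧ B.card = k) ∧
      NW ({a, b, u, v} ∪ S') G ∧ G.card = G'.card + 2 * S'.card.choose (k - 3) := by
  set φ : α → Finset α → Finset α := fun t R => insert a (insert b (insert t R)) with hφ
  set G₁ := (S'.powersetCard (k - 3)).image (φ u) with hG₁
  set G₂ := (S'.powersetCard (k - 3)).image (φ v) with hG₂
  have hS : ∀ {R : Finset α}, R ∈ S'.powersetCard (k - 3) → ∀ t ∈ R, t ∈ S' :=
    fun hR t ht => (mem_powersetCard.1 hR).1 ht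
  have m1 : ∀ B ∈ G₁, ∃ R ∈ S'.powersetCard (k - 3), B = φ u R := by
    intro B hB
    obtain ⟨R, hR, rfl⟩ := mem_image.1 hB
    exact ⟨R, hR, rfl⟩
  have m2 : ∀ B ∈ G₂, ∃ R ∈ S'.powersetCard (k - 3), B = φ v R := by
    intro B hB
    obtain ⟨R, hR, rfl⟩ := mem_image.1 hB
    exact ⟨R, hR, rfl⟩
  -- description of the members
  have hmem : ∀ B ∈ G' ∪ G₁ ∪ G₂, B ∈ G' ∨ (a ∈ B ∧ b ∈ B ∧ ((u ∈ B ∧ v ∉ B) ∨ (v ∈ B ∧ u ∉ B))) := by
    intro B hB
    rcases mem_union.1 hB with hB | hB
    · rcases mem_union.1 hB with hB | hB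
      · exact Or.inl hB
      · obtain ⟨R, hR, rfl⟩ := m1 B hB
        right
        have hvR : v ∉ R := fun h => hv (hS hR v h)
        simp [hφ, hav.symm, hbv.symm, huv.symm, hvR]
    · obtain ⟨R, hR, rfl⟩ := m2 B hB
      right
      have huR : u ∉ R := fun h => hu (hS hR u h)
      simp [hφ, hau.symm, hbu.symm, huv, huR]
  have hGS : ∀ B ∈ G', a ∉ B ∧ b ∉ B ∧ u ∉ B ∧ v ∉ B := fun B hB =>
    ⟨fun h => ha ((hG' B hB).1 h), fun h => hb ((hG' B hB).1 h), fun h => hu ((hG' B hB).1 h),
      fun h => hv ((hG' B hB).1 h)⟩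
  refine ⟨G' ∪ G₁ ∪ G₂, ?_, ?_, ?_⟩
  · intro B hB
    have hcard : ∀ t R, t ≠ a → t ≠ b → t ∉ S' → R ∈ S'.powersetCard (k - 3) →
        (φ t R).card = k := by
      intro t R hta htb ht hR
      have h1 : t ∉ R := fun h => ht (hS hR t h)
      have h2 : b ∉ insert t R := by
        simp only [mem_insert, not_or]
        exact ⟨htb.symm, fun h => hb (hS hR b h)⟩
      have h3 : a ∉ insert b (insert t R) := by
        simp only [mem_insert, not_or]
        exact ⟨hab, hta.symm, fun h => ha (hS hR a h)⟩
      simp only [hφ]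
      rw [card_insert_of_notMem h3, card_insert_of_notMem h2, card_insert_of_notMem h1,
        (mem_powersetCard.1 hR).2]
      omega
    rcases mem_union.1 hB with hB | hB
    · rcases mem_union.1 hB with hB | hB
      · exact ⟨(hG' B hB).1.trans subset_union_right, (hG' B hB).2⟩
      · obtain ⟨R, hR, rfl⟩ := m1 B hB
        refine ⟨?_, hcard u R hau.symm hbu.symm hu hR⟩
        intro t ht
        simp only [hφ, mem_insert] at ht
        simp only [mem_union, mem_insert, mem_singleton]
        rcases ht with h | h | h | h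
        · tauto
        · tauto
        · tauto
        · exact Or.inr (hS hR t h)
    · obtain ⟨R, hR, rfl⟩ := m2 B hB
      refine ⟨?_, hcard v R hav.symm hbv.symm hv hR⟩
      intro t ht
      simp only [hφ, mem_insert] at ht
      simp only [mem_union, mem_insert, mem_singleton]
      rcases ht with h | h | h | h
      · tauto
      · tauto
      · tauto
      · exact Or.inr (hS hR t h)
  · refine NW_stack ?_ ?_ h ?_
    · rw [disjoint_left]
      intro t ht
      simp only [mem_insert, mem_singleton] at ht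
      rcases ht with rfl | rfl | rfl | rfl <;> assumption
    · intro B hB hBS
      rcases hmem B hB with h1 | h1
      · exact h1
      · exact absurd (hBS h1.1) ha
    · intro c hc0 hc
      have e1 : 3 * c u ≤ c a + c b := by
        refine form_edge hc (by simp) (by simp) (by simp) hau hbu hab ?_
        intro B hB huB
        rcases hmem B hB with h1 | h1
        · exact absurd huB (hGS B h1).2.2.1
        · exact ⟨h1.1, h1.2.1⟩
      have e2 : 3 * c v ≤ c a + c b := by
        refine form_edge hc (by simp) (by simp) (by simp) hav hbv hab ?_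
        intro B hB huB
        rcases hmem B hB with h1 | h1
        · exact absurd huB (hGS B h1).2.2.2
        · exact ⟨h1.1, h1.2.1⟩
      have e3 : 5 * c a ≤ 3 * c b + c u + c v := by
        refine form_star hc (by simp) (by simp) (by simp) (by simp) hab.symm hau.symm hav.symm
          hbu hbv huv ?_
        intro B hB huB
        rcases hmem B hB with h1 | h1
        · exact absurd huB (hGS B h1).1
        · refine ⟨h1.2.1, ?_⟩
          rcases h1.2.2 with h2 | h2
          · exact Or.inl h2.1
          · exact Or.inr h2.1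
      have e4 : 5 * c b ≤ 3 * c a + c u + c v := by
        refine form_star hc (by simp) (by simp) (by simp) (by simp) hab hbu.symm hbv.symm
          hau hav huv ?_
        intro B hB huB
        rcases hmem B hB with h1 | h1
        · exact absurd huB (hGS B h1).2.1
        · refine ⟨h1.1, ?_⟩
          rcases h1.2.2 with h2 | h2
          · exact Or.inl h2.1
          · exact Or.inr h2.1
      have f1 := hc0 a
      have f2 := hc0 b
      have f3 := hc0 u
      have f4 := hc0 v
      intro x hx
      simp only [mem_insert, mem_singleton] at hx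
      rcases hx with rfl | rfl | rfl | rfl <;> linarith
  · have d1 : Disjoint G' G₁ := by
      rw [disjoint_left]
      intro B hB hB1
      obtain ⟨R, hR, rfl⟩ := m1 B hB1
      exact (hGS _ hB).1 (by simp [hφ])
    have d2 : Disjoint (G' ∪ G₁) G₂ := by
      rw [disjoint_left]
      intro B hB hB2
      obtain ⟨R, hR, rfl⟩ := m2 B hB2
      rcases mem_union.1 hB with hB | hB
      · exact (hGS _ hB).1 (by simp [hφ])
      · obtain ⟨R', hR', he⟩ := m1 _ hB
        have : v ∈ φ u R' := by rw [← he]; simp [hφ]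
        simp only [hφ, mem_insert] at this
        rcases this with h | h | h | h
        · exact hav h.symm
        · exact hbv h.symm
        · exact huv h.symm
        · exact hv (hS hR' v h)
    have hinj : ∀ t, t ∉ S' → Set.InjOn (φ t) (S'.powersetCard (k - 3)) := by
      intro t ht R hR R' hR' he
      have hR1 : R ∈ S'.powersetCard (k - 3) := Finset.mem_coe.1 hR
      have hR2 : R' ∈ S'.powersetCard (k - 3) := Finset.mem_coe.1 hR'
      have he' : φ t R = φ t R' := he
      ext s
      constructor
      · intro hs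
        have hsS := hS hR1 s hs
        have : s ∈ φ t R' := by rw [← he']; simp [hφ, hs]
        simp only [hφ, mem_insert] at this
        rcases this with h | h | h | h
        · exact absurd (h ▸ hsS) ha
        · exact absurd (h ▸ hsS) hb
        · exact absurd (h ▸ hsS) ht
        · exact h
      · intro hs
        have hsS := hS hR2 s hs
        have : s ∈ φ t R := by rw [he']; simp [hφ, hs]
        simp only [hφ, mem_insert] at this
        rcases this with h | h | h | h
        · exact absurd (h ▸ hsS) ha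
        · exact absurd (h ▸ hsS) hb
        · exact absurd (h ▸ hsS) ht
        · exact h
    rw [card_union_of_disjoint d2, card_union_of_disjoint d1, hG₁, hG₂,
      card_image_of_injOn (hinj u hu), card_image_of_injOn (hinj v hv), card_powersetCard]
    ring

/-- the recursion for the number of sets -/
theorem low_rec {k : ℕ} (hk : 3 ≤ k) (r : ℕ) (L : ℕ → ℕ)
    (hbase : ∀ S : Finset α, S.card = r → ∃ G : Finset (Finset α),
      (∀ B ∈ G, B ⊆ S ∧ B.card = k) ∧ NW S G ∧ L 0 ≤ G.card)
    (hL : ∀ m, L (m + 1) ≤ L m + 2 * (4 * m + r).choose (k - 3)) (m : ℕ) :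
    ∀ S : Finset α, S.card = 4 * m + r → ∃ G : Finset (Finset α),
      (∀ B ∈ G, B ⊆ S ∧ B.card = k) ∧ NW S G ∧ L m ≤ G.card := by
  induction m with
  | zero => intro S hS; exact hbase S (by omega)
  | succ m ih =>
    intro S hS
    obtain ⟨T, hTS, hT⟩ := exists_subset_card_eq (show 4 * m + r ≤ S.card by omega)
    have hQ : (S \ T).card = 4 := by rw [card_sdiff_of_subset hTS]; omega
    obtain ⟨a, b, u, v, hab, hau, hav, hbu, hbv, huv, he⟩ := card_eq_four.1 hQ
    obtain ⟨G', hG', hNW, hc⟩ := ih T hT
    have hnot : ∀ t ∈ S \ T, t ∉ T := fun t ht => (mem_sdiff.1 ht).2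
    obtain ⟨G, h1, h2, h3⟩ := low_step hk hG' hNW (hnot a (by rw [he]; simp))
      (hnot b (by rw [he]; simp)) (hnot u (by rw [he]; simp)) (hnot v (by rw [he]; simp))
      hab hau hav hbu hbv huv
    have hSe : ({a, b, u, v} : Finset α) ∪ T = S := by
      rw [← he]; exact sdiff_union_of_subset hTS
    rw [hSe] at h1 h2
    refine ⟨G, h1, h2, ?_⟩
    rw [h3, hT]
    have := hL m
    omega

theorem NW_empty (S : Finset α) : NW S ∅ := by
  intro c hc0 hc x hx
  exact le_antisymm (form_empty hc hx (by simp)) (hc0 x)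

/-- three triples on six elements -/
theorem NW_six {a b c d e f : α} (hab : a ≠ b) (hac : a ≠ c) (had : a ≠ d) (hae : a ≠ e)
    (haf : a ≠ f) (hbc : b ≠ c) (hbd : b ≠ d) (hbe : b ≠ e) (hbf : b ≠ f) (hcd : c ≠ d)
    (hce : c ≠ e) (hcf : c ≠ f) (hde : d ≠ e) (hdf : d ≠ f) (hef : e ≠ f) :
    NW {a, b, c, d, e, f} ({{a, b, c}, {c, d, e}, {d, e, f}} : Finset (Finset α)) := by
  intro w hc0 hc
  have hB : ∀ B ∈ ({{a, b, c}, {c, d, e}, {d, e, f}} : Finset (Finset α)),
      B = {a, b, c} ∨ B = {c, d, e} ∨ B = {d, e, f} := by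
    intro B hB
    simpa using hB
  have e1 : 3 * w a ≤ w b + w c := by
    refine form_edge hc (by simp) (by simp) (by simp) hab.symm hac.symm hbc ?_
    intro B hB' hx
    rcases hB B hB' with rfl | rfl | rfl
    · simp
    · simp [hac, had, hae] at hx
    · simp [had, hae, haf] at hx
  have e2 : 3 * w b ≤ w a + w c := by
    refine form_edge hc (by simp) (by simp) (by simp) hab hbc.symm hac ?_
    intro B hB' hx
    rcases hB B hB' with rfl | rfl | rfl
    · simp
    · simp [hbc, hbd, hbe] at hx
    · simp [hbd, hbe, hbf] at hx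
  have e3 : 3 * w c ≤ w a + w b + w d + w e := by
    refine form_edge2 hc (by simp) (by simp) (by simp) (by simp) (by simp) hac hbc hcd.symm
      hce.symm hab hde had hae hbd hbe ?_
    intro B hB' hx
    rcases hB B hB' with rfl | rfl | rfl
    · simp
    · simp
    · simp [hcd, hce, hcf] at hx
  have e4 : 5 * w d ≤ 3 * w e + w c + w f := by
    refine form_star hc (by simp) (by simp) (by simp) (by simp) hde.symm hcd hdf.symm
      hce.symm hef hcf ?_
    intro B hB' hx
    rcases hB B hB' with rfl | rfl | rfl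
    · simp [had.symm, hbd.symm, hcd.symm] at hx
    · simp
    · simp
  have e5 : 5 * w e ≤ 3 * w d + w c + w f := by
    refine form_star hc (by simp) (by simp) (by simp) (by simp) hde hce hef.symm
      hcd.symm hdf hcf ?_
    intro B hB' hx
    rcases hB B hB' with rfl | rfl | rfl
    · simp [hae.symm, hbe.symm, hce.symm] at hx
    · simp
    · simp
  have e6 : 3 * w f ≤ w d + w e := by
    refine form_edge hc (by simp) (by simp) (by simp) hdf hef hde ?_
    intro B hB' hx
    rcases hB B hB' with rfl | rfl | rfl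
    · simp [haf.symm, hbf.symm, hcf.symm] at hx
    · simp [hcf.symm, hdf.symm, hef.symm] at hx
    · simp
  have f1 := hc0 a
  have f2 := hc0 b
  have f3 := hc0 c
  have f4 := hc0 d
  have f5 := hc0 e
  have f6 := hc0 f
  intro x hx
  simp only [mem_insert, mem_singleton] at hx
  rcases hx with rfl | rfl | rfl | rfl | rfl | rfl <;> linarith

/-- one triple -/
theorem NW_three {a b c : α} (hab : a ≠ b) (hac : a ≠ c) (hbc : b ≠ c) :
    NW {a, b, c} ({{a, b, c}} : Finset (Finset α)) := by
  intro w hc0 hc
  have e1 : 3 * w a ≤ w b + w c := by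
    refine form_edge hc (by simp) (by simp) (by simp) hab.symm hac.symm hbc ?_
    intro B hB' hx
    rw [mem_singleton] at hB'
    subst hB'
    simp
  have e2 : 3 * w b ≤ w a + w c := by
    refine form_edge hc (by simp) (by simp) (by simp) hab hbc.symm hac ?_
    intro B hB' hx
    rw [mem_singleton] at hB'
    subst hB'
    simp
  have e3 : 3 * w c ≤ w a + w b := by
    refine form_edge hc (by simp) (by simp) (by simp) hac hbc hab ?_
    intro B hB' hx
    rw [mem_singleton] at hB'
    subst hB'
    simp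
  have f1 := hc0 a
  have f2 := hc0 b
  have f3 := hc0 c
  intro x hx
  simp only [mem_insert, mem_singleton] at hx
  rcases hx with rfl | rfl | rfl <;> linarith

/-- many triples without weights -/
theorem low3 (S : Finset α) (hS : 4 ≤ S.card) : ∃ G : Finset (Finset α),
    (∀ B ∈ G, B ⊆ S ∧ B.card = 3) ∧ NW S G ∧ S.card / 2 ≤ G.card := by
  have hb0 : ∀ r, r ≤ 1 → ∀ S : Finset α, S.card = r → ∃ G : Finset (Finset α),
      (∀ B ∈ G, B ⊆ S ∧ B.card = 3) ∧ NW S G ∧ (fun m => 2 * m) 0 ≤ G.card :=
    fun r _ S _ => ⟨∅, by simp, NW_empty S, by simp⟩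
  have hb3 : ∀ S : Finset α, S.card = 3 → ∃ G : Finset (Finset α),
      (∀ B ∈ G, B ⊆ S ∧ B.card = 3) ∧ NW S G ∧ (fun m => 2 * m + 1) 0 ≤ G.card := by
    intro S hS
    obtain ⟨a, b, c, hab, hac, hbc, rfl⟩ := card_eq_three.1 hS
    refine ⟨{{a, b, c}}, ?_, NW_three hab hac hbc, by simp⟩
    intro B hB
    rw [mem_singleton] at hB
    subst hB
    exact ⟨Subset.rfl, hS⟩
  have hb6 : ∀ S : Finset α, S.card = 6 → ∃ G : Finset (Finset α),
      (∀ B ∈ G, B ⊆ S ∧ B.card = 3) ∧ NW S G ∧ (fun m => 2 * m + 3) 0 ≤ G.card := by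
    intro S hS
    obtain ⟨T, hTS, hT⟩ := exists_subset_card_eq (show 3 ≤ S.card by omega)
    have hT' : (S \ T).card = 3 := by rw [card_sdiff_of_subset hTS]; omega
    obtain ⟨a, b, c, hab, hac, hbc, rfl⟩ := card_eq_three.1 hT
    obtain ⟨d, e, f, hde, hdf, hef, he⟩ := card_eq_three.1 hT'
    have hd : d ∈ S \ {a, b, c} := by rw [he]; simp
    have he' : e ∈ S \ {a, b, c} := by rw [he]; simp
    have hf : f ∈ S \ {a, b, c} := by rw [he]; simp
    simp only [mem_sdiff, mem_insert, mem_singleton, not_or] at hd he' hf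
    obtain ⟨hdS, hda, hdb, hdc⟩ := hd
    obtain ⟨heS, hea, heb, hec⟩ := he'
    obtain ⟨hfS, hfa, hfb, hfc⟩ := hf
    replace hda : d ≠ a := hda
    replace hdb : d ≠ b := hdb
    replace hdc : d ≠ c := hdc
    replace hea : e ≠ a := hea
    replace heb : e ≠ b := heb
    replace hec : e ≠ c := hec
    replace hfa : f ≠ a := hfa
    replace hfb : f ≠ b := hfb
    replace hfc : f ≠ c := hfc
    have hSe : S = {a, b, c, d, e, f} := by
      rw [← union_sdiff_of_subset hTS, he]
      ext t; simp only [mem_union, mem_insert, mem_singleton]; tauto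
    have hne1 : ({a, b, c} : Finset α) ≠ {c, d, e} := by
      intro h
      have : a ∈ ({c, d, e} : Finset α) := by rw [← h]; simp
      simp only [mem_insert, mem_singleton] at this
      rcases this with h | h | h
      · exact hac h
      · exact hda h.symm
      · exact hea h.symm
    have hne2 : ({a, b, c} : Finset α) ≠ {d, e, f} := by
      intro h
      have : a ∈ ({d, e, f} : Finset α) := by rw [← h]; simp
      simp only [mem_insert, mem_singleton] at this
      rcases this with h | h | h
      · exact hda h.symm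
      · exact hea h.symm
      · exact hfa h.symm
    have hne3 : ({c, d, e} : Finset α) ≠ {d, e, f} := by
      intro h
      have : c ∈ ({d, e, f} : Finset α) := by rw [← h]; simp
      simp only [mem_insert, mem_singleton] at this
      rcases this with h | h | h
      · exact hdc h.symm
      · exact hec h.symm
      · exact hfc h.symm
    refine ⟨{{a, b, c}, {c, d, e}, {d, e, f}}, ?_, ?_, ?_⟩
    · intro B hB
      simp only [mem_insert, mem_singleton] at hB
      rw [hSe]
      rcases hB with rfl | rfl | rfl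
      · refine ⟨?_, card_eq_three.2 ⟨a, b, c, hab, hac, hbc, rfl⟩⟩
        intro t ht; simp only [mem_insert, mem_singleton] at ht ⊢; tauto
      · refine ⟨?_, card_eq_three.2 ⟨c, d, e, hdc.symm, hec.symm, hde, rfl⟩⟩
        intro t ht; simp only [mem_insert, mem_singleton] at ht ⊢; tauto
      · refine ⟨?_, card_eq_three.2 ⟨d, e, f, hde, hdf, hef, rfl⟩⟩
        intro t ht; simp only [mem_insert, mem_singleton] at ht ⊢; tauto
    · rw [hSe]
      exact NW_six hab hac hda.symm hea.symm hfa.symm hbc hdb.symm heb.symm hfb.symm hdc.symm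
        hec.symm hfc.symm hde hdf hef
    · simp only
      rw [card_insert_of_notMem (by simp [hne1, hne2]), card_pair hne3]
  have h4 : S.card % 4 < 4 := Nat.mod_lt _ (by norm_num)
  have h5 := Nat.div_add_mod S.card 4
  rcases (by omega : S.card % 4 ≤ 1 ∨ S.card % 4 = 2 ∨ S.card % 4 = 3) with h | h | h
  · obtain ⟨G, h1, h2, h3⟩ := low_rec (le_refl 3) (S.card % 4) (fun m => 2 * m) (hb0 _ h)
      (fun m => by simp; omega) (S.card / 4) S (by omega)
    exact ⟨G, h1, h2, by omega⟩
  · obtain ⟨G, h1, h2, h3⟩ := low_rec (le_refl 3) 6 (fun m => 2 * m + 3) hb6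
      (fun m => by simp; omega) (S.card / 4 - 1) S (by omega)
    exact ⟨G, h1, h2, by omega⟩
  · obtain ⟨G, h1, h2, h3⟩ := low_rec (le_refl 3) 3 (fun m => 2 * m + 1) hb3
      (fun m => by simp; omega) (S.card / 4) S (by omega)
    exact ⟨G, h1, h2, by omega⟩

/-- the number of the sets of the general construction -/
def LL (j r : ℕ) : ℕ → ℕ
  | 0 => 0
  | m + 1 => LL j r m + 2 * (4 * m + r).choose j

theorem LL_bound (j r : ℕ) (hr : r ≤ 3) (m : ℕ) :
    (4 * m + r).choose (j + 1) ≤ 2 * LL j r m + 3 * (4 * m + r) ^ j := by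
  induction m with
  | zero =>
    simp only [LL, mul_zero, zero_add]
    refine (choose_le_pow' r (j + 1)).trans ?_
    rw [pow_succ, mul_comm]
    exact Nat.mul_le_mul_right _ hr
  | succ m ih =>
    set w := 4 * m + r with hw
    have e : 4 * (m + 1) + r = w + 4 := by omega
    rw [e]
    have h3 : (w + 4).choose (j + 1) = (w + 3).choose j + ((w + 2).choose j +
        ((w + 1).choose j + (w.choose j + w.choose (j + 1)))) := by
      rw [Nat.choose_succ_succ' (w + 3) j, Nat.choose_succ_succ' (w + 2) j,
        Nat.choose_succ_succ' (w + 1) j, Nat.choose_succ_succ' w j]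
    have h2 : LL j r (m + 1) = LL j r m + 2 * w.choose j := rfl
    rw [h2, h3]
    rcases j with _ | j
    · simp at ih ⊢
      omega
    · have a1 : (w + 3).choose (j + 1) = (w + 2).choose j + (w + 2).choose (j + 1) :=
        Nat.choose_succ_succ' _ _
      have a2 : (w + 2).choose (j + 1) = (w + 1).choose j + (w + 1).choose (j + 1) :=
        Nat.choose_succ_succ' _ _
      have a3 : (w + 1).choose (j + 1) = w.choose j + w.choose (j + 1) :=
        Nat.choose_succ_succ' _ _
      have b1 : (w + 2).choose j ≤ (w + 4) ^ j := (choose_le_pow' _ _).trans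
        (Nat.pow_le_pow_left (by omega) _)
      have b2 : (w + 1).choose j ≤ (w + 4) ^ j := (choose_le_pow' _ _).trans
        (Nat.pow_le_pow_left (by omega) _)
      have b3 : w.choose j ≤ (w + 4) ^ j := (choose_le_pow' _ _).trans
        (Nat.pow_le_pow_left (by omega) _)
      have c1 : (w + 4) ^ (j + 1) = (w + 4) ^ j * w + 4 * (w + 4) ^ j := by ring
      have c2 : w ^ (j + 1) ≤ (w + 4) ^ j * w := by
        rw [pow_succ]
        exact Nat.mul_le_mul_right _ (Nat.pow_le_pow_left (by omega) _)
      nlinarith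

theorem low4 {k : ℕ} (hk : 3 ≤ k) (S : Finset α) : ∃ G : Finset (Finset α),
    (∀ B ∈ G, B ⊆ S ∧ B.card = k) ∧ NW S G ∧
      S.card.choose (k - 2) ≤ 2 * G.card + 3 * S.card ^ (k - 3) := by
  have h4 : S.card % 4 < 4 := Nat.mod_lt _ (by norm_num)
  have h5 := Nat.div_add_mod S.card 4
  obtain ⟨G, h1, h2, h3⟩ := low_rec hk (S.card % 4) (LL (k - 3) (S.card % 4))
    (fun S _ => ⟨∅, by simp, NW_empty S, by simp [LL]⟩) (fun m => le_of_eq rfl) (S.card / 4) S
    (by omega)
  refine ⟨G, h1, h2, ?_⟩
  have h6 := LL_bound (k - 3) (S.card % 4) (by omega) (S.card / 4)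
  rw [h5] at h6
  have e : k - 3 + 1 = k - 2 := by omega
  rw [e] at h6
  omega

end Pool.Agent.H61.FC
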