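import Pool.Agent.H61.LF10
import Pool.Agent.H61.Class
import Pool.Agent.H61.Low2

set_option autoImplicit false
set_option linter.all false

/-!
# Linear families of triples: the exact number
-/

namespace Pool.Agent.H61.LF

open Finset Pool.Agent.H61.FC

theorem Linear.mono {K K' : Finset (Finset ℕ)} (h : Linear K) (hs : K' ⊆ K) : Linear K' :=
  fun A hA B hB => h A (hs hA) B (hs hB)

theorem not_lin {P : Finset (Finset ℕ)} (h : Linear P) {a b c d : ℕ}
    (h1 : ({a, b, c} : Finset ℕ) ∈ P) (h2 : ({b, c, d} : Finset ℕ) ∈ P) (hbc : b ≠ c)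
    (had : a ≠ d) (hab : a ≠ b) (hac : a ≠ c) : False := by
  have hne : ({a, b, c} : Finset ℕ) ≠ {b, c, d} := by
    intro he
    have : a ∈ ({b, c, d} : Finset ℕ) := by rw [← he]; simp
    simp only [mem_insert, mem_singleton] at this
    tauto
  have h3 := h _ h1 _ h2 hne
  have h4 : ({b, c} : Finset ℕ) ⊆ {a, b, c} ∩ {b, c, d} := by
    intro x hx
    simp only [mem_insert, mem_singleton, mem_inter] at hx ⊢
    tauto
  have h5 := card_le_card h4
  rw [card_pair hbc] at h5
  omega

theorem ty_card {P : Finset (Finset ℕ)} (hP : Ty P) (hlin : Linear P) :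
    9 * #P ≤ 4 * #(P.biUnion id) := by
  cases hP with
  | p1 v0 v1 v2 h =>
    have e : ({{v0, v1, v2}} : Finset (Finset ℕ)).biUnion id = [v0, v1, v2].toFinset := by
      ext t
      simp only [mem_biUnion, mem_insert, mem_singleton, id, exists_eq_or_imp, exists_eq_left,
        List.mem_toFinset, List.mem_cons, List.not_mem_nil, or_false]
    rw [e, List.toFinset_card_of_nodup h]
    simp
  | p2 v0 v1 v2 v3 v4 h =>
    have e : ({{v0, v1, v2}, {v2, v3, v4}} : Finset (Finset ℕ)).biUnion id =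
        [v0, v1, v2, v3, v4].toFinset := by
      ext t
      simp only [mem_biUnion, mem_insert, mem_singleton, id, exists_eq_or_imp, exists_eq_left,
        List.mem_toFinset, List.mem_cons, List.not_mem_nil, or_false]
      tauto
    rw [e, List.toFinset_card_of_nodup h]
    have := card_le_two (a := ({v0, v1, v2} : Finset ℕ)) (b := {v2, v3, v4})
    simp only [List.length_cons, List.length_nil]
    omega
  | p3 v0 v1 v2 v3 v4 v5 v6 h =>
    have e : ({{v0, v1, v2}, {v2, v3, v4}, {v4, v5, v6}} : Finset (Finset ℕ)).biUnion id =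
        [v0, v1, v2, v3, v4, v5, v6].toFinset := by
      ext t
      simp only [mem_biUnion, mem_insert, mem_singleton, id, exists_eq_or_imp, exists_eq_left,
        List.mem_toFinset, List.mem_cons, List.not_mem_nil, or_false]
      tauto
    rw [e, List.toFinset_card_of_nodup h]
    have := card_le_three (a := ({v0, v1, v2} : Finset ℕ)) (b := {v2, v3, v4}) (c := {v4, v5, v6})
    simp only [List.length_cons, List.length_nil]
    omega
  | p4 v0 v1 v2 v3 v4 v5 v6 v7 v8 h =>
    have e : ({{v0, v1, v2}, {v2, v3, v4}, {v4, v5, v6}, {v6, v7, v8}} :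
        Finset (Finset ℕ)).biUnion id = [v0, v1, v2, v3, v4, v5, v6, v7, v8].toFinset := by
      ext t
      simp only [mem_biUnion, mem_insert, mem_singleton, id, exists_eq_or_imp, exists_eq_left,
        List.mem_toFinset, List.mem_cons, List.not_mem_nil, or_false]
      tauto
    rw [e, List.toFinset_card_of_nodup h]
    have := card_le_four (a := ({v0, v1, v2} : Finset ℕ)) (b := {v2, v3, v4}) (c := {v4, v5, v6})
      (d := {v6, v7, v8})
    simp only [List.length_cons, List.length_nil]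
    omega
  | q2 v0 v1 v2 v3 h =>
    exfalso
    simp only [List.nodup_cons, List.mem_cons, List.not_mem_nil, or_false, not_or] at h
    exact not_lin hlin (a := v0) (b := v1) (c := v2) (d := v3) (by simp) (by simp)
      (by tauto) (by tauto) (by tauto) (by tauto)
  | q3 v0 v1 v2 v3 v4 v5 h =>
    exfalso
    simp only [List.nodup_cons, List.mem_cons, List.not_mem_nil, or_false, not_or] at h
    exact not_lin hlin (a := v2) (b := v3) (c := v4) (d := v5) (by simp) (by simp)
      (by tauto) (by tauto) (by tauto) (by tauto)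
  | q4 v0 v1 v2 v3 v4 v5 v6 v7 h =>
    exfalso
    simp only [List.nodup_cons, List.mem_cons, List.not_mem_nil, or_false, not_or] at h
    exact not_lin hlin (a := v4) (b := v5) (c := v6) (d := v7) (by simp) (by simp)
      (by tauto) (by tauto) (by tauto) (by tauto)

theorem lin3_upper {F K : Finset (Finset ℕ)} {N : Finset ℕ} (hF : ∀ A ∈ F, ∀ B ∈ F, A ∪ B ∈ F)
    (hKF : K ⊆ F) (hK : ∀ A ∈ K, A ⊆ N ∧ #A = 3) (hlin : Linear K) (h : 4 * #N < 9 * #K) :
    ∃ x ∈ N, #F ≤ 2 * #(F.filter (fun A => x ∈ A)) := by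
  by_contra hcon
  push Not at hcon
  obtain ⟨𝒬, hQ, hTy, hdis⟩ := (classification K (fun T hT => (hK T hT).2)).1
    ⟨F, hF, hKF, fun T hT x hx => hcon x ((hK T hT).1 hx)⟩
  have hPK : ∀ P ∈ 𝒬, P ⊆ K := fun P hP => by
    rw [← hQ]; exact subset_biUnion_of_mem id hP
  have h1 : #K ≤ ∑ P ∈ 𝒬, #P := by
    rw [← hQ]; exact card_biUnion_le
  have h2 : ∑ P ∈ 𝒬, #(P.biUnion id) ≤ #N := by
    rw [← card_biUnion]
    · apply card_le_card
      intro x hx
      obtain ⟨P, hP, hx⟩ := mem_biUnion.1 hx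
      obtain ⟨T, hT, hx⟩ := mem_biUnion.1 hx
      exact (hK T (hPK P hP hT)).1 hx
    · intro P hP P' hP' hne
      show Disjoint (P.biUnion id) (P'.biUnion id)
      rw [disjoint_left]
      intro x hx hx'
      obtain ⟨T, hT, hx⟩ := mem_biUnion.1 hx
      obtain ⟨T', hT', hx'⟩ := mem_biUnion.1 hx'
      exact disjoint_left.1 (hdis P hP P' hP' hne T hT T' hT') hx hx'
  have h3 : 9 * ∑ P ∈ 𝒬, #P ≤ 4 * ∑ P ∈ 𝒬, #(P.biUnion id) := by
    rw [mul_sum, mul_sum]
    exact sum_le_sum fun P hP => ty_card (hTy P hP) (hlin.mono (hPK P hP))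
  omega

/-- one more part -/
theorem glue3 {S₁ S₂ : Finset ℕ} {G₁ G₂ : Finset (Finset ℕ)} (hdis : Disjoint S₁ S₂)
    (h1 : ∀ B ∈ G₁, B ⊆ S₁ ∧ #B = 3) (h2 : ∀ B ∈ G₂, B ⊆ S₂ ∧ #B = 3) (n1 : NW S₁ G₁)
    (n2 : NW S₂ G₂) (l1 : Linear G₁) (l2 : Linear G₂) :
    (∀ B ∈ G₁ ∪ G₂, B ⊆ S₁ ∪ S₂ ∧ #B = 3) ∧ NW (S₁ ∪ S₂) (G₁ ∪ G₂) ∧ Linear (G₁ ∪ G₂) ∧
      #(G₁ ∪ G₂) = #G₁ + #G₂ := by
  have hd : ∀ A ∈ G₁, ∀ B ∈ G₂, Disjoint A B := fun A hA B hB =>
    hdis.mono (h1 A hA).1 (h2 B hB).1
  refine ⟨?_, NW_union hdis (fun B hB => (h1 B hB).1) (fun B hB => (h2 B hB).1) n1 n2, ?_, ?_⟩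
  · intro B hB
    rcases mem_union.1 hB with hB | hB
    · exact ⟨(h1 B hB).1.trans subset_union_left, (h1 B hB).2⟩
    · exact ⟨(h2 B hB).1.trans subset_union_right, (h2 B hB).2⟩
  · intro A hA B hB hne
    rcases mem_union.1 hA with hA | hA <;> rcases mem_union.1 hB with hB | hB
    · exact l1 A hA B hB hne
    · rw [disjoint_iff_inter_eq_empty.1 (hd A hA B hB)]; simp
    · rw [disjoint_iff_inter_eq_empty.1 (hd B hB A hA).symm]; simp
    · exact l2 A hA B hB hne
  · rw [card_union_of_disjoint]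
    rw [disjoint_left]
    intro A hA hA'
    have := hd A hA A hA'
    rw [disjoint_self_iff_empty] at this
    have h3 := (h1 A hA).2
    rw [this] at h3
    simp at h3

/-- the goal for an interval -/
def Good3 (a m : ℕ) : Prop := ∃ K : Finset (Finset ℕ), (∀ A ∈ K, A ⊆ Ico a (a + m) ∧ #A = 3) ∧
  NW (Ico a (a + m)) K ∧ Linear K ∧ #K = 4 * m / 9

theorem lin_empty : Linear (∅ : Finset (Finset ℕ)) := by
  intro A hA
  simp at hA

theorem good_add {a m r j : ℕ} (S : Finset ℕ) (G : Finset (Finset ℕ)) (hS : S = Ico a (a + r))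
    (hG : ∀ B ∈ G, B ⊆ S ∧ #B = 3) (hn : NW S G) (hl : Linear G) (hc : #G = j)
    (h : Good3 (a + r) m) (hj : j + 4 * m / 9 = 4 * (r + m) / 9) : Good3 a (r + m) := by
  subst hS
  obtain ⟨K, k1, k2, k3, k4⟩ := h
  have hdis : Disjoint (Ico a (a + r)) (Ico (a + r) (a + r + m)) := by
    rw [disjoint_left]
    intro x hx hx'
    rw [mem_Ico] at hx hx'
    omega
  obtain ⟨g1, g2, g3, g4⟩ := glue3 hdis hG k1 hn k2 hl k3
  have e : Ico a (a + r) ∪ Ico (a + r) (a + r + m) = Ico a (a + (r + m)) := by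
    ext x; simp only [mem_union, mem_Ico]; omega
  rw [e] at g1 g2
  exact ⟨G ∪ K, g1, g2, g3, by rw [g4, hc, k4, hj]⟩

theorem good_small (a m : ℕ) (hm : 4 * m / 9 = 0) : Good3 a m :=
  ⟨∅, by simp, NW_empty _, lin_empty, by simp [hm]⟩

theorem card3 {a b c : ℕ} (h : [a, b, c].Nodup) : #({a, b, c} : Finset ℕ) = 3 := by
  have e : ({a, b, c} : Finset ℕ) = [a, b, c].toFinset := by simp
  rw [e, List.toFinset_card_of_nodup h]; rfl

def tri (a i : ℕ) : Finset ℕ := {a + 2 * i, a + 2 * i + 1, a + 2 * i + 2}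

def pth (a r : ℕ) : Finset (Finset ℕ) := (range r).image (tri a)

theorem mem_tri {a i x : ℕ} : x ∈ tri a i ↔ x = a + 2 * i ∨ x = a + 2 * i + 1 ∨ x = a + 2 * i + 2 := by
  unfold tri; simp only [mem_insert, mem_singleton]

theorem tri_card (a i : ℕ) : #(tri a i) = 3 := card3 (by
  simp only [List.nodup_cons, List.mem_cons, List.not_mem_nil, or_false, not_or,
    List.nodup_nil, and_true, not_false_eq_true]; omega)

theorem pth_card (a r : ℕ) : #(pth a r) = r := by
  unfold pth
  rw [card_image_of_injOn, card_range]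
  intro i _ j _ h
  have h' : tri a i = tri a j := h
  have h1 : a + 2 * i ∈ tri a j := by rw [← h']; exact mem_tri.2 (Or.inl rfl)
  have h2 : a + 2 * i + 2 ∈ tri a j := by rw [← h']; exact mem_tri.2 (Or.inr (Or.inr rfl))
  rw [mem_tri] at h1 h2
  omega

theorem pth_linear (a r : ℕ) : Linear (pth a r) := by
  intro A hA B hB hne
  unfold pth at hA hB
  rw [mem_image] at hA hB
  obtain ⟨i, _, rfl⟩ := hA
  obtain ⟨j, _, rfl⟩ := hB
  by_contra hcon
  push Not at hcon
  obtain ⟨x, hx, y, hy, hxy⟩ := one_lt_card.1 hcon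
  rw [mem_inter, mem_tri, mem_tri] at hx hy
  have : i = j := by omega
  exact hne (by rw [this])

theorem pth_mem {a r : ℕ} {A : Finset ℕ} (hA : A ∈ pth a r) :
    A ⊆ Ico a (a + (2 * r + 1)) ∧ #A = 3 := by
  unfold pth at hA
  rw [mem_image] at hA
  obtain ⟨i, hi, rfl⟩ := hA
  rw [mem_range] at hi
  refine ⟨fun x hx => ?_, tri_card a i⟩
  rw [mem_tri] at hx
  rw [mem_Ico]
  omega

theorem pth_NW (a r : ℕ) (hr : 1 ≤ r) (hr4 : r ≤ 4) : NW (Ico a (a + (2 * r + 1))) (pth a r) := by
  interval_cases r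
  · have nd : [a, a + 1, a + 2].Nodup := by
      simp only [List.nodup_cons, List.mem_cons, List.not_mem_nil, or_false, not_or,
        List.nodup_nil, and_true, not_false_eq_true]; omega
    have e1 : pth a 1 = {{a, a + 1, a + 2}} := rfl
    have e2 : Ico a (a + (2 * 1 + 1)) = {a, a + 1, a + 2} := by
      ext x; simp only [mem_insert, mem_singleton, mem_Ico]; omega
    rw [e1, e2]
    exact NW_p1 nd
  · have nd : [a, a + 1, a + 2, a + 3, a + 4].Nodup := by
      simp only [List.nodup_cons, List.mem_cons, List.not_mem_nil, or_false, not_or,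
        List.nodup_nil, and_true, not_false_eq_true]; omega
    have e1 : pth a 2 = {{a, a + 1, a + 2}, {a + 2, a + 3, a + 4}} := by
      have : range 2 = {0, 1} := rfl
      unfold pth
      rw [this, image_insert, image_singleton]
      rfl
    have e2 : Ico a (a + (2 * 2 + 1)) = {a, a + 1, a + 2, a + 3, a + 4} := by
      ext x; simp only [mem_insert, mem_singleton, mem_Ico]; omega
    rw [e1, e2]
    exact NW_p2 nd
  · have nd : [a, a + 1, a + 2, a + 3, a + 4, a + 5, a + 6].Nodup := by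
      simp only [List.nodup_cons, List.mem_cons, List.not_mem_nil, or_false, not_or,
        List.nodup_nil, and_true, not_false_eq_true]; omega
    have e1 : pth a 3 = {{a, a + 1, a + 2}, {a + 2, a + 3, a + 4}, {a + 4, a + 5, a + 6}} := by
      have : range 3 = {0, 1, 2} := rfl
      unfold pth
      rw [this, image_insert, image_insert, image_singleton]
      rfl
    have e2 : Ico a (a + (2 * 3 + 1)) = {a, a + 1, a + 2, a + 3, a + 4, a + 5, a + 6} := by
      ext x; simp only [mem_insert, mem_singleton, mem_Ico]; omega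
    rw [e1, e2]
    exact NW_p3 nd
  · have nd : [a, a + 1, a + 2, a + 3, a + 4, a + 5, a + 6, a + 7, a + 8].Nodup := by
      simp only [List.nodup_cons, List.mem_cons, List.not_mem_nil, or_false, not_or,
        List.nodup_nil, and_true, not_false_eq_true]; omega
    have e1 : pth a 4 = {{a, a + 1, a + 2}, {a + 2, a + 3, a + 4}, {a + 4, a + 5, a + 6},
        {a + 6, a + 7, a + 8}} := by
      have : range 4 = {0, 1, 2, 3} := rfl
      unfold pth
      rw [this, image_insert, image_insert, image_insert, image_singleton]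
      rfl
    have e2 : Ico a (a + (2 * 4 + 1)) =
        {a, a + 1, a + 2, a + 3, a + 4, a + 5, a + 6, a + 7, a + 8} := by
      ext x; simp only [mem_insert, mem_singleton, mem_Ico]; omega
    rw [e1, e2]
    exact NW_p4 nd

theorem good_step (a r : ℕ) {m : ℕ} (hr : 1 ≤ r) (hr4 : r ≤ 4) (h : Good3 (a + (2 * r + 1)) m)
    (hm : r + 4 * m / 9 = 4 * (2 * r + 1 + m) / 9) : Good3 a (2 * r + 1 + m) :=
  good_add (r := 2 * r + 1) (j := r) _ (pth a r) rfl (fun B hB => pth_mem hB)
    (pth_NW a r hr hr4) (pth_linear a r) (pth_card a r) h hm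

theorem good_all (m : ℕ) : ∀ a, Good3 a m := by
  induction m using Nat.strong_induction_on with
  | _ m ih =>
  intro a
  rcases Nat.lt_or_ge m 9 with h | h
  · interval_cases m
    · exact good_small a 0 (by norm_num)
    · exact good_small a 1 (by norm_num)
    · exact good_small a 2 (by norm_num)
    · exact good_step a 1 (m := 0) (by norm_num) (by norm_num) (good_small _ 0 (by norm_num)) (by norm_num)
    · exact good_step a 1 (m := 1) (by norm_num) (by norm_num) (good_small _ 1 (by norm_num)) (by norm_num)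
    · exact good_step a 2 (m := 0) (by norm_num) (by norm_num) (good_small _ 0 (by norm_num)) (by norm_num)
    · exact good_step a 2 (m := 1) (by norm_num) (by norm_num) (good_small _ 1 (by norm_num)) (by norm_num)
    · exact good_step a 3 (m := 0) (by norm_num) (by norm_num) (good_small _ 0 (by norm_num)) (by norm_num)
    · exact good_step a 3 (m := 1) (by norm_num) (by norm_num) (good_small _ 1 (by norm_num)) (by norm_num)
  · obtain ⟨m', rfl⟩ : ∃ m', m = 2 * 4 + 1 + m' := ⟨m - 9, by omega⟩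
    exact good_step a 4 (by norm_num) (by norm_num) (ih m' (by omega) _) (by omega)

theorem lin3_lower (n : ℕ) : ∃ K F : Finset (Finset ℕ), (∀ A ∈ K, A ⊆ range n ∧ #A = 3) ∧
    Linear K ∧ #K = 4 * n / 9 ∧ (∀ A ∈ F, ∀ B ∈ F, A ∪ B ∈ F) ∧ K ⊆ F ∧
    ∀ x ∈ range n, 2 * #(F.filter (fun A => x ∈ A)) < #F := by
  obtain ⟨K, k1, k2, k3, k4⟩ := good_all n 0
  have e : Ico 0 (0 + n) = range n := by
    ext x; simp only [mem_Ico, mem_range]; omega
  rw [e] at k1 k2
  obtain ⟨F, f1, f2, f3⟩ := exists_of_NW (fun B hB => (k1 B hB).1) k2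
  exact ⟨K, F, k1, k3, k4, f1, f2, f3⟩

theorem lfc3 (n : ℕ) : sInf (LFs 3 n) = 4 * n / 9 + 1 := by
  have hmem : 4 * n / 9 + 1 ∈ LFs 3 n := by
    intro F K hF hKF hK hlin hm
    refine lin3_upper hF hKF hK hlin ?_
    rw [card_range]
    omega
  apply le_antisymm (Nat.sInf_le hmem)
  have h := Nat.sInf_mem (⟨_, hmem⟩ : (LFs 3 n).Nonempty)
  by_contra hcon
  push Not at hcon
  obtain ⟨K, F, k1, k2, k3, f1, f2, f3⟩ := lin3_lower n
  obtain ⟨x, hx, hab⟩ := h F K f1 f2 k1 k2 (by omega)
  have := f3 x hx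
  omega

end Pool.Agent.H61.LF
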