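import Pool.Agent.H61.PS6

set_option autoImplicit false
set_option linter.all false

/-!
# Removing a free element
-/

namespace Pool.Agent.H61.PS

open Finset Pool.Agent.N188.FC Pool.Agent.H61.FC

variable {α : Type*} [DecidableEq α] {F : Finset (Finset α)} {b : α}

theorem Free.card_filter (h : Free F b) (p : Finset α → Prop) [DecidablePred p]
    (hp : ∀ A, p (insert b A) ↔ p A) (hp' : ∀ A, p (A.erase b) ↔ p A) :
    (F.filter p).card = 2 * ((F.filter (fun A => b ∉ A)).filter p).card := by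
  have h1 : (F.filter p).card = ((F.filter p).filter (fun A => b ∈ A)).card +
      ((F.filter p).filter (fun A => ¬ b ∈ A)).card :=
    (card_filter_add_card_filter_not (fun A => b ∈ A)).symm
  have h2 : ((F.filter p).filter (fun A => b ∈ A)).card =
      ((F.filter p).filter (fun A => ¬ b ∈ A)).card := by
    refine card_bij' (fun A _ => A.erase b) (fun A _ => insert b A) ?_ ?_ ?_ ?_
    · intro A hA
      rw [mem_filter, mem_filter] at hA ⊢
      exact ⟨⟨(h A hA.1.1).2, (hp' A).2 hA.1.2⟩, notMem_erase _ _⟩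
    · intro A hA
      rw [mem_filter, mem_filter] at hA ⊢
      exact ⟨⟨(h A hA.1.1).1, (hp A).2 hA.1.2⟩, mem_insert_self _ _⟩
    · intro A hA
      exact insert_erase (mem_filter.1 hA).2
    · intro A hA
      exact erase_insert (mem_filter.1 hA).2
  have h3 : (F.filter p).filter (fun A => ¬ b ∈ A) = (F.filter (fun A => b ∉ A)).filter p := by
    ext A; simp only [mem_filter]; tauto
  rw [h1, h2, h3]
  ring

theorem Free.card (h : Free F b) : F.card = 2 * (F.filter (fun A => b ∉ A)).card := by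
  have := h.card_filter (fun _ => True) (fun _ => Iff.rfl) (fun _ => Iff.rfl)
  simpa using this

theorem Free.freq (h : Free F b) {x : α} (hx : x ≠ b) : (F.filter (fun A => x ∈ A)).card =
    2 * ((F.filter (fun A => b ∉ A)).filter (fun A => x ∈ A)).card := by
  refine h.card_filter (fun A => x ∈ A) (fun A => ?_) (fun A => ?_)
  · simp [hx]
  · simp [hx]

theorem mem_sup_id {x : α} : x ∈ F.sup id ↔ ∃ A ∈ F, x ∈ A := by
  rw [mem_sup]; rfl

theorem Free.sep (h : Free F b) (hs : ∀ x ∈ F.sup id, ∀ y ∈ F.sup id, x ≠ y →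
      ∃ S ∈ F, (x ∈ S ∧ y ∉ S) ∨ (y ∈ S ∧ x ∉ S)) :
    ∀ x ∈ (F.filter (fun A => b ∉ A)).sup id, ∀ y ∈ (F.filter (fun A => b ∉ A)).sup id, x ≠ y →
      ∃ S ∈ F.filter (fun A => b ∉ A), (x ∈ S ∧ y ∉ S) ∨ (y ∈ S ∧ x ∉ S) := by
  intro x hx y hy hxy
  rw [mem_sup_id] at hx hy
  obtain ⟨A, hA, hxA⟩ := hx
  obtain ⟨B, hB, hyB⟩ := hy
  rw [mem_filter] at hA hB
  have hxb : x ≠ b := fun e => hA.2 (e ▸ hxA)
  have hyb : y ≠ b := fun e => hB.2 (e ▸ hyB)
  obtain ⟨S, hS, hxy'⟩ := hs x (mem_sup_id.2 ⟨A, hA.1, hxA⟩) y (mem_sup_id.2 ⟨B, hB.1, hyB⟩) hxy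
  refine ⟨S.erase b, mem_filter.2 ⟨(h S hS).2, notMem_erase _ _⟩, ?_⟩
  simp only [mem_erase]
  tauto

theorem Free.power (h : Free F b) (hp : F.filter (fun A => b ∉ A) =
    ((F.filter (fun A => b ∉ A)).sup id).powerset) : F = (F.sup id).powerset := by
  ext A
  rw [mem_powerset]
  constructor
  · intro hA x hx
    exact mem_sup_id.2 ⟨A, hA, hx⟩
  · intro hA
    have h1 : A.erase b ∈ F.filter (fun A => b ∉ A) := by
      rw [hp, mem_powerset]
      intro x hx
      rw [mem_erase] at hx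
      obtain ⟨B, hB, hxB⟩ := mem_sup_id.1 (hA hx.2)
      exact mem_sup_id.2 ⟨B.erase b, mem_filter.2 ⟨(h B hB).2, notMem_erase _ _⟩,
        mem_erase.2 ⟨hx.1, hxB⟩⟩
    have h2 := (mem_filter.1 h1).1
    by_cases hb : b ∈ A
    · have := (h _ h2).1
      rwa [insert_erase hb] at this
    · rwa [erase_eq_of_notMem hb] at h2

end Pool.Agent.H61.PS
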