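import Pool.Agent.H61.LF11
import Pool.Agent.H61.PS7

set_option autoImplicit false
set_option linter.all false

/-!
# Strict inequalities
-/

namespace Pool.Agent.H61.LF

open Finset Pool.Agent.H61.FC Pool.Agent.N188.FC Pool.Agent.N188.LD
open scoped Classical

/-- `x` lies in more than half of the members or is free -/
def SF (F : Finset (Finset ℕ)) (x : ℕ) : Prop :=
  #F < 2 * #(F.filter (fun A => x ∈ A)) ∨ ∀ A ∈ F, insert x A ∈ F ∧ A.erase x ∈ F

theorem SF.abundant {F : Finset (Finset ℕ)} {x : ℕ} (h : SF F x) :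
    #F ≤ 2 * #(F.filter (fun A => x ∈ A)) := by
  rcases h with h | h
  · exact h.le
  · have hfree : Pool.Agent.H61.PS.Free F x := h
    have h4 := hfree.card
    have h6 : (F.filter (fun A => x ∈ A)).card + (F.filter (fun A => ¬ x ∈ A)).card = F.card :=
      card_filter_add_card_filter_not (fun A => x ∈ A)
    omega

/-- if no edge in direction `b` leaves, then `b` can be added -/
theorem add_of_DD {F : Finset (Finset ℕ)} {S : Finset ℕ} {b : ℕ}
    (h : DD F S b = 0) : ∀ A ∈ F, insert b A ∈ F := by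
  intro A hA
  by_cases hbA : b ∈ A
  · rwa [insert_eq_of_mem hbA]
  have h3 : D S (fib F S (A \ S)) b = 0 := by
    unfold DD at h
    rw [sum_eq_zero_iff_of_nonneg (fun _ _ => Nat.cast_nonneg _)] at h
    exact_mod_cast h (A \ S) (mem_image_of_mem _ hA)
  have hm : A ∩ S ∈ fib F S (A \ S) := mem_fib.2 ⟨A, hA, rfl, rfl⟩
  unfold D cnt at h3
  rw [sum_eq_zero_iff] at h3
  have h4 := h3 (A ∩ S) (mem_powerset.2 (subset_erase.2 ⟨inter_subset_right,
    fun h => hbA (mem_inter.1 h).1⟩))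
  unfold ind at h4
  have h5 : insert b (A ∩ S) ∈ fib F S (A \ S) := by
    by_contra h6
    rw [if_pos ⟨hm, h6⟩] at h4
    exact one_ne_zero h4
  obtain ⟨A', hA', e1, e2⟩ := mem_fib.1 h5
  have h6 : A' = insert b A := by
    rw [← sdiff_union_inter A' S, e1, e2, union_insert, sdiff_union_inter]
  rw [← h6]
  exact hA'

/-- **the criterion**, strict form -/
theorem strict {F G : Finset (Finset ℕ)} {S : Finset ℕ} {l : Finset ℕ → ℝ}
    (hF : ∀ B ∈ F, ∀ C ∈ F, B ∪ C ∈ F) (hGF : G ⊆ F) (hGS : ∀ A ∈ G, A ⊆ S)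
    (hG2 : ∀ A ∈ G, 2 ≤ #A) (hl : ∀ A ∈ G, 0 ≤ l A)
    (hcod : ∀ x ∈ S, ∀ y ∈ S, x ≠ y → ∑ A ∈ G.filter (fun A => x ∈ A ∧ y ∈ A), l A ≤ 1)
    (hsum : (#S : ℝ) < ∑ A ∈ G, l A * ((#A : ℝ) * (#A - 1) / (2 ^ (#A - 1) - 1))) :
    ∃ x ∈ S, SF F x := by
  have hS : S.Nonempty := by
    rw [nonempty_iff_ne_empty]
    rintro rfl
    have hG : G = ∅ := by
      rw [eq_empty_iff_forall_notMem]
      intro A hA
      have h1 := hGS A hA
      rw [subset_empty] at h1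
      have := hG2 A hA
      rw [h1] at this
      simp at this
    rw [hG] at hsum
    simp at hsum
  obtain ⟨x, hx, h⟩ := criterion_strict hF hGF hGS hG2 hS hl hcod hsum
  by_contra hcon
  push Not at hcon
  have h1 := hcon x hx
  unfold SF at h1
  push Not at h1
  rcases h with h | h
  · have := h1.1; omega
  · obtain ⟨A, hA, h2⟩ := h1.2
    have h3 := Pool.Agent.H61.PS.free_of_add (add_of_DD h.1) h1.1 A hA
    exact h2 h3.1 h3.2

/-- linear families whose average weight is greater than `1` -/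
theorem linear_strict {F G : Finset (Finset ℕ)} {S : Finset ℕ}
    (hF : ∀ A ∈ F, ∀ B ∈ F, A ∪ B ∈ F)
    (hGF : G ⊆ F) (hG : ∀ A ∈ G, A ⊆ S) (hlin : Linear G)
    (hG2 : ∀ A ∈ G, 2 ≤ #A) (h : (#S : ℝ) < ∑ x ∈ S, om G x) :
    ∃ x ∈ S, SF F x := by
  refine strict (l := fun _ => 1) hF hGF hG hG2 (fun _ _ => zero_le_one) ?_ ?_
  · intro x _ y _ hxy
    rw [sum_const, nsmul_eq_mul, mul_one]
    exact_mod_cast hlin.codeg hxy
  · rw [sum_om hG] at h
    simpa using h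

/-- uniform linear families -/
theorem unif_strict {F G : Finset (Finset ℕ)} {S : Finset ℕ} {k : ℕ}
    (hF : ∀ A ∈ F, ∀ B ∈ F, A ∪ B ∈ F)
    (hGF : G ⊆ F) (hk : 2 ≤ k) (hG : ∀ A ∈ G, A ⊆ S ∧ #A = k) (hlin : Linear G)
    (h : (2 ^ (k - 1) - 1) * #S < k * (k - 1) * #G) :
    ∃ x ∈ S, SF F x := by
  refine linear_strict hF hGF (fun A hA => (hG A hA).1) hlin
    (fun A hA => by rw [(hG A hA).2]; exact hk) ?_
  rw [sum_om (fun A hA => (hG A hA).1)]
  have e1 : ∑ A ∈ G, (#A : ℝ) * (#A - 1) / (2 ^ (#A - 1) - 1) =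
      #G * ((k : ℝ) * (k - 1) / (2 ^ (k - 1) - 1)) := by
    rw [← nsmul_eq_mul, ← sum_const]
    exact sum_congr rfl fun A hA => by rw [(hG A hA).2]
  rw [e1]
  have hp := pow_pos' hk
  have h2 : ((2 ^ (k - 1) - 1) * #S : ℝ) < k * (k - 1) * #G := by
    have h3 : (((2 ^ (k - 1) - 1) * #S : ℕ) : ℝ) < ((k * (k - 1) * #G : ℕ) : ℝ) := by
      exact_mod_cast h
    push_cast [Nat.cast_sub (by omega : 1 ≤ k), Nat.cast_sub (Nat.one_le_two_pow (n := k - 1))] at h3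
    exact h3
  rw [mul_div_assoc', lt_div_iff₀ hp]
  linarith

/-- the admissible values, strict -/
def SFs (k n : ℕ) : Set ℕ :=
  {m : ℕ | ∀ F K : Finset (Finset ℕ), (∀ A ∈ F, ∀ B ∈ F, A ∪ B ∈ F) → K ⊆ F →
    (∀ A ∈ K, A ⊆ range n ∧ #A = k) → Linear K → m ≤ #K → ∃ x ∈ range n, SF F x}

theorem SFs_upper {k n m : ℕ} (hk : 2 ≤ k)
    (h : (2 ^ (k - 1) - 1) * n < k * (k - 1) * m) : m ∈ SFs k n := by
  intro F K hF hKF hK hlin hm
  refine unif_strict hF hKF hk hK hlin ?_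
  rw [card_range]
  exact h.trans_le (Nat.mul_le_mul_left _ hm)

theorem SFs_LFs {k n : ℕ} : SFs k n ⊆ LFs k n := by
  intro m hm F K hF hKF hK hlin hmK
  obtain ⟨x, hx, h⟩ := hm F K hF hKF hK hlin hmK
  exact ⟨x, hx, h.abundant⟩

theorem sfc_upper {k n : ℕ} (hk : 2 ≤ k) :
    sInf (SFs k n) ≤ (2 ^ (k - 1) - 1) * n / (k * (k - 1)) + 1 ∧
    sInf (LFs k n) ≤ sInf (SFs k n) := by
  have hkk : 0 < k * (k - 1) := Nat.mul_pos (by omega) (by omega)
  have hmem : (2 ^ (k - 1) - 1) * n / (k * (k - 1)) + 1 ∈ SFs k n :=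
    SFs_upper hk (Nat.lt_mul_div_succ _ hkk)
  exact ⟨Nat.sInf_le hmem, Nat.sInf_le (SFs_LFs (Nat.sInf_mem ⟨_, hmem⟩))⟩

theorem sfc_bounds {k n : ℕ} (hk : 3 ≤ k) (hn : k ^ 2 * 2 ^ (k - 1) ≤ n) :
    (2 ^ (k - 1) - k) * (n - k) < k * (k - 1) * sInf (SFs k n) ∧
    k * (k - 1) * sInf (SFs k n) ≤ (2 ^ (k - 1) - 1) * n + k * (k - 1) := by
  obtain ⟨h1, h2⟩ := sfc_upper (k := k) (n := n) (by omega)
  refine ⟨(lfc_bounds hk hn).1.trans_le (Nat.mul_le_mul_left _ h2), ?_⟩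
  calc k * (k - 1) * sInf (SFs k n)
      ≤ k * (k - 1) * ((2 ^ (k - 1) - 1) * n / (k * (k - 1)) + 1) := Nat.mul_le_mul_left _ h1
    _ = k * (k - 1) * ((2 ^ (k - 1) - 1) * n / (k * (k - 1))) + k * (k - 1) := by ring
    _ ≤ _ := Nat.add_le_add_right (Nat.mul_div_le _ _) _

/-- almost all families of this size force -/
theorem almost_strict (k : ℕ) (hk : 3 ≤ k) : ∃ C : ℕ, ∀ n m : ℕ,
    2 ^ (k - 1) * n ≤ k * (k - 1) * m → ∀ (P : Finset (Finset ℕ) → Prop) [DecidablePred P],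
    (∀ B, P B ↔ ∃ F : Finset (Finset ℕ), (∀ A ∈ F, ∀ B ∈ F, A ∪ B ∈ F) ∧ B ⊆ F ∧
      ∀ x ∈ range n, ¬ SF F x) →
    n * ((powersetCard m (powersetCard k (range n))).filter P).card ≤
      C * (powersetCard m (powersetCard k (range n))).card := by
  obtain ⟨C, hC⟩ := almost_gen k hk
  refine ⟨C, fun n m hnm P _ hP => hC n m hnm P ?_ ?_⟩
  · intro B' _ h B hB
    rw [hP] at h ⊢
    obtain ⟨F, hF, hBF, h⟩ := h
    exact ⟨F, hF, hB.trans hBF, h⟩
  · intro hn B hB h K hK hlin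
    rw [hP] at h
    obtain ⟨F, hF, hBF, h⟩ := h
    by_contra hcon
    push Not at hcon
    obtain ⟨x, hx, hab⟩ := SFs_upper (k := k) (n := n) (m := #K) (by omega) hcon F K hF
      (hK.trans hBF) (fun A hA => mem_powersetCard.1 (hB (hK hA))) hlin le_rfl
    exact h x hx hab

/-- `m` does not divide `2 ^ m - 1` -/
theorem not_dvd {m : ℕ} (hm : 2 ≤ m) : ¬ m ∣ 2 ^ m - 1 := by
  intro h
  have hp : m.minFac.Prime := Nat.minFac_prime (by omega)
  have hpd : m.minFac ∣ m := Nat.minFac_dvd m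
  set p := m.minFac with hpdef
  haveI : Fact p.Prime := ⟨hp⟩
  have h1 : p ∣ 2 ^ m - 1 := hpd.trans h
  have h2 : (2 : ZMod p) ^ m = 1 := by
    have h3 : ((2 ^ m - 1 : ℕ) : ZMod p) = 0 := (ZMod.natCast_eq_zero_iff _ _).2 h1
    rw [Nat.cast_sub Nat.one_le_two_pow] at h3
    push_cast at h3
    exact sub_eq_zero.1 h3
  have h20 : (2 : ZMod p) ≠ 0 := by
    intro h4
    rw [h4, zero_pow (by omega)] at h2
    exact zero_ne_one h2
  have h5 : orderOf (2 : ZMod p) ∣ m := orderOf_dvd_of_pow_eq_one h2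
  have h6 : orderOf (2 : ZMod p) ∣ p - 1 := orderOf_dvd_of_pow_eq_one (ZMod.pow_card_sub_one_eq_one h20)
  have h7 : orderOf (2 : ZMod p) = 1 := by
    by_contra hne
    have h8 : (orderOf (2 : ZMod p)).minFac.Prime := Nat.minFac_prime hne
    have h9 : (orderOf (2 : ZMod p)).minFac ∣ orderOf (2 : ZMod p) := Nat.minFac_dvd _
    have h10 : p ≤ (orderOf (2 : ZMod p)).minFac :=
      Nat.minFac_le_of_dvd h8.two_le (h9.trans h5)
    have h11 : (orderOf (2 : ZMod p)).minFac ≤ p - 1 :=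
      Nat.le_of_dvd (by have := hp.two_le; omega) (h9.trans h6)
    have := hp.two_le
    omega
  rw [orderOf_eq_one_iff] at h7
  have h8 : (1 : ZMod p) = 0 := by
    have : (2 : ZMod p) = 1 + 1 := by norm_num
    rw [this] at h7
    have h9 : (1 : ZMod p) + 1 - 1 = 1 - 1 := by rw [h7]
    simpa using h9
  exact one_ne_zero h8

/-- the degrees in a Steiner system -/
theorem steiner_dvd {G : Finset (Finset ℕ)} {S : Finset ℕ} {k : ℕ} (hk : 2 ≤ k) (hS : 2 ≤ #S)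
    (hG : ∀ A ∈ G, A ⊆ S ∧ #A = k)
    (hcod : ∀ x ∈ S, ∀ y ∈ S, x ≠ y → #(G.filter (fun A => x ∈ A ∧ y ∈ A)) = 1) :
    k - 1 ∣ #S - 1 := by
  obtain ⟨x, hx⟩ : S.Nonempty := by rw [← card_pos]; omega
  have h1 : ∑ A ∈ G.filter (fun A => x ∈ A), #(A.erase x) = #(S.erase x) := by
    have e1 : ∀ A ∈ G.filter (fun A => x ∈ A), #(A.erase x) =
        ∑ y ∈ S.erase x, if y ∈ A then 1 else 0 := by
      intro A hA
      have hA' := mem_filter.1 hA
      rw [← card_filter]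
      congr 1
      ext y
      simp only [mem_erase, mem_filter]
      constructor
      · rintro ⟨h1, h2⟩; exact ⟨⟨h1, (hG A hA'.1).1 h2⟩, h2⟩
      · rintro ⟨⟨h1, _⟩, h2⟩; exact ⟨h1, h2⟩
    rw [sum_congr rfl e1, sum_comm, card_eq_sum_ones]
    refine sum_congr rfl fun y hy => ?_
    have hy' := mem_erase.1 hy
    rw [← card_filter, filter_filter]
    exact hcod x hx y hy'.2 hy'.1.symm
  have h2 : ∑ A ∈ G.filter (fun A => x ∈ A), #(A.erase x) =
      #(G.filter (fun A => x ∈ A)) * (k - 1) := by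
    rw [← smul_eq_mul, ← sum_const]
    refine sum_congr rfl fun A hA => ?_
    have hA' := mem_filter.1 hA
    rw [card_erase_of_mem hA'.2, (hG A hA'.1).2]
  rw [h1, card_erase_of_mem hx] at h2
  exact ⟨_, by rw [h2, mul_comm]⟩

/-- Steiner systems -/
theorem steiner_strict {G : Finset (Finset ℕ)} {S : Finset ℕ} {k : ℕ} (hk : 3 ≤ k) (hS : 2 ≤ #S)
    (hG : ∀ A ∈ G, A ⊆ S ∧ #A = k)
    (hcod : ∀ x ∈ S, ∀ y ∈ S, x ≠ y → #(G.filter (fun A => x ∈ A ∧ y ∈ A)) = 1)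
    (h : 2 ^ (k - 1) ≤ #S) {F : Finset (Finset ℕ)} (hF : ∀ A ∈ F, ∀ B ∈ F, A ∪ B ∈ F)
    (hGF : G ⊆ F) : ∃ x ∈ S, SF F x := by
  have hk2 : 2 ≤ k := by omega
  obtain ⟨hlin, hom⟩ := steiner hk2 hS hG hcod
  have hdvd := steiner_dvd hk2 hS hG hcod
  have hne : 2 ^ (k - 1) ≠ #S := by
    intro e
    rw [← e] at hdvd
    exact not_dvd (by omega : 2 ≤ k - 1) hdvd
  have hlt : 2 ^ (k - 1) < #S := lt_of_le_of_ne h hne
  refine linear_strict hF hGF (fun A hA => (hG A hA).1) hlin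
    (fun A hA => by rw [(hG A hA).2]; exact hk2) ?_
  rw [sum_congr rfl hom, sum_const, nsmul_eq_mul]
  have hp := pow_pos' hk2
  have h3 : (2 : ℝ) ^ (k - 1) < #S := by exact_mod_cast hlt
  have h4 : 1 < ((#S : ℝ) - 1) / (2 ^ (k - 1) - 1) := by
    rw [lt_div_iff₀ hp]; linarith
  have h5 : (0 : ℝ) < #S := by
    have : 0 < #S := by omega
    exact_mod_cast this
  nlinarith

end Pool.Agent.H61.LF
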