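import Pool.Agent.H61.LF12

set_option autoImplicit false
set_option linter.all false

/-!
# Strict inequalities: the linear program
-/

namespace Pool.Agent.H61.LF

open Finset Pool.Agent.H61.FC Pool.Agent.N188.FC
open scoped Classical

/-- a solution of the linear program with a strict inequality -/
theorem lp_strict {F G : Finset (Finset ℕ)} {S : Finset ℕ} (hF : ∀ A ∈ F, ∀ B ∈ F, A ∪ B ∈ F)
    (hG : ∀ A ∈ G, A ⊆ S) (hGF : G ⊆ F) (hlin : Linear G)
    {c : ℕ → ℝ} (hc0 : ∀ x, 0 ≤ c x)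
    (hc : ∀ x ∈ S, c x ≤ ∑ A ∈ G.filter (fun A => x ∈ A), phi c (A.erase x))
    {b : ℕ} (hb : b ∈ S) (hcb : 0 < c b)
    (hlt : c b < ∑ A ∈ G.filter (fun A => b ∈ A), phi c (A.erase b)) :
    ∃ x ∈ S, SF F x := by
  by_contra hcon
  push Not at hcon
  have hno : ∀ x ∈ S, 2 * #(F.filter (fun A => x ∈ A)) ≤ #F := fun x hx => by
    have := hcon x hx; unfold SF at this; push Not at this; exact this.1
  set s : ℕ → ℝ := fun x => ∑ A ∈ G.filter (fun A => x ∈ A), phi c (A.erase x) with hs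
  have hs0 : ∀ x, 0 ≤ s x := fun x => sum_nonneg fun A _ => phi_nonneg hc0
  set l : ℕ → ℝ := fun x => if x = b then s b / c b else 1 with hl
  have hlb : 1 < l b := by
    rw [hl]; dsimp only; rw [if_pos rfl, lt_div_iff₀ hcb, one_mul]; exact hlt
  have hiso : ∀ x ∈ S, IsoW S G c (l x) x := by
    intro x hx Q hQ hY
    have hls : l x * c x ≤ s x := by
      rw [hl]; dsimp only
      split_ifs with h
      · subst h; rw [div_mul_cancel₀ _ hcb.ne']
      · rw [one_mul]; exact hc x hx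
    rw [ec_eq hQ, cnt_eq_card]
    set 𝒟 := (S.erase x).powerset.filter Q with h𝒟
    have hD : Dn 𝒟 := down_fam hQ
    refine (mul_le_mul_of_nonneg_right hls (Nat.cast_nonneg _)).trans ?_
    rw [hs]; dsimp only
    rw [sum_mul]
    set I := G.filter (fun A => x ∈ A) with hI
    have hI' : ∀ A, A ∈ I ↔ A ∈ G ∧ x ∈ A := fun A => mem_filter
    have h2 : ∀ A ∈ I, phi c (A.erase x) * #𝒟 ≤ ∑ j ∈ A.erase x, c j * dg 𝒟 j := by
      intro A hA
      have hA' := (hI' A).1 hA
      refine edge_dg hD (phi_nonneg hc0) (fun U hU => phi_mul_le hU) ?_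
      intro E hE hsubE
      rw [mem_filter] at hE
      have h3 : insert x (A.erase x) ∈ G := by rw [insert_erase hA'.2]; exact hA'.1
      exact hY E hE.2 ⟨A.erase x, h3, hsubE⟩
    refine (sum_le_sum h2).trans ?_
    rw [← sum_biUnion (fun A hA A' hA' hne => hlin.disj ((hI' A).1 hA).1 ((hI' A').1 hA').1 hne
      ((hI' A).1 hA).2 ((hI' A').1 hA').2)]
    refine sum_le_sum_of_subset_of_nonneg (fun y hy => ?_) fun y _ _ =>
      mul_nonneg (hc0 y) (dg_nonneg hD y)
    rw [mem_biUnion] at hy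
    obtain ⟨A, hA, hyA⟩ := hy
    exact erase_subset_erase _ (hG A ((hI' A).1 hA).1) hyA
  have hl0 : ∀ x, 0 ≤ l x := by
    intro x
    rw [hl]; dsimp only
    split_ifs with h
    · exact div_nonneg (hs0 b) hcb.le
    · exact zero_le_one
  have hl1 : ∀ x ∈ S, 1 ≤ l x := by
    intro x _
    by_cases h : x = b
    · rw [h]; exact hlb.le
    · rw [hl]; dsimp only; rw [if_neg h]
  exact hcon b hb (Or.inr
    (Pool.Agent.H61.PS.strict_or_free hF hG hGF hc0 hl0 hl1 hiso hb hlb hcb hno))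

end Pool.Agent.H61.LF
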