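import Pool.Agent.H61.LF13

set_option autoImplicit false
set_option linter.all false

/-!
# Slack in the summation of the flows
-/

namespace Pool.Agent.H61.LF

open Finset Pool.Agent.H61.FC Pool.Agent.N188.FC Pool.Agent.N188.LD
open scoped Classical

theorem half_miss_strict {S M : Finset ℕ} (hM : M ⊆ S) (h3 : 3 ≤ M.card) :
    2 * ∑ W ∈ S.powerset, ind ((M \ W).card = 1) < 2 ^ S.card := by
  obtain ⟨t, ht⟩ : M.Nonempty := by rw [← card_pos]; omega
  have htS := hM ht
  obtain ⟨N, htN, rfl⟩ : ∃ N, t ∉ N ∧ insert t N = S :=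
    ⟨S.erase t, notMem_erase _ _, insert_erase htS⟩
  rw [sum_powerset_insert htN, ← sum_add_distrib, card_insert_of_notMem htN, pow_succ]
  have h1 : ∑ W ∈ N.powerset, (ind ((M \ W).card = 1) + ind ((M \ insert t W).card = 1)) <
      ∑ W ∈ N.powerset, 1 := by
    refine sum_lt_sum (fun W hW => ?_) ⟨∅, empty_mem_powerset _, ?_⟩
    · rw [mem_powerset] at hW
      have htW : t ∉ W := fun h => htN (hW h)
      have h2 : M \ W = insert t (M \ insert t W) := by
        ext x
        simp only [mem_sdiff, mem_insert]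
        constructor
        · rintro ⟨h, h'⟩
          by_cases hx : x = t
          · exact Or.inl hx
          · exact Or.inr ⟨h, by tauto⟩
        · rintro (rfl | h)
          · exact ⟨ht, htW⟩
          · tauto
      have h3 : (M \ W).card = (M \ insert t W).card + 1 := by
        rw [h2, card_insert_of_notMem (by simp)]
      rw [h3]
      unfold ind
      split_ifs <;> omega
    · have e1 : (M \ (∅ : Finset ℕ)).card = M.card := by rw [sdiff_empty]
      have e2 : (M \ insert t (∅ : Finset ℕ)).card + 1 = M.card := by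
        have : M \ insert t (∅ : Finset ℕ) = M.erase t := by
          ext z; simp only [mem_sdiff, mem_insert, mem_erase, notMem_empty, or_false]; tauto
        rw [this]
        exact card_erase_add_one ht
      unfold ind
      rw [if_neg (by omega), if_neg (by omega)]
      norm_num
  rw [sum_const, card_powerset, smul_eq_mul, mul_one] at h1
  omega

theorem T_sum_strict {S : Finset ℕ} {K : Finset (Finset ℕ)} (X : Finset ℕ) (hX : X ⊆ S) (k : ℕ)
    (h3 : 3 ≤ (X \ (K.filter (fun A => A ⊆ X)).sup id).card) :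
    2 * ∑ w ∈ S, ∑ W ∈ S.powerset, (if k ∈ S.erase w then ind (T K X k w W) else 0) <
      2 ^ S.card := by
  set M := X \ (K.filter (fun A => A ⊆ X)).sup id with hM
  refine lt_of_le_of_lt ?_ (half_miss_strict (S := S) (M := M) (sdiff_subset.trans hX) h3)
  refine Nat.mul_le_mul_left 2 ?_
  rw [sum_comm]
  refine sum_le_sum fun W _ => ?_
  have key : ∀ w, T K X k w W → M \ W = {w} := by
    rintro w ⟨h2, h3, h4, ⟨A, hA, h5, h6⟩, h7, h8⟩
    have hAh : A ⊆ (K.filter (fun A => A ⊆ X)).sup id :=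
      le_sup (f := id) (mem_filter.2 ⟨hA, h5.trans (erase_subset _ _)⟩)
    have hwh : w ∉ (K.filter (fun A => A ⊆ X)).sup id := by
      intro h
      rw [mem_sup] at h
      obtain ⟨B, hB, hwB⟩ := h
      rw [mem_filter] at hB
      simp only [id] at hwB
      exact h7 ⟨B.erase w, by show insert w (B.erase w) ∈ K; rw [insert_erase hwB]; exact hB.1,
        erase_subset_erase _ hB.2⟩
    ext x
    rw [hM, mem_sdiff, mem_sdiff, mem_singleton]
    constructor
    · rintro ⟨⟨hx1, hx2⟩, hx3⟩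
      by_contra hne
      rcases mem_union.1 (h6 (mem_erase.2 ⟨hne, hx1⟩)) with h | h
      · exact hx2 (hAh h)
      · exact hx3 h
    · rintro rfl
      exact ⟨⟨h2, hwh⟩, h3⟩
  by_cases hex : ∃ w ∈ S, T K X k w W
  · obtain ⟨w, hw, hT⟩ := hex
    have h2 := key w hT
    have h3 : ind ((M \ W).card = 1) = 1 := by
      unfold ind; rw [if_pos (by rw [h2, card_singleton])]
    rw [h3, sum_eq_single w]
    · split_ifs
      · exact ind_le_one _
      · exact Nat.zero_le _
    · intro v _ hv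
      have : ¬ T K X k v W := by
        intro h
        have h4 := key v h
        rw [h2, singleton_inj] at h4
        exact hv h4.symm
      unfold ind
      rw [if_neg this]
      simp
    · intro h; exact absurd hw h
  · push Not at hex
    refine le_trans (le_of_eq (sum_eq_zero fun w hw => ?_)) (Nat.zero_le _)
    unfold ind
    rw [if_neg (hex w hw)]
    simp

/-- the strict form of the inequality between the numbers of edges -/
theorem boundary_strict {S : Finset ℕ} {K G : Finset (Finset ℕ)} {c : ℕ → ℝ}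
    (hc0 : ∀ x, 0 ≤ c x)
    (hU : ∀ A ∈ K, ∀ B ∈ K, A ∪ B ∈ K) (ha : ∀ A ∈ K, ∀ B ∈ G, A ∪ B ∈ K)
    (hc : ∀ w ∈ S, IsoW S G c 1 w) {X₀ : Finset ℕ} {k₀ : ℕ} (hX₀ : X₀ ⊆ S) (hk₀ : k₀ ∈ S)
    (hck : 0 < c k₀) (h1' : k₀ ∉ X₀ ∧ X₀ ∉ K ∧ insert k₀ X₀ ∈ K)
    (h3' : 3 ≤ (X₀ \ (K.filter (fun A => A ⊆ X₀)).sup id).card) :
    ∑ w ∈ S, c w * (D S K w : ℝ) < ∑ w ∈ S, c w * (Uw S K w : ℝ) := by
  have h1 : ∀ w ∈ S, (2 : ℝ) ^ (S.erase w).card * (c w * D S K w) ≤
      ∑ X ∈ S.powerset, ∑ k ∈ S.erase w, c k * ∑ W ∈ S.powerset, (ind (T K X k w W) : ℝ) := by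
    intro w hw
    refine le_trans ?_ (Lc_le (K := K) hc0 hw)
    have hiso := hc w hw
    unfold IsoW at hiso
    simp only [one_mul] at hiso
    have := zedc (N := S.erase w) (Q := fun A => A ∈ K) (P := fun A => insert w A ∈ K)
      (Y := fun B => insert w B ∈ G) hc0 (hc0 w) hiso
      (by
        intro A B hA hB
        have := hU _ hA _ hB
        rwa [insert_union] at this)
      (by
        intro A B hA hB
        have := hU _ hA _ hB
        have e : insert w A ∪ insert w B = insert w (A ∪ B) := by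
          ext x; simp only [mem_union, mem_insert]; tauto
        rwa [e] at this)
      (by
        intro A B hA hB
        have := ha _ hB _ hA
        rwa [union_comm, insert_union] at this)
      (by
        intro A B hA hB
        have := ha _ hB _ hA
        have e : insert w B ∪ insert w A = insert w (A ∪ B) := by
          ext x; simp only [mem_union, mem_insert]; tauto
        rwa [e] at this)
    exact this
  have h2 : ∀ w ∈ S, ∑ X ∈ S.powerset, ∑ k ∈ S.erase w, c k *
      ∑ W ∈ S.powerset, (ind (T K X k w W) : ℝ) =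
      ∑ X ∈ S.powerset, ∑ k ∈ S, c k * ∑ W ∈ S.powerset,
        ((if k ∈ S.erase w then ind (T K X k w W) else 0 : ℕ) : ℝ) := by
    intro w hw
    refine sum_congr rfl fun X _ => ?_
    have h3 : ∀ k, c k * ∑ W ∈ S.powerset,
        ((if k ∈ S.erase w then ind (T K X k w W) else 0 : ℕ) : ℝ) =
        if k ∈ S.erase w then c k * ∑ W ∈ S.powerset, (ind (T K X k w W) : ℝ) else 0 := by
      intro k; split_ifs <;> simp
    simp_rw [h3]
    rw [← sum_filter]
    congr 1
    ext k
    simp only [mem_filter, mem_erase]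
    tauto
  have h3 : 2 * ∑ w ∈ S, ∑ X ∈ S.powerset, ∑ k ∈ S.erase w, c k *
      ∑ W ∈ S.powerset, (ind (T K X k w W) : ℝ) <
      2 ^ S.card * ∑ w ∈ S, c w * (Uw S K w : ℝ) := by
    calc 2 * ∑ w ∈ S, ∑ X ∈ S.powerset, ∑ k ∈ S.erase w, c k *
        ∑ W ∈ S.powerset, (ind (T K X k w W) : ℝ)
        = 2 * ∑ w ∈ S, ∑ X ∈ S.powerset, ∑ k ∈ S, c k * ∑ W ∈ S.powerset,
        ((if k ∈ S.erase w then ind (T K X k w W) else 0 : ℕ) : ℝ) := by
          rw [sum_congr rfl h2]
      _ = ∑ X ∈ S.powerset, ∑ k ∈ S, c k * (2 * ∑ w ∈ S, ∑ W ∈ S.powerset,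
          ((if k ∈ S.erase w then ind (T K X k w W) else 0 : ℕ) : ℝ)) := by
          rw [sum_comm, mul_sum]
          refine sum_congr rfl fun X _ => ?_
          rw [sum_comm, mul_sum]
          refine sum_congr rfl fun k _ => ?_
          rw [← mul_sum]
          ring
      _ < ∑ X ∈ S.powerset, ∑ k ∈ S, c k *
          (2 ^ S.card * (ind (k ∉ X ∧ X ∉ K ∧ insert k X ∈ K) : ℝ)) := by
          refine sum_lt_sum (fun X hX => sum_le_sum fun k _ =>
            mul_le_mul_of_nonneg_left ?_ (hc0 k)) ⟨X₀, mem_powerset.2 hX₀, ?_⟩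
          · exact_mod_cast T_sum X (mem_powerset.1 hX) k
          · refine sum_lt_sum (fun k _ => mul_le_mul_of_nonneg_left ?_ (hc0 k)) ⟨k₀, hk₀, ?_⟩
            · exact_mod_cast T_sum X₀ hX₀ k
            · refine mul_lt_mul_of_pos_left ?_ hck
              have e : ind (k₀ ∉ X₀ ∧ X₀ ∉ K ∧ insert k₀ X₀ ∈ K) = 1 := by
                unfold ind; rw [if_pos h1']
              rw [e, Nat.cast_one, mul_one]
              exact_mod_cast T_sum_strict X₀ hX₀ k₀ h3'
      _ = 2 ^ S.card * ∑ w ∈ S, c w * (Uw S K w : ℝ) := by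
          rw [sum_comm, mul_sum]
          refine sum_congr rfl fun k _ => ?_
          unfold Uw
          push_cast
          rw [mul_sum, mul_sum]
          refine sum_congr rfl fun X _ => ?_
          ring
  have h4 : (2 : ℝ) ^ S.card * (∑ w ∈ S, c w * (D S K w : ℝ)) ≤
      2 * ∑ w ∈ S, ∑ X ∈ S.powerset, ∑ k ∈ S.erase w, c k *
      ∑ W ∈ S.powerset, (ind (T K X k w W) : ℝ) := by
    rw [mul_sum, mul_sum]
    refine sum_le_sum fun w hw => ?_
    have h5 := h1 w hw
    have h6 : (2 : ℝ) ^ S.card = 2 * 2 ^ (S.erase w).card := by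
      rw [← pow_succ', card_erase_of_mem hw]
      congr 1
      have : 0 < S.card := card_pos.2 ⟨w, hw⟩
      omega
    rw [h6]
    nlinarith
  exact lt_of_mul_lt_mul_left (h4.trans_lt h3) (by positivity)

/-- slack: some element lies in more than half of the members -/
theorem slack {F G : Finset (Finset ℕ)} {S : Finset ℕ} {c : ℕ → ℝ}
    (hF : ∀ A ∈ F, ∀ B ∈ F, A ∪ B ∈ F) (hGS : ∀ B ∈ G, B ⊆ S) (hGF : G ⊆ F)
    (hc0 : ∀ x, 0 ≤ c x) (hc : ∀ w ∈ S, IsoW S G c 1 w) {Y : Finset ℕ} {k : ℕ}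
    (hY : Y ∈ F) (hYS : Y ⊆ S) (hk : k ∈ Y) (hck : 0 < c k) (hYk : Y.erase k ∉ F)
    (h3 : 3 ≤ ((Y.erase k) \ (F.filter (fun A => A ⊆ Y.erase k)).sup id).card) :
    ∃ x ∈ S, F.card < 2 * (F.filter (fun A => x ∈ A)).card := by
  have ha : ∀ A ∈ F, ∀ B ∈ G, A ∪ B ∈ F := fun A hA B hB => hF A hA B (hGF hB)
  set K := F.filter (fun A => A ⊆ S) with hK
  have hKe : fib F S ∅ = K := by
    ext A
    rw [mem_fib, hK, mem_filter]
    constructor
    · rintro ⟨B, hB, h3, rfl⟩
      rw [sdiff_eq_empty_iff_subset] at h3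
      rw [inter_eq_left.2 h3]
      exact ⟨hB, h3⟩
    · rintro ⟨hA, h3⟩
      exact ⟨A, hA, sdiff_eq_empty_iff_subset.2 h3, inter_eq_left.2 h3⟩
  have hKU : ∀ A ∈ K, ∀ B ∈ K, A ∪ B ∈ K := by
    rw [← hKe]; exact fib_union hF ∅
  have hKa : ∀ A ∈ K, ∀ B ∈ G, A ∪ B ∈ K := by
    rw [← hKe]; exact fib_absorb hGS ha ∅
  have hX : Y.erase k ⊆ S := (erase_subset _ _).trans hYS
  have e0 : K.filter (fun A => A ⊆ Y.erase k) = F.filter (fun A => A ⊆ Y.erase k) := by
    ext A
    simp only [hK, mem_filter]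
    constructor
    · rintro ⟨⟨h, _⟩, h'⟩; exact ⟨h, h'⟩
    · rintro ⟨h, h'⟩; exact ⟨⟨h, h'.trans hX⟩, h'⟩
  have hb := boundary_strict (K := K) (G := G) hc0 hKU hKa hc hX (hYS hk) hck
    ⟨notMem_erase _ _, fun h => hYk (mem_filter.1 h).1, by
      rw [insert_erase hk]; exact mem_filter.2 ⟨hY, hYS⟩⟩ (by rw [e0]; exact h3)
  refine Pool.Agent.H61.PS.strict_of_zero hF hGS hGF hc0 hc (hYS hk) ?_
  rw [← hK]
  have hKS : ∀ A ∈ K, A ⊆ S := fun A hA => (mem_filter.1 hA).2
  have e4 : ∑ w ∈ S, c w * ((K.card : ℝ) + Uw S K w) =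
      ∑ w ∈ S, c w * (2 * ((K.filter (fun A => w ∈ A)).card : ℝ) + D S K w) := by
    refine sum_congr rfl fun w hw => ?_
    congr 1
    exact_mod_cast balance_pt hKS hw
  have e6 : ∑ A ∈ K, ∑ x ∈ A, c x = ∑ w ∈ S, c w * ((K.filter (fun A => w ∈ A)).card : ℝ) := by
    have h7 : ∀ A ∈ K, ∑ x ∈ A, c x = ∑ w ∈ S, if w ∈ A then c w else 0 := by
      intro A hA
      rw [← sum_filter, filter_mem_eq_inter, inter_eq_right.2 (hKS A hA)]
    rw [sum_congr rfl h7, sum_comm]
    refine sum_congr rfl fun w _ => ?_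
    rw [← sum_filter, sum_const, nsmul_eq_mul, mul_comm]
  have e7 : ∑ w ∈ S, c w * (K.card : ℝ) = K.card * ∑ x ∈ S, c x := by
    rw [← sum_mul, mul_comm]
  have e8 : ∑ A ∈ K, (2 * ∑ x ∈ A, c x - ∑ x ∈ S, c x) =
      ∑ w ∈ S, c w * (Uw S K w : ℝ) - ∑ w ∈ S, c w * (D S K w : ℝ) := by
    rw [sum_sub_distrib, ← mul_sum, sum_const, nsmul_eq_mul, e6]
    simp only [mul_add, sum_add_distrib, mul_left_comm _ (2 : ℝ), ← mul_sum] at e4
    rw [e7] at e4
    linarith
  rw [e8]
  linarith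

end Pool.Agent.H61.LF
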