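import Pool.Agent.H61.LF14

set_option autoImplicit false
set_option linter.all false

/-!
# The small members in the tight case
-/

namespace Pool.Agent.H61.LF

open Finset Pool.Agent.H61.FC Pool.Agent.N188.FC
open scoped Classical

theorem iso_of {G : Finset (Finset ℕ)} {S : Finset ℕ} {c : ℕ → ℝ} (hc0 : ∀ x, 0 ≤ c x) {x : ℕ}
    (I : Finset (Finset ℕ)) (hI : ∀ A ∈ I, A ∈ G ∧ x ∈ A ∧ A ⊆ S)
    (hdis : ∀ A ∈ I, ∀ A' ∈ I, A ≠ A' → Disjoint (A.erase x) (A'.erase x)) {l : ℝ}
    (h : l * c x ≤ ∑ A ∈ I, phi c (A.erase x)) : IsoW S G c l x := by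
  intro Q hQ hY
  rw [ec_eq hQ, cnt_eq_card]
  set 𝒟 := (S.erase x).powerset.filter Q with h𝒟
  have hD : Dn 𝒟 := down_fam hQ
  refine (mul_le_mul_of_nonneg_right h (Nat.cast_nonneg _)).trans ?_
  rw [sum_mul]
  have h2 : ∀ A ∈ I, phi c (A.erase x) * #𝒟 ≤ ∑ j ∈ A.erase x, c j * dg 𝒟 j := by
    intro A hA
    have hA' := hI A hA
    refine edge_dg hD (phi_nonneg hc0) (fun U hU => phi_mul_le hU) ?_
    intro E hE hsubE
    rw [mem_filter] at hE
    have h3 : insert x (A.erase x) ∈ G := by rw [insert_erase hA'.2.1]; exact hA'.1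
    exact hY E hE.2 ⟨A.erase x, h3, hsubE⟩
  refine (sum_le_sum h2).trans ?_
  rw [← sum_biUnion (fun A hA A' hA' hne => hdis A hA A' hA' hne)]
  refine sum_le_sum_of_subset_of_nonneg (fun y hy => ?_) fun y _ _ =>
    mul_nonneg (hc0 y) (dg_nonneg hD y)
  rw [mem_biUnion] at hy
  obtain ⟨A, hA, hyA⟩ := hy
  exact erase_subset_erase _ (hI A hA).2.2 hyA

theorem iso_one {G : Finset (Finset ℕ)} {S : Finset ℕ} {c : ℕ → ℝ} (hc0 : ∀ x, 0 ≤ c x) {x : ℕ}
    {A : Finset ℕ} (hA : A ∈ G) (hx : x ∈ A) (hAS : A ⊆ S) {l : ℝ}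
    (h : l * c x ≤ phi c (A.erase x)) : IsoW S G c l x := by
  refine iso_of hc0 {A} ?_ ?_ (by rw [sum_singleton]; exact h)
  · intro B hB
    rw [mem_singleton] at hB
    subst hB
    exact ⟨hA, hx, hAS⟩
  · intro B hB B' hB' hne
    rw [mem_singleton] at hB hB'
    exact absurd (hB.trans hB'.symm) hne

/-- a local configuration with a strict inequality -/
theorem sf_local {F G : Finset (Finset ℕ)} {S : Finset ℕ} {c : ℕ → ℝ}
    (hF : ∀ A ∈ F, ∀ B ∈ F, A ∪ B ∈ F) (hGS : ∀ B ∈ G, B ⊆ S) (hGF : G ⊆ F)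
    (hc0 : ∀ x, 0 ≤ c x) {b : ℕ} (hb : b ∈ S) (hcb : 0 < c b) {l : ℝ} (hl : 1 < l)
    (hib : IsoW S G c l b) (hi : ∀ x ∈ S, x ≠ b → IsoW S G c 1 x) : ∃ x ∈ S, SF F x := by
  by_contra hcon
  push Not at hcon
  have hno : ∀ x ∈ S, 2 * #(F.filter (fun A => x ∈ A)) ≤ #F := fun x hx => by
    have := hcon x hx; unfold SF at this; push Not at this; exact this.1
  refine hcon b hb (Or.inr (Pool.Agent.H61.PS.strict_or_free (l := fun x => if x = b then l else 1)
    hF hGS hGF hc0 (fun x => ?_) (fun x _ => ?_) (fun x hx => ?_) hb ?_ hcb hno))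
  · split_ifs <;> linarith
  · split_ifs <;> linarith
  · split_ifs with h
    · rw [h]; exact hib
    · exact hi x hx h
  · rw [if_pos rfl]; exact hl

theorem split2 {T : Finset ℕ} {p : ℕ} (h : #T = 2) (hp : p ∈ T) : ∃ q, q ≠ p ∧ T = {p, q} := by
  have h1 : #(T.erase p) = 1 := by rw [card_erase_of_mem hp, h]
  obtain ⟨q, hq⟩ := card_eq_one.1 h1
  have h2 : q ∈ T.erase p := by rw [hq]; exact mem_singleton_self q
  exact ⟨q, ne_of_mem_erase h2, by rw [← insert_erase hp, hq]⟩

theorem split3 {T : Finset ℕ} {p : ℕ} (h : #T = 3) (hp : p ∈ T) :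
    ∃ u v, u ≠ p ∧ v ≠ p ∧ u ≠ v ∧ T = {p, u, v} := by
  have h1 : #(T.erase p) = 2 := by rw [card_erase_of_mem hp, h]
  obtain ⟨u, v, huv, hq⟩ := card_eq_two.1 h1
  have h2 : u ∈ T.erase p := by rw [hq]; simp
  have h3 : v ∈ T.erase p := by rw [hq]; simp
  exact ⟨u, v, ne_of_mem_erase h2, ne_of_mem_erase h3, huv, by rw [← insert_erase hp, hq]⟩

theorem er1 {p q : ℕ} (h : q ≠ p) : ({p, q} : Finset ℕ).erase p = {q} := by
  ext z; simp only [mem_erase, mem_insert, mem_singleton]
  constructor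
  · rintro ⟨h1, h2 | h2⟩
    · exact absurd h2 h1
    · exact h2
  · rintro rfl; exact ⟨h, Or.inr rfl⟩

theorem er2 {p q : ℕ} (h : q ≠ p) : ({p, q} : Finset ℕ).erase q = {p} := by
  rw [pair_comm, er1 h.symm]

theorem er31 {p u v : ℕ} (h1 : u ≠ p) (h2 : v ≠ p) : ({p, u, v} : Finset ℕ).erase p = {u, v} := by
  rw [erase_insert]
  simp only [mem_insert, mem_singleton, not_or]
  exact ⟨h1.symm, h2.symm⟩

theorem er32 {p u v : ℕ} (h1 : u ≠ p) (h3 : u ≠ v) : ({p, u, v} : Finset ℕ).erase u = {p, v} := by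
  have : ({p, u, v} : Finset ℕ) = {u, p, v} := insert_comm _ _ _
  rw [this, erase_insert]
  simp only [mem_insert, mem_singleton, not_or]
  exact ⟨h1, h3⟩

theorem er33 {p u v : ℕ} (h2 : v ≠ p) (h3 : u ≠ v) : ({p, u, v} : Finset ℕ).erase v = {p, u} := by
  have : ({p, u, v} : Finset ℕ) = {p, v, u} := by rw [pair_comm u v]
  rw [this, er32 h2 h3.symm]

theorem pair_pair {F : Finset (Finset ℕ)} (hF : ∀ A ∈ F, ∀ B ∈ F, A ∪ B ∈ F) {p q r : ℕ}
    (hq : q ≠ p) (hr : r ≠ p) (hqr : q ≠ r) (h1 : {p, q} ∈ F) (h2 : {p, r} ∈ F) :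
    ∃ x ∈ ({p, q, r} : Finset ℕ), SF F x := by
  have hs1 : ({p, q} : Finset ℕ) ⊆ {p, q, r} := by
    intro z; simp only [mem_insert, mem_singleton]; tauto
  have hs2 : ({p, r} : Finset ℕ) ⊆ {p, q, r} := by
    intro z; simp only [mem_insert, mem_singleton]; tauto
  have hne : ({p, q} : Finset ℕ) ≠ {p, r} := by
    intro e
    have : q ∈ ({p, r} : Finset ℕ) := by rw [← e]; simp
    simp only [mem_insert, mem_singleton] at this
    tauto
  refine sf_local (G := {{p, q}, {p, r}}) (c := fun _ => 1) (b := p) (l := 2) hF ?_ ?_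
    (fun _ => zero_le_one) (by simp) zero_lt_one one_lt_two ?_ ?_
  · intro B hB
    simp only [mem_insert, mem_singleton] at hB
    rcases hB with rfl | rfl
    · exact hs1
    · exact hs2
  · intro B hB
    simp only [mem_insert, mem_singleton] at hB
    rcases hB with rfl | rfl
    · exact h1
    · exact h2
  · refine iso_of (fun _ => zero_le_one) {{p, q}, {p, r}} ?_ ?_ ?_
    · intro B hB
      simp only [mem_insert, mem_singleton] at hB
      rcases hB with rfl | rfl
      · exact ⟨by simp, by simp, hs1⟩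
      · exact ⟨by simp, by simp, hs2⟩
    · intro B hB B' hB' hne'
      simp only [mem_insert, mem_singleton] at hB hB'
      rcases hB with rfl | rfl <;> rcases hB' with rfl | rfl
      · exact absurd rfl hne'
      · rw [er1 hq, er1 hr, disjoint_singleton]; exact hqr
      · rw [er1 hq, er1 hr, disjoint_singleton]; exact hqr.symm
      · exact absurd rfl hne'
    · rw [sum_pair hne, er1 hq, er1 hr, phi_single, phi_single]
      norm_num
  · intro x hx hxp
    simp only [mem_insert, mem_singleton] at hx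
    rcases hx with rfl | rfl | rfl
    · exact absurd rfl hxp
    · refine iso_one (fun _ => zero_le_one) (A := {p, x}) (by simp) (by simp) hs1 ?_
      rw [er2 hq, phi_single]; norm_num
    · refine iso_one (fun _ => zero_le_one) (A := {p, x}) (by simp) (by simp) hs2 ?_
      rw [er2 hr, phi_single]; norm_num

theorem pair_triple1 {F : Finset (Finset ℕ)} (hF : ∀ A ∈ F, ∀ B ∈ F, A ∪ B ∈ F) {p q u v : ℕ}
    (hq : q ≠ p) (hu : u ≠ p) (hv : v ≠ p) (huv : u ≠ v) (hqu : q ≠ u) (hqv : q ≠ v)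
    (h1 : {p, q} ∈ F) (h2 : {p, u, v} ∈ F) :
    ∃ x ∈ ({p, q, u, v} : Finset ℕ), SF F x := by
  have hs1 : ({p, q} : Finset ℕ) ⊆ {p, q, u, v} := by
    intro z; simp only [mem_insert, mem_singleton]; tauto
  have hs2 : ({p, u, v} : Finset ℕ) ⊆ {p, q, u, v} := by
    intro z; simp only [mem_insert, mem_singleton]; tauto
  have hne : ({p, q} : Finset ℕ) ≠ {p, u, v} := by
    intro e
    have : q ∈ ({p, u, v} : Finset ℕ) := by rw [← e]; simp
    simp only [mem_insert, mem_singleton] at this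
    tauto
  set c : ℕ → ℝ := fun z => if z = p ∨ z = q then 1 else 1 / 2 with hc
  have hc0 : ∀ x, 0 ≤ c x := by intro x; rw [hc]; dsimp only; split_ifs <;> norm_num
  have cp : c p = 1 := by rw [hc]; dsimp only; rw [if_pos (Or.inl rfl)]
  have cq : c q = 1 := by rw [hc]; dsimp only; rw [if_pos (Or.inr rfl)]
  have cu : c u = 1 / 2 := by rw [hc]; dsimp only; rw [if_neg (by tauto)]
  have cv : c v = 1 / 2 := by rw [hc]; dsimp only; rw [if_neg (by tauto)]
  refine sf_local (G := {{p, q}, {p, u, v}}) (c := c) (b := p) (l := 4 / 3) hF ?_ ?_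
    hc0 (by simp) (by rw [cp]; norm_num) (by norm_num) ?_ ?_
  · intro B hB
    simp only [mem_insert, mem_singleton] at hB
    rcases hB with rfl | rfl
    · exact hs1
    · exact hs2
  · intro B hB
    simp only [mem_insert, mem_singleton] at hB
    rcases hB with rfl | rfl
    · exact h1
    · exact h2
  · refine iso_of hc0 {{p, q}, {p, u, v}} ?_ ?_ ?_
    · intro B hB
      simp only [mem_insert, mem_singleton] at hB
      rcases hB with rfl | rfl
      · exact ⟨by simp, by simp, hs1⟩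
      · exact ⟨by simp, by simp, hs2⟩
    · intro B hB B' hB' hne'
      simp only [mem_insert, mem_singleton] at hB hB'
      have hd : Disjoint ({q} : Finset ℕ) {u, v} := by
        rw [disjoint_singleton_left]; simp only [mem_insert, mem_singleton]; tauto
      rcases hB with rfl | rfl <;> rcases hB' with rfl | rfl
      · exact absurd rfl hne'
      · rw [er1 hq, er31 hu hv]; exact hd
      · rw [er1 hq, er31 hu hv]; exact hd.symm
      · exact absurd rfl hne'
    · rw [sum_pair hne, er1 hq, er31 hu hv, phi_single, cp, cq]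
      have := le_phi_pair (w := c) huv (by rw [cu, cv])
      rw [cu, cv] at this
      have e : min (1 / 2 : ℝ) ((1 / 2 + 1 / 2) / 3) = 1 / 3 := by
        rw [min_eq_right (by norm_num)]; norm_num
      rw [e] at this
      linarith
  · intro x hx hxp
    simp only [mem_insert, mem_singleton] at hx
    rcases hx with rfl | rfl | rfl | rfl
    · exact absurd rfl hxp
    · refine iso_one hc0 (A := {p, x}) (by simp) (by simp) hs1 ?_
      rw [er2 hq, phi_single, cp, cq]; norm_num
    · refine iso_one hc0 (A := {p, x, v}) (by simp) (by simp) hs2 ?_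
      rw [er32 hu huv, cu, pair_comm]
      have := le_phi_pair (w := c) (x := v) (y := p) hv (by rw [cv, cp]; norm_num)
      rw [cv, cp, min_eq_left (by norm_num)] at this
      linarith
    · refine iso_one hc0 (A := {p, u, x}) (by simp) (by simp) hs2 ?_
      rw [er33 hv huv, cv, pair_comm]
      have := le_phi_pair (w := c) (x := u) (y := p) hu (by rw [cu, cp]; norm_num)
      rw [cu, cp, min_eq_left (by norm_num)] at this
      linarith

theorem pair_triple2 {F : Finset (Finset ℕ)} (hF : ∀ A ∈ F, ∀ B ∈ F, A ∪ B ∈ F) {p q u : ℕ}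
    (hq : q ≠ p) (hu : u ≠ p) (hqu : q ≠ u)
    (h1 : {p, q} ∈ F) (h2 : {p, q, u} ∈ F) :
    ∃ x ∈ ({p, q, u} : Finset ℕ), SF F x := by
  have hs1 : ({p, q} : Finset ℕ) ⊆ {p, q, u} := by
    intro z; simp only [mem_insert, mem_singleton]; tauto
  set c : ℕ → ℝ := fun z => if z = u then 1 / 2 else 1 with hc
  have hc0 : ∀ x, 0 ≤ c x := by intro x; rw [hc]; dsimp only; split_ifs <;> norm_num
  have cp : c p = 1 := by rw [hc]; dsimp only; rw [if_neg hu.symm]
  have cq : c q = 1 := by rw [hc]; dsimp only; rw [if_neg hqu]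
  have cu : c u = 1 / 2 := by rw [hc]; dsimp only; rw [if_pos rfl]
  refine sf_local (G := {{p, q}, {p, q, u}}) (c := c) (b := u) (l := 4 / 3) hF ?_ ?_
    hc0 (by simp) (by rw [cu]; norm_num) (by norm_num) ?_ ?_
  · intro B hB
    simp only [mem_insert, mem_singleton] at hB
    rcases hB with rfl | rfl
    · exact hs1
    · exact Subset.refl _
  · intro B hB
    simp only [mem_insert, mem_singleton] at hB
    rcases hB with rfl | rfl
    · exact h1
    · exact h2
  · refine iso_one hc0 (A := {p, q, u}) (by simp) (by simp) (Subset.refl _) ?_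
    rw [er33 hu hqu, cu]
    have := le_phi_pair (w := c) (x := p) (y := q) hq.symm (by rw [cq, cp])
    rw [cq, cp, min_eq_right (by norm_num)] at this
    linarith
  · intro x hx hxp
    simp only [mem_insert, mem_singleton] at hx
    rcases hx with rfl | rfl | rfl
    · refine iso_one hc0 (A := {x, q}) (by simp) (by simp) hs1 ?_
      rw [er1 hq, phi_single, cp, cq]; norm_num
    · refine iso_one hc0 (A := {p, x}) (by simp) (by simp) hs1 ?_
      rw [er2 hq, phi_single, cp, cq]; norm_num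
    · exact absurd rfl hxp

/-- the union of the members contained in `X` -/
def core (F : Finset (Finset ℕ)) (X : Finset ℕ) : Finset ℕ := (F.filter (fun A => A ⊆ X)).sup id

/-- the tight case -/
structure Tg (F : Finset (Finset ℕ)) (S : Finset ℕ) : Prop where
  uc : ∀ A ∈ F, ∀ B ∈ F, A ∪ B ∈ F
  no : ∀ x ∈ S, ¬ SF F x
  rl : ∀ Y ∈ F, Y ⊆ S → ∀ k ∈ Y, Y.erase k ∈ F ∨ #(Y.erase k \ core F (Y.erase k)) ≤ 2

theorem core_ne {F : Finset (Finset ℕ)} {X : Finset ℕ} (h : #(X \ core F X) < #X) :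
    ∃ B ∈ F, B ⊆ X ∧ B.Nonempty := by
  by_contra hcon
  push Not at hcon
  have h1 : core F X = ∅ := by
    rw [eq_empty_iff_forall_notMem]
    intro z hz
    unfold core at hz
    rw [Pool.Agent.H61.PS.mem_sup_id] at hz
    obtain ⟨B, hB, hzB⟩ := hz
    rw [mem_filter] at hB
    have := hcon B hB.1 hB.2
    rw [this] at hzB
    exact notMem_empty z hzB
  rw [h1, sdiff_empty] at h
  exact lt_irrefl _ h

variable {F : Finset (Finset ℕ)} {S : Finset ℕ}

theorem Tg.half (h : Tg F S) : ∀ x ∈ S, 2 * #(F.filter (fun A => x ∈ A)) ≤ #F := fun x hx => by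
  have := h.no x hx; unfold SF at this; push Not at this; exact this.1

theorem Tg.single (h : Tg F S) {y : ℕ} (hy : y ∈ S) : ({y} : Finset ℕ) ∉ F := fun hF =>
  h.no y hy (Or.inr (Pool.Agent.H61.PS.free_of_single h.uc hF (h.half y hy)))

theorem Tg.false (h : Tg F S) {W : Finset ℕ} (hW : W ⊆ S) (h1 : ∃ x ∈ W, SF F x) : False := by
  obtain ⟨x, hx, h2⟩ := h1
  exact h.no x (hW hx) h2

theorem Tg.two_two (h : Tg F S) {P Q : Finset ℕ} (hP : P ∈ F) (hQ : Q ∈ F) (hPS : P ⊆ S)
    (hQS : Q ⊆ S) (h2 : #P = 2) (h3 : #Q = 2) (hne : P ≠ Q) : Disjoint P Q := by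
  by_contra hd
  rw [not_disjoint_iff] at hd
  obtain ⟨p, hp1, hp2⟩ := hd
  obtain ⟨q, hq, rfl⟩ := split2 h2 hp1
  obtain ⟨r, hr, rfl⟩ := split2 h3 hp2
  have hqr : q ≠ r := fun e => hne (by rw [e])
  refine h.false (W := {p, q, r}) ?_ (pair_pair h.uc hq hr hqr hP hQ)
  intro z hz
  simp only [mem_insert, mem_singleton] at hz
  rcases hz with rfl | rfl | rfl
  · exact hPS (by simp)
  · exact hPS (by simp)
  · exact hQS (by simp)

theorem Tg.two_three (h : Tg F S) {P T : Finset ℕ} (hP : P ∈ F) (hT : T ∈ F) (hPS : P ⊆ S)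
    (hTS : T ⊆ S) (h2 : #P = 2) (h3 : #T = 3) : Disjoint P T := by
  by_contra hd
  rw [not_disjoint_iff] at hd
  obtain ⟨p, hp1, hp2⟩ := hd
  obtain ⟨q, hq, rfl⟩ := split2 h2 hp1
  obtain ⟨u, v, hu, hv, huv, rfl⟩ := split3 h3 hp2
  have hsub : ({p, q, u, v} : Finset ℕ) ⊆ S := by
    intro z hz
    simp only [mem_insert, mem_singleton] at hz
    rcases hz with rfl | rfl | rfl | rfl
    · exact hPS (by simp)
    · exact hPS (by simp)
    · exact hTS (by simp)
    · exact hTS (by simp)
  by_cases hqu : q = u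
  · subst hqu
    exact h.false hTS (pair_triple2 h.uc hq hv huv hP hT)
  by_cases hqv : q = v
  · subst hqv
    have e : ({p, u, q} : Finset ℕ) = {p, q, u} := by rw [pair_comm u q]
    rw [e] at hT hTS
    exact h.false hTS (pair_triple2 h.uc hq hu hqu hP hT)
  exact h.false hsub (pair_triple1 h.uc hq hu hv huv hqu hqv hP hT)

theorem Tg.three_two (h : Tg F S) {T T' : Finset ℕ} (hT : T ∈ F) (hT' : T' ∈ F) (hTS : T ⊆ S)
    (hTS' : T' ⊆ S) (h2 : #T = 3) (h3 : #T' = 3) (hne : T ≠ T') : #(T ∩ T') ≠ 2 := by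
  intro hi
  obtain ⟨p, hp⟩ : (T ∩ T').Nonempty := by rw [← card_pos]; omega
  rw [mem_inter] at hp
  have hYc : #(T ∪ T') = 4 := by
    have := card_union_add_card_inter T T'
    omega
  have hYS : T ∪ T' ⊆ S := union_subset hTS hTS'
  have hpY : p ∈ T ∪ T' := mem_union_left _ hp.1
  have hXc : #((T ∪ T').erase p) = 3 := by rw [card_erase_of_mem hpY, hYc]
  have hcase : (T ∪ T').erase p ∉ F := by
    intro hX
    have h4 := Pool.Agent.H61.PS.upper3_strict (G := {T, T', (T ∪ T').erase p}) (F := F) (by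
        intro B hB
        simp only [mem_insert, mem_singleton] at hB
        rcases hB with rfl | rfl | rfl
        · exact h2
        · exact h3
        · exact hXc) h.uc (by
        intro B hB
        simp only [mem_insert, mem_singleton] at hB
        rcases hB with rfl | rfl | rfl
        · exact hT
        · exact hT'
        · exact hX) 4 (T ∪ T') hYc (fun x hx => h.half x (hYS hx)) (fun b hb hfree =>
          h.no b (hYS hb) (Or.inr hfree))
    have h5 : ins ({T, T', (T ∪ T').erase p} : Finset (Finset ℕ)) (T ∪ T') = 3 := by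
      unfold ins
      rw [filter_true_of_mem]
      · rw [card_insert_of_notMem, card_insert_of_notMem, card_singleton]
        · rw [mem_singleton]
          intro e
          exact notMem_erase p (T ∪ T') (e ▸ hp.2)
        · rw [mem_insert, mem_singleton, not_or]
          refine ⟨hne, fun e => ?_⟩
          exact notMem_erase p (T ∪ T') (e ▸ hp.1)
      · intro B hB
        simp only [mem_insert, mem_singleton] at hB
        rcases hB with rfl | rfl | rfl
        · exact subset_union_left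
        · exact subset_union_right
        · exact erase_subset _ _
    rw [h5, hYc] at h4
    omega
  rcases h.rl _ (h.uc T hT T' hT') hYS p hpY with h4 | h4
  · exact hcase h4
  · obtain ⟨D, hD, hDX, hDne⟩ := core_ne (by omega : #((T ∪ T').erase p \ core F ((T ∪ T').erase p)) <
      #((T ∪ T').erase p))
    have hDY : D ⊆ T ∪ T' := hDX.trans (erase_subset _ _)
    have hDS : D ⊆ S := hDY.trans hYS
    have hDpos := hDne.card_pos
    have hD3 : #D < 3 := by
      by_contra hc
      push Not at hc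
      have : D = (T ∪ T').erase p := eq_of_subset_of_card_le hDX (by omega)
      exact hcase (this ▸ hD)
    rcases (by omega : #D = 1 ∨ #D = 2) with h5 | h5
    · obtain ⟨y, rfl⟩ := card_eq_one.1 h5
      exact h.single (hDS (mem_singleton_self y)) hD
    · have h6 := h.two_three hD hT hDS hTS h5 h2
      have h7 := h.two_three hD hT' hDS hTS' h5 h3
      obtain ⟨z, hz⟩ := hDne
      rcases mem_union.1 (hDY hz) with h8 | h8
      · exact disjoint_left.1 h6 hz h8
      · exact disjoint_left.1 h7 hz h8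

theorem Tg.three_one (h : Tg F S) {T T' : Finset ℕ} (hT : T ∈ F) (hT' : T' ∈ F) (hTS : T ⊆ S)
    (hTS' : T' ⊆ S) (h2 : #T = 3) (h3 : #T' = 3) : #(T ∩ T') ≠ 1 := by
  intro hi
  obtain ⟨p, hp'⟩ : (T ∩ T').Nonempty := by rw [← card_pos]; omega
  have hp := mem_inter.1 hp'
  have hYc : #(T ∪ T') = 5 := by
    have := card_union_add_card_inter T T'
    omega
  have hYS : T ∪ T' ⊆ S := union_subset hTS hTS'
  have hpY : p ∈ T ∪ T' := mem_union_left _ hp.1
  have hXc : #((T ∪ T').erase p) = 4 := by rw [card_erase_of_mem hpY, hYc]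
  have hex : ∃ D ∈ F, D ⊆ (T ∪ T').erase p ∧ D.Nonempty := by
    rcases h.rl _ (h.uc T hT T' hT') hYS p hpY with h4 | h4
    · exact ⟨_, h4, Subset.refl _, by rw [← card_pos]; omega⟩
    · exact core_ne (by omega)
  -- a smallest such member
  obtain ⟨D, hDm, hDmin⟩ := exists_min_image (F.filter (fun D => D ⊆ (T ∪ T').erase p ∧ D.Nonempty))
    card (by
      obtain ⟨D, h5, h6, h7⟩ := hex
      exact ⟨D, mem_filter.2 ⟨h5, h6, h7⟩⟩)
  rw [mem_filter] at hDm
  obtain ⟨hD, hDX, hDne⟩ := hDm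
  have hDY : D ⊆ T ∪ T' := hDX.trans (erase_subset _ _)
  have hDS : D ⊆ S := hDY.trans hYS
  have hDpos := hDne.card_pos
  have hpD : p ∉ D := fun h' => notMem_erase p _ (hDX h')
  have hD4 : #D ≤ 4 := hXc ▸ card_le_card hDX
  rcases (by omega : #D = 1 ∨ #D = 2 ∨ #D = 3 ∨ #D = 4) with h5 | h5 | h5 | h5
  · obtain ⟨y, rfl⟩ := card_eq_one.1 h5
    exact h.single (hDS (mem_singleton_self y)) hD
  · have h6 := h.two_three hD hT hDS hTS h5 h2
    have h7 := h.two_three hD hT' hDS hTS' h5 h3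
    obtain ⟨z, hz⟩ := hDne
    rcases mem_union.1 (hDY hz) with h8 | h8
    · exact disjoint_left.1 h6 hz h8
    · exact disjoint_left.1 h7 hz h8
  · have h6 : 3 ≤ #(D ∩ T) + #(D ∩ T') := by
      have h7 : D ⊆ (D ∩ T) ∪ (D ∩ T') := by
        intro z hz
        rcases mem_union.1 (hDY hz) with h8 | h8
        · exact mem_union_left _ (mem_inter.2 ⟨hz, h8⟩)
        · exact mem_union_right _ (mem_inter.2 ⟨hz, h8⟩)
      have := (card_le_card h7).trans (card_union_le _ _)
      omega
    have hl : ∀ {R : Finset ℕ}, #R = 3 → p ∈ R → #(D ∩ R) ≤ 2 := by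
      intro R hR hpR
      have : D ∩ R ⊆ R.erase p := by
        intro z hz
        rw [mem_inter] at hz
        exact mem_erase.2 ⟨fun e => hpD (e ▸ hz.1), hz.2⟩
      have h8 := card_le_card this
      rw [card_erase_of_mem hpR, hR] at h8
      exact h8
    have h8 := hl h2 hp.1
    have h9 := hl h3 hp.2
    rcases (by omega : #(D ∩ T) = 2 ∨ #(D ∩ T') = 2) with h10 | h10
    · exact h.three_two hD hT hDS hTS h5 h2 (fun e => hpD (e ▸ hp.1)) h10
    · exact h.three_two hD hT' hDS hTS' h5 h3 (fun e => hpD (e ▸ hp.2)) h10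
  · obtain ⟨k, hk⟩ := hDne
    have hc : #(D.erase k) = 3 := by rw [card_erase_of_mem hk, h5]
    have hsm : ∃ B ∈ F, B ⊆ D.erase k ∧ B.Nonempty := by
      rcases h.rl D hD hDS k hk with h6 | h6
      · exact ⟨_, h6, Subset.refl _, by rw [← card_pos]; omega⟩
      · exact core_ne (by omega)
    obtain ⟨B, hB, hBD, hBne⟩ := hsm
    have h7 := hDmin B (mem_filter.2 ⟨hB, (hBD.trans (erase_subset _ _)).trans hDX, hBne⟩)
    have h8 := card_le_card hBD
    omega

/-- small members are disjoint -/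
theorem Tg.disj (h : Tg F S) {P Q : Finset ℕ} (hP : P ∈ F) (hQ : Q ∈ F) (hPS : P ⊆ S)
    (hQS : Q ⊆ S) (h2 : #P = 2 ∨ #P = 3) (h3 : #Q = 2 ∨ #Q = 3) (hne : P ≠ Q) : Disjoint P Q := by
  rcases h2 with h2 | h2 <;> rcases h3 with h3 | h3
  · exact h.two_two hP hQ hPS hQS h2 h3 hne
  · exact h.two_three hP hQ hPS hQS h2 h3
  · exact (h.two_three hQ hP hQS hPS h3 h2).symm
  · rw [disjoint_iff_inter_eq_empty, ← card_eq_zero]
    have h4 := h.three_two hP hQ hPS hQS h2 h3 hne
    have h5 := h.three_one hP hQ hPS hQS h2 h3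
    have h6 : #(P ∩ Q) ≠ 3 := by
      intro h6
      have e1 : P ∩ Q = P := eq_of_subset_of_card_le inter_subset_left (by omega)
      have e2 : P ∩ Q = Q := eq_of_subset_of_card_le inter_subset_right (by omega)
      exact hne (e1.symm.trans e2)
    have h7 : #(P ∩ Q) ≤ 3 := h2 ▸ card_le_card inter_subset_left
    omega

end Pool.Agent.H61.LF
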