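import Pool.Agent.H61.LF15

set_option autoImplicit false
set_option linter.all false

/-!
# Linear families with members of size at least three: forcing is strict forcing
-/

namespace Pool.Agent.H61.LF

open Finset Pool.Agent.H61.FC Pool.Agent.N188.FC
open scoped Classical

variable {F : Finset (Finset ℕ)} {S : Finset ℕ}

theorem sup_mem_or {F : Finset (Finset ℕ)} (hF : ∀ A ∈ F, ∀ B ∈ F, A ∪ B ∈ F)
    (G : Finset (Finset ℕ)) : G ⊆ F → G.sup id = ∅ ∨ G.sup id ∈ F := by
  induction G using Finset.induction_on with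
  | empty => intro _; left; rfl
  | insert B G hB ih =>
    intro h
    have hBF := h (mem_insert_self B G)
    rw [sup_insert]
    have e : (id B : Finset ℕ) ⊔ G.sup id = B ∪ G.sup id := rfl
    rw [e]
    rcases ih ((subset_insert _ _).trans h) with h1 | h1
    · rw [h1, union_empty]; exact Or.inr hBF
    · exact Or.inr (hF _ hBF _ h1)

theorem core_mem (hF : ∀ A ∈ F, ∀ B ∈ F, A ∪ B ∈ F) (X : Finset ℕ) :
    core F X = ∅ ∨ core F X ∈ F :=
  sup_mem_or hF _ (filter_subset _ _)

theorem core_sub (X : Finset ℕ) : core F X ⊆ X := by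
  unfold core
  exact Finset.sup_le fun A hA => (mem_filter.1 hA).2

theorem core_max {X B : Finset ℕ} (hB : B ∈ F) (h : B ⊆ X) : B ⊆ core F X := by
  unfold core
  exact le_sup (f := id) (mem_filter.2 ⟨hB, h⟩)

/-- `Y` is the union of small members -/
def Good (F : Finset (Finset ℕ)) (Y : Finset ℕ) : Prop :=
  ∀ z ∈ Y, ∃ B ∈ F, B ⊆ Y ∧ z ∈ B ∧ (#B = 2 ∨ #B = 3)

theorem Tg.good (h : Tg F S) (n : ℕ) : ∀ Y ∈ F, Y ⊆ S → #Y = n → Good F Y := by
  induction n using Nat.strong_induction_on with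
  | _ n ih =>
  intro Y hY hYS hn
  by_contra hng
  unfold Good at hng
  push Not at hng
  obtain ⟨k, hk, hunc⟩ := hng
  have unc : ∀ B ∈ F, B ⊆ Y → (#B = 2 ∨ #B = 3) → k ∉ B := by
    intro B hB hBY hs hkB
    have := hunc B hB hBY hkB
    omega
  -- proper members inside `Y` are good
  have hsub : ∀ X ⊆ Y, X ≠ Y → core F X = ∅ ∨ (core F X ∈ F ∧ Good F (core F X)) := by
    intro X hX hne
    rcases core_mem h.uc X with h1 | h1
    · exact Or.inl h1
    · right
      have h2 : core F X ⊆ X := core_sub X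
      have h3 : #(core F X) < n := by
        have h4 := card_le_card h2
        have h5 := card_lt_card (Finset.ssubset_iff_subset_ne.2 ⟨hX, hne⟩)
        omega
      exact ⟨h1, ih _ h3 _ h1 ((h2.trans hX).trans hYS) rfl⟩
  have her : ∀ j ∈ Y, Y.erase j ≠ Y := fun j hj e => notMem_erase j Y (e.symm ▸ hj)
  have hcovg : ∀ X ⊆ Y, X ≠ Y → ∀ z ∈ core F X, ∃ B ∈ F, B ⊆ core F X ∧ z ∈ B ∧
      (#B = 2 ∨ #B = 3) := by
    intro X hX hne z hz
    rcases hsub X hX hne with h1 | h1
    · rw [h1] at hz; exact absurd hz (notMem_empty z)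
    · exact h1.2 z hz
  set Z := core F (Y.erase k) with hZ
  have hZs : Z ⊆ Y.erase k := core_sub _
  have hYZ : #(Y \ Z) ≤ 3 := by
    rcases h.rl Y hY hYS k hk with h1 | h1
    · have h2 : Y.erase k ⊆ Z := core_max h1 (Subset.refl _)
      have h3 : Y \ Z ⊆ {k} := by
        intro z hz
        rw [mem_sdiff] at hz
        rw [mem_singleton]
        by_contra hzk
        exact hz.2 (h2 (mem_erase.2 ⟨hzk, hz.1⟩))
      have := card_le_card h3
      rw [card_singleton] at this
      omega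
    · rw [← hZ] at h1
      have h3 : Y \ Z ⊆ insert k (Y.erase k \ Z) := by
        intro z hz
        rw [mem_sdiff] at hz
        by_cases hzk : z = k
        · rw [hzk]; exact mem_insert_self _ _
        · exact mem_insert_of_mem (mem_sdiff.2 ⟨mem_erase.2 ⟨hzk, hz.1⟩, hz.2⟩)
      have := (card_le_card h3).trans (card_insert_le _ _)
      omega
  by_cases hZe : Z = ∅
  · rw [hZe, sdiff_empty] at hYZ
    have hpos : 0 < #Y := card_pos.2 ⟨k, hk⟩
    rcases (by omega : #Y = 1 ∨ (#Y = 2 ∨ #Y = 3)) with h1 | h1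
    · obtain ⟨y, hy⟩ := card_eq_one.1 h1
      rw [hy] at hY hYS
      exact h.single (hYS (mem_singleton_self y)) hY
    · exact unc Y hY (Subset.refl _) h1 hk
  · obtain ⟨j, hj⟩ := nonempty_iff_ne_empty.2 hZe
    have hjY : j ∈ Y := mem_of_mem_erase (hZs hj)
    obtain ⟨B, hB, hBZ, hjB, hBs⟩ := hcovg _ (erase_subset _ _) (her k hk) j hj
    have hBY : B ⊆ Y := (hBZ.trans hZs).trans (erase_subset _ _)
    -- the main step
    have main : ∀ B ∈ F, B ⊆ Y → (#B = 2 ∨ #B = 3) → ∀ j ∈ B, #B = 2 ∧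
        ∀ z ∈ Y, z ≠ k → z ∉ B → z ∈ core F (Y.erase j) := by
      intro B hB hBY hBs j hjB
      have hkB := unc B hB hBY hBs
      have hjY := hBY hjB
      have hkj : k ≠ j := fun e => hkB (e ▸ hjB)
      rcases h.rl Y hY hYS j hjY with h1 | h1
      · exfalso
        have h2 : #(Y.erase j) < n := by
          rw [← hn]; exact card_lt_card (erase_ssubset hjY)
        obtain ⟨B', h3, h4, h5, h6⟩ := ih _ h2 _ h1 ((erase_subset _ _).trans hYS) rfl k
          (mem_erase.2 ⟨hkj, hk⟩)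
        exact unc B' h3 (h4.trans (erase_subset _ _)) h6 h5
      · set Zj := core F (Y.erase j) with hZj
        have hZjs : Zj ⊆ Y.erase j := core_sub _
        have hkZ : k ∉ Zj := by
          intro hkZ
          obtain ⟨B', h3, h4, h5, h6⟩ := hcovg _ (erase_subset _ _) (her j hjY) k hkZ
          exact unc B' h3 ((h4.trans hZjs).trans (erase_subset _ _)) h6 h5
        have hBZj : ∀ b ∈ B, b ∉ Zj := by
          intro b hb hbZ
          obtain ⟨B', h3, h4, h5, h6⟩ := hcovg _ (erase_subset _ _) (her j hjY) b hbZ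
          by_cases hBB : B = B'
          · rw [← hBB] at h4
            exact notMem_erase j Y (hZjs (h4 hjB))
          · exact disjoint_left.1 (h.disj hB h3 (hBY.trans hYS)
              (((h4.trans hZjs).trans (erase_subset _ _)).trans hYS) hBs h6 hBB) hb h5
        have h2 : insert k (B.erase j) ⊆ Y.erase j \ Zj := by
          intro z hz
          rw [mem_insert, mem_erase] at hz
          rw [mem_sdiff, mem_erase]
          rcases hz with rfl | hz
          · exact ⟨⟨hkj, hk⟩, hkZ⟩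
          · exact ⟨⟨hz.1, hBY hz.2⟩, hBZj z hz.2⟩
        have h3 : #(insert k (B.erase j)) = #B := by
          rw [card_insert_of_notMem (fun h' => hkB (mem_of_mem_erase h'))]
          exact card_erase_add_one hjB
        have h4 := card_le_card h2
        refine ⟨by omega, ?_⟩
        have h5 : insert k (B.erase j) = Y.erase j \ Zj := eq_of_subset_of_card_le h2 (by omega)
        intro z hz hzk hzB
        by_contra hzZ
        have h6 : z ∈ Y.erase j \ Zj := mem_sdiff.2 ⟨mem_erase.2 ⟨fun e => hzB (e ▸ hjB), hz⟩, hzZ⟩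
        rw [← h5, mem_insert, mem_erase] at h6
        rcases h6 with h6 | h6
        · exact hzk h6
        · exact hzB h6.2
    have hcov : ∀ z ∈ Y, z ≠ k → ∃ B ∈ F, B ⊆ Y ∧ z ∈ B ∧ #B = 2 := by
      intro z hz hzk
      by_cases hzB : z ∈ B
      · exact ⟨B, hB, hBY, hzB, (main B hB hBY hBs j hjB).1⟩
      · have h1 := (main B hB hBY hBs j hjB).2 z hz hzk hzB
        obtain ⟨B', h3, h4, h5, h6⟩ := hcovg _ (erase_subset _ _) (her j hjY) z h1
        have h7 : B' ⊆ Y := (h4.trans (core_sub _)).trans (erase_subset _ _)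
        exact ⟨B', h3, h7, h5, (main B' h3 h7 h6 z h5).1⟩
    -- the last configuration
    set c : ℕ → ℝ := fun z => if z = k then 1 / 2 ^ #Y else 1 with hc
    have hc0 : ∀ x, 0 ≤ c x := by intro x; rw [hc]; dsimp only; split_ifs <;> positivity
    have ck : c k = 1 / 2 ^ #Y := by rw [hc]; dsimp only; rw [if_pos rfl]
    have cn : ∀ z, z ≠ k → c z = 1 := by intro z hz; rw [hc]; dsimp only; rw [if_neg hz]
    have hYk : (Y.erase k).Nonempty := ⟨j, hZs hj⟩
    have hYm : Y ∈ F.filter (fun A => A ⊆ Y) := mem_filter.2 ⟨hY, Subset.refl _⟩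
    refine h.false hYS (sf_local (G := F.filter (fun A => A ⊆ Y)) (c := c) (b := k) (l := 2) h.uc
      (fun B hB => (mem_filter.1 hB).2) (filter_subset _ _) hc0 hk (by rw [ck]; positivity)
      one_lt_two ?_ ?_)
    · refine iso_one hc0 (A := Y) hYm hk (Subset.refl _) ?_
      refine le_phi hYk fun U hU hUY => ?_
      have h1 : ∑ j ∈ U, c j = #U := by
        rw [sum_congr rfl (fun z hz => cn z (ne_of_mem_erase (hUY hz))), sum_const, nsmul_eq_mul,
          mul_one]
      rw [h1, ck, le_div_iff₀ (two_pow_sub_pos hU)]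
      have h2 : #U + 1 ≤ #Y := by
        have := card_le_card hUY
        rw [card_erase_of_mem hk] at this
        have := card_pos.2 ⟨k, hk⟩
        omega
      have h3 : (2 : ℝ) ^ #U * 2 ≤ 2 ^ #Y := by
        rw [← pow_succ]
        exact pow_le_pow_right₀ (by norm_num) h2
      have h4 : (1 : ℝ) ≤ #U := by exact_mod_cast hU.card_pos
      have h5 : (0 : ℝ) < 2 ^ #Y := by positivity
      rw [mul_one_div, div_mul_eq_mul_div, div_le_iff₀ h5]
      nlinarith
    · intro x hx hxk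
      obtain ⟨B', h3, h4, h5, h6⟩ := hcov x hx hxk
      obtain ⟨y, hy, rfl⟩ := split2 h6 h5
      have hyk : y ≠ k := fun e => unc _ h3 h4 (Or.inl h6) (by rw [← e]; simp)
      have hBm : ({x, y} : Finset ℕ) ∈ F.filter (fun A => A ⊆ Y) := mem_filter.2 ⟨h3, h4⟩
      refine iso_one hc0 (A := {x, y}) hBm h5 h4 ?_
      rw [er1 hy, phi_single, cn x hxk, cn y hyk]
      norm_num

/-- **linear families with members of size at least three** -/
theorem linear_tight {F K : Finset (Finset ℕ)} {N : Finset ℕ} (hF : ∀ A ∈ F, ∀ B ∈ F, A ∪ B ∈ F)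
    (hKF : K ⊆ F) (hK : ∀ A ∈ K, A ⊆ N) (hlin : Linear K) (hK3 : ∀ A ∈ K, 3 ≤ #A)
    {c : ℕ → ℝ} (hc0 : ∀ x, 0 ≤ c x) (hpos : ∃ x ∈ N, 0 < c x)
    (hc : ∀ x ∈ N, c x ≤ ∑ A ∈ K.filter (fun A => x ∈ A), phi c (A.erase x)) :
    ∃ x ∈ N, SF F x := by
  by_contra hcon
  push Not at hcon
  have hiso : ∀ x ∈ N, IsoW N K c 1 x := by
    intro x hx
    refine iso_of hc0 (K.filter (fun A => x ∈ A)) (fun A hA => ?_) (fun A hA A' hA' hne => ?_)
      (by rw [one_mul]; exact hc x hx)
    · have := mem_filter.1 hA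
      exact ⟨this.1, this.2, hK A this.1⟩
    · have h1 := mem_filter.1 hA
      have h2 := mem_filter.1 hA'
      exact hlin.disj h1.1 h2.1 hne h1.2 h2.2
  have hT : Tg F (N.filter (fun x => 0 < c x)) := by
    refine ⟨hF, fun x hx => hcon x (mem_filter.1 hx).1, ?_⟩
    intro Y hY hYS k hk
    by_contra hno
    push Not at hno
    have hYN : Y ⊆ N := hYS.trans (filter_subset _ _)
    obtain ⟨x, hx, h1⟩ := slack hF hK hKF hc0 hiso hY hYN hk (mem_filter.1 (hYS hk)).2 hno.1
      (by have := hno.2; unfold core at this; omega)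
    exact hcon x hx (Or.inl h1)
  -- a point of maximal weight
  obtain ⟨x₀, hx₀, hcx₀⟩ := hpos
  obtain ⟨x, hx, hmax⟩ := exists_max_image N c ⟨x₀, hx₀⟩
  have hm : 0 < c x := hcx₀.trans_le (hmax x₀ hx₀)
  have hphi : ∀ A ∈ K, x ∈ A → phi c (A.erase x) ≤ 2 * c x / 3 := by
    intro A hA hxA
    have h1 : 1 < #(A.erase x) := by
      rw [card_erase_of_mem hxA]; have := hK3 A hA; omega
    obtain ⟨y, hy, z, hz, hyz⟩ := one_lt_card.1 h1
    have h2 : ({y, z} : Finset ℕ) ⊆ A.erase x := by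
      intro u hu
      simp only [mem_insert, mem_singleton] at hu
      rcases hu with rfl | rfl
      · exact hy
      · exact hz
    refine (phi_le (insert_nonempty y {z}) h2).trans ?_
    rw [sum_pair hyz, card_pair hyz]
    have h3 := hmax y (hK A hA (mem_of_mem_erase hy))
    have h4 := hmax z (hK A hA (mem_of_mem_erase hz))
    norm_num
    linarith
  set P := (K.filter (fun A => x ∈ A)).filter (fun A => 0 < phi c (A.erase x)) with hP
  have h1 : ∑ A ∈ K.filter (fun A => x ∈ A), phi c (A.erase x) = ∑ A ∈ P, phi c (A.erase x) := by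
    have h0 : ∑ A ∈ P, phi c (A.erase x) = ∑ A ∈ K.filter (fun A => x ∈ A),
        if 0 < phi c (A.erase x) then phi c (A.erase x) else 0 := sum_filter _ _
    rw [h0]
    refine sum_congr rfl fun A _ => ?_
    split_ifs with h
    · rfl
    · exact le_antisymm (not_lt.1 h) (phi_nonneg hc0)
  have h2 : 1 < #P := by
    by_contra hle
    push Not at hle
    have h3 := hc x hx
    rw [h1] at h3
    have h4 : ∑ A ∈ P, phi c (A.erase x) ≤ #P * (2 * c x / 3) := by
      rw [← nsmul_eq_mul]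
      refine sum_le_card_nsmul P _ _ fun A hA => ?_
      have h5 := mem_filter.1 (mem_filter.1 hA).1
      exact hphi A h5.1 h5.2
    have h5 : (#P : ℝ) ≤ 1 := by exact_mod_cast hle
    nlinarith
  obtain ⟨A₁, hA₁, A₂, hA₂, hne⟩ := one_lt_card.1 h2
  have hin : ∀ A ∈ P, A ∈ K ∧ x ∈ A ∧ A ⊆ N.filter (fun x => 0 < c x) := by
    intro A hA
    have h3 := mem_filter.1 hA
    have h4 := mem_filter.1 h3.1
    refine ⟨h4.1, h4.2, fun z hz => mem_filter.2 ⟨hK A h4.1 hz, ?_⟩⟩
    by_cases hzx : z = x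
    · rw [hzx]; exact hm
    · have h5 := phi_le (w := c) (singleton_nonempty z)
        (singleton_subset_iff.2 (mem_erase.2 ⟨hzx, hz⟩) : {z} ⊆ A.erase x)
      rw [sum_singleton, card_singleton] at h5
      norm_num at h5
      exact h3.2.trans_le h5
  obtain ⟨k1, x1, s1⟩ := hin A₁ hA₁
  obtain ⟨k2, x2, s2⟩ := hin A₂ hA₂
  obtain ⟨B₁, b1, b2, b3, b4⟩ := hT.good _ A₁ (hKF k1) s1 rfl x x1
  obtain ⟨B₂, d1, d2, d3, d4⟩ := hT.good _ A₂ (hKF k2) s2 rfl x x2
  by_cases hB : B₁ = B₂
  · have h3 : B₁ ⊆ A₁ ∩ A₂ := subset_inter b2 (hB ▸ d2)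
    have h4 := card_le_card h3
    have h5 := hlin A₁ k1 A₂ k2 hne
    omega
  · exact disjoint_left.1 (hT.disj b1 d1 (b2.trans s1) (d2.trans s2) b4 d4 hB) b3 d3

/-- forcing is strict forcing -/
theorem forces_iff {K : Finset (Finset ℕ)} {N : Finset ℕ} (hK : ∀ A ∈ K, A ⊆ N)
    (hlin : Linear K) (hK3 : ∀ A ∈ K, 3 ≤ #A) :
    (∀ F : Finset (Finset ℕ), (∀ A ∈ F, ∀ B ∈ F, A ∪ B ∈ F) → K ⊆ F → ∃ x ∈ N, SF F x) ↔
    (∀ F : Finset (Finset ℕ), (∀ A ∈ F, ∀ B ∈ F, A ∪ B ∈ F) → K ⊆ F →
      ∃ x ∈ N, #F ≤ 2 * #(F.filter (fun A => x ∈ A))) := by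
  constructor
  · intro h F hF hKF
    obtain ⟨x, hx, h1⟩ := h F hF hKF
    exact ⟨x, hx, h1.abundant⟩
  · intro h F hF hKF
    obtain ⟨c, h1, h2, h3⟩ := (linear_iff hK hlin (fun A hA => by have := hK3 A hA; omega)).1 h
    exact linear_tight hF hKF hK hlin hK3 h1 h2 h3

/-- the two numbers agree -/
theorem SFs_eq {k n : ℕ} (hk : 3 ≤ k) : SFs k n = LFs k n := by
  refine Set.Subset.antisymm SFs_LFs ?_
  intro m hm F K hF hKF hK hlin hmK
  exact (forces_iff (fun A hA => (hK A hA).1) hlin (fun A hA => by rw [(hK A hA).2]; exact hk)).2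
    (fun F' hF' hKF' => hm F' K hF' hKF' hK hlin hmK) F hF hKF

end Pool.Agent.H61.LF
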