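import Mathlib
import Pool.Agent.H61.LF1

set_option autoImplicit false
set_option linter.all false

/-!
# The inequality for the weights of one set
-/

namespace Pool.Agent.H61.LF

open Finset

/-- least value of `w(U) / (2^|U| - 1)` over the nonempty subsets `U` of `R` -/
noncomputable def phi (w : ℕ → ℝ) (R : Finset ℕ) : ℝ :=
  if h : (R.powerset.erase ∅).Nonempty then
    (R.powerset.erase ∅).inf' h (fun U => (∑ j ∈ U, w j) / (2 ^ #U - 1)) else 0

noncomputable def FF (w : ℕ → ℝ) (A : Finset ℕ) : ℝ :=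
  ∑ x ∈ A, phi w (A.erase x) / w x

theorem two_pow_sub_pos {U : Finset ℕ} (hU : U.Nonempty) : (0 : ℝ) < 2 ^ #U - 1 := by
  have h1 : 1 ≤ #U := hU.card_pos
  have h2 : (2 : ℝ) ^ 1 ≤ 2 ^ #U := pow_le_pow_right₀ (by norm_num) h1
  linarith

theorem ne_of {R : Finset ℕ} (hR : R.Nonempty) : (R.powerset.erase ∅).Nonempty :=
  ⟨R, mem_erase.2 ⟨hR.ne_empty, mem_powerset.2 subset_rfl⟩⟩

theorem phi_le {w : ℕ → ℝ} {R U : Finset ℕ} (hU : U.Nonempty) (hUR : U ⊆ R) :
    phi w R ≤ (∑ j ∈ U, w j) / (2 ^ #U - 1) := by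
  have hR : R.Nonempty := hU.mono hUR
  unfold phi
  rw [dif_pos (ne_of hR)]
  exact inf'_le _ (mem_erase.2 ⟨hU.ne_empty, mem_powerset.2 hUR⟩)

theorem exists_phi {w : ℕ → ℝ} {R : Finset ℕ} (hR : R.Nonempty) :
    ∃ U : Finset ℕ, U.Nonempty ∧ U ⊆ R ∧ phi w R = (∑ j ∈ U, w j) / (2 ^ #U - 1) := by
  unfold phi
  rw [dif_pos (ne_of hR)]
  obtain ⟨U, hU, h⟩ := exists_mem_eq_inf' (ne_of hR) (fun U => (∑ j ∈ U, w j) / (2 ^ #U - 1))
  rw [mem_erase, mem_powerset] at hU
  exact ⟨U, nonempty_iff_ne_empty.2 hU.1, hU.2, h⟩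

theorem le_phi {w : ℕ → ℝ} {R : Finset ℕ} {c : ℝ} (hR : R.Nonempty)
    (h : ∀ U : Finset ℕ, U.Nonempty → U ⊆ R → c ≤ (∑ j ∈ U, w j) / (2 ^ #U - 1)) :
    c ≤ phi w R := by
  obtain ⟨U, hU, hUR, e⟩ := exists_phi (w := w) hR
  rw [e]; exact h U hU hUR

theorem phi_mul_le {w : ℕ → ℝ} {R U : Finset ℕ} (hUR : U ⊆ R) :
    phi w R * (2 ^ #U - 1) ≤ ∑ j ∈ U, w j := by
  rcases U.eq_empty_or_nonempty with rfl | hU
  · simp
  · have := phi_le (w := w) hU hUR
    rwa [le_div_iff₀ (two_pow_sub_pos hU)] at this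

theorem phi_pos {w : ℕ → ℝ} {R : Finset ℕ} (hR : R.Nonempty) (hw : ∀ j ∈ R, 0 < w j) :
    0 < phi w R := by
  obtain ⟨U, hU, hUR, e⟩ := exists_phi (w := w) hR
  rw [e]
  exact div_pos (sum_pos (fun j hj => hw j (hUR hj)) hU) (two_pow_sub_pos hU)

theorem phi_anti {w : ℕ → ℝ} {R R' : Finset ℕ} (hR : R'.Nonempty) (h : R' ⊆ R) :
    phi w R ≤ phi w R' :=
  le_phi hR fun _ hU hUR => phi_le hU (hUR.trans h)

theorem phi_scale {w : ℕ → ℝ} {R : Finset ℕ} {c : ℝ} (hc : 0 < c) :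
    phi (fun j => c * w j) R = c * phi w R := by
  rcases R.eq_empty_or_nonempty with rfl | hR
  · simp [phi]
  · apply le_antisymm
    · obtain ⟨U, hU, hUR, e⟩ := exists_phi (w := w) hR
      refine (phi_le hU hUR).trans_eq ?_
      rw [e, ← mul_sum]; ring
    · obtain ⟨U, hU, hUR, e⟩ := exists_phi (w := fun j => c * w j) hR
      rw [e, ← mul_sum, mul_div_assoc]
      exact mul_le_mul_of_nonneg_left (phi_le hU hUR) hc.le

theorem FF_scale {w : ℕ → ℝ} {A : Finset ℕ} {c : ℝ} (hc : 0 < c) :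
    FF (fun j => c * w j) A = FF w A := by
  unfold FF
  refine sum_congr rfl fun x _ => ?_
  rw [phi_scale hc, mul_div_mul_left _ _ hc.ne']

theorem phi_single {w : ℕ → ℝ} (x : ℕ) : phi w {x} = w x := by
  apply le_antisymm
  · refine (phi_le (singleton_nonempty x) subset_rfl).trans_eq ?_
    simp; norm_num
  · refine le_phi (singleton_nonempty x) fun U hU h => ?_
    have : U = {x} := (subset_singleton_iff.1 h).resolve_left hU.ne_empty
    subst this
    simp; norm_num

/-- one more element, of the largest weight -/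
theorem phi_step {w : ℕ → ℝ} {A : Finset ℕ} {x z : ℕ} (hx : x ∈ A) (hz : z ∈ A) (hxz : x ≠ z)
    (hA : 3 ≤ #A) (hw : ∀ j ∈ A, 0 < w j) (hmax : ∀ j ∈ A, w j ≤ w z) :
    (2 ^ (#A - 2) - 1) * phi w ((A.erase z).erase x) +
      min (2 ^ (#A - 2) * phi w ((A.erase z).erase x)) (w z) ≤
      (2 ^ (#A - 1) - 1) * phi w (A.erase x) := by
  have c1 : #(A.erase x) = #A - 1 := card_erase_of_mem hx
  have c2 : #((A.erase z).erase x) = #A - 2 := by
    rw [card_erase_of_mem (mem_erase.2 ⟨hxz, hx⟩), card_erase_of_mem hz]; omega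
  have hne : ((A.erase z).erase x).Nonempty := by rw [← card_pos]; omega
  have hne1 : (A.erase x).Nonempty := by rw [← card_pos]; omega
  have hφ := phi_pos (w := w) hne fun j hj => hw j (mem_of_mem_erase (mem_of_mem_erase hj))
  obtain ⟨U, hU, hUR, e⟩ := exists_phi (w := w) hne1
  obtain ⟨m, hm⟩ : ∃ m, #A = m + 3 := ⟨#A - 3, by omega⟩
  have e1 : #A - 2 = m + 1 := by omega
  have e2 : #A - 1 = m + 2 := by omega
  rw [e1, e2]
  rw [e1] at c2
  rw [e2] at c1
  have p1 : (1 : ℝ) ≤ 2 ^ m := one_le_pow₀ (by norm_num)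
  have hbig : phi w ((A.erase z).erase x) ≤ phi w (A.erase x) →
      (2 ^ (m + 1) - 1) * phi w ((A.erase z).erase x) +
      min (2 ^ (m + 1) * phi w ((A.erase z).erase x)) (w z) ≤
      (2 ^ (m + 2) - 1) * phi w (A.erase x) := by
    intro h
    have h1 : (2 ^ (m + 2) - 1) * phi w ((A.erase z).erase x) ≤
        (2 ^ (m + 2) - 1) * phi w (A.erase x) :=
      mul_le_mul_of_nonneg_left h (by rw [pow_add]; linarith)
    have h2 : min (2 ^ (m + 1) * phi w ((A.erase z).erase x)) (w z) ≤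
        2 ^ (m + 1) * phi w ((A.erase z).erase x) := min_le_left _ _
    have h3 : (2 ^ (m + 2) - 1) * phi w ((A.erase z).erase x) =
      (2 ^ (m + 1) - 1) * phi w ((A.erase z).erase x) +
        2 ^ (m + 1) * phi w ((A.erase z).erase x) := by ring
    linarith
  by_cases hzU : z ∈ U
  · by_cases hfull : A.erase x ⊆ U
    · have hUe : U = A.erase x := Subset.antisymm hUR hfull
      subst hUe
      have h1 := phi_mul_le (w := w) (subset_rfl : (A.erase z).erase x ⊆ (A.erase z).erase x)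
      rw [c2] at h1
      have h2 : ∑ j ∈ A.erase x, w j = w z + ∑ j ∈ (A.erase z).erase x, w j := by
        rw [← add_sum_erase _ _ hzU]
        congr 1
        rw [erase_right_comm]
      have h4 : (2 ^ (m + 2) - 1) * phi w (A.erase x) = ∑ j ∈ A.erase x, w j := by
        rw [e, c1]
        have := two_pow_sub_pos hne1
        rw [c1] at this
        field_simp
      rw [h4, h2]
      have h5 := min_le_right (2 ^ (m + 1) * phi w ((A.erase z).erase x)) (w z)
      linarith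
    · obtain ⟨y, hy, hyU⟩ := not_subset.1 hfull
      apply hbig
      rw [e]
      have hyz : y ≠ z := fun h => hyU (h ▸ hzU)
      have hyn : y ∉ U.erase z := fun h => hyU (mem_of_mem_erase h)
      have hU' : insert y (U.erase z) ⊆ (A.erase z).erase x := by
        intro j hj
        rcases mem_insert.1 hj with rfl | hj
        · exact mem_erase.2 ⟨(mem_erase.1 hy).1, mem_erase.2 ⟨hyz, (mem_erase.1 hy).2⟩⟩
        · have h1 := mem_erase.1 (hUR (mem_of_mem_erase hj))
          exact mem_erase.2 ⟨h1.1, mem_erase.2 ⟨(mem_erase.1 hj).1, h1.2⟩⟩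
      have hc : #(insert y (U.erase z)) = #U := by
        rw [card_insert_of_notMem hyn, card_erase_of_mem hzU]
        have := hU.card_pos; omega
      have h1 := phi_le (w := w) (insert_nonempty y (U.erase z)) hU'
      refine h1.trans ?_
      rw [hc]
      apply div_le_div_of_nonneg_right _ (two_pow_sub_pos hU).le
      rw [sum_insert hyn, ← add_sum_erase U w hzU]
      have := hmax y (mem_of_mem_erase hy)
      linarith
  · apply hbig
    rw [e]
    refine phi_le hU fun j hj => ?_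
    have h1 := mem_erase.1 (hUR hj)
    exact mem_erase.2 ⟨h1.1, mem_erase.2 ⟨fun h => hzU (h ▸ hj), h1.2⟩⟩

theorem FF_step {w : ℕ → ℝ} {A : Finset ℕ} {z : ℕ} (hz : z ∈ A)
    (hA : 3 ≤ #A) (hw : ∀ j ∈ A, 0 < w j) (hmax : ∀ j ∈ A, w j ≤ w z) :
    (2 ^ (#A - 2) - 1) * FF w (A.erase z) +
      ∑ x ∈ A.erase z, min (2 ^ (#A - 2) * phi w ((A.erase z).erase x)) (w z) / w x +
      (2 ^ (#A - 1) - 1) * phi w (A.erase z) / w z ≤
      (2 ^ (#A - 1) - 1) * FF w A := by
  have e1 : (2 ^ (#A - 1) - 1) * FF w A = (∑ x ∈ A.erase z,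
      (2 ^ (#A - 1) - 1) * phi w (A.erase x) / w x) +
      (2 ^ (#A - 1) - 1) * phi w (A.erase z) / w z := by
    unfold FF
    rw [← add_sum_erase A _ hz, mul_add, mul_sum]
    rw [add_comm]
    congr 1
    · exact sum_congr rfl fun x _ => by ring
    · ring
  rw [e1]
  have e2 : (2 ^ (#A - 2) - 1) * FF w (A.erase z) +
      ∑ x ∈ A.erase z, min (2 ^ (#A - 2) * phi w ((A.erase z).erase x)) (w z) / w x =
      ∑ x ∈ A.erase z, ((2 ^ (#A - 2) - 1) * phi w ((A.erase z).erase x) +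
        min (2 ^ (#A - 2) * phi w ((A.erase z).erase x)) (w z)) / w x := by
    unfold FF
    rw [mul_sum, ← sum_add_distrib]
    exact sum_congr rfl fun x _ => by ring
  rw [e2]
  refine add_le_add (sum_le_sum fun x hx => ?_) le_rfl
  have hx' := mem_erase.1 hx
  exact div_le_div_of_nonneg_right (phi_step hx'.2 hz hx'.1 hA hw hmax) (hw x hx'.2).le

end Pool.Agent.H61.LF
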