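import Mathlib
import Pool.Agent.H61.LF2

set_option autoImplicit false
set_option linter.all false

/-!
# The inequality for the weights of one set
-/

namespace Pool.Agent.H61.LF

open Finset

theorem num_ind (r : ℕ) (hr : 5 ≤ r) : ∀ u : ℕ, 1 ≤ u → u ≤ r →
    (r : ℝ) ^ 2 * (2 ^ u - 1) ≤ (u : ℝ) ^ 2 * (2 ^ r - 1) := by
  induction r, hr using Nat.le_induction with
  | base =>
    intro u h1 h2
    interval_cases u <;> norm_num
  | succ r hr ih =>
    intro u h1 h2
    rcases Nat.lt_or_ge u (r + 1) with h | h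
    · have h3 := ih u h1 (by omega)
      have h4 : (5 : ℝ) ≤ r := by exact_mod_cast hr
      have h5 : (1 : ℝ) ≤ 2 ^ u := one_le_pow₀ (by norm_num)
      have h6 : ((r : ℝ) + 1) ^ 2 ≤ 2 * (r : ℝ) ^ 2 := by nlinarith
      have h7 : ((r : ℝ) + 1) ^ 2 * (2 ^ u - 1) ≤ (2 * (r : ℝ) ^ 2) * (2 ^ u - 1) :=
        mul_le_mul_of_nonneg_right h6 (by linarith)
      push_cast
      have h8 : (u : ℝ) ^ 2 * (2 ^ (r + 1) - 1) = 2 * ((u : ℝ) ^ 2 * (2 ^ r - 1)) + (u : ℝ) ^ 2 := by
        rw [pow_succ]; ring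
      rw [h8]
      have h9 : (0 : ℝ) ≤ (u : ℝ) ^ 2 := by positivity
      linarith
    · have : u = r + 1 := by omega
      subst this
      exact le_rfl

theorem cauchy {w : ℕ → ℝ} {U : Finset ℕ} (hw : ∀ j ∈ U, 0 < w j) :
    (#U : ℝ) ^ 2 ≤ (∑ j ∈ U, w j) * ∑ j ∈ U, 1 / w j := by
  have h := sum_sq_le_sum_mul_sum_of_sq_eq_mul U (r := fun _ => (1 : ℝ)) (f := w)
    (g := fun j => 1 / w j) (fun j hj => (hw j hj).le) (fun j hj => (one_div_pos.2 (hw j hj)).le)
    (fun j hj => by have := hw j hj; field_simp)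
  simpa using h

theorem phiH {w : ℕ → ℝ} {B : Finset ℕ} (hB : B.Nonempty) (hw : ∀ j ∈ B, 0 < w j) :
    ∃ U : Finset ℕ, U.Nonempty ∧ U ⊆ B ∧ phi w B = (∑ j ∈ U, w j) / (2 ^ #U - 1) ∧
      (#U : ℝ) ^ 2 / (2 ^ #U - 1) ≤ phi w B * ∑ j ∈ B, 1 / w j := by
  obtain ⟨U, hU, hUB, e⟩ := exists_phi (w := w) hB
  refine ⟨U, hU, hUB, e, ?_⟩
  have h1 := cauchy (w := w) (U := U) fun j hj => hw j (hUB hj)
  have h2 : ∑ j ∈ U, 1 / w j ≤ ∑ j ∈ B, 1 / w j :=
    sum_le_sum_of_subset_of_nonneg hUB fun j hj _ => (one_div_pos.2 (hw j hj)).le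
  have h3 := two_pow_sub_pos hU
  have h4 : 0 ≤ ∑ j ∈ U, w j := sum_nonneg fun j hj => (hw j (hUB hj)).le
  rw [e, div_mul_eq_mul_div]
  exact div_le_div_of_nonneg_right (h1.trans (mul_le_mul_of_nonneg_left h2 h4)) h3.le

theorem FF_nonneg {w : ℕ → ℝ} {A : Finset ℕ} (hA : 2 ≤ #A) (hw : ∀ j ∈ A, 0 < w j) :
    0 ≤ FF w A := by
  unfold FF
  refine sum_nonneg fun x hx => div_nonneg ?_ (hw x hx).le
  refine (phi_pos ?_ fun j hj => hw j (mem_of_mem_erase hj)).le
  rw [← card_pos, card_erase_of_mem hx]; omega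

/-- one more element, when `φ H` is large -/
theorem inc {w : ℕ → ℝ} {A : Finset ℕ} {z : ℕ} {r : ℕ} (hz : z ∈ A) (hA : #A = r + 1) (hr : 4 ≤ r)
    (hw : ∀ j ∈ A, 0 < w j) (hmax : ∀ j ∈ A, w j ≤ w z)
    (h : (r : ℝ) ^ 2 ≤ (2 ^ r - 1) * (phi w (A.erase z) * ∑ j ∈ A.erase z, 1 / w j)) :
    (2 ^ (r - 1) - 1) * FF w (A.erase z) + 2 * r ≤ (2 ^ r - 1) * FF w A := by
  have hs := FF_step hz (by omega) hw hmax
  have e1 : #A - 2 = r - 1 := by omega
  have e2 : #A - 1 = r := by omega
  rw [e1, e2] at hs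
  refine le_trans ?_ hs
  have hcB : #(A.erase z) = r := by rw [card_erase_of_mem hz]; omega
  have hBne : (A.erase z).Nonempty := by rw [← card_pos]; omega
  have hwB : ∀ j ∈ A.erase z, 0 < w j := fun j hj => hw j (mem_of_mem_erase hj)
  have hφ := phi_pos hBne hwB
  set φ := phi w (A.erase z) with hφd
  set H := ∑ j ∈ A.erase z, 1 / w j with hH
  have ht := hw z hz
  set t := w z with htd
  have hr' : (4 : ℝ) ≤ r := by exact_mod_cast hr
  have hr0 : (0 : ℝ) ≤ r := by positivity
  have p1 : (1 : ℝ) ≤ 2 ^ r := one_le_pow₀ (by norm_num)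
  have p2 : (2 : ℝ) ^ r = 2 * 2 ^ (r - 1) := by
    conv_lhs => rw [show r = (r - 1) + 1 by omega, pow_succ]
    ring
  have hH0 : 0 ≤ H := sum_nonneg fun j hj => (one_div_pos.2 (hwB j hj)).le
  have hph : ∀ x ∈ A.erase z, φ ≤ phi w ((A.erase z).erase x) := fun x hx =>
    phi_anti (by rw [← card_pos, card_erase_of_mem hx]; omega) (erase_subset _ _)
  have hlast : 0 ≤ (2 ^ r - 1) * φ / t := div_nonneg (mul_nonneg (by linarith) hφ.le) ht.le
  rcases le_total t (2 ^ (r - 1) * φ) with h1 | h1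
  · have h2 : t * H ≤ ∑ x ∈ A.erase z, min (2 ^ (r - 1) * phi w ((A.erase z).erase x)) t / w x := by
      rw [hH, mul_sum]
      refine sum_le_sum fun x hx => ?_
      rw [mul_one_div]
      refine div_le_div_of_nonneg_right (le_min (h1.trans ?_) le_rfl) (hwB x hx).le
      exact mul_le_mul_of_nonneg_left (hph x hx) (by positivity)
    have h3 : 2 * (r : ℝ) ≤ t * H + (2 ^ r - 1) * φ / t := by
      refine amgm (mul_nonneg ht.le hH0) hlast (by positivity) ?_
      have : t * H * ((2 ^ r - 1) * φ / t) = (2 ^ r - 1) * (φ * H) := by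
        field_simp
      rw [this]; linarith
    linarith
  · have h2 : (2 ^ (r - 1) * φ) * H ≤
        ∑ x ∈ A.erase z, min (2 ^ (r - 1) * phi w ((A.erase z).erase x)) t / w x := by
      rw [hH, mul_sum]
      refine sum_le_sum fun x hx => ?_
      rw [mul_one_div]
      refine div_le_div_of_nonneg_right (le_min ?_ h1) (hwB x hx).le
      exact mul_le_mul_of_nonneg_left (hph x hx) (by positivity)
    have h3 : (0 : ℝ) ≤ φ * H := mul_nonneg hφ.le hH0
    have h4 : (2 ^ (r - 1) * φ) * H = (1 / 2) * (2 ^ r * (φ * H)) := by rw [p2]; ring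
    have h5 : (r : ℝ) ^ 2 ≤ 2 ^ r * (φ * H) := by nlinarith
    have h6 : 4 * (r : ℝ) ≤ (r : ℝ) ^ 2 := by nlinarith
    linarith

/-- two elements -/
theorem key2 {w : ℕ → ℝ} {A : Finset ℕ} (hA : #A = 2) (hw : ∀ j ∈ A, 0 < w j) :
    2 ≤ FF w A := by
  obtain ⟨x, y, hxy, rfl⟩ := card_eq_two.1 hA
  have hx := hw x (by simp)
  have hy := hw y (by simp)
  unfold FF
  rw [sum_pair hxy]
  have e1 : ({x, y} : Finset ℕ).erase x = {y} := by
    rw [erase_insert (by simpa using hxy)]
  have e2 : ({x, y} : Finset ℕ).erase y = {x} := by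
    rw [pair_comm, erase_insert (by simpa using hxy.symm)]
  rw [e1, e2, phi_single, phi_single]
  exact two_le hy hx

theorem FF_pair {w : ℕ → ℝ} {x y : ℕ} (hxy : x ≠ y) :
    FF w {x, y} = w y / w x + w x / w y := by
  unfold FF
  rw [sum_pair hxy]
  have e1 : ({x, y} : Finset ℕ).erase x = {y} := by
    rw [erase_insert (by simpa using hxy)]
  have e2 : ({x, y} : Finset ℕ).erase y = {x} := by
    rw [pair_comm, erase_insert (by simpa using hxy.symm)]
  rw [e1, e2, phi_single, phi_single]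

theorem le_phi_pair {w : ℕ → ℝ} {x y : ℕ} (hxy : x ≠ y) (hle : w x ≤ w y) :
    min (w x) ((w x + w y) / 3) ≤ phi w {x, y} := by
  refine le_phi (insert_nonempty _ _) fun U hU hUR => ?_
  by_cases hx : x ∈ U
  · by_cases hy : y ∈ U
    · have : U = {x, y} := Subset.antisymm hUR (by
        intro j hj; rcases mem_insert.1 hj with rfl | hj
        · exact hx
        · rw [mem_singleton] at hj; rw [hj]; exact hy)
      subst this
      rw [sum_pair hxy, card_pair hxy]
      refine (min_le_right _ _).trans_eq ?_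
      norm_num
    · have : U = {x} := by
        ext j; constructor
        · intro hj
          have := hUR hj
          simp only [mem_insert, mem_singleton] at this ⊢
          rcases this with h | h
          · exact h
          · exact absurd (h ▸ hj) hy
        · intro hj; rw [mem_singleton] at hj; rw [hj]; exact hx
      subst this
      refine (min_le_left _ _).trans_eq ?_
      simp; norm_num
  · have : U = {y} := by
      have hsub : U ⊆ {y} := by
        intro j hj
        have := hUR hj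
        simp only [mem_insert, mem_singleton] at this ⊢
        rcases this with h | h
        · exact absurd (h ▸ hj) hx
        · exact h
      exact (subset_singleton_iff.1 hsub).resolve_left hU.ne_empty
    subst this
    refine (min_le_left _ _).trans (hle.trans_eq ?_)
    simp; norm_num

/-- lower bounds for `φ` by sorted partial sums -/
theorem le_phi_triple {w : ℕ → ℝ} {x y z : ℕ} (hxy : x ≠ y) (hxz : x ≠ z) (hyz : y ≠ z)
    (h1 : w x ≤ w y) (h2 : w y ≤ w z) (hw : 0 < w x) :
    min (w x) (min ((w x + w y) / 3) ((w x + w y + w z) / 7)) ≤ phi w {x, y, z} := by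
  refine le_phi (insert_nonempty _ _) fun U hU hUR => ?_
  have hc : #U ≤ 3 := (card_le_card hUR).trans (by
    refine (card_insert_le _ _).trans ?_
    have := card_insert_le y {z}
    simp at this ⊢; omega)
  have hc0 := hU.card_pos
  have hsum : ∀ V : Finset ℕ, ∑ j ∈ V ∩ {x, y, z}, w j = (if x ∈ V then w x else 0) +
      ((if y ∈ V then w y else 0) + (if z ∈ V then w z else 0)) := by
    intro V
    rw [inter_comm, ← filter_mem_eq_inter, sum_filter, sum_insert (by simp [hxy, hxz]),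
      sum_pair hyz]
  have hUs := hsum U
  rw [inter_eq_left.2 hUR] at hUs
  have hcU : (#U : ℕ) = (if x ∈ U then 1 else 0) + ((if y ∈ U then 1 else 0) +
      (if z ∈ U then 1 else 0)) := by
    have e : #U = #(U ∩ {x, y, z}) := by rw [inter_eq_left.2 hUR]
    rw [e, inter_comm, ← filter_mem_eq_inter, card_filter, sum_insert (by simp [hxy, hxz]),
      sum_pair hyz]
  have m1 := min_le_left (w x) (min ((w x + w y) / 3) ((w x + w y + w z) / 7))
  have m2 := (min_le_right (w x) (min ((w x + w y) / 3) ((w x + w y + w z) / 7))).trans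
    (min_le_left _ _)
  have m3 := (min_le_right (w x) (min ((w x + w y) / 3) ((w x + w y + w z) / 7))).trans
    (min_le_right _ _)
  rw [hUs, hcU]
  generalize min (w x) (min ((w x + w y) / 3) ((w x + w y + w z) / 7)) = m at m1 m2 m3 ⊢
  have hpos : x ∈ U ∨ y ∈ U ∨ z ∈ U := by
    obtain ⟨j, hj⟩ := hU
    have := hUR hj
    simp only [mem_insert, mem_singleton] at this
    rcases this with rfl | rfl | rfl
    · exact Or.inl hj
    · exact Or.inr (Or.inl hj)
    · exact Or.inr (Or.inr hj)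
  by_cases a1 : x ∈ U <;> by_cases a2 : y ∈ U <;> by_cases a3 : z ∈ U <;>
    simp only [a1, a2, a3, if_true, if_false] at hpos ⊢ <;> norm_num
  all_goals first
    | linarith
    | (exfalso; simp at hpos)

end Pool.Agent.H61.LF
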