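import Mathlib
import Pool.Agent.H61.LF3

set_option autoImplicit false
set_option linter.all false

/-!
# The inequality for the weights of one set
-/

namespace Pool.Agent.H61.LF

open Finset

theorem erase_pair {x y : ℕ} (hxy : x ≠ y) : ({x, y} : Finset ℕ).erase x = {y} := by
  rw [erase_insert (by simpa using hxy)]

theorem erase_pair' {x y : ℕ} (hxy : x ≠ y) : ({x, y} : Finset ℕ).erase y = {x} := by
  rw [pair_comm, erase_insert (by simpa using hxy.symm)]

/-- a set with two elements, sorted -/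
theorem sorted2 (w : ℕ → ℝ) {B : Finset ℕ} (hB : #B = 2) :
    ∃ x y, x ≠ y ∧ B = {x, y} ∧ w x ≤ w y := by
  obtain ⟨x, y, hxy, rfl⟩ := card_eq_two.1 hB
  rcases le_total (w x) (w y) with h | h
  · exact ⟨x, y, hxy, rfl, h⟩
  · exact ⟨y, x, hxy.symm, pair_comm _ _, h⟩

/-- a set with three elements, sorted -/
theorem sorted3 (w : ℕ → ℝ) {B : Finset ℕ} (hB : #B = 3) :
    ∃ x y v, x ≠ y ∧ x ≠ v ∧ y ≠ v ∧ B = {x, y, v} ∧ w x ≤ w y ∧ w y ≤ w v := by
  obtain ⟨v, hv, hmax⟩ := exists_max_image B w (by rw [← card_pos]; omega)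
  obtain ⟨x, y, hxy, e, hle⟩ := sorted2 w (B := B.erase v) (by rw [card_erase_of_mem hv]; omega)
  have hx : x ∈ B.erase v := by rw [e]; simp
  have hy : y ∈ B.erase v := by rw [e]; simp
  refine ⟨x, y, v, hxy, (mem_erase.1 hx).1, (mem_erase.1 hy).1, ?_, hle, hmax y (mem_erase.1 hy).2⟩
  rw [← insert_erase hv, e]
  ext j; simp only [mem_insert, mem_singleton]; tauto

theorem key3_aux {w : ℕ → ℝ} {A : Finset ℕ} {x y z : ℕ} (hz : z ∈ A) (hA : #A = 3)
    (hB : A.erase z = {x, y}) (hxy : x ≠ y) (hx : w x = 1) (hw : ∀ j ∈ A, 0 < w j)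
    (hmax : ∀ j ∈ A, w j ≤ w z) (hle : w x ≤ w y) : 6 ≤ 3 * FF w A := by
  have hs := FF_step hz (by omega) hw hmax
  rw [hA, hB, FF_pair hxy, sum_pair hxy, erase_pair hxy, erase_pair' hxy, phi_single,
    phi_single, hx] at hs
  have hy : y ∈ A := mem_of_mem_erase (a := z) (by rw [hB]; simp)
  have hp := le_phi_pair (w := w) hxy hle
  rw [hx] at hp
  have h3 := real3 (s := w y) (t := w z) (by rw [← hx]; exact hle) (hmax y hy)
  have hz0 := hw z hz
  have h4 : 3 * min 1 ((1 + w y) / 3) / w z ≤ 3 * phi w {x, y} / w z :=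
    div_le_div_of_nonneg_right (mul_le_mul_of_nonneg_left hp (by norm_num)) hz0.le
  norm_num at hs
  rw [one_div] at h3
  linarith

theorem key3 {w : ℕ → ℝ} {A : Finset ℕ} (hA : #A = 3) (hw : ∀ j ∈ A, 0 < w j) :
    6 ≤ 3 * FF w A := by
  obtain ⟨z, hz, hmax⟩ := exists_max_image A w (by rw [← card_pos]; omega)
  obtain ⟨x, y, hxy, e, hle⟩ := sorted2 w (B := A.erase z) (by rw [card_erase_of_mem hz]; omega)
  have hx : x ∈ A := mem_of_mem_erase (a := z) (by rw [e]; simp)
  have hx0 := hw x hx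
  have hc : 0 < 1 / w x := by positivity
  rw [← FF_scale (w := w) (A := A) hc]
  refine key3_aux (w := fun j => 1 / w x * w j) hz hA e hxy (by field_simp)
    (fun j hj => mul_pos hc (hw j hj)) (fun j hj => mul_le_mul_of_nonneg_left (hmax j hj) hc.le)
    (mul_le_mul_of_nonneg_left hle hc.le)

theorem key4_aux {w : ℕ → ℝ} {A : Finset ℕ} {x y v z : ℕ} (hz : z ∈ A) (hA : #A = 4)
    (hB : A.erase z = {x, y, v}) (hxy : x ≠ y) (hxv : x ≠ v) (hyv : y ≠ v) (hx : w x = 1)
    (hw : ∀ j ∈ A, 0 < w j)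
    (hmax : ∀ j ∈ A, w j ≤ w z) (hle : w x ≤ w y) (hle' : w y ≤ w v) : 12 ≤ 7 * FF w A := by
  have hs := FF_step hz (by omega) hw hmax
  have hxn : x ∉ ({y, v} : Finset ℕ) := by simp [hxy, hxv]
  have e1 : ({x, y, v} : Finset ℕ).erase x = {y, v} := erase_insert hxn
  have e2 : ({x, y, v} : Finset ℕ).erase y = {x, v} := by
    ext j; simp only [mem_erase, mem_insert, mem_singleton]
    constructor
    · rintro ⟨h1, h2⟩; tauto
    · rintro (rfl | rfl)
      · exact ⟨hxy, Or.inl rfl⟩
      · exact ⟨hyv.symm, Or.inr (Or.inr rfl)⟩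
  have e3 : ({x, y, v} : Finset ℕ).erase v = {x, y} := by
    ext j; simp only [mem_erase, mem_insert, mem_singleton]
    constructor
    · rintro ⟨h1, h2⟩; tauto
    · rintro (rfl | rfl)
      · exact ⟨hxv, Or.inl rfl⟩
      · exact ⟨hyv, Or.inr (Or.inl rfl)⟩
  have eF : FF w {x, y, v} = phi w {y, v} / w x + (phi w {x, v} / w y + phi w {x, y} / w v) := by
    unfold FF
    rw [sum_insert hxn, sum_pair hyv, e1, e2, e3]
  rw [hA, hB, eF, sum_insert hxn, sum_pair hyv, e1, e2, e3, hx] at hs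
  have hy : y ∈ A := mem_of_mem_erase (a := z) (by rw [hB]; simp)
  have hv : v ∈ A := mem_of_mem_erase (a := z) (by rw [hB]; simp)
  have p1 := le_phi_pair (w := w) hyv hle'
  have p2 := le_phi_pair (w := w) hxv (hle.trans hle')
  have p3 := le_phi_pair (w := w) hxy hle
  have p4 := le_phi_triple (w := w) hxy hxv hyv hle hle' (by rw [hx]; norm_num)
  rw [hx] at p2 p3 p4
  have h4 := real4 (s := w y) (v := w v) (t := w z) (by rw [← hx]; exact hle) hle' (hmax v hv)
  have hz0 := hw z hz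
  have hy0 := hw y hy
  have hv0 := hw v hv
  have q1 := div_le_div_of_nonneg_right p2 hy0.le
  have q2 := div_le_div_of_nonneg_right p3 hv0.le
  have r1 : min (4 * min (w y) ((w y + w v) / 3)) (w z) ≤ min (4 * phi w {y, v}) (w z) :=
    min_le_min (mul_le_mul_of_nonneg_left p1 (by norm_num)) le_rfl
  have r2 : min (4 * min 1 ((1 + w v) / 3)) (w z) / w y ≤ min (4 * phi w {x, v}) (w z) / w y :=
    div_le_div_of_nonneg_right
      (min_le_min (mul_le_mul_of_nonneg_left p2 (by norm_num)) le_rfl) hy0.le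
  have r3 : min (4 * min 1 ((1 + w y) / 3)) (w z) / w v ≤ min (4 * phi w {x, y}) (w z) / w v :=
    div_le_div_of_nonneg_right
      (min_le_min (mul_le_mul_of_nonneg_left p3 (by norm_num)) le_rfl) hv0.le
  have r4 : 7 * min 1 (min ((1 + w y) / 3) ((1 + w y + w v) / 7)) / w z ≤
      7 * phi w {x, y, v} / w z :=
    div_le_div_of_nonneg_right (mul_le_mul_of_nonneg_left p4 (by norm_num)) hz0.le
  norm_num at hs
  linarith

theorem key4 {w : ℕ → ℝ} {A : Finset ℕ} (hA : #A = 4) (hw : ∀ j ∈ A, 0 < w j) :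
    12 ≤ 7 * FF w A := by
  obtain ⟨z, hz, hmax⟩ := exists_max_image A w (by rw [← card_pos]; omega)
  obtain ⟨x, y, v, hxy, hxv, hyv, e, hle, hle'⟩ := sorted3 w (B := A.erase z)
    (by rw [card_erase_of_mem hz]; omega)
  have hx : x ∈ A := mem_of_mem_erase (a := z) (by rw [e]; simp)
  have hx0 := hw x hx
  have hc : 0 < 1 / w x := by positivity
  rw [← FF_scale (w := w) (A := A) hc]
  refine key4_aux (w := fun j => 1 / w x * w j) hz hA e hxy hxv hyv (by field_simp)
    (fun j hj => mul_pos hc (hw j hj)) (fun j hj => mul_le_mul_of_nonneg_left (hmax j hj) hc.le)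
    (mul_le_mul_of_nonneg_left hle hc.le) (mul_le_mul_of_nonneg_left hle' hc.le)

theorem key5 {w : ℕ → ℝ} {A : Finset ℕ} (hA : #A = 5) (hw : ∀ j ∈ A, 0 < w j) :
    20 ≤ 15 * FF w A := by
  obtain ⟨z, hz, hmax⟩ := exists_max_image A w (by rw [← card_pos]; omega)
  have hcB : #(A.erase z) = 4 := by rw [card_erase_of_mem hz]; omega
  have hwB : ∀ j ∈ A.erase z, 0 < w j := fun j hj => hw j (mem_of_mem_erase hj)
  have hBne : (A.erase z).Nonempty := by rw [← card_pos]; omega
  have h4 := key4 hcB hwB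
  obtain ⟨U, hU, hUB, e, hUh⟩ := phiH hBne hwB
  by_cases hbig : (16 : ℝ) / 15 ≤ phi w (A.erase z) * ∑ j ∈ A.erase z, 1 / w j
  · have h := inc (r := 4) hz hA le_rfl hw hmax (by
      have e16 : ((4 : ℕ) : ℝ) ^ 2 = 16 := by norm_num
      have e15 : (2 : ℝ) ^ 4 - 1 = 15 := by norm_num
      rw [e16, e15]; linarith)
    norm_num at h
    linarith
  · push Not at hbig
    have hU1 : #U = 1 := by
      have h1 := hU.card_pos
      have h2 : #U ≤ 4 := by rw [← hcB]; exact card_le_card hUB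
      have h3 := hUh.trans_lt hbig
      interval_cases h : #U
      · rfl
      · norm_num at h3
      · norm_num at h3
      · norm_num at h3
    obtain ⟨i, rfl⟩ := card_eq_one.1 hU1
    have hi : i ∈ A.erase z := hUB (mem_singleton_self i)
    have hi0 := hwB i hi
    have eφ : phi w (A.erase z) = w i := by rw [e]; simp; norm_num
    rw [eφ, ← add_sum_erase _ _ hi, mul_add, mul_one_div_cancel hi0.ne'] at hbig
    have hj : ∀ j ∈ (A.erase z).erase i, 15 * w i ≤ w j := by
      intro j hj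
      have hj0 := hwB j (mem_of_mem_erase hj)
      have h1 : 1 / w j ≤ ∑ j ∈ (A.erase z).erase i, 1 / w j :=
        single_le_sum (f := fun j => 1 / w j)
          (fun k hk => (one_div_pos.2 (hwB k (mem_of_mem_erase hk))).le) hj
      have h2 : w i * (1 / w j) < 1 / 15 := by
        have := mul_le_mul_of_nonneg_left h1 hi0.le
        linarith
      rw [mul_one_div, div_lt_div_iff₀ hj0 (by norm_num)] at h2
      linarith
    have hc3 : #((A.erase z).erase i) = 3 := by rw [card_erase_of_mem hi]; omega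
    have hne3 : ((A.erase z).erase i).Nonempty := by rw [← card_pos]; omega
    have hphi : 45 / 7 * w i ≤ phi w ((A.erase z).erase i) := by
      refine le_phi hne3 fun V hV hVs => ?_
      have h1 : #V ≤ 3 := by rw [← hc3]; exact card_le_card hVs
      have h2 := hV.card_pos
      have h3 : (#V : ℝ) * (15 * w i) ≤ ∑ j ∈ V, w j := by
        rw [← nsmul_eq_mul]
        exact card_nsmul_le_sum _ _ _ fun j hj' => hj j (hVs hj')
      rw [le_div_iff₀ (two_pow_sub_pos hV)]
      refine le_trans ?_ h3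
      interval_cases h : #V <;> norm_num <;> linarith
    have hFB : 45 / 7 ≤ FF w (A.erase z) := by
      unfold FF
      have h1 : 45 / 7 ≤ phi w ((A.erase z).erase i) / w i := by
        rw [le_div_iff₀ hi0]; exact hphi
      refine h1.trans (single_le_sum (f := fun x => phi w ((A.erase z).erase x) / w x)
        (fun k hk => ?_) hi)
      refine div_nonneg (phi_pos ?_ fun j hj => hwB j (mem_of_mem_erase hj)).le (hwB k hk).le
      rw [← card_pos, card_erase_of_mem hk]; omega
    have hs := FF_step hz (by omega) hw hmax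
    rw [hA] at hs
    norm_num at hs
    have p1 : 0 ≤ ∑ x ∈ A.erase z, min (8 * phi w ((A.erase z).erase x)) (w z) / w x := by
      refine sum_nonneg fun x hx => div_nonneg (le_min ?_ (hw z hz).le) (hwB x hx).le
      refine mul_nonneg (by norm_num) (phi_pos ?_ fun j hj => hwB j (mem_of_mem_erase hj)).le
      rw [← card_pos, card_erase_of_mem hx]; omega
    have p2 : 0 ≤ 15 * phi w (A.erase z) / w z :=
      div_nonneg (mul_nonneg (by norm_num) (phi_pos hBne hwB).le) (hw z hz).le
    linarith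

/-- **the inequality** -/
theorem key_nat (k : ℕ) (hk : 5 ≤ k) : ∀ (w : ℕ → ℝ) (A : Finset ℕ), #A = k →
    (∀ j ∈ A, 0 < w j) → (k : ℝ) * (k - 1) ≤ (2 ^ (k - 1) - 1) * FF w A := by
  induction k, hk using Nat.le_induction with
  | base =>
    intro w A hA hw
    have := key5 hA hw
    norm_num
    linarith
  | succ k hk ih =>
    intro w A hA hw
    obtain ⟨z, hz, hmax⟩ := exists_max_image A w (by rw [← card_pos]; omega)
    have hcB : #(A.erase z) = k := by rw [card_erase_of_mem hz]; omega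
    have hwB : ∀ j ∈ A.erase z, 0 < w j := fun j hj => hw j (mem_of_mem_erase hj)
    have hBne : (A.erase z).Nonempty := by rw [← card_pos]; omega
    have h1 := ih w _ hcB hwB
    obtain ⟨U, hU, hUB, e, hUh⟩ := phiH hBne hwB
    have hn := num_ind k hk #U hU.card_pos (by rw [← hcB]; exact card_le_card hUB)
    have h2 : (k : ℝ) ^ 2 ≤ (2 ^ k - 1) * (phi w (A.erase z) * ∑ j ∈ A.erase z, 1 / w j) := by
      have hp : (0 : ℝ) < 2 ^ #U - 1 := two_pow_sub_pos hU
      have hq : (0 : ℝ) ≤ 2 ^ k - 1 := by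
        have : (1 : ℝ) ≤ 2 ^ k := one_le_pow₀ (by norm_num)
        linarith
      have h3 : (k : ℝ) ^ 2 ≤ (2 ^ k - 1) * ((#U : ℝ) ^ 2 / (2 ^ #U - 1)) := by
        rw [mul_div_assoc', le_div_iff₀ hp]
        linarith
      exact h3.trans (mul_le_mul_of_nonneg_left hUh hq)
    have h := inc (r := k) hz hA (by omega) hw hmax h2
    have e1 : k + 1 - 1 = k := by omega
    rw [e1]
    push_cast
    have h5 : ((k : ℝ) + 1) * (k + 1 - 1) = k * (k - 1) + 2 * k := by ring
    rw [h5]
    linarith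

/-- **the inequality** -/
theorem key {w : ℕ → ℝ} {A : Finset ℕ} (hA : 2 ≤ #A) (hw : ∀ j ∈ A, 0 < w j) :
    (#A : ℝ) * (#A - 1) / (2 ^ (#A - 1) - 1) ≤ FF w A := by
  have hp : (0 : ℝ) < 2 ^ (#A - 1) - 1 := by
    have : (2 : ℝ) ^ 1 ≤ 2 ^ (#A - 1) := pow_le_pow_right₀ (by norm_num) (by omega)
    linarith
  rw [div_le_iff₀ hp, mul_comm (FF w A)]
  rcases Nat.lt_or_ge #A 5 with h | h
  · interval_cases h' : #A
    · have := key2 h' hw; norm_num; linarith
    · have := key3 h' hw; norm_num; linarith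
    · have := key4 h' hw; norm_num; linarith
  · exact key_nat #A h w A rfl hw

end Pool.Agent.H61.LF
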