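import Pool.Agent.H61.Rule4
import Pool.Agent.H61.Conv

set_option autoImplicit false
set_option linter.all false

/-!
# Sets with many disjoint extensions
-/

namespace Pool.Agent.H61.FC

open Finset

variable {α : Type*} [DecidableEq α]

/-- the number of the members of `𝒟` which contain `A` -/
def up (𝒟 : Finset (Finset α)) (A : Finset α) : ℕ := (𝒟.filter (fun D => A ⊆ D)).card

theorem up_step {𝒟 : Finset (Finset α)} (h : Dn 𝒟) {B : Finset α} {e : α} (he : e ∉ B) :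
    (up 𝒟 B : ℝ) ≤ 2 * (up 𝒟 (insert e B) : ℝ) + dg 𝒟 e := by
  have h1 := filter_erase_card_le h e (fun D => ¬ B ⊆ D) (fun D hD hB => hD
    (hB.trans (erase_subset _ _)))
  have h2 : (𝒟.filter (fun D => e ∈ D ∧ B ⊆ D)).card + (𝒟.filter (fun D => e ∈ D ∧ ¬ B ⊆ D)).card =
      (𝒟.filter (fun D => e ∈ D)).card := by
    rw [← filter_filter, ← filter_filter]
    exact card_filter_add_card_filter_not (s := 𝒟.filter (fun D => e ∈ D)) (fun D => B ⊆ D)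
  have h3 : (𝒟.filter (fun D => e ∉ D ∧ B ⊆ D)).card + (𝒟.filter (fun D => e ∉ D ∧ ¬ B ⊆ D)).card =
      (𝒟.filter (fun D => e ∉ D)).card := by
    rw [← filter_filter, ← filter_filter]
    exact card_filter_add_card_filter_not (s := 𝒟.filter (fun D => e ∉ D)) (fun D => B ⊆ D)
  have h4 : (𝒟.filter (fun D => e ∈ D)).card + (𝒟.filter (fun D => ¬ e ∈ D)).card = 𝒟.card :=
    card_filter_add_card_filter_not (fun D => e ∈ D)
  have h5 : (𝒟.filter (fun D => e ∈ D ∧ B ⊆ D)).card + (𝒟.filter (fun D => e ∉ D ∧ B ⊆ D)).card =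
      up 𝒟 B := by
    unfold up
    rw [← card_filter_add_card_filter_not (s := 𝒟.filter (fun D => B ⊆ D)) (fun D => e ∈ D)]
    rw [filter_filter, filter_filter]
    congr 2 <;>
    · ext D; simp only [mem_filter]; tauto
  have h6 : (𝒟.filter (fun D => e ∈ D ∧ B ⊆ D)).card = up 𝒟 (insert e B) := by
    unfold up
    congr 1
    ext D
    simp only [mem_filter, insert_subset_iff]
  unfold dg
  have g1 : (((𝒟.filter (fun D => e ∈ D ∧ ¬ B ⊆ D)).card : ℝ)) ≤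
    ((𝒟.filter (fun D => e ∉ D ∧ ¬ B ⊆ D)).card : ℝ) := by exact_mod_cast h1
  have g2 : ((𝒟.filter (fun D => e ∈ D ∧ B ⊆ D)).card : ℝ) +
    (𝒟.filter (fun D => e ∈ D ∧ ¬ B ⊆ D)).card = (𝒟.filter (fun D => e ∈ D)).card := by
    exact_mod_cast h2
  have g3 : ((𝒟.filter (fun D => e ∉ D ∧ B ⊆ D)).card : ℝ) +
    (𝒟.filter (fun D => e ∉ D ∧ ¬ B ⊆ D)).card = (𝒟.filter (fun D => e ∉ D)).card := by
    exact_mod_cast h3
  have g4 : ((𝒟.filter (fun D => e ∈ D)).card : ℝ) + (𝒟.filter (fun D => ¬ e ∈ D)).card =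
    𝒟.card := by exact_mod_cast h4
  have g5 : ((𝒟.filter (fun D => e ∈ D ∧ B ⊆ D)).card : ℝ) +
    (𝒟.filter (fun D => e ∉ D ∧ B ⊆ D)).card = up 𝒟 B := by exact_mod_cast h5
  have g6 : ((𝒟.filter (fun D => e ∈ D ∧ B ⊆ D)).card : ℝ) = up 𝒟 (insert e B) := by
    exact_mod_cast h6
  linarith

theorem up_bound {𝒟 : Finset (Finset α)} (h : Dn 𝒟) (A E : Finset α) (hd : Disjoint A E) :
    (up 𝒟 A : ℝ) ≤ 2 ^ E.card * ((up 𝒟 (A ∪ E) : ℝ) + ∑ e ∈ E, dg 𝒟 e) := by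
  induction E using Finset.induction_on with
  | empty => simp
  | insert e E he ih =>
    have hd' : Disjoint A E := hd.mono_right (subset_insert _ _)
    have heA : e ∉ A := fun h => (disjoint_left.1 hd h) (mem_insert_self _ _)
    have h1 := ih hd'
    have h2 := up_step h (B := A ∪ E) (e := e) (by simp [he, heA])
    rw [card_insert_of_notMem he, sum_insert he, pow_succ]
    have h3 : A ∪ insert e E = insert e (A ∪ E) := by
      ext t; simp only [mem_union, mem_insert]; tauto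
    rw [h3]
    have h4 : (0 : ℝ) ≤ ∑ e ∈ E, dg 𝒟 e := sum_nonneg fun _ _ => dg_nonneg h _
    have h5 : (0 : ℝ) ≤ dg 𝒟 e := dg_nonneg h _
    have h6 : (0 : ℝ) < 2 ^ E.card := by positivity
    calc (up 𝒟 A : ℝ) ≤ 2 ^ E.card * ((up 𝒟 (A ∪ E) : ℝ) + ∑ e ∈ E, dg 𝒟 e) := h1
      _ ≤ 2 ^ E.card * ((2 * (up 𝒟 (insert e (A ∪ E)) : ℝ) + dg 𝒟 e) + 2 * ∑ e ∈ E, dg 𝒟 e) := by
        apply mul_le_mul_of_nonneg_left _ h6.le
        linarith
      _ ≤ 2 ^ E.card * 2 * ((up 𝒟 (insert e (A ∪ E)) : ℝ) + (dg 𝒟 e + ∑ e ∈ E, dg 𝒟 e)) := by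
        nlinarith

/-- `A` has at least `M` pairwise disjoint extensions to members of `G` inside `W` -/
def Rich (G : Finset (Finset α)) (W : Finset α) (M : ℕ) (A : Finset α) : Prop :=
  ∃ 𝓜 : Finset (Finset α), M ≤ 𝓜.card ∧ (∀ E ∈ 𝓜, Disjoint A E ∧ A ∪ E ∈ G ∧ A ∪ E ⊆ W) ∧
    ∀ E ∈ 𝓜, ∀ E' ∈ 𝓜, E ≠ E' → Disjoint E E'

theorem card_disjoint_filter {𝓜 : Finset (Finset α)}
    (h : ∀ E ∈ 𝓜, ∀ E' ∈ 𝓜, E ≠ E' → Disjoint E E') (C : Finset α) :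
    𝓜.card ≤ (𝓜.filter (fun E => Disjoint E C)).card + C.card := by
  rw [← card_filter_add_card_filter_not (s := 𝓜) (fun E => Disjoint E C)]
  apply Nat.add_le_add_left
  rcases C.eq_empty_or_nonempty with rfl | ⟨c0, hc0⟩
  · simp
  have : Nonempty α := ⟨c0⟩
  have h1 : ∀ E ∈ 𝓜.filter (fun E => ¬ Disjoint E C), ∃ c, c ∈ E ∧ c ∈ C := by
    intro E hE
    obtain ⟨c, h1, h2⟩ := not_disjoint_iff.1 (mem_filter.1 hE).2
    exact ⟨c, h1, h2⟩
  choose! f hf using h1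
  refine card_le_card_of_injOn f (fun E hE => (hf E hE).2) ?_
  intro E hE E' hE' hff
  by_contra hne
  have h2 := h E (mem_filter.1 hE).1 E' (mem_filter.1 hE').1 hne
  have h3 := (hf E hE).1
  rw [hff] at h3
  exact disjoint_left.1 h2 h3 (hf E' hE').1

/-- the boundary above a rich set -/
theorem rich_sum {G : Finset (Finset α)} {W : Finset α} {M k : ℕ} (hG : ∀ B ∈ G, B.card = k)
    {A : Finset α} (hA : Rich G W M A) {𝒟 : Finset (Finset α)} (h : Dn 𝒟) {x : α} (hx : x ∈ A)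
    (hv : ∀ D ∈ 𝒟, ∀ B ∈ G, x ∈ B → ¬ B.erase x ⊆ D) (C : Finset α) :
    ((M : ℝ) - C.card) * (up 𝒟 (A.erase x) : ℝ) ≤ 2 ^ k * ∑ e ∈ (W.erase x) \ C, dg 𝒟 e := by
  obtain ⟨𝓜, hM, hE, hdis⟩ := hA
  set 𝓔 := 𝓜.filter (fun E => Disjoint E C) with h𝓔
  have h1 : (M : ℝ) - C.card ≤ 𝓔.card := by
    have := card_disjoint_filter hdis C
    have h2 : (M : ℝ) ≤ 𝓔.card + C.card := by exact_mod_cast hM.trans this
    linarith
  have h0 : (0 : ℝ) ≤ (up 𝒟 (A.erase x) : ℝ) := Nat.cast_nonneg _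
  have h2 : ∀ E ∈ 𝓔, (up 𝒟 (A.erase x) : ℝ) ≤ 2 ^ k * ∑ e ∈ E, dg 𝒟 e := by
    intro E hE'
    obtain ⟨g1, g2, g3⟩ := hE E (mem_filter.1 hE').1
    have g4 : Disjoint (A.erase x) E := g1.mono_left (erase_subset _ _)
    have g5 := up_bound h (A.erase x) E g4
    have g6 : up 𝒟 (A.erase x ∪ E) = 0 := by
      unfold up
      rw [card_eq_zero, filter_eq_empty_iff]
      intro D hD hsub
      refine hv D hD (A ∪ E) g2 (mem_union_left _ hx) ?_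
      have : (A ∪ E).erase x ⊆ A.erase x ∪ E := by
        intro t ht
        simp only [mem_erase, mem_union] at ht ⊢
        tauto
      exact this.trans hsub
    rw [g6, Nat.cast_zero, zero_add] at g5
    have g7 : E.card ≤ k := by
      rw [← hG _ g2]
      exact card_le_card subset_union_right
    have g8 : (0 : ℝ) ≤ ∑ e ∈ E, dg 𝒟 e := sum_nonneg fun _ _ => dg_nonneg h _
    refine g5.trans (mul_le_mul_of_nonneg_right ?_ g8)
    exact pow_le_pow_right₀ (by norm_num) g7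
  have h3 : (𝓔.card : ℝ) * (up 𝒟 (A.erase x) : ℝ) ≤ 2 ^ k * ∑ E ∈ 𝓔, ∑ e ∈ E, dg 𝒟 e := by
    rw [mul_sum, ← nsmul_eq_mul]
    exact card_nsmul_le_sum _ _ _ h2
  have h4 : ∑ E ∈ 𝓔, ∑ e ∈ E, dg 𝒟 e = ∑ e ∈ 𝓔.biUnion id, dg 𝒟 e := by
    rw [sum_biUnion]
    · rfl
    · intro E hE1 E' hE2 hne
      exact hdis E (mem_filter.1 hE1).1 E' (mem_filter.1 hE2).1 hne
  have h5 : ∑ e ∈ 𝓔.biUnion id, dg 𝒟 e ≤ ∑ e ∈ (W.erase x) \ C, dg 𝒟 e := by
    refine sum_le_sum_of_subset_of_nonneg ?_ (fun _ _ _ => dg_nonneg h _)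
    intro e he
    rw [mem_biUnion] at he
    obtain ⟨E, hE', heE⟩ := he
    rw [mem_filter] at hE'
    obtain ⟨g1, g2, g3⟩ := hE E hE'.1
    have heE' : e ∈ E := heE
    rw [mem_sdiff, mem_erase]
    refine ⟨⟨?_, g3 (mem_union_right _ heE')⟩, disjoint_left.1 hE'.2 heE'⟩
    rintro rfl
    exact disjoint_left.1 g1 hx heE'
  calc ((M : ℝ) - C.card) * (up 𝒟 (A.erase x) : ℝ) ≤ 𝓔.card * (up 𝒟 (A.erase x) : ℝ) :=
        mul_le_mul_of_nonneg_right h1 h0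
    _ ≤ 2 ^ k * ∑ E ∈ 𝓔, ∑ e ∈ E, dg 𝒟 e := h3
    _ ≤ 2 ^ k * ∑ e ∈ (W.erase x) \ C, dg 𝒟 e := by
        rw [h4]
        exact mul_le_mul_of_nonneg_left h5 (by positivity)

/-- the constant -/
def MM (k : ℕ) : ℕ := 6 + 48 * 2 ^ k

open scoped Classical in
/-- the rich triples -/
noncomputable def HH (G : Finset (Finset α)) (W : Finset α) (k : ℕ) : Finset (Finset α) :=
  (W.powersetCard 3).filter (fun A => Rich G W (MM k) A)

/-- the roots -/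
def RR (G : Finset (Finset α)) (W : Finset α) (k : ℕ) (x : α) : Prop :=
  Rich G W (MM k) {x} ∨ ∃ y, y ≠ x ∧ Rich G W (MM k) {x, y}

theorem mem_HH {G : Finset (Finset α)} {W : Finset α} {k : ℕ} {T : Finset α} :
    T ∈ HH G W k ↔ (T ⊆ W ∧ T.card = 3) ∧ Rich G W (MM k) T := by
  classical
  unfold HH
  rw [mem_filter, mem_powersetCard]

theorem Rich.sub {G : Finset (Finset α)} {W : Finset α} {M : ℕ} {A : Finset α}
    (h : Rich G W M A) (hM : 1 ≤ M) : A ⊆ W := by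
  obtain ⟨𝓜, hM', hE, _⟩ := h
  obtain ⟨E, hE'⟩ := card_pos.1 (by omega : 0 < 𝓜.card)
  exact subset_union_left.trans (hE E hE').2.2

theorem MM_cast (k : ℕ) : ((MM k : ℕ) : ℝ) = 6 + 48 * 2 ^ k := by
  unfold MM; push_cast; ring

/-- the local inequality at a root -/
theorem root_ineq {G : Finset (Finset α)} {W : Finset α} {k : ℕ} (hG : ∀ B ∈ G, B.card = k)
    {c : α → ℝ} (hc : ∀ v, 4 / 3 ≤ c v) (hc3 : ∀ v, c v ≤ 3) (hcR : ∀ v, RR G W k v → c v = 3)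
    {x : α} (hx : RR G W k x) {𝒟 : Finset (Finset α)} (h : Dn 𝒟)
    (hv : ∀ D ∈ 𝒟, ∀ B ∈ G, x ∈ B → ¬ B.erase x ⊆ D) :
    c x * (𝒟.card : ℝ) ≤ ∑ k ∈ W.erase x, c k * dg 𝒟 k := by
  have hp : (0 : ℝ) < 2 ^ k := by positivity
  have hn : (0 : ℝ) ≤ 𝒟.card := Nat.cast_nonneg _
  have hlow : ∀ S : Finset α, (4 / 3) * ∑ e ∈ S, dg 𝒟 e ≤ ∑ e ∈ S, c e * dg 𝒟 e := by
    intro S
    rw [mul_sum]
    exact sum_le_sum fun e _ => mul_le_mul_of_nonneg_right (hc e) (dg_nonneg h e)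
  rcases hx with hr | ⟨y, hyx, hr⟩
  · have h1 := rich_sum hG hr h (mem_singleton_self x) hv ∅
    have h2 : up 𝒟 (({x} : Finset α).erase x) = 𝒟.card := by
      unfold up
      rw [filter_true_of_mem]
      intro D _
      simp
    rw [h2, card_empty, sdiff_empty, MM_cast] at h1
    push_cast at h1
    have h3 := hlow (W.erase x)
    have h4 : 3 * (𝒟.card : ℝ) ≤ (4 / 3) * ∑ e ∈ W.erase x, dg 𝒟 e := by
      have h5 : (48 * 2 ^ k) * (𝒟.card : ℝ) ≤ 2 ^ k * ∑ e ∈ W.erase x, dg 𝒟 e := by nlinarith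
      have h6 : 2 ^ k * (48 * (𝒟.card : ℝ)) ≤ 2 ^ k * ∑ e ∈ W.erase x, dg 𝒟 e := by linarith
      have h7 := le_of_mul_le_mul_left h6 hp
      linarith
    have h8 := mul_le_mul_of_nonneg_right (hc3 x) hn
    linarith
  · have hyR : RR G W k y := Or.inr ⟨x, hyx.symm, by rwa [pair_comm] at hr⟩
    have hyW : y ∈ W := hr.sub (by unfold MM; omega) (by simp)
    have h1 := rich_sum hG hr h (x := x) (by simp) hv {y}
    have h2 : ({x, y} : Finset α).erase x = {y} := by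
      rw [erase_insert (by simpa using hyx.symm)]
    have h2' : up 𝒟 ({y} : Finset α) = (𝒟.filter (fun D => y ∈ D)).card := by
      unfold up
      congr 1
      ext D
      simp
    rw [h2, h2', card_singleton, MM_cast] at h1
    push_cast at h1
    have h3 := hlow ((W.erase x) \ {y})
    have hyW' : y ∈ W.erase x := mem_erase.2 ⟨hyx, hyW⟩
    rw [← erase_eq] at h3 h1
    rw [← add_sum_erase _ _ hyW', hcR y hyR]
    have hny : (0 : ℝ) ≤ (𝒟.filter (fun D => y ∈ D)).card := Nat.cast_nonneg _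
    have h4 : 6 * ((𝒟.filter (fun D => y ∈ D)).card : ℝ) ≤
        (4 / 3) * ∑ e ∈ (W.erase x).erase y, dg 𝒟 e := by
      have h5 : (48 * 2 ^ k) * ((𝒟.filter (fun D => y ∈ D)).card : ℝ) ≤
        2 ^ k * ∑ e ∈ (W.erase x).erase y, dg 𝒟 e := by nlinarith
      have h6 : 2 ^ k * (48 * ((𝒟.filter (fun D => y ∈ D)).card : ℝ)) ≤
        2 ^ k * ∑ e ∈ (W.erase x).erase y, dg 𝒟 e := by linarith
      have h7 := le_of_mul_le_mul_left h6 hp
      linarith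
    have h8 := mul_le_mul_of_nonneg_right (hc3 x) hn
    have h9 : dg 𝒟 y = (𝒟.card : ℝ) - 2 * ((𝒟.filter (fun D => y ∈ D)).card : ℝ) := rfl
    rw [h9]
    linarith

/-- the local inequality at the other elements -/
theorem nonroot_ineq {G : Finset (Finset α)} {W : Finset α} {k : ℕ} (hG : ∀ B ∈ G, B.card = k)
    {c : α → ℝ} (hc : ∀ v, 4 / 3 ≤ c v) (hc3 : ∀ v, c v ≤ 3)
    {x : α} (hx : LocOK W (HH G W k) c x) {𝒟 : Finset (Finset α)} (h : Dn 𝒟)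
    (hv : ∀ D ∈ 𝒟, ∀ B ∈ G, x ∈ B → ¬ B.erase x ⊆ D) :
    c x * (𝒟.card : ℝ) ≤ ∑ k ∈ W.erase x, c k * dg 𝒟 k := by
  obtain ⟨Q, hQ, hQ3, hxQ, C, hCW, hC6, hxC, hloc⟩ := hx
  have hp : (0 : ℝ) < 2 ^ k := by positivity
  set 𝒟₁ := 𝒟.filter (fun D => ∀ T ∈ Q, ¬ T.erase x ⊆ D) with h𝒟₁
  set 𝒟₂ := 𝒟.filter (fun D => ¬ ∀ T ∈ Q, ¬ T.erase x ⊆ D) with h𝒟₂
  have hcard : 𝒟₁.card + 𝒟₂.card = 𝒟.card := card_filter_add_card_filter_not _
  have hDn : Dn 𝒟₁ := by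
    intro D hD D' hD'
    rw [mem_filter] at hD ⊢
    exact ⟨h D hD.1 D' hD', fun T hT hs => hD.2 T hT (hs.trans hD')⟩
  have h1 := hloc 𝒟₁ hDn (fun D hD => (mem_filter.1 hD).2)
  have h2 : ∀ e, dg 𝒟₁ e - 𝒟₂.card ≤ dg 𝒟 e := by
    intro e
    have g1 : (𝒟.filter (fun D => e ∈ D)).card =
        (𝒟₁.filter (fun D => e ∈ D)).card + (𝒟₂.filter (fun D => e ∈ D)).card := by
      rw [← card_filter_add_card_filter_not (s := 𝒟.filter (fun D => e ∈ D))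
        (fun D => ∀ T ∈ Q, ¬ T.erase x ⊆ D)]
      congr 2 <;>
      · ext D; simp only [h𝒟₁, h𝒟₂, mem_filter]; tauto
    have g2 : (𝒟₂.filter (fun D => e ∈ D)).card ≤ 𝒟₂.card := card_filter_le _ _
    unfold dg
    have g3 : ((𝒟.filter (fun D => e ∈ D)).card : ℝ) =
        (𝒟₁.filter (fun D => e ∈ D)).card + (𝒟₂.filter (fun D => e ∈ D)).card := by
      exact_mod_cast g1
    have g4 : ((𝒟₂.filter (fun D => e ∈ D)).card : ℝ) ≤ 𝒟₂.card := by exact_mod_cast g2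
    have g5 : (𝒟₁.card : ℝ) + 𝒟₂.card = 𝒟.card := by exact_mod_cast hcard
    rw [g3]
    linarith
  -- the number of the exceptional members
  have hup : (𝒟₂.card : ℝ) ≤ ∑ T ∈ Q, (up 𝒟 (T.erase x) : ℝ) := by
    have g1 : 𝒟₂ ⊆ Q.biUnion (fun T => 𝒟.filter (fun D => T.erase x ⊆ D)) := by
      intro D hD
      rw [mem_filter] at hD
      obtain ⟨hD1, hD2⟩ := hD
      push Not at hD2
      obtain ⟨T, hT, hs⟩ := hD2
      exact mem_biUnion.2 ⟨T, hT, mem_filter.2 ⟨hD1, hs⟩⟩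
    have g2 := (card_le_card g1).trans card_biUnion_le
    exact_mod_cast g2
  have hT : ∀ T ∈ Q, (48 : ℝ) * (up 𝒟 (T.erase x) : ℝ) ≤ ∑ e ∈ (W.erase x) \ C, dg 𝒟 e := by
    intro T hT
    have g1 := rich_sum hG (mem_HH.1 (hQ hT)).2 h (hxQ T hT) hv C
    rw [MM_cast] at g1
    have g2 : (0 : ℝ) ≤ (up 𝒟 (T.erase x) : ℝ) := Nat.cast_nonneg _
    have g3 : (C.card : ℝ) ≤ 6 := by exact_mod_cast hC6
    have g4 : (48 * 2 ^ k) * (up 𝒟 (T.erase x) : ℝ) ≤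
        2 ^ k * ∑ e ∈ (W.erase x) \ C, dg 𝒟 e := by
      refine le_trans ?_ g1
      apply mul_le_mul_of_nonneg_right _ g2
      linarith
    have g5 : 2 ^ k * (48 * (up 𝒟 (T.erase x) : ℝ)) ≤
        2 ^ k * ∑ e ∈ (W.erase x) \ C, dg 𝒟 e := by linarith
    exact le_of_mul_le_mul_left g5 hp
  have hsum : (48 : ℝ) * 𝒟₂.card ≤ 3 * ∑ e ∈ (W.erase x) \ C, dg 𝒟 e := by
    have g0 : (0 : ℝ) ≤ ∑ e ∈ (W.erase x) \ C, dg 𝒟 e := sum_nonneg fun _ _ => dg_nonneg h _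
    have g1 : ∑ T ∈ Q, (48 : ℝ) * (up 𝒟 (T.erase x) : ℝ) ≤
        Q.card • ∑ e ∈ (W.erase x) \ C, dg 𝒟 e := sum_le_card_nsmul _ _ _ hT
    rw [← mul_sum, nsmul_eq_mul] at g1
    have g2 : (Q.card : ℝ) ≤ 3 := by exact_mod_cast hQ3
    have g3 := mul_le_mul_of_nonneg_right g2 g0
    linarith
  have hsplit : ∑ e ∈ W.erase x, c e * dg 𝒟 e =
      ∑ e ∈ (W.erase x) \ C, c e * dg 𝒟 e + ∑ e ∈ C, c e * dg 𝒟 e := by
    rw [sum_sdiff]
    intro e he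
    exact mem_erase.2 ⟨fun h => hxC (h ▸ he), hCW he⟩
  have hlow : (4 / 3) * ∑ e ∈ (W.erase x) \ C, dg 𝒟 e ≤ ∑ e ∈ (W.erase x) \ C, c e * dg 𝒟 e := by
    rw [mul_sum]
    exact sum_le_sum fun e _ => mul_le_mul_of_nonneg_right (hc e) (dg_nonneg h e)
  have hCs : ∑ e ∈ C, c e * dg 𝒟₁ e - 18 * 𝒟₂.card ≤ ∑ e ∈ C, c e * dg 𝒟 e := by
    have g0 : (0 : ℝ) ≤ 𝒟₂.card := Nat.cast_nonneg _
    have g1 : ∀ e ∈ C, c e * dg 𝒟₁ e - 3 * 𝒟₂.card ≤ c e * dg 𝒟 e := by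
      intro e _
      have := h2 e
      have h3 := hc e
      have h4 := hc3 e
      nlinarith
    have g2 := sum_le_sum g1
    rw [sum_sub_distrib, sum_const, nsmul_eq_mul] at g2
    have g3 : (C.card : ℝ) ≤ 6 := by exact_mod_cast hC6
    nlinarith
  have hn : (𝒟.card : ℝ) = 𝒟₁.card + 𝒟₂.card := by exact_mod_cast hcard.symm
  have g0 : (0 : ℝ) ≤ 𝒟₂.card := Nat.cast_nonneg _
  have h3x : c x * (𝒟₂.card : ℝ) ≤ 3 * 𝒟₂.card := mul_le_mul_of_nonneg_right (hc3 x) g0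
  rw [hn, mul_add, hsplit]
  linarith

/-- if there are no removable parts, then some element of `W` is in half of the members -/
theorem stuck_fc {F G : Finset (Finset α)} {W : Finset α} {k : ℕ} (hG : ∀ B ∈ G, B.card = k)
    (hF : ∀ A ∈ F, ∀ B ∈ F, A ∪ B ∈ F) (hGF : G ⊆ F) (hW : W.Nonempty)
    (hS : Stuck W (HH G W k) (RR G W k)) :
    ∃ x ∈ W, F.card ≤ 2 * (F.filter (fun A => x ∈ A)).card := by
  obtain ⟨x0, hx0⟩ := hW
  refine fc_of_dg (G := G.filter (fun B => B ⊆ W)) (c := wt (HH G W k) (RR G W k)) hF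
    (fun B hB => (mem_filter.1 hB).2) ((filter_subset _ _).trans hGF)
    (fun x => by linarith [wt_low (H := HH G W k) (R := RR G W k) x])
    ⟨x0, hx0, by linarith [wt_low (H := HH G W k) (R := RR G W k) x0]⟩ ?_
  intro x hx 𝒟 hD hDs hv
  have hDW : ∀ D ∈ 𝒟, ∀ B ∈ G, x ∈ B → ¬ B.erase x ⊆ D := by
    intro D hD B hB hxB hs
    refine hv D hD B (mem_filter.2 ⟨hB, ?_⟩) hxB hs
    intro t ht
    by_cases he : t = x
    · rw [he]; exact hx
    · exact (erase_subset _ _) (hDs D hD (hs (mem_erase.2 ⟨he, ht⟩)))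
  by_cases hR : RR G W k x
  · exact root_ineq hG wt_low wt_high (fun v hv => wt_St (Or.inl hv)) hR hD hDW
  · exact nonroot_ineq hG wt_low wt_high (locOK_all hS hx hR) hD hDW

/-- the same for triples -/
theorem stuck_fc3 {F G : Finset (Finset α)} {W : Finset α}
    (hF : ∀ A ∈ F, ∀ B ∈ F, A ∪ B ∈ F) (hGF : G ⊆ F) (hW : W.Nonempty)
    (hS : Stuck W G (fun _ => False)) :
    ∃ x ∈ W, F.card ≤ 2 * (F.filter (fun A => x ∈ A)).card := by
  obtain ⟨x0, hx0⟩ := hW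
  refine fc_of_dg (G := G) (c := wt G (fun _ => False)) hF
    hS.sub hGF
    (fun x => by linarith [wt_low (H := G) (R := fun _ => False) x])
    ⟨x0, hx0, by linarith [wt_low (H := G) (R := fun _ => False) x0]⟩ ?_
  intro x hx 𝒟 hD hDs hv
  obtain ⟨Q, hQ, hQ3, hxQ, C, hCW, hC6, hxC, hloc⟩ := locOK_all hS hx (fun h => h)
  refine (hloc 𝒟 hD (fun D hD' T hT => hv D hD' T (hQ hT) (hxQ T hT))).trans ?_
  refine sum_le_sum_of_subset_of_nonneg ?_ ?_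
  · intro e he
    exact mem_erase.2 ⟨fun h => hxC (h ▸ he), hCW he⟩
  · intro e _ _
    exact mul_nonneg (by linarith [wt_low (H := G) (R := fun _ => False) e]) (dg_nonneg hD e)

end Pool.Agent.H61.FC
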