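import Pool.Agent.H61.LF4
import Pool.Agent.H61.Rich

set_option autoImplicit false
set_option linter.all false

/-!
# The edge inequality for down-sets which avoid one set
-/

namespace Pool.Agent.H61.LF

open Finset Pool.Agent.H61.FC

/-- `a(x₁) + 2 a(x₂) + 4 a(x₃) + ...` -/
def V (a : ℕ → ℝ) : List ℕ → ℝ
  | [] => 0
  | x :: l => a x + 2 * V a l

theorem V_append (a : ℕ → ℝ) (l : List ℕ) (e : ℕ) :
    V a (l ++ [e]) = V a l + 2 ^ l.length * a e := by
  induction l with
  | nil => simp [V]
  | cons x l ih =>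
    simp only [List.cons_append, V, ih, List.length_cons, pow_succ]
    ring

theorem V_sub (a : ℕ → ℝ) (m : ℝ) (l : List ℕ) :
    V a l = V (fun x => a x - m) l + m * (2 ^ l.length - 1) := by
  induction l with
  | nil => simp [V]
  | cons x l ih =>
    simp only [V, List.length_cons, pow_succ]
    rw [ih]
    ring

theorem up_list {𝒟 : Finset (Finset ℕ)} (h : Dn 𝒟) (l : List ℕ) : ∀ B : Finset ℕ, l.Nodup →
    (∀ x ∈ l, x ∉ B) →
    (up 𝒟 B : ℝ) ≤ V (fun x => dg 𝒟 x) l + 2 ^ l.length * (up 𝒟 (B ∪ l.toFinset) : ℝ) := by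
  induction l with
  | nil => intro B _ _; simp [V]
  | cons e l ih =>
    intro B hnd hB
    rw [List.nodup_cons] at hnd
    have he : e ∉ B := hB e (by simp)
    have h1 := up_step h he
    have h2 := ih (insert e B) hnd.2 (fun x hx => by
      rw [mem_insert]
      rintro (rfl | hxB)
      · exact hnd.1 hx
      · exact hB x (by simp [hx]) hxB)
    have e1 : insert e B ∪ l.toFinset = B ∪ (e :: l).toFinset := by
      ext j; simp only [mem_union, mem_insert, List.mem_toFinset, List.mem_cons]; tauto
    rw [e1] at h2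
    simp only [V, List.length_cons, pow_succ]
    linarith

/-- the order by decreasing values -/
theorem order_exists {w : ℕ → ℝ} {φ : ℝ} (n : ℕ) : ∀ (R : Finset ℕ) (a : ℕ → ℝ), #R = n →
    (∀ j ∈ R, 0 ≤ a j) → (∀ U ⊆ R, φ * (2 ^ #U - 1) ≤ ∑ j ∈ U, w j) →
    ∃ l : List ℕ, l.Nodup ∧ l.toFinset = R ∧ φ * V a l ≤ ∑ j ∈ R, w j * a j := by
  induction n with
  | zero =>
    intro R a hR _ _
    rw [card_eq_zero] at hR
    subst hR
    exact ⟨[], by simp, by simp, by simp [V]⟩
  | succ n ih =>
    intro R a hR ha hU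
    obtain ⟨e, he, hmin⟩ := exists_min_image R a (by rw [← card_pos]; omega)
    have hc : #(R.erase e) = n := by rw [card_erase_of_mem he]; omega
    obtain ⟨l, hnd, hl, hle⟩ := ih (R.erase e) (fun x => a x - a e) hc
      (fun j hj => by have := hmin j (mem_of_mem_erase hj); simpa using this)
      (fun U hU' => hU U (hU'.trans (erase_subset _ _)))
    have hel : e ∉ l := by
      intro h
      have : e ∈ l.toFinset := List.mem_toFinset.2 h
      rw [hl] at this
      exact notMem_erase _ _ this
    refine ⟨l ++ [e], ?_, ?_, ?_⟩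
    · rw [List.nodup_append]
      refine ⟨hnd, by simp, ?_⟩
      intro x hx y hy
      simp only [List.mem_singleton] at hy
      rintro rfl
      exact hel (hy ▸ hx)
    · ext j
      rw [List.toFinset_append, mem_union, hl]
      simp only [mem_erase, List.toFinset_cons, List.toFinset_nil, mem_insert, notMem_empty, or_false]
      constructor
      · rintro (h | rfl)
        · exact h.2
        · exact he
      · intro hj
        by_cases h : j = e
        · exact Or.inr h
        · exact Or.inl ⟨h, hj⟩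
    · have hlen : l.length = n := by
        rw [← hc, ← hl, List.toFinset_card_of_nodup hnd]
      have hlen' : (l ++ [e]).length = #R := by rw [List.length_append, hlen, hR]; rfl
      have e1 : ∑ j ∈ R, w j * a j = ∑ j ∈ R.erase e, w j * (a j - a e) +
          a e * ∑ j ∈ R, w j := by
        rw [← add_sum_erase R (fun j => w j * a j) he, ← add_sum_erase R w he, mul_add, mul_sum]
        have : ∑ j ∈ R.erase e, w j * a j = ∑ j ∈ R.erase e, w j * (a j - a e) +
            ∑ j ∈ R.erase e, a e * w j := by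
          rw [← sum_add_distrib]; exact sum_congr rfl fun j _ => by ring
        rw [this]; ring
      rw [e1, V_sub a (a e), V_append, hlen']
      have h1 := hU R subset_rfl
      have h2 := mul_le_mul_of_nonneg_left h1 (ha e he)
      have e2 : φ * (V (fun x => a x - a e) l + 2 ^ l.length * (a e - a e) +
          a e * (2 ^ #R - 1)) = φ * V (fun x => a x - a e) l + a e * (φ * (2 ^ #R - 1)) := by ring
      rw [e2]
      linarith

/-- **the edge inequality** -/
theorem edge_dg {𝒟 : Finset (Finset ℕ)} (h : Dn 𝒟) {R : Finset ℕ} {w : ℕ → ℝ} {φ : ℝ}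
    (hφ : 0 ≤ φ) (hU : ∀ U ⊆ R, φ * (2 ^ #U - 1) ≤ ∑ j ∈ U, w j) (hv : ∀ D ∈ 𝒟, ¬ R ⊆ D) :
    φ * (#𝒟 : ℝ) ≤ ∑ j ∈ R, w j * dg 𝒟 j := by
  obtain ⟨l, hnd, hl, hle⟩ := order_exists (w := w) (φ := φ) #R R (fun x => dg 𝒟 x) rfl
    (fun j _ => dg_nonneg h j) hU
  refine le_trans ?_ hle
  apply mul_le_mul_of_nonneg_left _ hφ
  have h1 := up_list h l ∅ hnd (by simp)
  rw [empty_union, hl] at h1
  have h2 : up 𝒟 R = 0 := by
    unfold up
    rw [card_eq_zero, filter_eq_empty_iff]
    intro D hD hsub
    exact hv D hD hsub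
  have h3 : up 𝒟 (∅ : Finset ℕ) = #𝒟 := by
    unfold up
    rw [filter_true_of_mem]
    intro D _
    simp
  rw [h2, h3, Nat.cast_zero, mul_zero, add_zero] at h1
  exact h1

end Pool.Agent.H61.LF
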