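import Pool.Agent.H61.LF5
import Pool.Agent.H61.Conv
import Pool.Graph.R_pool_sql_team_seeded_63374d34.N188.FC.Strict

set_option autoImplicit false
set_option linter.all false

/-!
# The criterion
-/

namespace Pool.Agent.H61.LF

open Finset Pool.Agent.H61.FC Pool.Agent.N188.FC Pool.Agent.N188.LD
open scoped Classical

/-- the flow from `x` to `k` -/
noncomputable def ft (S : Finset ℕ) (K : Finset (Finset ℕ)) (x k : ℕ) : ℝ :=
  ∑ X ∈ S.powerset, ∑ W ∈ S.powerset, (ind (T K X k x W) : ℝ)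

theorem ft_nonneg (S : Finset ℕ) (K : Finset (Finset ℕ)) (x k : ℕ) : 0 ≤ ft S K x k :=
  sum_nonneg fun _ _ => sum_nonneg fun _ _ => Nat.cast_nonneg _

theorem down_fam {N : Finset ℕ} {Q : Finset ℕ → Prop} (h : DownIn N Q) :
    Dn (N.powerset.filter Q) := by
  intro E hE E' hE'
  simp only [mem_filter, mem_powerset] at hE ⊢
  exact ⟨hE'.trans hE.1, down_of h hE.2 hE' hE.1⟩

theorem ec_eq {N : Finset ℕ} {Q : Finset ℕ → Prop} (h : DownIn N Q) (c : ℕ → ℝ) :
    ec N c Q = ∑ k ∈ N, c k * dg (N.powerset.filter Q) k := by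
  have hd := down_fam h
  rw [← sum_leave hd N c]
  unfold ec
  rw [sum_filter]
  refine sum_congr rfl fun E hE => ?_
  rw [mem_powerset] at hE
  split_ifs with hQ
  · rw [sum_filter]
    refine sum_congr rfl fun k hk => ?_
    have h1 : (insert k E ∉ N.powerset.filter Q) ↔ ¬ Q (insert k E) := by
      simp only [mem_filter, mem_powerset, not_and]
      exact ⟨fun h2 => h2 (insert_subset hk hE), fun h2 _ => h2⟩
    unfold ind
    by_cases hc : k ∉ E ∧ Q E ∧ ¬ Q (insert k E)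
    · rw [if_pos hc, if_pos ⟨hc.1, h1.2 hc.2.2⟩]; simp
    · rw [if_neg hc, if_neg (fun h2 => hc ⟨h2.1, hQ, h1.1 h2.2⟩)]; simp
  · refine sum_eq_zero fun k _ => ?_
    unfold ind
    rw [if_neg (fun h2 => hQ h2.2.1)]; simp

/-- the flow inequality of one fibre -/
theorem flow_fib {S : Finset ℕ} {K : Finset (Finset ℕ)} {A : Finset ℕ} {x : ℕ} {w : ℕ → ℝ} {φ : ℝ}
    (hx : x ∈ A) (hAS : A ⊆ S) (hU : ∀ B ∈ K, ∀ C ∈ K, B ∪ C ∈ K) (ha : ∀ B ∈ K, B ∪ A ∈ K)
    (hw : ∀ j ∈ S, 0 < w j) (hφ : 0 ≤ φ)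
    (hφU : ∀ U ⊆ A.erase x, φ * (2 ^ #U - 1) ≤ ∑ j ∈ U, w j) :
    (2 : ℝ) ^ #(S.erase x) * (φ * D S K x) ≤ ∑ j ∈ A.erase x, w j * ft S K x j := by
  have hxS : x ∈ S := hAS hx
  set c : ℕ → ℝ := fun j => if j ∈ A.erase x then w j else 0 with hc
  have hc0 : ∀ j, 0 ≤ c j := by
    intro j
    rw [hc]
    dsimp only
    split_ifs with h
    · exact (hw j (hAS (mem_of_mem_erase h))).le
    · exact le_rfl
  have hsub : A.erase x ⊆ S.erase x := erase_subset_erase _ hAS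
  have hcs : ∀ f : ℕ → ℝ, ∑ k ∈ S.erase x, c k * f k = ∑ k ∈ A.erase x, w k * f k := by
    intro f
    have h1 : ∀ k ∈ S.erase x, c k * f k = if k ∈ A.erase x then w k * f k else 0 := by
      intro k _
      rw [hc]; dsimp only
      split_ifs <;> simp
    rw [sum_congr rfl h1, ← sum_filter, filter_mem_eq_inter, inter_eq_right.2 hsub]
  have hiso : ∀ Q : Finset ℕ → Prop, DownIn (S.erase x) Q →
      (∀ B, Q B → ¬ Up (fun B => insert x B ∈ ({A} : Finset (Finset ℕ))) B) →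
      φ * cnt (S.erase x) Q ≤ ec (S.erase x) c Q := by
    intro Q hQ hY
    rw [ec_eq hQ, hcs, cnt_eq_card]
    refine edge_dg (down_fam hQ) hφ hφU ?_
    intro E hE hsubE
    rw [mem_filter] at hE
    exact hY E hE.2 ⟨A.erase x, by simp [insert_erase hx], hsubE⟩
  have h1 := zedc (N := S.erase x) (Q := fun B => B ∈ K) (P := fun B => insert x B ∈ K)
      (Y := fun B => insert x B ∈ ({A} : Finset (Finset ℕ))) hc0 hφ hiso
      (by
        intro B C hB hC
        have := hU _ hB _ hC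
        rwa [insert_union] at this)
      (by
        intro B C hB hC
        have := hU _ hB _ hC
        have e : insert x B ∪ insert x C = insert x (B ∪ C) := by
          ext y; simp only [mem_union, mem_insert]; tauto
        rwa [e] at this)
      (by
        intro B C hB hC
        simp only [mem_singleton] at hB
        have := ha _ hC
        rw [← hB] at this
        rwa [union_comm, insert_union] at this)
      (by
        intro B C hB hC
        simp only [mem_singleton] at hB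
        have := ha _ hC
        rw [← hB] at this
        have e : insert x C ∪ insert x B = insert x (B ∪ C) := by
          ext y; simp only [mem_union, mem_insert]; tauto
        rwa [e] at this)
  have h2 := Lc_le (K := K) hc0 hxS
  have h3 : ∑ X ∈ S.powerset, ∑ k ∈ S.erase x, c k * ∑ W ∈ S.powerset, (ind (T K X k x W) : ℝ) =
      ∑ j ∈ A.erase x, w j * ft S K x j := by
    rw [sum_comm, ← hcs (fun j => ft S K x j)]
    refine sum_congr rfl fun k _ => ?_
    unfold ft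
    rw [mul_sum]
  rw [h3] at h2
  exact h1.trans h2

/-- the sum of the flows into `k` -/
theorem flow_sum {S : Finset ℕ} {K : Finset (Finset ℕ)} {k : ℕ} (hk : k ∈ S) :
    2 * ∑ x ∈ S.erase k, ft S K x k ≤ 2 ^ #S * (Uw S K k : ℝ) := by
  have h1 : ∀ X ∈ S.powerset, 2 * ∑ w ∈ S, ∑ W ∈ S.powerset,
      ((if k ∈ S.erase w then ind (T K X k w W) else 0 : ℕ) : ℝ) ≤
      2 ^ #S * (ind (k ∉ X ∧ X ∉ K ∧ insert k X ∈ K) : ℝ) := by
    intro X hX
    exact_mod_cast T_sum X (mem_powerset.1 hX) k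
  have h2 := sum_le_sum h1
  rw [← mul_sum, ← mul_sum] at h2
  unfold Uw
  push_cast
  refine le_trans ?_ h2
  apply mul_le_mul_of_nonneg_left _ (by norm_num : (0 : ℝ) ≤ 2)
  rw [sum_comm]
  unfold ft
  refine (sum_le_sum fun x hx => ?_).trans
    (sum_le_sum_of_subset_of_nonneg (erase_subset k S) fun x _ _ =>
      sum_nonneg fun X _ => sum_nonneg fun W _ => Nat.cast_nonneg _)
  refine sum_le_sum fun X _ => sum_le_sum fun W _ => ?_
  have hxk := mem_erase.1 hx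
  rw [if_pos (mem_erase.2 ⟨hxk.1.symm, hk⟩)]

/-- sums over the fibres -/
theorem fib_total (F : Finset (Finset ℕ)) (S : Finset ℕ) (f : Finset ℕ → ℝ) :
    ∑ U ∈ F.image (fun A => A \ S), ∑ A ∈ fib F S U, f A = ∑ A ∈ F, f (A ∩ S) := by
  have hm : ∀ A ∈ F, (fun A => A \ S) A ∈ F.image (fun A => A \ S) :=
    fun A hA => mem_image_of_mem _ hA
  rw [← sum_fiberwise_of_maps_to hm]
  refine sum_congr rfl fun U _ => ?_
  unfold fib
  rw [sum_image (fib_inj F S U)]

/-- the number of the edges leaving in direction `x`, over all fibres -/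
noncomputable def DD (F : Finset (Finset ℕ)) (S : Finset ℕ) (x : ℕ) : ℝ :=
  ∑ U ∈ F.image (fun A => A \ S), (D S (fib F S U) x : ℝ)

noncomputable def UU (F : Finset (Finset ℕ)) (S : Finset ℕ) (x : ℕ) : ℝ :=
  ∑ U ∈ F.image (fun A => A \ S), (Uw S (fib F S U) x : ℝ)

noncomputable def FT (F : Finset (Finset ℕ)) (S : Finset ℕ) (x k : ℕ) : ℝ :=
  ∑ U ∈ F.image (fun A => A \ S), ft S (fib F S U) x k

theorem DD_nonneg (F : Finset (Finset ℕ)) (S : Finset ℕ) (x : ℕ) : 0 ≤ DD F S x :=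
  sum_nonneg fun _ _ => Nat.cast_nonneg _

theorem UU_nonneg (F : Finset (Finset ℕ)) (S : Finset ℕ) (x : ℕ) : 0 ≤ UU F S x :=
  sum_nonneg fun _ _ => Nat.cast_nonneg _

theorem FT_nonneg (F : Finset (Finset ℕ)) (S : Finset ℕ) (x k : ℕ) : 0 ≤ FT F S x k :=
  sum_nonneg fun _ _ => ft_nonneg _ _ _ _

theorem balance_tot {F : Finset (Finset ℕ)} {S : Finset ℕ} {x : ℕ} (hx : x ∈ S) :
    (#F : ℝ) + UU F S x = 2 * #(F.filter (fun A => x ∈ A)) + DD F S x := by
  have h1 : (#F : ℝ) = ∑ U ∈ F.image (fun A => A \ S), (#(fib F S U) : ℝ) := by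
    have := fib_total F S (fun _ => 1)
    simp only [sum_const, nsmul_eq_mul, mul_one] at this
    exact this.symm
  have h2 : (#(F.filter (fun A => x ∈ A)) : ℝ) =
      ∑ U ∈ F.image (fun A => A \ S), (#((fib F S U).filter (fun A => x ∈ A)) : ℝ) := by
    have := fib_total F S (fun A => if x ∈ A then 1 else 0)
    simp only [mem_inter, hx, and_true] at this
    rw [card_filter]
    push_cast
    rw [← this]
    refine sum_congr rfl fun U _ => ?_
    rw [card_filter]; push_cast; rfl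
  rw [h1, h2]
  unfold UU DD
  rw [mul_sum, ← sum_add_distrib, ← sum_add_distrib]
  refine sum_congr rfl fun U _ => ?_
  exact_mod_cast balance_pt (fib_sub U) hx

theorem flow_tot {F : Finset (Finset ℕ)} {S : Finset ℕ} {A : Finset ℕ} {x : ℕ} {w : ℕ → ℝ} {φ : ℝ}
    (hF : ∀ B ∈ F, ∀ C ∈ F, B ∪ C ∈ F) (hAF : A ∈ F)
    (hx : x ∈ A) (hAS : A ⊆ S)
    (hw : ∀ j ∈ S, 0 < w j) (hφ : 0 ≤ φ)
    (hφU : ∀ U ⊆ A.erase x, φ * (2 ^ #U - 1) ≤ ∑ j ∈ U, w j) :
    (2 : ℝ) ^ #(S.erase x) * (φ * DD F S x) ≤ ∑ j ∈ A.erase x, w j * FT F S x j := by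
  unfold DD FT
  have h1 : ∀ U ∈ F.image (fun A => A \ S), (2 : ℝ) ^ #(S.erase x) * (φ * D S (fib F S U) x) ≤
      ∑ j ∈ A.erase x, w j * ft S (fib F S U) x j := by
    intro U _
    refine flow_fib hx hAS (fib_union hF U) ?_ hw hφ hφU
    intro B hB
    exact fib_absorb (G := {A}) (fun C hC => by rw [mem_singleton] at hC; rw [hC]; exact hAS)
      (fun B hB C hC => by rw [mem_singleton] at hC; rw [hC]; exact hF B hB A hAF) U B hB A
      (mem_singleton_self A)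
  have h2 := sum_le_sum h1
  rw [← mul_sum, ← mul_sum, sum_comm] at h2
  refine h2.trans_eq (sum_congr rfl fun j _ => ?_)
  rw [mul_sum]

theorem FT_sum {F : Finset (Finset ℕ)} {S : Finset ℕ} {k : ℕ} (hk : k ∈ S) :
    2 * ∑ x ∈ S.erase k, FT F S x k ≤ 2 ^ #S * UU F S k := by
  unfold FT UU
  rw [sum_comm, mul_sum, mul_sum]
  exact sum_le_sum fun U _ => flow_sum hk

theorem DD_le {F : Finset (Finset ℕ)} {S : Finset ℕ} {x : ℕ} (hx : x ∈ S) :
    DD F S x + #(F.filter (fun A => x ∈ A)) ≤ #F := by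
  have h1 : (#F : ℝ) = ∑ U ∈ F.image (fun A => A \ S), (#(fib F S U) : ℝ) := by
    have := fib_total F S (fun _ => 1)
    simp only [sum_const, nsmul_eq_mul, mul_one] at this
    exact this.symm
  have h2 : (#(F.filter (fun A => x ∈ A)) : ℝ) =
      ∑ U ∈ F.image (fun A => A \ S), (#((fib F S U).filter (fun A => x ∈ A)) : ℝ) := by
    have := fib_total F S (fun A => if x ∈ A then 1 else 0)
    simp only [mem_inter, hx, and_true] at this
    rw [card_filter]
    push_cast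
    rw [← this]
    refine sum_congr rfl fun U _ => ?_
    rw [card_filter]; push_cast; rfl
  rw [h1, h2]
  unfold DD
  rw [← sum_add_distrib]
  refine sum_le_sum fun U _ => ?_
  exact_mod_cast D_le_pt (K := fib F S U) (S := S) x

/-- the inequality between the numbers of edges -/
theorem ratio {F G : Finset (Finset ℕ)} {S : Finset ℕ} {l : Finset ℕ → ℝ} {W : ℝ}
    (hF : ∀ B ∈ F, ∀ C ∈ F, B ∪ C ∈ F) (hGF : G ⊆ F) (hGS : ∀ A ∈ G, A ⊆ S)
    (hG2 : ∀ A ∈ G, 2 ≤ #A) (hS : S.Nonempty) (hl : ∀ A ∈ G, 0 ≤ l A)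
    (hcod : ∀ x ∈ S, ∀ y ∈ S, x ≠ y → ∑ A ∈ G.filter (fun A => x ∈ A ∧ y ∈ A), l A ≤ 1)
    (hsum : W * #S ≤ ∑ A ∈ G, l A * ((#A : ℝ) * (#A - 1) / (2 ^ (#A - 1) - 1)))
    (hD : ∀ x ∈ S, 0 < DD F S x) : ∃ x ∈ S, W * DD F S x ≤ UU F S x := by
  by_contra hcon
  push Not at hcon
  set w : ℕ → ℝ := fun j => 1 / DD F S j with hwdef
  have hw : ∀ j ∈ S, 0 < w j := fun j hj => one_div_pos.2 (hD j hj)
  set n := #S with hn
  have hn1 : 0 < n := hS.card_pos
  -- one set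
  have h1 : ∀ A ∈ G, (2 : ℝ) ^ (n - 1) * FF w A ≤
      ∑ x ∈ A, ∑ j ∈ A.erase x, w j * FT F S x j := by
    intro A hA
    unfold FF
    rw [mul_sum]
    refine sum_le_sum fun x hx => ?_
    have hxS := hGS A hA hx
    have hne : (A.erase x).Nonempty := by
      rw [← card_pos, card_erase_of_mem hx]; have := hG2 A hA; omega
    have hφ := phi_pos (w := w) hne fun j hj => hw j (hGS A hA (mem_of_mem_erase hj))
    have h2 := flow_tot hF (hGF hA) hx (hGS A hA) hw hφ.le (fun U hU => phi_mul_le hU)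
    have e1 : #(S.erase x) = n - 1 := card_erase_of_mem hxS
    have e2 : phi w (A.erase x) / w x = phi w (A.erase x) * DD F S x := by
      rw [hwdef]; dsimp only
      rw [div_div_eq_mul_div, div_one]
    rw [e2, ← e1]
    exact h2
  -- all sets
  have h2 : (2 : ℝ) ^ (n - 1) * ∑ A ∈ G, l A * FF w A ≤
      ∑ A ∈ G, l A * ∑ x ∈ A, ∑ j ∈ A.erase x, w j * FT F S x j := by
    rw [mul_sum]
    refine sum_le_sum fun A hA => ?_
    have := mul_le_mul_of_nonneg_left (h1 A hA) (hl A hA)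
    linarith
  have h3 : ∑ A ∈ G, l A * ∑ x ∈ A, ∑ j ∈ A.erase x, w j * FT F S x j ≤
      ∑ j ∈ S, w j * ∑ x ∈ S.erase j, FT F S x j := by
    have e1 : ∀ A ∈ G, l A * ∑ x ∈ A, ∑ j ∈ A.erase x, w j * FT F S x j =
        ∑ j ∈ S, ∑ x ∈ S.erase j, (if x ∈ A ∧ j ∈ A then l A else 0) * (w j * FT F S x j) := by
      intro A hA
      have hAS := hGS A hA
      have e2 : ∑ x ∈ A, ∑ j ∈ A.erase x, w j * FT F S x j =
          ∑ j ∈ A, ∑ x ∈ A.erase j, w j * FT F S x j := by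
        refine sum_comm' fun x j => ?_
        simp only [mem_erase]; tauto
      rw [e2, mul_sum]
      have e3 : ∀ j ∈ S, ∑ x ∈ S.erase j,
          (if x ∈ A ∧ j ∈ A then l A else 0) * (w j * FT F S x j) =
          if j ∈ A then l A * ∑ x ∈ A.erase j, w j * FT F S x j else 0 := by
        intro j _
        by_cases hj : j ∈ A
        · rw [if_pos hj, mul_sum]
          have e4 : ∀ x ∈ S.erase j, (if x ∈ A ∧ j ∈ A then l A else 0) * (w j * FT F S x j) =
              if x ∈ A.erase j then l A * (w j * FT F S x j) else 0 := by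
            intro x hx
            have hxj := (mem_erase.1 hx).1
            by_cases hxA : x ∈ A
            · rw [if_pos ⟨hxA, hj⟩, if_pos (mem_erase.2 ⟨hxj, hxA⟩)]
            · rw [if_neg (fun h => hxA h.1), if_neg (fun h => hxA (mem_of_mem_erase h)), zero_mul]
          rw [sum_congr rfl e4, ← sum_filter, filter_mem_eq_inter,
            inter_eq_right.2 (erase_subset_erase _ hAS)]
        · rw [if_neg hj]
          exact sum_eq_zero fun x _ => by rw [if_neg (fun h => hj h.2), zero_mul]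
      rw [sum_congr rfl e3, ← sum_filter, filter_mem_eq_inter, inter_eq_right.2 hAS]
    rw [sum_congr rfl e1, sum_comm]
    refine sum_le_sum fun j hj => ?_
    rw [sum_comm, mul_sum]
    refine sum_le_sum fun x hx => ?_
    rw [← sum_mul, ← sum_filter]
    have hx' := mem_erase.1 hx
    have h4 := hcod x hx'.2 j hj hx'.1
    have h5 : 0 ≤ w j * FT F S x j := mul_nonneg (hw j hj).le (FT_nonneg _ _ _ _)
    calc _ ≤ 1 * (w j * FT F S x j) := mul_le_mul_of_nonneg_right h4 h5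
      _ = _ := one_mul _
  have h4 : ∑ j ∈ S, w j * ∑ x ∈ S.erase j, FT F S x j ≤
      ∑ j ∈ S, w j * (2 ^ (n - 1) * UU F S j) := by
    refine sum_le_sum fun j hj => mul_le_mul_of_nonneg_left ?_ (hw j hj).le
    have h5 := FT_sum (F := F) hj
    have h6 : (2 : ℝ) ^ #S = 2 * 2 ^ (n - 1) := by
      rw [← pow_succ']; congr 1; omega
    rw [h6] at h5
    linarith
  have h5 : ∑ j ∈ S, w j * (2 ^ (n - 1) * UU F S j) < 2 ^ (n - 1) * (W * n) := by
    have e1 : ∑ j ∈ S, w j * (2 ^ (n - 1) * UU F S j) =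
        2 ^ (n - 1) * ∑ j ∈ S, UU F S j / DD F S j := by
      rw [mul_sum]
      refine sum_congr rfl fun j _ => ?_
      rw [hwdef]; dsimp only; ring
    rw [e1]
    apply mul_lt_mul_of_pos_left _ (by positivity)
    have e2 : W * (n : ℝ) = ∑ j ∈ S, W := by rw [sum_const, nsmul_eq_mul, mul_comm]
    rw [e2]
    exact sum_lt_sum_of_nonempty hS fun j hj => (div_lt_iff₀ (hD j hj)).2 (hcon j hj)
  have h6 : (2 : ℝ) ^ (n - 1) * ∑ A ∈ G, l A * FF w A < 2 ^ (n - 1) * (W * n) :=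
    h2.trans_lt ((h3.trans h4).trans_lt h5)
  have h7 : ∑ A ∈ G, l A * FF w A < W * n := lt_of_mul_lt_mul_left h6 (by positivity)
  have h8 : ∑ A ∈ G, l A * ((#A : ℝ) * (#A - 1) / (2 ^ (#A - 1) - 1)) ≤ ∑ A ∈ G, l A * FF w A :=
    sum_le_sum fun A hA => mul_le_mul_of_nonneg_left
      (key (hG2 A hA) fun j hj => hw j (hGS A hA hj)) (hl A hA)
  linarith

/-- **the criterion**, with a frequency -/
theorem criterionW {F G : Finset (Finset ℕ)} {S : Finset ℕ} {l : Finset ℕ → ℝ} {W : ℝ}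
    (hW1 : W ≤ 1)
    (hF : ∀ B ∈ F, ∀ C ∈ F, B ∪ C ∈ F) (hGF : G ⊆ F) (hGS : ∀ A ∈ G, A ⊆ S)
    (hG2 : ∀ A ∈ G, 2 ≤ #A) (hS : S.Nonempty) (hl : ∀ A ∈ G, 0 ≤ l A)
    (hcod : ∀ x ∈ S, ∀ y ∈ S, x ≠ y → ∑ A ∈ G.filter (fun A => x ∈ A ∧ y ∈ A), l A ≤ 1)
    (hsum : W * #S ≤ ∑ A ∈ G, l A * ((#A : ℝ) * (#A - 1) / (2 ^ (#A - 1) - 1))) :
    ∃ x ∈ S, W * #F ≤ (1 + W) * #(F.filter (fun A => x ∈ A)) := by
  by_contra hcon
  push Not at hcon
  have hUD : ∀ x ∈ S, UU F S x < W * DD F S x := by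
    intro x hx
    have h1 := balance_tot (F := F) hx
    have h2 := DD_le (F := F) hx
    have h3 := hcon x hx
    have h4 := mul_le_mul_of_nonneg_left h2 (by linarith : (0 : ℝ) ≤ 1 - W)
    nlinarith
  have hD : ∀ x ∈ S, 0 < DD F S x := by
    intro x hx
    have h1 := hUD x hx
    have h2 := UU_nonneg F S x
    have h3 := DD_nonneg F S x
    rcases h3.lt_or_eq with h | h
    · exact h
    · rw [← h, mul_zero] at h1; linarith
  obtain ⟨x, hx, h⟩ := ratio hF hGF hGS hG2 hS hl hcod hsum hD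
  have := hUD x hx
  linarith

/-- **the criterion** -/
theorem criterion {F G : Finset (Finset ℕ)} {S : Finset ℕ} {l : Finset ℕ → ℝ}
    (hF : ∀ B ∈ F, ∀ C ∈ F, B ∪ C ∈ F) (hGF : G ⊆ F) (hGS : ∀ A ∈ G, A ⊆ S)
    (hG2 : ∀ A ∈ G, 2 ≤ #A) (hS : S.Nonempty) (hl : ∀ A ∈ G, 0 ≤ l A)
    (hcod : ∀ x ∈ S, ∀ y ∈ S, x ≠ y → ∑ A ∈ G.filter (fun A => x ∈ A ∧ y ∈ A), l A ≤ 1)
    (hsum : (#S : ℝ) ≤ ∑ A ∈ G, l A * ((#A : ℝ) * (#A - 1) / (2 ^ (#A - 1) - 1))) :
    ∃ x ∈ S, #F ≤ 2 * #(F.filter (fun A => x ∈ A)) := by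
  obtain ⟨x, hx, h⟩ := criterionW (W := 1) le_rfl hF hGF hGS hG2 hS hl hcod (by rwa [one_mul])
  refine ⟨x, hx, ?_⟩
  have h1 : (#F : ℝ) ≤ 2 * #(F.filter (fun A => x ∈ A)) := by linarith
  exact_mod_cast h1

/-- **the criterion**, strict form -/
theorem criterion_strict {F G : Finset (Finset ℕ)} {S : Finset ℕ} {l : Finset ℕ → ℝ}
    (hF : ∀ B ∈ F, ∀ C ∈ F, B ∪ C ∈ F) (hGF : G ⊆ F) (hGS : ∀ A ∈ G, A ⊆ S)
    (hG2 : ∀ A ∈ G, 2 ≤ #A) (hS : S.Nonempty) (hl : ∀ A ∈ G, 0 ≤ l A)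
    (hcod : ∀ x ∈ S, ∀ y ∈ S, x ≠ y → ∑ A ∈ G.filter (fun A => x ∈ A ∧ y ∈ A), l A ≤ 1)
    (hsum : (#S : ℝ) < ∑ A ∈ G, l A * ((#A : ℝ) * (#A - 1) / (2 ^ (#A - 1) - 1))) :
    ∃ x ∈ S, #F < 2 * #(F.filter (fun A => x ∈ A)) ∨ (DD F S x = 0 ∧ UU F S x = 0) := by
  by_contra hcon
  push Not at hcon
  have hUD : ∀ x ∈ S, UU F S x ≤ DD F S x := by
    intro x hx
    have h1 := balance_tot (F := F) hx
    have h2 : (2 : ℝ) * #(F.filter (fun A => x ∈ A)) ≤ #F := by exact_mod_cast (hcon x hx).1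
    linarith
  have hD : ∀ x ∈ S, 0 < DD F S x := by
    intro x hx
    have h3 := DD_nonneg F S x
    rcases h3.lt_or_eq with h | h
    · exact h
    · have h1 := hUD x hx
      have h2 := UU_nonneg F S x
      exact absurd (by linarith) ((hcon x hx).2 h.symm)
  have hn : (0 : ℝ) < #S := by exact_mod_cast hS.card_pos
  set Ws := ∑ A ∈ G, l A * ((#A : ℝ) * (#A - 1) / (2 ^ (#A - 1) - 1)) with hWs
  obtain ⟨x, hx, h⟩ := ratio (W := Ws / #S) hF hGF hGS hG2 hS hl hcod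
    (by rw [div_mul_cancel₀ _ hn.ne']) hD
  have h1 : 1 < Ws / #S := by rw [lt_div_iff₀ hn, one_mul]; exact hsum
  have h2 := mul_lt_mul_of_pos_right h1 (hD x hx)
  have h3 := hUD x hx
  linarith

end Pool.Agent.H61.LF
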