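import Pool.Agent.H61.LF6

set_option autoImplicit false
set_option linter.all false

/-!
# The converse for linear families
-/

namespace Pool.Agent.H61.LF

open Finset Pool.Agent.H61.FC

/-- the subsets of `N` which contain none of the sets `B i`, `i ∈ I` -/
def av (N : Finset ℕ) (I : Finset (Finset ℕ)) (B : Finset ℕ → Finset ℕ) : Finset (Finset ℕ) :=
  N.powerset.filter (fun D => ∀ i ∈ I, ¬ B i ⊆ D)

theorem mem_av {N : Finset ℕ} {I : Finset (Finset ℕ)} {B : Finset ℕ → Finset ℕ} {D : Finset ℕ} :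
    D ∈ av N I B ↔ D ⊆ N ∧ ∀ i ∈ I, ¬ B i ⊆ D := by
  unfold av; rw [mem_filter, mem_powerset]

theorem av_down (N : Finset ℕ) (I : Finset (Finset ℕ)) (B : Finset ℕ → Finset ℕ) :
    Dn (av N I B) := by
  intro D hD D' hD'
  rw [mem_av] at hD ⊢
  exact ⟨hD'.trans hD.1, fun i hi h => hD.2 i hi (h.trans hD')⟩

theorem av_pos {N : Finset ℕ} {I : Finset (Finset ℕ)} {B : Finset ℕ → Finset ℕ}
    (hne : ∀ i ∈ I, (B i).Nonempty) : 0 < #(av N I B) := by
  rw [card_pos]
  refine ⟨∅, mem_av.2 ⟨empty_subset _, fun i hi h => ?_⟩⟩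
  exact (hne i hi).ne_empty (subset_empty.1 h)

/-- the directions of no set -/
theorem dg_av_out {N : Finset ℕ} {I : Finset (Finset ℕ)} {B : Finset ℕ → Finset ℕ} {j : ℕ}
    (hjN : j ∈ N) (hj : ∀ i ∈ I, j ∉ B i) : dg (av N I B) j = 0 := by
  rw [← card_leave (av_down N I B) j]
  norm_cast
  rw [card_eq_zero, filter_eq_empty_iff]
  rintro D hD ⟨h1, h2⟩
  rw [mem_av] at hD
  apply h2
  rw [mem_av]
  refine ⟨insert_subset hjN hD.1, fun i hi h => hD.2 i hi ?_⟩
  intro y hy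
  rcases mem_insert.1 (h hy) with rfl | h3
  · exact absurd hy (hj i hi)
  · exact h3

/-- the directions of one set -/
theorem dg_av_in {N : Finset ℕ} {I : Finset (Finset ℕ)} {B : Finset ℕ → Finset ℕ} {j : ℕ}
    {i : Finset ℕ} (hi : i ∈ I) (hBN : B i ⊆ N) (hj : j ∈ B i)
    (hdis : ∀ i' ∈ I, i' ≠ i → Disjoint (B i') (B i)) :
    (2 ^ #(B i) - 1) * dg (av N I B) j ≤ #(av N I B) := by
  rw [← card_leave (av_down N I B) j]
  set P := (B i).powerset.erase (B i) with hP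
  set M := (av N I B).filter (fun D => j ∉ D ∧ insert j D ∉ av N I B) with hM
  have hPc : #P = 2 ^ #(B i) - 1 := by
    rw [hP, card_erase_of_mem (mem_powerset.2 subset_rfl), card_powerset]
  -- the elements of `M` contain the rest of `B i`
  have hMi : ∀ D ∈ M, D ∩ B i = (B i).erase j := by
    intro D hD
    rw [hM, mem_filter, mem_av] at hD
    obtain ⟨⟨hDN, hD1⟩, hjD, hD2⟩ := hD
    rw [mem_av] at hD2
    push Not at hD2
    obtain ⟨i', hi', h1⟩ := hD2 (insert_subset (hBN hj) hDN)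
    have hji' : j ∈ B i' := by
      by_contra hcon
      exact hD1 i' hi' fun y hy => (mem_insert.1 (h1 hy)).resolve_left fun h => hcon (h ▸ hy)
    have hii : i' = i := by
      by_contra hne
      exact disjoint_left.1 (hdis i' hi' hne) hji' hj
    subst hii
    ext y
    simp only [mem_inter, mem_erase]
    constructor
    · rintro ⟨h2, h3⟩
      exact ⟨fun h => hjD (h ▸ h2), h3⟩
    · rintro ⟨h2, h3⟩
      exact ⟨(mem_insert.1 (h1 h3)).resolve_left h2, h3⟩
  have hinj : #(P ×ˢ M) ≤ #(av N I B) := by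
    refine card_le_card_of_injOn (fun p => (p.2 \ B i) ∪ p.1) ?_ ?_
    · rintro ⟨Z, D⟩ hp
      have hp' := Finset.mem_coe.1 hp
      rw [mem_product] at hp'
      obtain ⟨hZ, hD⟩ := hp'
      dsimp only at hZ hD ⊢
      rw [hP, mem_erase, mem_powerset] at hZ
      rw [hM, mem_filter, mem_av] at hD
      rw [Finset.mem_coe, mem_av]
      refine ⟨union_subset (sdiff_subset.trans hD.1.1) (hZ.2.trans hBN), fun i' hi' h => ?_⟩
      by_cases hii : i' = i
      · subst hii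
        apply hZ.1
        apply Subset.antisymm hZ.2
        intro y hy
        rcases mem_union.1 (h hy) with h2 | h2
        · exact absurd hy (mem_sdiff.1 h2).2
        · exact h2
      · apply hD.1.2 i' hi'
        intro y hy
        rcases mem_union.1 (h hy) with h2 | h2
        · exact (mem_sdiff.1 h2).1
        · exact absurd (hZ.2 h2) (disjoint_left.1 (hdis i' hi' hii) hy)
    · rintro ⟨Z, D⟩ hp ⟨Z', D'⟩ hp' h
      have hp1 := mem_product.1 (Finset.mem_coe.1 hp)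
      have hp1' := mem_product.1 (Finset.mem_coe.1 hp')
      dsimp only at hp1 hp1' h
      have hZ := (mem_erase.1 hp1.1).2
      have hZ' := (mem_erase.1 hp1'.1).2
      rw [mem_powerset] at hZ hZ'
      have e1 : ∀ (Z D : Finset ℕ), Z ⊆ B i → ((D \ B i) ∪ Z) ∩ B i = Z := by
        intro Z D hZ
        ext y
        simp only [mem_inter, mem_union, mem_sdiff]
        constructor
        · rintro ⟨h1 | h1, h2⟩
          · exact absurd h2 h1.2
          · exact h1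
        · intro h1
          exact ⟨Or.inr h1, hZ h1⟩
      have e2 : ∀ (Z D : Finset ℕ), Z ⊆ B i → ((D \ B i) ∪ Z) \ B i = D \ B i := by
        intro Z D hZ
        ext y
        simp only [mem_union, mem_sdiff]
        constructor
        · rintro ⟨h1 | h1, h2⟩
          · exact h1
          · exact absurd (hZ h1) h2
        · intro h1
          exact ⟨Or.inl h1, h1.2⟩
      have hZZ : Z = Z' := by rw [← e1 Z D hZ, h, e1 Z' D' hZ']
      have hDD : D \ B i = D' \ B i := by rw [← e2 Z D hZ, h, e2 Z' D' hZ']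
      have hDD' : D = D' := by
        rw [← sdiff_union_inter D (B i), ← sdiff_union_inter D' (B i), hDD, hMi D hp1.2,
          hMi D' hp1'.2]
      rw [hZZ, hDD']
  rw [card_product, hPc] at hinj
  have h2 : ((2 ^ #(B i) - 1 : ℕ) : ℝ) = 2 ^ #(B i) - 1 := by
    rw [Nat.cast_sub Nat.one_le_two_pow]; push_cast; ring
  rw [← h2]
  exact_mod_cast hinj

/-- Any two different members have at most one common element. -/
def Linear (K : Finset (Finset ℕ)) : Prop := ∀ A ∈ K, ∀ B ∈ K, A ≠ B → (A ∩ B).card ≤ 1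

theorem Linear.disj {K : Finset (Finset ℕ)} (h : Linear K) {x : ℕ} {A B : Finset ℕ} (hA : A ∈ K)
    (hB : B ∈ K) (hne : A ≠ B) (hxA : x ∈ A) (hxB : x ∈ B) :
    Disjoint (A.erase x) (B.erase x) := by
  rw [disjoint_left]
  intro y hy hy'
  rw [mem_erase] at hy hy'
  have h1 : ({x, y} : Finset ℕ) ⊆ A ∩ B := by
    intro z hz
    simp only [mem_insert, mem_singleton] at hz
    rcases hz with rfl | rfl
    · exact mem_inter.2 ⟨hxA, hxB⟩
    · exact mem_inter.2 ⟨hy.2, hy'.2⟩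
  have h2 := card_le_card h1
  rw [card_pair hy.1.symm] at h2
  have := h A hA B hB hne
  omega

/-- the exact form of the necessary condition at a point -/
theorem nec {G : Finset (Finset ℕ)} {S : Finset ℕ} (hG : ∀ A ∈ G, A ⊆ S) (hlin : Linear G)
    (hG2 : ∀ A ∈ G, 2 ≤ #A) {c : ℕ → ℝ} (hc0 : ∀ x, 0 ≤ c x) {x : ℕ}
    (hc : ∀ 𝒟 : Finset (Finset ℕ), Dn 𝒟 → (∀ D ∈ 𝒟, D ⊆ S.erase x) →
      (∀ D ∈ 𝒟, ∀ B ∈ G, x ∈ B → ¬ B.erase x ⊆ D) →
      c x * (𝒟.card : ℝ) ≤ ∑ k ∈ S.erase x, c k * dg 𝒟 k)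
    (U : Finset ℕ → Finset ℕ) (hU : ∀ A ∈ G, x ∈ A → (U A).Nonempty ∧ U A ⊆ A.erase x) :
    c x ≤ ∑ A ∈ G.filter (fun A => x ∈ A), (∑ j ∈ U A, c j) / (2 ^ #(U A) - 1) := by
  set I := G.filter (fun A => x ∈ A) with hI
  have hI' : ∀ A, A ∈ I ↔ A ∈ G ∧ x ∈ A := fun A => mem_filter
  have h1 := hc (av (S.erase x) I U) (av_down _ _ _) (fun D hD => (mem_av.1 hD).1)
    (fun D hD B hB hxB h => (mem_av.1 hD).2 B ((hI' B).2 ⟨hB, hxB⟩)
      ((hU B hB hxB).2.trans h))
  have hpos : (0 : ℝ) < #(av (S.erase x) I U) := by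
    exact_mod_cast av_pos fun A hA => (hU A ((hI' A).1 hA).1 ((hI' A).1 hA).2).1
  have hdis : ∀ A ∈ I, ∀ A' ∈ I, A' ≠ A → Disjoint (U A') (U A) := by
    intro A hA A' hA' hne
    rw [hI'] at hA hA'
    exact (hlin.disj hA'.1 hA.1 hne hA'.2 hA.2).mono (hU A' hA'.1 hA'.2).2 (hU A hA.1 hA.2).2
  have hsub : ∀ A ∈ I, U A ⊆ S.erase x := fun A hA =>
    (hU A ((hI' A).1 hA).1 ((hI' A).1 hA).2).2.trans (erase_subset_erase _ (hG A ((hI' A).1 hA).1))
  have h2 : ∑ k ∈ S.erase x, c k * dg (av (S.erase x) I U) k =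
      ∑ A ∈ I, ∑ j ∈ U A, c j * dg (av (S.erase x) I U) j := by
    rw [← sum_biUnion (fun A hA A' hA' hne => hdis A' hA' A hA hne)]
    symm
    refine sum_subset (fun y hy => ?_) fun y hy hy' => ?_
    · rw [mem_biUnion] at hy
      obtain ⟨A, hA, hyA⟩ := hy
      exact hsub A hA hyA
    · rw [dg_av_out hy fun A hA hyA => hy' (mem_biUnion.2 ⟨A, hA, hyA⟩), mul_zero]
  have h3 : ∑ A ∈ I, ∑ j ∈ U A, c j * dg (av (S.erase x) I U) j ≤
      (∑ A ∈ I, (∑ j ∈ U A, c j) / (2 ^ #(U A) - 1)) * #(av (S.erase x) I U) := by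
    rw [sum_mul]
    refine sum_le_sum fun A hA => ?_
    have hA' := (hI' A).1 hA
    have hp := two_pow_sub_pos (hU A hA'.1 hA'.2).1
    rw [div_mul_eq_mul_div, le_div_iff₀ hp, sum_mul, sum_mul]
    refine sum_le_sum fun j hj => ?_
    have := dg_av_in hA (hsub A hA) hj (fun A' hA'' hne => hdis A hA A' hA'' hne)
    have := mul_le_mul_of_nonneg_left this (hc0 j)
    linarith
  rw [h2] at h1
  exact le_of_mul_le_mul_right (h1.trans h3) hpos

/-- weight of a point -/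
noncomputable def om (G : Finset (Finset ℕ)) (x : ℕ) : ℝ :=
  ∑ A ∈ G.filter (fun A => x ∈ A), ((#A : ℝ) - 1) / (2 ^ (#A - 1) - 1)

/-- **the converse** -/
theorem not_fc {G : Finset (Finset ℕ)} {S : Finset ℕ} (hG : ∀ A ∈ G, A ⊆ S) (hlin : Linear G)
    (hG2 : ∀ A ∈ G, 2 ≤ #A) (hom : ∀ x ∈ S, om G x < 1) :
    ∃ F : Finset (Finset ℕ), (∀ A ∈ F, ∀ B ∈ F, A ∪ B ∈ F) ∧ G ⊆ F ∧
      ∀ x ∈ S, 2 * #(F.filter (fun A => x ∈ A)) < #F := by
  by_contra hcon
  push Not at hcon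
  obtain ⟨c, hc0, ⟨x0, hx0, hcx0⟩, hc⟩ := dg_of_fc hG fun F hF hGF => hcon F hF hGF
  have h1 : ∀ x ∈ S, c x ≤
      ∑ A ∈ G.filter (fun A => x ∈ A), (∑ j ∈ A.erase x, c j) / (2 ^ (#A - 1) - 1) := by
    intro x hx
    have := nec hG hlin hG2 hc0 (hc x hx) (fun A => A.erase x) (fun A hA hxA =>
      ⟨by rw [← card_pos, card_erase_of_mem hxA]; have := hG2 A hA; omega, subset_rfl⟩)
    refine this.trans_eq (sum_congr rfl fun A hA => ?_)
    rw [card_erase_of_mem (mem_filter.1 hA).2]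
  have h2 := sum_le_sum h1
  have h3 : ∑ x ∈ S, ∑ A ∈ G.filter (fun A => x ∈ A), (∑ j ∈ A.erase x, c j) / (2 ^ (#A - 1) - 1) =
      ∑ x ∈ S, om G x * c x := by
    have e1 : ∀ x ∈ S, ∑ A ∈ G.filter (fun A => x ∈ A),
        (∑ j ∈ A.erase x, c j) / (2 ^ (#A - 1) - 1) =
        ∑ A ∈ G, if x ∈ A then (∑ j ∈ A.erase x, c j) / (2 ^ (#A - 1) - 1) else 0 :=
      fun x _ => sum_filter _ _
    have e2 : ∀ x ∈ S, om G x * c x =
        ∑ A ∈ G, if x ∈ A then ((#A : ℝ) - 1) / (2 ^ (#A - 1) - 1) * c x else 0 := by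
      intro x _
      unfold om
      rw [sum_filter, sum_mul]
      refine sum_congr rfl fun A _ => ?_
      split_ifs <;> simp
    rw [sum_congr rfl e1, sum_congr rfl e2, sum_comm, sum_comm (s := S)]
    refine sum_congr rfl fun A hA => ?_
    rw [← sum_filter, ← sum_filter, filter_mem_eq_inter, inter_eq_right.2 (hG A hA), ← sum_div]
    have e3 : ∑ x ∈ A, ∑ j ∈ A.erase x, c j = ((#A : ℝ) - 1) * ∑ j ∈ A, c j := by
      have : ∀ x ∈ A, ∑ j ∈ A.erase x, c j = ∑ j ∈ A, c j - c x := by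
        intro x hx
        rw [← add_sum_erase A c hx]; ring
      rw [sum_congr rfl this, sum_sub_distrib, sum_const, nsmul_eq_mul]; ring
    rw [e3, ← mul_sum]
    ring
  rw [h3] at h2
  have h4 : ∑ x ∈ S, om G x * c x < ∑ x ∈ S, c x := by
    refine sum_lt_sum (fun x hx => ?_) ⟨x0, hx0, ?_⟩
    · exact (mul_le_mul_of_nonneg_right (hom x hx).le (hc0 x)).trans_eq (one_mul _)
    · exact (mul_lt_mul_of_pos_right (hom x0 hx0) hcx0).trans_eq (one_mul _)
  linarith

end Pool.Agent.H61.LF
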