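import Pool.Agent.H61.LF7

set_option autoImplicit false
set_option linter.all false

/-!
# The exact criterion for linear families
-/

namespace Pool.Agent.H61.LF

open Finset Pool.Agent.H61.FC

theorem phi_nonneg {w : ℕ → ℝ} {R : Finset ℕ} (hw : ∀ j, 0 ≤ w j) : 0 ≤ phi w R := by
  rcases R.eq_empty_or_nonempty with rfl | hR
  · simp [phi]
  · obtain ⟨U, hU, hUR, e⟩ := exists_phi (w := w) hR
    rw [e]
    exact div_nonneg (sum_nonneg fun j _ => hw j) (two_pow_sub_pos hU).le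

/-- sufficiency, for all weights which satisfy the condition -/
theorem suff {F G : Finset (Finset ℕ)} {S : Finset ℕ} (hF : ∀ A ∈ F, ∀ B ∈ F, A ∪ B ∈ F)
    (hG : ∀ A ∈ G, A ⊆ S) (hGF : G ⊆ F) (hlin : Linear G)
    {c : ℕ → ℝ} (hc0 : ∀ x, 0 ≤ c x) (hpos : ∃ x ∈ S, 0 < c x)
    (hc : ∀ x ∈ S, c x ≤ ∑ A ∈ G.filter (fun A => x ∈ A), phi c (A.erase x)) :
    ∃ x ∈ S, #F ≤ 2 * #(F.filter (fun A => x ∈ A)) := by
  refine fc_of_dg hF hG hGF hc0 hpos ?_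
  intro x hx 𝒟 hD hDS hv
  have h1 := mul_le_mul_of_nonneg_right (hc x hx) (Nat.cast_nonneg (α := ℝ) #𝒟)
  refine h1.trans ?_
  rw [sum_mul]
  set I := G.filter (fun A => x ∈ A) with hI
  have hI' : ∀ A, A ∈ I ↔ A ∈ G ∧ x ∈ A := fun A => mem_filter
  have h2 : ∀ A ∈ I, phi c (A.erase x) * #𝒟 ≤ ∑ j ∈ A.erase x, c j * dg 𝒟 j := by
    intro A hA
    have hA' := (hI' A).1 hA
    exact edge_dg hD (phi_nonneg hc0) (fun U hU => phi_mul_le hU)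
      (fun D hD' h => hv D hD' A hA'.1 hA'.2 h)
  refine (sum_le_sum h2).trans ?_
  rw [← sum_biUnion (fun A hA A' hA' hne => hlin.disj ((hI' A).1 hA).1 ((hI' A').1 hA').1 hne
    ((hI' A).1 hA).2 ((hI' A').1 hA').2)]
  refine sum_le_sum_of_subset_of_nonneg (fun y hy => ?_) fun y _ _ =>
    mul_nonneg (hc0 y) (dg_nonneg hD y)
  rw [mem_biUnion] at hy
  obtain ⟨A, hA, hyA⟩ := hy
  exact erase_subset_erase _ (hG A ((hI' A).1 hA).1) hyA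

/-- **the exact criterion** -/
theorem linear_iff {G : Finset (Finset ℕ)} {S : Finset ℕ} (hG : ∀ A ∈ G, A ⊆ S)
    (hlin : Linear G) (hG2 : ∀ A ∈ G, 2 ≤ #A) :
    (∀ F : Finset (Finset ℕ), (∀ A ∈ F, ∀ B ∈ F, A ∪ B ∈ F) → G ⊆ F →
      ∃ x ∈ S, #F ≤ 2 * #(F.filter (fun A => x ∈ A))) ↔
    ∃ c : ℕ → ℝ, (∀ x, 0 ≤ c x) ∧ (∃ x ∈ S, 0 < c x) ∧
      ∀ x ∈ S, c x ≤ ∑ A ∈ G.filter (fun A => x ∈ A), phi c (A.erase x) := by
  constructor
  · intro hFC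
    obtain ⟨c, hc0, hpos, hc⟩ := dg_of_fc hG hFC
    refine ⟨c, hc0, hpos, fun x hx => ?_⟩
    have hne : ∀ A ∈ G, x ∈ A → (A.erase x).Nonempty := fun A hA hxA => by
      rw [← card_pos, card_erase_of_mem hxA]; have := hG2 A hA; omega
    have hex : ∀ A : Finset ℕ, ∃ U : Finset ℕ, A ∈ G → x ∈ A → U.Nonempty ∧ U ⊆ A.erase x ∧
        phi c (A.erase x) = (∑ j ∈ U, c j) / (2 ^ #U - 1) := by
      intro A
      by_cases h : A ∈ G ∧ x ∈ A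
      · obtain ⟨U, h1, h2, h3⟩ := exists_phi (w := c) (hne A h.1 h.2)
        exact ⟨U, fun _ _ => ⟨h1, h2, h3⟩⟩
      · exact ⟨∅, fun h1 h2 => absurd ⟨h1, h2⟩ h⟩
    choose U hU using hex
    refine (nec hG hlin hG2 hc0 (hc x hx) U fun A hA hxA =>
      ⟨(hU A hA hxA).1, (hU A hA hxA).2.1⟩).trans_eq ?_
    refine sum_congr rfl fun A hA => ?_
    have hA' := mem_filter.1 hA
    exact (hU A hA'.1 hA'.2).2.2.symm
  · rintro ⟨c, hc0, hpos, hc⟩ F hF hGF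
    exact suff hF hG hGF hlin hc0 hpos hc

end Pool.Agent.H61.LF
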