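import Pool.Agent.H61.LF8

set_option autoImplicit false
set_option linter.all false

/-!
# A linear family of given degree
-/

namespace Pool.Agent.H61.LF

open Finset Pool.Agent.H61.FC

def pt (k m a b i : ℕ) : ℕ := i + k * ((a + b * i) % m)

def blk (k m : ℕ) (p : ℕ × ℕ) : Finset ℕ := (range k).image (pt k m p.1 p.2)

theorem pt_mod {k m a b i : ℕ} (hi : i < k) : pt k m a b i % k = i := by
  unfold pt
  rw [Nat.add_mul_mod_self_left, Nat.mod_eq_of_lt hi]

theorem pt_lt {k m a b i : ℕ} (hi : i < k) (hm : 0 < m) : pt k m a b i < k * m := by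
  unfold pt
  have h := Nat.mod_lt (a + b * i) hm
  calc i + k * ((a + b * i) % m) < k + k * ((a + b * i) % m) := by omega
    _ = k * ((a + b * i) % m + 1) := by ring
    _ ≤ k * m := Nat.mul_le_mul_left k h

theorem blk_card {k m : ℕ} (p : ℕ × ℕ) : #(blk k m p) = k := by
  unfold blk
  rw [card_image_of_injOn, card_range]
  intro i hi j hj h
  have hi' := mem_range.1 (Finset.mem_coe.1 hi)
  have hj' := mem_range.1 (Finset.mem_coe.1 hj)
  have h' : pt k m p.1 p.2 i = pt k m p.1 p.2 j := h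
  rw [← pt_mod (m := m) (a := p.1) (b := p.2) hi', h', pt_mod hj']

theorem mem_blk {k m : ℕ} {p : ℕ × ℕ} {x : ℕ} (hx : x ∈ blk k m p) :
    x % k < k ∧ x = pt k m p.1 p.2 (x % k) := by
  unfold blk at hx
  rw [mem_image] at hx
  obtain ⟨i, hi, rfl⟩ := hx
  rw [mem_range] at hi
  rw [pt_mod hi]
  exact ⟨hi, rfl⟩

theorem pt_eq {k m a b a' b' i : ℕ} (hk : 0 < k) (h : pt k m a b i = pt k m a' b' i) :
    (m : ℤ) ∣ ((a' : ℤ) + b' * i) - (a + b * i) := by
  unfold pt at h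
  have h1 : k * ((a + b * i) % m) = k * ((a' + b' * i) % m) := by omega
  have h2 : (a + b * i) % m = (a' + b' * i) % m := Nat.eq_of_mul_eq_mul_left hk h1
  have h3 : (a + b * i) ≡ (a' + b' * i) [MOD m] := h2
  have h4 := (Nat.modEq_iff_dvd).1 h3
  push_cast at h4
  exact h4

theorem blk_inter {k m d : ℕ} (hk : 0 < k) (hm : d * k ≤ m) {p q : ℕ × ℕ}
    (hp1 : p.1 < m) (hp2 : p.2 < d) (hq1 : q.1 < m) (hq2 : q.2 < d)
    (h : 1 < #(blk k m p ∩ blk k m q)) : p = q := by
  obtain ⟨x, hx, y, hy, hxy⟩ := one_lt_card.1 h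
  rw [mem_inter] at hx hy
  have hxp := mem_blk hx.1
  have hxq := mem_blk hx.2
  have hyp := mem_blk hy.1
  have hyq := mem_blk hy.2
  have hne : x % k ≠ y % k := by
    intro h1
    apply hxy
    rw [hxp.2, hyp.2, h1]
  have h1 := pt_eq hk (hxp.2.symm.trans hxq.2)
  have h2 := pt_eq hk (hyp.2.symm.trans hyq.2)
  set i := x % k with hi
  set j := y % k with hj
  have h3 : (m : ℤ) ∣ ((q.2 : ℤ) - p.2) * ((i : ℤ) - j) := by
    have := dvd_sub h1 h2
    have e : ((q.1 : ℤ) + q.2 * i - (p.1 + p.2 * i)) - (q.1 + q.2 * j - (p.1 + p.2 * j)) =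
        ((q.2 : ℤ) - p.2) * ((i : ℤ) - j) := by ring
    rwa [e] at this
  have h4 : |((q.2 : ℤ) - p.2) * ((i : ℤ) - j)| < m := by
    rw [abs_mul]
    have a1 : |((q.2 : ℤ) - p.2)| < d := by
      rw [abs_lt]; constructor <;> omega
    have a2 : |((i : ℤ) - j)| < k := by
      have := hxp.1
      have := hyp.1
      rw [abs_lt]; constructor <;> omega
    have a3 : (0 : ℤ) ≤ |((q.2 : ℤ) - p.2)| := abs_nonneg _
    have a4 : (0 : ℤ) ≤ |((i : ℤ) - j)| := abs_nonneg _
    have a5 : (d : ℤ) * k ≤ m := by exact_mod_cast hm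
    have a6 : (0 : ℤ) < k := by exact_mod_cast hk
    calc |((q.2 : ℤ) - p.2)| * |((i : ℤ) - j)| ≤ |((q.2 : ℤ) - p.2)| * k :=
          mul_le_mul_of_nonneg_left a2.le a3
      _ < d * k := mul_lt_mul_of_pos_right a1 a6
      _ ≤ m := a5
  have h5 := Int.eq_zero_of_abs_lt_dvd h3 h4
  have h6 : (i : ℤ) - j ≠ 0 := by
    intro h; apply hne; omega
  have h7 : (q.2 : ℤ) - p.2 = 0 := (mul_eq_zero.1 h5).resolve_right h6
  have h8 : q.2 = p.2 := by omega
  rw [h8] at h1
  have h9 : (m : ℤ) ∣ (q.1 : ℤ) - p.1 := by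
    have e : ((q.1 : ℤ) + p.2 * i) - (p.1 + p.2 * i) = (q.1 : ℤ) - p.1 := by ring
    rwa [e] at h1
  have h10 : |(q.1 : ℤ) - p.1| < m := by rw [abs_lt]; constructor <;> omega
  have h11 := Int.eq_zero_of_abs_lt_dvd h9 h10
  exact Prod.ext (by omega) h8.symm

/-- the family -/
def KK (k m d : ℕ) : Finset (Finset ℕ) := (range m ×ˢ range d).image (blk k m)

theorem KK_inj {k m d : ℕ} (hk : 2 ≤ k) (hm : d * k ≤ m) :
    Set.InjOn (blk k m) (↑(range m ×ˢ range d) : Set (ℕ × ℕ)) := by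
  intro p hp q hq h
  rw [Finset.mem_coe, mem_product, mem_range, mem_range] at hp hq
  refine blk_inter (by omega) hm hp.1 hp.2 hq.1 hq.2 ?_
  have h' : blk k m p = blk k m q := h
  rw [h', inter_self, blk_card]
  omega

theorem KK_card {k m d : ℕ} (hk : 2 ≤ k) (hm : d * k ≤ m) : #(KK k m d) = m * d := by
  unfold KK
  rw [card_image_of_injOn (KK_inj hk hm), card_product, card_range, card_range]

theorem KK_linear {k m d : ℕ} (hk : 2 ≤ k) (hm : d * k ≤ m) : Linear (KK k m d) := by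
  intro A hA B hB hne
  unfold KK at hA hB
  rw [mem_image] at hA hB
  obtain ⟨p, hp, rfl⟩ := hA
  obtain ⟨q, hq, rfl⟩ := hB
  rw [mem_product, mem_range, mem_range] at hp hq
  by_contra hcon
  push Not at hcon
  exact hne (by rw [blk_inter (by omega) hm hp.1 hp.2 hq.1 hq.2 hcon])

theorem KK_mem {k m d : ℕ} (hm0 : 0 < m) {A : Finset ℕ} (hA : A ∈ KK k m d) :
    A ⊆ range (k * m) ∧ #A = k := by
  unfold KK at hA
  rw [mem_image] at hA
  obtain ⟨p, hp, rfl⟩ := hA
  refine ⟨fun x hx => ?_, blk_card p⟩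
  have := mem_blk hx
  rw [this.2, mem_range]
  exact pt_lt this.1 hm0

theorem KK_deg {k m d : ℕ} (hk : 2 ≤ k) (hm : d * k ≤ m) (x : ℕ) :
    #((KK k m d).filter (fun A => x ∈ A)) ≤ d := by
  have h1 : (KK k m d).filter (fun A => x ∈ A) ⊆
      (((range m ×ˢ range d).filter (fun p => x ∈ blk k m p)).image (blk k m)) := by
    intro A hA
    rw [mem_filter] at hA
    obtain ⟨hA, hx⟩ := hA
    unfold KK at hA
    rw [mem_image] at hA ⊢
    obtain ⟨p, hp, rfl⟩ := hA
    exact ⟨p, mem_filter.2 ⟨hp, hx⟩, rfl⟩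
  refine (card_le_card h1).trans (card_image_le.trans ?_)
  have h2 : #((range m ×ˢ range d).filter (fun p => x ∈ blk k m p)) ≤ #(range d) := by
    refine card_le_card_of_injOn (fun p => p.2) ?_ ?_
    · intro p hp
      have := (mem_filter.1 (Finset.mem_coe.1 hp)).1
      exact (mem_product.1 this).2
    · intro p hp q hq h
      have hp' := mem_filter.1 (Finset.mem_coe.1 hp)
      have hq' := mem_filter.1 (Finset.mem_coe.1 hq)
      have h' : p.2 = q.2 := h
      rw [mem_product, mem_range, mem_range] at hp' hq'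
      have g1 := mem_blk hp'.2
      have g2 := mem_blk hq'.2
      have g3 := pt_eq (by omega) (g1.2.symm.trans g2.2)
      rw [h'] at g3
      have h9 : (m : ℤ) ∣ (q.1 : ℤ) - p.1 := by
        have e : ((q.1 : ℤ) + q.2 * (x % k : ℕ)) - (p.1 + q.2 * (x % k : ℕ)) =
          (q.1 : ℤ) - p.1 := by ring
        rwa [e] at g3
      have h10 : |(q.1 : ℤ) - p.1| < m := by
        have := hp'.1.1
        have := hq'.1.1
        rw [abs_lt]; constructor <;> omega
      have h11 := Int.eq_zero_of_abs_lt_dvd h9 h10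
      exact Prod.ext (by omega) h'
  rwa [card_range] at h2

theorem om_uniform {G : Finset (Finset ℕ)} {k : ℕ} (hG : ∀ A ∈ G, #A = k) (x : ℕ) :
    om G x = #(G.filter (fun A => x ∈ A)) * (((k : ℝ) - 1) / (2 ^ (k - 1) - 1)) := by
  unfold om
  rw [← nsmul_eq_mul, ← sum_const]
  exact sum_congr rfl fun A hA => by rw [hG A (mem_filter.1 hA).1]

theorem pow_pos' {k : ℕ} (hk : 2 ≤ k) : (0 : ℝ) < 2 ^ (k - 1) - 1 := by
  have : (2 : ℝ) ^ 1 ≤ 2 ^ (k - 1) := pow_le_pow_right₀ (by norm_num) (by omega)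
  linarith

/-- there are linear families of this size which do not force anything -/
theorem lower {k d n : ℕ} (hk : 2 ≤ k) (hd : d * (k - 1) + 1 < 2 ^ (k - 1)) (hn : k * (d * k) ≤ n)
    (hn0 : k ≤ n) :
    ∃ F : Finset (Finset ℕ), (∀ A ∈ F, ∀ B ∈ F, A ∪ B ∈ F) ∧ KK k (n / k) d ⊆ F ∧
      ∀ x ∈ range n, 2 * #(F.filter (fun A => x ∈ A)) < #F := by
  have hkp : 0 < k := by omega
  have hm : d * k ≤ n / k := by
    rw [Nat.le_div_iff_mul_le hkp, mul_comm]
    exact hn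
  have hm0 : 0 < n / k := Nat.div_pos hn0 hkp
  have hkm : k * (n / k) ≤ n := Nat.mul_div_le n k
  refine not_fc (fun A hA => (KK_mem hm0 hA).1.trans (range_subset_range.2 hkm))
    (KK_linear hk hm) (fun A hA => by rw [(KK_mem hm0 hA).2]; exact hk) ?_
  intro x _
  rw [om_uniform (fun A hA => (KK_mem hm0 hA).2)]
  have h1 : (#((KK k (n / k) d).filter (fun A => x ∈ A)) : ℝ) ≤ d := by
    exact_mod_cast KK_deg hk hm x
  have hp := pow_pos' hk
  have h2 : (d : ℝ) * (k - 1) + 1 < 2 ^ (k - 1) := by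
    have h3 : ((d * (k - 1) + 1 : ℕ) : ℝ) < ((2 ^ (k - 1) : ℕ) : ℝ) := by exact_mod_cast hd
    push_cast [Nat.cast_sub (by omega : 1 ≤ k)] at h3
    exact h3
  have hk1 : (0 : ℝ) ≤ k - 1 := by
    have : (2 : ℝ) ≤ k := by exact_mod_cast hk
    linarith
  rw [mul_div_assoc', div_lt_one hp]
  have := mul_le_mul_of_nonneg_right h1 hk1
  linarith

end Pool.Agent.H61.LF
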