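import Pool.Agent.H61.Cx

set_option autoImplicit false
set_option linter.all false

/-!
# Local inequalities, numerical cases
-/

namespace Pool.Agent.H61.FC

open Finset

variable {α : Type*} [DecidableEq α]

/-- path with two edges, center `a` -/
theorem star2_D {𝒟 : Finset (Finset α)} (h : Dn 𝒟) {a b c : α} (hab : a ≠ b) (hac : a ≠ c) (hbc : b ≠ c)
    (eab : ∀ D ∈ 𝒟, ¬ (a ∈ D ∧ b ∈ D)) (eac : ∀ D ∈ 𝒟, ¬ (a ∈ D ∧ c ∈ D)) :
    2 * (𝒟.card : ℝ) ≤ 2 * dg 𝒟 a + (8/3) * dg 𝒟 b + (4/3) * dg 𝒟 c := by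
  have hs := q3_sumP 𝒟 a b c (fun _ => True)
  have hs0 := q3_sumP 𝒟 a b c (fun x => x.1 = true)
  have hs1 := q3_sumP 𝒟 a b c (fun x => x.2.1 = true)
  have hs2 := q3_sumP 𝒟 a b c (fun x => x.2.2 = true)
  simp only [Fintype.sum_prod_type, Fintype.sum_bool, filter_true, decide_eq_true_eq, if_true,
    if_false, Bool.false_eq_true, reduceIte, add_zero, zero_add] at hs hs0 hs1 hs2
  have z111 : q3 𝒟 a b c (true, true, true) = 0 := q3_zero (fun D hD hh => by
    simp only [Prod.mk.injEq, decide_eq_true_eq, decide_eq_false_iff_not] at hh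
    exact eab D hD (by tauto))
  have z110 : q3 𝒟 a b c (true, true, false) = 0 := q3_zero (fun D hD hh => by
    simp only [Prod.mk.injEq, decide_eq_true_eq, decide_eq_false_iff_not] at hh
    exact eab D hD (by tauto))
  have z101 : q3 𝒟 a b c (true, false, true) = 0 := q3_zero (fun D hD hh => by
    simp only [Prod.mk.injEq, decide_eq_true_eq, decide_eq_false_iff_not] at hh
    exact eac D hD (by tauto))
  have m100_0 := q3_mono1 h hab hac false false
  have m011_1 := q3_mono2 h hab hbc false true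
  have m011_2 := q3_mono3 h hac hbc false true
  have m010_1 := q3_mono2 h hab hbc false false
  have m001_2 := q3_mono3 h hac hbc false false
  simp only [z111, z110, z101, add_zero, zero_add] at hs hs0 hs1 hs2
  unfold dg
  replace hs := congrArg (Nat.cast (R := ℝ)) hs
  replace hs0 := congrArg (Nat.cast (R := ℝ)) hs0
  replace hs1 := congrArg (Nat.cast (R := ℝ)) hs1
  replace hs2 := congrArg (Nat.cast (R := ℝ)) hs2
  replace m100_0 := (Nat.cast_le (α := ℝ)).2 m100_0
  replace m011_1 := (Nat.cast_le (α := ℝ)).2 m011_1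
  replace m011_2 := (Nat.cast_le (α := ℝ)).2 m011_2
  replace m010_1 := (Nat.cast_le (α := ℝ)).2 m010_1
  replace m001_2 := (Nat.cast_le (α := ℝ)).2 m001_2
  push_cast at hs hs0 hs1 hs2
  linarith [Nat.cast_nonneg (α := ℝ) (q3 𝒟 a b c (true, false, false)), Nat.cast_nonneg (α := ℝ) (q3 𝒟 a b c (false, true, true)), Nat.cast_nonneg (α := ℝ) (q3 𝒟 a b c (false, true, false)), Nat.cast_nonneg (α := ℝ) (q3 𝒟 a b c (false, false, true)), Nat.cast_nonneg (α := ℝ) (q3 𝒟 a b c (false, false, false))]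

theorem star2_E {𝒟 : Finset (Finset α)} (h : Dn 𝒟) {a b c : α} (hab : a ≠ b) (hac : a ≠ c) (hbc : b ≠ c)
    (eab : ∀ D ∈ 𝒟, ¬ (a ∈ D ∧ b ∈ D)) (eac : ∀ D ∈ 𝒟, ¬ (a ∈ D ∧ c ∈ D)) :
    (12/5) * (𝒟.card : ℝ) ≤ 3 * dg 𝒟 a + (9/5) * dg 𝒟 b + (9/5) * dg 𝒟 c := by
  have hs := q3_sumP 𝒟 a b c (fun _ => True)
  have hs0 := q3_sumP 𝒟 a b c (fun x => x.1 = true)
  have hs1 := q3_sumP 𝒟 a b c (fun x => x.2.1 = true)
  have hs2 := q3_sumP 𝒟 a b c (fun x => x.2.2 = true)
  simp only [Fintype.sum_prod_type, Fintype.sum_bool, filter_true, decide_eq_true_eq, if_true,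
    if_false, Bool.false_eq_true, reduceIte, add_zero, zero_add] at hs hs0 hs1 hs2
  have z111 : q3 𝒟 a b c (true, true, true) = 0 := q3_zero (fun D hD hh => by
    simp only [Prod.mk.injEq, decide_eq_true_eq, decide_eq_false_iff_not] at hh
    exact eab D hD (by tauto))
  have z110 : q3 𝒟 a b c (true, true, false) = 0 := q3_zero (fun D hD hh => by
    simp only [Prod.mk.injEq, decide_eq_true_eq, decide_eq_false_iff_not] at hh
    exact eab D hD (by tauto))
  have z101 : q3 𝒟 a b c (true, false, true) = 0 := q3_zero (fun D hD hh => by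
    simp only [Prod.mk.injEq, decide_eq_true_eq, decide_eq_false_iff_not] at hh
    exact eac D hD (by tauto))
  have m100_0 := q3_mono1 h hab hac false false
  have m011_1 := q3_mono2 h hab hbc false true
  have m011_2 := q3_mono3 h hac hbc false true
  have m010_1 := q3_mono2 h hab hbc false false
  have m001_2 := q3_mono3 h hac hbc false false
  simp only [z111, z110, z101, add_zero, zero_add] at hs hs0 hs1 hs2
  unfold dg
  replace hs := congrArg (Nat.cast (R := ℝ)) hs
  replace hs0 := congrArg (Nat.cast (R := ℝ)) hs0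
  replace hs1 := congrArg (Nat.cast (R := ℝ)) hs1
  replace hs2 := congrArg (Nat.cast (R := ℝ)) hs2
  replace m100_0 := (Nat.cast_le (α := ℝ)).2 m100_0
  replace m011_1 := (Nat.cast_le (α := ℝ)).2 m011_1
  replace m011_2 := (Nat.cast_le (α := ℝ)).2 m011_2
  replace m010_1 := (Nat.cast_le (α := ℝ)).2 m010_1
  replace m001_2 := (Nat.cast_le (α := ℝ)).2 m001_2
  push_cast at hs hs0 hs1 hs2
  linarith [Nat.cast_nonneg (α := ℝ) (q3 𝒟 a b c (true, false, false)), Nat.cast_nonneg (α := ℝ) (q3 𝒟 a b c (false, true, true)), Nat.cast_nonneg (α := ℝ) (q3 𝒟 a b c (false, true, false)), Nat.cast_nonneg (α := ℝ) (q3 𝒟 a b c (false, false, true)), Nat.cast_nonneg (α := ℝ) (q3 𝒟 a b c (false, false, false))]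

theorem star2_S {𝒟 : Finset (Finset α)} (h : Dn 𝒟) {a b c : α} (hab : a ≠ b) (hac : a ≠ c) (hbc : b ≠ c)
    (eab : ∀ D ∈ 𝒟, ¬ (a ∈ D ∧ b ∈ D)) (eac : ∀ D ∈ 𝒟, ¬ (a ∈ D ∧ c ∈ D)) :
    (54/25) * (𝒟.card : ℝ) ≤ (12/5) * dg 𝒟 a + (9/5) * dg 𝒟 b + (9/5) * dg 𝒟 c := by
  have hs := q3_sumP 𝒟 a b c (fun _ => True)
  have hs0 := q3_sumP 𝒟 a b c (fun x => x.1 = true)
  have hs1 := q3_sumP 𝒟 a b c (fun x => x.2.1 = true)
  have hs2 := q3_sumP 𝒟 a b c (fun x => x.2.2 = true)
  simp only [Fintype.sum_prod_type, Fintype.sum_bool, filter_true, decide_eq_true_eq, if_true,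
    if_false, Bool.false_eq_true, reduceIte, add_zero, zero_add] at hs hs0 hs1 hs2
  have z111 : q3 𝒟 a b c (true, true, true) = 0 := q3_zero (fun D hD hh => by
    simp only [Prod.mk.injEq, decide_eq_true_eq, decide_eq_false_iff_not] at hh
    exact eab D hD (by tauto))
  have z110 : q3 𝒟 a b c (true, true, false) = 0 := q3_zero (fun D hD hh => by
    simp only [Prod.mk.injEq, decide_eq_true_eq, decide_eq_false_iff_not] at hh
    exact eab D hD (by tauto))
  have z101 : q3 𝒟 a b c (true, false, true) = 0 := q3_zero (fun D hD hh => by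
    simp only [Prod.mk.injEq, decide_eq_true_eq, decide_eq_false_iff_not] at hh
    exact eac D hD (by tauto))
  have m100_0 := q3_mono1 h hab hac false false
  have m011_1 := q3_mono2 h hab hbc false true
  have m011_2 := q3_mono3 h hac hbc false true
  have m010_1 := q3_mono2 h hab hbc false false
  have m001_2 := q3_mono3 h hac hbc false false
  simp only [z111, z110, z101, add_zero, zero_add] at hs hs0 hs1 hs2
  unfold dg
  replace hs := congrArg (Nat.cast (R := ℝ)) hs
  replace hs0 := congrArg (Nat.cast (R := ℝ)) hs0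
  replace hs1 := congrArg (Nat.cast (R := ℝ)) hs1
  replace hs2 := congrArg (Nat.cast (R := ℝ)) hs2
  replace m100_0 := (Nat.cast_le (α := ℝ)).2 m100_0
  replace m011_1 := (Nat.cast_le (α := ℝ)).2 m011_1
  replace m011_2 := (Nat.cast_le (α := ℝ)).2 m011_2
  replace m010_1 := (Nat.cast_le (α := ℝ)).2 m010_1
  replace m001_2 := (Nat.cast_le (α := ℝ)).2 m001_2
  push_cast at hs hs0 hs1 hs2
  linarith [Nat.cast_nonneg (α := ℝ) (q3 𝒟 a b c (true, false, false)), Nat.cast_nonneg (α := ℝ) (q3 𝒟 a b c (false, true, true)), Nat.cast_nonneg (α := ℝ) (q3 𝒟 a b c (false, true, false)), Nat.cast_nonneg (α := ℝ) (q3 𝒟 a b c (false, false, true)), Nat.cast_nonneg (α := ℝ) (q3 𝒟 a b c (false, false, false))]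

theorem tri_S {𝒟 : Finset (Finset α)} (h : Dn 𝒟) {a b c : α} (hab : a ≠ b) (hac : a ≠ c) (hbc : b ≠ c)
    (eab : ∀ D ∈ 𝒟, ¬ (a ∈ D ∧ b ∈ D)) (eac : ∀ D ∈ 𝒟, ¬ (a ∈ D ∧ c ∈ D)) (ebc : ∀ D ∈ 𝒟, ¬ (b ∈ D ∧ c ∈ D)) :
    3 * (𝒟.card : ℝ) ≤ (12/5) * dg 𝒟 a + (12/5) * dg 𝒟 b + (12/5) * dg 𝒟 c := by
  have hs := q3_sumP 𝒟 a b c (fun _ => True)
  have hs0 := q3_sumP 𝒟 a b c (fun x => x.1 = true)
  have hs1 := q3_sumP 𝒟 a b c (fun x => x.2.1 = true)
  have hs2 := q3_sumP 𝒟 a b c (fun x => x.2.2 = true)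
  simp only [Fintype.sum_prod_type, Fintype.sum_bool, filter_true, decide_eq_true_eq, if_true,
    if_false, Bool.false_eq_true, reduceIte, add_zero, zero_add] at hs hs0 hs1 hs2
  have z111 : q3 𝒟 a b c (true, true, true) = 0 := q3_zero (fun D hD hh => by
    simp only [Prod.mk.injEq, decide_eq_true_eq, decide_eq_false_iff_not] at hh
    exact eab D hD (by tauto))
  have z110 : q3 𝒟 a b c (true, true, false) = 0 := q3_zero (fun D hD hh => by
    simp only [Prod.mk.injEq, decide_eq_true_eq, decide_eq_false_iff_not] at hh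
    exact eab D hD (by tauto))
  have z101 : q3 𝒟 a b c (true, false, true) = 0 := q3_zero (fun D hD hh => by
    simp only [Prod.mk.injEq, decide_eq_true_eq, decide_eq_false_iff_not] at hh
    exact eac D hD (by tauto))
  have z011 : q3 𝒟 a b c (false, true, true) = 0 := q3_zero (fun D hD hh => by
    simp only [Prod.mk.injEq, decide_eq_true_eq, decide_eq_false_iff_not] at hh
    exact ebc D hD (by tauto))
  have m100_0 := q3_mono1 h hab hac false false
  have m010_1 := q3_mono2 h hab hbc false false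
  have m001_2 := q3_mono3 h hac hbc false false
  simp only [z111, z110, z101, z011, add_zero, zero_add] at hs hs0 hs1 hs2
  unfold dg
  replace hs := congrArg (Nat.cast (R := ℝ)) hs
  replace hs0 := congrArg (Nat.cast (R := ℝ)) hs0
  replace hs1 := congrArg (Nat.cast (R := ℝ)) hs1
  replace hs2 := congrArg (Nat.cast (R := ℝ)) hs2
  replace m100_0 := (Nat.cast_le (α := ℝ)).2 m100_0
  replace m010_1 := (Nat.cast_le (α := ℝ)).2 m010_1
  replace m001_2 := (Nat.cast_le (α := ℝ)).2 m001_2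
  push_cast at hs hs0 hs1 hs2
  linarith [Nat.cast_nonneg (α := ℝ) (q3 𝒟 a b c (true, false, false)), Nat.cast_nonneg (α := ℝ) (q3 𝒟 a b c (false, true, false)), Nat.cast_nonneg (α := ℝ) (q3 𝒟 a b c (false, false, true)), Nat.cast_nonneg (α := ℝ) (q3 𝒟 a b c (false, false, false))]

theorem star3_S {𝒟 : Finset (Finset α)} (h : Dn 𝒟) {a b c d : α} (hab : a ≠ b) (hac : a ≠ c) (had : a ≠ d) (hbc : b ≠ c) (hbd : b ≠ d) (hcd : c ≠ d)
    (eab : ∀ D ∈ 𝒟, ¬ (a ∈ D ∧ b ∈ D)) (eac : ∀ D ∈ 𝒟, ¬ (a ∈ D ∧ c ∈ D)) (ead : ∀ D ∈ 𝒟, ¬ (a ∈ D ∧ d ∈ D)) :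
    3 * (𝒟.card : ℝ) ≤ 3 * dg 𝒟 a + 2 * dg 𝒟 b + 2 * dg 𝒟 c + 2 * dg 𝒟 d := by
  have hs := q4_sumP 𝒟 a b c d (fun _ => True)
  have hs0 := q4_sumP 𝒟 a b c d (fun x => x.1 = true)
  have hs1 := q4_sumP 𝒟 a b c d (fun x => x.2.1 = true)
  have hs2 := q4_sumP 𝒟 a b c d (fun x => x.2.2.1 = true)
  have hs3 := q4_sumP 𝒟 a b c d (fun x => x.2.2.2 = true)
  simp only [Fintype.sum_prod_type, Fintype.sum_bool, filter_true, decide_eq_true_eq, if_true,
    if_false, Bool.false_eq_true, reduceIte, add_zero, zero_add] at hs hs0 hs1 hs2 hs3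
  have z1111 : q4 𝒟 a b c d (true, true, true, true) = 0 := q4_zero (fun D hD hh => by
    simp only [Prod.mk.injEq, decide_eq_true_eq, decide_eq_false_iff_not] at hh
    exact eab D hD (by tauto))
  have z1110 : q4 𝒟 a b c d (true, true, true, false) = 0 := q4_zero (fun D hD hh => by
    simp only [Prod.mk.injEq, decide_eq_true_eq, decide_eq_false_iff_not] at hh
    exact eab D hD (by tauto))
  have z1101 : q4 𝒟 a b c d (true, true, false, true) = 0 := q4_zero (fun D hD hh => by
    simp only [Prod.mk.injEq, decide_eq_true_eq, decide_eq_false_iff_not] at hh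
    exact eab D hD (by tauto))
  have z1100 : q4 𝒟 a b c d (true, true, false, false) = 0 := q4_zero (fun D hD hh => by
    simp only [Prod.mk.injEq, decide_eq_true_eq, decide_eq_false_iff_not] at hh
    exact eab D hD (by tauto))
  have z1011 : q4 𝒟 a b c d (true, false, true, true) = 0 := q4_zero (fun D hD hh => by
    simp only [Prod.mk.injEq, decide_eq_true_eq, decide_eq_false_iff_not] at hh
    exact eac D hD (by tauto))
  have z1010 : q4 𝒟 a b c d (true, false, true, false) = 0 := q4_zero (fun D hD hh => by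
    simp only [Prod.mk.injEq, decide_eq_true_eq, decide_eq_false_iff_not] at hh
    exact eac D hD (by tauto))
  have z1001 : q4 𝒟 a b c d (true, false, false, true) = 0 := q4_zero (fun D hD hh => by
    simp only [Prod.mk.injEq, decide_eq_true_eq, decide_eq_false_iff_not] at hh
    exact ead D hD (by tauto))
  have m1000_0 := q4_mono1 h hab hac had false false false
  have m0111_1 := q4_mono2 h hab hbc hbd false true true
  have m0111_2 := q4_mono3 h hac hbc hcd false true true
  have m0111_3 := q4_mono4 h had hbd hcd false true true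
  have m0110_1 := q4_mono2 h hab hbc hbd false true false
  have m0110_2 := q4_mono3 h hac hbc hcd false true false
  have m0101_1 := q4_mono2 h hab hbc hbd false false true
  have m0101_3 := q4_mono4 h had hbd hcd false true false
  have m0100_1 := q4_mono2 h hab hbc hbd false false false
  have m0011_2 := q4_mono3 h hac hbc hcd false false true
  have m0011_3 := q4_mono4 h had hbd hcd false false true
  have m0010_2 := q4_mono3 h hac hbc hcd false false false
  have m0001_3 := q4_mono4 h had hbd hcd false false false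
  simp only [z1111, z1110, z1101, z1100, z1011, z1010, z1001, add_zero, zero_add] at hs hs0 hs1 hs2 hs3
  unfold dg
  replace hs := congrArg (Nat.cast (R := ℝ)) hs
  replace hs0 := congrArg (Nat.cast (R := ℝ)) hs0
  replace hs1 := congrArg (Nat.cast (R := ℝ)) hs1
  replace hs2 := congrArg (Nat.cast (R := ℝ)) hs2
  replace hs3 := congrArg (Nat.cast (R := ℝ)) hs3
  replace m1000_0 := (Nat.cast_le (α := ℝ)).2 m1000_0
  replace m0111_1 := (Nat.cast_le (α := ℝ)).2 m0111_1
  replace m0111_2 := (Nat.cast_le (α := ℝ)).2 m0111_2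
  replace m0111_3 := (Nat.cast_le (α := ℝ)).2 m0111_3
  replace m0110_1 := (Nat.cast_le (α := ℝ)).2 m0110_1
  replace m0110_2 := (Nat.cast_le (α := ℝ)).2 m0110_2
  replace m0101_1 := (Nat.cast_le (α := ℝ)).2 m0101_1
  replace m0101_3 := (Nat.cast_le (α := ℝ)).2 m0101_3
  replace m0100_1 := (Nat.cast_le (α := ℝ)).2 m0100_1
  replace m0011_2 := (Nat.cast_le (α := ℝ)).2 m0011_2
  replace m0011_3 := (Nat.cast_le (α := ℝ)).2 m0011_3
  replace m0010_2 := (Nat.cast_le (α := ℝ)).2 m0010_2
  replace m0001_3 := (Nat.cast_le (α := ℝ)).2 m0001_3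
  push_cast at hs hs0 hs1 hs2 hs3
  linarith [Nat.cast_nonneg (α := ℝ) (q4 𝒟 a b c d (true, false, false, false)), Nat.cast_nonneg (α := ℝ) (q4 𝒟 a b c d (false, true, true, true)), Nat.cast_nonneg (α := ℝ) (q4 𝒟 a b c d (false, true, true, false)), Nat.cast_nonneg (α := ℝ) (q4 𝒟 a b c d (false, true, false, true)), Nat.cast_nonneg (α := ℝ) (q4 𝒟 a b c d (false, true, false, false)), Nat.cast_nonneg (α := ℝ) (q4 𝒟 a b c d (false, false, true, true)), Nat.cast_nonneg (α := ℝ) (q4 𝒟 a b c d (false, false, true, false)), Nat.cast_nonneg (α := ℝ) (q4 𝒟 a b c d (false, false, false, true)), Nat.cast_nonneg (α := ℝ) (q4 𝒟 a b c d (false, false, false, false))]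

theorem path4_S {𝒟 : Finset (Finset α)} (h : Dn 𝒟) {a b c d : α} (hab : a ≠ b) (hac : a ≠ c) (had : a ≠ d) (hbc : b ≠ c) (hbd : b ≠ d) (hcd : c ≠ d)
    (eab : ∀ D ∈ 𝒟, ¬ (a ∈ D ∧ b ∈ D)) (ebc : ∀ D ∈ 𝒟, ¬ (b ∈ D ∧ c ∈ D)) (ecd : ∀ D ∈ 𝒟, ¬ (c ∈ D ∧ d ∈ D)) :
    3 * (𝒟.card : ℝ) ≤ (9/5) * dg 𝒟 a + (12/5) * dg 𝒟 b + (12/5) * dg 𝒟 c + (9/5) * dg 𝒟 d := by
  have hs := q4_sumP 𝒟 a b c d (fun _ => True)
  have hs0 := q4_sumP 𝒟 a b c d (fun x => x.1 = true)
  have hs1 := q4_sumP 𝒟 a b c d (fun x => x.2.1 = true)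
  have hs2 := q4_sumP 𝒟 a b c d (fun x => x.2.2.1 = true)
  have hs3 := q4_sumP 𝒟 a b c d (fun x => x.2.2.2 = true)
  simp only [Fintype.sum_prod_type, Fintype.sum_bool, filter_true, decide_eq_true_eq, if_true,
    if_false, Bool.false_eq_true, reduceIte, add_zero, zero_add] at hs hs0 hs1 hs2 hs3
  have z1111 : q4 𝒟 a b c d (true, true, true, true) = 0 := q4_zero (fun D hD hh => by
    simp only [Prod.mk.injEq, decide_eq_true_eq, decide_eq_false_iff_not] at hh
    exact eab D hD (by tauto))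
  have z1110 : q4 𝒟 a b c d (true, true, true, false) = 0 := q4_zero (fun D hD hh => by
    simp only [Prod.mk.injEq, decide_eq_true_eq, decide_eq_false_iff_not] at hh
    exact eab D hD (by tauto))
  have z1101 : q4 𝒟 a b c d (true, true, false, true) = 0 := q4_zero (fun D hD hh => by
    simp only [Prod.mk.injEq, decide_eq_true_eq, decide_eq_false_iff_not] at hh
    exact eab D hD (by tauto))
  have z1100 : q4 𝒟 a b c d (true, true, false, false) = 0 := q4_zero (fun D hD hh => by
    simp only [Prod.mk.injEq, decide_eq_true_eq, decide_eq_false_iff_not] at hh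
    exact eab D hD (by tauto))
  have z1011 : q4 𝒟 a b c d (true, false, true, true) = 0 := q4_zero (fun D hD hh => by
    simp only [Prod.mk.injEq, decide_eq_true_eq, decide_eq_false_iff_not] at hh
    exact ecd D hD (by tauto))
  have z0111 : q4 𝒟 a b c d (false, true, true, true) = 0 := q4_zero (fun D hD hh => by
    simp only [Prod.mk.injEq, decide_eq_true_eq, decide_eq_false_iff_not] at hh
    exact ebc D hD (by tauto))
  have z0110 : q4 𝒟 a b c d (false, true, true, false) = 0 := q4_zero (fun D hD hh => by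
    simp only [Prod.mk.injEq, decide_eq_true_eq, decide_eq_false_iff_not] at hh
    exact ebc D hD (by tauto))
  have z0011 : q4 𝒟 a b c d (false, false, true, true) = 0 := q4_zero (fun D hD hh => by
    simp only [Prod.mk.injEq, decide_eq_true_eq, decide_eq_false_iff_not] at hh
    exact ecd D hD (by tauto))
  have m1010_0 := q4_mono1 h hab hac had false true false
  have m1010_2 := q4_mono3 h hac hbc hcd true false false
  have m1001_0 := q4_mono1 h hab hac had false false true
  have m1001_3 := q4_mono4 h had hbd hcd true false false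
  have m1000_0 := q4_mono1 h hab hac had false false false
  have m0101_1 := q4_mono2 h hab hbc hbd false false true
  have m0101_3 := q4_mono4 h had hbd hcd false true false
  have m0100_1 := q4_mono2 h hab hbc hbd false false false
  have m0010_2 := q4_mono3 h hac hbc hcd false false false
  have m0001_3 := q4_mono4 h had hbd hcd false false false
  simp only [z1111, z1110, z1101, z1100, z1011, z0111, z0110, z0011, add_zero, zero_add] at hs hs0 hs1 hs2 hs3
  unfold dg
  replace hs := congrArg (Nat.cast (R := ℝ)) hs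
  replace hs0 := congrArg (Nat.cast (R := ℝ)) hs0
  replace hs1 := congrArg (Nat.cast (R := ℝ)) hs1
  replace hs2 := congrArg (Nat.cast (R := ℝ)) hs2
  replace hs3 := congrArg (Nat.cast (R := ℝ)) hs3
  replace m1010_0 := (Nat.cast_le (α := ℝ)).2 m1010_0
  replace m1010_2 := (Nat.cast_le (α := ℝ)).2 m1010_2
  replace m1001_0 := (Nat.cast_le (α := ℝ)).2 m1001_0
  replace m1001_3 := (Nat.cast_le (α := ℝ)).2 m1001_3
  replace m1000_0 := (Nat.cast_le (α := ℝ)).2 m1000_0
  replace m0101_1 := (Nat.cast_le (α := ℝ)).2 m0101_1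
  replace m0101_3 := (Nat.cast_le (α := ℝ)).2 m0101_3
  replace m0100_1 := (Nat.cast_le (α := ℝ)).2 m0100_1
  replace m0010_2 := (Nat.cast_le (α := ℝ)).2 m0010_2
  replace m0001_3 := (Nat.cast_le (α := ℝ)).2 m0001_3
  push_cast at hs hs0 hs1 hs2 hs3
  linarith [Nat.cast_nonneg (α := ℝ) (q4 𝒟 a b c d (true, false, true, false)), Nat.cast_nonneg (α := ℝ) (q4 𝒟 a b c d (true, false, false, true)), Nat.cast_nonneg (α := ℝ) (q4 𝒟 a b c d (true, false, false, false)), Nat.cast_nonneg (α := ℝ) (q4 𝒟 a b c d (false, true, false, true)), Nat.cast_nonneg (α := ℝ) (q4 𝒟 a b c d (false, true, false, false)), Nat.cast_nonneg (α := ℝ) (q4 𝒟 a b c d (false, false, true, false)), Nat.cast_nonneg (α := ℝ) (q4 𝒟 a b c d (false, false, false, true)), Nat.cast_nonneg (α := ℝ) (q4 𝒟 a b c d (false, false, false, false))]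

end Pool.Agent.H61.FC
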