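import Pool.Agent.H61.Star

set_option autoImplicit false
set_option linter.all false

/-!
# More local inequalities, numerical cases
-/

namespace Pool.Agent.H61.FC

open Finset

variable {α : Type*} [DecidableEq α]

theorem tri_one {𝒟 : Finset (Finset α)} (h : Dn 𝒟) {a b c : α} (hab : a ≠ b) (hac : a ≠ c) (hbc : b ≠ c)
    (eab : ∀ D ∈ 𝒟, ¬ (a ∈ D ∧ b ∈ D)) (eac : ∀ D ∈ 𝒟, ¬ (a ∈ D ∧ c ∈ D)) (ebc : ∀ D ∈ 𝒟, ¬ (b ∈ D ∧ c ∈ D)) :
    1 * (𝒟.card : ℝ) ≤ 1 * dg 𝒟 a + 1 * dg 𝒟 b + 1 * dg 𝒟 c := by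
  have hs := q3_sumP 𝒟 a b c (fun _ => True)
  have hs0 := q3_sumP 𝒟 a b c (fun x => x.1 = true)
  have hs1 := q3_sumP 𝒟 a b c (fun x => x.2.1 = true)
  have hs2 := q3_sumP 𝒟 a b c (fun x => x.2.2 = true)
  simp only [Fintype.sum_prod_type, Fintype.sum_bool, filter_true, decide_eq_true_eq, if_true,
    if_false, Bool.false_eq_true, reduceIte, add_zero, zero_add] at hs hs0 hs1 hs2
  have z111 : q3 𝒟 a b c (true, true, true) = 0 := q3_zero (fun D hD hh => by
    simp only [Prod.mk.injEq, decide_eq_true_eq, decide_eq_false_iff_not] at hh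
    exact eab D hD (by tauto))
  have z110 : q3 𝒟 a b c (true, true, false) = 0 := q3_zero (fun D hD hh => by
    simp only [Prod.mk.injEq, decide_eq_true_eq, decide_eq_false_iff_not] at hh
    exact eab D hD (by tauto))
  have z101 : q3 𝒟 a b c (true, false, true) = 0 := q3_zero (fun D hD hh => by
    simp only [Prod.mk.injEq, decide_eq_true_eq, decide_eq_false_iff_not] at hh
    exact eac D hD (by tauto))
  have z011 : q3 𝒟 a b c (false, true, true) = 0 := q3_zero (fun D hD hh => by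
    simp only [Prod.mk.injEq, decide_eq_true_eq, decide_eq_false_iff_not] at hh
    exact ebc D hD (by tauto))
  have m100_0 := q3_mono1 h hab hac false false
  have m010_1 := q3_mono2 h hab hbc false false
  have m001_2 := q3_mono3 h hac hbc false false
  simp only [z111, z110, z101, z011, add_zero, zero_add] at hs hs0 hs1 hs2
  unfold dg
  replace hs := congrArg (Nat.cast (R := ℝ)) hs
  replace hs0 := congrArg (Nat.cast (R := ℝ)) hs0
  replace hs1 := congrArg (Nat.cast (R := ℝ)) hs1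
  replace hs2 := congrArg (Nat.cast (R := ℝ)) hs2
  replace m100_0 := (Nat.cast_le (α := ℝ)).2 m100_0
  replace m010_1 := (Nat.cast_le (α := ℝ)).2 m010_1
  replace m001_2 := (Nat.cast_le (α := ℝ)).2 m001_2
  push_cast at hs hs0 hs1 hs2
  linarith [Nat.cast_nonneg (α := ℝ) (q3 𝒟 a b c (true, false, false)), Nat.cast_nonneg (α := ℝ) (q3 𝒟 a b c (false, true, false)), Nat.cast_nonneg (α := ℝ) (q3 𝒟 a b c (false, false, true)), Nat.cast_nonneg (α := ℝ) (q3 𝒟 a b c (false, false, false))]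

theorem path4_six {𝒟 : Finset (Finset α)} (h : Dn 𝒟) {a b c d : α} (hab : a ≠ b) (hac : a ≠ c) (had : a ≠ d) (hbc : b ≠ c) (hbd : b ≠ d) (hcd : c ≠ d)
    (eab : ∀ D ∈ 𝒟, ¬ (a ∈ D ∧ b ∈ D)) (ebc : ∀ D ∈ 𝒟, ¬ (b ∈ D ∧ c ∈ D)) (ecd : ∀ D ∈ 𝒟, ¬ (c ∈ D ∧ d ∈ D)) :
    6 * (𝒟.card : ℝ) ≤ 3 * dg 𝒟 a + 5 * dg 𝒟 b + 5 * dg 𝒟 c + 3 * dg 𝒟 d := by
  have hs := q4_sumP 𝒟 a b c d (fun _ => True)
  have hs0 := q4_sumP 𝒟 a b c d (fun x => x.1 = true)
  have hs1 := q4_sumP 𝒟 a b c d (fun x => x.2.1 = true)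
  have hs2 := q4_sumP 𝒟 a b c d (fun x => x.2.2.1 = true)
  have hs3 := q4_sumP 𝒟 a b c d (fun x => x.2.2.2 = true)
  simp only [Fintype.sum_prod_type, Fintype.sum_bool, filter_true, decide_eq_true_eq, if_true,
    if_false, Bool.false_eq_true, reduceIte, add_zero, zero_add] at hs hs0 hs1 hs2 hs3
  have z1111 : q4 𝒟 a b c d (true, true, true, true) = 0 := q4_zero (fun D hD hh => by
    simp only [Prod.mk.injEq, decide_eq_true_eq, decide_eq_false_iff_not] at hh
    exact eab D hD (by tauto))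
  have z1110 : q4 𝒟 a b c d (true, true, true, false) = 0 := q4_zero (fun D hD hh => by
    simp only [Prod.mk.injEq, decide_eq_true_eq, decide_eq_false_iff_not] at hh
    exact eab D hD (by tauto))
  have z1101 : q4 𝒟 a b c d (true, true, false, true) = 0 := q4_zero (fun D hD hh => by
    simp only [Prod.mk.injEq, decide_eq_true_eq, decide_eq_false_iff_not] at hh
    exact eab D hD (by tauto))
  have z1100 : q4 𝒟 a b c d (true, true, false, false) = 0 := q4_zero (fun D hD hh => by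
    simp only [Prod.mk.injEq, decide_eq_true_eq, decide_eq_false_iff_not] at hh
    exact eab D hD (by tauto))
  have z1011 : q4 𝒟 a b c d (true, false, true, true) = 0 := q4_zero (fun D hD hh => by
    simp only [Prod.mk.injEq, decide_eq_true_eq, decide_eq_false_iff_not] at hh
    exact ecd D hD (by tauto))
  have z0111 : q4 𝒟 a b c d (false, true, true, true) = 0 := q4_zero (fun D hD hh => by
    simp only [Prod.mk.injEq, decide_eq_true_eq, decide_eq_false_iff_not] at hh
    exact ebc D hD (by tauto))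
  have z0110 : q4 𝒟 a b c d (false, true, true, false) = 0 := q4_zero (fun D hD hh => by
    simp only [Prod.mk.injEq, decide_eq_true_eq, decide_eq_false_iff_not] at hh
    exact ebc D hD (by tauto))
  have z0011 : q4 𝒟 a b c d (false, false, true, true) = 0 := q4_zero (fun D hD hh => by
    simp only [Prod.mk.injEq, decide_eq_true_eq, decide_eq_false_iff_not] at hh
    exact ecd D hD (by tauto))
  have m1010_0 := q4_mono1 h hab hac had false true false
  have m1010_2 := q4_mono3 h hac hbc hcd true false false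
  have m1001_0 := q4_mono1 h hab hac had false false true
  have m1001_3 := q4_mono4 h had hbd hcd true false false
  have m1000_0 := q4_mono1 h hab hac had false false false
  have m0101_1 := q4_mono2 h hab hbc hbd false false true
  have m0101_3 := q4_mono4 h had hbd hcd false true false
  have m0100_1 := q4_mono2 h hab hbc hbd false false false
  have m0010_2 := q4_mono3 h hac hbc hcd false false false
  have m0001_3 := q4_mono4 h had hbd hcd false false false
  simp only [z1111, z1110, z1101, z1100, z1011, z0111, z0110, z0011, add_zero, zero_add] at hs hs0 hs1 hs2 hs3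
  unfold dg
  replace hs := congrArg (Nat.cast (R := ℝ)) hs
  replace hs0 := congrArg (Nat.cast (R := ℝ)) hs0
  replace hs1 := congrArg (Nat.cast (R := ℝ)) hs1
  replace hs2 := congrArg (Nat.cast (R := ℝ)) hs2
  replace hs3 := congrArg (Nat.cast (R := ℝ)) hs3
  replace m1010_0 := (Nat.cast_le (α := ℝ)).2 m1010_0
  replace m1010_2 := (Nat.cast_le (α := ℝ)).2 m1010_2
  replace m1001_0 := (Nat.cast_le (α := ℝ)).2 m1001_0
  replace m1001_3 := (Nat.cast_le (α := ℝ)).2 m1001_3
  replace m1000_0 := (Nat.cast_le (α := ℝ)).2 m1000_0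
  replace m0101_1 := (Nat.cast_le (α := ℝ)).2 m0101_1
  replace m0101_3 := (Nat.cast_le (α := ℝ)).2 m0101_3
  replace m0100_1 := (Nat.cast_le (α := ℝ)).2 m0100_1
  replace m0010_2 := (Nat.cast_le (α := ℝ)).2 m0010_2
  replace m0001_3 := (Nat.cast_le (α := ℝ)).2 m0001_3
  push_cast at hs hs0 hs1 hs2 hs3
  linarith [Nat.cast_nonneg (α := ℝ) (q4 𝒟 a b c d (true, false, true, false)), Nat.cast_nonneg (α := ℝ) (q4 𝒟 a b c d (true, false, false, true)), Nat.cast_nonneg (α := ℝ) (q4 𝒟 a b c d (true, false, false, false)), Nat.cast_nonneg (α := ℝ) (q4 𝒟 a b c d (false, true, false, true)), Nat.cast_nonneg (α := ℝ) (q4 𝒟 a b c d (false, true, false, false)), Nat.cast_nonneg (α := ℝ) (q4 𝒟 a b c d (false, false, true, false)), Nat.cast_nonneg (α := ℝ) (q4 𝒟 a b c d (false, false, false, true)), Nat.cast_nonneg (α := ℝ) (q4 𝒟 a b c d (false, false, false, false))]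

variable {W : Finset α} {H : Finset (Finset α)} {c : α → ℝ} {x : α}

/-- triangle -/
theorem locOKtriG (hW : ∀ T ∈ H, T ⊆ W) {a b d : α} (hx : ({x, a, b} : Finset α) ∈ H)
    (hx' : ({x, a, d} : Finset α) ∈ H) (hx'' : ({x, b, d} : Finset α) ∈ H)
    (hax : a ≠ x) (hbx : b ≠ x) (hdx : d ≠ x) (hab : a ≠ b) (had : a ≠ d) (hbd : b ≠ d)
    (h1 : c x ≤ 1) (h2 : 1 ≤ c a) (h3 : 1 ≤ c b) (h4 : 1 ≤ c d) (_h5 : 0 ≤ c x) :
    LocOK W H c x := by
  refine ⟨{{x, a, b}, {x, a, d}, {x, b, d}}, ?_, card_le_three, by simp,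
    {a, b, d}, ?_, ?_, ?_, ?_⟩
  · intro t ht
    simp only [mem_insert, mem_singleton] at ht
    rcases ht with rfl | rfl | rfl <;> assumption
  · intro t ht
    have h4 := hW _ hx
    have h5 := hW _ hx'
    simp only [insert_subset_iff, singleton_subset_iff, mem_insert, mem_singleton] at h4 h5 ht
    rcases ht with rfl | rfl | rfl <;> tauto
  · exact card_le_three.trans (by norm_num)
  · simp [hax.symm, hbx.symm, hdx.symm]
  · intro 𝒟 h𝒟 hno
    rw [sum_insert (by simp [hab, had]), sum_insert (by simp [hbd]), sum_singleton]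
    have e1 := tri_one h𝒟 hab had hbd (no_pair' hno (by simp)) (no_pair' hno (by simp))
      (no_pair' hno (by simp))
    have e2 := mulle h𝒟 a h2
    have e3 := mulle h𝒟 b h3
    have e4 := mulle h𝒟 d h4
    have e5 : c x * (𝒟.card : ℝ) ≤ 1 * (𝒟.card : ℝ) :=
      mul_le_mul_of_nonneg_right h1 (Nat.cast_nonneg _)
    linarith

/-- path with three edges `b - a - d - f` -/
theorem locOKpath4G (hW : ∀ T ∈ H, T ⊆ W) {b a d f : α} (hx : ({x, b, a} : Finset α) ∈ H)
    (hx' : ({x, a, d} : Finset α) ∈ H) (hx'' : ({x, d, f} : Finset α) ∈ H)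
    (hbx : b ≠ x) (hax : a ≠ x) (hdx : d ≠ x) (hfx : f ≠ x)
    (hba : b ≠ a) (hbd : b ≠ d) (hbf : b ≠ f) (had : a ≠ d) (haf : a ≠ f) (hdf : d ≠ f)
    (h1 : c x ≤ 6) (h2 : 3 ≤ c b) (h3 : 5 ≤ c a) (h4 : 5 ≤ c d)
    (h5 : 3 ≤ c f) : LocOK W H c x := by
  refine ⟨{{x, b, a}, {x, a, d}, {x, d, f}}, ?_, card_le_three, by simp,
    {b, a, d, f}, ?_, ?_, ?_, ?_⟩
  · intro t ht
    simp only [mem_insert, mem_singleton] at ht
    rcases ht with rfl | rfl | rfl <;> assumption
  · intro t ht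
    have h4 := hW _ hx
    have h5 := hW _ hx'
    have h6 := hW _ hx''
    simp only [insert_subset_iff, singleton_subset_iff, mem_insert, mem_singleton] at h4 h5 h6 ht
    rcases ht with rfl | rfl | rfl | rfl <;> tauto
  · exact card_le_four.trans (by norm_num)
  · simp [hax.symm, hbx.symm, hdx.symm, hfx.symm]
  · intro 𝒟 h𝒟 hno
    rw [sum_insert (by simp [hba, hbd, hbf]), sum_insert (by simp [had, haf]),
      sum_insert (by simp [hdf]), sum_singleton]
    have e1 := path4_six h𝒟 hba hbd hbf had haf hdf (no_pair' hno (by simp))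
      (no_pair' hno (by simp)) (no_pair' hno (by simp))
    have e2 := mulle h𝒟 b h2
    have e3 := mulle h𝒟 a h3
    have e4 := mulle h𝒟 d h4
    have e6 := mulle h𝒟 f h5
    have e5 : c x * (𝒟.card : ℝ) ≤ 6 * (𝒟.card : ℝ) :=
      mul_le_mul_of_nonneg_right h1 (Nat.cast_nonneg _)
    linarith

end Pool.Agent.H61.FC
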