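import Pool.Agent.H61.Conv

set_option autoImplicit false
set_option linter.all false

/-!
# Families without weights
-/

namespace Pool.Agent.H61.FC

open Finset

variable {α : Type*} [DecidableEq α]

/-- the weights `c` satisfy all local inequalities -/
def Crit (S : Finset α) (G : Finset (Finset α)) (c : α → ℝ) : Prop :=
  ∀ x ∈ S, ∀ 𝒟 : Finset (Finset α), Dn 𝒟 → (∀ D ∈ 𝒟, D ⊆ S.erase x) →
      (∀ D ∈ 𝒟, ∀ B ∈ G, x ∈ B → ¬ B.erase x ⊆ D) →
      c x * (𝒟.card : ℝ) ≤ ∑ k ∈ S.erase x, c k * dg 𝒟 k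

/-- there are no weights -/
def NW (S : Finset α) (G : Finset (Finset α)) : Prop :=
  ∀ c : α → ℝ, (∀ x, 0 ≤ c x) → Crit S G c → ∀ x ∈ S, c x = 0

/-- families without weights do not force a frequent element -/
theorem exists_of_NW [Infinite α] {S : Finset α} {G : Finset (Finset α)} (hG : ∀ B ∈ G, B ⊆ S)
    (h : NW S G) : ∃ F : Finset (Finset α), (∀ A ∈ F, ∀ B ∈ F, A ∪ B ∈ F) ∧ G ⊆ F ∧
      ∀ x ∈ S, 2 * (F.filter (fun A => x ∈ A)).card < F.card := by
  by_contra hcon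
  push Not at hcon
  obtain ⟨c, h0, ⟨x, hx, hpos⟩, hc⟩ := dg_of_fc hG hcon
  have := h c h0 hc x hx
  linarith

theorem card_tr {m : ℕ} (e : Fin m ↪ α) {R : Finset α} (hR : Disjoint (univ.map e) R)
    (𝒜 : Finset (Finset (Fin m))) :
    ((𝒜 ×ˢ R.powerset).image (fun p => p.1.map e ∪ p.2)).card = 𝒜.card * 2 ^ R.card := by
  rw [card_image_of_injOn, card_product, card_powerset]
  intro p hp q hq hpq
  have hp' := mem_product.1 (Finset.mem_coe.1 hp)
  have hq' := mem_product.1 (Finset.mem_coe.1 hq)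
  have hp2 := mem_powerset.1 hp'.2
  have hq2 := mem_powerset.1 hq'.2
  have hpq' : p.1.map e ∪ p.2 = q.1.map e ∪ q.2 := hpq
  have hR' : ∀ j, e j ∉ R := fun j hj => disjoint_left.1 hR (mem_map.2 ⟨j, mem_univ _, rfl⟩) hj
  refine Prod.ext ?_ ?_
  · ext j
    have h1 : e j ∈ p.1.map e ∪ p.2 ↔ e j ∈ q.1.map e ∪ q.2 := by rw [hpq']
    rw [mem_union, mem_union, mem_map', mem_map'] at h1
    constructor
    · intro hj
      exact (h1.1 (Or.inl hj)).resolve_right (fun h => hR' j (hq2 h))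
    · intro hj
      exact (h1.2 (Or.inl hj)).resolve_right (fun h => hR' j (hp2 h))
  · ext t
    have h1 : t ∈ p.1.map e ∪ p.2 ↔ t ∈ q.1.map e ∪ q.2 := by rw [hpq']
    rw [mem_union, mem_union, mem_map, mem_map] at h1
    constructor
    · intro ht
      refine (h1.1 (Or.inr ht)).resolve_left ?_
      rintro ⟨j, _, rfl⟩
      exact hR' j (hp2 ht)
    · intro ht
      refine (h1.2 (Or.inr ht)).resolve_left ?_
      rintro ⟨j, _, rfl⟩
      exact hR' j (hq2 ht)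

theorem free_ext {S : Finset α} {G : Finset (Finset α)} {c : α → ℝ} (hc : Crit S G c) {x : α}
    (hx : x ∈ S) {m : ℕ} (e : Fin m ↪ α) (he : ∀ j, e j ∈ S.erase x)
    (𝒟₀ : Finset (Finset (Fin m))) (h0 : Dn 𝒟₀)
    (hB : ∀ B ∈ G, x ∈ B → ∀ A ∈ 𝒟₀, ¬ ∀ j, e j ∈ B → j ∈ A) :
    c x * (𝒟₀.card : ℝ) ≤ ∑ j, c (e j) * dg 𝒟₀ j := by
  set R := (S.erase x) \ univ.map e with hRdef
  have hdis : Disjoint (univ.map e) R := disjoint_sdiff
  have hR' : ∀ j, e j ∉ R := fun j hj => disjoint_left.1 hdis (mem_map.2 ⟨j, mem_univ _, rfl⟩) hj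
  set 𝒟 := (𝒟₀ ×ˢ R.powerset).image (fun p => p.1.map e ∪ p.2) with h𝒟
  have hmem : ∀ D, D ∈ 𝒟 ↔ D ⊆ S.erase x ∧ univ.filter (fun j => e j ∈ D) ∈ 𝒟₀ := by
    intro D
    rw [h𝒟, mem_image]
    constructor
    · rintro ⟨⟨A, B⟩, hAB, rfl⟩
      rw [mem_product, mem_powerset] at hAB
      refine ⟨union_subset ?_ (hAB.2.trans sdiff_subset), ?_⟩
      · intro t ht
        rw [mem_map] at ht
        obtain ⟨j, _, rfl⟩ := ht
        exact he j
      · have : univ.filter (fun j => e j ∈ A.map e ∪ B) = A := by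
          ext j
          rw [mem_filter, mem_union, mem_map']
          constructor
          · rintro ⟨_, h | h⟩
            · exact h
            · exact absurd (hAB.2 h) (hR' j)
          · intro h
            exact ⟨mem_univ _, Or.inl h⟩
        rw [this]; exact hAB.1
    · rintro ⟨hD, hA⟩
      refine ⟨(univ.filter (fun j => e j ∈ D), D \ univ.map e), ?_, ?_⟩
      · rw [mem_product, mem_powerset]
        exact ⟨hA, sdiff_subset_sdiff hD Subset.rfl⟩
      · ext t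
        simp only [mem_union, mem_map, mem_filter, mem_univ, true_and, mem_sdiff]
        constructor
        · rintro (⟨j, hj, rfl⟩ | h)
          · exact hj
          · exact h.1
        · intro ht
          by_cases h : ∃ j, e j = t
          · obtain ⟨j, rfl⟩ := h
            exact Or.inl ⟨j, ht, rfl⟩
          · exact Or.inr ⟨ht, h⟩
  have hcard : (𝒟.card : ℝ) = 𝒟₀.card * 2 ^ R.card := by
    rw [h𝒟, card_tr e hdis]; push_cast; ring
  have hDn : Dn 𝒟 := by
    intro D hD D' hD'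
    rw [hmem] at hD ⊢
    refine ⟨hD'.trans hD.1, h0 _ hD.2 _ ?_⟩
    intro j hj
    rw [mem_filter] at hj ⊢
    exact ⟨hj.1, hD' hj.2⟩
  have h1 := hc x hx 𝒟 hDn (fun D hD => ((hmem D).1 hD).1) (by
    intro D hD B hB' hxB hs
    refine hB B hB' hxB _ ((hmem D).1 hD).2 ?_
    intro j hj
    rw [mem_filter]
    exact ⟨mem_univ _, hs (mem_erase.2 ⟨(mem_erase.1 (he j)).1, hj⟩)⟩)
  have hdR : ∀ k ∈ R, dg 𝒟 k = 0 := by
    intro k hk
    rw [← card_leave hDn]
    rw [Nat.cast_eq_zero, card_eq_zero, filter_eq_empty_iff]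
    rintro D hD ⟨_, h2⟩
    apply h2
    rw [hmem] at hD ⊢
    refine ⟨insert_subset (sdiff_subset hk) hD.1, ?_⟩
    have : univ.filter (fun j => e j ∈ insert k D) = univ.filter (fun j => e j ∈ D) := by
      ext j
      simp only [mem_filter, mem_univ, true_and, mem_insert]
      constructor
      · rintro (h | h)
        · exact absurd (h ▸ hk) (hR' j)
        · exact h
      · exact Or.inr
    rw [this]; exact hD.2
  have hde : ∀ j, dg 𝒟 (e j) = dg 𝒟₀ j * 2 ^ R.card := by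
    intro j
    have h2 : 𝒟.filter (fun D => e j ∈ D) =
        ((𝒟₀.filter (fun A => j ∈ A)) ×ˢ R.powerset).image (fun p => p.1.map e ∪ p.2) := by
      ext D
      rw [h𝒟, mem_filter, mem_image, mem_image]
      constructor
      · rintro ⟨⟨⟨A, B⟩, hAB, rfl⟩, hj⟩
        rw [mem_product, mem_powerset] at hAB
        refine ⟨(A, B), ?_, rfl⟩
        rw [mem_product, mem_filter, mem_powerset]
        refine ⟨⟨hAB.1, ?_⟩, hAB.2⟩
        rw [mem_union, mem_map'] at hj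
        exact hj.resolve_right (fun h => hR' j (hAB.2 h))
      · rintro ⟨⟨A, B⟩, hAB, rfl⟩
        rw [mem_product, mem_filter, mem_powerset] at hAB
        refine ⟨⟨(A, B), ?_, rfl⟩, ?_⟩
        · rw [mem_product, mem_powerset]
          exact ⟨hAB.1.1, hAB.2⟩
        · rw [mem_union, mem_map']
          exact Or.inl hAB.1.2
    unfold dg
    rw [hcard, h2, card_tr e hdis]
    push_cast
    ring
  have hsplit : ∑ k ∈ S.erase x, c k * dg 𝒟 k = ∑ k ∈ univ.map e, c k * dg 𝒟 k := by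
    symm
    refine sum_subset ?_ ?_
    · intro t ht
      rw [mem_map] at ht
      obtain ⟨j, _, rfl⟩ := ht
      exact he j
    · intro t ht hte
      rw [hdR t (mem_sdiff.2 ⟨ht, hte⟩), mul_zero]
  rw [hsplit, sum_map, hcard] at h1
  have hp : (0 : ℝ) < 2 ^ R.card := by positivity
  have h3 : 2 ^ R.card * (c x * (𝒟₀.card : ℝ)) ≤ 2 ^ R.card * ∑ j, c (e j) * dg 𝒟₀ j := by
    rw [mul_sum]
    refine le_trans (le_of_eq (by ring)) (h1.trans (le_of_eq ?_))
    refine sum_congr rfl fun j _ => ?_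
    rw [hde]; ring
  exact le_of_mul_le_mul_left h3 hp

theorem form_empty {S : Finset α} {G : Finset (Finset α)} {c : α → ℝ} (hc : Crit S G c) {x : α}
    (hx : x ∈ S) (hB : ∀ B ∈ G, x ∉ B) : c x ≤ 0 := by
  have h1 := free_ext hc hx (m := 0) ⟨Fin.elim0, fun a => a.elim0⟩ (fun j => j.elim0) {∅}
    (by
      intro D hD D' hD'
      rw [mem_singleton] at hD ⊢
      rw [hD] at hD'
      exact subset_empty.1 hD')
    (fun B hB' hxB => absurd hxB (hB B hB'))
  simpa using h1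

theorem form_edge {S : Finset α} {G : Finset (Finset α)} {c : α → ℝ} (hc : Crit S G c) {x y z : α}
    (hx : x ∈ S) (hy : y ∈ S) (hz : z ∈ S) (hyx : y ≠ x) (hzx : z ≠ x) (hyz : y ≠ z)
    (hB : ∀ B ∈ G, x ∈ B → y ∈ B ∧ z ∈ B) : 3 * c x ≤ c y + c z := by
  have h1 := free_ext hc hx (m := 2) ⟨![y, z], by
      intro i j hij
      fin_cases i <;> fin_cases j <;> simp_all⟩ (by
      intro j
      fin_cases j <;> simp_all) (univ.filter (fun A => ¬ (0 ∈ A ∧ 1 ∈ A)))
      (by unfold Dn; decide) (by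
      intro B hB' hxB A hA h
      have h2 := hB B hB' hxB
      exact (mem_filter.1 hA).2 ⟨h 0 h2.1, h 1 h2.2⟩)
  have e1 : (univ.filter (fun A : Finset (Fin 2) => ¬ (0 ∈ A ∧ 1 ∈ A))).card = 3 := by decide
  have e2 : dg (univ.filter (fun A : Finset (Fin 2) => ¬ (0 ∈ A ∧ 1 ∈ A))) 0 = 1 := by
    unfold dg
    have : ((univ.filter (fun A : Finset (Fin 2) => ¬ (0 ∈ A ∧ 1 ∈ A))).filter
      (fun D => 0 ∈ D)).card = 1 := by decide
    rw [e1, this]; norm_num
  have e3 : dg (univ.filter (fun A : Finset (Fin 2) => ¬ (0 ∈ A ∧ 1 ∈ A))) 1 = 1 := by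
    unfold dg
    have : ((univ.filter (fun A : Finset (Fin 2) => ¬ (0 ∈ A ∧ 1 ∈ A))).filter
      (fun D => 1 ∈ D)).card = 1 := by decide
    rw [e1, this]; norm_num
  rw [e1, Fin.sum_univ_two, e2, e3] at h1
  simp only [Function.Embedding.coeFn_mk, Matrix.cons_val_zero, Matrix.cons_val_one] at h1
  push_cast at h1
  linarith

theorem form_star {S : Finset α} {G : Finset (Finset α)} {c : α → ℝ} (hc : Crit S G c)
    {x a b d : α} (hx : x ∈ S) (ha : a ∈ S) (hb : b ∈ S) (hd : d ∈ S) (hax : a ≠ x) (hbx : b ≠ x)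
    (hdx : d ≠ x) (hab : a ≠ b) (had : a ≠ d) (hbd : b ≠ d)
    (hB : ∀ B ∈ G, x ∈ B → a ∈ B ∧ (b ∈ B ∨ d ∈ B)) : 5 * c x ≤ 3 * c a + c b + c d := by
  have h1 := free_ext hc hx (m := 3) ⟨![a, b, d], by
      intro i j hij
      fin_cases i <;> fin_cases j <;> simp_all⟩ (by
      intro j
      fin_cases j <;> simp_all) (univ.filter (fun A => ¬ (0 ∈ A ∧ (1 ∈ A ∨ 2 ∈ A))))
      (by unfold Dn; decide) (by
      intro B hB' hxB A hA h
      have h2 := hB B hB' hxB
      refine (mem_filter.1 hA).2 ⟨h 0 h2.1, ?_⟩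
      rcases h2.2 with h3 | h3
      · exact Or.inl (h 1 h3)
      · exact Or.inr (h 2 h3))
  have e1 : (univ.filter (fun A : Finset (Fin 3) => ¬ (0 ∈ A ∧ (1 ∈ A ∨ 2 ∈ A)))).card = 5 := by
    decide
  have e2 : dg (univ.filter (fun A : Finset (Fin 3) => ¬ (0 ∈ A ∧ (1 ∈ A ∨ 2 ∈ A)))) 0 = 3 := by
    unfold dg
    have : ((univ.filter (fun A : Finset (Fin 3) => ¬ (0 ∈ A ∧ (1 ∈ A ∨ 2 ∈ A)))).filter
      (fun D => 0 ∈ D)).card = 1 := by decide
    rw [e1, this]; norm_num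
  have e3 : dg (univ.filter (fun A : Finset (Fin 3) => ¬ (0 ∈ A ∧ (1 ∈ A ∨ 2 ∈ A)))) 1 = 1 := by
    unfold dg
    have : ((univ.filter (fun A : Finset (Fin 3) => ¬ (0 ∈ A ∧ (1 ∈ A ∨ 2 ∈ A)))).filter
      (fun D => 1 ∈ D)).card = 2 := by decide
    rw [e1, this]; norm_num
  have e4 : dg (univ.filter (fun A : Finset (Fin 3) => ¬ (0 ∈ A ∧ (1 ∈ A ∨ 2 ∈ A)))) 2 = 1 := by
    unfold dg
    have : ((univ.filter (fun A : Finset (Fin 3) => ¬ (0 ∈ A ∧ (1 ∈ A ∨ 2 ∈ A)))).filter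
      (fun D => 2 ∈ D)).card = 2 := by decide
    rw [e1, this]; norm_num
  rw [e1, Fin.sum_univ_three, e2, e3, e4] at h1
  simp only [Function.Embedding.coeFn_mk, Matrix.cons_val_zero, Matrix.cons_val_one,
    Matrix.cons_val_two, Matrix.head_cons, Matrix.tail_cons, Matrix.cons_val] at h1
  push_cast at h1
  linarith

theorem form_edge2 {S : Finset α} {G : Finset (Finset α)} {c : α → ℝ} (hc : Crit S G c)
    {x y z y' z' : α} (hx : x ∈ S) (hy : y ∈ S) (hz : z ∈ S) (hy' : y' ∈ S) (hz' : z' ∈ S)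
    (hyx : y ≠ x) (hzx : z ≠ x) (hyx' : y' ≠ x) (hzx' : z' ≠ x) (hyz : y ≠ z) (hyz' : y' ≠ z')
    (d1 : y ≠ y') (d2 : y ≠ z') (d3 : z ≠ y') (d4 : z ≠ z')
    (hB : ∀ B ∈ G, x ∈ B → (y ∈ B ∧ z ∈ B) ∨ (y' ∈ B ∧ z' ∈ B)) :
    3 * c x ≤ c y + c z + c y' + c z' := by
  have h1 := free_ext hc hx (m := 4) ⟨![y, z, y', z'], by
      intro i j hij
      fin_cases i <;> fin_cases j <;> simp_all⟩ (by
      intro j
      fin_cases j <;> simp_all)
      (univ.filter (fun A => ¬ (0 ∈ A ∧ 1 ∈ A) ∧ ¬ (2 ∈ A ∧ 3 ∈ A)))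
      (by
        intro D hD D' hD'
        simp only [mem_filter, mem_univ, true_and] at hD ⊢
        exact ⟨fun h => hD.1 ⟨hD' h.1, hD' h.2⟩, fun h => hD.2 ⟨hD' h.1, hD' h.2⟩⟩) (by
      intro B hB' hxB A hA h
      have h2 := hB B hB' hxB
      have h3 := (mem_filter.1 hA).2
      rcases h2 with h2 | h2
      · exact h3.1 ⟨h 0 h2.1, h 1 h2.2⟩
      · exact h3.2 ⟨h 2 h2.1, h 3 h2.2⟩)
  have e1 : (univ.filter (fun A : Finset (Fin 4) => ¬ (0 ∈ A ∧ 1 ∈ A) ∧ ¬ (2 ∈ A ∧ 3 ∈ A))).card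
      = 9 := by decide
  have e2 : ∀ j : Fin 4,
      dg (univ.filter (fun A : Finset (Fin 4) => ¬ (0 ∈ A ∧ 1 ∈ A) ∧ ¬ (2 ∈ A ∧ 3 ∈ A))) j = 3 := by
    intro j
    unfold dg
    have : ((univ.filter (fun A : Finset (Fin 4) => ¬ (0 ∈ A ∧ 1 ∈ A) ∧ ¬ (2 ∈ A ∧ 3 ∈ A))).filter
      (fun D => j ∈ D)).card = 3 := by revert j; decide
    rw [e1, this]; norm_num
  rw [e1, Fin.sum_univ_four, e2, e2, e2, e2] at h1
  simp only [Function.Embedding.coeFn_mk, Matrix.cons_val_zero, Matrix.cons_val_one,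
    Matrix.cons_val_two, Matrix.head_cons, Matrix.tail_cons, Matrix.cons_val,
    Matrix.cons_val_three] at h1
  push_cast at h1
  linarith

/-- adding a part in front -/
theorem NW_stack {S' Q : Finset α} {G' G : Finset (Finset α)} (hdis : Disjoint Q S')
    (hG : ∀ B ∈ G, B ⊆ S' → B ∈ G') (h : NW S' G')
    (hQ : ∀ c : α → ℝ, (∀ x, 0 ≤ c x) → Crit (Q ∪ S') G c → ∀ x ∈ Q, c x = 0) :
    NW (Q ∪ S') G := by
  intro c hc0 hc
  have h1 := hQ c hc0 hc
  have h2 : Crit S' G' c := by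
    intro x hx 𝒟 hD hDs hv
    have hxQ : x ∉ Q := fun h => disjoint_left.1 hdis h hx
    have h3 := hc x (mem_union_right _ hx) 𝒟 hD (fun D hD' => (hDs D hD').trans
      (erase_subset_erase _ subset_union_right)) (by
      intro D hD' B hB hxB hs
      have hBS : B ⊆ S' := by
        intro t ht
        by_cases he : t = x
        · rw [he]; exact hx
        · exact (erase_subset _ _) (hDs D hD' (hs (mem_erase.2 ⟨he, ht⟩)))
      exact hv D hD' B (hG B hB hBS) hxB hs)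
    refine h3.trans (le_of_eq ?_)
    symm
    refine sum_subset (erase_subset_erase _ subset_union_right) ?_
    intro t ht ht'
    have htQ : t ∈ Q := by
      have h4 := mem_erase.1 ht
      rcases mem_union.1 h4.2 with h5 | h5
      · exact h5
      · exact absurd (mem_erase.2 ⟨h4.1, h5⟩) ht'
    rw [h1 t htQ, zero_mul]
  intro x hx
  rcases mem_union.1 hx with hx | hx
  · exact h1 x hx
  · exact h c hc0 h2 x hx

end Pool.Agent.H61.FC
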