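import Pool.Agent.H61.PS7
import Pool.Agent.H61.Final1

set_option autoImplicit false
set_option linter.all false

/-!
# Many abundant elements: a local characterization
-/

namespace Pool.Agent.H61.MT

open Finset Pool.Agent.H61.PS

/-- `x` lies in at least half of the members -/
def Ab (F : Finset (Finset ℕ)) (x : ℕ) : Prop := F.card ≤ 2 * (F.filter (fun A => x ∈ A)).card

instance (F : Finset (Finset ℕ)) : DecidablePred (Ab F) := fun _ => Nat.decLe _ _

theorem relabel {N X : Finset ℕ} {F₀ : Finset (Finset ℕ)} (hF₀ : ∀ A ∈ F₀, ∀ B ∈ F₀, A ∪ B ∈ F₀)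
    (hr : ∀ y ∈ N \ X, ¬ Ab F₀ y) :
    ∃ F₁ : Finset (Finset ℕ), (∀ A ∈ F₁, ∀ B ∈ F₁, A ∪ B ∈ F₁) ∧
      (∀ A ∈ F₀, A ⊆ N \ X → A ∈ F₁) ∧ (∀ A ∈ F₁, Disjoint A X) ∧ ∀ y ∈ N \ X, ¬ Ab F₁ y := by
  set M := (N ∪ X).sup id + 1 with hM
  have hlt : ∀ v ∈ N ∪ X, v < M := by
    intro v hv
    have : v ≤ (N ∪ X).sup id := le_sup (f := id) hv
    omega
  set g : ℕ → ℕ := fun v => if v ∈ N \ X then v else v + M with hg
  have hgin : ∀ v ∈ N \ X, g v = v := fun v hv => by rw [hg]; dsimp only; rw [if_pos hv]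
  have hgout : ∀ v, v ∉ N \ X → g v = v + M := fun v hv => by rw [hg]; dsimp only; rw [if_neg hv]
  have hinN : ∀ v ∈ N \ X, v < M := fun v hv => hlt v (mem_union_left _ (mem_sdiff.1 hv).1)
  have hinj : Function.Injective g := by
    intro v w h
    by_cases hv : v ∈ N \ X <;> by_cases hw : w ∈ N \ X
    · rwa [hgin v hv, hgin w hw] at h
    · rw [hgin v hv, hgout w hw] at h
      have := hinN v hv
      omega
    · rw [hgout v hv, hgin w hw] at h
      have := hinN w hw
      omega
    · rw [hgout v hv, hgout w hw] at h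
      omega
  have hinj' : Function.Injective (fun A : Finset ℕ => A.image g) := image_injective hinj
  refine ⟨F₀.image (fun A => A.image g), ?_, ?_, ?_, ?_⟩
  · intro A hA B hB
    obtain ⟨A', hA', rfl⟩ := mem_image.1 hA
    obtain ⟨B', hB', rfl⟩ := mem_image.1 hB
    exact mem_image.2 ⟨A' ∪ B', hF₀ _ hA' _ hB', image_union _ _⟩
  · intro A hA hAN
    refine mem_image.2 ⟨A, hA, ?_⟩
    have : A.image g = A.image id := image_congr fun v hv => hgin v (hAN hv)
    rw [this, image_id]
  · intro A hA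
    obtain ⟨A', hA', rfl⟩ := mem_image.1 hA
    rw [disjoint_left]
    intro v hv hvX
    obtain ⟨w, hw, rfl⟩ := mem_image.1 hv
    by_cases hwN : w ∈ N \ X
    · rw [hgin w hwN] at hvX
      exact (mem_sdiff.1 hwN).2 hvX
    · rw [hgout w hwN] at hvX
      have := hlt _ (mem_union_right N hvX)
      omega
  · intro y hy hab
    refine hr y hy ?_
    unfold Ab at hab ⊢
    rw [card_image_of_injective _ hinj'] at hab
    have e : (F₀.image (fun A => A.image g)).filter (fun A => y ∈ A) =
        (F₀.filter (fun A => y ∈ A)).image (fun A => A.image g) := by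
      rw [filter_image]
      congr 1
      ext A
      simp only [mem_filter]
      have : y ∈ A.image g ↔ y ∈ A := by
        conv_lhs => rw [← hgin y hy]
        exact hinj.mem_finset_image
      rw [this]
    rw [e, card_image_of_injective _ hinj'] at hab
    exact hab

theorem build {N X : Finset ℕ} (hX : X ⊆ N) {F₀ : Finset (Finset ℕ)}
    (hF₀ : ∀ A ∈ F₀, ∀ B ∈ F₀, A ∪ B ∈ F₀) (hr : ∀ y ∈ N \ X, ¬ Ab F₀ y) :
    ∃ F : Finset (Finset ℕ), (∀ A ∈ F, ∀ B ∈ F, A ∪ B ∈ F) ∧
      (∀ C ⊆ N, ¬ Disjoint C X → C ∈ F) ∧ (∀ A ∈ F₀, A ⊆ N \ X → A ∈ F) ∧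
      ∀ y ∈ N \ X, ¬ Ab F y := by
  obtain ⟨F₁, h1, h2, h3, h4⟩ := relabel hF₀ hr
  set 𝒯 : Finset (Finset ℕ) := insert ∅ (F₁.image (fun A => A \ N)) with h𝒯
  have hT0 : (∅ : Finset ℕ) ∈ 𝒯 := mem_insert_self _ _
  have hT1 : ∀ A ∈ F₁, A \ N ∈ 𝒯 := fun A hA => mem_insert_of_mem (mem_image_of_mem _ hA)
  have hTd : ∀ T ∈ 𝒯, Disjoint T N := by
    intro T hT
    rcases mem_insert.1 hT with rfl | hT
    · exact disjoint_empty_left _
    · obtain ⟨A, _, rfl⟩ := mem_image.1 hT
      exact sdiff_disjoint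
  have hTu : ∀ T ∈ 𝒯, ∀ T' ∈ 𝒯, T ∪ T' ∈ 𝒯 := by
    intro T hT T' hT'
    rcases mem_insert.1 hT with rfl | hT1'
    · rw [empty_union]; exact hT'
    rcases mem_insert.1 hT' with rfl | hT2'
    · rw [union_empty]; exact hT
    obtain ⟨A, hA, rfl⟩ := mem_image.1 hT1'
    obtain ⟨B, hB, rfl⟩ := mem_image.1 hT2'
    rw [← union_sdiff_distrib]
    exact hT1 _ (h1 A hA B hB)
  set P : Finset (Finset ℕ) := ((N.powerset.filter (fun C => ¬ Disjoint C X)) ×ˢ 𝒯).image
    (fun p => p.1 ∪ p.2) with hP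
  have hmem : ∀ A : Finset ℕ, A ∈ P ↔ ¬ Disjoint (A ∩ N) X ∧ A \ N ∈ 𝒯 := by
    intro A
    rw [hP, mem_image]
    constructor
    · rintro ⟨⟨C, T⟩, hp, rfl⟩
      rw [mem_product, mem_filter, mem_powerset] at hp
      obtain ⟨⟨hC, hCX⟩, hT⟩ := hp
      dsimp only at hC hCX hT ⊢
      have hd := hTd T hT
      have e1 : (C ∪ T) ∩ N = C := by
        ext z
        simp only [mem_inter, mem_union]
        constructor
        · rintro ⟨h | h, h'⟩
          · exact h
          · exact absurd h' (disjoint_left.1 hd h)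
        · intro h; exact ⟨Or.inl h, hC h⟩
      have e2 : (C ∪ T) \ N = T := by
        ext z
        simp only [mem_sdiff, mem_union]
        constructor
        · rintro ⟨h | h, h'⟩
          · exact absurd (hC h) h'
          · exact h
        · intro h; exact ⟨Or.inr h, disjoint_left.1 hd h⟩
      rw [e1, e2]
      exact ⟨hCX, hT⟩
    · rintro ⟨hA, hT⟩
      refine ⟨(A ∩ N, A \ N), ?_, ?_⟩
      · rw [mem_product, mem_filter, mem_powerset]
        exact ⟨⟨inter_subset_right, hA⟩, hT⟩
      · dsimp only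
        rw [union_comm]
        exact sdiff_union_inter A N
  have hPu : ∀ A B : Finset ℕ, A \ N ∈ 𝒯 → B ∈ P → A ∪ B ∈ P := by
    intro A B hA hB
    rw [hmem] at hB ⊢
    refine ⟨fun hd => hB.1 (hd.mono_left ?_), ?_⟩
    · exact inter_subset_inter_right subset_union_right
    · rw [union_sdiff_distrib]
      exact hTu _ hA _ hB.2
  have hdis : Disjoint F₁ P := by
    rw [disjoint_left]
    intro A hA hAP
    rw [hmem] at hAP
    exact hAP.1 ((h3 A hA).mono_left inter_subset_left)
  refine ⟨F₁ ∪ P, ?_, ?_, ?_, ?_⟩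
  · intro A hA B hB
    rcases mem_union.1 hB with hB | hB
    · rcases mem_union.1 hA with hA | hA
      · exact mem_union_left _ (h1 A hA B hB)
      · rw [union_comm A B]
        exact mem_union_right _ (hPu B A (hT1 B hB) hA)
    · refine mem_union_right _ (hPu A B ?_ hB)
      rcases mem_union.1 hA with hA | hA
      · exact hT1 A hA
      · exact ((hmem A).1 hA).2
  · intro C hC hCX
    refine mem_union_right _ ((hmem C).2 ⟨?_, ?_⟩)
    · rw [inter_eq_left.2 hC]; exact hCX
    · rw [sdiff_eq_empty_iff_subset.2 hC]; exact hT0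
  · intro A hA hAN
    exact mem_union_left _ (h2 A hA hAN)
  · intro y hy hab
    refine h4 y hy ?_
    have hyN := (mem_sdiff.1 hy).1
    have hyX := (mem_sdiff.1 hy).2
    have hfree : Free P y := by
      intro A hA
      rw [hmem] at hA
      rw [hmem, hmem]
      refine ⟨⟨fun hd => hA.1 (hd.mono_left ?_), ?_⟩, ⟨fun hd => hA.1 ?_, ?_⟩⟩
      · exact inter_subset_inter_right (subset_insert _ _)
      · rw [insert_sdiff_of_mem _ hyN]; exact hA.2
      · rw [disjoint_left] at hd ⊢
        intro z hz hzX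
        rw [mem_inter] at hz
        exact hd (mem_inter.2 ⟨mem_erase.2 ⟨fun e => hyX (e ▸ hzX), hz.1⟩, hz.2⟩) hzX
      · have e : A.erase y \ N = A \ N := by
          ext z
          simp only [mem_sdiff, mem_erase]
          constructor
          · rintro ⟨⟨_, h⟩, h'⟩; exact ⟨h, h'⟩
          · rintro ⟨h, h'⟩; exact ⟨⟨fun e => h' (e ▸ hyN), h⟩, h'⟩
        rw [e]; exact hA.2
    have hc := hfree.card
    have h6 : (P.filter (fun A => y ∈ A)).card + (P.filter (fun A => ¬ y ∈ A)).card = P.card :=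
      card_filter_add_card_filter_not (fun A => y ∈ A)
    unfold Ab at hab ⊢
    rw [filter_union, card_union_of_disjoint hdis, card_union_of_disjoint
      (disjoint_filter_filter hdis)] at hab
    omega

/-- the local characterization -/
theorem many_iff {N : Finset ℕ} {K : Finset (Finset ℕ)} (hK : ∀ A ∈ K, A ⊆ N) {t : ℕ}
    (ht : t ≤ N.card) :
    (∀ F : Finset (Finset ℕ), (∀ A ∈ F, ∀ B ∈ F, A ∪ B ∈ F) → K ⊆ F →
      t + 1 ≤ (N.filter (Ab F)).card) ↔
    ∀ X ⊆ N, X.card = t → ∀ F : Finset (Finset ℕ), (∀ A ∈ F, ∀ B ∈ F, A ∪ B ∈ F) →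
      K.filter (fun A => Disjoint A X) ⊆ F → ∃ x ∈ N \ X, Ab F x := by
  constructor
  · intro h X hX hXt F₀ hF₀ hKF
    by_contra hcon
    push Not at hcon
    obtain ⟨F, f1, f2, f3, f4⟩ := build hX hF₀ hcon
    have h1 := h F f1 (by
      intro A hA
      by_cases hd : Disjoint A X
      · exact f3 A (hKF (mem_filter.2 ⟨hA, hd⟩)) (subset_sdiff.2 ⟨hK A hA, hd⟩)
      · exact f2 A (hK A hA) hd)
    have h2 : N.filter (Ab F) ⊆ X := by
      intro x hx
      rw [mem_filter] at hx
      by_contra hxX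
      exact f4 x (mem_sdiff.2 ⟨hx.1, hxX⟩) hx.2
    have := card_le_card h2
    omega
  · intro h F hF hKF
    by_contra hcon
    push Not at hcon
    obtain ⟨X, hX1, hX2, hX3⟩ := exists_subsuperset_card_eq (filter_subset (Ab F) N)
      (by omega : (N.filter (Ab F)).card ≤ t) ht
    obtain ⟨x, hx, hab⟩ := h X hX2 hX3 F hF ((filter_subset _ _).trans hKF)
    rw [mem_sdiff] at hx
    exact hx.2 (hX1 (mem_filter.2 ⟨hx.1, hab⟩))

/-- the number of the members of size `k` inside `N` -/
def kS (F : Finset (Finset ℕ)) (N : Finset ℕ) (k : ℕ) : ℕ :=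
  (F.filter (fun A => A ⊆ N ∧ A.card = k)).card

/-- the admissible values -/
def adm (k n t : ℕ) : Set ℕ := {m : ℕ | ∀ (N : Finset ℕ), N.card = n → ∀ F : Finset (Finset ℕ),
  (∀ A ∈ F, ∀ B ∈ F, A ∪ B ∈ F) → m ≤ kS F N k → t ≤ (N.filter (Ab F)).card}

theorem kS_le (F : Finset (Finset ℕ)) (N : Finset ℕ) (k : ℕ) : kS F N k ≤ N.card.choose k := by
  rw [← card_powersetCard]
  refine card_le_card fun A hA => ?_
  rw [mem_filter] at hA
  exact mem_powersetCard.2 hA.2

theorem adm_mem (k n t : ℕ) : sInf (adm k n t) ∈ adm k n t := by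
  refine Nat.sInf_mem ⟨n.choose k + 1, ?_⟩
  intro N hN F hF h
  have := kS_le F N k
  rw [hN] at this
  omega

theorem not_adm {k n t m : ℕ} (h : m < sInf (adm k n t)) : ∃ (N : Finset ℕ)
    (F : Finset (Finset ℕ)), N.card = n ∧ (∀ A ∈ F, ∀ B ∈ F, A ∪ B ∈ F) ∧ m ≤ kS F N k ∧
      (N.filter (Ab F)).card < t := by
  have h1 := Nat.notMem_of_lt_sInf h
  unfold adm at h1
  simp only [Set.mem_setOf_eq, not_forall, not_le] at h1
  obtain ⟨N, hN, F, hF, h2, h3⟩ := h1
  exact ⟨N, F, hN, hF, h2, h3⟩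

theorem card_meet {N X : Finset ℕ} (k : ℕ) :
    (powersetCard k N \ powersetCard k (N \ X)).card = N.card.choose k - (N \ X).card.choose k := by
  rw [card_sdiff_of_subset (powersetCard_mono sdiff_subset), card_powersetCard, card_powersetCard]

theorem num_many {k n t : ℕ} (ht : t ≤ n) :
    sInf (adm k n (t + 1)) = (n.choose k - (n - t).choose k) + sInf (adm k (n - t) 1) := by
  refine le_antisymm (Nat.sInf_le ?_) ?_
  · intro N hN F hF hm
    by_contra hcon
    push Not at hcon
    obtain ⟨X, hX1, hX2, hX3⟩ := exists_subsuperset_card_eq (filter_subset (Ab F) N)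
      (by omega : (N.filter (Ab F)).card ≤ t) (by omega)
    have hc : (N \ X).card = n - t := by rw [card_sdiff_of_subset hX2, hN, hX3]
    have h1 : kS F N k ≤ kS F (N \ X) k + (n.choose k - (n - t).choose k) := by
      have h2 := card_meet (N := N) (X := X) k
      rw [hN, hc] at h2
      rw [← h2]
      refine (card_le_card ?_).trans (card_union_le _ _)
      intro A hA
      rw [mem_filter] at hA
      rw [mem_union, mem_filter, mem_sdiff, mem_powersetCard, mem_powersetCard]
      by_cases h : A ⊆ N \ X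
      · exact Or.inl ⟨hA.1, h, hA.2.2⟩
      · exact Or.inr ⟨hA.2, fun h' => h h'.1⟩
    have h2 := adm_mem k (n - t) 1 (N \ X) hc F hF (by omega)
    obtain ⟨x, hx⟩ := card_pos.1 (by omega : 0 < ((N \ X).filter (Ab F)).card)
    rw [mem_filter, mem_sdiff] at hx
    exact hx.1.2 (hX1 (mem_filter.2 ⟨hx.1.1, hx.2⟩))
  · have hpos : 0 < sInf (adm k (n - t) 1) := by
      by_contra h0
      have h1 : sInf (adm k (n - t) 1) = 0 := by omega
      have h2 := adm_mem k (n - t) 1 (range (n - t)) (card_range _) {∅} (by simp) (by omega)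
      obtain ⟨x, hx⟩ := card_pos.1 (by omega : 0 < ((range (n - t)).filter (Ab {∅})).card)
      rw [mem_filter] at hx
      have h3 := hx.2
      unfold Ab at h3
      rw [filter_singleton, if_neg (notMem_empty x)] at h3
      simp at h3
    obtain ⟨N', F₀, hN', hF₀, h1, h2⟩ := not_adm (by omega :
      sInf (adm k (n - t) 1) - 1 < sInf (adm k (n - t) 1))
    set M := N'.sup id + 1 with hM
    have hlt : ∀ v ∈ N', v < M := by
      intro v hv
      have : v ≤ N'.sup id := le_sup (f := id) hv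
      omega
    set X := (range t).image (fun i => i + M) with hX
    have hXc : X.card = t := by
      rw [hX, card_image_of_injective _ (add_left_injective M), card_range]
    have hd : Disjoint N' X := by
      rw [disjoint_left]
      intro v hv hvX
      obtain ⟨i, _, rfl⟩ := mem_image.1 hvX
      have := hlt _ hv
      omega
    have hNX : (N' ∪ X) \ X = N' := by
      rw [union_sdiff_right]
      exact sdiff_eq_self_of_disjoint hd
    obtain ⟨F, f1, f2, f3, f4⟩ := build (N := N' ∪ X) (X := X) subset_union_right hF₀ (by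
      intro y hy hab
      rw [hNX] at hy
      have h3 : y ∈ N'.filter (Ab F₀) := mem_filter.2 ⟨hy, hab⟩
      have := card_pos.2 ⟨y, h3⟩
      omega)
    rw [hNX] at f3 f4
    have hNc : (N' ∪ X).card = n := by
      rw [card_union_of_disjoint hd, hN', hXc]; omega
    have h3 : (n.choose k - (n - t).choose k) + kS F₀ N' k ≤ kS F (N' ∪ X) k := by
      have h4 := card_meet (N := N' ∪ X) (X := X) k
      rw [hNX, hNc, hN'] at h4
      rw [← h4]
      unfold kS
      rw [← card_union_of_disjoint]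
      · refine card_le_card fun A hA => ?_
        rw [mem_union, mem_sdiff, mem_powersetCard, mem_powersetCard, mem_filter] at hA
        rw [mem_filter]
        rcases hA with hA | hA
        · refine ⟨f2 A hA.1.1 fun hdA => hA.2 ⟨?_, hA.1.2⟩, hA.1⟩
          have : A ⊆ (N' ∪ X) \ X := subset_sdiff.2 ⟨hA.1.1, hdA⟩
          rwa [hNX] at this
        · exact ⟨f3 A hA.1 hA.2.1, hA.2.1.trans subset_union_left, hA.2.2⟩
      · rw [disjoint_left]
        intro A hA hA'
        rw [mem_sdiff, mem_powersetCard, mem_powersetCard] at hA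
        rw [mem_filter] at hA'
        exact hA.2 hA'.2
    by_contra hcon
    push Not at hcon
    have h5 := adm_mem k n (t + 1) (N' ∪ X) hNc F f1 (by omega)
    have h6 : (N' ∪ X).filter (Ab F) ⊆ X := by
      intro x hx
      rw [mem_filter, mem_union] at hx
      rcases hx.1 with h | h
      · exact absurd hx.2 (f4 x h)
      · exact h
    have := card_le_card h6
    omega

end Pool.Agent.H61.MT
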