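import Pool.Agent.H61.MT
import Pool.Agent.H61.LF12

set_option autoImplicit false
set_option linter.all false

/-!
# Many abundant elements: triples, `k`-sets, Steiner systems
-/

namespace Pool.Agent.H61.MT

open Finset Pool.Agent.H61.FC Pool.Agent.H61.LF

/-- the degrees in a Steiner system -/
theorem steiner_deg {G : Finset (Finset ℕ)} {S : Finset ℕ} {k : ℕ}
    (hG : ∀ A ∈ G, A ⊆ S ∧ #A = k)
    (hcod : ∀ x ∈ S, ∀ y ∈ S, x ≠ y → #(G.filter (fun A => x ∈ A ∧ y ∈ A)) = 1) {x : ℕ} (hx : x ∈ S) :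
    #(G.filter (fun A => x ∈ A)) * (k - 1) = #S - 1 := by
  have h1 : ∑ A ∈ G.filter (fun A => x ∈ A), #(A.erase x) = #(S.erase x) := by
    have e1 : ∀ A ∈ G.filter (fun A => x ∈ A), #(A.erase x) =
        ∑ y ∈ S.erase x, if y ∈ A then 1 else 0 := by
      intro A hA
      have hA' := mem_filter.1 hA
      rw [← card_filter]
      congr 1
      ext y
      simp only [mem_erase, mem_filter]
      constructor
      · rintro ⟨h1, h2⟩; exact ⟨⟨h1, (hG A hA'.1).1 h2⟩, h2⟩
      · rintro ⟨⟨h1, _⟩, h2⟩; exact ⟨h1, h2⟩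
    rw [sum_congr rfl e1, sum_comm, card_eq_sum_ones]
    refine sum_congr rfl fun y hy => ?_
    have hy' := mem_erase.1 hy
    rw [← card_filter, filter_filter]
    exact hcod x hx y hy'.2 hy'.1.symm
  have h2 : ∑ A ∈ G.filter (fun A => x ∈ A), #(A.erase x) =
      #(G.filter (fun A => x ∈ A)) * (k - 1) := by
    rw [← smul_eq_mul, ← sum_const]
    refine sum_congr rfl fun A hA => ?_
    have hA' := mem_filter.1 hA
    rw [card_erase_of_mem hA'.2, (hG A hA'.1).2]
  rw [h1, card_erase_of_mem hx] at h2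
  exact h2.symm

/-- the number of abundant points of a Steiner system -/
theorem steiner_many {F G : Finset (Finset ℕ)} {S : Finset ℕ} {k : ℕ} (hk : 2 ≤ k) (hS : 2 ≤ #S)
    (hF : ∀ A ∈ F, ∀ B ∈ F, A ∪ B ∈ F) (hGF : G ⊆ F)
    (hG : ∀ A ∈ G, A ⊆ S ∧ #A = k)
    (hcod : ∀ x ∈ S, ∀ y ∈ S, x ≠ y → #(G.filter (fun A => x ∈ A ∧ y ∈ A)) = 1) :
    #S + 1 ≤ k * #(S.filter (Ab F)) + 2 ^ (k - 1) := by
  by_contra hcon
  push Not at hcon
  set X := S.filter (Ab F) with hX
  set n := #S with hn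
  set a := #X with ha
  have hXS : X ⊆ S := filter_subset _ _
  have hpow : 1 ≤ 2 ^ (k - 1) := Nat.one_le_two_pow
  have hak : a ≤ k * a := Nat.le_mul_of_pos_left _ (by omega)
  have hlin : Linear G := (steiner hk hS hG hcod).1
  have hdeg := fun x (hx : x ∈ S) => steiner_deg hG hcod hx
  -- the number of the blocks
  have hb : k * (k - 1) * #G = n * (n - 1) := by
    have h1 : ∑ x ∈ S, #(G.filter (fun A => x ∈ A)) = #G * k := by
      have e1 : ∀ x ∈ S, #(G.filter (fun A => x ∈ A)) = ∑ A ∈ G, if x ∈ A then 1 else 0 :=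
        fun x _ => card_filter _ _
      rw [sum_congr rfl e1, sum_comm, ← smul_eq_mul, ← sum_const]
      refine sum_congr rfl fun A hA => ?_
      rw [← card_filter, filter_mem_eq_inter, inter_eq_right.2 (hG A hA).1, (hG A hA).2]
    have h2 : ∑ x ∈ S, #(G.filter (fun A => x ∈ A)) * (k - 1) = n * (n - 1) := by
      rw [sum_congr rfl hdeg, sum_const, smul_eq_mul]
    rw [← sum_mul, h1] at h2
    rw [← h2]; ring
  set G' := G.filter (fun A => Disjoint A X) with hG'
  have h1 : #G ≤ #G' + ∑ x ∈ X, #(G.filter (fun A => x ∈ A)) := by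
    refine (card_le_card ?_).trans ((card_union_le _ _).trans
      (Nat.add_le_add_left card_biUnion_le _))
    intro A hA
    rw [mem_union, mem_filter, mem_biUnion]
    by_cases hd : Disjoint A X
    · exact Or.inl ⟨hA, hd⟩
    · rw [not_disjoint_iff] at hd
      obtain ⟨x, hx1, hx2⟩ := hd
      exact Or.inr ⟨x, hx2, mem_filter.2 ⟨hA, hx1⟩⟩
  have h2 : ∑ x ∈ X, #(G.filter (fun A => x ∈ A)) * (k - 1) = a * (n - 1) := by
    rw [sum_congr rfl (fun x hx => hdeg x (hXS hx)), sum_const, smul_eq_mul]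
  rw [← sum_mul] at h2
  have h3 : n * (n - 1) ≤ k * (k - 1) * #G' + k * a * (n - 1) := by
    rw [← hb]
    calc k * (k - 1) * #G ≤ k * (k - 1) * (#G' + ∑ x ∈ X, #(G.filter (fun A => x ∈ A))) :=
          Nat.mul_le_mul_left _ h1
      _ = k * (k - 1) * #G' + k * ((∑ x ∈ X, #(G.filter (fun A => x ∈ A))) * (k - 1)) := by ring
      _ = _ := by rw [h2]; ring
  have hc : #(S \ X) = n - a := card_sdiff_of_subset hXS
  have hne : (S \ X).Nonempty := by rw [← card_pos, hc]; omega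
  obtain ⟨x, hx, hab⟩ := unif_fc (l := 1) (G := G') (S := S \ X) hF ((filter_subset _ _).trans hGF) hne
    hk (fun A hA => by
      have hA' := mem_filter.1 hA
      exact ⟨subset_sdiff.2 ⟨(hG A hA'.1).1, hA'.2⟩, (hG A hA'.1).2⟩)
    (fun x _ y _ hxy => by
      refine le_trans (card_le_card ?_) (hlin.codeg hxy)
      exact filter_subset_filter _ (filter_subset _ _)) le_rfl (by
      rw [one_mul, hc]
      obtain ⟨p, hp⟩ : ∃ p, 2 ^ (k - 1) = p + 1 := ⟨2 ^ (k - 1) - 1, by omega⟩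
      obtain ⟨q, hq⟩ : ∃ q, n = q + 1 := ⟨n - 1, by omega⟩
      rw [hp] at hcon ⊢
      rw [hq] at h3 hcon ⊢
      rw [Nat.add_sub_cancel] at h3 ⊢
      have h4 : (p + 1) * q + k * a * q ≤ (q + 1) * q := by
        rw [← add_mul]
        refine Nat.mul_le_mul_right _ ?_
        omega
      have h5 : p * (q + 1 - a) ≤ p * (q + 1) := Nat.mul_le_mul_left _ (Nat.sub_le _ _)
      have h6 : p * (q + 1) ≤ (p + 1) * q := by
        have : p ≤ q := by omega
        nlinarith
      omega)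
  rw [mem_sdiff] at hx
  exact hx.2 (mem_filter.2 ⟨hx.1, hab⟩)

/-- one abundant element: triples -/
theorem num_three {n : ℕ} (hn : 4 ≤ n) : sInf (adm 3 n 1) = n / 2 + 1 := by
  refine le_antisymm (Nat.sInf_le ?_) ?_
  · intro N hN F hF h
    by_contra hcon
    push Not at hcon
    have h0 : N.filter (Ab F) = ∅ := by rw [← card_eq_zero]; omega
    have h1 := upper3 (G := F.filter (fun A => A.card = 3)) (fun B hB => (mem_filter.1 hB).2)
      hF (filter_subset _ _) N.card N rfl (fun x hx hab => by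
        have : x ∈ N.filter (Ab F) := mem_filter.2 ⟨hx, hab⟩
        rw [h0] at this
        exact notMem_empty x this)
    unfold ins at h1
    rw [filter_filter] at h1
    have e : F.filter (fun A => A.card = 3 ∧ A ⊆ N) = F.filter (fun A => A ⊆ N ∧ A.card = 3) := by
      congr 1; ext A; exact and_comm
    rw [e] at h1
    unfold kS at h
    omega
  · by_contra hcon
    push Not at hcon
    obtain ⟨G, h1, h2, h3⟩ := low3 (range n) (by rw [card_range]; exact hn)
    obtain ⟨F, f1, f2, f3⟩ := lower_of h1 h2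
    rw [card_range] at h3
    have h4 := adm_mem 3 n 1 (range n) (card_range n) F f1 (by unfold kS; omega)
    obtain ⟨x, hx⟩ := card_pos.1 (by omega : 0 < ((range n).filter (Ab F)).card)
    rw [mem_filter] at hx
    have h5 := f3 x hx.1
    have h6 := hx.2
    unfold Ab at h6
    omega

/-- one abundant element: `k`-sets -/
theorem num_one {k : ℕ} (hk : 3 ≤ k) : ∃ C : ℕ, ∀ n : ℕ, 1 ≤ n →
    |2 * ((sInf (adm k n 1) : ℕ) : ℤ) - (n.choose (k - 2) : ℤ)| ≤ C * (n : ℤ) ^ (k - 3) := by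
  obtain ⟨K, hK⟩ := upper_all (α := ℕ) hk
  refine ⟨K + 3, fun n hn => ?_⟩
  have h1 : sInf (adm k n 1) ≤ (n.choose (k - 2) + K * n ^ (k - 3)) / 2 + 1 := by
    refine Nat.sInf_le ?_
    intro N hN F hF h
    obtain ⟨x, hx, hab⟩ := hK N F hF (by
      rw [hN]
      unfold kS at h
      omega)
    exact card_pos.2 ⟨x, mem_filter.2 ⟨hx, hab⟩⟩
  obtain ⟨G, g1, g2, g3⟩ := low4 hk (range n)
  obtain ⟨F, f1, f2, f3⟩ := lower_of g1 g2
  have h4 : G.card < sInf (adm k n 1) := by
    by_contra hcon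
    push Not at hcon
    have h4 := adm_mem k n 1 (range n) (card_range n) F f1 (by unfold kS; omega)
    obtain ⟨x, hx⟩ := card_pos.1 (by omega : 0 < ((range n).filter (Ab F)).card)
    rw [mem_filter] at hx
    have h5 := f3 x hx.1
    have h6 := hx.2
    unfold Ab at h6
    omega
  rw [card_range] at g3
  have h6 : 1 ≤ n ^ (k - 3) := Nat.one_le_pow _ _ hn
  rw [abs_le]
  have h7 : ((n ^ (k - 3) : ℕ) : ℤ) = (n : ℤ) ^ (k - 3) := by push_cast; rfl
  rw [← h7]
  have h8 : 2 * sInf (adm k n 1) ≤ n.choose (k - 2) + (K + 3) * n ^ (k - 3) := by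
    have : 2 * sInf (adm k n 1) ≤ n.choose (k - 2) + K * n ^ (k - 3) + 2 := by omega
    nlinarith
  have h9 : n.choose (k - 2) ≤ 2 * sInf (adm k n 1) + (K + 3) * n ^ (k - 3) := by
    nlinarith
  constructor
  · have : (n.choose (k - 2) : ℤ) ≤ 2 * ((sInf (adm k n 1) : ℕ) : ℤ) + ((K + 3 : ℕ) : ℤ) *
      ((n ^ (k - 3) : ℕ) : ℤ) := by exact_mod_cast h9
    linarith
  · have : 2 * ((sInf (adm k n 1) : ℕ) : ℤ) ≤ (n.choose (k - 2) : ℤ) + ((K + 3 : ℕ) : ℤ) *
      ((n ^ (k - 3) : ℕ) : ℤ) := by exact_mod_cast h8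
    linarith

end Pool.Agent.H61.MT
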