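import Pool.Agent.H61.Low
import Pool.Agent.H61.Ext

set_option autoImplicit false
set_option linter.all false

/-!
# The components have no weights
-/

namespace Pool.Agent.H61.FC

open Finset

variable {α : Type*} [DecidableEq α]

theorem NW_p1 {v0 v1 v2 : α} (nd : [v0, v1, v2].Nodup) :
    NW ({v0, v1, v2} : Finset α) ({{v0, v1, v2}} : Finset (Finset α)) := by
  simp only [List.nodup_cons, List.mem_cons, List.not_mem_nil, not_or, not_false_eq_true,
    and_true, or_false, List.nodup_nil] at nd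
  obtain ⟨⟨h0_1, h0_2⟩, h1_2⟩ := nd
  replace h0_1 : v0 ≠ v1 := h0_1
  have h1_0 : v1 ≠ v0 := h0_1.symm
  replace h0_2 : v0 ≠ v2 := h0_2
  have h2_0 : v2 ≠ v0 := h0_2.symm
  replace h1_2 : v1 ≠ v2 := h1_2
  have h2_1 : v2 ≠ v1 := h1_2.symm
  intro c hc0 hc
  have m0 : v0 ∈ ({v0, v1, v2} : Finset α) := by simp only [mem_insert, mem_singleton, true_or, or_true]
  have m1 : v1 ∈ ({v0, v1, v2} : Finset α) := by simp only [mem_insert, mem_singleton, true_or, or_true]
  have m2 : v2 ∈ ({v0, v1, v2} : Finset α) := by simp only [mem_insert, mem_singleton, true_or, or_true]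
  have hB : ∀ B ∈ ({{v0, v1, v2}} : Finset (Finset α)), B = {v0, v1, v2} := by
    intro B hB
    simpa only [mem_insert, mem_singleton] using hB
  have e0 := form_edge hc m0 m1 m2 h1_0 h2_0 h1_2 (by
    intro B hB' hx
    rcases hB B hB' with rfl
    · simp only [mem_insert, mem_singleton, true_or, or_true, and_self])
  have e1 := form_edge hc m1 m0 m2 h0_1 h2_1 h0_2 (by
    intro B hB' hx
    rcases hB B hB' with rfl
    · simp only [mem_insert, mem_singleton, true_or, or_true, and_self])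
  have e2 := form_edge hc m2 m0 m1 h0_2 h1_2 h0_1 (by
    intro B hB' hx
    rcases hB B hB' with rfl
    · simp only [mem_insert, mem_singleton, true_or, or_true, and_self])
  have f0 := hc0 v0
  have f1 := hc0 v1
  have f2 := hc0 v2
  intro x hx
  simp only [mem_insert, mem_singleton] at hx
  rcases hx with hx | hx | hx <;>
  · rw [hx]; linarith

theorem NW_p2 {v0 v1 v2 v3 v4 : α} (nd : [v0, v1, v2, v3, v4].Nodup) :
    NW ({v0, v1, v2, v3, v4} : Finset α) ({{v0, v1, v2}, {v2, v3, v4}} : Finset (Finset α)) := by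
  simp only [List.nodup_cons, List.mem_cons, List.not_mem_nil, not_or, not_false_eq_true,
    and_true, or_false, List.nodup_nil] at nd
  obtain ⟨⟨h0_1, h0_2, h0_3, h0_4⟩, ⟨h1_2, h1_3, h1_4⟩, ⟨h2_3, h2_4⟩, h3_4⟩ := nd
  replace h0_1 : v0 ≠ v1 := h0_1
  have h1_0 : v1 ≠ v0 := h0_1.symm
  replace h0_2 : v0 ≠ v2 := h0_2
  have h2_0 : v2 ≠ v0 := h0_2.symm
  replace h0_3 : v0 ≠ v3 := h0_3
  have h3_0 : v3 ≠ v0 := h0_3.symm
  replace h0_4 : v0 ≠ v4 := h0_4
  have h4_0 : v4 ≠ v0 := h0_4.symm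
  replace h1_2 : v1 ≠ v2 := h1_2
  have h2_1 : v2 ≠ v1 := h1_2.symm
  replace h1_3 : v1 ≠ v3 := h1_3
  have h3_1 : v3 ≠ v1 := h1_3.symm
  replace h1_4 : v1 ≠ v4 := h1_4
  have h4_1 : v4 ≠ v1 := h1_4.symm
  replace h2_3 : v2 ≠ v3 := h2_3
  have h3_2 : v3 ≠ v2 := h2_3.symm
  replace h2_4 : v2 ≠ v4 := h2_4
  have h4_2 : v4 ≠ v2 := h2_4.symm
  replace h3_4 : v3 ≠ v4 := h3_4
  have h4_3 : v4 ≠ v3 := h3_4.symm
  intro c hc0 hc
  have m0 : v0 ∈ ({v0, v1, v2, v3, v4} : Finset α) := by simp only [mem_insert, mem_singleton, true_or, or_true]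
  have m1 : v1 ∈ ({v0, v1, v2, v3, v4} : Finset α) := by simp only [mem_insert, mem_singleton, true_or, or_true]
  have m2 : v2 ∈ ({v0, v1, v2, v3, v4} : Finset α) := by simp only [mem_insert, mem_singleton, true_or, or_true]
  have m3 : v3 ∈ ({v0, v1, v2, v3, v4} : Finset α) := by simp only [mem_insert, mem_singleton, true_or, or_true]
  have m4 : v4 ∈ ({v0, v1, v2, v3, v4} : Finset α) := by simp only [mem_insert, mem_singleton, true_or, or_true]
  have hB : ∀ B ∈ ({{v0, v1, v2}, {v2, v3, v4}} : Finset (Finset α)), B = {v0, v1, v2} ∨ B = {v2, v3, v4} := by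
    intro B hB
    simpa only [mem_insert, mem_singleton] using hB
  have e0 := form_edge hc m0 m1 m2 h1_0 h2_0 h1_2 (by
    intro B hB' hx
    rcases hB B hB' with rfl | rfl
    · simp only [mem_insert, mem_singleton, true_or, or_true, and_self]
    · simp only [mem_insert, mem_singleton] at hx
      exact absurd hx (by rintro (h | h | h); exacts [h0_2 h, h0_3 h, h0_4 h]))
  have e1 := form_edge hc m1 m0 m2 h0_1 h2_1 h0_2 (by
    intro B hB' hx
    rcases hB B hB' with rfl | rfl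
    · simp only [mem_insert, mem_singleton, true_or, or_true, and_self]
    · simp only [mem_insert, mem_singleton] at hx
      exact absurd hx (by rintro (h | h | h); exacts [h1_2 h, h1_3 h, h1_4 h]))
  have e2 := form_edge2 hc m2 m0 m1 m3 m4 h0_2 h1_2 h3_2 h4_2 h0_1 h3_4 h0_3 h0_4 h1_3 h1_4 (by
    intro B hB' hx
    rcases hB B hB' with rfl | rfl
    · simp only [mem_insert, mem_singleton, true_or, or_true, and_self]
    · simp only [mem_insert, mem_singleton, true_or, or_true, and_self])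
  have e3 := form_edge hc m3 m2 m4 h2_3 h4_3 h2_4 (by
    intro B hB' hx
    rcases hB B hB' with rfl | rfl
    · simp only [mem_insert, mem_singleton] at hx
      exact absurd hx (by rintro (h | h | h); exacts [h3_0 h, h3_1 h, h3_2 h])
    · simp only [mem_insert, mem_singleton, true_or, or_true, and_self])
  have e4 := form_edge hc m4 m2 m3 h2_4 h3_4 h2_3 (by
    intro B hB' hx
    rcases hB B hB' with rfl | rfl
    · simp only [mem_insert, mem_singleton] at hx
      exact absurd hx (by rintro (h | h | h); exacts [h4_0 h, h4_1 h, h4_2 h])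
    · simp only [mem_insert, mem_singleton, true_or, or_true, and_self])
  have f0 := hc0 v0
  have f1 := hc0 v1
  have f2 := hc0 v2
  have f3 := hc0 v3
  have f4 := hc0 v4
  intro x hx
  simp only [mem_insert, mem_singleton] at hx
  rcases hx with hx | hx | hx | hx | hx <;>
  · rw [hx]; linarith

theorem NW_p3 {v0 v1 v2 v3 v4 v5 v6 : α} (nd : [v0, v1, v2, v3, v4, v5, v6].Nodup) :
    NW ({v0, v1, v2, v3, v4, v5, v6} : Finset α) ({{v0, v1, v2}, {v2, v3, v4}, {v4, v5, v6}} : Finset (Finset α)) := by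
  simp only [List.nodup_cons, List.mem_cons, List.not_mem_nil, not_or, not_false_eq_true,
    and_true, or_false, List.nodup_nil] at nd
  obtain ⟨⟨h0_1, h0_2, h0_3, h0_4, h0_5, h0_6⟩, ⟨h1_2, h1_3, h1_4, h1_5, h1_6⟩, ⟨h2_3, h2_4, h2_5, h2_6⟩, ⟨h3_4, h3_5, h3_6⟩, ⟨h4_5, h4_6⟩, h5_6⟩ := nd
  replace h0_1 : v0 ≠ v1 := h0_1
  have h1_0 : v1 ≠ v0 := h0_1.symm
  replace h0_2 : v0 ≠ v2 := h0_2
  have h2_0 : v2 ≠ v0 := h0_2.symm
  replace h0_3 : v0 ≠ v3 := h0_3
  have h3_0 : v3 ≠ v0 := h0_3.symm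
  replace h0_4 : v0 ≠ v4 := h0_4
  have h4_0 : v4 ≠ v0 := h0_4.symm
  replace h0_5 : v0 ≠ v5 := h0_5
  have h5_0 : v5 ≠ v0 := h0_5.symm
  replace h0_6 : v0 ≠ v6 := h0_6
  have h6_0 : v6 ≠ v0 := h0_6.symm
  replace h1_2 : v1 ≠ v2 := h1_2
  have h2_1 : v2 ≠ v1 := h1_2.symm
  replace h1_3 : v1 ≠ v3 := h1_3
  have h3_1 : v3 ≠ v1 := h1_3.symm
  replace h1_4 : v1 ≠ v4 := h1_4
  have h4_1 : v4 ≠ v1 := h1_4.symm
  replace h1_5 : v1 ≠ v5 := h1_5
  have h5_1 : v5 ≠ v1 := h1_5.symm
  replace h1_6 : v1 ≠ v6 := h1_6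
  have h6_1 : v6 ≠ v1 := h1_6.symm
  replace h2_3 : v2 ≠ v3 := h2_3
  have h3_2 : v3 ≠ v2 := h2_3.symm
  replace h2_4 : v2 ≠ v4 := h2_4
  have h4_2 : v4 ≠ v2 := h2_4.symm
  replace h2_5 : v2 ≠ v5 := h2_5
  have h5_2 : v5 ≠ v2 := h2_5.symm
  replace h2_6 : v2 ≠ v6 := h2_6
  have h6_2 : v6 ≠ v2 := h2_6.symm
  replace h3_4 : v3 ≠ v4 := h3_4
  have h4_3 : v4 ≠ v3 := h3_4.symm
  replace h3_5 : v3 ≠ v5 := h3_5
  have h5_3 : v5 ≠ v3 := h3_5.symm
  replace h3_6 : v3 ≠ v6 := h3_6
  have h6_3 : v6 ≠ v3 := h3_6.symm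
  replace h4_5 : v4 ≠ v5 := h4_5
  have h5_4 : v5 ≠ v4 := h4_5.symm
  replace h4_6 : v4 ≠ v6 := h4_6
  have h6_4 : v6 ≠ v4 := h4_6.symm
  replace h5_6 : v5 ≠ v6 := h5_6
  have h6_5 : v6 ≠ v5 := h5_6.symm
  intro c hc0 hc
  have m0 : v0 ∈ ({v0, v1, v2, v3, v4, v5, v6} : Finset α) := by simp only [mem_insert, mem_singleton, true_or, or_true]
  have m1 : v1 ∈ ({v0, v1, v2, v3, v4, v5, v6} : Finset α) := by simp only [mem_insert, mem_singleton, true_or, or_true]
  have m2 : v2 ∈ ({v0, v1, v2, v3, v4, v5, v6} : Finset α) := by simp only [mem_insert, mem_singleton, true_or, or_true]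
  have m3 : v3 ∈ ({v0, v1, v2, v3, v4, v5, v6} : Finset α) := by simp only [mem_insert, mem_singleton, true_or, or_true]
  have m4 : v4 ∈ ({v0, v1, v2, v3, v4, v5, v6} : Finset α) := by simp only [mem_insert, mem_singleton, true_or, or_true]
  have m5 : v5 ∈ ({v0, v1, v2, v3, v4, v5, v6} : Finset α) := by simp only [mem_insert, mem_singleton, true_or, or_true]
  have m6 : v6 ∈ ({v0, v1, v2, v3, v4, v5, v6} : Finset α) := by simp only [mem_insert, mem_singleton, true_or, or_true]
  have hB : ∀ B ∈ ({{v0, v1, v2}, {v2, v3, v4}, {v4, v5, v6}} : Finset (Finset α)), B = {v0, v1, v2} ∨ B = {v2, v3, v4} ∨ B = {v4, v5, v6} := by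
    intro B hB
    simpa only [mem_insert, mem_singleton] using hB
  have e0 := form_edge hc m0 m1 m2 h1_0 h2_0 h1_2 (by
    intro B hB' hx
    rcases hB B hB' with rfl | rfl | rfl
    · simp only [mem_insert, mem_singleton, true_or, or_true, and_self]
    · simp only [mem_insert, mem_singleton] at hx
      exact absurd hx (by rintro (h | h | h); exacts [h0_2 h, h0_3 h, h0_4 h])
    · simp only [mem_insert, mem_singleton] at hx
      exact absurd hx (by rintro (h | h | h); exacts [h0_4 h, h0_5 h, h0_6 h]))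
  have e1 := form_edge hc m1 m0 m2 h0_1 h2_1 h0_2 (by
    intro B hB' hx
    rcases hB B hB' with rfl | rfl | rfl
    · simp only [mem_insert, mem_singleton, true_or, or_true, and_self]
    · simp only [mem_insert, mem_singleton] at hx
      exact absurd hx (by rintro (h | h | h); exacts [h1_2 h, h1_3 h, h1_4 h])
    · simp only [mem_insert, mem_singleton] at hx
      exact absurd hx (by rintro (h | h | h); exacts [h1_4 h, h1_5 h, h1_6 h]))
  have e2 := form_edge2 hc m2 m0 m1 m3 m4 h0_2 h1_2 h3_2 h4_2 h0_1 h3_4 h0_3 h0_4 h1_3 h1_4 (by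
    intro B hB' hx
    rcases hB B hB' with rfl | rfl | rfl
    · simp only [mem_insert, mem_singleton, true_or, or_true, and_self]
    · simp only [mem_insert, mem_singleton, true_or, or_true, and_self]
    · simp only [mem_insert, mem_singleton] at hx
      exact absurd hx (by rintro (h | h | h); exacts [h2_4 h, h2_5 h, h2_6 h]))
  have e3 := form_edge hc m3 m2 m4 h2_3 h4_3 h2_4 (by
    intro B hB' hx
    rcases hB B hB' with rfl | rfl | rfl
    · simp only [mem_insert, mem_singleton] at hx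
      exact absurd hx (by rintro (h | h | h); exacts [h3_0 h, h3_1 h, h3_2 h])
    · simp only [mem_insert, mem_singleton, true_or, or_true, and_self]
    · simp only [mem_insert, mem_singleton] at hx
      exact absurd hx (by rintro (h | h | h); exacts [h3_4 h, h3_5 h, h3_6 h]))
  have e4 := form_edge2 hc m4 m2 m3 m5 m6 h2_4 h3_4 h5_4 h6_4 h2_3 h5_6 h2_5 h2_6 h3_5 h3_6 (by
    intro B hB' hx
    rcases hB B hB' with rfl | rfl | rfl
    · simp only [mem_insert, mem_singleton] at hx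
      exact absurd hx (by rintro (h | h | h); exacts [h4_0 h, h4_1 h, h4_2 h])
    · simp only [mem_insert, mem_singleton, true_or, or_true, and_self]
    · simp only [mem_insert, mem_singleton, true_or, or_true, and_self])
  have e5 := form_edge hc m5 m4 m6 h4_5 h6_5 h4_6 (by
    intro B hB' hx
    rcases hB B hB' with rfl | rfl | rfl
    · simp only [mem_insert, mem_singleton] at hx
      exact absurd hx (by rintro (h | h | h); exacts [h5_0 h, h5_1 h, h5_2 h])
    · simp only [mem_insert, mem_singleton] at hx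
      exact absurd hx (by rintro (h | h | h); exacts [h5_2 h, h5_3 h, h5_4 h])
    · simp only [mem_insert, mem_singleton, true_or, or_true, and_self])
  have e6 := form_edge hc m6 m4 m5 h4_6 h5_6 h4_5 (by
    intro B hB' hx
    rcases hB B hB' with rfl | rfl | rfl
    · simp only [mem_insert, mem_singleton] at hx
      exact absurd hx (by rintro (h | h | h); exacts [h6_0 h, h6_1 h, h6_2 h])
    · simp only [mem_insert, mem_singleton] at hx
      exact absurd hx (by rintro (h | h | h); exacts [h6_2 h, h6_3 h, h6_4 h])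
    · simp only [mem_insert, mem_singleton, true_or, or_true, and_self])
  have f0 := hc0 v0
  have f1 := hc0 v1
  have f2 := hc0 v2
  have f3 := hc0 v3
  have f4 := hc0 v4
  have f5 := hc0 v5
  have f6 := hc0 v6
  intro x hx
  simp only [mem_insert, mem_singleton] at hx
  rcases hx with hx | hx | hx | hx | hx | hx | hx <;>
  · rw [hx]; linarith

theorem NW_p4 {v0 v1 v2 v3 v4 v5 v6 v7 v8 : α} (nd : [v0, v1, v2, v3, v4, v5, v6, v7, v8].Nodup) :
    NW ({v0, v1, v2, v3, v4, v5, v6, v7, v8} : Finset α) ({{v0, v1, v2}, {v2, v3, v4}, {v4, v5, v6}, {v6, v7, v8}} : Finset (Finset α)) := by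
  simp only [List.nodup_cons, List.mem_cons, List.not_mem_nil, not_or, not_false_eq_true,
    and_true, or_false, List.nodup_nil] at nd
  obtain ⟨⟨h0_1, h0_2, h0_3, h0_4, h0_5, h0_6, h0_7, h0_8⟩, ⟨h1_2, h1_3, h1_4, h1_5, h1_6, h1_7, h1_8⟩, ⟨h2_3, h2_4, h2_5, h2_6, h2_7, h2_8⟩, ⟨h3_4, h3_5, h3_6, h3_7, h3_8⟩, ⟨h4_5, h4_6, h4_7, h4_8⟩, ⟨h5_6, h5_7, h5_8⟩, ⟨h6_7, h6_8⟩, h7_8⟩ := nd
  replace h0_1 : v0 ≠ v1 := h0_1
  have h1_0 : v1 ≠ v0 := h0_1.symm
  replace h0_2 : v0 ≠ v2 := h0_2
  have h2_0 : v2 ≠ v0 := h0_2.symm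
  replace h0_3 : v0 ≠ v3 := h0_3
  have h3_0 : v3 ≠ v0 := h0_3.symm
  replace h0_4 : v0 ≠ v4 := h0_4
  have h4_0 : v4 ≠ v0 := h0_4.symm
  replace h0_5 : v0 ≠ v5 := h0_5
  have h5_0 : v5 ≠ v0 := h0_5.symm
  replace h0_6 : v0 ≠ v6 := h0_6
  have h6_0 : v6 ≠ v0 := h0_6.symm
  replace h0_7 : v0 ≠ v7 := h0_7
  have h7_0 : v7 ≠ v0 := h0_7.symm
  replace h0_8 : v0 ≠ v8 := h0_8
  have h8_0 : v8 ≠ v0 := h0_8.symm
  replace h1_2 : v1 ≠ v2 := h1_2
  have h2_1 : v2 ≠ v1 := h1_2.symm
  replace h1_3 : v1 ≠ v3 := h1_3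
  have h3_1 : v3 ≠ v1 := h1_3.symm
  replace h1_4 : v1 ≠ v4 := h1_4
  have h4_1 : v4 ≠ v1 := h1_4.symm
  replace h1_5 : v1 ≠ v5 := h1_5
  have h5_1 : v5 ≠ v1 := h1_5.symm
  replace h1_6 : v1 ≠ v6 := h1_6
  have h6_1 : v6 ≠ v1 := h1_6.symm
  replace h1_7 : v1 ≠ v7 := h1_7
  have h7_1 : v7 ≠ v1 := h1_7.symm
  replace h1_8 : v1 ≠ v8 := h1_8
  have h8_1 : v8 ≠ v1 := h1_8.symm
  replace h2_3 : v2 ≠ v3 := h2_3
  have h3_2 : v3 ≠ v2 := h2_3.symm
  replace h2_4 : v2 ≠ v4 := h2_4
  have h4_2 : v4 ≠ v2 := h2_4.symm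
  replace h2_5 : v2 ≠ v5 := h2_5
  have h5_2 : v5 ≠ v2 := h2_5.symm
  replace h2_6 : v2 ≠ v6 := h2_6
  have h6_2 : v6 ≠ v2 := h2_6.symm
  replace h2_7 : v2 ≠ v7 := h2_7
  have h7_2 : v7 ≠ v2 := h2_7.symm
  replace h2_8 : v2 ≠ v8 := h2_8
  have h8_2 : v8 ≠ v2 := h2_8.symm
  replace h3_4 : v3 ≠ v4 := h3_4
  have h4_3 : v4 ≠ v3 := h3_4.symm
  replace h3_5 : v3 ≠ v5 := h3_5
  have h5_3 : v5 ≠ v3 := h3_5.symm
  replace h3_6 : v3 ≠ v6 := h3_6
  have h6_3 : v6 ≠ v3 := h3_6.symm
  replace h3_7 : v3 ≠ v7 := h3_7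
  have h7_3 : v7 ≠ v3 := h3_7.symm
  replace h3_8 : v3 ≠ v8 := h3_8
  have h8_3 : v8 ≠ v3 := h3_8.symm
  replace h4_5 : v4 ≠ v5 := h4_5
  have h5_4 : v5 ≠ v4 := h4_5.symm
  replace h4_6 : v4 ≠ v6 := h4_6
  have h6_4 : v6 ≠ v4 := h4_6.symm
  replace h4_7 : v4 ≠ v7 := h4_7
  have h7_4 : v7 ≠ v4 := h4_7.symm
  replace h4_8 : v4 ≠ v8 := h4_8
  have h8_4 : v8 ≠ v4 := h4_8.symm
  replace h5_6 : v5 ≠ v6 := h5_6
  have h6_5 : v6 ≠ v5 := h5_6.symm
  replace h5_7 : v5 ≠ v7 := h5_7
  have h7_5 : v7 ≠ v5 := h5_7.symm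
  replace h5_8 : v5 ≠ v8 := h5_8
  have h8_5 : v8 ≠ v5 := h5_8.symm
  replace h6_7 : v6 ≠ v7 := h6_7
  have h7_6 : v7 ≠ v6 := h6_7.symm
  replace h6_8 : v6 ≠ v8 := h6_8
  have h8_6 : v8 ≠ v6 := h6_8.symm
  replace h7_8 : v7 ≠ v8 := h7_8
  have h8_7 : v8 ≠ v7 := h7_8.symm
  intro c hc0 hc
  have m0 : v0 ∈ ({v0, v1, v2, v3, v4, v5, v6, v7, v8} : Finset α) := by simp only [mem_insert, mem_singleton, true_or, or_true]
  have m1 : v1 ∈ ({v0, v1, v2, v3, v4, v5, v6, v7, v8} : Finset α) := by simp only [mem_insert, mem_singleton, true_or, or_true]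
  have m2 : v2 ∈ ({v0, v1, v2, v3, v4, v5, v6, v7, v8} : Finset α) := by simp only [mem_insert, mem_singleton, true_or, or_true]
  have m3 : v3 ∈ ({v0, v1, v2, v3, v4, v5, v6, v7, v8} : Finset α) := by simp only [mem_insert, mem_singleton, true_or, or_true]
  have m4 : v4 ∈ ({v0, v1, v2, v3, v4, v5, v6, v7, v8} : Finset α) := by simp only [mem_insert, mem_singleton, true_or, or_true]
  have m5 : v5 ∈ ({v0, v1, v2, v3, v4, v5, v6, v7, v8} : Finset α) := by simp only [mem_insert, mem_singleton, true_or, or_true]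
  have m6 : v6 ∈ ({v0, v1, v2, v3, v4, v5, v6, v7, v8} : Finset α) := by simp only [mem_insert, mem_singleton, true_or, or_true]
  have m7 : v7 ∈ ({v0, v1, v2, v3, v4, v5, v6, v7, v8} : Finset α) := by simp only [mem_insert, mem_singleton, true_or, or_true]
  have m8 : v8 ∈ ({v0, v1, v2, v3, v4, v5, v6, v7, v8} : Finset α) := by simp only [mem_insert, mem_singleton, true_or, or_true]
  have hB : ∀ B ∈ ({{v0, v1, v2}, {v2, v3, v4}, {v4, v5, v6}, {v6, v7, v8}} : Finset (Finset α)), B = {v0, v1, v2} ∨ B = {v2, v3, v4} ∨ B = {v4, v5, v6} ∨ B = {v6, v7, v8} := by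
    intro B hB
    simpa only [mem_insert, mem_singleton] using hB
  have e0 := form_edge hc m0 m1 m2 h1_0 h2_0 h1_2 (by
    intro B hB' hx
    rcases hB B hB' with rfl | rfl | rfl | rfl
    · simp only [mem_insert, mem_singleton, true_or, or_true, and_self]
    · simp only [mem_insert, mem_singleton] at hx
      exact absurd hx (by rintro (h | h | h); exacts [h0_2 h, h0_3 h, h0_4 h])
    · simp only [mem_insert, mem_singleton] at hx
      exact absurd hx (by rintro (h | h | h); exacts [h0_4 h, h0_5 h, h0_6 h])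
    · simp only [mem_insert, mem_singleton] at hx
      exact absurd hx (by rintro (h | h | h); exacts [h0_6 h, h0_7 h, h0_8 h]))
  have e1 := form_edge hc m1 m0 m2 h0_1 h2_1 h0_2 (by
    intro B hB' hx
    rcases hB B hB' with rfl | rfl | rfl | rfl
    · simp only [mem_insert, mem_singleton, true_or, or_true, and_self]
    · simp only [mem_insert, mem_singleton] at hx
      exact absurd hx (by rintro (h | h | h); exacts [h1_2 h, h1_3 h, h1_4 h])
    · simp only [mem_insert, mem_singleton] at hx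
      exact absurd hx (by rintro (h | h | h); exacts [h1_4 h, h1_5 h, h1_6 h])
    · simp only [mem_insert, mem_singleton] at hx
      exact absurd hx (by rintro (h | h | h); exacts [h1_6 h, h1_7 h, h1_8 h]))
  have e2 := form_edge2 hc m2 m0 m1 m3 m4 h0_2 h1_2 h3_2 h4_2 h0_1 h3_4 h0_3 h0_4 h1_3 h1_4 (by
    intro B hB' hx
    rcases hB B hB' with rfl | rfl | rfl | rfl
    · simp only [mem_insert, mem_singleton, true_or, or_true, and_self]
    · simp only [mem_insert, mem_singleton, true_or, or_true, and_self]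
    · simp only [mem_insert, mem_singleton] at hx
      exact absurd hx (by rintro (h | h | h); exacts [h2_4 h, h2_5 h, h2_6 h])
    · simp only [mem_insert, mem_singleton] at hx
      exact absurd hx (by rintro (h | h | h); exacts [h2_6 h, h2_7 h, h2_8 h]))
  have e3 := form_edge hc m3 m2 m4 h2_3 h4_3 h2_4 (by
    intro B hB' hx
    rcases hB B hB' with rfl | rfl | rfl | rfl
    · simp only [mem_insert, mem_singleton] at hx
      exact absurd hx (by rintro (h | h | h); exacts [h3_0 h, h3_1 h, h3_2 h])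
    · simp only [mem_insert, mem_singleton, true_or, or_true, and_self]
    · simp only [mem_insert, mem_singleton] at hx
      exact absurd hx (by rintro (h | h | h); exacts [h3_4 h, h3_5 h, h3_6 h])
    · simp only [mem_insert, mem_singleton] at hx
      exact absurd hx (by rintro (h | h | h); exacts [h3_6 h, h3_7 h, h3_8 h]))
  have e4 := form_edge2 hc m4 m2 m3 m5 m6 h2_4 h3_4 h5_4 h6_4 h2_3 h5_6 h2_5 h2_6 h3_5 h3_6 (by
    intro B hB' hx
    rcases hB B hB' with rfl | rfl | rfl | rfl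
    · simp only [mem_insert, mem_singleton] at hx
      exact absurd hx (by rintro (h | h | h); exacts [h4_0 h, h4_1 h, h4_2 h])
    · simp only [mem_insert, mem_singleton, true_or, or_true, and_self]
    · simp only [mem_insert, mem_singleton, true_or, or_true, and_self]
    · simp only [mem_insert, mem_singleton] at hx
      exact absurd hx (by rintro (h | h | h); exacts [h4_6 h, h4_7 h, h4_8 h]))
  have e5 := form_edge hc m5 m4 m6 h4_5 h6_5 h4_6 (by
    intro B hB' hx
    rcases hB B hB' with rfl | rfl | rfl | rfl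
    · simp only [mem_insert, mem_singleton] at hx
      exact absurd hx (by rintro (h | h | h); exacts [h5_0 h, h5_1 h, h5_2 h])
    · simp only [mem_insert, mem_singleton] at hx
      exact absurd hx (by rintro (h | h | h); exacts [h5_2 h, h5_3 h, h5_4 h])
    · simp only [mem_insert, mem_singleton, true_or, or_true, and_self]
    · simp only [mem_insert, mem_singleton] at hx
      exact absurd hx (by rintro (h | h | h); exacts [h5_6 h, h5_7 h, h5_8 h]))
  have e6 := form_edge2 hc m6 m4 m5 m7 m8 h4_6 h5_6 h7_6 h8_6 h4_5 h7_8 h4_7 h4_8 h5_7 h5_8 (by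
    intro B hB' hx
    rcases hB B hB' with rfl | rfl | rfl | rfl
    · simp only [mem_insert, mem_singleton] at hx
      exact absurd hx (by rintro (h | h | h); exacts [h6_0 h, h6_1 h, h6_2 h])
    · simp only [mem_insert, mem_singleton] at hx
      exact absurd hx (by rintro (h | h | h); exacts [h6_2 h, h6_3 h, h6_4 h])
    · simp only [mem_insert, mem_singleton, true_or, or_true, and_self]
    · simp only [mem_insert, mem_singleton, true_or, or_true, and_self])
  have e7 := form_edge hc m7 m6 m8 h6_7 h8_7 h6_8 (by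
    intro B hB' hx
    rcases hB B hB' with rfl | rfl | rfl | rfl
    · simp only [mem_insert, mem_singleton] at hx
      exact absurd hx (by rintro (h | h | h); exacts [h7_0 h, h7_1 h, h7_2 h])
    · simp only [mem_insert, mem_singleton] at hx
      exact absurd hx (by rintro (h | h | h); exacts [h7_2 h, h7_3 h, h7_4 h])
    · simp only [mem_insert, mem_singleton] at hx
      exact absurd hx (by rintro (h | h | h); exacts [h7_4 h, h7_5 h, h7_6 h])
    · simp only [mem_insert, mem_singleton, true_or, or_true, and_self])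
  have e8 := form_edge hc m8 m6 m7 h6_8 h7_8 h6_7 (by
    intro B hB' hx
    rcases hB B hB' with rfl | rfl | rfl | rfl
    · simp only [mem_insert, mem_singleton] at hx
      exact absurd hx (by rintro (h | h | h); exacts [h8_0 h, h8_1 h, h8_2 h])
    · simp only [mem_insert, mem_singleton] at hx
      exact absurd hx (by rintro (h | h | h); exacts [h8_2 h, h8_3 h, h8_4 h])
    · simp only [mem_insert, mem_singleton] at hx
      exact absurd hx (by rintro (h | h | h); exacts [h8_4 h, h8_5 h, h8_6 h])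
    · simp only [mem_insert, mem_singleton, true_or, or_true, and_self])
  have f0 := hc0 v0
  have f1 := hc0 v1
  have f2 := hc0 v2
  have f3 := hc0 v3
  have f4 := hc0 v4
  have f5 := hc0 v5
  have f6 := hc0 v6
  have f7 := hc0 v7
  have f8 := hc0 v8
  intro x hx
  simp only [mem_insert, mem_singleton] at hx
  rcases hx with hx | hx | hx | hx | hx | hx | hx | hx | hx <;>
  · rw [hx]; linarith

theorem NW_q2 {v0 v1 v2 v3 : α} (nd : [v0, v1, v2, v3].Nodup) :
    NW ({v0, v1, v2, v3} : Finset α) ({{v0, v1, v2}, {v1, v2, v3}} : Finset (Finset α)) := by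
  simp only [List.nodup_cons, List.mem_cons, List.not_mem_nil, not_or, not_false_eq_true,
    and_true, or_false, List.nodup_nil] at nd
  obtain ⟨⟨h0_1, h0_2, h0_3⟩, ⟨h1_2, h1_3⟩, h2_3⟩ := nd
  replace h0_1 : v0 ≠ v1 := h0_1
  have h1_0 : v1 ≠ v0 := h0_1.symm
  replace h0_2 : v0 ≠ v2 := h0_2
  have h2_0 : v2 ≠ v0 := h0_2.symm
  replace h0_3 : v0 ≠ v3 := h0_3
  have h3_0 : v3 ≠ v0 := h0_3.symm
  replace h1_2 : v1 ≠ v2 := h1_2
  have h2_1 : v2 ≠ v1 := h1_2.symm
  replace h1_3 : v1 ≠ v3 := h1_3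
  have h3_1 : v3 ≠ v1 := h1_3.symm
  replace h2_3 : v2 ≠ v3 := h2_3
  have h3_2 : v3 ≠ v2 := h2_3.symm
  intro c hc0 hc
  have m0 : v0 ∈ ({v0, v1, v2, v3} : Finset α) := by simp only [mem_insert, mem_singleton, true_or, or_true]
  have m1 : v1 ∈ ({v0, v1, v2, v3} : Finset α) := by simp only [mem_insert, mem_singleton, true_or, or_true]
  have m2 : v2 ∈ ({v0, v1, v2, v3} : Finset α) := by simp only [mem_insert, mem_singleton, true_or, or_true]
  have m3 : v3 ∈ ({v0, v1, v2, v3} : Finset α) := by simp only [mem_insert, mem_singleton, true_or, or_true]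
  have hB : ∀ B ∈ ({{v0, v1, v2}, {v1, v2, v3}} : Finset (Finset α)), B = {v0, v1, v2} ∨ B = {v1, v2, v3} := by
    intro B hB
    simpa only [mem_insert, mem_singleton] using hB
  have e0 := form_edge hc m0 m1 m2 h1_0 h2_0 h1_2 (by
    intro B hB' hx
    rcases hB B hB' with rfl | rfl
    · simp only [mem_insert, mem_singleton, true_or, or_true, and_self]
    · simp only [mem_insert, mem_singleton] at hx
      exact absurd hx (by rintro (h | h | h); exacts [h0_1 h, h0_2 h, h0_3 h]))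
  have e1 := form_star hc m1 m2 m0 m3 h2_1 h0_1 h3_1 h2_0 h2_3 h0_3 (by
    intro B hB' hx
    rcases hB B hB' with rfl | rfl
    · simp only [mem_insert, mem_singleton, true_or, or_true, and_self]
    · simp only [mem_insert, mem_singleton, true_or, or_true, and_self])
  have e2 := form_star hc m2 m1 m0 m3 h1_2 h0_2 h3_2 h1_0 h1_3 h0_3 (by
    intro B hB' hx
    rcases hB B hB' with rfl | rfl
    · simp only [mem_insert, mem_singleton, true_or, or_true, and_self]
    · simp only [mem_insert, mem_singleton, true_or, or_true, and_self])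
  have e3 := form_edge hc m3 m1 m2 h1_3 h2_3 h1_2 (by
    intro B hB' hx
    rcases hB B hB' with rfl | rfl
    · simp only [mem_insert, mem_singleton] at hx
      exact absurd hx (by rintro (h | h | h); exacts [h3_0 h, h3_1 h, h3_2 h])
    · simp only [mem_insert, mem_singleton, true_or, or_true, and_self])
  have f0 := hc0 v0
  have f1 := hc0 v1
  have f2 := hc0 v2
  have f3 := hc0 v3
  intro x hx
  simp only [mem_insert, mem_singleton] at hx
  rcases hx with hx | hx | hx | hx <;>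
  · rw [hx]; linarith

theorem NW_q3 {v0 v1 v2 v3 v4 v5 : α} (nd : [v0, v1, v2, v3, v4, v5].Nodup) :
    NW ({v0, v1, v2, v3, v4, v5} : Finset α) ({{v0, v1, v2}, {v2, v3, v4}, {v3, v4, v5}} : Finset (Finset α)) := by
  simp only [List.nodup_cons, List.mem_cons, List.not_mem_nil, not_or, not_false_eq_true,
    and_true, or_false, List.nodup_nil] at nd
  obtain ⟨⟨h0_1, h0_2, h0_3, h0_4, h0_5⟩, ⟨h1_2, h1_3, h1_4, h1_5⟩, ⟨h2_3, h2_4, h2_5⟩, ⟨h3_4, h3_5⟩, h4_5⟩ := nd
  replace h0_1 : v0 ≠ v1 := h0_1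
  have h1_0 : v1 ≠ v0 := h0_1.symm
  replace h0_2 : v0 ≠ v2 := h0_2
  have h2_0 : v2 ≠ v0 := h0_2.symm
  replace h0_3 : v0 ≠ v3 := h0_3
  have h3_0 : v3 ≠ v0 := h0_3.symm
  replace h0_4 : v0 ≠ v4 := h0_4
  have h4_0 : v4 ≠ v0 := h0_4.symm
  replace h0_5 : v0 ≠ v5 := h0_5
  have h5_0 : v5 ≠ v0 := h0_5.symm
  replace h1_2 : v1 ≠ v2 := h1_2
  have h2_1 : v2 ≠ v1 := h1_2.symm
  replace h1_3 : v1 ≠ v3 := h1_3
  have h3_1 : v3 ≠ v1 := h1_3.symm
  replace h1_4 : v1 ≠ v4 := h1_4
  have h4_1 : v4 ≠ v1 := h1_4.symm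
  replace h1_5 : v1 ≠ v5 := h1_5
  have h5_1 : v5 ≠ v1 := h1_5.symm
  replace h2_3 : v2 ≠ v3 := h2_3
  have h3_2 : v3 ≠ v2 := h2_3.symm
  replace h2_4 : v2 ≠ v4 := h2_4
  have h4_2 : v4 ≠ v2 := h2_4.symm
  replace h2_5 : v2 ≠ v5 := h2_5
  have h5_2 : v5 ≠ v2 := h2_5.symm
  replace h3_4 : v3 ≠ v4 := h3_4
  have h4_3 : v4 ≠ v3 := h3_4.symm
  replace h3_5 : v3 ≠ v5 := h3_5
  have h5_3 : v5 ≠ v3 := h3_5.symm
  replace h4_5 : v4 ≠ v5 := h4_5
  have h5_4 : v5 ≠ v4 := h4_5.symm
  intro c hc0 hc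
  have m0 : v0 ∈ ({v0, v1, v2, v3, v4, v5} : Finset α) := by simp only [mem_insert, mem_singleton, true_or, or_true]
  have m1 : v1 ∈ ({v0, v1, v2, v3, v4, v5} : Finset α) := by simp only [mem_insert, mem_singleton, true_or, or_true]
  have m2 : v2 ∈ ({v0, v1, v2, v3, v4, v5} : Finset α) := by simp only [mem_insert, mem_singleton, true_or, or_true]
  have m3 : v3 ∈ ({v0, v1, v2, v3, v4, v5} : Finset α) := by simp only [mem_insert, mem_singleton, true_or, or_true]
  have m4 : v4 ∈ ({v0, v1, v2, v3, v4, v5} : Finset α) := by simp only [mem_insert, mem_singleton, true_or, or_true]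
  have m5 : v5 ∈ ({v0, v1, v2, v3, v4, v5} : Finset α) := by simp only [mem_insert, mem_singleton, true_or, or_true]
  have hB : ∀ B ∈ ({{v0, v1, v2}, {v2, v3, v4}, {v3, v4, v5}} : Finset (Finset α)), B = {v0, v1, v2} ∨ B = {v2, v3, v4} ∨ B = {v3, v4, v5} := by
    intro B hB
    simpa only [mem_insert, mem_singleton] using hB
  have e0 := form_edge hc m0 m1 m2 h1_0 h2_0 h1_2 (by
    intro B hB' hx
    rcases hB B hB' with rfl | rfl | rfl
    · simp only [mem_insert, mem_singleton, true_or, or_true, and_self]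
    · simp only [mem_insert, mem_singleton] at hx
      exact absurd hx (by rintro (h | h | h); exacts [h0_2 h, h0_3 h, h0_4 h])
    · simp only [mem_insert, mem_singleton] at hx
      exact absurd hx (by rintro (h | h | h); exacts [h0_3 h, h0_4 h, h0_5 h]))
  have e1 := form_edge hc m1 m0 m2 h0_1 h2_1 h0_2 (by
    intro B hB' hx
    rcases hB B hB' with rfl | rfl | rfl
    · simp only [mem_insert, mem_singleton, true_or, or_true, and_self]
    · simp only [mem_insert, mem_singleton] at hx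
      exact absurd hx (by rintro (h | h | h); exacts [h1_2 h, h1_3 h, h1_4 h])
    · simp only [mem_insert, mem_singleton] at hx
      exact absurd hx (by rintro (h | h | h); exacts [h1_3 h, h1_4 h, h1_5 h]))
  have e2 := form_edge2 hc m2 m0 m1 m3 m4 h0_2 h1_2 h3_2 h4_2 h0_1 h3_4 h0_3 h0_4 h1_3 h1_4 (by
    intro B hB' hx
    rcases hB B hB' with rfl | rfl | rfl
    · simp only [mem_insert, mem_singleton, true_or, or_true, and_self]
    · simp only [mem_insert, mem_singleton, true_or, or_true, and_self]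
    · simp only [mem_insert, mem_singleton] at hx
      exact absurd hx (by rintro (h | h | h); exacts [h2_3 h, h2_4 h, h2_5 h]))
  have e3 := form_star hc m3 m4 m2 m5 h4_3 h2_3 h5_3 h4_2 h4_5 h2_5 (by
    intro B hB' hx
    rcases hB B hB' with rfl | rfl | rfl
    · simp only [mem_insert, mem_singleton] at hx
      exact absurd hx (by rintro (h | h | h); exacts [h3_0 h, h3_1 h, h3_2 h])
    · simp only [mem_insert, mem_singleton, true_or, or_true, and_self]
    · simp only [mem_insert, mem_singleton, true_or, or_true, and_self])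
  have e4 := form_star hc m4 m3 m2 m5 h3_4 h2_4 h5_4 h3_2 h3_5 h2_5 (by
    intro B hB' hx
    rcases hB B hB' with rfl | rfl | rfl
    · simp only [mem_insert, mem_singleton] at hx
      exact absurd hx (by rintro (h | h | h); exacts [h4_0 h, h4_1 h, h4_2 h])
    · simp only [mem_insert, mem_singleton, true_or, or_true, and_self]
    · simp only [mem_insert, mem_singleton, true_or, or_true, and_self])
  have e5 := form_edge hc m5 m3 m4 h3_5 h4_5 h3_4 (by
    intro B hB' hx
    rcases hB B hB' with rfl | rfl | rfl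
    · simp only [mem_insert, mem_singleton] at hx
      exact absurd hx (by rintro (h | h | h); exacts [h5_0 h, h5_1 h, h5_2 h])
    · simp only [mem_insert, mem_singleton] at hx
      exact absurd hx (by rintro (h | h | h); exacts [h5_2 h, h5_3 h, h5_4 h])
    · simp only [mem_insert, mem_singleton, true_or, or_true, and_self])
  have f0 := hc0 v0
  have f1 := hc0 v1
  have f2 := hc0 v2
  have f3 := hc0 v3
  have f4 := hc0 v4
  have f5 := hc0 v5
  intro x hx
  simp only [mem_insert, mem_singleton] at hx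
  rcases hx with hx | hx | hx | hx | hx | hx <;>
  · rw [hx]; linarith

theorem NW_q4 {v0 v1 v2 v3 v4 v5 v6 v7 : α} (nd : [v0, v1, v2, v3, v4, v5, v6, v7].Nodup) :
    NW ({v0, v1, v2, v3, v4, v5, v6, v7} : Finset α) ({{v0, v1, v2}, {v2, v3, v4}, {v4, v5, v6}, {v5, v6, v7}} : Finset (Finset α)) := by
  simp only [List.nodup_cons, List.mem_cons, List.not_mem_nil, not_or, not_false_eq_true,
    and_true, or_false, List.nodup_nil] at nd
  obtain ⟨⟨h0_1, h0_2, h0_3, h0_4, h0_5, h0_6, h0_7⟩, ⟨h1_2, h1_3, h1_4, h1_5, h1_6, h1_7⟩, ⟨h2_3, h2_4, h2_5, h2_6, h2_7⟩, ⟨h3_4, h3_5, h3_6, h3_7⟩, ⟨h4_5, h4_6, h4_7⟩, ⟨h5_6, h5_7⟩, h6_7⟩ := nd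
  replace h0_1 : v0 ≠ v1 := h0_1
  have h1_0 : v1 ≠ v0 := h0_1.symm
  replace h0_2 : v0 ≠ v2 := h0_2
  have h2_0 : v2 ≠ v0 := h0_2.symm
  replace h0_3 : v0 ≠ v3 := h0_3
  have h3_0 : v3 ≠ v0 := h0_3.symm
  replace h0_4 : v0 ≠ v4 := h0_4
  have h4_0 : v4 ≠ v0 := h0_4.symm
  replace h0_5 : v0 ≠ v5 := h0_5
  have h5_0 : v5 ≠ v0 := h0_5.symm
  replace h0_6 : v0 ≠ v6 := h0_6
  have h6_0 : v6 ≠ v0 := h0_6.symm
  replace h0_7 : v0 ≠ v7 := h0_7
  have h7_0 : v7 ≠ v0 := h0_7.symm
  replace h1_2 : v1 ≠ v2 := h1_2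
  have h2_1 : v2 ≠ v1 := h1_2.symm
  replace h1_3 : v1 ≠ v3 := h1_3
  have h3_1 : v3 ≠ v1 := h1_3.symm
  replace h1_4 : v1 ≠ v4 := h1_4
  have h4_1 : v4 ≠ v1 := h1_4.symm
  replace h1_5 : v1 ≠ v5 := h1_5
  have h5_1 : v5 ≠ v1 := h1_5.symm
  replace h1_6 : v1 ≠ v6 := h1_6
  have h6_1 : v6 ≠ v1 := h1_6.symm
  replace h1_7 : v1 ≠ v7 := h1_7
  have h7_1 : v7 ≠ v1 := h1_7.symm
  replace h2_3 : v2 ≠ v3 := h2_3
  have h3_2 : v3 ≠ v2 := h2_3.symm
  replace h2_4 : v2 ≠ v4 := h2_4
  have h4_2 : v4 ≠ v2 := h2_4.symm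
  replace h2_5 : v2 ≠ v5 := h2_5
  have h5_2 : v5 ≠ v2 := h2_5.symm
  replace h2_6 : v2 ≠ v6 := h2_6
  have h6_2 : v6 ≠ v2 := h2_6.symm
  replace h2_7 : v2 ≠ v7 := h2_7
  have h7_2 : v7 ≠ v2 := h2_7.symm
  replace h3_4 : v3 ≠ v4 := h3_4
  have h4_3 : v4 ≠ v3 := h3_4.symm
  replace h3_5 : v3 ≠ v5 := h3_5
  have h5_3 : v5 ≠ v3 := h3_5.symm
  replace h3_6 : v3 ≠ v6 := h3_6
  have h6_3 : v6 ≠ v3 := h3_6.symm
  replace h3_7 : v3 ≠ v7 := h3_7
  have h7_3 : v7 ≠ v3 := h3_7.symm
  replace h4_5 : v4 ≠ v5 := h4_5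
  have h5_4 : v5 ≠ v4 := h4_5.symm
  replace h4_6 : v4 ≠ v6 := h4_6
  have h6_4 : v6 ≠ v4 := h4_6.symm
  replace h4_7 : v4 ≠ v7 := h4_7
  have h7_4 : v7 ≠ v4 := h4_7.symm
  replace h5_6 : v5 ≠ v6 := h5_6
  have h6_5 : v6 ≠ v5 := h5_6.symm
  replace h5_7 : v5 ≠ v7 := h5_7
  have h7_5 : v7 ≠ v5 := h5_7.symm
  replace h6_7 : v6 ≠ v7 := h6_7
  have h7_6 : v7 ≠ v6 := h6_7.symm
  intro c hc0 hc
  have m0 : v0 ∈ ({v0, v1, v2, v3, v4, v5, v6, v7} : Finset α) := by simp only [mem_insert, mem_singleton, true_or, or_true]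
  have m1 : v1 ∈ ({v0, v1, v2, v3, v4, v5, v6, v7} : Finset α) := by simp only [mem_insert, mem_singleton, true_or, or_true]
  have m2 : v2 ∈ ({v0, v1, v2, v3, v4, v5, v6, v7} : Finset α) := by simp only [mem_insert, mem_singleton, true_or, or_true]
  have m3 : v3 ∈ ({v0, v1, v2, v3, v4, v5, v6, v7} : Finset α) := by simp only [mem_insert, mem_singleton, true_or, or_true]
  have m4 : v4 ∈ ({v0, v1, v2, v3, v4, v5, v6, v7} : Finset α) := by simp only [mem_insert, mem_singleton, true_or, or_true]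
  have m5 : v5 ∈ ({v0, v1, v2, v3, v4, v5, v6, v7} : Finset α) := by simp only [mem_insert, mem_singleton, true_or, or_true]
  have m6 : v6 ∈ ({v0, v1, v2, v3, v4, v5, v6, v7} : Finset α) := by simp only [mem_insert, mem_singleton, true_or, or_true]
  have m7 : v7 ∈ ({v0, v1, v2, v3, v4, v5, v6, v7} : Finset α) := by simp only [mem_insert, mem_singleton, true_or, or_true]
  have hB : ∀ B ∈ ({{v0, v1, v2}, {v2, v3, v4}, {v4, v5, v6}, {v5, v6, v7}} : Finset (Finset α)), B = {v0, v1, v2} ∨ B = {v2, v3, v4} ∨ B = {v4, v5, v6} ∨ B = {v5, v6, v7} := by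
    intro B hB
    simpa only [mem_insert, mem_singleton] using hB
  have e0 := form_edge hc m0 m1 m2 h1_0 h2_0 h1_2 (by
    intro B hB' hx
    rcases hB B hB' with rfl | rfl | rfl | rfl
    · simp only [mem_insert, mem_singleton, true_or, or_true, and_self]
    · simp only [mem_insert, mem_singleton] at hx
      exact absurd hx (by rintro (h | h | h); exacts [h0_2 h, h0_3 h, h0_4 h])
    · simp only [mem_insert, mem_singleton] at hx
      exact absurd hx (by rintro (h | h | h); exacts [h0_4 h, h0_5 h, h0_6 h])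
    · simp only [mem_insert, mem_singleton] at hx
      exact absurd hx (by rintro (h | h | h); exacts [h0_5 h, h0_6 h, h0_7 h]))
  have e1 := form_edge hc m1 m0 m2 h0_1 h2_1 h0_2 (by
    intro B hB' hx
    rcases hB B hB' with rfl | rfl | rfl | rfl
    · simp only [mem_insert, mem_singleton, true_or, or_true, and_self]
    · simp only [mem_insert, mem_singleton] at hx
      exact absurd hx (by rintro (h | h | h); exacts [h1_2 h, h1_3 h, h1_4 h])
    · simp only [mem_insert, mem_singleton] at hx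
      exact absurd hx (by rintro (h | h | h); exacts [h1_4 h, h1_5 h, h1_6 h])
    · simp only [mem_insert, mem_singleton] at hx
      exact absurd hx (by rintro (h | h | h); exacts [h1_5 h, h1_6 h, h1_7 h]))
  have e2 := form_edge2 hc m2 m0 m1 m3 m4 h0_2 h1_2 h3_2 h4_2 h0_1 h3_4 h0_3 h0_4 h1_3 h1_4 (by
    intro B hB' hx
    rcases hB B hB' with rfl | rfl | rfl | rfl
    · simp only [mem_insert, mem_singleton, true_or, or_true, and_self]
    · simp only [mem_insert, mem_singleton, true_or, or_true, and_self]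
    · simp only [mem_insert, mem_singleton] at hx
      exact absurd hx (by rintro (h | h | h); exacts [h2_4 h, h2_5 h, h2_6 h])
    · simp only [mem_insert, mem_singleton] at hx
      exact absurd hx (by rintro (h | h | h); exacts [h2_5 h, h2_6 h, h2_7 h]))
  have e3 := form_edge hc m3 m2 m4 h2_3 h4_3 h2_4 (by
    intro B hB' hx
    rcases hB B hB' with rfl | rfl | rfl | rfl
    · simp only [mem_insert, mem_singleton] at hx
      exact absurd hx (by rintro (h | h | h); exacts [h3_0 h, h3_1 h, h3_2 h])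
    · simp only [mem_insert, mem_singleton, true_or, or_true, and_self]
    · simp only [mem_insert, mem_singleton] at hx
      exact absurd hx (by rintro (h | h | h); exacts [h3_4 h, h3_5 h, h3_6 h])
    · simp only [mem_insert, mem_singleton] at hx
      exact absurd hx (by rintro (h | h | h); exacts [h3_5 h, h3_6 h, h3_7 h]))
  have e4 := form_edge2 hc m4 m2 m3 m5 m6 h2_4 h3_4 h5_4 h6_4 h2_3 h5_6 h2_5 h2_6 h3_5 h3_6 (by
    intro B hB' hx
    rcases hB B hB' with rfl | rfl | rfl | rfl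
    · simp only [mem_insert, mem_singleton] at hx
      exact absurd hx (by rintro (h | h | h); exacts [h4_0 h, h4_1 h, h4_2 h])
    · simp only [mem_insert, mem_singleton, true_or, or_true, and_self]
    · simp only [mem_insert, mem_singleton, true_or, or_true, and_self]
    · simp only [mem_insert, mem_singleton] at hx
      exact absurd hx (by rintro (h | h | h); exacts [h4_5 h, h4_6 h, h4_7 h]))
  have e5 := form_star hc m5 m6 m4 m7 h6_5 h4_5 h7_5 h6_4 h6_7 h4_7 (by
    intro B hB' hx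
    rcases hB B hB' with rfl | rfl | rfl | rfl
    · simp only [mem_insert, mem_singleton] at hx
      exact absurd hx (by rintro (h | h | h); exacts [h5_0 h, h5_1 h, h5_2 h])
    · simp only [mem_insert, mem_singleton] at hx
      exact absurd hx (by rintro (h | h | h); exacts [h5_2 h, h5_3 h, h5_4 h])
    · simp only [mem_insert, mem_singleton, true_or, or_true, and_self]
    · simp only [mem_insert, mem_singleton, true_or, or_true, and_self])
  have e6 := form_star hc m6 m5 m4 m7 h5_6 h4_6 h7_6 h5_4 h5_7 h4_7 (by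
    intro B hB' hx
    rcases hB B hB' with rfl | rfl | rfl | rfl
    · simp only [mem_insert, mem_singleton] at hx
      exact absurd hx (by rintro (h | h | h); exacts [h6_0 h, h6_1 h, h6_2 h])
    · simp only [mem_insert, mem_singleton] at hx
      exact absurd hx (by rintro (h | h | h); exacts [h6_2 h, h6_3 h, h6_4 h])
    · simp only [mem_insert, mem_singleton, true_or, or_true, and_self]
    · simp only [mem_insert, mem_singleton, true_or, or_true, and_self])
  have e7 := form_edge hc m7 m5 m6 h5_7 h6_7 h5_6 (by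
    intro B hB' hx
    rcases hB B hB' with rfl | rfl | rfl | rfl
    · simp only [mem_insert, mem_singleton] at hx
      exact absurd hx (by rintro (h | h | h); exacts [h7_0 h, h7_1 h, h7_2 h])
    · simp only [mem_insert, mem_singleton] at hx
      exact absurd hx (by rintro (h | h | h); exacts [h7_2 h, h7_3 h, h7_4 h])
    · simp only [mem_insert, mem_singleton] at hx
      exact absurd hx (by rintro (h | h | h); exacts [h7_4 h, h7_5 h, h7_6 h])
    · simp only [mem_insert, mem_singleton, true_or, or_true, and_self])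
  have f0 := hc0 v0
  have f1 := hc0 v1
  have f2 := hc0 v2
  have f3 := hc0 v3
  have f4 := hc0 v4
  have f5 := hc0 v5
  have f6 := hc0 v6
  have f7 := hc0 v7
  intro x hx
  simp only [mem_insert, mem_singleton] at hx
  rcases hx with hx | hx | hx | hx | hx | hx | hx | hx <;>
  · rw [hx]; linarith

end Pool.Agent.H61.FC
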