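import Pool.Agent.H61.Star
import Pool.Agent.H61.Conv
import Pool.Graph.R_pool_sql_team_seeded_63374d34.N188.FC.Strict

set_option autoImplicit false
set_option linter.all false

/-!
# The weighted criterion with one strict local inequality
-/

namespace Pool.Agent.H61.PS

open Finset Pool.Agent.N188.FC Pool.Agent.H61.FC
open scoped Classical

variable {α : Type*} [DecidableEq α]

section

variable {K : Finset (Finset α)} {S : Finset α} {c l : α → ℝ}

/-- `boundary_w` with a factor depending on the element -/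
theorem boundary_l {G : Finset (Finset α)} (hc0 : ∀ x, 0 ≤ c x) (hl : ∀ x, 0 ≤ l x)
    (hU : ∀ A ∈ K, ∀ B ∈ K, A ∪ B ∈ K) (ha : ∀ A ∈ K, ∀ B ∈ G, A ∪ B ∈ K)
    (hc : ∀ w ∈ S, IsoW S G c (l w) w) :
    ∑ w ∈ S, l w * c w * (D S K w : ℝ) ≤ ∑ w ∈ S, c w * (Uw S K w : ℝ) := by
  have h1 : ∀ w ∈ S, (2 : ℝ) ^ (S.erase w).card * (l w * c w * D S K w) ≤
      ∑ X ∈ S.powerset, ∑ k ∈ S.erase w, c k * ∑ W ∈ S.powerset, (ind (T K X k w W) : ℝ) := by
    intro w hw
    refine le_trans ?_ (Lc_le (K := K) hc0 hw)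
    have := zedc (N := S.erase w) (Q := fun A => A ∈ K) (P := fun A => insert w A ∈ K)
      (Y := fun B => insert w B ∈ G) hc0 (mul_nonneg (hl w) (hc0 w)) (hc w hw)
      (by
        intro A B hA hB
        have := hU _ hA _ hB
        rwa [insert_union] at this)
      (by
        intro A B hA hB
        have := hU _ hA _ hB
        have e : insert w A ∪ insert w B = insert w (A ∪ B) := by
          ext x; simp only [mem_union, mem_insert]; tauto
        rwa [e] at this)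
      (by
        intro A B hA hB
        have := ha _ hB _ hA
        rwa [union_comm, insert_union] at this)
      (by
        intro A B hA hB
        have := ha _ hB _ hA
        have e : insert w B ∪ insert w A = insert w (A ∪ B) := by
          ext x; simp only [mem_union, mem_insert]; tauto
        rwa [e] at this)
    exact this
  have h2 : ∀ w ∈ S, ∑ X ∈ S.powerset, ∑ k ∈ S.erase w, c k *
      ∑ W ∈ S.powerset, (ind (T K X k w W) : ℝ) =
      ∑ X ∈ S.powerset, ∑ k ∈ S, c k * ∑ W ∈ S.powerset,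
        ((if k ∈ S.erase w then ind (T K X k w W) else 0 : ℕ) : ℝ) := by
    intro w hw
    refine sum_congr rfl fun X _ => ?_
    have h3 : ∀ k, c k * ∑ W ∈ S.powerset,
        ((if k ∈ S.erase w then ind (T K X k w W) else 0 : ℕ) : ℝ) =
        if k ∈ S.erase w then c k * ∑ W ∈ S.powerset, (ind (T K X k w W) : ℝ) else 0 := by
      intro k; split_ifs <;> simp
    simp_rw [h3]
    rw [← sum_filter]
    congr 1
    ext k
    simp only [mem_filter, mem_erase]
    tauto
  have h3 : 2 * ∑ w ∈ S, ∑ X ∈ S.powerset, ∑ k ∈ S.erase w, c k *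
      ∑ W ∈ S.powerset, (ind (T K X k w W) : ℝ) ≤
      2 ^ S.card * ∑ w ∈ S, c w * (Uw S K w : ℝ) := by
    calc 2 * ∑ w ∈ S, ∑ X ∈ S.powerset, ∑ k ∈ S.erase w, c k *
        ∑ W ∈ S.powerset, (ind (T K X k w W) : ℝ)
        = 2 * ∑ w ∈ S, ∑ X ∈ S.powerset, ∑ k ∈ S, c k * ∑ W ∈ S.powerset,
        ((if k ∈ S.erase w then ind (T K X k w W) else 0 : ℕ) : ℝ) := by
          rw [sum_congr rfl h2]
      _ = ∑ X ∈ S.powerset, ∑ k ∈ S, c k * (2 * ∑ w ∈ S, ∑ W ∈ S.powerset,
          ((if k ∈ S.erase w then ind (T K X k w W) else 0 : ℕ) : ℝ)) := by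
          rw [sum_comm, mul_sum]
          refine sum_congr rfl fun X _ => ?_
          rw [sum_comm, mul_sum]
          refine sum_congr rfl fun k _ => ?_
          rw [← mul_sum]
          ring
      _ ≤ ∑ X ∈ S.powerset, ∑ k ∈ S, c k *
          (2 ^ S.card * (ind (k ∉ X ∧ X ∉ K ∧ insert k X ∈ K) : ℝ)) := by
          refine sum_le_sum fun X hX => sum_le_sum fun k _ =>
            mul_le_mul_of_nonneg_left ?_ (hc0 k)
          exact_mod_cast T_sum X (mem_powerset.1 hX) k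
      _ = 2 ^ S.card * ∑ w ∈ S, c w * (Uw S K w : ℝ) := by
          rw [sum_comm, mul_sum]
          refine sum_congr rfl fun k _ => ?_
          unfold Uw
          push_cast
          rw [mul_sum, mul_sum]
          refine sum_congr rfl fun X _ => ?_
          ring
  have h4 : (2 : ℝ) ^ S.card * (∑ w ∈ S, l w * c w * (D S K w : ℝ)) ≤
      2 * ∑ w ∈ S, ∑ X ∈ S.powerset, ∑ k ∈ S.erase w, c k *
      ∑ W ∈ S.powerset, (ind (T K X k w W) : ℝ) := by
    rw [mul_sum, mul_sum]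
    refine sum_le_sum fun w hw => ?_
    have h5 := h1 w hw
    have h6 : (2 : ℝ) ^ S.card = 2 * 2 ^ (S.erase w).card := by
      rw [← pow_succ', card_erase_of_mem hw]
      congr 1
      have : 0 < S.card := card_pos.2 ⟨w, hw⟩
      omega
    rw [h6]
    nlinarith
  exact le_of_mul_le_mul_left (h4.trans h3) (by positivity)

theorem avg_l {G : Finset (Finset α)} (hc0 : ∀ x, 0 ≤ c x) (hl : ∀ x, 0 ≤ l x)
    (hl1 : ∀ x ∈ S, 1 ≤ l x) (hK : ∀ A ∈ K, A ⊆ S)
    (hU : ∀ A ∈ K, ∀ B ∈ K, A ∪ B ∈ K) (ha : ∀ A ∈ K, ∀ B ∈ G, A ∪ B ∈ K)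
    (hc : ∀ w ∈ S, IsoW S G c (l w) w) {b : α} (hb : b ∈ S) :
    (l b - 1) * c b * (D S K b : ℝ) ≤ ∑ A ∈ K, (2 * ∑ x ∈ A, c x - ∑ x ∈ S, c x) := by
  have e3 := boundary_l hc0 hl hU ha hc
  have e4 : ∑ w ∈ S, c w * ((K.card : ℝ) + Uw S K w) =
      ∑ w ∈ S, c w * (2 * ((K.filter (fun A => w ∈ A)).card : ℝ) + D S K w) := by
    refine sum_congr rfl fun w hw => ?_
    congr 1
    exact_mod_cast balance_pt hK hw
  have e6 : ∑ A ∈ K, ∑ x ∈ A, c x = ∑ w ∈ S, c w * ((K.filter (fun A => w ∈ A)).card : ℝ) := by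
    have h7 : ∀ A ∈ K, ∑ x ∈ A, c x = ∑ w ∈ S, if w ∈ A then c w else 0 := by
      intro A hA
      rw [← sum_filter, filter_mem_eq_inter, inter_eq_right.2 (hK A hA)]
    rw [sum_congr rfl h7, sum_comm]
    refine sum_congr rfl fun w _ => ?_
    rw [← sum_filter, sum_const, nsmul_eq_mul, mul_comm]
  have e7 : ∑ w ∈ S, c w * (K.card : ℝ) = K.card * ∑ x ∈ S, c x := by
    rw [← sum_mul, mul_comm]
  have e8 : ∑ A ∈ K, (2 * ∑ x ∈ A, c x - ∑ x ∈ S, c x) =
      ∑ w ∈ S, c w * (Uw S K w : ℝ) - ∑ w ∈ S, c w * (D S K w : ℝ) := by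
    rw [sum_sub_distrib, ← mul_sum, sum_const, nsmul_eq_mul, e6]
    simp only [mul_add, sum_add_distrib, mul_left_comm _ (2 : ℝ), ← mul_sum] at e4
    rw [e7] at e4
    linarith
  rw [e8]
  have e9 : ∑ w ∈ S, l w * c w * (D S K w : ℝ) - ∑ w ∈ S, c w * (D S K w : ℝ) =
      ∑ w ∈ S, (l w - 1) * c w * (D S K w : ℝ) := by
    rw [← sum_sub_distrib]
    exact sum_congr rfl fun w _ => by ring
  have e10 : (l b - 1) * c b * (D S K b : ℝ) ≤ ∑ w ∈ S, (l w - 1) * c w * (D S K w : ℝ) :=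
    single_le_sum (f := fun w => (l w - 1) * c w * (D S K w : ℝ)) (fun w hw =>
      mul_nonneg (mul_nonneg (by linarith [hl1 w hw]) (hc0 w)) (Nat.cast_nonneg _)) hb
  linarith

end

section

variable {F G : Finset (Finset α)} {S : Finset α} {c l : α → ℝ}

open Pool.Agent.N188.LD in
theorem fib_total (F : Finset (Finset α)) (S : Finset α) (φ : Finset α → ℝ)
    (h : ∀ T, 0 ≤ ∑ A ∈ fib F S T, φ A) (h0 : ∑ A ∈ F, φ (A ∩ S) ≤ 0) (T : Finset α) :
    ∑ A ∈ fib F S T, φ A ≤ 0 := by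
  by_contra hcon
  push Not at hcon
  exact absurd (fib_pos F S φ h ⟨T, hcon⟩) (not_lt.2 h0)

/-- no element of `S` is in more than half of the members -/
theorem total_le (hc0 : ∀ x, 0 ≤ c x)
    (hno : ∀ x ∈ S, 2 * (F.filter (fun A => x ∈ A)).card ≤ F.card) :
    ∑ A ∈ F, (2 * ∑ x ∈ A ∩ S, c x - ∑ x ∈ S, c x) ≤ 0 := by
  by_contra hcon
  push Not at hcon
  rw [sum_sub_distrib, ← mul_sum, sum_const, nsmul_eq_mul] at hcon
  obtain ⟨x, hx, h⟩ := exists_of_strict (F := F) (S := S) hc0 (by linarith)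
  exact absurd (hno x hx) (by omega)

/-- if `b` can be added to all members, but `b` is in at most half of them, then `b` is free -/
theorem free_of_add {b : α} (hadd : ∀ A ∈ F, insert b A ∈ F)
    (hno : 2 * (F.filter (fun A => b ∈ A)).card ≤ F.card) :
    ∀ A ∈ F, insert b A ∈ F ∧ A.erase b ∈ F := by
  have h1 := card_filter_add_card_filter_not (s := F) (fun A => b ∈ A)
  have h2 : (F.filter (fun A => ¬ b ∈ A)).card ≤ (F.filter (fun A => b ∈ A)).card := by
    refine card_le_card_of_injOn (fun A => insert b A) ?_ ?_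
    · intro A hA
      have hA' := mem_filter.1 (mem_coe.1 hA)
      exact mem_coe.2 (mem_filter.2 ⟨hadd A hA'.1, mem_insert_self _ _⟩)
    · intro A hA B hB hAB
      have hA' := (mem_filter.1 (mem_coe.1 hA)).2
      have hB' := (mem_filter.1 (mem_coe.1 hB)).2
      have h3 : (insert b A).erase b = (insert b B).erase b := by
        have : insert b A = insert b B := hAB
        rw [this]
      rwa [erase_insert hA', erase_insert hB'] at h3
  have h3 : (F.filter (fun A => ¬ b ∈ A)).image (fun A => insert b A) =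
      F.filter (fun A => b ∈ A) := by
    refine eq_of_subset_of_card_le ?_ ?_
    · intro B hB
      obtain ⟨A, hA, rfl⟩ := mem_image.1 hB
      exact mem_filter.2 ⟨hadd A (mem_filter.1 hA).1, mem_insert_self _ _⟩
    · rw [card_image_of_injOn]
      · omega
      · intro A hA B hB hAB
        have hA' := (mem_filter.1 (mem_coe.1 hA)).2
        have hB' := (mem_filter.1 (mem_coe.1 hB)).2
        have h3 : (insert b A).erase b = (insert b B).erase b := by
          have : insert b A = insert b B := hAB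
          rw [this]
        rwa [erase_insert hA', erase_insert hB'] at h3
  intro A hA
  refine ⟨hadd A hA, ?_⟩
  by_cases hb : b ∈ A
  · have h4 : A ∈ (F.filter (fun A => ¬ b ∈ A)).image (fun A => insert b A) := by
      rw [h3]; exact mem_filter.2 ⟨hA, hb⟩
    obtain ⟨B, hB, rfl⟩ := mem_image.1 h4
    have hB' := mem_filter.1 hB
    rw [erase_insert hB'.2]
    exact hB'.1
  · rw [erase_eq_of_notMem hb]; exact hA

open Pool.Agent.N188.LD in
/-- one strict local inequality -/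
theorem strict_or_free (hF : ∀ A ∈ F, ∀ B ∈ F, A ∪ B ∈ F) (hGS : ∀ B ∈ G, B ⊆ S)
    (hGF : G ⊆ F) (hc0 : ∀ x, 0 ≤ c x) (hl : ∀ x, 0 ≤ l x)
    (hl1 : ∀ x ∈ S, 1 ≤ l x) (hc : ∀ w ∈ S, IsoW S G c (l w) w) {b : α} (hb : b ∈ S)
    (hlb : 1 < l b) (hcb : 0 < c b)
    (hno : ∀ x ∈ S, 2 * (F.filter (fun A => x ∈ A)).card ≤ F.card) :
    ∀ A ∈ F, insert b A ∈ F ∧ A.erase b ∈ F := by
  refine free_of_add ?_ (hno b hb)
  intro A hA
  have ha : ∀ A ∈ F, ∀ B ∈ G, A ∪ B ∈ F := fun A hA B hB => hF A hA B (hGF hB)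
  have key : ∀ T b', b' ∈ S → (l b' - 1) * c b' * (D S (fib F S T) b' : ℝ) ≤
      ∑ A ∈ fib F S T, (2 * ∑ x ∈ A, c x - ∑ x ∈ S, c x) := fun T b' hb' =>
    avg_l (G := G) hc0 hl hl1 (fib_sub T) (fib_union hF T) (fib_absorb hGS ha T) hc hb'
  have h0 : ∀ T, 0 ≤ ∑ A ∈ fib F S T, (2 * ∑ x ∈ A, c x - ∑ x ∈ S, c x) := fun T =>
    le_trans (mul_nonneg (mul_nonneg (by linarith) (hc0 b)) (Nat.cast_nonneg _)) (key T b hb)
  have h1 := fib_total F S (fun A => 2 * ∑ x ∈ A, c x - ∑ x ∈ S, c x) h0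
    (total_le hc0 hno) (A \ S)
  have h2 := (key (A \ S) b hb).trans h1
  have h3 : D S (fib F S (A \ S)) b = 0 := by
    by_contra hne
    have h4 : (0 : ℝ) < D S (fib F S (A \ S)) b := by
      exact_mod_cast Nat.pos_of_ne_zero hne
    have h5 : 0 < (l b - 1) * c b * (D S (fib F S (A \ S)) b : ℝ) :=
      mul_pos (mul_pos (by linarith) hcb) h4
    linarith
  by_cases hbA : b ∈ A
  · rwa [insert_eq_of_mem hbA]
  have hm : A ∩ S ∈ fib F S (A \ S) := mem_fib.2 ⟨A, hA, rfl, rfl⟩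
  unfold D cnt at h3
  rw [sum_eq_zero_iff] at h3
  have h4 := h3 (A ∩ S) (mem_powerset.2 (subset_erase.2 ⟨inter_subset_right,
    fun h => hbA (mem_inter.1 h).1⟩))
  unfold ind at h4
  have h5 : insert b (A ∩ S) ∈ fib F S (A \ S) := by
    by_contra h6
    rw [if_pos ⟨hm, h6⟩] at h4
    exact one_ne_zero h4
  obtain ⟨A', hA', e1, e2⟩ := mem_fib.1 h5
  have h6 : A' = insert b A := by
    rw [← sdiff_union_inter A' S, e1, e2, union_insert, sdiff_union_inter]
  rw [← h6]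
  exact hA'

open Pool.Agent.N188.LD in
/-- if all local inequalities hold and the members contained in `S` have a large total weight,
then some element of `S` lies in more than half of the members -/
theorem strict_of_zero (hF : ∀ A ∈ F, ∀ B ∈ F, A ∪ B ∈ F) (hGS : ∀ B ∈ G, B ⊆ S)
    (hGF : G ⊆ F) (hc0 : ∀ x, 0 ≤ c x) (hc : ∀ w ∈ S, IsoW S G c 1 w) {b : α} (hb : b ∈ S)
    (hpos : 0 < ∑ A ∈ F.filter (fun A => A ⊆ S), (2 * ∑ x ∈ A, c x - ∑ x ∈ S, c x)) :
    ∃ x ∈ S, F.card < 2 * (F.filter (fun A => x ∈ A)).card := by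
  by_contra hno
  push Not at hno
  have ha : ∀ A ∈ F, ∀ B ∈ G, A ∪ B ∈ F := fun A hA B hB => hF A hA B (hGF hB)
  have h0 : ∀ T, 0 ≤ ∑ A ∈ fib F S T, (2 * ∑ x ∈ A, c x - ∑ x ∈ S, c x) := fun T => by
    have := avg_l (G := G) (K := fib F S T) (l := fun _ => 1) hc0 (fun _ => zero_le_one)
      (fun _ _ => le_rfl) (fib_sub T) (fib_union hF T) (fib_absorb hGS ha T) hc hb
    simpa using this
  have h1 := fib_total F S (fun A => 2 * ∑ x ∈ A, c x - ∑ x ∈ S, c x) h0
    (total_le hc0 hno) ∅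
  have h2 : fib F S ∅ = F.filter (fun A => A ⊆ S) := by
    ext A
    rw [mem_fib, mem_filter]
    constructor
    · rintro ⟨B, hB, h3, rfl⟩
      rw [sdiff_eq_empty_iff_subset] at h3
      rw [inter_eq_left.2 h3]
      exact ⟨hB, h3⟩
    · rintro ⟨hA, h3⟩
      exact ⟨A, hA, sdiff_eq_empty_iff_subset.2 h3, inter_eq_left.2 h3⟩
  rw [h2] at h1
  exact absurd hpos (not_lt.2 h1)

end

end Pool.Agent.H61.PS
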