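import Pool.Agent.H61.Star
import Pool.Agent.H61.PS1

set_option autoImplicit false
set_option linter.all false

/-!
# Strict local inequalities for a family of triples without removable parts
-/

namespace Pool.Agent.H61.FC

open Finset

variable {α : Type*} [DecidableEq α]

/-- triangle, with a larger constant -/
theorem tri_S' {𝒟 : Finset (Finset α)} (h : Dn 𝒟) {a b c : α} (hab : a ≠ b) (hac : a ≠ c) (hbc : b ≠ c)
    (eab : ∀ D ∈ 𝒟, ¬ (a ∈ D ∧ b ∈ D)) (eac : ∀ D ∈ 𝒟, ¬ (a ∈ D ∧ c ∈ D)) (ebc : ∀ D ∈ 𝒟, ¬ (b ∈ D ∧ c ∈ D)) :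
    (31/10) * (𝒟.card : ℝ) ≤ (12/5) * dg 𝒟 a + (12/5) * dg 𝒟 b + (12/5) * dg 𝒟 c := by
  have hs := q3_sumP 𝒟 a b c (fun _ => True)
  have hs0 := q3_sumP 𝒟 a b c (fun x => x.1 = true)
  have hs1 := q3_sumP 𝒟 a b c (fun x => x.2.1 = true)
  have hs2 := q3_sumP 𝒟 a b c (fun x => x.2.2 = true)
  simp only [Fintype.sum_prod_type, Fintype.sum_bool, filter_true, decide_eq_true_eq, if_true,
    if_false, Bool.false_eq_true, reduceIte, add_zero, zero_add] at hs hs0 hs1 hs2
  have z111 : q3 𝒟 a b c (true, true, true) = 0 := q3_zero (fun D hD hh => by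
    simp only [Prod.mk.injEq, decide_eq_true_eq, decide_eq_false_iff_not] at hh
    exact eab D hD (by tauto))
  have z110 : q3 𝒟 a b c (true, true, false) = 0 := q3_zero (fun D hD hh => by
    simp only [Prod.mk.injEq, decide_eq_true_eq, decide_eq_false_iff_not] at hh
    exact eab D hD (by tauto))
  have z101 : q3 𝒟 a b c (true, false, true) = 0 := q3_zero (fun D hD hh => by
    simp only [Prod.mk.injEq, decide_eq_true_eq, decide_eq_false_iff_not] at hh
    exact eac D hD (by tauto))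
  have z011 : q3 𝒟 a b c (false, true, true) = 0 := q3_zero (fun D hD hh => by
    simp only [Prod.mk.injEq, decide_eq_true_eq, decide_eq_false_iff_not] at hh
    exact ebc D hD (by tauto))
  have m100_0 := q3_mono1 h hab hac false false
  have m010_1 := q3_mono2 h hab hbc false false
  have m001_2 := q3_mono3 h hac hbc false false
  simp only [z111, z110, z101, z011, add_zero, zero_add] at hs hs0 hs1 hs2
  unfold dg
  replace hs := congrArg (Nat.cast (R := ℝ)) hs
  replace hs0 := congrArg (Nat.cast (R := ℝ)) hs0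
  replace hs1 := congrArg (Nat.cast (R := ℝ)) hs1
  replace hs2 := congrArg (Nat.cast (R := ℝ)) hs2
  replace m100_0 := (Nat.cast_le (α := ℝ)).2 m100_0
  replace m010_1 := (Nat.cast_le (α := ℝ)).2 m010_1
  replace m001_2 := (Nat.cast_le (α := ℝ)).2 m001_2
  push_cast at hs hs0 hs1 hs2
  linarith [Nat.cast_nonneg (α := ℝ) (q3 𝒟 a b c (true, false, false)), Nat.cast_nonneg (α := ℝ) (q3 𝒟 a b c (false, true, false)), Nat.cast_nonneg (α := ℝ) (q3 𝒟 a b c (false, false, true)), Nat.cast_nonneg (α := ℝ) (q3 𝒟 a b c (false, false, false))]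

/-- path with three edges, with a larger constant -/
theorem path4_S' {𝒟 : Finset (Finset α)} (h : Dn 𝒟) {a b c d : α} (hab : a ≠ b) (hac : a ≠ c) (had : a ≠ d) (hbc : b ≠ c) (hbd : b ≠ d) (hcd : c ≠ d)
    (eab : ∀ D ∈ 𝒟, ¬ (a ∈ D ∧ b ∈ D)) (ebc : ∀ D ∈ 𝒟, ¬ (b ∈ D ∧ c ∈ D)) (ecd : ∀ D ∈ 𝒟, ¬ (c ∈ D ∧ d ∈ D)) :
    (31/10) * (𝒟.card : ℝ) ≤ (9/5) * dg 𝒟 a + (12/5) * dg 𝒟 b + (12/5) * dg 𝒟 c + (9/5) * dg 𝒟 d := by
  have hs := q4_sumP 𝒟 a b c d (fun _ => True)
  have hs0 := q4_sumP 𝒟 a b c d (fun x => x.1 = true)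
  have hs1 := q4_sumP 𝒟 a b c d (fun x => x.2.1 = true)
  have hs2 := q4_sumP 𝒟 a b c d (fun x => x.2.2.1 = true)
  have hs3 := q4_sumP 𝒟 a b c d (fun x => x.2.2.2 = true)
  simp only [Fintype.sum_prod_type, Fintype.sum_bool, filter_true, decide_eq_true_eq, if_true,
    if_false, Bool.false_eq_true, reduceIte, add_zero, zero_add] at hs hs0 hs1 hs2 hs3
  have z1111 : q4 𝒟 a b c d (true, true, true, true) = 0 := q4_zero (fun D hD hh => by
    simp only [Prod.mk.injEq, decide_eq_true_eq, decide_eq_false_iff_not] at hh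
    exact eab D hD (by tauto))
  have z1110 : q4 𝒟 a b c d (true, true, true, false) = 0 := q4_zero (fun D hD hh => by
    simp only [Prod.mk.injEq, decide_eq_true_eq, decide_eq_false_iff_not] at hh
    exact eab D hD (by tauto))
  have z1101 : q4 𝒟 a b c d (true, true, false, true) = 0 := q4_zero (fun D hD hh => by
    simp only [Prod.mk.injEq, decide_eq_true_eq, decide_eq_false_iff_not] at hh
    exact eab D hD (by tauto))
  have z1100 : q4 𝒟 a b c d (true, true, false, false) = 0 := q4_zero (fun D hD hh => by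
    simp only [Prod.mk.injEq, decide_eq_true_eq, decide_eq_false_iff_not] at hh
    exact eab D hD (by tauto))
  have z1011 : q4 𝒟 a b c d (true, false, true, true) = 0 := q4_zero (fun D hD hh => by
    simp only [Prod.mk.injEq, decide_eq_true_eq, decide_eq_false_iff_not] at hh
    exact ecd D hD (by tauto))
  have z0111 : q4 𝒟 a b c d (false, true, true, true) = 0 := q4_zero (fun D hD hh => by
    simp only [Prod.mk.injEq, decide_eq_true_eq, decide_eq_false_iff_not] at hh
    exact ebc D hD (by tauto))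
  have z0110 : q4 𝒟 a b c d (false, true, true, false) = 0 := q4_zero (fun D hD hh => by
    simp only [Prod.mk.injEq, decide_eq_true_eq, decide_eq_false_iff_not] at hh
    exact ebc D hD (by tauto))
  have z0011 : q4 𝒟 a b c d (false, false, true, true) = 0 := q4_zero (fun D hD hh => by
    simp only [Prod.mk.injEq, decide_eq_true_eq, decide_eq_false_iff_not] at hh
    exact ecd D hD (by tauto))
  have m1010_0 := q4_mono1 h hab hac had false true false
  have m1010_2 := q4_mono3 h hac hbc hcd true false false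
  have m1001_0 := q4_mono1 h hab hac had false false true
  have m1001_3 := q4_mono4 h had hbd hcd true false false
  have m1000_0 := q4_mono1 h hab hac had false false false
  have m0101_1 := q4_mono2 h hab hbc hbd false false true
  have m0101_3 := q4_mono4 h had hbd hcd false true false
  have m0100_1 := q4_mono2 h hab hbc hbd false false false
  have m0010_2 := q4_mono3 h hac hbc hcd false false false
  have m0001_3 := q4_mono4 h had hbd hcd false false false
  simp only [z1111, z1110, z1101, z1100, z1011, z0111, z0110, z0011, add_zero, zero_add] at hs hs0 hs1 hs2 hs3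
  unfold dg
  replace hs := congrArg (Nat.cast (R := ℝ)) hs
  replace hs0 := congrArg (Nat.cast (R := ℝ)) hs0
  replace hs1 := congrArg (Nat.cast (R := ℝ)) hs1
  replace hs2 := congrArg (Nat.cast (R := ℝ)) hs2
  replace hs3 := congrArg (Nat.cast (R := ℝ)) hs3
  replace m1010_0 := (Nat.cast_le (α := ℝ)).2 m1010_0
  replace m1010_2 := (Nat.cast_le (α := ℝ)).2 m1010_2
  replace m1001_0 := (Nat.cast_le (α := ℝ)).2 m1001_0
  replace m1001_3 := (Nat.cast_le (α := ℝ)).2 m1001_3
  replace m1000_0 := (Nat.cast_le (α := ℝ)).2 m1000_0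
  replace m0101_1 := (Nat.cast_le (α := ℝ)).2 m0101_1
  replace m0101_3 := (Nat.cast_le (α := ℝ)).2 m0101_3
  replace m0100_1 := (Nat.cast_le (α := ℝ)).2 m0100_1
  replace m0010_2 := (Nat.cast_le (α := ℝ)).2 m0010_2
  replace m0001_3 := (Nat.cast_le (α := ℝ)).2 m0001_3
  push_cast at hs hs0 hs1 hs2 hs3
  linarith [Nat.cast_nonneg (α := ℝ) (q4 𝒟 a b c d (true, false, true, false)), Nat.cast_nonneg (α := ℝ) (q4 𝒟 a b c d (true, false, false, true)), Nat.cast_nonneg (α := ℝ) (q4 𝒟 a b c d (true, false, false, false)), Nat.cast_nonneg (α := ℝ) (q4 𝒟 a b c d (false, true, false, true)), Nat.cast_nonneg (α := ℝ) (q4 𝒟 a b c d (false, true, false, false)), Nat.cast_nonneg (α := ℝ) (q4 𝒟 a b c d (false, false, true, false)), Nat.cast_nonneg (α := ℝ) (q4 𝒟 a b c d (false, false, false, true)), Nat.cast_nonneg (α := ℝ) (q4 𝒟 a b c d (false, false, false, false))]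

/-- a strict local inequality at `x` -/
def Sx (W : Finset α) (H : Finset (Finset α)) (c : α → ℝ) (x : α) : Prop :=
  ∃ v, c x < v ∧ LocOK W H (Function.update c x v) x

variable {W : Finset α} {H : Finset (Finset α)} {c c' : α → ℝ} {x : α}

theorem LocOK.mono {y : α} (h : LocOK W H c y) (hle : ∀ z, c z ≤ c' z) (he : c' y = c y) :
    LocOK W H c' y := by
  obtain ⟨Q, hQ, hQ3, hxQ, C, hCW, hC6, hxC, hloc⟩ := h
  refine ⟨Q, hQ, hQ3, hxQ, C, hCW, hC6, hxC, fun 𝒟 hD hno => ?_⟩
  rw [he]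
  refine (hloc 𝒟 hD hno).trans (sum_le_sum fun k _ => ?_)
  exact mul_le_mul_of_nonneg_right (hle k) (dg_nonneg hD k)

/-- triangle -/
theorem sxtri (hW : ∀ T ∈ H, T ⊆ W) {a b d : α} (hx : ({x, a, b} : Finset α) ∈ H)
    (hx' : ({x, a, d} : Finset α) ∈ H) (hx'' : ({x, b, d} : Finset α) ∈ H)
    (hax : a ≠ x) (hbx : b ≠ x) (hdx : d ≠ x) (hab : a ≠ b) (had : a ≠ d) (hbd : b ≠ d)
    (h1 : c x ≤ 31 / 10) (h2 : 12 / 5 ≤ c a) (h3 : 12 / 5 ≤ c b) (h4 : 12 / 5 ≤ c d) :
    LocOK W H c x := by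
  refine ⟨{{x, a, b}, {x, a, d}, {x, b, d}}, ?_, card_le_three, by simp,
    {a, b, d}, ?_, ?_, ?_, ?_⟩
  · intro t ht
    simp only [mem_insert, mem_singleton] at ht
    rcases ht with rfl | rfl | rfl <;> assumption
  · intro t ht
    have h4 := hW _ hx
    have h5 := hW _ hx'
    simp only [insert_subset_iff, singleton_subset_iff, mem_insert, mem_singleton] at h4 h5 ht
    rcases ht with rfl | rfl | rfl <;> tauto
  · exact card_le_three.trans (by norm_num)
  · simp [hax.symm, hbx.symm, hdx.symm]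
  · intro 𝒟 h𝒟 hno
    rw [sum_insert (by simp [hab, had]), sum_insert (by simp [hbd]), sum_singleton]
    have e1 := tri_S' h𝒟 hab had hbd (no_pair' hno (by simp)) (no_pair' hno (by simp))
      (no_pair' hno (by simp))
    have e2 := mulle h𝒟 a h2
    have e3 := mulle h𝒟 b h3
    have e4 := mulle h𝒟 d h4
    have e5 : c x * (𝒟.card : ℝ) ≤ (31 / 10) * (𝒟.card : ℝ) :=
      mul_le_mul_of_nonneg_right h1 (Nat.cast_nonneg _)
    linarith

/-- path with three edges `b - a - d - f` -/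
theorem sxpath4 (hW : ∀ T ∈ H, T ⊆ W) {b a d f : α} (hx : ({x, b, a} : Finset α) ∈ H)
    (hx' : ({x, a, d} : Finset α) ∈ H) (hx'' : ({x, d, f} : Finset α) ∈ H)
    (hbx : b ≠ x) (hax : a ≠ x) (hdx : d ≠ x) (hfx : f ≠ x)
    (hba : b ≠ a) (hbd : b ≠ d) (hbf : b ≠ f) (had : a ≠ d) (haf : a ≠ f) (hdf : d ≠ f)
    (h1 : c x ≤ 31 / 10) (h2 : 9 / 5 ≤ c b) (h3 : 12 / 5 ≤ c a) (h4 : 12 / 5 ≤ c d)
    (h5 : 9 / 5 ≤ c f) : LocOK W H c x := by
  refine ⟨{{x, b, a}, {x, a, d}, {x, d, f}}, ?_, card_le_three, by simp,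
    {b, a, d, f}, ?_, ?_, ?_, ?_⟩
  · intro t ht
    simp only [mem_insert, mem_singleton] at ht
    rcases ht with rfl | rfl | rfl <;> assumption
  · intro t ht
    have h4 := hW _ hx
    have h5 := hW _ hx'
    have h6 := hW _ hx''
    simp only [insert_subset_iff, singleton_subset_iff, mem_insert, mem_singleton] at h4 h5 h6 ht
    rcases ht with rfl | rfl | rfl | rfl <;> tauto
  · exact card_le_four.trans (by norm_num)
  · simp [hbx.symm, hax.symm, hdx.symm, hfx.symm]
  · intro 𝒟 h𝒟 hno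
    rw [sum_insert (by simp [hba, hbd, hbf]), sum_insert (by simp [had, haf]),
      sum_insert (by simp [hdf]), sum_singleton]
    have e1 := path4_S' h𝒟 hba hbd hbf had haf hdf (no_pair' hno (by simp))
      (no_pair' hno (by simp)) (no_pair' hno (by simp))
    have e2 := mulle h𝒟 b h2
    have e3 := mulle h𝒟 a h3
    have e4 := mulle h𝒟 d h4
    have e6 := mulle h𝒟 f h5
    have e5 : c x * (𝒟.card : ℝ) ≤ (31 / 10) * (𝒟.card : ℝ) :=
      mul_le_mul_of_nonneg_right h1 (Nat.cast_nonneg _)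
    linarith

theorem upd_self {v : ℝ} : Function.update c x v x = v := Function.update_self _ _ _

theorem upd_ne {v : ℝ} {y : α} (h : y ≠ x) : Function.update c x v y = c y :=
  Function.update_of_ne h _ _

variable {R : α → Prop} (hS : Stuck W H R)

include hS

/-- an element of three triples -/
theorem sx_strong (hx : St H R x) (hR : ¬ R x) : Sx W H (wt H R) x ∨
    ∃ a b d e, LE H x a b ∧ LE H x a d ∧ LE H x a e ∧ b ≠ d ∧ b ≠ e ∧ d ≠ e := by
  have hwx : wt H R x < 31 / 10 := by linarith [wt_high (H := H) (R := R) x]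
  have hxD : ¬ Dv H R x := fun h => h.1 hx
  obtain ⟨T₁, h1, T₂, h2, T₃, h3, n12, n13, n23, v1, v2, v3⟩ := hx.resolve_left hR
  obtain ⟨y, z, hy, hz, hyz, e1⟩ := exists_tri (hS.card T₁ h1) v1
  obtain ⟨y', z', hy', hz', hyz', e2⟩ := exists_tri (hS.card T₂ h2) v2
  obtain ⟨y'', z'', hy'', hz'', hyz'', e3⟩ := exists_tri (hS.card T₃ h3) v3
  have L1 : LE H x y z := ⟨e1 ▸ h1, hy, hz, hyz⟩
  have L2 : LE H x y' z' := ⟨e2 ▸ h2, hy', hz', hyz'⟩
  have L3 : LE H x y'' z'' := ⟨e3 ▸ h3, hy'', hz'', hyz''⟩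
  rcases pattern3 L1 L2 L3 (by rw [← e1, ← e2]; exact n12) (by rw [← e1, ← e3]; exact n13)
    (by rw [← e2, ← e3]; exact n23) with hc | hc | hc | hc | hc
  · left
    obtain ⟨⟨a1, a2, a3, a4⟩, ⟨b1, b2, b3, b4⟩, ⟨c1, c2, c3, c4⟩⟩ := hc
    have f1 := two_three hS L1.1 (y := y) (z := z) (by simp) (by simp) hyz
    have f2 := two_three hS L2.1 (y := y') (z := z') (by simp) (by simp) hyz'
    have f3 := two_three hS L3.1 (y := y'') (z := z'') (by simp) (by simp) hyz''
    refine ⟨31 / 10, hwx, ?_⟩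
    refine locOK3 hS.sub L1.1 L2.1 L3.1 hy hz hyz hy' hz' hyz' hy'' hz'' hyz'' a1 a2 a3 a4
      b1 b2 b3 b4 c1 c2 c3 c4 (r := 10 / 9) (r' := 10 / 9) (r'' := 10 / 9) ?_ ?_ ?_ (by norm_num)
      ?_ ?_ ?_ (by norm_num) ?_ ?_ ?_ (by norm_num) ?_
    all_goals first | rw [upd_self] | skip
    all_goals try simp only [upd_ne hy, upd_ne hz, upd_ne hy', upd_ne hz', upd_ne hy'', upd_ne hz'']
    · rcases f1 with ⟨g1, g2⟩ | ⟨g1, g2⟩ <;> linarith
    · rcases f1 with ⟨g1, g2⟩ | ⟨g1, g2⟩ <;> linarith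
    · rcases f1 with ⟨g1, g2⟩ | ⟨g1, g2⟩ <;> linarith
    · rcases f2 with ⟨g1, g2⟩ | ⟨g1, g2⟩ <;> linarith
    · rcases f2 with ⟨g1, g2⟩ | ⟨g1, g2⟩ <;> linarith
    · rcases f2 with ⟨g1, g2⟩ | ⟨g1, g2⟩ <;> linarith
    · rcases f3 with ⟨g1, g2⟩ | ⟨g1, g2⟩ <;> linarith
    · rcases f3 with ⟨g1, g2⟩ | ⟨g1, g2⟩ <;> linarith
    · rcases f3 with ⟨g1, g2⟩ | ⟨g1, g2⟩ <;> linarith
    · norm_num
  · left
    obtain ⟨a, b, d, e, f, l1, l2, l3, bd, ae, af, be, bf, de, df⟩ := hc
    obtain ⟨ha1, ha2⟩ := share_strong hS hx l1 l2 bd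
    have hb := (leaf_ge hS hxD l1 ha1).2
    have hd := (leaf_ge hS hxD l2 ha1).2
    have f1 := two_three hS l3.1 (y := e) (z := f) (by simp) (by simp) l3.2.2.2
    refine ⟨31 / 10, hwx, ?_⟩
    refine locOKstarE hS.sub l1.1 l2.1 l3.1 l1.2.1 l1.2.2.1 l2.2.2.1 l3.2.1 l3.2.2.1 l1.2.2.2
      l2.2.2.2 bd ae af be bf de df l3.2.2.2 (r := 54 / 25) (r' := 10 / 9) ?_ ?_ (by norm_num)
      ?_ ?_ ?_ ?_ ?_ ?_ ?_ ?_ ?_ (by norm_num) ?_
    all_goals first | rw [upd_self] | skip
    all_goals try simp only [upd_ne l1.2.1, upd_ne l1.2.2.1, upd_ne l2.2.2.1, upd_ne l3.2.1,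
      upd_ne l3.2.2.1]
    any_goals linarith
    · rcases f1 with ⟨g1, g2⟩ | ⟨g1, g2⟩ <;> linarith
    · rcases f1 with ⟨g1, g2⟩ | ⟨g1, g2⟩ <;> linarith
    · rcases f1 with ⟨g1, g2⟩ | ⟨g1, g2⟩ <;> linarith
  · right; exact hc
  · left
    obtain ⟨b, a, d, f, l1, l2, l3, bd, bf, af⟩ := hc
    obtain ⟨ha1, ha2⟩ := share_strong hS hx l1.symm l2 bd
    obtain ⟨hd1, hd2⟩ := share_strong hS hx l2.symm l3 af
    have hb := (leaf_ge hS hxD l1.symm ha1).2
    have hf := (leaf_ge hS hxD l3 hd1).2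
    refine ⟨31 / 10, hwx, ?_⟩
    refine sxpath4 hS.sub l1.1 l2.1 l3.1 l1.2.1 l1.2.2.1 l2.2.2.1 l3.2.2.1 l1.2.2.2 bd bf
      l2.2.2.2 af l3.2.2.2 ?_ ?_ ?_ ?_ ?_
    · rw [upd_self]
    · rw [upd_ne l1.2.1]; exact hb
    · rw [upd_ne l1.2.2.1]; exact ha2
    · rw [upd_ne l2.2.2.1]; exact hd2
    · rw [upd_ne l3.2.2.1]; exact hf
  · left
    obtain ⟨a, b, d, l1, l2, l3⟩ := hc
    obtain ⟨ha1, ha2⟩ := share_strong hS hx l1 l2 l3.2.2.2
    obtain ⟨hb1, hb2⟩ := share_strong hS hx l1.symm l3 l2.2.2.2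
    obtain ⟨hd1, hd2⟩ := share_strong hS hx l2.symm l3.symm l1.2.2.2
    refine ⟨31 / 10, hwx, ?_⟩
    refine sxtri hS.sub l1.1 l2.1 l3.1 l1.2.1 l1.2.2.1 l2.2.2.1 l1.2.2.2 l2.2.2.2 l3.2.2.2
      ?_ ?_ ?_ ?_
    · rw [upd_self]
    · rw [upd_ne l1.2.1]; exact ha2
    · rw [upd_ne l1.2.2.1]; exact hb2
    · rw [upd_ne l2.2.2.1]; exact hd2

/-- an element of exactly two triples, none of which has an element of the first double type -/
theorem sx_N (hs : ¬ St H R x) (hD : ¬ Dv H R x) (hE : ¬ Ev H R x) {y z y' z' : α}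
    (l1 : LE H x y z) (l2 : LE H x y' z') (n1 : ¬ HasD H R {x, y, z})
    (n2 : ¬ HasD H R {x, y', z'})
    (d1 : y ≠ y') (d2 : y ≠ z') (d3 : z ≠ y') (d4 : z ≠ z') : Sx W H (wt H R) x := by
  have f1 := (edge_N hS hs hD hE l1).2 n1
  have f2 := (edge_N hS hs hD hE l2).2 n2
  refine ⟨10 / 3, by linarith [wt_high (H := H) (R := R) x], ?_⟩
  refine locOK2 hS.sub l1.1 l2.1 l1.2.1 l1.2.2.1 l1.2.2.2 l2.2.1 l2.2.2.1 l2.2.2.2 d1 d2 d3 d4
    (r := 5 / 3) (r' := 5 / 3) ?_ ?_ ?_ (by norm_num) ?_ ?_ ?_ (by norm_num) ?_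
  all_goals first | rw [upd_self] | skip
  all_goals try simp only [upd_ne l1.2.1, upd_ne l1.2.2.1, upd_ne l2.2.1, upd_ne l2.2.2.1]
  · exact f1.1
  · exact f1.2.1
  · linarith [f1.2.2]
  · exact f2.1
  · exact f2.2.1
  · linarith [f2.2.2]
  · norm_num

/-- the other triple of a page -/
theorem page_other {a b : α} (hx : Dv H R x) (ha : Dv H R a) (h1 : LE H x a b)
    (hbs : ¬ St H R b) (hbp : ¬ Priv H R b) :
    ¬ Dv H R b ∧ ¬ Ev H R b ∧ ∃ y z, LE H b y z ∧ y ≠ x ∧ y ≠ a ∧ z ≠ x ∧ z ≠ a ∧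
      ∀ T ∈ H, b ∈ T → T = {x, a, b} ∨ T = {b, y, z} := by
  have hbT : b ∈ ({x, a, b} : Finset α) := by simp
  have hsh : Sh H b := by
    rcases Sh_or_St hbp with h | h
    · exact absurd h hbs
    · exact h
  obtain ⟨S₁, s1, S₂, s2, s12, b1, b2⟩ := hsh
  obtain ⟨T₂, t2, t12, bt2⟩ : ∃ T ∈ H, T ≠ {x, a, b} ∧ b ∈ T := by
    by_cases h : S₁ = {x, a, b}
    · exact ⟨S₂, s2, fun h' => s12 (h.trans h'.symm), b2⟩
    · exact ⟨S₁, s1, h, b1⟩
  have hall : ∀ T ∈ H, b ∈ T → T = {x, a, b} ∨ T = T₂ := fun T hT hb =>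
    two_of_notSt hbs h1.1 t2 t12.symm hbT bt2 hT hb
  obtain ⟨y, z, hy, hz, hyz, e⟩ := exists_tri (hS.card T₂ t2) bt2
  -- the triple `T₂` contains neither `x` nor `a`
  have hno : ∀ {v : α}, (v = x ∨ v = a) → v ∉ T₂ := by
    intro v hv hvT
    have hxs : ¬ St H R x := hx.1
    have has : ¬ St H R a := ha.1
    obtain ⟨_, X₁, x1, X₂, x2, x12, vx1, vx2, w, hwx, w1, w2, hw⟩ := hx
    obtain ⟨_, A₁, y1, A₂, y2, y12, va1, va2, w', hwa, w1', w2', hw'⟩ := ha
    have xT : x ∈ ({x, a, b} : Finset α) := by simp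
    have aT : a ∈ ({x, a, b} : Finset α) := by simp
    -- the partner of `x` in both of its triples
    rcases hv with rfl | rfl
    · -- both triples of `v` contain `w`; both contain `b`
      have hw1 : w ∈ ({v, a, b} : Finset α) := by
        rcases two_of_notSt hxs x1 x2 x12 vx1 vx2 h1.1 xT with e' | e' <;> rw [e'] <;> assumption
      have hw2 : w ∈ T₂ := by
        rcases two_of_notSt hxs x1 x2 x12 vx1 vx2 t2 hvT with e' | e' <;> rw [e'] <;> assumption
      -- the partner of `a` in both of its triples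
      have ha1 : w' ∈ ({v, a, b} : Finset α) := by
        rcases two_of_notSt has y1 y2 y12 va1 va2 h1.1 aT with e' | e' <;> rw [e'] <;> assumption
      simp only [mem_insert, mem_singleton] at hw1 ha1
      rcases hw1 with h | h | h
      · exact hwx h
      · -- `w = a`: then `T₂` contains `v, a, b`
        subst h
        apply t12
        refine (eq_of_subset_of_card_le ?_ (by rw [hS.card _ t2, hS.card _ h1.1])).symm
        intro t ht
        simp only [mem_insert, mem_singleton] at ht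
        rcases ht with rfl | rfl | rfl <;> assumption
      · -- `w = b`
        subst h
        -- `a` has another triple, with the partner `w'`
        obtain ⟨A, hA, hAne, aA, wA⟩ : ∃ A ∈ H, A ≠ {v, a, w} ∧ a ∈ A ∧ w' ∈ A := by
          by_cases h : A₁ = {v, a, w}
          · exact ⟨A₂, y2, fun h' => y12 (h.trans h'.symm), va2, w2'⟩
          · exact ⟨A₁, y1, h, va1, w1'⟩
        rcases ha1 with h' | h' | h'
        · subst h'
          have := two_of_notSt hxs h1.1 t2 t12.symm xT hvT hA wA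
          rcases this with h'' | h''
          · exact hAne h''
          · subst h''
            apply t12
            refine (eq_of_subset_of_card_le ?_ (by rw [hS.card _ t2, hS.card _ h1.1])).symm
            intro t ht
            simp only [mem_insert, mem_singleton] at ht
            rcases ht with rfl | rfl | rfl <;> assumption
        · exact hwa h'
        · subst h'
          have := hall A hA wA
          rcases this with h'' | h''
          · exact hAne h''
          · subst h''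
            apply t12
            refine (eq_of_subset_of_card_le ?_ (by rw [hS.card _ t2, hS.card _ h1.1])).symm
            intro t ht
            simp only [mem_insert, mem_singleton] at ht
            rcases ht with rfl | rfl | rfl <;> assumption
    · have ha1 : w' ∈ ({x, v, b} : Finset α) := by
        rcases two_of_notSt has y1 y2 y12 va1 va2 h1.1 aT with e' | e' <;> rw [e'] <;> assumption
      have ha2 : w' ∈ T₂ := by
        rcases two_of_notSt has y1 y2 y12 va1 va2 t2 hvT with e' | e' <;> rw [e'] <;> assumption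
      have hw1 : w ∈ ({x, v, b} : Finset α) := by
        rcases two_of_notSt hxs x1 x2 x12 vx1 vx2 h1.1 xT with e' | e' <;> rw [e'] <;> assumption
      simp only [mem_insert, mem_singleton] at hw1 ha1
      rcases ha1 with h | h | h
      · subst h
        apply t12
        refine (eq_of_subset_of_card_le ?_ (by rw [hS.card _ t2, hS.card _ h1.1])).symm
        intro t ht
        simp only [mem_insert, mem_singleton] at ht
        rcases ht with rfl | rfl | rfl <;> assumption
      · exact hwa h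
      · subst h
        obtain ⟨A, hA, hAne, xA, wA⟩ : ∃ A ∈ H, A ≠ {x, v, w'} ∧ x ∈ A ∧ w ∈ A := by
          by_cases h : X₁ = {x, v, w'}
          · exact ⟨X₂, x2, fun h' => x12 (h.trans h'.symm), vx2, w2⟩
          · exact ⟨X₁, x1, h, vx1, w1⟩
        rcases hw1 with h' | h' | h'
        · exact hwx h'
        · subst h'
          have := two_of_notSt has h1.1 t2 t12.symm aT hvT hA wA
          rcases this with h'' | h''
          · exact hAne h''
          · subst h''
            apply t12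
            refine (eq_of_subset_of_card_le ?_ (by rw [hS.card _ t2, hS.card _ h1.1])).symm
            intro t ht
            simp only [mem_insert, mem_singleton] at ht
            rcases ht with rfl | rfl | rfl <;> assumption
        · subst h'
          have := hall A hA wA
          rcases this with h'' | h''
          · exact hAne h''
          · subst h''
            apply t12
            refine (eq_of_subset_of_card_le ?_ (by rw [hS.card _ t2, hS.card _ h1.1])).symm
            intro t ht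
            simp only [mem_insert, mem_singleton] at ht
            rcases ht with rfl | rfl | rfl <;> assumption
  have yT : y ∈ T₂ := by rw [e]; simp
  have zT : z ∈ T₂ := by rw [e]; simp
  refine ⟨?_, ?_, y, z, ⟨e ▸ t2, hy, hz, hyz⟩, ?_, ?_, ?_, ?_, ?_⟩
  · rintro ⟨_, B₁, c1, B₂, c2, c12, bb1, bb2, p, hpb, p1, p2, hp⟩
    have q1 : p ∈ ({x, a, b} : Finset α) := by
      rcases two_of_notSt hbs c1 c2 c12 bb1 bb2 h1.1 hbT with e' | e' <;> rw [e'] <;> assumption
    have q2 : p ∈ T₂ := by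
      rcases two_of_notSt hbs c1 c2 c12 bb1 bb2 t2 bt2 with e' | e' <;> rw [e'] <;> assumption
    simp only [mem_insert, mem_singleton] at q1
    rcases q1 with h | h | h
    · exact hno (Or.inl h) q2
    · exact hno (Or.inr h) q2
    · exact hpb h
  · intro hE
    obtain ⟨p, hpT, hpb, hpS⟩ := Ev_partner hE h1.1 hbT
    simp only [mem_insert, mem_singleton] at hpT
    rcases hpT with rfl | rfl | h
    · exact hx.1 hpS
    · exact ha.1 hpS
    · exact hpb h
  · exact fun h => hno (Or.inl h) yT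
  · exact fun h => hno (Or.inr h) yT
  · exact fun h => hno (Or.inl h) zT
  · exact fun h => hno (Or.inr h) zT
  · intro T hT hb
    rw [← e]
    exact hall T hT hb

end Pool.Agent.H61.FC
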