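import Pool.Agent.H61.PS1

set_option autoImplicit false
set_option linter.all false

/-!
# Total weights of small union-closed families
-/

namespace Pool.Agent.H61.PS

open Finset Pool.Agent.N188.FC Pool.Agent.H61.FC

variable {α : Type*} [DecidableEq α]

/-- the subset with mask `n` -/
def enc {k : ℕ} (e : Fin k → α) (n : ℕ) : Finset α :=
  (univ.filter (fun i : Fin k => n.testBit i = true)).image e

theorem enc_or {k : ℕ} (e : Fin k → α) (m n : ℕ) : enc e (m ||| n) = enc e m ∪ enc e n := by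
  unfold enc
  rw [← image_union, ← filter_or]
  congr 1
  ext i
  simp [Nat.testBit_or]

theorem enc_sub {k : ℕ} (e : Fin k → α) (n : ℕ) : enc e n ⊆ univ.image e :=
  image_subset_image (filter_subset _ _)

theorem mem_enc {k : ℕ} {e : Fin k → α} (he : Function.Injective e) {n : ℕ} {i : Fin k} :
    e i ∈ enc e n ↔ n.testBit i = true := by
  unfold enc
  rw [he.mem_finset_image, mem_filter]
  simp

theorem sum_enc {k : ℕ} {e : Fin k → α} (he : Function.Injective e) (f : Finset α → ℝ) :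
    ∑ A ∈ (univ.image e).powerset, f A = ∑ n ∈ range (2 ^ k), f (enc e n) := by
  symm
  refine sum_nbij (enc e) (fun n _ => mem_powerset.2 (enc_sub e n)) ?_ ?_ (fun _ _ => rfl)
  · intro m hm n hn hmn
    have hm' := mem_range.1 (mem_coe.1 hm)
    have hn' := mem_range.1 (mem_coe.1 hn)
    have hmn' : enc e m = enc e n := hmn
    refine Nat.eq_of_testBit_eq (fun i => ?_)
    by_cases hi : i < k
    · have h1 := mem_enc he (n := m) (i := ⟨i, hi⟩)
      have h2 := mem_enc he (n := n) (i := ⟨i, hi⟩)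
      rw [hmn'] at h1
      have h3 := h1.symm.trans h2
      simp only at h3
      cases h4 : m.testBit i <;> cases h5 : n.testBit i <;> simp_all
    · push Not at hi
      rw [Nat.testBit_lt_two_pow (lt_of_lt_of_le hm' (Nat.pow_le_pow_right (by norm_num) hi)),
        Nat.testBit_lt_two_pow (lt_of_lt_of_le hn' (Nat.pow_le_pow_right (by norm_num) hi))]
  · intro A hA
    have hA' := mem_powerset.1 (mem_coe.1 hA)
    refine ⟨Nat.ofBits (fun i : Fin k => decide (e i ∈ A)), mem_coe.2 (mem_range.2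
      (Nat.ofBits_lt_two_pow _)), ?_⟩
    ext t
    constructor
    · intro ht
      obtain ⟨i, -, rfl⟩ := mem_image.1 (enc_sub e _ ht)
      rw [mem_enc he, Nat.testBit_ofBits_lt _ _ i.2] at ht
      simpa using ht
    · intro ht
      obtain ⟨i, -, rfl⟩ := mem_image.1 (hA' ht)
      rw [mem_enc he, Nat.testBit_ofBits_lt _ _ i.2]
      simpa using ht

/-- the weight of a mask -/
def wz {k : ℕ} (ci : Fin k → ℤ) (n : ℕ) : ℤ :=
  2 * ∑ i : Fin k, (if n.testBit i = true then ci i else 0) - ∑ i : Fin k, ci i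

open scoped Classical in
theorem total_enc {k : ℕ} {e : Fin k → α} (he : Function.Injective e) {c : α → ℝ}
    {ci : Fin k → ℤ} (hc : ∀ i, c (e i) = (ci i : ℝ)) (F : Finset (Finset α)) :
    ∑ A ∈ F.filter (fun A => A ⊆ univ.image e), (2 * ∑ x ∈ A, c x - ∑ x ∈ univ.image e, c x) =
      ((∑ n ∈ range (2 ^ k), wz ci n * (if enc e n ∈ F then 1 else 0) : ℤ) : ℝ) := by
  have h1 : F.filter (fun A => A ⊆ univ.image e) =
      (univ.image e).powerset.filter (fun A => A ∈ F) := by
    ext A; simp only [mem_filter, mem_powerset]; exact and_comm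
  rw [h1, sum_filter, sum_enc he, Int.cast_sum]
  refine sum_congr rfl fun n _ => ?_
  have h2 : ∑ x ∈ univ.image e, c x = ∑ i : Fin k, (ci i : ℝ) := by
    rw [sum_image (fun _ _ _ _ h => he h)]
    exact sum_congr rfl fun i _ => hc i
  have h3 : ∑ x ∈ enc e n, c x = ∑ i : Fin k, (if n.testBit i = true then (ci i : ℝ) else 0) := by
    unfold enc
    rw [sum_image (fun _ _ _ _ h => he h), sum_filter]
    refine sum_congr rfl fun i _ => ?_
    rw [hc i]
  rw [h2, h3]
  unfold wz
  split_ifs with h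
  · push_cast
    rw [mul_one]
  · push_cast
    rw [mul_zero]

/-- the remaining weight -/
def rho (w : ℕ → ℤ) (L : List (ℕ × ℕ × ℤ)) (n : ℕ) : ℤ :=
  L.foldr (fun t r => (if t.1 = n then t.2.2 else 0) - (if t.1 ||| t.2.1 = n then t.2.2 else 0) + r)
    (w n)

theorem rho_le {X : ℕ → ℤ} {N : ℕ} {w : ℕ → ℤ} (L : List (ℕ × ℕ × ℤ))
    (hL : ∀ t ∈ L, 0 ≤ t.2.2 ∧ X t.1 ≤ X (t.1 ||| t.2.1) ∧ t.1 < N ∧ t.1 ||| t.2.1 < N) :
    ∑ n ∈ range N, rho w L n * X n ≤ ∑ n ∈ range N, w n * X n := by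
  induction L with
  | nil => exact le_of_eq rfl
  | cons t L ih =>
    refine le_trans ?_ (ih (fun s hs => hL s (List.mem_cons_of_mem _ hs)))
    obtain ⟨h0, h1, h2, h3⟩ := hL t List.mem_cons_self
    have e1 : ∑ n ∈ range N, rho w (t :: L) n * X n = ∑ n ∈ range N, rho w L n * X n +
        (t.2.2 * X t.1 - t.2.2 * X (t.1 ||| t.2.1)) := by
      have e2 : ∀ n ∈ range N, rho w (t :: L) n * X n = rho w L n * X n +
          ((if t.1 = n then t.2.2 * X n else 0) -
            (if t.1 ||| t.2.1 = n then t.2.2 * X n else 0)) := by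
        intro n _
        have e3 : rho w (t :: L) n = (if t.1 = n then t.2.2 else 0) -
          (if t.1 ||| t.2.1 = n then t.2.2 else 0) + rho w L n := rfl
        rw [e3]
        split_ifs <;> ring
      rw [sum_congr rfl e2, sum_add_distrib, sum_sub_distrib, sum_ite_eq, sum_ite_eq,
        if_pos (mem_range.2 h2), if_pos (mem_range.2 h3)]
    rw [e1]
    nlinarith

/-- a lower bound for the value at `n` -/
def low (w : ℕ → ℤ) (L : List (ℕ × ℕ × ℤ)) (In Out : List ℕ) (n : ℕ) : ℤ :=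
  if n ∈ In then rho w L n else if n ∈ Out then 0 else min (rho w L n) 0

theorem cert {X : ℕ → ℤ} {N : ℕ} {w : ℕ → ℤ} (L : List (ℕ × ℕ × ℤ)) (In Out : List ℕ)
    (hX0 : ∀ n, 0 ≤ X n) (hX1 : ∀ n, X n ≤ 1) (hin : ∀ n ∈ In, X n = 1) (hout : ∀ n ∈ Out, X n = 0)
    (hL : ∀ t ∈ L, 0 ≤ t.2.2 ∧ X t.1 ≤ X (t.1 ||| t.2.1) ∧ t.1 < N ∧ t.1 ||| t.2.1 < N)
    (hpos : 0 < ∑ n ∈ range N, low w L In Out n) :
    0 < ∑ n ∈ range N, w n * X n := by
  refine lt_of_lt_of_le hpos (le_trans ?_ (rho_le L hL))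
  refine sum_le_sum fun n _ => ?_
  unfold low
  split_ifs with h1 h2
  · rw [hin n h1, mul_one]
  · rw [hout n h2, mul_zero]
  · have h3 := hX0 n
    have h4 := hX1 n
    rcases le_total (rho w L n) 0 with h5 | h5
    · rw [min_eq_left h5]
      nlinarith
    · rw [min_eq_right h5]
      positivity

end Pool.Agent.H61.PS
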