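import Pool.Agent.H61.PS3

set_option autoImplicit false
set_option linter.all false

/-!
# Two small configurations: the total weight is positive
-/

namespace Pool.Agent.H61.PS

open Finset Pool.Agent.N188.FC Pool.Agent.H61.FC

variable {α : Type*} [DecidableEq α]

/-- a list of arcs -/
def LA : List (ℕ × ℕ × ℤ) :=
  [(5, 52, 6), (6, 52, 6), (9, 52, 10), (10, 52, 10), (12, 52, 4), (12, 112, 4), (13, 112, 2),
  (14, 112, 2), (17, 7, 6), (17, 11, 2), (18, 112, 2), (20, 11, 6), (24, 7, 4), (25, 112, 4), (26,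
  112, 4), (28, 112, 2), (33, 7, 6), (33, 11, 2), (36, 11, 6), (40, 7, 4), (41, 52, 2), (41, 112,
  2), (42, 52, 2), (42, 112, 2), (44, 112, 2), (49, 112, 2), (61, 112, 2), (62, 112, 2), (65, 7,
  2), (65, 52, 8), (66, 52, 10), (67, 7, 2), (68, 11, 8), (69, 52, 2), (73, 52, 6), (74, 52, 6),
  (80, 7, 10), (81, 11, 4), (82, 7, 2), (82, 11, 2), (84, 11, 2), (87, 11, 2), (88, 7, 6), (96, 7,
  10), (97, 11, 4), (98, 7, 2), (98, 11, 2), (100, 11, 2), (103, 11, 2), (104, 7, 6)]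

/-- a list of masks -/
def InA : List ℕ := [7, 11, 15, 51, 52, 55, 59, 63, 112, 115, 116, 119, 123, 127]

/-- a list of masks -/
def OutA : List ℕ := [1, 2, 4, 8, 16, 32, 64]

/-- a list of arcs -/
def LB : List (ℕ × ℕ × ℤ) :=
  [(5, 52, 6), (6, 52, 6), (9, 52, 10), (10, 52, 10), (12, 52, 4), (12, 112, 4), (13, 112, 2),
  (14, 112, 2), (17, 7, 6), (17, 11, 2), (18, 112, 2), (19, 112, 2), (20, 11, 6), (24, 7, 4), (25,
  112, 4), (26, 112, 4), (28, 112, 2), (33, 7, 6), (33, 11, 2), (35, 112, 2), (36, 11, 6), (40, 7,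
  4), (41, 52, 2), (41, 112, 2), (42, 52, 2), (42, 112, 2), (44, 112, 2), (48, 11, 8), (49, 112,
  2), (61, 112, 2), (62, 112, 2), (65, 7, 2), (65, 52, 8), (66, 52, 10), (67, 112, 4), (68, 11,
  8), (69, 52, 2), (70, 7, 2), (73, 52, 6), (74, 52, 6), (80, 7, 10), (81, 11, 4), (82, 7, 2),
  (82, 11, 2), (84, 11, 2), (87, 11, 2), (88, 7, 6), (96, 7, 10), (97, 11, 4), (98, 7, 2), (98,
  11, 2), (100, 11, 2), (103, 11, 2), (104, 7, 6)]

/-- a list of masks -/
def InB : List ℕ := [7, 11, 15, 52, 55, 63, 112, 116, 119, 123, 127]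

/-- a list of masks -/
def OutB : List ℕ := [1, 2, 4, 8, 16, 32, 64, 51, 3]

/-- a list of arcs -/
def LC : List (ℕ × ℕ × ℤ) :=
  [(3, 112, 8), (5, 52, 6), (6, 52, 6), (9, 52, 10), (10, 52, 10), (12, 52, 4), (12, 112, 4), (13,
  112, 2), (14, 112, 2), (17, 7, 4), (17, 11, 2), (17, 112, 2), (18, 7, 2), (18, 112, 2), (20, 11,
  6), (24, 7, 4), (25, 112, 4), (26, 112, 4), (28, 112, 2), (33, 7, 6), (33, 11, 2), (36, 11, 6),
  (40, 7, 4), (41, 52, 2), (41, 112, 2), (42, 52, 2), (42, 112, 2), (44, 112, 2), (49, 11, 2),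
  (50, 11, 2), (56, 11, 4), (61, 112, 2), (62, 112, 2), (65, 7, 2), (65, 52, 8), (66, 52, 10),
  (67, 7, 2), (68, 11, 8), (69, 52, 2), (73, 52, 6), (74, 52, 6), (80, 7, 10), (81, 11, 4), (82,
  7, 2), (82, 11, 2), (84, 11, 2), (87, 11, 2), (88, 7, 6), (96, 7, 10), (97, 11, 4), (98, 7, 2),
  (98, 11, 2), (100, 11, 2), (103, 11, 2), (104, 7, 6)]

/-- a list of masks -/
def InC : List ℕ := [7, 11, 15, 52, 55, 63, 112, 116, 119, 123, 127]

/-- a list of masks -/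
def OutC : List ℕ := [1, 2, 4, 8, 16, 32, 64, 51, 48]



/-- the weights, five elements -/
def c5 : Fin 5 → ℤ := ![3, 3, 2, 2, 2]

/-- the weights, seven elements -/
def c7 : Fin 7 → ℤ := ![3, 3, 4, 2, 3, 3, 2]

theorem enc_single7 (e : Fin 7 → α) : ∀ n ∈ [1, 2, 4, 8, 16, 32, 64], ∃ i, enc e n = {e i} := by
  have h : ∀ n ∈ [1, 2, 4, 8, 16, 32, 64], ∃ i : Fin 7,
      (univ.filter (fun j : Fin 7 => n.testBit j = true)) = {i} := by decide +kernel
  intro n hn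
  obtain ⟨i, hi⟩ := h n hn
  refine ⟨i, ?_⟩
  unfold enc
  rw [hi, image_singleton]

theorem enc_single5 (e : Fin 5 → α) : ∀ n ∈ [1, 2, 4, 8, 16], ∃ i, enc e n = {e i} := by
  have h : ∀ n ∈ [1, 2, 4, 8, 16], ∃ i : Fin 5,
      (univ.filter (fun j : Fin 5 => n.testBit j = true)) = {i} := by decide +kernel
  intro n hn
  obtain ⟨i, hi⟩ := h n hn
  refine ⟨i, ?_⟩
  unfold enc
  rw [hi, image_singleton]

section

variable {k : ℕ} {F : Finset (Finset α)} {e : Fin k → α}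

theorem gen_mem (hF : ∀ A ∈ F, ∀ B ∈ F, A ∪ B ∈ F) {S T : List ℕ} (hS : ∀ g ∈ S, enc e g ∈ F)
    (h : ∀ n ∈ T, ∃ a ∈ S, ∃ b ∈ S, ∃ c ∈ S, ∃ d ∈ S, n = a ||| b ||| c ||| d) :
    ∀ n ∈ T, enc e n ∈ F := by
  intro n hn
  obtain ⟨a, ha, b, hb, c, hc, d, hd, rfl⟩ := h n hn
  rw [enc_or, enc_or, enc_or]
  exact hF _ (hF _ (hF _ (hS a ha) _ (hS b hb)) _ (hS c hc)) _ (hS d hd)

open scoped Classical in
/-- the certificate applied to a union-closed family -/
theorem cert_fam (hF : ∀ A ∈ F, ∀ B ∈ F, A ∪ B ∈ F) (w : ℕ → ℤ) (N : ℕ)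
    (L : List (ℕ × ℕ × ℤ)) (In Out S : List ℕ) (hS : ∀ g ∈ S, enc e g ∈ F)
    (hIn : ∀ n ∈ In, ∃ a ∈ S, ∃ b ∈ S, ∃ c ∈ S, ∃ d ∈ S, n = a ||| b ||| c ||| d)
    (hOut : ∀ n ∈ Out, enc e n ∉ F)
    (hL : ∀ t ∈ L, 0 ≤ t.2.2 ∧ t.2.1 ∈ S ∧ t.1 < N ∧ t.1 ||| t.2.1 < N)
    (hpos : 0 < ∑ n ∈ range N, low w L In Out n) :
    0 < ∑ n ∈ range N, w n * (if enc e n ∈ F then 1 else 0) := by
  refine cert (X := fun n => if enc e n ∈ F then 1 else 0) L In Out ?_ ?_ ?_ ?_ ?_ hpos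
  · intro n
    show (0 : ℤ) ≤ if enc e n ∈ F then 1 else 0
    split_ifs <;> norm_num
  · intro n
    show (if enc e n ∈ F then 1 else 0) ≤ (1 : ℤ)
    split_ifs <;> norm_num
  · intro n hn
    exact if_pos (gen_mem hF hS hIn n hn)
  · intro n hn
    exact if_neg (hOut n hn)
  · intro t ht
    obtain ⟨h0, h1, h2, h3⟩ := hL t ht
    refine ⟨h0, ?_, h2, h3⟩
    show (if enc e t.1 ∈ F then 1 else 0) ≤ (if enc e (t.1 ||| t.2.1) ∈ F then (1 : ℤ) else 0)
    by_cases h4 : enc e t.1 ∈ F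
    · rw [if_pos h4, if_pos]
      rw [enc_or]
      exact hF _ h4 _ (hS _ h1)
    · rw [if_neg h4]
      split_ifs <;> norm_num

end

open scoped Classical in
theorem pos5 {F : Finset (Finset α)} (hF : ∀ A ∈ F, ∀ B ∈ F, A ∪ B ∈ F) {e : Fin 5 → α}
    (he : Function.Injective e) {c : α → ℝ} (hc : ∀ i, c (e i) = (c5 i : ℝ))
    (h1 : enc e 7 ∈ F) (h2 : enc e 11 ∈ F) (h3 : enc e 19 ∈ F) (hs : ∀ i, {e i} ∉ F) :
    0 < ∑ A ∈ F.filter (fun A => A ⊆ univ.image e), (2 * ∑ x ∈ A, c x - ∑ x ∈ univ.image e, c x) := by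
  rw [total_enc he hc]
  have hS : ∀ g ∈ [7, 11, 19], enc e g ∈ F := by
    intro g hg
    simp only [List.mem_cons, List.not_mem_nil, or_false] at hg
    rcases hg with rfl | rfl | rfl <;> assumption
  have hO : ∀ n ∈ [1, 2, 4, 8, 16], enc e n ∉ F := by
    intro n hn
    obtain ⟨i, hi⟩ := enc_single5 e n hn
    rw [hi]
    exact hs i
  exact_mod_cast cert_fam hF (wz c5) (2 ^ 5) [] [7, 11, 15, 19, 23, 27, 31] [1, 2, 4, 8, 16]
    [7, 11, 19] hS (by decide +kernel) hO (by simp) (by decide +kernel)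

theorem enc51 (e : Fin 7 → α) : enc e 3 ∪ enc e 48 = enc e 51 := by
  rw [← enc_or]
  rfl

open scoped Classical in
theorem pos7 {F : Finset (Finset α)} (hF : ∀ A ∈ F, ∀ B ∈ F, A ∪ B ∈ F) {e : Fin 7 → α}
    (he : Function.Injective e) {c : α → ℝ} (hc : ∀ i, c (e i) = (c7 i : ℝ))
    (h1 : enc e 7 ∈ F) (h2 : enc e 11 ∈ F) (h3 : enc e 52 ∈ F) (h4 : enc e 112 ∈ F)
    (hs : ∀ i, {e i} ∉ F) :
    0 < ∑ A ∈ F.filter (fun A => A ⊆ univ.image e), (2 * ∑ x ∈ A, c x - ∑ x ∈ univ.image e, c x) := by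
  rw [total_enc he hc]
  have hS : ∀ g ∈ [7, 11, 52, 112], enc e g ∈ F := by
    intro g hg
    simp only [List.mem_cons, List.not_mem_nil, or_false] at hg
    rcases hg with rfl | rfl | rfl | rfl <;> assumption
  have hO : ∀ n ∈ [1, 2, 4, 8, 16, 32, 64], enc e n ∉ F := by
    intro n hn
    obtain ⟨i, hi⟩ := enc_single7 e n hn
    rw [hi]
    exact hs i
  by_cases h51 : enc e 51 ∈ F
  · have hS' : ∀ g ∈ [7, 11, 52, 112, 51], enc e g ∈ F := by
      intro g hg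
      simp only [List.mem_cons, List.not_mem_nil, or_false] at hg
      rcases hg with rfl | rfl | rfl | rfl | rfl <;> assumption
    exact_mod_cast cert_fam hF (wz c7) (2 ^ 7) LA InA OutA [7, 11, 52, 112, 51] hS'
      (by decide +kernel) hO (by decide +kernel) (by decide +kernel)
  · by_cases h3' : enc e 3 ∈ F
    · have h48 : enc e 48 ∉ F := fun h => h51 (by rw [← enc51]; exact hF _ h3' _ h)
      have hO' : ∀ n ∈ OutC, enc e n ∉ F := by
        intro n hn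
        unfold OutC at hn
        simp only [List.mem_cons, List.not_mem_nil, or_false] at hn
        rcases hn with rfl | rfl | rfl | rfl | rfl | rfl | rfl | rfl | rfl
        all_goals first
          | exact h51
          | exact h48
          | exact hO _ (by simp)
      exact_mod_cast cert_fam hF (wz c7) (2 ^ 7) LC InC OutC [7, 11, 52, 112] hS
        (by decide +kernel) hO' (by decide +kernel) (by decide +kernel)
    · have hO' : ∀ n ∈ OutB, enc e n ∉ F := by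
        intro n hn
        unfold OutB at hn
        simp only [List.mem_cons, List.not_mem_nil, or_false] at hn
        rcases hn with rfl | rfl | rfl | rfl | rfl | rfl | rfl | rfl | rfl
        all_goals first
          | exact h51
          | exact h3'
          | exact hO _ (by simp)
      exact_mod_cast cert_fam hF (wz c7) (2 ^ 7) LB InB OutB [7, 11, 52, 112] hS
        (by decide +kernel) hO' (by decide +kernel) (by decide +kernel)

end Pool.Agent.H61.PS
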