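import Pool.Agent.H61.PS2

set_option autoImplicit false
set_option linter.all false

/-!
# Families of triples without removable parts: a strict local inequality or a small configuration
-/

namespace Pool.Agent.H61.FC

open Finset

variable {α : Type*} [DecidableEq α]

/-- no roots -/
abbrev R0 (α : Type*) : α → Prop := fun _ => False

variable {W : Finset α} {H : Finset (Finset α)} {x : α}

theorem LE.rot {y z : α} (h : LE H x y z) : LE H y x z := by
  obtain ⟨h1, h2, h3, h4⟩ := h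
  refine ⟨?_, h2.symm, h4.symm, h3.symm⟩
  rwa [tri_rot] at h1

theorem LE.rot2 {y z : α} (h : LE H x y z) : LE H z x y := h.symm.rot

theorem LE.rot3 {y z : α} (h : LE H x y z) : LE H y z x := h.rot.symm

/-- the other triple of a pair -/
theorem pair_struct {a b : α} (hcard : ∀ T ∈ H, T.card = 3) (hx : Dv H (R0 α) x) (l : LE H x a b)
    (hb : ¬ Dv H (R0 α) b) : ∃ d, LE H x a d ∧ d ≠ b := by
  have hxs := hx.1
  obtain ⟨_, X₁, x1, X₂, x2, x12, vx1, vx2, w, hwx, w1, w2, hw⟩ := hx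
  have xT : x ∈ ({x, a, b} : Finset α) := by simp
  have hwT : w ∈ ({x, a, b} : Finset α) := by
    rcases two_of_notSt hxs x1 x2 x12 vx1 vx2 l.1 xT with e' | e' <;> rw [e'] <;> assumption
  have hwD : Dv H (R0 α) w := ⟨hw, X₁, x1, X₂, x2, x12, w1, w2, x, hwx.symm, vx1, vx2, hxs⟩
  obtain ⟨T', t', tne, xT', wT'⟩ : ∃ T ∈ H, T ≠ {x, a, b} ∧ x ∈ T ∧ w ∈ T := by
    by_cases h : X₁ = {x, a, b}
    · exact ⟨X₂, x2, fun h' => x12 (h.trans h'.symm), vx2, w2⟩
    · exact ⟨X₁, x1, h, vx1, w1⟩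
  simp only [mem_insert, mem_singleton] at hwT
  rcases hwT with h | h | h
  · exact absurd h hwx
  · subst h
    obtain ⟨u, hux, huw, he⟩ := exists_tri2 (hcard T' t') xT' wT' hwx
    refine ⟨u, ⟨he ▸ t', l.2.1, hux, huw.symm⟩, ?_⟩
    rintro rfl
    exact tne he
  · subst h
    exact absurd hwD hb

variable (hS : Stuck W H (R0 α))

include hS

/-- a pair with heavy pages -/
theorem raise_case {a b d : α} (hx : Dv H (R0 α) x) (ha : Dv H (R0 α) a) (l1 : LE H x a b)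
    (l2 : LE H x a d) (hbd : b ≠ d) (hsum : 13 / 3 ≤ wt H (R0 α) b + wt H (R0 α) d)
    (hbs : ¬ St H (R0 α) b) (hbp : ¬ Priv H (R0 α) b) :
    ∃ c : α → ℝ, (∀ y, 0 ≤ c y) ∧ (∀ y ∈ W, LocOK W H c y) ∧ 0 < c b ∧ Sx W H c b := by
  obtain ⟨hbD, hbE, y, z, l3, hyx, hya, hzx, hza, hall⟩ := page_other hS hx ha l1 hbs hbp
  set c : α → ℝ := fun v => if v = x ∨ v = a then 13 / 6 else wt H (R0 α) v with hc
  have cx : c x = 13 / 6 := by simp [hc]
  have ca : c a = 13 / 6 := by simp [hc]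
  have cne : ∀ {v}, v ≠ x → v ≠ a → c v = wt H (R0 α) v := by
    intro v h1 h2
    simp [hc, h1, h2]
  have wx := wt_Dv hx
  have wa := wt_Dv ha
  have cle : ∀ v, wt H (R0 α) v ≤ c v := by
    intro v
    by_cases h1 : v = x
    · rw [h1, cx, wx]; norm_num
    by_cases h2 : v = a
    · rw [h2, ca, wa]; norm_num
    rw [cne h1 h2]
  have hlow : ∀ v, 4 / 3 ≤ c v := fun v => (wt_low v).trans (cle v)
  have cb := cne (v := b) l1.2.2.1 l1.2.2.2.symm
  have cd := cne (v := d) l2.2.2.1 l2.2.2.2.symm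
  have hb3 := wt_high (H := H) (R := R0 α) b
  have hd3 := wt_high (H := H) (R := R0 α) d
  have hbl := wt_low (H := H) (R := R0 α) b
  have hdl := wt_low (H := H) (R := R0 α) d
  refine ⟨c, fun v => by linarith [hlow v], ?_, by linarith [hlow b], ?_⟩
  · intro v hv
    by_cases h1 : v = x
    · subst h1
      refine locOKstar hS.sub l1.1 l2.1 l1.2.1 l1.2.2.1 l2.2.2.1 l1.2.2.2 l2.2.2.2 hbd
        ?_ ?_ ?_ ?_ ?_ ?_ ?_ ?_ ?_ <;> simp only [cx, ca, cb, cd] <;> linarith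
    by_cases h2 : v = a
    · subst h2
      refine locOKstar hS.sub l1.rot.1 l2.rot.1 l1.rot.2.1 l1.rot.2.2.1 l2.rot.2.2.1
        l1.rot.2.2.2 l2.rot.2.2.2 hbd
        ?_ ?_ ?_ ?_ ?_ ?_ ?_ ?_ ?_ <;> simp only [cx, ca, cb, cd] <;> linarith
    · exact (locOK_all hS hv (fun h => h)).mono cle (cne h1 h2)
  · have hsh : Sh H b := by
      rcases Sh_or_St hbp with h | h
      · exact absurd h hbs
      · exact h
    have lb := l1.rot2
    have cy := cne hyx hya
    have cz := cne hzx hza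
    have hNw := wt_N hbs hbD hbE hsh
    have hE := edge_N hS hbs hbD hbE l3
    by_cases hD : HasD H (R0 α) {b, y, z}
    · have h8 : wt H (R0 α) b = 8 / 3 := by
        refine hNw.1 (fun T hT hbT => ?_)
        rcases hall T hT hbT with h | h
        · rw [h]; exact ⟨x, by simp, hx⟩
        · rw [h]; exact hD
      obtain ⟨e1, e2⟩ := hE.1 hD
      refine ⟨25 / 9, by rw [cb, h8]; norm_num, ?_⟩
      refine locOK2 hS.sub lb.1 l3.1 lb.2.1 lb.2.2.1 lb.2.2.2 l3.2.1 l3.2.2.1 l3.2.2.2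
        hyx.symm hzx.symm hya.symm hza.symm (r := 13 / 9) (r' := 4 / 3) ?_ ?_ ?_ (by norm_num)
        ?_ ?_ ?_ (by norm_num) ?_
      all_goals first | rw [upd_self] | skip
      all_goals try simp only [upd_ne lb.2.1, upd_ne lb.2.2.1, upd_ne l3.2.1, upd_ne l3.2.2.1,
        cx, ca, cy, cz, e1, e2]
      all_goals norm_num
    · obtain ⟨e1, e2, e3⟩ := hE.2 hD
      refine ⟨28 / 9, by rw [cb]; linarith, ?_⟩
      refine locOK2 hS.sub lb.1 l3.1 lb.2.1 lb.2.2.1 lb.2.2.2 l3.2.1 l3.2.2.1 l3.2.2.2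
        hyx.symm hzx.symm hya.symm hza.symm (r := 13 / 9) (r' := 5 / 3) ?_ ?_ ?_ (by norm_num)
        ?_ ?_ ?_ (by norm_num) ?_
      all_goals first | rw [upd_self] | skip
      all_goals try simp only [upd_ne lb.2.1, upd_ne lb.2.2.1, upd_ne l3.2.1, upd_ne l3.2.2.1,
        cx, ca, cy, cz]
      all_goals linarith

theorem mem_W_of_LE {y z : α} (l : LE H x y z) : x ∈ W := hS.sub _ l.1 (by simp)

theorem stuck_cases (hne : W.Nonempty) :
    (∃ c : α → ℝ, ∃ b ∈ W, (∀ y, 0 ≤ c y) ∧ (∀ y ∈ W, LocOK W H c y) ∧ 0 < c b ∧ Sx W H c b) ∨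
    (∃ x a b d e, LE H x a b ∧ LE H x a d ∧ LE H x a e ∧ b ≠ d ∧ b ≠ e ∧ d ≠ e) ∨
    (∃ x a b c y d e, LE H x a b ∧ LE H x a c ∧ LE H y d b ∧ LE H y d e ∧
      b ≠ c ∧ y ≠ x ∧ y ≠ a ∧ y ≠ c ∧ d ≠ x ∧ d ≠ a ∧ d ≠ c ∧ e ≠ x ∧ e ≠ a ∧ e ≠ b ∧ e ≠ c) := by
  have hw0 : ∀ y, 0 ≤ wt H (R0 α) y := fun y => by linarith [wt_low (H := H) (R := R0 α) y]
  have hwp : ∀ y, 0 < wt H (R0 α) y := fun y => by linarith [wt_low (H := H) (R := R0 α) y]
  have hloc : ∀ y ∈ W, LocOK W H (wt H (R0 α)) y := fun y hy => locOK_all hS hy (fun h => h)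
  by_cases hSt : ∃ x, St H (R0 α) x
  · obtain ⟨x, hx⟩ := hSt
    rcases sx_strong hS hx (fun h => h) with h | ⟨a, b, d, e, h⟩
    · left
      refine ⟨_, x, ?_, hw0, hloc, hwp x, h⟩
      obtain ⟨T₁, h1, _, _, _, _, _, _, _, v1, _⟩ := hx.resolve_left (fun h => h)
      exact hS.sub _ h1 v1
    · right; left
      exact ⟨x, a, b, d, e, h⟩
  push Not at hSt
  have hEv : ∀ x, ¬ Ev H (R0 α) x := by
    rintro x ⟨_, T₁, h1, T₂, h2, _, v1, v2, w, _, _, _, hw⟩
    exact hSt w hw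
  by_cases hT : ∃ T ∈ H, ¬ HasD H (R0 α) T
  · left
    obtain ⟨T, hT, hTD⟩ := hT
    obtain ⟨v, hvT, hvp⟩ : ∃ v ∈ T, ¬ Priv H (R0 α) v := by
      have h3 := hS.card T hT
      obtain ⟨p, q, hpT, hqT, hpq⟩ : ∃ p q, p ∈ T ∧ q ∈ T ∧ p ≠ q := by
        obtain ⟨p, hp, q, hq, hpq⟩ := one_lt_card.1 (by omega : 1 < T.card)
        exact ⟨p, q, hp, hq, hpq⟩
      by_contra hcon
      push Not at hcon
      exact hS.priv T hT p hpT q hqT hpq ⟨hcon p hpT, hcon q hqT⟩
    have hvs := hSt v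
    have hvE := hEv v
    have hvD : ¬ Dv H (R0 α) v := fun h => hTD ⟨v, hvT, h⟩
    have hsh : Sh H v := by
      rcases Sh_or_St hvp with h | h
      · exact absurd h hvs
      · exact h
    obtain ⟨T', t', tne, vT'⟩ : ∃ T' ∈ H, T' ≠ T ∧ v ∈ T' := by
      obtain ⟨S₁, s1, S₂, s2, s12, b1, b2⟩ := hsh
      by_cases h : S₁ = T
      · exact ⟨S₂, s2, fun h' => s12 (h.trans h'.symm), b2⟩
      · exact ⟨S₁, s1, h, b1⟩
    obtain ⟨y, z, hy, hz, hyz, e1⟩ := exists_tri (hS.card T hT) hvT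
    obtain ⟨y', z', hy', hz', hyz', e2⟩ := exists_tri (hS.card T' t') vT'
    have L1 : LE H v y z := ⟨e1 ▸ hT, hy, hz, hyz⟩
    have L2 : LE H v y' z' := ⟨e2 ▸ t', hy', hz', hyz'⟩
    have hdis : ∀ w, w ≠ v → w ∈ T → w ∈ T' → False := by
      intro w hw w1 w2
      exact hvD ⟨hvs, T, hT, T', t', tne.symm, hvT, vT', w, hw, w1, w2, hSt w⟩
    have m1 : y ∈ T := by rw [e1]; simp
    have m2 : z ∈ T := by rw [e1]; simp
    have m3 : y' ∈ T' := by rw [e2]; simp
    have m4 : z' ∈ T' := by rw [e2]; simp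
    have d1 : y ≠ y' := fun h => hdis y hy m1 (h ▸ m3)
    have d2 : y ≠ z' := fun h => hdis y hy m1 (h ▸ m4)
    have d3 : z ≠ y' := fun h => hdis z hz m2 (h ▸ m3)
    have d4 : z ≠ z' := fun h => hdis z hz m2 (h ▸ m4)
    have hvW : v ∈ W := hS.sub T hT hvT
    by_cases hTD' : HasD H (R0 α) T'
    · rw [e2] at hTD'
      obtain ⟨g1, g2⟩ := hasD_all hvD L2.1 rfl hTD'
      obtain ⟨d, ld, hdv⟩ := pair_struct hS.card g1 L2.rot3 hvD
      have hw3 := wt6 hvp hvE hT hvT hTD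
      obtain ⟨c, c0, c1, c2, c3⟩ := raise_case hS g1 g2 L2.rot3 ld hdv.symm
        (by rw [hw3]; linarith [wt_low (H := H) (R := R0 α) d]) hvs hvp
      exact ⟨c, v, hvW, c0, c1, c2, c3⟩
    · refine ⟨_, v, hvW, hw0, hloc, hwp v, ?_⟩
      exact sx_N hS hvs hvD hvE L1 L2 (by rw [← e1]; exact hTD) (by rw [← e2]; exact hTD')
        d1 d2 d3 d4
  push Not at hT
  obtain ⟨w0, hw0'⟩ := hne
  obtain ⟨T, hTH, hwT⟩ := hS.cov w0 hw0' (fun h => h)
  obtain ⟨v, hvT, hvD⟩ := hT T hTH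
  obtain ⟨w, hwT', hwv, hwD⟩ := Dv_partner hvD hTH hvT
  obtain ⟨u, huv, huw, he⟩ := exists_tri2 (hS.card T hTH) hvT hwT' hwv
  have l1 : LE H v w u := ⟨he ▸ hTH, hwv, huv, huw.symm⟩
  have hnD : ∀ {u}, LE H v w u → ¬ Dv H (R0 α) u := by
    intro u l h
    exact (page_other hS hvD hwD l (hSt u) (notPriv_of_Sh (Sh_of_Dv h))).1 h
  obtain ⟨u', l2, huu⟩ := pair_struct hS.card hvD l1 (hnD l1)
  -- the argument for a page which is in two triples
  have main : ∀ {u u'}, LE H v w u → LE H v w u' → u' ≠ u → ¬ Priv H (R0 α) u →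
    (∃ c : α → ℝ, ∃ b ∈ W, (∀ y, 0 ≤ c y) ∧ (∀ y ∈ W, LocOK W H c y) ∧ 0 < c b ∧ Sx W H c b) ∨
    (∃ x a b c y d e, LE H x a b ∧ LE H x a c ∧ LE H y d b ∧ LE H y d e ∧
      b ≠ c ∧ y ≠ x ∧ y ≠ a ∧ y ≠ c ∧ d ≠ x ∧ d ≠ a ∧ d ≠ c ∧ e ≠ x ∧ e ≠ a ∧ e ≠ b ∧ e ≠ c) := by
    intro u u' l1 l2 huu hup
    by_cases hup' : Priv H (R0 α) u'
    · right
      obtain ⟨huD, huE, y, z, l3, hyx, hya, hzx, hza, hall⟩ := page_other hS hvD hwD l1 (hSt u) hup
      obtain ⟨g1, g2⟩ := hasD_all huD l3.1 rfl (hT _ l3.1)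
      obtain ⟨e, le, heu⟩ := pair_struct hS.card g1 l3.rot3 huD
      have hvt : ∀ T ∈ H, v ∈ T → T = {v, w, u} ∨ T = {v, w, u'} := fun T hT hv =>
        two_of_notSt hvD.1 l1.1 l2.1 (by
          intro h
          have : u' ∈ ({v, w, u} : Finset α) := by rw [h]; simp
          simp only [mem_insert, mem_singleton] at this
          rcases this with h | h | h
          · exact l2.2.2.1 h
          · exact l2.2.2.2 h.symm
          · exact huu h) (by simp) (by simp) hT hv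
      have hwt : ∀ T ∈ H, w ∈ T → T = {v, w, u} ∨ T = {v, w, u'} := fun T hT hv =>
        two_of_notSt hwD.1 l1.1 l2.1 (by
          intro h
          have : u' ∈ ({v, w, u} : Finset α) := by rw [h]; simp
          simp only [mem_insert, mem_singleton] at this
          rcases this with h | h | h
          · exact l2.2.2.1 h
          · exact l2.2.2.2 h.symm
          · exact huu h) (by simp) (by simp) hT hv
      refine ⟨v, w, u, u', y, z, e, l1, l2, l3.rot3, le, huu.symm, hyx, hya, ?_, hzx, hza, ?_,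
        ?_, ?_, heu, ?_⟩
      · rintro rfl; exact hup'.2 (Sh_of_Dv g1)
      · rintro rfl; exact hup'.2 (Sh_of_Dv g2)
      · rintro rfl
        have h1 : w ∈ ({y, z, e} : Finset α) := by
          rcases hvt _ le.1 (by simp) with h | h <;> rw [h] <;> simp
        simp only [mem_insert, mem_singleton] at h1
        rcases h1 with h | h | h
        · exact hya h.symm
        · exact hza h.symm
        · exact hwv h
      · rintro rfl
        have h1 : v ∈ ({y, z, e} : Finset α) := by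
          rcases hwt _ le.1 (by simp) with h | h <;> rw [h] <;> simp
        simp only [mem_insert, mem_singleton] at h1
        rcases h1 with h | h | h
        · exact hyx h.symm
        · exact hzx h.symm
        · exact hwv h.symm
      · rintro rfl
        refine hup'.2 ⟨_, l2.1, _, le.1, ?_, by simp, by simp⟩
        intro h
        have h1 : v ∈ ({y, z, e} : Finset α) := by rw [← h]; simp
        simp only [mem_insert, mem_singleton] at h1
        rcases h1 with h | h | h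
        · exact hyx h.symm
        · exact hzx h.symm
        · exact l2.2.2.1 h.symm
    · left
      have h1 := wt5 hup (hnD l1) (hEv u)
      have h2 := wt5 hup' (hnD l2) (hEv u')
      obtain ⟨c, c0, c1, c2, c3⟩ := raise_case hS hvD hwD l1 l2 huu.symm (by linarith) (hSt u) hup
      exact ⟨c, u, mem_W_of_LE hS l1.rot2, c0, c1, c2, c3⟩
  by_cases hup : Priv H (R0 α) u
  · have hup' : ¬ Priv H (R0 α) u' := fun h =>
      hS.cyc v w u u' hwv.symm huu.symm l1.1 l2.1 hvD.1 hwD.1 hup h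
    rcases main l2 l1 huu.symm hup' with h | h
    · exact Or.inl h
    · exact Or.inr (Or.inr h)
  · rcases main l1 l2 huu hup with h | h
    · exact Or.inl h
    · exact Or.inr (Or.inr h)

end Pool.Agent.H61.FC
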