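import Pool.Agent.H61.PS4
import Pool.Agent.H61.PS5
import Pool.Agent.H61.Elim

set_option autoImplicit false
set_option linter.all false

/-!
# The exact number of triples which force a strictly frequent element or a free element
-/

namespace Pool.Agent.H61.PS

open Finset Pool.Agent.N188.FC Pool.Agent.H61.FC

variable {α : Type*} [DecidableEq α]

/-- the local inequality gives the isoperimetric hypothesis -/
theorem isoW_loc {S : Finset α} {G : Finset (Finset α)} {c c' : α → ℝ} {l : ℝ} {x : α}
    (hc0 : ∀ x, 0 ≤ c x) (h : LocOK S G c' x) (hl : l * c x ≤ c' x) (hne : ∀ y, y ≠ x → c' y = c y) :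
    IsoW S G c l x := by
  refine isoW_of hc0 (fun 𝒟 hDs hD hv => ?_)
  obtain ⟨Q, hQ, hQ3, hxQ, C, hCW, hC6, hxC, hloc⟩ := h
  have h1 := hloc 𝒟 hD (fun D hD' T hT hs => hv D hD' T (hQ hT) (hxQ T hT) (by
    rw [← insert_erase (hxQ T hT)]
    exact insert_subset_insert _ hs))
  have h2 := sum_leave hD (S.erase x) c
  have h3 : ∑ k ∈ C, c' k * dg 𝒟 k ≤ ∑ k ∈ S.erase x, c k * dg 𝒟 k := by
    rw [sum_congr rfl (fun k hk => by rw [hne k (fun h => hxC (h ▸ hk))])]
    refine sum_le_sum_of_subset_of_nonneg ?_ ?_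
    · intro e he
      exact mem_erase.2 ⟨fun h => hxC (h ▸ he), hCW he⟩
    · intro e _ _
      exact mul_nonneg (hc0 e) (dg_nonneg hD e)
  have h4 : l * c x * (𝒟.card : ℝ) ≤ c' x * 𝒟.card :=
    mul_le_mul_of_nonneg_right hl (Nat.cast_nonneg _)
  rw [← h2] at h3
  exact h4.trans (h1.trans h3)

/-- free element -/
def Free (F : Finset (Finset α)) (b : α) : Prop := ∀ A ∈ F, insert b A ∈ F ∧ A.erase b ∈ F

theorem free_of_single {F : Finset (Finset α)} (hF : ∀ A ∈ F, ∀ B ∈ F, A ∪ B ∈ F) {b : α}
    (hb : {b} ∈ F) (hno : 2 * (F.filter (fun A => b ∈ A)).card ≤ F.card) : Free F b := by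
  refine free_of_add (fun A hA => ?_) hno
  have := hF A hA _ hb
  rwa [union_comm, ← insert_eq] at this

theorem enc7_7 {β : Type*} [DecidableEq β] (e : Fin 7 → β) : enc e 7 = {e 0, e 1, e 2} := by
  have h : (univ.filter (fun i : Fin 7 => (7 : ℕ).testBit i = true)) = {0, 1, 2} := by
    decide +kernel
  unfold enc
  rw [h, image_insert, image_insert, image_singleton]

theorem enc7_11 {β : Type*} [DecidableEq β] (e : Fin 7 → β) : enc e 11 = {e 0, e 1, e 3} := by
  have h : (univ.filter (fun i : Fin 7 => (11 : ℕ).testBit i = true)) = {0, 1, 3} := by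
    decide +kernel
  unfold enc
  rw [h, image_insert, image_insert, image_singleton]

theorem enc7_52 {β : Type*} [DecidableEq β] (e : Fin 7 → β) : enc e 52 = {e 4, e 5, e 2} := by
  have h : (univ.filter (fun i : Fin 7 => (52 : ℕ).testBit i = true)) = {4, 5, 2} := by
    decide +kernel
  unfold enc
  rw [h, image_insert, image_insert, image_singleton]

theorem enc7_112 {β : Type*} [DecidableEq β] (e : Fin 7 → β) : enc e 112 = {e 4, e 5, e 6} := by
  have h : (univ.filter (fun i : Fin 7 => (112 : ℕ).testBit i = true)) = {4, 5, 6} := by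
    decide +kernel
  unfold enc
  rw [h, image_insert, image_insert, image_singleton]

theorem enc5_7 {β : Type*} [DecidableEq β] (e : Fin 5 → β) : enc e 7 = {e 0, e 1, e 2} := by
  have h : (univ.filter (fun i : Fin 5 => (7 : ℕ).testBit i = true)) = {0, 1, 2} := by
    decide +kernel
  unfold enc
  rw [h, image_insert, image_insert, image_singleton]

theorem enc5_11 {β : Type*} [DecidableEq β] (e : Fin 5 → β) : enc e 11 = {e 0, e 1, e 3} := by
  have h : (univ.filter (fun i : Fin 5 => (11 : ℕ).testBit i = true)) = {0, 1, 3} := by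
    decide +kernel
  unfold enc
  rw [h, image_insert, image_insert, image_singleton]

theorem enc5_19 {β : Type*} [DecidableEq β] (e : Fin 5 → β) : enc e 19 = {e 0, e 1, e 4} := by
  have h : (univ.filter (fun i : Fin 5 => (19 : ℕ).testBit i = true)) = {0, 1, 4} := by
    decide +kernel
  unfold enc
  rw [h, image_insert, image_insert, image_singleton]

/-- three triples which share two elements -/
theorem strict5 {F : Finset (Finset α)} (hF : ∀ A ∈ F, ∀ B ∈ F, A ∪ B ∈ F) {x a b d f : α}
    (hn : [x, a, b, d, f].Nodup) (h1 : {x, a, b} ∈ F) (h2 : {x, a, d} ∈ F) (h3 : {x, a, f} ∈ F)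
    (hs : ∀ y ∈ ({x, a, b, d, f} : Finset α), {y} ∉ F) :
    ∃ y ∈ ({x, a, b, d, f} : Finset α), F.card < 2 * (F.filter (fun A => y ∈ A)).card := by
  classical
  simp only [List.nodup_cons, List.mem_cons, List.not_mem_nil, or_false, not_or, List.nodup_nil,
    not_false_eq_true, and_true] at hn
  obtain ⟨⟨xa, xb, xd, xf⟩, ⟨ab, ad, af⟩, ⟨bd, bf⟩, df⟩ := hn
  have ax := Ne.symm xa
  have bx := Ne.symm xb
  have dx := Ne.symm xd
  have fx := Ne.symm xf
  have ba := Ne.symm ab
  have da := Ne.symm ad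
  have fa := Ne.symm af
  have db := Ne.symm bd
  have fb := Ne.symm bf
  have fd := Ne.symm df
  set e : Fin 5 → α := ![x, a, b, d, f] with he
  have hinj : Function.Injective e := by
    intro i j hij
    fin_cases i <;> fin_cases j <;> simp_all [e]
  have hS : ({x, a, b, d, f} : Finset α) = univ.image e := by
    ext t
    simp only [mem_insert, mem_singleton, mem_image, mem_univ, true_and]
    constructor
    · rintro (rfl | rfl | rfl | rfl | rfl)
      · exact ⟨0, rfl⟩
      · exact ⟨1, rfl⟩
      · exact ⟨2, rfl⟩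
      · exact ⟨3, rfl⟩
      · exact ⟨4, rfl⟩
    · rintro ⟨i, rfl⟩
      fin_cases i <;> simp [e]
  set c : α → ℝ := fun v => if v = x ∨ v = a then 3 else 2 with hc
  have c0 : ∀ v, 0 ≤ c v := by
    intro v
    simp only [hc]
    split_ifs <;> norm_num
  have cx : c x = 3 := by simp [hc]
  have ca : c a = 3 := by simp [hc]
  have cb : c b = 2 := by simp [hc, bx, ba]
  have cd : c d = 2 := by simp [hc, dx, da]
  have cf : c f = 2 := by simp [hc, fx, fa]
  have hcc : ∀ i, c (e i) = (c5 i : ℝ) := by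
    intro i
    fin_cases i
    · exact cx.trans (by simp [c5])
    · exact ca.trans (by simp [c5])
    · exact cb.trans (by simp [c5])
    · exact cd.trans (by simp [c5])
    · exact cf.trans (by simp [c5])
  rw [hS] at hs ⊢
  have hpos := pos5 hF hinj hcc (by rw [enc5_7]; exact h1) (by rw [enc5_11]; exact h2)
    (by rw [enc5_19]; exact h3) (fun i => hs _ (mem_image_of_mem _ (mem_univ i)))
  rw [← hS] at hpos ⊢
  set G : Finset (Finset α) := {{x, a, b}, {x, a, d}, {x, a, f}} with hG
  have hGF : G ⊆ F := by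
    intro T hT
    simp only [hG, mem_insert, mem_singleton] at hT
    rcases hT with rfl | rfl | rfl <;> assumption
  have hGS : ∀ B ∈ G, B ⊆ ({x, a, b, d, f} : Finset α) := by
    intro T hT t ht
    simp only [hG, mem_insert, mem_singleton] at hT
    rcases hT with rfl | rfl | rfl <;>
    · simp only [mem_insert, mem_singleton] at ht ⊢
      tauto
  have g1 : ({x, a, b} : Finset α) ∈ G := by simp [hG]
  have g2 : ({x, a, d} : Finset α) ∈ G := by simp [hG]
  have g3 : ({x, a, f} : Finset α) ∈ G := by simp [hG]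
  have hloc : ∀ w ∈ ({x, a, b, d, f} : Finset α), LocOK {x, a, b, d, f} G c w := by
    intro w hw
    simp only [mem_insert, mem_singleton] at hw
    rcases hw with rfl | rfl | rfl | rfl | rfl
    · exact locOKstar3 hGS g1 g2 g3 ax bx dx fx ab ad af bd bf df cx.le ca.ge cb.ge cd.ge cf.ge
    · exact locOKstar3 hGS (by rw [tri_rot]; exact g1) (by rw [tri_rot]; exact g2)
        (by rw [tri_rot]; exact g3) xa ba da fa xb xd xf bd bf df ca.le cx.ge cb.ge cd.ge cf.ge
    · refine locOK1 hGS (y := x) (z := a) ?_ xb ab xa ?_ ?_ ?_ ?_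
      · rw [tri_rot, tri_swap x w a]; exact g1
      all_goals rw [cb]
      all_goals first | rw [cx] | skip
      all_goals first | rw [ca] | skip
      all_goals norm_num
    · refine locOK1 hGS (y := x) (z := a) ?_ xd ad xa ?_ ?_ ?_ ?_
      · rw [tri_rot, tri_swap x w a]; exact g2
      all_goals rw [cd]
      all_goals first | rw [cx] | skip
      all_goals first | rw [ca] | skip
      all_goals norm_num
    · refine locOK1 hGS (y := x) (z := a) ?_ xf af xa ?_ ?_ ?_ ?_
      · rw [tri_rot, tri_swap x w a]; exact g3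
      all_goals rw [cf]
      all_goals first | rw [cx] | skip
      all_goals first | rw [ca] | skip
      all_goals norm_num
  have hiso : ∀ w ∈ ({x, a, b, d, f} : Finset α), IsoW {x, a, b, d, f} G c 1 w := fun w hw =>
    isoW_loc c0 (hloc w hw) (by rw [one_mul]) (fun _ _ => rfl)
  refine strict_of_zero (b := x) hF hGS hGF c0 hiso (by simp) ?_
  convert hpos

/-- two pairs of triples with a common element -/
theorem strict7 {F : Finset (Finset α)} (hF : ∀ A ∈ F, ∀ B ∈ F, A ∪ B ∈ F) {x a b g y d f : α}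
    (hn : [x, a, b, g, y, d, f].Nodup) (h1 : {x, a, b} ∈ F) (h2 : {x, a, g} ∈ F)
    (h3 : {y, d, b} ∈ F) (h4 : {y, d, f} ∈ F)
    (hs : ∀ t ∈ ({x, a, b, g, y, d, f} : Finset α), {t} ∉ F) :
    ∃ t ∈ ({x, a, b, g, y, d, f} : Finset α), F.card < 2 * (F.filter (fun A => t ∈ A)).card := by
  classical
  simp only [List.nodup_cons, List.mem_cons, List.not_mem_nil, or_false, not_or, List.nodup_nil,
    not_false_eq_true, and_true] at hn
  obtain ⟨⟨xa, xb, xg, xy, xd, xf⟩, ⟨ab, ag, ay, ad, af⟩, ⟨bg, byy, bd, bf⟩, ⟨gy, gd, gf⟩,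
    ⟨yd, yf⟩, df⟩ := hn
  have ax := Ne.symm xa
  have bx := Ne.symm xb
  have gx := Ne.symm xg
  have yx := Ne.symm xy
  have dx := Ne.symm xd
  have fx := Ne.symm xf
  have ba := Ne.symm ab
  have ga := Ne.symm ag
  have ya := Ne.symm ay
  have da := Ne.symm ad
  have fa := Ne.symm af
  have gb := Ne.symm bg
  have yb := Ne.symm byy
  have db := Ne.symm bd
  have fb := Ne.symm bf
  have yg := Ne.symm gy
  have dg := Ne.symm gd
  have fg := Ne.symm gf
  have dy := Ne.symm yd
  have fy := Ne.symm yf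
  have fd := Ne.symm df
  set e : Fin 7 → α := ![x, a, b, g, y, d, f] with he
  have hinj : Function.Injective e := by
    have hnd : [x, a, b, g, y, d, f].Nodup := by
      simp only [List.nodup_cons, List.mem_cons, List.not_mem_nil, or_false, not_or,
        List.nodup_nil, not_false_eq_true, and_true]
      exact ⟨⟨xa, xb, xg, xy, xd, xf⟩, ⟨ab, ag, ay, ad, af⟩, ⟨bg, byy, bd, bf⟩, ⟨gy, gd, gf⟩,
        ⟨yd, yf⟩, df⟩
    have h := List.nodup_iff_injective_get.1 hnd
    intro i j hij
    have h' : [x, a, b, g, y, d, f].get i = [x, a, b, g, y, d, f].get j := by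
      fin_cases i <;> fin_cases j <;> exact hij
    exact h h'
  have hS : ({x, a, b, g, y, d, f} : Finset α) = univ.image e := by
    ext t
    simp only [mem_insert, mem_singleton, mem_image, mem_univ, true_and]
    constructor
    · rintro (rfl | rfl | rfl | rfl | rfl | rfl | rfl)
      · exact ⟨0, rfl⟩
      · exact ⟨1, rfl⟩
      · exact ⟨2, rfl⟩
      · exact ⟨3, rfl⟩
      · exact ⟨4, rfl⟩
      · exact ⟨5, rfl⟩
      · exact ⟨6, rfl⟩
    · rintro ⟨i, rfl⟩
      fin_cases i <;> simp [e]
  set c : α → ℝ := fun v => if v = b then 4 else if v = g ∨ v = f then 2 else 3 with hc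
  have c0 : ∀ v, 0 ≤ c v := by
    intro v
    simp only [hc]
    split_ifs <;> norm_num
  have cx : c x = 3 := by simp [hc, xb, xg, xf]
  have ca : c a = 3 := by simp [hc, ab, ag, af]
  have cb : c b = 4 := by simp [hc]
  have cg : c g = 2 := by simp [hc, gb]
  have cy : c y = 3 := by simp [hc, yb, yg, yf]
  have cd : c d = 3 := by simp [hc, db, dg, df]
  have cf : c f = 2 := by simp [hc, fb]
  have hcc : ∀ i, c (e i) = (c7 i : ℝ) := by
    intro i
    fin_cases i
    · exact cx.trans (by simp [c7])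
    · exact ca.trans (by simp [c7])
    · exact cb.trans (by simp [c7])
    · exact cg.trans (by simp [c7])
    · exact cy.trans (by simp [c7])
    · exact cd.trans (by simp [c7])
    · exact cf.trans (by simp [c7])
  rw [hS] at hs ⊢
  have hpos := pos7 hF hinj hcc (by rw [enc7_7]; exact h1) (by rw [enc7_11]; exact h2)
    (by rw [enc7_52]; exact h3) (by rw [enc7_112]; exact h4)
    (fun i => hs _ (mem_image_of_mem _ (mem_univ i)))
  rw [← hS] at hpos ⊢
  set G : Finset (Finset α) := {{x, a, b}, {x, a, g}, {y, d, b}, {y, d, f}} with hG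
  have hGF : G ⊆ F := by
    intro T hT
    simp only [hG, mem_insert, mem_singleton] at hT
    rcases hT with rfl | rfl | rfl | rfl <;> assumption
  have hGS : ∀ B ∈ G, B ⊆ ({x, a, b, g, y, d, f} : Finset α) := by
    intro T hT t ht
    simp only [hG, mem_insert, mem_singleton] at hT
    rcases hT with rfl | rfl | rfl | rfl <;>
    · simp only [mem_insert, mem_singleton] at ht ⊢
      tauto
  have g1 : ({x, a, b} : Finset α) ∈ G := by simp [hG]
  have g2 : ({x, a, g} : Finset α) ∈ G := by simp [hG]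
  have g3 : ({y, d, b} : Finset α) ∈ G := by simp [hG]
  have g4 : ({y, d, f} : Finset α) ∈ G := by simp [hG]
  have hloc : ∀ w ∈ ({x, a, b, g, y, d, f} : Finset α), LocOK {x, a, b, g, y, d, f} G c w := by
    intro w hw
    simp only [mem_insert, mem_singleton] at hw
    rcases hw with rfl | rfl | rfl | rfl | rfl | rfl | rfl
    · refine locOKstar hGS g1 g2 ax bx gx ab ag bg ?_ ?_ ?_ ?_ ?_ ?_ ?_ ?_ ?_ <;>
      · simp only [cx, ca, cb, cg]
        try norm_num
    · refine locOKstar hGS (a := x) (b := b) (d := g) (by rw [tri_rot]; exact g1)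
        (by rw [tri_rot]; exact g2) xa ba ga xb xg bg ?_ ?_ ?_ ?_ ?_ ?_ ?_ ?_ ?_ <;>
      · simp only [cx, ca, cb, cg]
        try norm_num
    · refine locOK2 hGS (y := x) (z := a) (y' := y) (z' := d) ?_ ?_ xb ab xa yb db yd xy xd ay ad
        (r := 2) (r' := 2) ?_ ?_ ?_ (by norm_num) ?_ ?_ ?_ (by norm_num) ?_
      · rw [tri_rot, tri_swap x w a]; exact g1
      · rw [tri_rot, tri_swap y w d]; exact g3
      all_goals simp only [cx, ca, cb, cy, cd]
      all_goals try norm_num
    · refine locOK1 hGS (y := x) (z := a) ?_ xg ag xa ?_ ?_ ?_ ?_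
      · rw [tri_rot, tri_swap x w a]; exact g2
      all_goals simp only [cx, ca, cg]
      all_goals try norm_num
    · refine locOKstar hGS (a := d) (b := b) (d := f) g3 g4 dy byy fy db df bf
        ?_ ?_ ?_ ?_ ?_ ?_ ?_ ?_ ?_ <;>
      · simp only [cy, cd, cb, cf]
        try norm_num
    · refine locOKstar hGS (a := y) (b := b) (d := f) (by rw [tri_rot]; exact g3)
        (by rw [tri_rot]; exact g4) yd bd fd yb yf bf ?_ ?_ ?_ ?_ ?_ ?_ ?_ ?_ ?_ <;>
      · simp only [cy, cd, cb, cf]
        try norm_num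
    · refine locOK1 hGS (y := y) (z := d) ?_ yf df yd ?_ ?_ ?_ ?_
      · rw [tri_rot, tri_swap y w d]; exact g4
      all_goals simp only [cy, cd, cf]
      all_goals try norm_num
  have hiso : ∀ w ∈ ({x, a, b, g, y, d, f} : Finset α), IsoW {x, a, b, g, y, d, f} G c 1 w :=
    fun w hw => isoW_loc c0 (hloc w hw) (by rw [one_mul]) (fun _ _ => rfl)
  refine strict_of_zero (b := x) hF hGS hGF c0 hiso (by simp) ?_
  convert hpos

/-- no removable parts: some element is free, if no element is in more than half of the members -/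
theorem stuck_strict3 {F G : Finset (Finset α)} {W : Finset α}
    (hF : ∀ A ∈ F, ∀ B ∈ F, A ∪ B ∈ F) (hGF : G ⊆ F) (hW : W.Nonempty)
    (hS : Stuck W G (R0 α)) (hno : ∀ x ∈ W, 2 * (F.filter (fun A => x ∈ A)).card ≤ F.card) :
    ∃ b ∈ W, Free F b := by
  classical
  rcases stuck_cases hS hW with ⟨c, b, hb, c0, hloc, hcb, v, hv, hv'⟩ |
    ⟨x, a, b, d, f, l1, l2, l3, bd, bf, df⟩ |
    ⟨x, a, b, g, y, d, f, l1, l2, l3, l4, bg, yx, ya, yg, dx, da, dg, fx, fa, fb, fg⟩
  · refine ⟨b, hb, ?_⟩
    have hcb' : c b ≠ 0 := hcb.ne'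
    have hl1 : 1 < v / c b := by rw [lt_div_iff₀ hcb]; linarith
    refine strict_or_free (G := G) (S := W) (c := c) (l := fun x => if x = b then v / c b else 1)
      hF hS.sub hGF c0 ?_ ?_ ?_ hb ?_ hcb ?_
    · intro x
      show (0 : ℝ) ≤ if x = b then v / c b else 1
      split_ifs <;> linarith
    · intro x _
      show (1 : ℝ) ≤ if x = b then v / c b else 1
      split_ifs <;> linarith
    · intro w hw
      show IsoW W G c (if w = b then v / c b else 1) w
      by_cases h : w = b
      · subst h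
        rw [if_pos rfl]
        refine isoW_loc c0 hv' ?_ (fun y hy => upd_ne hy)
        rw [upd_self, div_mul_cancel₀ _ hcb']
      · rw [if_neg h]
        exact isoW_loc c0 (hloc w hw) (by rw [one_mul]) (fun _ _ => rfl)
    · show 1 < if b = b then v / c b else 1
      rw [if_pos rfl]
      exact hl1
    · intro x hx
      convert hno x hx
  · have hsub : ({x, a, b, d, f} : Finset α) ⊆ W := by
      have e1 := hS.sub _ l1.1
      have e2 := hS.sub _ l2.1
      have e3 := hS.sub _ l3.1
      simp only [insert_subset_iff, singleton_subset_iff] at e1 e2 e3 ⊢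
      tauto
    by_cases hs : ∀ y ∈ ({x, a, b, d, f} : Finset α), {y} ∉ F
    · obtain ⟨y, hy, hy'⟩ := strict5 hF (x := x) (a := a) (b := b) (d := d) (f := f) (by
        simp only [List.nodup_cons, List.mem_cons, List.not_mem_nil, or_false, not_or,
          List.nodup_nil, not_false_eq_true, and_true]
        exact ⟨⟨l1.2.1.symm, l1.2.2.1.symm, l2.2.2.1.symm, l3.2.2.1.symm⟩,
          ⟨l1.2.2.2, l2.2.2.2, l3.2.2.2⟩, ⟨bd, bf⟩, df⟩) (hGF l1.1) (hGF l2.1) (hGF l3.1) hs
      have := hno y (hsub hy)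
      omega
    · push Not at hs
      obtain ⟨y, hy, hyF⟩ := hs
      exact ⟨y, hsub hy, free_of_single hF hyF (hno y (hsub hy))⟩
  · have hsub : ({x, a, b, g, y, d, f} : Finset α) ⊆ W := by
      have e1 := hS.sub _ l1.1
      have e2 := hS.sub _ l2.1
      have e3 := hS.sub _ l3.1
      have e4 := hS.sub _ l4.1
      simp only [insert_subset_iff, singleton_subset_iff] at e1 e2 e3 e4 ⊢
      tauto
    by_cases hs : ∀ t ∈ ({x, a, b, g, y, d, f} : Finset α), {t} ∉ F
    · obtain ⟨t, ht, ht'⟩ := strict7 hF (x := x) (a := a) (b := b) (g := g) (y := y) (d := d)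
        (f := f) (by
        simp only [List.nodup_cons, List.mem_cons, List.not_mem_nil, or_false, not_or,
          List.nodup_nil, not_false_eq_true, and_true]
        exact ⟨⟨l1.2.1.symm, l1.2.2.1.symm, l2.2.2.1.symm, yx.symm, dx.symm, fx.symm⟩,
          ⟨l1.2.2.2, l2.2.2.2, ya.symm, da.symm, fa.symm⟩,
          ⟨bg, l3.2.2.1, l3.2.2.2.symm, fb.symm⟩, ⟨yg.symm, dg.symm, fg.symm⟩,
          ⟨l3.2.1.symm, l4.2.2.1.symm⟩, l4.2.2.2⟩) (hGF l1.1) (hGF l2.1) (hGF l3.1) (hGF l4.1) hs
      have := hno t (hsub ht)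
      omega
    · push Not at hs
      obtain ⟨t, ht, htF⟩ := hs
      exact ⟨t, hsub ht, free_of_single hF htF (hno t (hsub ht))⟩

/-- the threshold -/
theorem upper3_strict {G : Finset (Finset α)} (hG : ∀ B ∈ G, B.card = 3) {F : Finset (Finset α)}
    (hF : ∀ A ∈ F, ∀ B ∈ F, A ∪ B ∈ F) (hGF : G ⊆ F) (m : ℕ) :
    ∀ W : Finset α, W.card = m →
      (∀ x ∈ W, 2 * (F.filter (fun A => x ∈ A)).card ≤ F.card) → (∀ b ∈ W, ¬ Free F b) →
      2 * ins G W ≤ W.card := by
  induction m using Nat.strong_induction_on with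
  | _ m ih =>
  intro W hWm hno hfr
  rcases W.eq_empty_or_nonempty with rfl | hne
  · have : ins G ∅ = 0 := by
      unfold ins
      rw [card_eq_zero, filter_eq_empty_iff]
      intro B hB hs
      rw [subset_empty] at hs
      have := hG B hB
      rw [hs, card_empty] at this
      omega
    rw [this]; simp
  set H := G.filter (fun B => B ⊆ W) with hH
  have hstuck : ¬ Stuck W H (fun _ => False) := by
    intro hS
    obtain ⟨x, hx, h⟩ := stuck_strict3 hF ((filter_subset _ _).trans hGF) hne hS hno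
    exact hfr x hx h
  obtain ⟨S, hSW, 𝓣, h𝓣, hR, hST, hcard⟩ := not_stuck (fun T hT => (mem_filter.1 hT).2)
    (fun T hT => hG T (mem_filter.1 hT).1) hstuck
  have h1 : ins G W ≤ ins G (W \ S) + 𝓣.card := by
    have h2 : H ⊆ G.filter (fun B => B ⊆ W \ S) ∪ 𝓣 := by
      intro B hB
      have hB' := mem_filter.1 hB
      by_cases h : ∃ s ∈ S, s ∈ B
      · obtain ⟨s, hs, hsB⟩ := h
        exact mem_union_right _ (hST s hs B hB hsB)
      · push Not at h
        refine mem_union_left _ (mem_filter.2 ⟨hB'.1, ?_⟩)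
        intro t ht
        exact mem_sdiff.2 ⟨hB'.2 ht, fun hs => h t hs ht⟩
    exact (card_le_card h2).trans (card_union_le _ _)
  have hSc : S.card ≤ W.card := card_le_card hSW
  have hc : (W \ S).card = W.card - S.card := card_sdiff_of_subset hSW
  have hpos : 0 < W.card := hne.card_pos
  have hlt : (W \ S).card < m := by
    rw [hc]
    rcases hcard with h | h | h <;> omega
  have h2 := ih _ hlt (W \ S) rfl (fun x hx => hno x (sdiff_subset hx))
    (fun x hx => hfr x (sdiff_subset hx))
  rw [hc] at h2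
  rcases hcard with h | h | h <;> omega

end Pool.Agent.H61.PS
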