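import Pool.Agent.H61.Local

set_option autoImplicit false
set_option linter.all false

/-!
# Weights for a family of triples without removable parts
-/

namespace Pool.Agent.H61.FC

open Finset

variable {α : Type*} [DecidableEq α]

theorem edge_loc {𝒟 : Finset (Finset α)} (h : Dn 𝒟) {a b : α} (hab : a ≠ b)
    (eab : ∀ D ∈ 𝒟, ¬ (a ∈ D ∧ b ∈ D)) {ca cb r : ℝ} (h1 : r ≤ ca) (h2 : r ≤ cb)
    (h3 : 3 * r ≤ ca + cb) (h0 : 0 ≤ r) :
    r * (𝒟.card : ℝ) ≤ ca * dg 𝒟 a + cb * dg 𝒟 b := by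
  have hs := q2_sumP 𝒟 a b (fun _ => True)
  have hs0 := q2_sumP 𝒟 a b (fun x => x.1 = true)
  have hs1 := q2_sumP 𝒟 a b (fun x => x.2 = true)
  simp only [Fintype.sum_prod_type, Fintype.sum_bool, filter_true, decide_eq_true_eq, if_true,
    if_false, Bool.false_eq_true, reduceIte, add_zero, zero_add] at hs hs0 hs1
  have z11 : q2 𝒟 a b (true, true) = 0 := q2_zero (fun D hD hh => by
    simp only [Prod.mk.injEq, decide_eq_true_eq] at hh
    exact eab D hD (by tauto))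
  have m10 := q2_mono1 h hab false
  have m01 := q2_mono2 h hab false
  simp only [z11, add_zero, zero_add] at hs hs0 hs1
  unfold dg
  rw [hs, hs0, hs1]
  push_cast
  have n1 : (q2 𝒟 a b (true, false) : ℝ) ≤ q2 𝒟 a b (false, false) := by exact_mod_cast m10
  have n2 : (q2 𝒟 a b (false, true) : ℝ) ≤ q2 𝒟 a b (false, false) := by exact_mod_cast m01
  have n3 : (0 : ℝ) ≤ q2 𝒟 a b (true, false) := Nat.cast_nonneg _
  have n4 : (0 : ℝ) ≤ q2 𝒟 a b (false, true) := Nat.cast_nonneg _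
  generalize (q2 𝒟 a b (true, false) : ℝ) = p at *
  generalize (q2 𝒟 a b (false, true) : ℝ) = q at *
  generalize (q2 𝒟 a b (false, false) : ℝ) = n at *
  rcases le_total p q with hpq | hpq
  · have e1 : 0 ≤ (n - q) * (ca + cb - r) := mul_nonneg (by linarith) (by linarith)
    have e2 : 0 ≤ (q - p) * (ca - r) := mul_nonneg (by linarith) (by linarith)
    have e3 : 0 ≤ p * (ca + cb - 3 * r) := mul_nonneg (by linarith) (by linarith)
    nlinarith
  · have e1 : 0 ≤ (n - p) * (ca + cb - r) := mul_nonneg (by linarith) (by linarith)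
    have e2 : 0 ≤ (p - q) * (cb - r) := mul_nonneg (by linarith) (by linarith)
    have e3 : 0 ≤ q * (ca + cb - 3 * r) := mul_nonneg (by linarith) (by linarith)
    nlinarith

section defs

variable (H : Finset (Finset α)) (R : α → Prop)

/-- in two triples -/
def Sh (v : α) : Prop := ∃ T ∈ H, ∃ T' ∈ H, T ≠ T' ∧ v ∈ T ∧ v ∈ T'

/-- a root, or in three triples -/
def St (v : α) : Prop := R v ∨ ∃ T₁ ∈ H, ∃ T₂ ∈ H, ∃ T₃ ∈ H, T₁ ≠ T₂ ∧ T₁ ≠ T₃ ∧ T₂ ≠ T₃ ∧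
  v ∈ T₁ ∧ v ∈ T₂ ∧ v ∈ T₃

/-- in exactly two triples which share another such element -/
def Dv (v : α) : Prop := ¬ St H R v ∧ ∃ T ∈ H, ∃ T' ∈ H, T ≠ T' ∧ v ∈ T ∧ v ∈ T' ∧
  ∃ w, w ≠ v ∧ w ∈ T ∧ w ∈ T' ∧ ¬ St H R w

/-- in exactly two triples which share a strong element -/
def Ev (v : α) : Prop := ¬ St H R v ∧ ∃ T ∈ H, ∃ T' ∈ H, T ≠ T' ∧ v ∈ T ∧ v ∈ T' ∧
  ∃ w, w ≠ v ∧ w ∈ T ∧ w ∈ T' ∧ St H R w

def HasD (T : Finset α) : Prop := ∃ v ∈ T, Dv H R v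

def HasE (T : Finset α) : Prop := ∃ v ∈ T, Ev H R v

/-- not a root and in at most one triple -/
def Priv (v : α) : Prop := ¬ R v ∧ ¬ Sh H v

open scoped Classical in
/-- the weights -/
noncomputable def wt (v : α) : ℝ :=
  if St H R v then 3 else if Dv H R v then 2 else if Ev H R v then 12 / 5 else
  if Sh H v then (if ∀ T ∈ H, v ∈ T → HasD H R T then 8 / 3 else 3) else
  if ∃ T ∈ H, v ∈ T ∧ HasD H R T then 4 / 3 else
  if ∃ T ∈ H, v ∈ T ∧ HasE H R T then 9 / 5 else 2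

end defs

variable {H : Finset (Finset α)} {R : α → Prop}

theorem exists_tri {T : Finset α} {x : α} (hT : T.card = 3) (hx : x ∈ T) :
    ∃ y z, y ≠ x ∧ z ≠ x ∧ y ≠ z ∧ T = {x, y, z} := by
  have h1 : (T.erase x).card = 2 := by rw [card_erase_of_mem hx, hT]
  obtain ⟨y, z, hyz, he⟩ := card_eq_two.1 h1
  have hy : y ∈ T.erase x := by rw [he]; simp
  have hz : z ∈ T.erase x := by rw [he]; simp
  refine ⟨y, z, (mem_erase.1 hy).1, (mem_erase.1 hz).1, hyz, ?_⟩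
  rw [← insert_erase hx, he]

theorem exists_tri2 {T : Finset α} {x w : α} (hT : T.card = 3) (hx : x ∈ T) (hw : w ∈ T)
    (hxw : w ≠ x) : ∃ u, u ≠ x ∧ u ≠ w ∧ T = {x, w, u} := by
  obtain ⟨y, z, hy, hz, hyz, rfl⟩ := exists_tri hT hx
  simp only [mem_insert, mem_singleton] at hw
  rcases hw with h | h | h
  · exact absurd h hxw
  · subst h
    exact ⟨z, hz, hyz.symm, rfl⟩
  · subst h
    refine ⟨y, hy, hyz, ?_⟩
    ext t; simp only [mem_insert, mem_singleton]; tauto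

theorem two_of_notSt {v : α} (hv : ¬ St H R v) {T₁ T₂ T : Finset α} (h1 : T₁ ∈ H) (h2 : T₂ ∈ H)
    (h12 : T₁ ≠ T₂) (v1 : v ∈ T₁) (v2 : v ∈ T₂) (h : T ∈ H) (vT : v ∈ T) : T = T₁ ∨ T = T₂ := by
  by_contra hno
  push Not at hno
  exact hv (Or.inr ⟨T₁, h1, T₂, h2, T, h, h12, hno.1.symm, hno.2.symm, v1, v2, vT⟩)

theorem Dv_partner {v : α} (hv : Dv H R v) {T : Finset α} (h : T ∈ H) (vT : v ∈ T) :
    ∃ w ∈ T, w ≠ v ∧ Dv H R w := by
  obtain ⟨hs, T₁, h1, T₂, h2, h12, v1, v2, w, hwv, w1, w2, hw⟩ := hv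
  have hD : Dv H R w := ⟨hw, T₁, h1, T₂, h2, h12, w1, w2, v, hwv.symm, v1, v2, hs⟩
  rcases two_of_notSt hs h1 h2 h12 v1 v2 h vT with rfl | rfl
  · exact ⟨w, w1, hwv, hD⟩
  · exact ⟨w, w2, hwv, hD⟩

theorem Ev_partner {v : α} (hv : Ev H R v) {T : Finset α} (h : T ∈ H) (vT : v ∈ T) :
    ∃ w ∈ T, w ≠ v ∧ St H R w := by
  obtain ⟨hs, T₁, h1, T₂, h2, h12, v1, v2, w, hwv, w1, w2, hw⟩ := hv
  rcases two_of_notSt hs h1 h2 h12 v1 v2 h vT with rfl | rfl
  · exact ⟨w, w1, hwv, hw⟩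
  · exact ⟨w, w2, hwv, hw⟩

theorem Sh_of_Dv {v : α} (hv : Dv H R v) : Sh H v := by
  obtain ⟨hs, T₁, h1, T₂, h2, h12, v1, v2, _⟩ := hv
  exact ⟨T₁, h1, T₂, h2, h12, v1, v2⟩

theorem Sh_of_Ev {v : α} (hv : Ev H R v) : Sh H v := by
  obtain ⟨hs, T₁, h1, T₂, h2, h12, v1, v2, _⟩ := hv
  exact ⟨T₁, h1, T₂, h2, h12, v1, v2⟩

theorem notPriv_of_Sh {v : α} (hv : Sh H v) : ¬ Priv H R v := fun h => h.2 hv

theorem notPriv_of_St {v : α} (hv : St H R v) : ¬ Priv H R v := by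
  rintro ⟨h1, h2⟩
  rcases hv with h | ⟨T₁, h1, T₂, h2', T₃, h3, h12, _, _, v1, v2, _⟩
  · exact h1 h
  · exact h2 ⟨T₁, h1, T₂, h2', h12, v1, v2⟩

theorem Sh_or_St {v : α} (hv : ¬ Priv H R v) : St H R v ∨ Sh H v := by
  unfold Priv at hv
  by_cases h : R v
  · exact Or.inl (Or.inl h)
  · right
    by_contra h2
    exact hv ⟨h, h2⟩

theorem hasD_all {x : α} (hx : ¬ Dv H R x) {T : Finset α} (hT : T ∈ H) {y z : α} (hTe : T = {x, y, z})
    (hD : HasD H R T) : Dv H R y ∧ Dv H R z := by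
  obtain ⟨v, hv, hvD⟩ := hD
  obtain ⟨w, hw, hwv, hwD⟩ := Dv_partner hvD hT hv
  rw [hTe] at hv hw
  simp only [mem_insert, mem_singleton] at hv hw
  rcases hv with rfl | rfl | rfl
  · exact absurd hvD hx
  · rcases hw with rfl | rfl | rfl
    · exact absurd hwD hx
    · exact absurd rfl hwv
    · exact ⟨hvD, hwD⟩
  · rcases hw with rfl | rfl | rfl
    · exact absurd hwD hx
    · exact ⟨hwD, hvD⟩
    · exact absurd rfl hwv

/-! ### values of the weights -/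

theorem wt_low (v : α) : 4 / 3 ≤ wt H R v := by
  unfold wt
  split_ifs <;> norm_num

theorem wt_high (v : α) : wt H R v ≤ 3 := by
  unfold wt
  split_ifs <;> norm_num

theorem wt_St {v : α} (hv : St H R v) : wt H R v = 3 := by
  unfold wt
  rw [if_pos hv]

theorem wt_Dv {v : α} (hv : Dv H R v) : wt H R v = 2 := by
  unfold wt
  rw [if_neg hv.1, if_pos hv]

theorem wt_Ev {v : α} (hv : Ev H R v) (hD : ¬ Dv H R v) : wt H R v = 12 / 5 := by
  unfold wt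
  rw [if_neg hv.1, if_neg hD, if_pos hv]

theorem wt3 {v : α} (hv : ¬ Priv H R v) : 2 ≤ wt H R v := by
  unfold wt
  rcases Sh_or_St hv with h | h
  · rw [if_pos h]; norm_num
  · split_ifs <;> norm_num

theorem wt4 {v : α} (hv : ¬ Priv H R v) (hD : ¬ Dv H R v) : 12 / 5 ≤ wt H R v := by
  unfold wt
  rcases Sh_or_St hv with h | h
  · rw [if_pos h]; norm_num
  · rw [if_neg hD]
    split_ifs <;> norm_num

theorem wt5 {v : α} (hv : ¬ Priv H R v) (hD : ¬ Dv H R v) (hE : ¬ Ev H R v) :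
    8 / 3 ≤ wt H R v := by
  unfold wt
  rcases Sh_or_St hv with h | h
  · rw [if_pos h]; norm_num
  · rw [if_neg hD, if_neg hE, if_pos h]
    split_ifs <;> norm_num

theorem wt6 {v : α} (hv : ¬ Priv H R v) (hE : ¬ Ev H R v) {T : Finset α} (hT : T ∈ H)
    (hvT : v ∈ T) (hD : ¬ HasD H R T) : wt H R v = 3 := by
  have hD' : ¬ Dv H R v := fun h => hD ⟨v, hvT, h⟩
  unfold wt
  rcases Sh_or_St hv with h | h
  · rw [if_pos h]
  · rw [if_neg hD', if_neg hE, if_pos h]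
    split_ifs with h1 h2
    · rfl
    · exact absurd (h2 T hT hvT) hD
    · rfl

theorem wt7 {v : α} {T : Finset α} (hT : T ∈ H) (hvT : v ∈ T) (hD : ¬ HasD H R T) :
    9 / 5 ≤ wt H R v := by
  by_cases hp : Priv H R v
  · unfold wt
    have h1 : ¬ ∃ T ∈ H, v ∈ T ∧ HasD H R T := by
      rintro ⟨T', hT', hv', hD'⟩
      by_cases he : T = T'
      · subst he; exact hD hD'
      · exact hp.2 ⟨T, hT, T', hT', he, hvT, hv'⟩
    rw [if_neg h1]
    split_ifs <;> norm_num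
  · have hD' : ¬ Dv H R v := fun h => hD ⟨v, hvT, h⟩
    have := wt4 hp hD'
    linarith

theorem wt8 {v : α} {T : Finset α} (hT : T ∈ H) (hvT : v ∈ T) (hD : ¬ HasD H R T)
    (hE : ¬ HasE H R T) : 2 ≤ wt H R v := by
  by_cases hp : Priv H R v
  · unfold wt
    have h1 : ¬ ∃ T ∈ H, v ∈ T ∧ HasD H R T := by
      rintro ⟨T', hT', hv', hD'⟩
      by_cases he : T = T'
      · subst he; exact hD hD'
      · exact hp.2 ⟨T, hT, T', hT', he, hvT, hv'⟩
    have h2 : ¬ ∃ T ∈ H, v ∈ T ∧ HasE H R T := by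
      rintro ⟨T', hT', hv', hD'⟩
      by_cases he : T = T'
      · subst he; exact hE hD'
      · exact hp.2 ⟨T, hT, T', hT', he, hvT, hv'⟩
    rw [if_neg h1, if_neg h2]
    split_ifs <;> norm_num
  · exact wt3 hp

/-- the weights at a private element -/
theorem wt_priv {v : α} (hp : Priv H R v) {T : Finset α} (hT : T ∈ H) (hvT : v ∈ T) :
    (HasD H R T → wt H R v = 4 / 3) ∧ (¬ HasD H R T → HasE H R T → wt H R v = 9 / 5) ∧
    (wt H R v ≤ 2) := by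
  have h1 : ¬ St H R v := fun h => notPriv_of_St h hp
  have h2 : ¬ Dv H R v := fun h => hp.2 (Sh_of_Dv h)
  have h3 : ¬ Ev H R v := fun h => hp.2 (Sh_of_Ev h)
  have h4 : ∀ T' ∈ H, v ∈ T' → T' = T := by
    intro T' hT' hv'
    by_contra he
    exact hp.2 ⟨T, hT, T', hT', fun h => he h.symm, hvT, hv'⟩
  unfold wt
  rw [if_neg h1, if_neg h2, if_neg h3, if_neg hp.2]
  refine ⟨fun h => ?_, fun h h' => ?_, ?_⟩
  · rw [if_pos ⟨T, hT, hvT, h⟩]
  · rw [if_neg, if_pos ⟨T, hT, hvT, h'⟩]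
    rintro ⟨T', hT', hv', hD'⟩
    rw [h4 T' hT' hv'] at hD'
    exact h hD'
  · split_ifs <;> norm_num

/-- the weights at an element of two triples -/
theorem wt_N {v : α} (h1 : ¬ St H R v) (h2 : ¬ Dv H R v) (h3 : ¬ Ev H R v) (h4 : Sh H v) :
    ((∀ T ∈ H, v ∈ T → HasD H R T) → wt H R v = 8 / 3) ∧ (wt H R v ≤ 3) := by
  refine ⟨fun h => ?_, wt_high v⟩
  unfold wt
  rw [if_neg h1, if_neg h2, if_neg h3, if_pos h4, if_pos h]

end Pool.Agent.H61.FC
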