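import Pool.Agent.H61.Rule

set_option autoImplicit false
set_option linter.all false

/-!
# The weights satisfy the local inequalities
-/

namespace Pool.Agent.H61.FC

open Finset

variable {α : Type*} [DecidableEq α]

/-- the local inequality at `x` follows from at most three triples and six directions -/
def LocOK (W : Finset α) (H : Finset (Finset α)) (c : α → ℝ) (x : α) : Prop :=
  ∃ Q ⊆ H, Q.card ≤ 3 ∧ (∀ T ∈ Q, x ∈ T) ∧ ∃ C ⊆ W, C.card ≤ 6 ∧ x ∉ C ∧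
    ∀ 𝒟 : Finset (Finset α), Dn 𝒟 → (∀ D ∈ 𝒟, ∀ T ∈ Q, ¬ T.erase x ⊆ D) →
      c x * (𝒟.card : ℝ) ≤ ∑ k ∈ C, c k * dg 𝒟 k

theorem no_pair {𝒟 Q : Finset (Finset α)} {x : α}
    (h : ∀ D ∈ 𝒟, ∀ T ∈ Q, ¬ T.erase x ⊆ D) {T : Finset α} (hT : T ∈ Q) {a b : α}
    (hTe : T = {x, a, b}) : ∀ D ∈ 𝒟, ¬ (a ∈ D ∧ b ∈ D) := by
  rintro D hD ⟨h1, h2⟩
  apply h D hD T hT
  intro t ht
  rw [hTe, mem_erase, mem_insert, mem_insert, mem_singleton] at ht
  rcases ht with ⟨h3, h4 | h4 | h4⟩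
  · exact absurd h4 h3
  · rw [h4]; exact h1
  · rw [h4]; exact h2

theorem no_pair' {𝒟 Q : Finset (Finset α)} {x : α}
    (h : ∀ D ∈ 𝒟, ∀ T ∈ Q, ¬ T.erase x ⊆ D) {a b : α} (hT : ({x, a, b} : Finset α) ∈ Q) :
    ∀ D ∈ 𝒟, ¬ (a ∈ D ∧ b ∈ D) := no_pair h hT rfl

variable {W : Finset α} {H : Finset (Finset α)} {c : α → ℝ} {x : α}

theorem mulle {𝒟 : Finset (Finset α)} (h : Dn 𝒟) (k : α) {w : ℝ} (hw : w ≤ c k) :
    w * dg 𝒟 k ≤ c k * dg 𝒟 k := mul_le_mul_of_nonneg_right hw (dg_nonneg h k)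

/-- one edge -/
theorem locOK1 (hW : ∀ T ∈ H, T ⊆ W) {y z : α} (hx : ({x, y, z} : Finset α) ∈ H)
    (hy : y ≠ x) (hz : z ≠ x) (hyz : y ≠ z) (h1 : c x ≤ c y) (h2 : c x ≤ c z)
    (h3 : 3 * c x ≤ c y + c z) (h0 : 0 ≤ c x) : LocOK W H c x := by
  refine ⟨{{x, y, z}}, by simpa using hx, by simp, by simp, {y, z}, ?_, ?_, ?_, ?_⟩
  · intro t ht
    refine hW _ hx ?_
    simp only [mem_insert, mem_singleton] at ht ⊢
    tauto
  · exact card_le_two.trans (by norm_num)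
  · simp [hy.symm, hz.symm]
  · intro 𝒟 h𝒟 hno
    rw [sum_insert (by simpa using hyz), sum_singleton]
    exact edge_loc h𝒟 hyz (no_pair' hno (by simp)) h1 h2 h3 h0

/-- two disjoint edges -/
theorem locOK2 (hW : ∀ T ∈ H, T ⊆ W) {y z y' z' : α} (hx : ({x, y, z} : Finset α) ∈ H)
    (hx' : ({x, y', z'} : Finset α) ∈ H)
    (hy : y ≠ x) (hz : z ≠ x) (hyz : y ≠ z) (hy' : y' ≠ x) (hz' : z' ≠ x) (hyz' : y' ≠ z')
    (d1 : y ≠ y') (d2 : y ≠ z') (d3 : z ≠ y') (d4 : z ≠ z') {r r' : ℝ}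
    (h1 : r ≤ c y) (h2 : r ≤ c z) (h3 : 3 * r ≤ c y + c z) (h0 : 0 ≤ r)
    (h1' : r' ≤ c y') (h2' : r' ≤ c z') (h3' : 3 * r' ≤ c y' + c z') (h0' : 0 ≤ r')
    (hr : c x ≤ r + r') : LocOK W H c x := by
  refine ⟨{{x, y, z}, {x, y', z'}}, ?_, card_le_two.trans (by norm_num), by simp,
    {y, z, y', z'}, ?_, ?_, ?_, ?_⟩
  · intro t ht
    simp only [mem_insert, mem_singleton] at ht
    rcases ht with rfl | rfl <;> assumption
  · intro t ht
    have h4 := hW _ hx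
    have h5 := hW _ hx'
    simp only [insert_subset_iff, singleton_subset_iff, mem_insert, mem_singleton] at h4 h5 ht
    rcases ht with rfl | rfl | rfl | rfl <;> tauto
  · exact card_le_four.trans (by norm_num)
  · simp [hy.symm, hz.symm, hy'.symm, hz'.symm]
  · intro 𝒟 h𝒟 hno
    rw [sum_insert (by simp [hyz, d1, d2]), sum_insert (by simp [d3, d4]),
      sum_insert (by simpa using hyz'), sum_singleton]
    have e1 := edge_loc h𝒟 hyz (no_pair' hno (by simp)) h1 h2 h3 h0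
    have e2 := edge_loc h𝒟 hyz' (no_pair' hno (by simp)) h1' h2' h3' h0'
    have e3 : c x * (𝒟.card : ℝ) ≤ (r + r') * (𝒟.card : ℝ) :=
      mul_le_mul_of_nonneg_right hr (Nat.cast_nonneg _)
    linarith

/-- three disjoint edges -/
theorem locOK3 (hW : ∀ T ∈ H, T ⊆ W) {y z y' z' y'' z'' : α} (hx : ({x, y, z} : Finset α) ∈ H)
    (hx' : ({x, y', z'} : Finset α) ∈ H) (hx'' : ({x, y'', z''} : Finset α) ∈ H)
    (hy : y ≠ x) (hz : z ≠ x) (hyz : y ≠ z) (hy' : y' ≠ x) (hz' : z' ≠ x) (hyz' : y' ≠ z')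
    (hy'' : y'' ≠ x) (hz'' : z'' ≠ x) (hyz'' : y'' ≠ z'')
    (d1 : y ≠ y') (d2 : y ≠ z') (d3 : z ≠ y') (d4 : z ≠ z')
    (d5 : y ≠ y'') (d6 : y ≠ z'') (d7 : z ≠ y'') (d8 : z ≠ z'')
    (d9 : y' ≠ y'') (d10 : y' ≠ z'') (d11 : z' ≠ y'') (d12 : z' ≠ z'') {r r' r'' : ℝ}
    (h1 : r ≤ c y) (h2 : r ≤ c z) (h3 : 3 * r ≤ c y + c z) (h0 : 0 ≤ r)
    (h1' : r' ≤ c y') (h2' : r' ≤ c z') (h3' : 3 * r' ≤ c y' + c z') (h0' : 0 ≤ r')
    (h1'' : r'' ≤ c y'') (h2'' : r'' ≤ c z'') (h3'' : 3 * r'' ≤ c y'' + c z'') (h0'' : 0 ≤ r'')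
    (hr : c x ≤ r + r' + r'') : LocOK W H c x := by
  refine ⟨{{x, y, z}, {x, y', z'}, {x, y'', z''}}, ?_, card_le_three, by simp,
    {y, z, y', z', y'', z''}, ?_, ?_, ?_, ?_⟩
  · intro t ht
    simp only [mem_insert, mem_singleton] at ht
    rcases ht with rfl | rfl | rfl <;> assumption
  · intro t ht
    have h4 := hW _ hx
    have h5 := hW _ hx'
    have h6 := hW _ hx''
    simp only [insert_subset_iff, singleton_subset_iff, mem_insert, mem_singleton] at h4 h5 h6 ht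
    rcases ht with rfl | rfl | rfl | rfl | rfl | rfl <;> tauto
  · exact card_le_six
  · simp [hy.symm, hz.symm, hy'.symm, hz'.symm, hy''.symm, hz''.symm]
  · intro 𝒟 h𝒟 hno
    rw [sum_insert (by simp [hyz, d1, d2, d5, d6]), sum_insert (by simp [d3, d4, d7, d8]),
      sum_insert (by simp [hyz', d9, d10]), sum_insert (by simp [d11, d12]),
      sum_insert (by simpa using hyz''), sum_singleton]
    have e1 := edge_loc h𝒟 hyz (no_pair' hno (by simp)) h1 h2 h3 h0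
    have e2 := edge_loc h𝒟 hyz' (no_pair' hno (by simp)) h1' h2' h3' h0'
    have e4 := edge_loc h𝒟 hyz'' (no_pair' hno (by simp)) h1'' h2'' h3'' h0''
    have e3 : c x * (𝒟.card : ℝ) ≤ (r + r' + r'') * (𝒟.card : ℝ) :=
      mul_le_mul_of_nonneg_right hr (Nat.cast_nonneg _)
    linarith

/-- path with two edges -/
theorem locOKstar2 (hW : ∀ T ∈ H, T ⊆ W) {a b d : α} (hx : ({x, a, b} : Finset α) ∈ H)
    (hx' : ({x, a, d} : Finset α) ∈ H)
    (hax : a ≠ x) (hbx : b ≠ x) (hdx : d ≠ x) (hab : a ≠ b) (had : a ≠ d) (hbd : b ≠ d)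
    (hc : (c x ≤ 2 ∧ 2 ≤ c a ∧ 8 / 3 ≤ c b ∧ 4 / 3 ≤ c d) ∨
      (c x ≤ 12 / 5 ∧ 3 ≤ c a ∧ 9 / 5 ≤ c b ∧ 9 / 5 ≤ c d)) : LocOK W H c x := by
  refine ⟨{{x, a, b}, {x, a, d}}, ?_, card_le_two.trans (by norm_num), by simp,
    {a, b, d}, ?_, ?_, ?_, ?_⟩
  · intro t ht
    simp only [mem_insert, mem_singleton] at ht
    rcases ht with rfl | rfl <;> assumption
  · intro t ht
    have h4 := hW _ hx
    have h5 := hW _ hx'
    simp only [insert_subset_iff, singleton_subset_iff, mem_insert, mem_singleton] at h4 h5 ht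
    rcases ht with rfl | rfl | rfl <;> tauto
  · exact card_le_three.trans (by norm_num)
  · simp [hax.symm, hbx.symm, hdx.symm]
  · intro 𝒟 h𝒟 hno
    rw [sum_insert (by simp [hab, had]), sum_insert (by simp [hbd]), sum_singleton]
    rcases hc with ⟨h1, h2, h3, h4⟩ | ⟨h1, h2, h3, h4⟩
    · have e1 := star2_D h𝒟 hab had hbd (no_pair' hno (by simp)) (no_pair' hno (by simp))
      have e2 := mulle h𝒟 a h2
      have e3 := mulle h𝒟 b h3
      have e4 := mulle h𝒟 d h4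
      have e5 : c x * (𝒟.card : ℝ) ≤ 2 * (𝒟.card : ℝ) :=
        mul_le_mul_of_nonneg_right h1 (Nat.cast_nonneg _)
      linarith
    · have e1 := star2_E h𝒟 hab had hbd (no_pair' hno (by simp)) (no_pair' hno (by simp))
      have e2 := mulle h𝒟 a h2
      have e3 := mulle h𝒟 b h3
      have e4 := mulle h𝒟 d h4
      have e5 : c x * (𝒟.card : ℝ) ≤ (12 / 5) * (𝒟.card : ℝ) :=
        mul_le_mul_of_nonneg_right h1 (Nat.cast_nonneg _)
      linarith

/-- path with two edges and an edge -/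
theorem locOKstar21 (hW : ∀ T ∈ H, T ⊆ W) {a b d e f : α} (hx : ({x, a, b} : Finset α) ∈ H)
    (hx' : ({x, a, d} : Finset α) ∈ H) (hx'' : ({x, e, f} : Finset α) ∈ H)
    (hax : a ≠ x) (hbx : b ≠ x) (hdx : d ≠ x) (hex : e ≠ x) (hfx : f ≠ x)
    (hab : a ≠ b) (had : a ≠ d) (hbd : b ≠ d) (hae : a ≠ e) (haf : a ≠ f) (hbe : b ≠ e)
    (hbf : b ≠ f) (hde : d ≠ e) (hdf : d ≠ f) (hef : e ≠ f)
    (h1 : c x ≤ 3) (h2 : 12 / 5 ≤ c a) (h3 : 9 / 5 ≤ c b) (h4 : 9 / 5 ≤ c d)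
    (h5 : 1 ≤ c e) (h6 : 1 ≤ c f) (h7 : 3 ≤ c e + c f) : LocOK W H c x := by
  refine ⟨{{x, a, b}, {x, a, d}, {x, e, f}}, ?_, card_le_three, by simp,
    {a, b, d, e, f}, ?_, ?_, ?_, ?_⟩
  · intro t ht
    simp only [mem_insert, mem_singleton] at ht
    rcases ht with rfl | rfl | rfl <;> assumption
  · intro t ht
    have h4 := hW _ hx
    have h5 := hW _ hx'
    have h6 := hW _ hx''
    simp only [insert_subset_iff, singleton_subset_iff, mem_insert, mem_singleton] at h4 h5 h6 ht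
    rcases ht with rfl | rfl | rfl | rfl | rfl <;> tauto
  · exact card_le_five.trans (by norm_num)
  · simp [hax.symm, hbx.symm, hdx.symm, hex.symm, hfx.symm]
  · intro 𝒟 h𝒟 hno
    rw [sum_insert (by simp [hab, had, hae, haf]), sum_insert (by simp [hbd, hbe, hbf]),
      sum_insert (by simp [hde, hdf]), sum_insert (by simp [hef]), sum_singleton]
    have e1 := star2_S h𝒟 hab had hbd (no_pair' hno (by simp)) (no_pair' hno (by simp))
    have e2 := mulle h𝒟 a h2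
    have e3 := mulle h𝒟 b h3
    have e4 := mulle h𝒟 d h4
    have e6 := edge_loc h𝒟 hef (no_pair' hno (by simp)) h5 h6 (by linarith) zero_le_one
    have e5 : c x * (𝒟.card : ℝ) ≤ 3 * (𝒟.card : ℝ) :=
      mul_le_mul_of_nonneg_right h1 (Nat.cast_nonneg _)
    have e7 : (0 : ℝ) ≤ 𝒟.card := Nat.cast_nonneg _
    linarith

/-- triangle -/
theorem locOKtri (hW : ∀ T ∈ H, T ⊆ W) {a b d : α} (hx : ({x, a, b} : Finset α) ∈ H)
    (hx' : ({x, a, d} : Finset α) ∈ H) (hx'' : ({x, b, d} : Finset α) ∈ H)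
    (hax : a ≠ x) (hbx : b ≠ x) (hdx : d ≠ x) (hab : a ≠ b) (had : a ≠ d) (hbd : b ≠ d)
    (h1 : c x ≤ 3) (h2 : 12 / 5 ≤ c a) (h3 : 12 / 5 ≤ c b) (h4 : 12 / 5 ≤ c d) :
    LocOK W H c x := by
  refine ⟨{{x, a, b}, {x, a, d}, {x, b, d}}, ?_, card_le_three, by simp,
    {a, b, d}, ?_, ?_, ?_, ?_⟩
  · intro t ht
    simp only [mem_insert, mem_singleton] at ht
    rcases ht with rfl | rfl | rfl <;> assumption
  · intro t ht
    have h4 := hW _ hx
    have h5 := hW _ hx'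
    simp only [insert_subset_iff, singleton_subset_iff, mem_insert, mem_singleton] at h4 h5 ht
    rcases ht with rfl | rfl | rfl <;> tauto
  · exact card_le_three.trans (by norm_num)
  · simp [hax.symm, hbx.symm, hdx.symm]
  · intro 𝒟 h𝒟 hno
    rw [sum_insert (by simp [hab, had]), sum_insert (by simp [hbd]), sum_singleton]
    have e1 := tri_S h𝒟 hab had hbd (no_pair' hno (by simp)) (no_pair' hno (by simp))
      (no_pair' hno (by simp))
    have e2 := mulle h𝒟 a h2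
    have e3 := mulle h𝒟 b h3
    have e4 := mulle h𝒟 d h4
    have e5 : c x * (𝒟.card : ℝ) ≤ 3 * (𝒟.card : ℝ) :=
      mul_le_mul_of_nonneg_right h1 (Nat.cast_nonneg _)
    linarith

/-- star with three edges -/
theorem locOKstar3 (hW : ∀ T ∈ H, T ⊆ W) {a b d e : α} (hx : ({x, a, b} : Finset α) ∈ H)
    (hx' : ({x, a, d} : Finset α) ∈ H) (hx'' : ({x, a, e} : Finset α) ∈ H)
    (hax : a ≠ x) (hbx : b ≠ x) (hdx : d ≠ x) (hex : e ≠ x)
    (hab : a ≠ b) (had : a ≠ d) (hae : a ≠ e) (hbd : b ≠ d) (hbe : b ≠ e) (hde : d ≠ e)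
    (h1 : c x ≤ 3) (h2 : 3 ≤ c a) (h3 : 2 ≤ c b) (h4 : 2 ≤ c d) (h5 : 2 ≤ c e) :
    LocOK W H c x := by
  refine ⟨{{x, a, b}, {x, a, d}, {x, a, e}}, ?_, card_le_three, by simp,
    {a, b, d, e}, ?_, ?_, ?_, ?_⟩
  · intro t ht
    simp only [mem_insert, mem_singleton] at ht
    rcases ht with rfl | rfl | rfl <;> assumption
  · intro t ht
    have h4 := hW _ hx
    have h5 := hW _ hx'
    have h6 := hW _ hx''
    simp only [insert_subset_iff, singleton_subset_iff, mem_insert, mem_singleton] at h4 h5 h6 ht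
    rcases ht with rfl | rfl | rfl | rfl <;> tauto
  · exact card_le_four.trans (by norm_num)
  · simp [hax.symm, hbx.symm, hdx.symm, hex.symm]
  · intro 𝒟 h𝒟 hno
    rw [sum_insert (by simp [hab, had, hae]), sum_insert (by simp [hbd, hbe]),
      sum_insert (by simp [hde]), sum_singleton]
    have e1 := star3_S h𝒟 hab had hae hbd hbe hde (no_pair' hno (by simp))
      (no_pair' hno (by simp)) (no_pair' hno (by simp))
    have e2 := mulle h𝒟 a h2
    have e3 := mulle h𝒟 b h3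
    have e4 := mulle h𝒟 d h4
    have e6 := mulle h𝒟 e h5
    have e5 : c x * (𝒟.card : ℝ) ≤ 3 * (𝒟.card : ℝ) :=
      mul_le_mul_of_nonneg_right h1 (Nat.cast_nonneg _)
    linarith

/-- path with three edges `b - a - d - f` -/
theorem locOKpath4 (hW : ∀ T ∈ H, T ⊆ W) {b a d f : α} (hx : ({x, b, a} : Finset α) ∈ H)
    (hx' : ({x, a, d} : Finset α) ∈ H) (hx'' : ({x, d, f} : Finset α) ∈ H)
    (hbx : b ≠ x) (hax : a ≠ x) (hdx : d ≠ x) (hfx : f ≠ x)
    (hba : b ≠ a) (hbd : b ≠ d) (hbf : b ≠ f) (had : a ≠ d) (haf : a ≠ f) (hdf : d ≠ f)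
    (h1 : c x ≤ 3) (h2 : 9 / 5 ≤ c b) (h3 : 12 / 5 ≤ c a) (h4 : 12 / 5 ≤ c d)
    (h5 : 9 / 5 ≤ c f) : LocOK W H c x := by
  refine ⟨{{x, b, a}, {x, a, d}, {x, d, f}}, ?_, card_le_three, by simp,
    {b, a, d, f}, ?_, ?_, ?_, ?_⟩
  · intro t ht
    simp only [mem_insert, mem_singleton] at ht
    rcases ht with rfl | rfl | rfl <;> assumption
  · intro t ht
    have h4 := hW _ hx
    have h5 := hW _ hx'
    have h6 := hW _ hx''
    simp only [insert_subset_iff, singleton_subset_iff, mem_insert, mem_singleton] at h4 h5 h6 ht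
    rcases ht with rfl | rfl | rfl | rfl <;> tauto
  · exact card_le_four.trans (by norm_num)
  · simp [hax.symm, hbx.symm, hdx.symm, hfx.symm]
  · intro 𝒟 h𝒟 hno
    rw [sum_insert (by simp [hba, hbd, hbf]), sum_insert (by simp [had, haf]),
      sum_insert (by simp [hdf]), sum_singleton]
    have e1 := path4_S h𝒟 hba hbd hbf had haf hdf (no_pair' hno (by simp))
      (no_pair' hno (by simp)) (no_pair' hno (by simp))
    have e2 := mulle h𝒟 b h2
    have e3 := mulle h𝒟 a h3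
    have e4 := mulle h𝒟 d h4
    have e6 := mulle h𝒟 f h5
    have e5 : c x * (𝒟.card : ℝ) ≤ 3 * (𝒟.card : ℝ) :=
      mul_le_mul_of_nonneg_right h1 (Nat.cast_nonneg _)
    linarith

end Pool.Agent.H61.FC
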