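import Pool.Agent.H61.Rule2

set_option autoImplicit false
set_option linter.all false

/-!
# A family of triples without removable parts satisfies the local inequalities
-/

namespace Pool.Agent.H61.FC

open Finset

variable {α : Type*} [DecidableEq α]

/-- the link of `x` -/
def LE (H : Finset (Finset α)) (x y z : α) : Prop :=
  ({x, y, z} : Finset α) ∈ H ∧ y ≠ x ∧ z ≠ x ∧ y ≠ z

variable {H : Finset (Finset α)} {x : α}

theorem LE.symm {y z : α} (h : LE H x y z) : LE H x z y := by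
  obtain ⟨h1, h2, h3, h4⟩ := h
  refine ⟨?_, h3, h2, h4.symm⟩
  rwa [pair_comm] at h1

theorem tri_swap (x y z : α) : ({x, y, z} : Finset α) = {x, z, y} := by rw [pair_comm]

theorem tri_rot (x y z : α) : ({x, y, z} : Finset α) = {y, x, z} := by
  ext t; simp only [mem_insert, mem_singleton]; tauto

theorem pattern2 {a b d e f : α} (h1 : LE H x a b) (h2 : LE H x a d) (hbd : b ≠ d)
    (h3 : LE H x e f) (n1 : ({x, e, f} : Finset α) ≠ {x, a, b})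
    (n2 : ({x, e, f} : Finset α) ≠ {x, a, d}) :
    (∃ a b d e f, LE H x a b ∧ LE H x a d ∧ LE H x e f ∧ b ≠ d ∧ a ≠ e ∧ a ≠ f ∧ b ≠ e ∧ b ≠ f ∧
      d ≠ e ∧ d ≠ f) ∨
    (∃ a b d e, LE H x a b ∧ LE H x a d ∧ LE H x a e ∧ b ≠ d ∧ b ≠ e ∧ d ≠ e) ∨
    (∃ b a d f, LE H x b a ∧ LE H x a d ∧ LE H x d f ∧ b ≠ d ∧ b ≠ f ∧ a ≠ f) ∨
    (∃ a b d, LE H x a b ∧ LE H x a d ∧ LE H x b d) := by
  by_cases ea : e = a
  · subst ea
    right; left
    refine ⟨e, b, d, f, h1, h2, h3, hbd, ?_, ?_⟩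
    · rintro rfl; exact n1 rfl
    · rintro rfl; exact n2 rfl
  by_cases fa : f = a
  · subst fa
    right; left
    refine ⟨f, b, d, e, h1, h2, h3.symm, hbd, ?_, ?_⟩
    · rintro rfl; exact n1 (tri_swap _ _ _)
    · rintro rfl; exact n2 (tri_swap _ _ _)
  by_cases eb : e = b
  · subst eb
    by_cases fd : f = d
    · subst fd
      right; right; right
      exact ⟨a, e, f, h1, h2, h3⟩
    · right; right; left
      exact ⟨d, a, e, f, h2.symm, h1, h3, hbd.symm, fun h => fd h.symm, fun h => fa h.symm⟩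
  by_cases fb : f = b
  · subst fb
    by_cases ed : e = d
    · subst ed
      right; right; right
      exact ⟨a, f, e, h1, h2, h3.symm⟩
    · right; right; left
      exact ⟨d, a, f, e, h2.symm, h1, h3.symm, hbd.symm, fun h => ed h.symm, fun h => ea h.symm⟩
  by_cases ed : e = d
  · subst ed
    right; right; left
    exact ⟨b, a, e, f, h1.symm, h2, h3, hbd, fun h => fb h.symm, fun h => fa h.symm⟩
  by_cases fd : f = d
  · subst fd
    right; right; left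
    exact ⟨b, a, f, e, h1.symm, h2, h3.symm, hbd, fun h => eb h.symm, fun h => ea h.symm⟩
  left
  exact ⟨a, b, d, e, f, h1, h2, h3, hbd, fun h => ea h.symm, fun h => fa h.symm,
    fun h => eb h.symm, fun h => fb h.symm, fun h => ed h.symm, fun h => fd h.symm⟩

theorem pattern2' {y z y' z' e f : α} (h1 : LE H x y z) (h2 : LE H x y' z')
    (h3 : LE H x e f) (n0 : ({x, y, z} : Finset α) ≠ {x, y', z'})
    (n1 : ({x, e, f} : Finset α) ≠ {x, y, z})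
    (n2 : ({x, e, f} : Finset α) ≠ {x, y', z'})
    (hd : ¬ (y ≠ y' ∧ y ≠ z' ∧ z ≠ y' ∧ z ≠ z')) :
    (∃ a b d e f, LE H x a b ∧ LE H x a d ∧ LE H x e f ∧ b ≠ d ∧ a ≠ e ∧ a ≠ f ∧ b ≠ e ∧ b ≠ f ∧
      d ≠ e ∧ d ≠ f) ∨
    (∃ a b d e, LE H x a b ∧ LE H x a d ∧ LE H x a e ∧ b ≠ d ∧ b ≠ e ∧ d ≠ e) ∨
    (∃ b a d f, LE H x b a ∧ LE H x a d ∧ LE H x d f ∧ b ≠ d ∧ b ≠ f ∧ a ≠ f) ∨
    (∃ a b d, LE H x a b ∧ LE H x a d ∧ LE H x b d) := by
  by_cases c1 : y = y'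
  · subst c1
    exact pattern2 h1 h2 (fun h => n0 (by rw [h])) h3 n1 n2
  by_cases c2 : y = z'
  · subst c2
    refine pattern2 h1 h2.symm (fun h => n0 (by rw [h, tri_swap])) h3 n1 ?_
    rw [tri_swap x y y']; exact n2
  by_cases c3 : z = y'
  · subst c3
    refine pattern2 h1.symm h2 (fun h => n0 (by rw [h, tri_swap])) h3 ?_ n2
    rw [tri_swap x z y]; exact n1
  by_cases c4 : z = z'
  · subst c4
    refine pattern2 h1.symm h2.symm (fun h => n0 (by rw [h])) h3 ?_ ?_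
    · rw [tri_swap x z y]; exact n1
    · rw [tri_swap x z y']; exact n2
  exact absurd ⟨c1, c2, c3, c4⟩ hd

theorem pattern3 {y z y' z' y'' z'' : α} (h1 : LE H x y z) (h2 : LE H x y' z')
    (h3 : LE H x y'' z'') (n0 : ({x, y, z} : Finset α) ≠ {x, y', z'})
    (n1 : ({x, y, z} : Finset α) ≠ {x, y'', z''})
    (n2 : ({x, y', z'} : Finset α) ≠ {x, y'', z''}) :
    ((y ≠ y' ∧ y ≠ z' ∧ z ≠ y' ∧ z ≠ z') ∧ (y ≠ y'' ∧ y ≠ z'' ∧ z ≠ y'' ∧ z ≠ z'') ∧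
      (y' ≠ y'' ∧ y' ≠ z'' ∧ z' ≠ y'' ∧ z' ≠ z'')) ∨
    (∃ a b d e f, LE H x a b ∧ LE H x a d ∧ LE H x e f ∧ b ≠ d ∧ a ≠ e ∧ a ≠ f ∧ b ≠ e ∧ b ≠ f ∧
      d ≠ e ∧ d ≠ f) ∨
    (∃ a b d e, LE H x a b ∧ LE H x a d ∧ LE H x a e ∧ b ≠ d ∧ b ≠ e ∧ d ≠ e) ∨
    (∃ b a d f, LE H x b a ∧ LE H x a d ∧ LE H x d f ∧ b ≠ d ∧ b ≠ f ∧ a ≠ f) ∨
    (∃ a b d, LE H x a b ∧ LE H x a d ∧ LE H x b d) := by
  by_cases c1 : (y ≠ y' ∧ y ≠ z' ∧ z ≠ y' ∧ z ≠ z')
  · by_cases c2 : (y ≠ y'' ∧ y ≠ z'' ∧ z ≠ y'' ∧ z ≠ z'')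
    · by_cases c3 : (y' ≠ y'' ∧ y' ≠ z'' ∧ z' ≠ y'' ∧ z' ≠ z'')
      · left; exact ⟨c1, c2, c3⟩
      · right; exact pattern2' h2 h3 h1 n2 n0 n1 c3
    · right; exact pattern2' h1 h3 h2 n1 n0.symm n2 c2
  · right; exact pattern2' h1 h2 h3 n0 n1.symm n2.symm c1

variable {W : Finset α} {R : α → Prop}

/-- no removable parts -/
structure Stuck (W : Finset α) (H : Finset (Finset α)) (R : α → Prop) : Prop where
  sub : ∀ T ∈ H, T ⊆ W
  card : ∀ T ∈ H, T.card = 3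
  cov : ∀ v ∈ W, ¬ R v → ∃ T ∈ H, v ∈ T
  priv : ∀ T ∈ H, ∀ u ∈ T, ∀ v ∈ T, u ≠ v → ¬ (Priv H R u ∧ Priv H R v)
  cyc : ∀ v w u u', v ≠ w → u ≠ u' → ({v, w, u} : Finset α) ∈ H → ({v, w, u'} : Finset α) ∈ H →
    ¬ St H R v → ¬ St H R w → Priv H R u → Priv H R u' → False

variable (hS : Stuck W H R)

include hS

theorem two_three {T : Finset α} {y z : α} (hT : T ∈ H) (hy : y ∈ T) (hz : z ∈ T) (hyz : y ≠ z) :
    (2 ≤ wt H R y ∧ 4 / 3 ≤ wt H R z) ∨ (4 / 3 ≤ wt H R y ∧ 2 ≤ wt H R z) := by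
  by_cases h : Priv H R y
  · have h2 : ¬ Priv H R z := fun h2 => hS.priv T hT y hy z hz hyz ⟨h, h2⟩
    exact Or.inr ⟨wt_low y, wt3 h2⟩
  · exact Or.inl ⟨wt3 h, wt_low z⟩

/-- an element which shares two triples with the strong `x` -/
theorem share_strong (hx : St H R x) {a b d : α} (h1 : LE H x a b) (h2 : LE H x a d)
    (hbd : b ≠ d) : ¬ Dv H R a ∧ 12 / 5 ≤ wt H R a := by
  have hsh : Sh H a := by
    refine ⟨_, h1.1, _, h2.1, ?_, by simp, by simp⟩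
    intro he
    have : b ∈ ({x, a, d} : Finset α) := by rw [← he]; simp
    simp only [mem_insert, mem_singleton] at this
    rcases this with h | h | h
    · exact h1.2.2.1 h
    · exact h1.2.2.2 h.symm
    · exact hbd h
  have hD : ¬ Dv H R a := by
    intro hD
    have hno : ¬ Dv H R x := fun h => h.1 hx
    obtain ⟨w, hw, hwa, hwD⟩ := Dv_partner hD h1.1 (by simp)
    simp only [mem_insert, mem_singleton] at hw
    rcases hw with rfl | rfl | rfl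
    · exact hno hwD
    · exact hwa rfl
    · obtain ⟨hs, T₁, t1, T₂, t2, t12, v1, v2, w', hwv, w1, w2, hw'⟩ := hD
      have hne : ({x, a, w} : Finset α) ≠ {x, a, d} := by
        intro he
        have : w ∈ ({x, a, d} : Finset α) := by rw [← he]; simp
        simp only [mem_insert, mem_singleton] at this
        rcases this with h | h | h
        · exact h1.2.2.1 h
        · exact h1.2.2.2 h.symm
        · exact hbd h
      have e1 := two_of_notSt hs t1 t2 t12 v1 v2 h1.1 (by simp)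
      have e2 := two_of_notSt hs t1 t2 t12 v1 v2 h2.1 (by simp)
      have m1 : w' ∈ ({x, a, w} : Finset α) := by
        rcases e1 with e | e <;> rw [e] <;> assumption
      have m2 : w' ∈ ({x, a, d} : Finset α) := by
        rcases e2 with e | e <;> rw [e] <;> assumption
      simp only [mem_insert, mem_singleton] at m1 m2
      rcases m1 with rfl | rfl | rfl
      · exact hw' hx
      · exact hwv rfl
      · rcases m2 with h | h | h
        · exact h1.2.2.1 h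
        · exact h1.2.2.2 h.symm
        · exact hbd h
  exact ⟨hD, wt4 (notPriv_of_Sh hsh) hD⟩

theorem leaf_ge (hx : ¬ Dv H R x) {a b : α} (h1 : LE H x a b) (ha : ¬ Dv H R a) :
    ¬ HasD H R {x, a, b} ∧ 9 / 5 ≤ wt H R b := by
  have h2 : ¬ HasD H R {x, a, b} := fun h => ha (hasD_all hx h1.1 rfl h).1
  exact ⟨h2, wt7 h1.1 (by simp) h2⟩

theorem LE_of {T : Finset α} {y z : α} (hT : T ∈ H) (hy : y ≠ x) (hz : z ≠ x) (hyz : y ≠ z)
    (he : T = {x, y, z}) : LE H x y z := ⟨he ▸ hT, hy, hz, hyz⟩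

/-- three disjoint edges etc. -/
theorem locOK_strong (hx : St H R x) (hR : ¬ R x) : LocOK W H (wt H R) x := by
  have hwx : wt H R x ≤ 3 := wt_high x
  have hxD : ¬ Dv H R x := fun h => h.1 hx
  obtain ⟨T₁, h1, T₂, h2, T₃, h3, n12, n13, n23, v1, v2, v3⟩ := hx.resolve_left hR
  obtain ⟨y, z, hy, hz, hyz, e1⟩ := exists_tri (hS.card T₁ h1) v1
  obtain ⟨y', z', hy', hz', hyz', e2⟩ := exists_tri (hS.card T₂ h2) v2
  obtain ⟨y'', z'', hy'', hz'', hyz'', e3⟩ := exists_tri (hS.card T₃ h3) v3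
  have L1 : LE H x y z := ⟨e1 ▸ h1, hy, hz, hyz⟩
  have L2 : LE H x y' z' := ⟨e2 ▸ h2, hy', hz', hyz'⟩
  have L3 : LE H x y'' z'' := ⟨e3 ▸ h3, hy'', hz'', hyz''⟩
  rcases pattern3 L1 L2 L3 (by rw [← e1, ← e2]; exact n12) (by rw [← e1, ← e3]; exact n13)
    (by rw [← e2, ← e3]; exact n23) with hc | hc | hc | hc | hc
  · obtain ⟨⟨a1, a2, a3, a4⟩, ⟨b1, b2, b3, b4⟩, ⟨c1, c2, c3, c4⟩⟩ := hc
    have f1 := two_three hS L1.1 (y := y) (z := z) (by simp) (by simp) hyz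
    have f2 := two_three hS L2.1 (y := y') (z := z') (by simp) (by simp) hyz'
    have f3 := two_three hS L3.1 (y := y'') (z := z'') (by simp) (by simp) hyz''
    refine locOK3 hS.sub L1.1 L2.1 L3.1 hy hz hyz hy' hz' hyz' hy'' hz'' hyz'' a1 a2 a3 a4
      b1 b2 b3 b4 c1 c2 c3 c4 (r := 1) (r' := 1) (r'' := 1) ?_ ?_ ?_ zero_le_one ?_ ?_ ?_
      zero_le_one ?_ ?_ ?_ zero_le_one (by linarith)
    · rcases f1 with ⟨g1, g2⟩ | ⟨g1, g2⟩ <;> linarith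
    · rcases f1 with ⟨g1, g2⟩ | ⟨g1, g2⟩ <;> linarith
    · rcases f1 with ⟨g1, g2⟩ | ⟨g1, g2⟩ <;> linarith
    · rcases f2 with ⟨g1, g2⟩ | ⟨g1, g2⟩ <;> linarith
    · rcases f2 with ⟨g1, g2⟩ | ⟨g1, g2⟩ <;> linarith
    · rcases f2 with ⟨g1, g2⟩ | ⟨g1, g2⟩ <;> linarith
    · rcases f3 with ⟨g1, g2⟩ | ⟨g1, g2⟩ <;> linarith
    · rcases f3 with ⟨g1, g2⟩ | ⟨g1, g2⟩ <;> linarith
    · rcases f3 with ⟨g1, g2⟩ | ⟨g1, g2⟩ <;> linarith
  · obtain ⟨a, b, d, e, f, l1, l2, l3, bd, ae, af, be, bf, de, df⟩ := hc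
    obtain ⟨ha1, ha2⟩ := share_strong hS hx l1 l2 bd
    have hb := (leaf_ge hS hxD l1 ha1).2
    have hd := (leaf_ge hS hxD l2 ha1).2
    have f1 := two_three hS l3.1 (y := e) (z := f) (by simp) (by simp) l3.2.2.2
    refine locOKstar21 hS.sub l1.1 l2.1 l3.1 l1.2.1 l1.2.2.1 l2.2.2.1 l3.2.1 l3.2.2.1 l1.2.2.2
      l2.2.2.2 bd ae af be bf de df l3.2.2.2 hwx ha2 hb hd ?_ ?_ ?_
    · rcases f1 with ⟨g1, g2⟩ | ⟨g1, g2⟩ <;> linarith
    · rcases f1 with ⟨g1, g2⟩ | ⟨g1, g2⟩ <;> linarith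
    · rcases f1 with ⟨g1, g2⟩ | ⟨g1, g2⟩ <;> linarith
  · obtain ⟨a, b, d, e, l1, l2, l3, bd, be, de⟩ := hc
    have nn : ∀ {b d : α}, LE H x a b → LE H x a d → b ≠ d →
        ({x, a, b} : Finset α) ≠ {x, a, d} := by
      intro b d l1 l2 bd he
      have : b ∈ ({x, a, d} : Finset α) := by rw [← he]; simp
      simp only [mem_insert, mem_singleton] at this
      rcases this with h | h | h
      · exact l1.2.2.1 h
      · exact l1.2.2.2 h.symm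
      · exact bd h
    have ha : St H R a := Or.inr ⟨_, l1.1, _, l2.1, _, l3.1, nn l1 l2 bd, nn l1 l3 be, nn l2 l3 de,
      by simp, by simp, by simp⟩
    have haD : ¬ Dv H R a := fun h => h.1 ha
    have hleaf : ∀ {b : α}, LE H x a b → 2 ≤ wt H R b := by
      intro b l
      obtain ⟨hD, _⟩ := leaf_ge hS hxD l haD
      by_cases hp : Priv H R b
      · refine wt8 l.1 (by simp) hD ?_
        rintro ⟨v, hv, hE⟩
        simp only [mem_insert, mem_singleton] at hv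
        rcases hv with rfl | rfl | rfl
        · exact hE.1 hx
        · exact hE.1 ha
        · exact hp.2 (Sh_of_Ev hE)
      · exact wt3 hp
    exact locOKstar3 hS.sub l1.1 l2.1 l3.1 l1.2.1 l1.2.2.1 l2.2.2.1 l3.2.2.1 l1.2.2.2
      l2.2.2.2 l3.2.2.2 bd be de hwx (wt_St ha).ge (hleaf l1) (hleaf l2) (hleaf l3)
  · obtain ⟨b, a, d, f, l1, l2, l3, bd, bf, af⟩ := hc
    obtain ⟨ha1, ha2⟩ := share_strong hS hx l1.symm l2 bd
    obtain ⟨hd1, hd2⟩ := share_strong hS hx l2.symm l3 af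
    have hb := (leaf_ge hS hxD l1.symm ha1).2
    have hf := (leaf_ge hS hxD l3 hd1).2
    exact locOKpath4 hS.sub l1.1 l2.1 l3.1 l1.2.1 l1.2.2.1 l2.2.2.1 l3.2.2.1 l1.2.2.2 bd bf
      l2.2.2.2 af l3.2.2.2 hwx hb ha2 hd2 hf
  · obtain ⟨a, b, d, l1, l2, l3⟩ := hc
    obtain ⟨ha1, ha2⟩ := share_strong hS hx l1 l2 l3.2.2.2
    obtain ⟨hb1, hb2⟩ := share_strong hS hx l1.symm l3 l2.2.2.2
    obtain ⟨hd1, hd2⟩ := share_strong hS hx l2.symm l3.symm l1.2.2.2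
    exact locOKtri hS.sub l1.1 l2.1 l3.1 l1.2.1 l1.2.2.1 l2.2.2.1 l1.2.2.2 l2.2.2.2 l3.2.2.2
      hwx ha2 hb2 hd2

end Pool.Agent.H61.FC
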