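import Pool.Agent.H61.Rule3

set_option autoImplicit false
set_option linter.all false

/-!
# A family of triples without removable parts satisfies the local inequalities, continued
-/

namespace Pool.Agent.H61.FC

open Finset

variable {α : Type*} [DecidableEq α] {H : Finset (Finset α)} {x : α}
  {W : Finset α} {R : α → Prop} (hS : Stuck W H R)

include hS

/-- `x` is of the first double type -/
theorem locOK_D (hD : Dv H R x) : LocOK W H (wt H R) x := by
  have hwx := wt_Dv hD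
  have hD' := hD
  obtain ⟨hs, T₁, t1, T₂, t2, t12, v1, v2, w, hwx', w1, w2, hw⟩ := hD
  obtain ⟨u, hux, huw, e1⟩ := exists_tri2 (hS.card T₁ t1) v1 w1 hwx'
  obtain ⟨u', hux', huw', e2⟩ := exists_tri2 (hS.card T₂ t2) v2 w2 hwx'
  have huu : u ≠ u' := by
    rintro rfl; exact t12 (e1.trans e2.symm)
  have hwD : Dv H R w := ⟨hw, T₁, t1, T₂, t2, t12, w1, w2, x, hwx'.symm, v1, v2, hs⟩
  have key : ∀ {T T' : Finset α} {u : α}, T ∈ H → T' ∈ H → T ≠ T' → x ∈ T' → w ∈ T' → x ∈ T →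
      w ∈ T → u ≠ x → u ≠ w → T = {x, w, u} → ¬ Priv H R u → 8 / 3 ≤ wt H R u := by
    intro T T' u hT hT' hTT x' w' x1 w1 hux huw he hp
    have uT : u ∈ T := by rw [he]; simp
    refine wt5 hp ?_ ?_
    · rintro ⟨hus, S₁, s1, S₂, s2, s12, u1, u2, p, hpu, p1, p2, hp'⟩
      have hp3 : p ∈ T := by
        rcases two_of_notSt hus s1 s2 s12 u1 u2 hT uT with e | e <;> rw [e] <;> assumption
      have hST : ∃ S ∈ H, S ≠ T ∧ u ∈ S ∧ p ∈ S := by
        rcases two_of_notSt hus s1 s2 s12 u1 u2 hT uT with e | e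
        · exact ⟨S₂, s2, fun h => s12 (e.symm.trans h.symm), u2, p2⟩
        · exact ⟨S₁, s1, fun h => s12 (h.trans e), u1, p1⟩
      obtain ⟨S, hSH, hST, uS, pS⟩ := hST
      rw [he] at hp3
      simp only [mem_insert, mem_singleton] at hp3
      have hS' : S = T' := by
        rcases hp3 with rfl | rfl | h
        · rcases two_of_notSt hs hT hT' hTT x1 x' hSH pS with e | e
          · exact absurd e hST
          · exact e
        · rcases two_of_notSt hw hT hT' hTT w1 w' hSH pS with e | e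
          · exact absurd e hST
          · exact e
        · exact absurd h hpu
      apply hTT
      rw [hS'] at uS
      refine eq_of_subset_of_card_le ?_ (by rw [hS.card T hT, hS.card T' hT'])
      rw [he]
      intro t ht
      simp only [mem_insert, mem_singleton] at ht
      rcases ht with rfl | rfl | rfl <;> assumption
    · intro hE
      obtain ⟨p, hpT, hpu, hpS⟩ := Ev_partner hE hT uT
      rw [he] at hpT
      simp only [mem_insert, mem_singleton] at hpT
      rcases hpT with rfl | rfl | h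
      · exact hs hpS
      · exact hw hpS
      · exact hpu h
  have hww := wt_Dv hwD
  by_cases hp : Priv H R u
  · have hp' : ¬ Priv H R u' := fun h => hS.cyc x w u u' hwx'.symm huu (e1 ▸ t1) (e2 ▸ t2) hs hw hp h
    refine locOKstar2 hS.sub (a := w) (b := u') (d := u) ?_ ?_ hwx' hux' hux huw'.symm huw.symm
      huu.symm (Or.inl ⟨hwx.le, hww.ge, ?_, wt_low u⟩)
    · exact e2 ▸ t2
    · exact e1 ▸ t1
    · exact key t2 t1 t12.symm v1 w1 v2 w2 hux' huw' e2 hp'
  · refine locOKstar2 hS.sub (a := w) (b := u) (d := u') ?_ ?_ hwx' hux hux' huw.symm huw'.symm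
      huu (Or.inl ⟨hwx.le, hww.ge, ?_, wt_low u'⟩)
    · exact e1 ▸ t1
    · exact e2 ▸ t2
    · exact key t1 t2 t12 v2 w2 v1 w1 hux huw e1 hp

theorem locOK_E (hD : ¬ Dv H R x) (hE : Ev H R x) : LocOK W H (wt H R) x := by
  have hwx := wt_Ev hE hD
  obtain ⟨hs, T₁, t1, T₂, t2, t12, v1, v2, w, hwx', w1, w2, hw⟩ := hE
  obtain ⟨u, hux, huw, e1⟩ := exists_tri2 (hS.card T₁ t1) v1 w1 hwx'
  obtain ⟨u', hux', huw', e2⟩ := exists_tri2 (hS.card T₂ t2) v2 w2 hwx'
  have huu : u ≠ u' := by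
    rintro rfl; exact t12 (e1.trans e2.symm)
  have hwD : ¬ Dv H R w := fun h => h.1 hw
  have L1 : LE H x w u := ⟨e1 ▸ t1, hwx', hux, huw.symm⟩
  have L2 : LE H x w u' := ⟨e2 ▸ t2, hwx', hux', huw'.symm⟩
  exact locOKstar2 hS.sub L1.1 L2.1 hwx' hux hux' huw.symm huw'.symm huu
    (Or.inr ⟨hwx.le, (wt_St hw).ge, (leaf_ge hS hD L1 hwD).2, (leaf_ge hS hD L2 hwD).2⟩)

/-- the two possibilities for a triple with an element which lies on no double edge -/
theorem edge_N (hs : ¬ St H R x) (hD : ¬ Dv H R x) (hE : ¬ Ev H R x) {y z : α} (l : LE H x y z) :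
    (HasD H R {x, y, z} → wt H R y = 2 ∧ wt H R z = 2) ∧
    (¬ HasD H R {x, y, z} → 5 / 3 ≤ wt H R y ∧ 5 / 3 ≤ wt H R z ∧ 5 ≤ wt H R y + wt H R z) := by
  refine ⟨fun h => ?_, fun h => ?_⟩
  · obtain ⟨h1, h2⟩ := hasD_all hD l.1 rfl h
    exact ⟨wt_Dv h1, wt_Dv h2⟩
  · have key : ∀ {y z : α}, LE H x y z → ¬ HasD H R {x, y, z} → ¬ Priv H R y →
        5 / 3 ≤ wt H R y ∧ 5 / 3 ≤ wt H R z ∧ 5 ≤ wt H R y + wt H R z := by
      intro y z l h hp
      have hyD : ¬ Dv H R y := fun h' => h ⟨y, by simp, h'⟩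
      have hzD : ¬ Dv H R z := fun h' => h ⟨z, by simp, h'⟩
      by_cases hyE : Ev H R y
      · obtain ⟨p, hpT, hpy, hpS⟩ := Ev_partner hyE l.1 (by simp)
        simp only [mem_insert, mem_singleton] at hpT
        rcases hpT with rfl | rfl | rfl
        · exact absurd hpS hs
        · exact absurd rfl hpy
        · have := wt_St hpS
          have := wt4 hp hyD
          refine ⟨?_, ?_, ?_⟩ <;> linarith
      · have h1 := wt6 hp hyE l.1 (by simp) h
        by_cases hz : Priv H R z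
        · have h2 : ¬ HasE H R {x, y, z} := by
            rintro ⟨v, hv, hvE⟩
            simp only [mem_insert, mem_singleton] at hv
            rcases hv with rfl | rfl | rfl
            · exact hE hvE
            · exact hyE hvE
            · exact hz.2 (Sh_of_Ev hvE)
          have h3 := wt8 l.1 (v := z) (by simp) h h2
          refine ⟨?_, ?_, ?_⟩ <;> linarith
        · have h3 := wt4 hz hzD
          refine ⟨?_, ?_, ?_⟩ <;> linarith
    by_cases hp : Priv H R y
    · have hp' : ¬ Priv H R z := fun h2 => hS.priv _ l.1 y (by simp) z (by simp) l.2.2.2 ⟨hp, h2⟩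
      have := key l.symm (by rw [tri_swap]; exact h) hp'
      exact ⟨this.2.1, this.1, by linarith [this.2.2]⟩
    · exact key l h hp

theorem locOK_N (hs : ¬ St H R x) (hD : ¬ Dv H R x) (hE : ¬ Ev H R x) (hsh : Sh H x) :
    LocOK W H (wt H R) x := by
  have hsh' := hsh
  obtain ⟨T₁, t1, T₂, t2, t12, v1, v2⟩ := hsh
  obtain ⟨y, z, hy, hz, hyz, e1⟩ := exists_tri (hS.card T₁ t1) v1
  obtain ⟨y', z', hy', hz', hyz', e2⟩ := exists_tri (hS.card T₂ t2) v2
  have L1 : LE H x y z := ⟨e1 ▸ t1, hy, hz, hyz⟩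
  have L2 : LE H x y' z' := ⟨e2 ▸ t2, hy', hz', hyz'⟩
  have hdis : ∀ w, w ≠ x → w ∈ T₁ → w ∈ T₂ → False := by
    intro w hw w1 w2
    by_cases h : St H R w
    · exact hE ⟨hs, T₁, t1, T₂, t2, t12, v1, v2, w, hw, w1, w2, h⟩
    · exact hD ⟨hs, T₁, t1, T₂, t2, t12, v1, v2, w, hw, w1, w2, h⟩
  have m1 : y ∈ T₁ := by rw [e1]; simp
  have m2 : z ∈ T₁ := by rw [e1]; simp
  have m3 : y' ∈ T₂ := by rw [e2]; simp
  have m4 : z' ∈ T₂ := by rw [e2]; simp
  have f1 := edge_N hS hs hD hE L1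
  have f2 := edge_N hS hs hD hE L2
  rw [← e1] at f1
  rw [← e2] at f2
  have g1 : 4 / 3 ≤ wt H R y ∧ 4 / 3 ≤ wt H R z ∧ 4 ≤ wt H R y + wt H R z := by
    by_cases h : HasD H R T₁
    · obtain ⟨h1, h2⟩ := f1.1 h
      refine ⟨?_, ?_, ?_⟩ <;> linarith
    · obtain ⟨h1, h2, h3⟩ := f1.2 h
      refine ⟨?_, ?_, ?_⟩ <;> linarith
  have g2 : 4 / 3 ≤ wt H R y' ∧ 4 / 3 ≤ wt H R z' ∧ 4 ≤ wt H R y' + wt H R z' := by
    by_cases h : HasD H R T₂
    · obtain ⟨h1, h2⟩ := f2.1 h
      refine ⟨?_, ?_, ?_⟩ <;> linarith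
    · obtain ⟨h1, h2, h3⟩ := f2.2 h
      refine ⟨?_, ?_, ?_⟩ <;> linarith
  have hwN := wt_N hs hD hE hsh'
  have d1 : y ≠ y' := fun h => hdis y hy m1 (h ▸ m3)
  have d2 : y ≠ z' := fun h => hdis y hy m1 (h ▸ m4)
  have d3 : z ≠ y' := fun h => hdis z hz m2 (h ▸ m3)
  have d4 : z ≠ z' := fun h => hdis z hz m2 (h ▸ m4)
  by_cases hall : HasD H R T₁ ∧ HasD H R T₂
  · have hx : wt H R x = 8 / 3 := by
      refine hwN.1 (fun T hT hv => ?_)
      rcases two_of_notSt hs t1 t2 t12 v1 v2 hT hv with rfl | rfl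
      · exact hall.1
      · exact hall.2
    refine locOK2 hS.sub L1.1 L2.1 hy hz hyz hy' hz' hyz' d1 d2 d3 d4 (r := 4 / 3) (r' := 4 / 3)
      g1.1 g1.2.1 (by linarith [g1.2.2]) (by norm_num) g2.1 g2.2.1 (by linarith [g2.2.2])
      (by norm_num) (by rw [hx]; norm_num)
  · by_cases h1 : HasD H R T₁
    · have h2 : ¬ HasD H R T₂ := fun h2 => hall ⟨h1, h2⟩
      have k := f2.2 h2
      refine locOK2 hS.sub L1.1 L2.1 hy hz hyz hy' hz' hyz' d1 d2 d3 d4 (r := 4 / 3) (r' := 5 / 3)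
        g1.1 g1.2.1 (by linarith [g1.2.2]) (by norm_num) k.1 k.2.1 (by linarith [k.2.2])
        (by norm_num) (by linarith [hwN.2])
    · have k := f1.2 h1
      refine locOK2 hS.sub L1.1 L2.1 hy hz hyz hy' hz' hyz' d1 d2 d3 d4 (r := 5 / 3) (r' := 4 / 3)
        k.1 k.2.1 (by linarith [k.2.2]) (by norm_num) g2.1 g2.2.1 (by linarith [g2.2.2])
        (by norm_num) (by linarith [hwN.2])

theorem locOK_P (hx : x ∈ W) (hp : Priv H R x) : LocOK W H (wt H R) x := by
  obtain ⟨T, hT, hxT⟩ := hS.cov x hx hp.1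
  obtain ⟨y, z, hy, hz, hyz, e⟩ := exists_tri (hS.card T hT) hxT
  have l : LE H x y z := ⟨e ▸ hT, hy, hz, hyz⟩
  have hs : ¬ St H R x := fun h => notPriv_of_St h hp
  have hD : ¬ Dv H R x := fun h => hp.2 (Sh_of_Dv h)
  have hE : ¬ Ev H R x := fun h => hp.2 (Sh_of_Ev h)
  have hpy : ¬ Priv H R y := fun h => hS.priv _ l.1 x (by simp) y (by simp) hy.symm ⟨hp, h⟩
  have hpz : ¬ Priv H R z := fun h => hS.priv _ l.1 x (by simp) z (by simp) hz.symm ⟨hp, h⟩
  have hw := wt_priv hp l.1 (by simp)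
  have h0 : 0 ≤ wt H R x := by linarith [wt_low (H := H) (R := R) x]
  by_cases h : HasD H R {x, y, z}
  · obtain ⟨h1, h2⟩ := (edge_N hS hs hD hE l).1 h
    have h3 := hw.1 h
    exact locOK1 hS.sub l.1 hy hz hyz (by rw [h3, h1]; norm_num) (by rw [h3, h2]; norm_num)
      (by rw [h3, h1, h2]; norm_num) h0
  · have hyD : ¬ Dv H R y := fun h' => h ⟨y, by simp, h'⟩
    have hzD : ¬ Dv H R z := fun h' => h ⟨z, by simp, h'⟩
    have h4 := wt4 hpy hyD
    have h5 := wt4 hpz hzD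
    by_cases h' : HasE H R {x, y, z}
    · have h3 := hw.2.1 h h'
      have h6 : 27 / 5 ≤ wt H R y + wt H R z := by
        obtain ⟨v, hv, hvE⟩ := h'
        obtain ⟨p, hpT, hpv, hpS⟩ := Ev_partner hvE l.1 hv
        have h7 := wt_St hpS
        simp only [mem_insert, mem_singleton] at hpT
        rcases hpT with rfl | rfl | rfl
        · exact absurd hpS hs
        · linarith
        · linarith
      exact locOK1 hS.sub l.1 hy hz hyz (by linarith) (by linarith) (by linarith) h0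
    · have hyE : ¬ Ev H R y := fun h'' => h' ⟨y, by simp, h''⟩
      have hzE : ¬ Ev H R z := fun h'' => h' ⟨z, by simp, h''⟩
      have h6 := wt6 hpy hyE l.1 (by simp) h
      have h7 := wt6 hpz hzE l.1 (by simp) h
      exact locOK1 hS.sub l.1 hy hz hyz (by linarith [hw.2.2]) (by linarith [hw.2.2])
        (by linarith [hw.2.2]) h0

/-- all local inequalities -/
theorem locOK_all (hx : x ∈ W) (hR : ¬ R x) : LocOK W H (wt H R) x := by
  by_cases h1 : St H R x
  · exact locOK_strong hS h1 hR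
  by_cases h2 : Dv H R x
  · exact locOK_D hS h2
  by_cases h3 : Ev H R x
  · exact locOK_E hS h2 h3
  by_cases h4 : Sh H x
  · exact locOK_N hS h1 h2 h3 h4
  · exact locOK_P hS hx ⟨hR, h4⟩

end Pool.Agent.H61.FC
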