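import Pool.Agent.H61.Rule4
import Pool.Agent.H61.Conv

set_option autoImplicit false
set_option linter.all false

/-!
# The star inequality with general weights, and small configurations
-/

namespace Pool.Agent.H61.FC

open Finset

variable {α : Type*} [DecidableEq α]

theorem layers {A B D r n0 na nb nd nbd : ℝ} (h1 : na ≤ n0) (h2 : nb ≤ n0) (h3 : nd ≤ n0)
    (h4 : nbd ≤ nb) (h5 : nbd ≤ nd) (h6 : 0 ≤ na) (h7 : 0 ≤ nbd)
    (hB : 0 ≤ B) (hD : 0 ≤ D) (hr : 0 ≤ r)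
    (g1 : r ≤ A) (g2 : 5 * r ≤ 3 * A + B + D) (g3 : 2 * r ≤ A + B + D)
    (g4 : 3 * r ≤ A + B + 3 * D) (g5 : 3 * r ≤ A + 3 * B + D) (g6 : r ≤ B + D) :
    0 ≤ n0 * (A + B + D - r) + na * (-A + B + D - r) + nb * (A - B + D - r) +
      nd * (A + B - D - r) + nbd * (A - B - D - r) := by
  have v0 : 0 ≤ A + B + D - r := by linarith
  have va : 0 ≤ 2 * (B + D) - 2 * r := by linarith
  have vb : 0 ≤ 2 * A + 2 * D - 2 * r := by linarith
  have vd : 0 ≤ 2 * A + 2 * B - 2 * r := by linarith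
  have vab : 0 ≤ A + B + 3 * D - 3 * r := by linarith
  have vad : 0 ≤ A + 3 * B + D - 3 * r := by linarith
  have vbd : 0 ≤ 3 * A + B + D - 3 * r := by linarith
  have vabd : 0 ≤ 2 * A + 2 * B + 2 * D - 4 * r := by linarith
  have vbd' : 0 ≤ 4 * A - 4 * r := by linarith
  have vall : 0 ≤ 3 * A + B + D - 5 * r := by linarith
  rcases le_total na nb with c1 | c1
  · rcases le_total na nd with c2 | c2
    · rcases le_total nb nd with c3 | c3
      · rcases le_total na nbd with c4 | c4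
        · nlinarith [mul_nonneg (sub_nonneg.2 h3) v0, mul_nonneg (sub_nonneg.2 c3) vd,
            mul_nonneg (sub_nonneg.2 h4) vbd, mul_nonneg (sub_nonneg.2 c4) vbd',
            mul_nonneg h6 vall]
        · nlinarith [mul_nonneg (sub_nonneg.2 h3) v0, mul_nonneg (sub_nonneg.2 c3) vd,
            mul_nonneg (sub_nonneg.2 c1) vbd, mul_nonneg (sub_nonneg.2 c4) vabd,
            mul_nonneg h7 vall]
      · rcases le_total na nbd with c4 | c4
        · nlinarith [mul_nonneg (sub_nonneg.2 h2) v0, mul_nonneg (sub_nonneg.2 c3) vb,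
            mul_nonneg (sub_nonneg.2 h5) vbd, mul_nonneg (sub_nonneg.2 c4) vbd',
            mul_nonneg h6 vall]
        · nlinarith [mul_nonneg (sub_nonneg.2 h2) v0, mul_nonneg (sub_nonneg.2 c3) vb,
            mul_nonneg (sub_nonneg.2 c2) vbd, mul_nonneg (sub_nonneg.2 c4) vabd,
            mul_nonneg h7 vall]
    · have c3 : nd ≤ nb := c2.trans c1
      nlinarith [mul_nonneg (sub_nonneg.2 h2) v0, mul_nonneg (sub_nonneg.2 c1) vb,
        mul_nonneg (sub_nonneg.2 c2) vab, mul_nonneg (sub_nonneg.2 h5) vabd, mul_nonneg h7 vall]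
  · rcases le_total na nd with c2 | c2
    · have c3 : nb ≤ nd := c1.trans c2
      nlinarith [mul_nonneg (sub_nonneg.2 h3) v0, mul_nonneg (sub_nonneg.2 c2) vd,
        mul_nonneg (sub_nonneg.2 c1) vad, mul_nonneg (sub_nonneg.2 h4) vabd, mul_nonneg h7 vall]
    · rcases le_total nb nd with c3 | c3
      · nlinarith [mul_nonneg (sub_nonneg.2 h1) v0, mul_nonneg (sub_nonneg.2 c2) va,
          mul_nonneg (sub_nonneg.2 c3) vad, mul_nonneg (sub_nonneg.2 h4) vabd, mul_nonneg h7 vall]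
      · nlinarith [mul_nonneg (sub_nonneg.2 h1) v0, mul_nonneg (sub_nonneg.2 c1) va,
          mul_nonneg (sub_nonneg.2 c3) vab, mul_nonneg (sub_nonneg.2 h5) vabd, mul_nonneg h7 vall]

/-- the star with two edges, general weights -/
theorem star_loc {𝒟 : Finset (Finset α)} (h : Dn 𝒟) {a b c : α} (hab : a ≠ b) (hac : a ≠ c)
    (hbc : b ≠ c) (eab : ∀ D ∈ 𝒟, ¬ (a ∈ D ∧ b ∈ D)) (eac : ∀ D ∈ 𝒟, ¬ (a ∈ D ∧ c ∈ D))
    {A B D r : ℝ} (hB : 0 ≤ B) (hD : 0 ≤ D) (hr : 0 ≤ r)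
    (g1 : r ≤ A) (g2 : 5 * r ≤ 3 * A + B + D) (g3 : 2 * r ≤ A + B + D)
    (g4 : 3 * r ≤ A + B + 3 * D) (g5 : 3 * r ≤ A + 3 * B + D) (g6 : r ≤ B + D) :
    r * (𝒟.card : ℝ) ≤ A * dg 𝒟 a + B * dg 𝒟 b + D * dg 𝒟 c := by
  have hs := q3_sumP 𝒟 a b c (fun _ => True)
  have hs0 := q3_sumP 𝒟 a b c (fun x => x.1 = true)
  have hs1 := q3_sumP 𝒟 a b c (fun x => x.2.1 = true)
  have hs2 := q3_sumP 𝒟 a b c (fun x => x.2.2 = true)
  simp only [Fintype.sum_prod_type, Fintype.sum_bool, filter_true, decide_eq_true_eq, if_true,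
    if_false, Bool.false_eq_true, reduceIte, add_zero, zero_add] at hs hs0 hs1 hs2
  have z111 : q3 𝒟 a b c (true, true, true) = 0 := q3_zero (fun D hD hh => by
    simp only [Prod.mk.injEq, decide_eq_true_eq, decide_eq_false_iff_not] at hh
    exact eab D hD (by tauto))
  have z110 : q3 𝒟 a b c (true, true, false) = 0 := q3_zero (fun D hD hh => by
    simp only [Prod.mk.injEq, decide_eq_true_eq, decide_eq_false_iff_not] at hh
    exact eab D hD (by tauto))
  have z101 : q3 𝒟 a b c (true, false, true) = 0 := q3_zero (fun D hD hh => by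
    simp only [Prod.mk.injEq, decide_eq_true_eq, decide_eq_false_iff_not] at hh
    exact eac D hD (by tauto))
  have m1 := q3_mono1 h hab hac false false
  have m2 := q3_mono2 h hab hbc false false
  have m3 := q3_mono3 h hac hbc false false
  have m4 := q3_mono3 h hac hbc false true
  have m5 := q3_mono2 h hab hbc false true
  simp only [z111, z110, z101, add_zero, zero_add] at hs hs0 hs1 hs2
  unfold dg
  rw [hs, hs0, hs1, hs2]
  push_cast
  have n1 : (q3 𝒟 a b c (true, false, false) : ℝ) ≤ q3 𝒟 a b c (false, false, false) := by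
    exact_mod_cast m1
  have n2 : (q3 𝒟 a b c (false, true, false) : ℝ) ≤ q3 𝒟 a b c (false, false, false) := by
    exact_mod_cast m2
  have n3 : (q3 𝒟 a b c (false, false, true) : ℝ) ≤ q3 𝒟 a b c (false, false, false) := by
    exact_mod_cast m3
  have n4 : (q3 𝒟 a b c (false, true, true) : ℝ) ≤ q3 𝒟 a b c (false, true, false) := by
    exact_mod_cast m4
  have n5 : (q3 𝒟 a b c (false, true, true) : ℝ) ≤ q3 𝒟 a b c (false, false, true) := by
    exact_mod_cast m5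
  have n6 : (0 : ℝ) ≤ q3 𝒟 a b c (true, false, false) := Nat.cast_nonneg _
  have n7 : (0 : ℝ) ≤ q3 𝒟 a b c (false, true, true) := Nat.cast_nonneg _
  have := layers n1 n2 n3 n4 n5 n6 n7 hB hD hr g1 g2 g3 g4 g5 g6
  nlinarith

variable {W : Finset α} {H : Finset (Finset α)} {c : α → ℝ} {x : α}

/-- path with two edges, general weights -/
theorem locOKstar (hW : ∀ T ∈ H, T ⊆ W) {a b d : α} (hx : ({x, a, b} : Finset α) ∈ H)
    (hx' : ({x, a, d} : Finset α) ∈ H)
    (hax : a ≠ x) (hbx : b ≠ x) (hdx : d ≠ x) (hab : a ≠ b) (had : a ≠ d) (hbd : b ≠ d)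
    (hB : 0 ≤ c b) (hD : 0 ≤ c d) (hr : 0 ≤ c x)
    (g1 : c x ≤ c a) (g2 : 5 * c x ≤ 3 * c a + c b + c d) (g3 : 2 * c x ≤ c a + c b + c d)
    (g4 : 3 * c x ≤ c a + c b + 3 * c d) (g5 : 3 * c x ≤ c a + 3 * c b + c d)
    (g6 : c x ≤ c b + c d) : LocOK W H c x := by
  refine ⟨{{x, a, b}, {x, a, d}}, ?_, card_le_two.trans (by norm_num), by simp,
    {a, b, d}, ?_, ?_, ?_, ?_⟩
  · intro t ht
    simp only [mem_insert, mem_singleton] at ht
    rcases ht with rfl | rfl <;> assumption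
  · intro t ht
    have h4 := hW _ hx
    have h5 := hW _ hx'
    simp only [insert_subset_iff, singleton_subset_iff, mem_insert, mem_singleton] at h4 h5 ht
    rcases ht with rfl | rfl | rfl <;> tauto
  · exact card_le_three.trans (by norm_num)
  · simp [hax.symm, hbx.symm, hdx.symm]
  · intro 𝒟 h𝒟 hno
    rw [sum_insert (by simp [hab, had]), sum_insert (by simp [hbd]), sum_singleton]
    have e1 := star_loc h𝒟 hab had hbd (no_pair' hno (by simp)) (no_pair' hno (by simp))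
      hB hD hr g1 g2 g3 g4 g5 g6
    linarith

/-- path with two edges and one edge, general weights -/
theorem locOKstarE (hW : ∀ T ∈ H, T ⊆ W) {a b d e f : α} (hx : ({x, a, b} : Finset α) ∈ H)
    (hx' : ({x, a, d} : Finset α) ∈ H) (hx'' : ({x, e, f} : Finset α) ∈ H)
    (hax : a ≠ x) (hbx : b ≠ x) (hdx : d ≠ x) (hex : e ≠ x) (hfx : f ≠ x)
    (hab : a ≠ b) (had : a ≠ d) (hbd : b ≠ d) (hae : a ≠ e) (haf : a ≠ f) (hbe : b ≠ e)
    (hbf : b ≠ f) (hde : d ≠ e) (hdf : d ≠ f) (hef : e ≠ f) {r r' : ℝ}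
    (hB : 0 ≤ c b) (hD : 0 ≤ c d) (hr : 0 ≤ r)
    (g1 : r ≤ c a) (g2 : 5 * r ≤ 3 * c a + c b + c d) (g3 : 2 * r ≤ c a + c b + c d)
    (g4 : 3 * r ≤ c a + c b + 3 * c d) (g5 : 3 * r ≤ c a + 3 * c b + c d)
    (g6 : r ≤ c b + c d) (k1 : r' ≤ c e) (k2 : r' ≤ c f) (k3 : 3 * r' ≤ c e + c f) (k0 : 0 ≤ r')
    (hrr : c x ≤ r + r') : LocOK W H c x := by
  refine ⟨{{x, a, b}, {x, a, d}, {x, e, f}}, ?_, card_le_three, by simp,
    {a, b, d, e, f}, ?_, ?_, ?_, ?_⟩
  · intro t ht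
    simp only [mem_insert, mem_singleton] at ht
    rcases ht with rfl | rfl | rfl <;> assumption
  · intro t ht
    have h4 := hW _ hx
    have h5 := hW _ hx'
    have h6 := hW _ hx''
    simp only [insert_subset_iff, singleton_subset_iff, mem_insert, mem_singleton] at h4 h5 h6 ht
    rcases ht with rfl | rfl | rfl | rfl | rfl <;> tauto
  · exact card_le_five.trans (by norm_num)
  · simp [hax.symm, hbx.symm, hdx.symm, hex.symm, hfx.symm]
  · intro 𝒟 h𝒟 hno
    rw [sum_insert (by simp [hab, had, hae, haf]), sum_insert (by simp [hbd, hbe, hbf]),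
      sum_insert (by simp [hde, hdf]), sum_insert (by simp [hef]), sum_singleton]
    have e1 := star_loc h𝒟 hab had hbd (no_pair' hno (by simp)) (no_pair' hno (by simp))
      hB hD hr g1 g2 g3 g4 g5 g6
    have e6 := edge_loc h𝒟 hef (no_pair' hno (by simp)) k1 k2 k3 k0
    have e5 : c x * (𝒟.card : ℝ) ≤ (r + r') * (𝒟.card : ℝ) :=
      mul_le_mul_of_nonneg_right hrr (Nat.cast_nonneg _)
    linarith

/-- the criterion through `LocOK` -/
theorem fc_of_loc {F G : Finset (Finset α)} {S : Finset α} (hF : ∀ A ∈ F, ∀ B ∈ F, A ∪ B ∈ F)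
    (hGS : ∀ B ∈ G, B ⊆ S) (hGF : G ⊆ F) {c : α → ℝ} (hc0 : ∀ x, 0 ≤ c x)
    (hpos : ∃ x ∈ S, 0 < c x) (hc : ∀ x ∈ S, LocOK S G c x) :
    ∃ x ∈ S, F.card ≤ 2 * (F.filter (fun A => x ∈ A)).card := by
  refine fc_of_dg (G := G) (c := c) hF hGS hGF hc0 hpos ?_
  intro x hx 𝒟 hD hDs hv
  obtain ⟨Q, hQ, hQ3, hxQ, C, hCW, hC6, hxC, hloc⟩ := hc x hx
  refine (hloc 𝒟 hD (fun D hD' T hT => hv D hD' T (hQ hT) (hxQ T hT))).trans ?_
  refine sum_le_sum_of_subset_of_nonneg ?_ ?_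
  · intro e he
    exact mem_erase.2 ⟨fun h => hxC (h ▸ he), hCW he⟩
  · intro e _ _
    exact mul_nonneg (hc0 e) (dg_nonneg hD e)

end Pool.Agent.H61.FC
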