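import Pool.Agent.H61.PS7

set_option autoImplicit false
set_option linter.all false

/-!
# Families without an element in more than half of the members: free elements and twins
-/

namespace Pool.Agent.H61.TF

open Finset Pool.Agent.H61.PS

variable {α : Type*} [DecidableEq α]

/-- no element lies in more than half of the members -/
def Bal (F : Finset (Finset α)) : Prop :=
  F.Nonempty ∧ (∀ A ∈ F, ∀ B ∈ F, A ∪ B ∈ F) ∧
    ∀ x, 2 * (F.filter (fun A => x ∈ A)).card ≤ F.card

theorem Bal.del {F : Finset (Finset α)} {b : α} (h : Bal F) (hb : Free F b) :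
    Bal (F.filter (fun A => b ∉ A)) := by
  have hc := hb.card
  have hpos := h.1.card_pos
  refine ⟨card_pos.1 (by omega), ?_, fun x => ?_⟩
  · intro A hA B hB
    rw [mem_filter] at hA hB ⊢
    refine ⟨h.2.1 A hA.1 B hB.1, ?_⟩
    rw [mem_union]
    tauto
  · by_cases hx : x = b
    · subst hx
      rw [filter_filter, filter_false_of_mem (fun A _ h => h.1 h.2)]
      simp
    · have h1 := hb.freq hx
      have h2 := h.2.2 x
      omega

theorem Free.lift {F : Finset (Finset α)} {b c : α} (hb : Free F b)
    (hc : Free (F.filter (fun A => b ∉ A)) c) (hbc : c ≠ b) : Free F c := by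
  intro A hA
  by_cases hbA : b ∈ A
  · have h1 : A.erase b ∈ F.filter (fun A => b ∉ A) :=
      mem_filter.2 ⟨(hb A hA).2, notMem_erase _ _⟩
    obtain ⟨h2, h3⟩ := hc _ h1
    have h4 := (hb _ (mem_filter.1 h2).1).1
    have h5 := (hb _ (mem_filter.1 h3).1).1
    rw [insert_comm, insert_erase hbA] at h4
    rw [erase_right_comm, insert_erase (mem_erase.2 ⟨hbc.symm, hbA⟩)] at h5
    exact ⟨h4, h5⟩
  · obtain ⟨h2, h3⟩ := hc A (mem_filter.2 ⟨hA, hbA⟩)
    exact ⟨(mem_filter.1 h2).1, (mem_filter.1 h3).1⟩

/-- deletion of all free elements -/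
theorem structure_bal (m : ℕ) : ∀ F : Finset (Finset α), F.card = m → Bal F →
    ∃ R : Finset α, (∀ b ∈ R, Free F b) ∧ Bal (F.filter (fun A => Disjoint A R)) ∧
      (∀ b, ¬ Free (F.filter (fun A => Disjoint A R)) b) ∧
      F.card = 2 ^ R.card * (F.filter (fun A => Disjoint A R)).card := by
  induction m using Nat.strong_induction_on with
  | _ m ih =>
  intro F hm hF
  by_cases hfree : ∃ b, Free F b
  · obtain ⟨b, hb⟩ := hfree
    have hc := hb.card
    have hpos := hF.1.card_pos
    have hdel := hF.del hb
    obtain ⟨R, h1, h2, h3, h4⟩ := ih (F.filter (fun A => b ∉ A)).card (by omega) _ rfl hdel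
    have hbR : b ∉ R := by
      intro hbR
      obtain ⟨A, hA⟩ := hdel.1
      have := (h1 b hbR A hA).1
      exact (mem_filter.1 this).2 (mem_insert_self _ _)
    have e : F.filter (fun A => Disjoint A (insert b R)) =
        (F.filter (fun A => b ∉ A)).filter (fun A => Disjoint A R) := by
      ext A
      simp only [mem_filter, disjoint_insert_right]
      tauto
    refine ⟨insert b R, ?_, ?_, ?_, ?_⟩
    · intro c hc'
      rcases mem_insert.1 hc' with rfl | hcR
      · exact hb
      · exact Free.lift hb (h1 c hcR) (fun e => hbR (e ▸ hcR))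
    · rw [e]; exact h2
    · rw [e]; exact h3
    · rw [e, card_insert_of_notMem hbR, pow_succ, hc, h4]
      ring
  · push Not at hfree
    have e : F.filter (fun A => Disjoint A (∅ : Finset α)) = F :=
      filter_true_of_mem fun A _ => disjoint_empty_right A
    refine ⟨∅, fun b hb => absurd hb (notMem_empty b), ?_, ?_, ?_⟩
    · rw [e]; exact hF
    · rw [e]; exact hfree
    · rw [e]; simp

/-- deletion of a twin -/
theorem Bal.twin {F : Finset (Finset α)} (h : Bal F) {x y : α} (hxy : x ≠ y)
    (htw : ∀ A ∈ F, x ∈ A ↔ y ∈ A) :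
    Bal (F.image (fun A => A.erase y)) ∧ (F.image (fun A => A.erase y)).card = F.card := by
  have hinj : Set.InjOn (fun A : Finset α => A.erase y) (F : Set (Finset α)) := by
    intro A hA B hB e
    have e' : A.erase y = B.erase y := e
    have h1 : x ∈ A ↔ x ∈ B := by
      have : x ∈ A.erase y ↔ x ∈ B.erase y := by rw [e']
      simpa [hxy] using this
    have h2 : y ∈ A ↔ y ∈ B := by
      rw [← htw A hA, ← htw B hB]; exact h1
    ext z
    by_cases hz : z = y
    · rw [hz]; exact h2
    · have : z ∈ A.erase y ↔ z ∈ B.erase y := by rw [e']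
      simpa [hz] using this
  have hc := card_image_of_injOn hinj
  refine ⟨⟨h.1.image _, ?_, fun z => ?_⟩, hc⟩
  · intro A hA B hB
    obtain ⟨A', hA', rfl⟩ := mem_image.1 hA
    obtain ⟨B', hB', rfl⟩ := mem_image.1 hB
    exact mem_image.2 ⟨A' ∪ B', h.2.1 _ hA' _ hB', erase_union_distrib _ _ _⟩
  · rw [hc]
    refine le_trans ?_ (h.2.2 z)
    apply Nat.mul_le_mul_left
    rw [filter_image]
    refine card_image_le.trans (card_le_card ?_)
    intro A hA
    rw [mem_filter] at hA ⊢
    exact ⟨hA.1, mem_of_mem_erase hA.2⟩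

/-- the elements of the union are separated -/
def Sep (F : Finset (Finset α)) : Prop :=
  ∀ x ∈ F.sup id, ∀ y ∈ F.sup id, x ≠ y → ∃ S ∈ F, (x ∈ S ∧ y ∉ S) ∨ (y ∈ S ∧ x ∉ S)

theorem reduction (h : ∀ F : Finset (Finset α), Bal F → Sep F → (∀ b, ¬ Free F b) →
      ∃ k : ℕ, F.card = 2 ^ k) (m : ℕ) :
    ∀ F : Finset (Finset α), F.card + (F.sup id).card = m → Bal F → ∃ k : ℕ, F.card = 2 ^ k := by
  induction m using Nat.strong_induction_on with
  | _ m ih =>
  intro F hm hF
  by_cases hfree : ∃ b, Free F b
  · obtain ⟨b, hb⟩ := hfree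
    have hc := hb.card
    have hpos := hF.1.card_pos
    have hsup : ((F.filter (fun A => b ∉ A)).sup id).card ≤ (F.sup id).card :=
      card_le_card (sup_mono (filter_subset _ _))
    obtain ⟨k, hk⟩ := ih _ (by omega : (F.filter (fun A => b ∉ A)).card +
      ((F.filter (fun A => b ∉ A)).sup id).card < m) _ rfl (hF.del hb)
    exact ⟨k + 1, by rw [hc, hk, pow_succ]; ring⟩
  · push Not at hfree
    by_cases hsep : Sep F
    · exact h F hF hsep hfree
    · unfold Sep at hsep
      push Not at hsep
      obtain ⟨x, hx, y, hy, hxy, hno⟩ := hsep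
      have htw : ∀ A ∈ F, x ∈ A ↔ y ∈ A := by
        intro A hA
        have := hno A hA
        tauto
      obtain ⟨h1, h2⟩ := hF.twin hxy htw
      have hsup : ((F.image (fun A : Finset α => A.erase y)).sup id).card < (F.sup id).card := by
        refine card_lt_card ⟨?_, ?_⟩
        · intro z hz
          rw [mem_sup_id] at hz ⊢
          obtain ⟨A, hA, hzA⟩ := hz
          obtain ⟨A', hA', rfl⟩ := mem_image.1 hA
          exact ⟨A', hA', mem_of_mem_erase hzA⟩
        · intro hsub
          have h3 := hsub hy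
          rw [mem_sup_id] at h3
          obtain ⟨A, hA, hyA⟩ := h3
          obtain ⟨A', hA', rfl⟩ := mem_image.1 hA
          exact notMem_erase y A' hyA
      obtain ⟨k, hk⟩ := ih _ (by omega : (F.image (fun A : Finset α => A.erase y)).card +
        ((F.image (fun A : Finset α => A.erase y)).sup id).card < m) _ rfl h1
      exact ⟨k, by rw [← h2, hk]⟩

/-- the product with the power set of one new element -/
theorem extend [Infinite α] {F : Finset (Finset α)} (hF : Bal F) :
    ∃ G : Finset (Finset α), ∃ b : α, Bal G ∧ 2 * (G.filter (fun A => b ∈ A)).card = G.card ∧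
      G.card = 2 * F.card := by
  obtain ⟨b, hb⟩ := Infinite.exists_notMem_finset (F.sup id)
  have hbF : ∀ A ∈ F, b ∉ A := fun A hA hbA => hb (mem_sup_id.2 ⟨A, hA, hbA⟩)
  set G := F ∪ F.image (fun A => insert b A) with hG
  have hmem : ∀ A : Finset α, A ∈ G ↔ A.erase b ∈ F := by
    intro A
    rw [hG, mem_union, mem_image]
    constructor
    · rintro (hA | ⟨B, hB, rfl⟩)
      · rw [erase_eq_of_notMem (hbF A hA)]; exact hA
      · rw [erase_insert (hbF B hB)]; exact hB
    · intro hA
      by_cases hbA : b ∈ A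
      · exact Or.inr ⟨_, hA, insert_erase hbA⟩
      · rw [erase_eq_of_notMem hbA] at hA
        exact Or.inl hA
  have hfree : Free G b := by
    intro A hA
    rw [hmem, hmem]
    rw [hmem] at hA
    constructor
    · have e : (insert b A).erase b = A.erase b := by ext z; simp only [mem_erase, mem_insert]; tauto
      rw [e]; exact hA
    · have e : (A.erase b).erase b = A.erase b := erase_idem
      rw [e]; exact hA
  have hfil : G.filter (fun A => b ∉ A) = F := by
    ext A
    rw [mem_filter, hmem]
    constructor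
    · rintro ⟨h1, h2⟩
      rwa [erase_eq_of_notMem h2] at h1
    · intro hA
      have := hbF A hA
      exact ⟨by rw [erase_eq_of_notMem this]; exact hA, this⟩
  have hc := hfree.card
  rw [hfil] at hc
  have h6 : (G.filter (fun A => b ∈ A)).card + (G.filter (fun A => ¬ b ∈ A)).card = G.card :=
    card_filter_add_card_filter_not (fun A => b ∈ A)
  rw [hfil] at h6
  refine ⟨G, b, ⟨?_, ?_, fun x => ?_⟩, by omega, hc⟩
  · rw [← card_pos]; have := hF.1.card_pos; omega
  · intro A hA B hB
    rw [hmem] at hA hB ⊢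
    rw [erase_union_distrib]
    exact hF.2.1 _ hA _ hB
  · by_cases hx : x = b
    · subst hx; omega
    · have h1 := hfree.freq hx
      rw [hfil] at h1
      have h2 := hF.2.2 x
      omega

theorem tight_iff [Infinite α] :
    (∀ F : Finset (Finset α), Bal F → F ≠ {∅} → (∃ x, 2 * (F.filter (fun A => x ∈ A)).card = F.card) →
      ∃ k : ℕ, F.card = 2 ^ k) ↔ ∀ F : Finset (Finset α), Bal F → ∃ k : ℕ, F.card = 2 ^ k := by
  constructor
  · intro h F hF
    obtain ⟨G, b, hG, hb, hc⟩ := extend hF
    obtain ⟨k, hk⟩ := h G hG (by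
      rintro rfl
      rw [card_singleton] at hb
      omega) ⟨b, hb⟩
    have hpos := hF.1.card_pos
    rcases k with _ | k
    · rw [pow_zero] at hk; omega
    · rw [pow_succ] at hk
      exact ⟨k, by omega⟩
  · intro h F hF _ _
    exact h F hF

end Pool.Agent.H61.TF
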